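import Pool.Agent.SurfExact.DefsA
import Pool.Agent.SurfGrowth.Growth

/-!
# MP_5bf54f_al, part A, package A6: numerical lemmas
-/

set_option autoImplicit false
set_option linter.unusedSectionVars false
set_option linter.unusedVariables false

namespace Pool.Agent.SurfExact

open Function Pool.Agent.SurfGrowth Finset

section Main

variable {G : Type*} [Group G] {ι : Type*} [Fintype ι] [DecidableEq ι]

/-- The root equation multiplied by `x - 1`. -/
private lemma A6_q (d : ℕ) (hd : 3 ≤ d) (x : ℝ)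
    (hroot : x ^ d + 1 = (2 * (d : ℝ) - 2) * ∑ i ∈ range (d - 1), x ^ (i + 1)) :
    x ^ (d + 1) = (2 * (d : ℝ) - 1) * x ^ d - (2 * (d : ℝ) - 1) * x + 1 := by
  have h1 : (∑ i ∈ range (d - 1), x ^ (i + 1)) * (x - 1) = x ^ d - x := by
    have h2 : ∑ i ∈ range (d - 1), x ^ (i + 1) = x * ∑ i ∈ range (d - 1), x ^ i := by
      rw [mul_sum]
      exact sum_congr rfl fun i _ => by ring
    have h3 := geom_sum_mul x (d - 1)
    have h4 : x ^ d = x * x ^ (d - 1) := by
      rw [← pow_succ']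
      congr 1
      omega
    rw [h2, mul_assoc, h3, h4]
    ring
  have h5 : (x ^ d + 1) * (x - 1) = (2 * (d : ℝ) - 2) * (x ^ d - x) := by
    rw [hroot, mul_assoc, h1]
  rw [pow_succ]
  linarith

private lemma A6_lt (d : ℕ) (hd : 3 ≤ d) (x : ℝ) (hx : 1 < x)
    (hroot : x ^ d + 1 = (2 * (d : ℝ) - 2) * ∑ i ∈ range (d - 1), x ^ (i + 1)) :
    x < 2 * (d : ℝ) - 1 := by
  have h1 := A6_q d hd x hroot
  have hd' : (3 : ℝ) ≤ d := by exact_mod_cast hd
  have h2 : x ^ d * (2 * (d : ℝ) - 1 - x) = (2 * (d : ℝ) - 1) * x - 1 := by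
    rw [pow_succ] at h1
    linarith
  have h3 : 0 < (2 * (d : ℝ) - 1) * x - 1 := by nlinarith
  have h4 : 0 < x ^ d := by positivity
  rw [← h2] at h3
  have h5 := (mul_pos_iff_of_pos_left h4).mp h3
  linarith

private lemma A6_pow (D : ℝ) (hD : 0 ≤ D) (V : ℕ → ℝ) (hV0 : V 0 = 1) (n : ℕ)
    (hrec : ∀ k < n, V (k + 1) = D * V k + 2) : D ^ n ≤ V n := by
  induction n with
  | zero => simp [hV0]
  | succ n ih =>
    have h1 := ih (fun k hk => hrec k (by omega))
    rw [hrec n (by omega), pow_succ]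
    nlinarith

/-- Free case. -/
theorem numeric_free (d : ℕ) (hd : 3 ≤ d) (V : ℕ → ℝ) (hV0 : V 0 = 1)
    (hrec : ∀ n, V (n + 1) = (2 * (d : ℝ) - 1) * V n + 2)
    (x : ℝ) (hx : 1 < x) (hroot : x ^ d + 1 = (2 * (d : ℝ) - 2) * ∑ i ∈ range (d - 1), x ^ (i + 1))
    (n : ℕ) : x ^ n ≤ V n := by
  have h1 := A6_lt d hd x hx hroot
  refine le_trans ?_ (A6_pow (2 * (d : ℝ) - 1) (by linarith) V hV0 n (fun k _ => hrec k))
  gcongr

/-- Growth from `prune` and `V_rec`. -/
theorem numeric_prune (d : ℕ) (hd : 3 ≤ d) (V b : ℕ → ℝ) (hV0 : V 0 = 1) (hb0 : ∀ n, 0 ≤ b n)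
    (hrec : ∀ n, V (n + 1) = (2 * (d : ℝ) - 1) * V n + 2 - b n - b (n + 1))
    (hI : ∀ N, b N + 2 * ∑ j ∈ range (d - 2), b (N + j + 1) + b (N + d - 1) + 1 ≤ V N)
    (x : ℝ) (hx : 1 < x) (hroot : x ^ d + 1 = (2 * (d : ℝ) - 2) * ∑ i ∈ range (d - 1), x ^ (i + 1))
    (n : ℕ) : x ^ n ≤ V n := by
  have hxD := A6_lt d hd x hx hroot
  have hd' : (3 : ℝ) ≤ d := by exact_mod_cast hd
  obtain ⟨m, rfl⟩ : ∃ m, d = m + 2 := ⟨d - 2, by omega⟩
  have hm : m + 2 - 2 = m := by omega
  have hm1 : m + 2 - 1 = m + 1 := by omega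
  rw [hm1] at hroot
  simp only [hm] at hI
  -- the sum of the recursions
  have hsum : ∀ (N k : ℕ), b N + 2 * ∑ j ∈ range k, b (N + j + 1) + b (N + k + 1) =
      (2 * (((m + 2 : ℕ) : ℝ)) - 2) * ∑ j ∈ range (k + 1), V (N + j) + 2 * (k + 1) + V N
        - V (N + k + 1) := by
    intro N k
    induction k with
    | zero =>
      have h := hrec N
      simp only [range_zero, sum_empty, zero_add, sum_range_one, add_zero, Nat.cast_zero, mul_zero]
      linarith
    | succ k ih =>
      have h := hrec (N + k + 1)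
      rw [sum_range_succ, sum_range_succ (fun j => V (N + j))]
      push_cast at ih h ⊢
      have e1 : N + (k + 1) + 1 = N + k + 1 + 1 := by ring
      have e2 : N + (k + 1) = N + k + 1 := by ring
      rw [e1, e2]
      linarith
  have hkey : ∀ N, (2 * (((m + 2 : ℕ) : ℝ)) - 2) * ∑ j ∈ range (m + 1), V (N + j)
      ≤ V (N + m + 1) := by
    intro N
    have h1 := hsum N m
    have h2 := hI N
    have e1 : N + (m + 2) - 1 = N + m + 1 := by omega
    rw [e1] at h2
    have h3 : (0 : ℝ) ≤ m := Nat.cast_nonneg m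
    linarith
  have hstart : ∀ j, j ≤ m + 1 → b j = 0 := by
    intro j hj
    have h1 := hI 0
    have e1 : 0 + (m + 2) - 1 = m + 1 := by omega
    rw [e1, hV0] at h1
    simp only [zero_add] at h1
    have h2 : 0 ≤ ∑ j ∈ range m, b (j + 1) := sum_nonneg fun i _ => hb0 _
    rcases Nat.eq_zero_or_pos j with rfl | h
    · linarith [hb0 0, hb0 (m + 1)]
    · rcases Nat.lt_or_ge j (m + 1) with h3 | h3
      · have h4 : b j ≤ ∑ j ∈ range m, b (j + 1) := by
          have h5 := single_le_sum (f := fun j => b (j + 1)) (fun i _ => hb0 _)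
            (mem_range.mpr (by omega : j - 1 < m))
          have e2 : j - 1 + 1 = j := by omega
          simp only [e2] at h5
          exact h5
        linarith [hb0 0, hb0 (m + 1), hb0 j]
      · have e2 : j = m + 1 := by omega
        rw [e2]
        linarith [hb0 0, hb0 (m + 1)]
  induction n using Nat.strong_induction_on with
  | _ n ih =>
    rcases Nat.lt_or_ge n (m + 1) with hn | hn
    · refine le_trans ?_ (A6_pow (2 * (((m + 2 : ℕ) : ℝ)) - 1) (by linarith) V hV0 n
        (fun k hk => ?_))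
      · gcongr
      · rw [hrec k, hstart k (by omega), hstart (k + 1) (by omega)]
        ring
    · obtain ⟨N, rfl⟩ : ∃ N, n = N + m + 1 := ⟨n - (m + 1), by omega⟩
      refine le_trans ?_ (hkey N)
      have h1 : ∑ j ∈ range (m + 1), x ^ (N + j) ≤ ∑ j ∈ range (m + 1), V (N + j) :=
        sum_le_sum fun j hj => ih (N + j) (by have := mem_range.mp hj; omega)
      have h2 : x ^ (N + m + 1) ≤ (2 * (((m + 2 : ℕ) : ℝ)) - 2) *
          ∑ j ∈ range (m + 1), x ^ (N + j) := by
        have h3 : x ^ N * (x ^ (m + 2) + 1) = x * ((2 * (((m + 2 : ℕ) : ℝ)) - 2) *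
            ∑ j ∈ range (m + 1), x ^ (N + j)) := by
          rw [hroot, mul_sum, mul_sum, mul_sum, mul_sum]
          refine sum_congr rfl fun i _ => ?_
          rw [pow_add, pow_succ]
          ring
        have h4 : x * x ^ (N + m + 1) ≤ x * ((2 * (((m + 2 : ℕ) : ℝ)) - 2) *
            ∑ j ∈ range (m + 1), x ^ (N + j)) := by
          rw [← h3]
          have h5 : x * x ^ (N + m + 1) = x ^ N * x ^ (m + 2) := by ring
          rw [h5]
          have : 0 < x ^ N := by positivity
          linarith [mul_add (x ^ N) (x ^ (m + 2)) 1]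
        exact le_of_mul_le_mul_left h4 (by linarith)
      refine h2.trans ?_
      have h6 : (0 : ℝ) ≤ 2 * (((m + 2 : ℕ) : ℝ)) - 2 := by linarith
      gcongr

/-- Growth of a family of standard type from below. -/
theorem numeric_std (d : ℕ) (hd : 3 ≤ d) (V b : ℕ → ℝ) (hV0 : V 0 = 1) (hb0 : ∀ n, 0 ≤ b n)
    (hbm : ∀ n, b n ≤ b (n + 1))
    (hVm : ∀ n, V n ≤ V (n + 1))
    (hrec : ∀ n, V (n + 1) = (2 * (d : ℝ) - 1) * V n + 2 - b n - b (n + 1))
    (hbs : ∀ n < d, b n = 0)
    (hI : ∀ N, b (N + d) + b N ≤ (2 * (d : ℝ) - 2) * V N + 2)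
    (x : ℝ) (hx : 1 < x) (hroot : x ^ d + 1 = (2 * (d : ℝ) - 2) * ∑ i ∈ range (d - 1), x ^ (i + 1))
    (n : ℕ) : x ^ n ≤ 3 * d * V n := by
  have hxD := A6_lt d hd x hx hroot
  have hq := A6_q d hd x hroot
  have hd' : (3 : ℝ) ≤ d := by exact_mod_cast hd
  set D : ℝ := 2 * (d : ℝ) - 1 with hD
  have hVmono : Monotone V := monotone_nat_of_le_succ hVm
  have hV1 : ∀ n, 1 ≤ V n := fun n => by
    rw [← hV0]; exact hVmono (Nat.zero_le n)
  -- `u k = V k - (D - x) * sum_{j < k} x^(k-1-j) V j`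
  set u : ℕ → ℝ := fun k => V k - (D - x) * ∑ j ∈ range k, x ^ (k - 1 - j) * V j with hu
  have hu0 : u 0 = 1 := by simp [hu, hV0]
  have hus : ∀ k, u (k + 1) = x * u k + (V (k + 1) - D * V k) := by
    intro k
    simp only [hu]
    rw [sum_range_succ]
    have e1 : k + 1 - 1 - k = 0 := by omega
    rw [e1, pow_zero, one_mul]
    have e2 : ∑ j ∈ range k, x ^ (k + 1 - 1 - j) * V j = x * ∑ j ∈ range k, x ^ (k - 1 - j) * V j := by
      rw [mul_sum]
      refine sum_congr rfl fun j hj => ?_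
      have := mem_range.mp hj
      have e3 : k + 1 - 1 - j = (k - 1 - j) + 1 := by omega
      rw [e3, pow_succ]
      ring
    rw [e2]
    ring
  have hsmall : ∀ k < d, x ^ k ≤ u k := by
    intro k
    induction k with
    | zero => intro _; simp [hu0]
    | succ k ih =>
      intro hk
      have h1 := ih (by omega)
      rw [hus k, hrec k, hbs k (by omega), hbs (k + 1) hk, pow_succ]
      nlinarith
  have hud : x ^ d + 1 - D ≤ u d := by
    obtain ⟨m, hm⟩ : ∃ m, d = m + 1 := ⟨d - 1, by omega⟩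
    have h1 := hsmall m (by omega)
    have h2 : u d = x * u m + (V (m + 1) - D * V m) := by rw [← hus m, ← hm]
    have h3 := hI 0
    rw [zero_add, hV0, hbs 0 (by omega)] at h3
    have h4 := hrec m
    rw [hbs m (by omega)] at h4
    have h5 : b (m + 1) = b d := by rw [hm]
    have h6 : x ^ d = x * x ^ m := by rw [hm, pow_succ]; ring
    rw [h2, h4, h5, h6]
    nlinarith
  -- `U n`
  set U : ℕ → ℝ := fun n => V (n + d) - (D - x) * ∑ j ∈ range (d - 1), x ^ (d - 2 - j) * V (n + j + 1)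
    + V n / x with hU
  have hxpos : 0 < x := by linarith
  have hDx : (D - x) * x ^ (d - 1) + 1 / x = D := by
    have e1 : x ^ (d + 1) = x ^ (d - 1) * x * x := by
      rw [← pow_succ, ← pow_succ]; congr 1; omega
    have e2 : x ^ d = x ^ (d - 1) * x := by
      rw [← pow_succ]; congr 1; omega
    rw [e1, e2] at hq
    field_simp
    linarith
  have hU0 : x ^ d ≤ U 0 := by
    have h1 : U 0 = u d + D := by
      simp only [hU, hu]
      obtain ⟨m, hm⟩ : ∃ m, d = m + 1 := ⟨d - 1, by omega⟩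
      have e0 : d - 1 = m := by omega
      have h2 : ∑ j ∈ range d, x ^ (d - 1 - j) * V j
          = x ^ (d - 1) * V 0 + ∑ j ∈ range (d - 1), x ^ (d - 2 - j) * V (0 + j + 1) := by
        rw [e0, hm, sum_range_succ']
        simp only [Nat.sub_zero, zero_add]
        rw [add_comm]
        congr 1
        refine sum_congr rfl fun j hj => ?_
        have := mem_range.mp hj
        have e3 : m + 1 - 2 - j = m - (j + 1) := by omega
        rw [e3]
      rw [h2, zero_add, hV0]
      linarith [hDx]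
    rw [h1]
    linarith
  have hUs : ∀ n, x * U n ≤ U (n + 1) := by
    intro n
    have hc : 0 ≤ V (n + d + 1) - D * V (n + d) + D * V (n + 1) - V n := by
      have h1 := hI n
      have h2 := hI (n + 1)
      have h3 := hrec n
      have h4 := hrec (n + d)
      have e1 : n + 1 + d = n + d + 1 := by ring
      rw [e1] at h2
      rw [h4]
      have h5 : (2 * (d : ℝ) - 2) = D - 1 := by rw [hD]; ring
      rw [h5] at h1 h2
      nlinarith
    have h1 : U (n + 1) - x * U n = V (n + d + 1) - D * V (n + d) + D * V (n + 1) - V n := by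
      simp only [hU]
      obtain ⟨m, hm⟩ : ∃ m, d = m + 2 := ⟨d - 2, by omega⟩
      have e0 : d - 1 = m + 1 := by omega
      have e1 : d - 2 = m := by omega
      have e2 : n + 1 + d = n + d + 1 := by ring
      rw [e0] at hDx
      rw [e0, e1, e2]
      rw [sum_range_succ (fun j => x ^ (m - j) * V (n + 1 + j + 1)),
        sum_range_succ' (fun j => x ^ (m - j) * V (n + j + 1))]
      simp only [Nat.sub_zero, Nat.sub_self, pow_zero, one_mul, add_zero]
      have e3 : x * ∑ j ∈ range m, x ^ (m - (j + 1)) * V (n + (j + 1) + 1)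
          = ∑ j ∈ range m, x ^ (m - j) * V (n + 1 + j + 1) := by
        rw [mul_sum]
        refine sum_congr rfl fun j hj => ?_
        have := mem_range.mp hj
        have e4 : m - j = (m - (j + 1)) + 1 := by omega
        have e5 : n + (j + 1) + 1 = n + 1 + j + 1 := by ring
        rw [e4, e5, pow_succ]
        ring
      have e6 : n + 1 + m + 1 = n + d := by omega
      rw [e6, ← e3]
      have e7 : x * (V n / x) = V n := by field_simp
      have e8 : (D - x) * x ^ (m + 1) * V (n + 1) + V (n + 1) / x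
          = ((D - x) * x ^ (m + 1) + 1 / x) * V (n + 1) := by ring
      rw [hDx] at e8
      have e9 : x ^ (m + 1) = x * x ^ m := by ring
      rw [e9] at e8
      linear_combination e8 - e7
    linarith
  have hUn : ∀ n, x ^ (n + d) ≤ U n := by
    intro n
    induction n with
    | zero => simpa using hU0
    | succ n ih =>
      refine le_trans ?_ (hUs n)
      have : x ^ (n + 1 + d) = x * x ^ (n + d) := by ring
      rw [this]
      gcongr
  have hfin : ∀ n, x ^ (n + d) ≤ 2 * V (n + d) := by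
    intro n
    refine (hUn n).trans ?_
    simp only [hU]
    have h1 : 0 ≤ (D - x) * ∑ j ∈ range (d - 1), x ^ (d - 2 - j) * V (n + j + 1) := by
      refine mul_nonneg (by linarith) (sum_nonneg fun j _ => ?_)
      have := hV1 (n + j + 1)
      positivity
    have h2 : V n / x ≤ V (n + d) := by
      rw [div_le_iff₀ hxpos]
      have h3 := hVmono (Nat.le_add_right n d)
      have h4 := hV1 (n + d)
      nlinarith
    linarith
  have h2V : x ^ n ≤ 2 * V n := by
    rcases Nat.lt_or_ge n d with h | h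
    · have h1 : D ^ n ≤ V n := A6_pow D (by linarith) V hV0 n (fun k hk => by
        rw [hrec k, hbs k (by omega), hbs (k + 1) (by omega)]; ring)
      have h2 : x ^ n ≤ D ^ n := by gcongr
      linarith [hV1 n]
    · obtain ⟨k, rfl⟩ : ∃ k, n = k + d := ⟨n - d, by omega⟩
      exact hfin k
  have := hV1 n
  nlinarith

/-- The lower bound for the growth rate from a bound for balls with a constant. -/
theorem le_growthRate_const (x : ι → G) (S : Finset G) (hx : ∀ i, x i ∈ S) (z C : ℝ)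
    (hz : 0 ≤ z) (hC : 0 < C) (h : ∀ n, z ^ n ≤ C * (ball x n).card) :
    ENNReal.ofReal z ≤ growthRate S := by
  refine le_of_forall_lt_imp_le_of_dense ?_
  intro c hc
  have hc0 : c ≠ ⊤ := ne_top_of_lt hc
  set y := c.toReal with hy
  have hy0 : 0 ≤ y := ENNReal.toReal_nonneg
  have hyz : y < z := by
    rw [← ENNReal.ofReal_toReal hc0] at hc
    exact (ENNReal.ofReal_lt_ofReal_iff_of_nonneg hy0).mp hc
  have hzpos : 0 < z := by linarith
  have hcy : c = ENNReal.ofReal y := (ENNReal.ofReal_toReal hc0).symm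
  rw [hcy]
  unfold growthRate
  refine Filter.le_limsup_of_frequently_le (Filter.Eventually.frequently ?_)
  have ht : Filter.Tendsto (fun n : ℕ => (y / z) ^ n) Filter.atTop (nhds 0) :=
    tendsto_pow_atTop_nhds_zero_of_lt_one (by positivity) ((div_lt_one hzpos).mpr hyz)
  have hev := ht.eventually (gt_mem_nhds (by positivity : (0 : ℝ) < 1 / C))
  filter_upwards [Filter.eventually_gt_atTop 0, hev] with n hn hn2
  have h1 : y ^ n ≤ (beta S n : ℝ) := by
    have h2 : y ^ n * C ≤ z ^ n := by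
      rw [div_pow, div_lt_div_iff₀ (by positivity) hC] at hn2
      linarith
    have h3 : (ball x n).card ≤ beta S n := by
      unfold beta
      rw [← Set.ncard_coe_finset]
      exact Set.ncard_le_ncard (ball_subset_wordBall x S hx n) (wordBall_finite S n)
    have h4 : ((ball x n).card : ℝ) ≤ (beta S n : ℝ) := by exact_mod_cast h3
    have h5 : y ^ n * C ≤ C * (beta S n : ℝ) := by
      calc y ^ n * C ≤ z ^ n := h2
        _ ≤ C * (ball x n).card := h n
        _ ≤ C * (beta S n : ℝ) := by gcongr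
    rw [mul_comm] at h5
    exact le_of_mul_le_mul_left h5 hC
  have h2 : (ENNReal.ofReal y) ^ n ≤ (beta S n : ENNReal) := by
    rw [← ENNReal.ofReal_pow hy0, ← ENNReal.ofReal_natCast]
    exact ENNReal.ofReal_le_ofReal h1
  have hn' : (n : ℝ) ≠ 0 := by exact_mod_cast hn.ne'
  calc ENNReal.ofReal y = ((ENNReal.ofReal y) ^ n) ^ (1 / (n : ℝ)) := by
        rw [← ENNReal.rpow_natCast, ← ENNReal.rpow_mul]
        field_simp
        simp
    _ ≤ _ := ENNReal.rpow_le_rpow h2 (by positivity)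

theorem exists_root (d : ℕ) (hd : 3 ≤ d) :
    ∃ x : ℝ, 1 < x ∧ x ^ d + 1 = (2 * (d : ℝ) - 2) * ∑ i ∈ range (d - 1), x ^ (i + 1) := by
  have hd' : (3 : ℝ) ≤ d := by exact_mod_cast hd
  set f : ℝ → ℝ := fun x => (2 * (d : ℝ) - 2) * ∑ i ∈ range (d - 1), x ^ (i + 1) - (x ^ d + 1)
    with hf
  have hcont : Continuous f := by
    simp only [hf]
    fun_prop
  have hid : ∀ x, (x - 1) * f x = -(x ^ (d + 1) - (2 * (d : ℝ) - 1) * x ^ d +
      (2 * (d : ℝ) - 1) * x - 1) := by
    intro x
    have h1 : (∑ i ∈ range (d - 1), x ^ (i + 1)) * (x - 1) = x ^ d - x := by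
      have h2 : ∑ i ∈ range (d - 1), x ^ (i + 1) = x * ∑ i ∈ range (d - 1), x ^ i := by
        rw [mul_sum]
        exact sum_congr rfl fun i _ => by ring
      have h3 := geom_sum_mul x (d - 1)
      have h4 : x ^ d = x * x ^ (d - 1) := by
        rw [← pow_succ']
        congr 1
        omega
      rw [h2, mul_assoc, h3, h4]
      ring
    simp only [hf]
    have h5 : (x - 1) * ((2 * (d : ℝ) - 2) * ∑ i ∈ range (d - 1), x ^ (i + 1) - (x ^ d + 1))
        = (2 * (d : ℝ) - 2) * ((∑ i ∈ range (d - 1), x ^ (i + 1)) * (x - 1))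
          - (x - 1) * (x ^ d + 1) := by ring
    rw [h5, h1, pow_succ]
    ring
  have h1 : 0 < f 1 := by
    simp only [hf, one_pow, sum_const, card_range, nsmul_eq_mul, mul_one]
    have h2 : ((d - 1 : ℕ) : ℝ) = d - 1 := by
      rw [Nat.cast_sub (by omega)]; simp
    rw [h2]
    nlinarith
  have h2 : f (2 * (d : ℝ) - 1) < 0 := by
    have h3 := hid (2 * (d : ℝ) - 1)
    have h4 : 0 < (2 * (d : ℝ) - 1) ^ (d + 1) - (2 * (d : ℝ) - 1) * (2 * (d : ℝ) - 1) ^ d +
        (2 * (d : ℝ) - 1) * (2 * (d : ℝ) - 1) - 1 := by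
      rw [pow_succ]
      nlinarith
    have h5 : 0 < 2 * (d : ℝ) - 1 - 1 := by linarith
    by_contra h6
    push Not at h6
    have := mul_nonneg h5.le h6
    linarith
  have h3 : (0 : ℝ) ∈ Set.Icc (f (2 * (d : ℝ) - 1)) (f 1) := ⟨h2.le, h1.le⟩
  obtain ⟨x, hx, hfx⟩ := intermediate_value_Icc' (by linarith : (1 : ℝ) ≤ 2 * (d : ℝ) - 1)
    hcont.continuousOn h3
  refine ⟨x, ?_, ?_⟩
  · rcases hx.1.lt_or_eq with h | h
    · exact h
    · rw [← h] at hfx
      linarith
  · simp only [hf] at hfx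
    linarith

private lemma A6_root_le (d : ℕ) (hd : 3 ≤ d) (x y : ℝ) (hx : 1 < x) (hy : 1 < y)
    (hrx : x ^ d + 1 = (2 * (d : ℝ) - 2) * ∑ i ∈ range (d - 1), x ^ (i + 1))
    (hry : y ^ d + 1 = (2 * (d : ℝ) - 2) * ∑ i ∈ range (d - 1), y ^ (i + 1)) : y ≤ x := by
  by_contra hxy
  push Not at hxy
  have hd' : (3 : ℝ) ≤ d := by exact_mod_cast hd
  have hrefl : ∀ t : ℝ, ∑ i ∈ range (d - 1), t ^ (i + 1) = ∑ i ∈ range (d - 1), t ^ (d - 1 - i) := by
    intro t
    rw [← sum_range_reflect]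
    refine sum_congr rfl fun i hi => ?_
    have := mem_range.mp hi
    congr 1
    omega
  have hterm : ∀ i ∈ range (d - 1), (y ^ (i + 1) + y ^ (d - 1 - i)) * (x ^ d + 1) <
      (x ^ (i + 1) + x ^ (d - 1 - i)) * (y ^ d + 1) := by
    intro i hi
    have hi' := mem_range.mp hi
    set p := i + 1 with hp
    set r := d - 1 - i with hr
    have hpr : p + r = d := by omega
    have hp0 : p ≠ 0 := by omega
    have hr0 : r ≠ 0 := by omega
    have hx0 : 0 ≤ x := by linarith
    have h1 : x ^ p < y ^ p := pow_lt_pow_left₀ hxy hx0 hp0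
    have h2 : x ^ r < y ^ r := pow_lt_pow_left₀ hxy hx0 hr0
    have h3 : 1 < x ^ p := one_lt_pow₀ hx hp0
    have h4 : 1 < y ^ p := one_lt_pow₀ hy hp0
    have h5 : 1 < x ^ r := one_lt_pow₀ hx hr0
    have h6 : 1 < y ^ r := one_lt_pow₀ hy hr0
    have h7 : 0 < (y ^ r - x ^ r) * (x ^ p * y ^ p - 1) := by
      apply mul_pos (by linarith)
      nlinarith
    have h8 : 0 < (y ^ p - x ^ p) * (x ^ r * y ^ r - 1) := by
      apply mul_pos (by linarith)
      nlinarith
    have ex : x ^ d = x ^ p * x ^ r := by rw [← hpr, pow_add]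
    have ey : y ^ d = y ^ p * y ^ r := by rw [← hpr, pow_add]
    rw [ex, ey]
    nlinarith
  have hne : (range (d - 1)).Nonempty := ⟨0, mem_range.mpr (by omega)⟩
  have hS := sum_lt_sum_of_nonempty hne hterm
  rw [← sum_mul, ← sum_mul, sum_add_distrib, sum_add_distrib, ← hrefl x, ← hrefl y] at hS
  set Sx := ∑ i ∈ range (d - 1), x ^ (i + 1) with hSx
  set Sy := ∑ i ∈ range (d - 1), y ^ (i + 1) with hSy
  have h1 : 0 < 2 * (d : ℝ) - 2 := by linarith
  rw [hrx, hry] at hS
  have h2 : (Sy + Sy) * ((2 * (d : ℝ) - 2) * Sx) = (Sx + Sx) * ((2 * (d : ℝ) - 2) * Sy) := by ring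
  linarith

theorem root_unique (d : ℕ) (hd : 3 ≤ d) (x y : ℝ) (hx : 1 < x) (hy : 1 < y)
    (hrx : x ^ d + 1 = (2 * (d : ℝ) - 2) * ∑ i ∈ range (d - 1), x ^ (i + 1))
    (hry : y ^ d + 1 = (2 * (d : ℝ) - 2) * ∑ i ∈ range (d - 1), y ^ (i + 1)) : x = y :=
  le_antisymm (A6_root_le d hd y x hy hx hry hrx) (A6_root_le d hd x y hx hy hrx hry)

end Main

end Pool.Agent.SurfExact
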