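import Pool.Agent.SurfExact.DefsA
import Pool.Agent.SurfGrowth.Growth

/-!
# MP_5bf54f_al, package A5: pruned balls
-/

set_option autoImplicit false
set_option linter.unusedSectionVars false

namespace Pool.Agent.SurfExact

open Function Pool.Agent.SurfGrowth Finset

section Prune

variable {G : Type*} [Group G] {ι : Type*} [Fintype ι] [DecidableEq ι] (x : ι → G)

open Classical in
/-- Oriented edges (origin, signed letter) from `A` to `B`. -/
noncomputable def halfE (A B : Finset G) : Finset (G × (ι × Bool)) :=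
  (A ×ˢ (univ : Finset (ι × Bool))).filter (fun p => p.1 * letter x p.2 ∈ B)

theorem mem_halfE {A B : Finset G} {p : G × (ι × Bool)} :
    p ∈ halfE x A B ↔ p.1 ∈ A ∧ p.1 * letter x p.2 ∈ B := by
  classical
  simp [halfE]

theorem halfE_mono {A A' B B' : Finset G} (hA : A ⊆ A') (hB : B ⊆ B') :
    halfE x A B ⊆ halfE x A' B' := by
  intro p hp
  rw [mem_halfE] at hp ⊢
  exact ⟨hA hp.1, hB hp.2⟩

theorem letter_not (t : ι) (b : Bool) : letter x (t, !b) = (letter x (t, b))⁻¹ := by
  cases b <;> simp [letter]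

theorem halfE_comm_le (A B : Finset G) : (halfE x A B).card ≤ (halfE x B A).card := by
  apply card_le_card_of_injOn (fun p => (p.1 * letter x p.2, (p.2.1, !p.2.2)))
  · rintro ⟨v, t, b⟩ hp
    rw [mem_coe, mem_halfE] at hp ⊢
    refine ⟨hp.2, ?_⟩
    show v * letter x (t, b) * letter x (t, !b) ∈ A
    rw [letter_not, mul_inv_cancel_right]
    exact hp.1
  · rintro ⟨v, t, b⟩ _ ⟨v', t', b'⟩ _ h
    simp only [Prod.mk.injEq] at h
    obtain ⟨h1, h2, h3⟩ := h
    have h4 : b = b' := by simpa using h3
    subst h2 h4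
    rw [mul_left_inj] at h1
    rw [h1]

theorem halfE_comm (A B : Finset G) : (halfE x A B).card = (halfE x B A).card :=
  le_antisymm (halfE_comm_le x A B) (halfE_comm_le x B A)

open Classical in
theorem card_halfE (A B : Finset G) : (halfE x A B).card =
    ∑ v ∈ A, ((univ : Finset (ι × Bool)).filter (fun l => v * letter x l ∈ B)).card := by
  unfold halfE
  rw [card_filter, sum_product]
  apply sum_congr rfl
  intro v _
  rw [card_filter]

theorem two_edges (A : Finset G) : 2 * (edges x A).card = (halfE x A A).card := by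
  classical
  have h1 : halfE x A A = (edges x A).image (fun e => (e.1, (e.2, true))) ∪
      (edges x A).image (fun e => (e.1 * x e.2, (e.2, false))) := by
    ext ⟨v, t, b⟩
    simp only [mem_halfE, mem_union, mem_image, mem_edges, Prod.mk.injEq, Prod.exists]
    constructor
    · rintro ⟨h1, h2⟩
      cases b
      · right
        refine ⟨v * (x t)⁻¹, t, ⟨?_, ?_⟩, ?_, rfl, rfl⟩
        · simpa [letter] using h2
        · simpa using h1
        · simp
      · left
        exact ⟨v, t, ⟨h1, by simpa [letter] using h2⟩, rfl, rfl, rfl⟩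
    · rintro (⟨g, s, ⟨h1, h2⟩, rfl, rfl, rfl⟩ | ⟨g, s, ⟨h1, h2⟩, rfl, rfl, rfl⟩)
      · exact ⟨h1, by simpa [letter] using h2⟩
      · exact ⟨h2, by simpa [letter] using h1⟩
  have hd : Disjoint ((edges x A).image (fun e => (e.1, (e.2, true))))
      ((edges x A).image (fun e => (e.1 * x e.2, (e.2, false)))) := by
    rw [disjoint_left]
    intro p hp hq
    rw [mem_image] at hp hq
    obtain ⟨e, _, rfl⟩ := hp
    obtain ⟨e', _, h⟩ := hq
    simp at h
  rw [h1, card_union_of_disjoint hd, card_image_of_injective, card_image_of_injective]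
  · ring
  · rintro ⟨g, s⟩ ⟨g', s'⟩ h
    simp only [Prod.mk.injEq, and_true] at h
    obtain ⟨h1, h2⟩ := h
    subst h2
    rw [mul_left_inj] at h1
    rw [h1]
  · rintro ⟨g, s⟩ ⟨g', s'⟩ h
    simp only [Prod.mk.injEq, and_true] at h
    rw [h.1, h.2]

/-- Removing one vertex. -/
theorem edges_erase [DecidableEq G] (A : Finset G) (v : G) :
    (edges x A).card ≤ (edges x (A.erase v)).card + (halfE x {v} A).card := by
  classical
  have h1 : halfE x A A ⊆ halfE x (A.erase v) (A.erase v) ∪ (halfE x {v} A ∪ halfE x A {v}) := by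
    intro p hp
    rw [mem_halfE] at hp
    rw [mem_union, mem_union, mem_halfE, mem_halfE, mem_halfE, mem_erase, mem_erase]
    by_cases ha : p.1 = v
    · right; left
      exact ⟨by simp [ha], hp.2⟩
    · by_cases hb : p.1 * letter x p.2 = v
      · right; right
        exact ⟨hp.1, by simp [hb]⟩
      · left
        exact ⟨⟨ha, hp.1⟩, ⟨hb, hp.2⟩⟩
  have h2 := (card_le_card h1).trans (card_union_le _ _)
  have h3 := card_union_le (halfE x {v} A) (halfE x A {v})
  rw [halfE_comm x A {v}] at h3
  rw [← two_edges, ← two_edges] at h2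
  omega

variable {x} {ε : G →* Multiplicative ℚ} (hε : ∀ t, Multiplicative.toAdd (ε (x t)) = 1)

include hε in
theorem level_letter (k : ℕ) (g : G) (l : ι × Bool) (h1 : g ∈ ball x (k + 1))
    (h2 : g ∉ ball x k) (h3 : g * letter x l ∈ ball x (k + 1)) : g * letter x l ∈ ball x k := by
  by_contra h4
  obtain ⟨t, b⟩ := l
  cases b
  · have h5 : g * letter x (t, false) * x t = g := by simp [letter]
    apply not_both_level hε k (g * letter x (t, false)) t h3 h4
    · rw [h5]; exact h1
    · rw [h5]; exact h2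
  · have h5 : g * letter x (t, true) = g * x t := by simp [letter]
    rw [h5] at h3 h4
    exact not_both_level hε k g t h1 h2 h3 h4

open Classical in
include hε in
/-- The growth of the cyclomatic number. -/
theorem bt_succ_half (k : ℕ) : ((halfE x (ball x (k + 1) \ ball x k) (ball x k)).card : ℤ) =
    ((ball x (k + 1) \ ball x k).card : ℤ) + (bt x (k + 1) - bt x k) := by
  have h1 : halfE x (ball x (k + 1)) (ball x (k + 1)) = (halfE x (ball x k) (ball x k) ∪
      halfE x (ball x (k + 1) \ ball x k) (ball x k)) ∪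
      halfE x (ball x k) (ball x (k + 1) \ ball x k) := by
    ext p
    simp only [mem_union, mem_halfE, mem_sdiff]
    constructor
    · rintro ⟨h1, h2⟩
      by_cases ha : p.1 ∈ ball x k
      · by_cases hb : p.1 * letter x p.2 ∈ ball x k
        · exact Or.inl (Or.inl ⟨ha, hb⟩)
        · exact Or.inr ⟨ha, h2, hb⟩
      · exact Or.inl (Or.inr ⟨⟨h1, ha⟩, level_letter hε k _ _ h1 ha h2⟩)
    · rintro ((⟨h1, h2⟩ | ⟨⟨h1, _⟩, h2⟩) | ⟨h1, h2, _⟩)
      · exact ⟨ball_subset_succ x k h1, ball_subset_succ x k h2⟩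
      · exact ⟨h1, ball_subset_succ x k h2⟩
      · exact ⟨ball_subset_succ x k h1, h2⟩
  have hd1 : Disjoint (halfE x (ball x k) (ball x k))
      (halfE x (ball x (k + 1) \ ball x k) (ball x k)) := by
    rw [disjoint_left]
    intro p hp hq
    rw [mem_halfE] at hp hq
    exact (mem_sdiff.1 hq.1).2 hp.1
  have hd2 : Disjoint (halfE x (ball x k) (ball x k) ∪
      halfE x (ball x (k + 1) \ ball x k) (ball x k))
      (halfE x (ball x k) (ball x (k + 1) \ ball x k)) := by
    rw [disjoint_left]
    intro p hp hq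
    rw [mem_union, mem_halfE, mem_halfE] at hp
    rw [mem_halfE] at hq
    rcases hp with hp | hp
    · exact (mem_sdiff.1 hq.2).2 hp.2
    · exact (mem_sdiff.1 hq.2).2 hp.2
  have h2 := congrArg Finset.card h1
  rw [card_union_of_disjoint hd2, card_union_of_disjoint hd1, ← two_edges, ← two_edges,
    halfE_comm x (ball x k)] at h2
  have h3 : (ball x (k + 1) \ ball x k).card + (ball x k).card = (ball x (k + 1)).card :=
    card_sdiff_add_card_eq_card (ball_subset_succ x k)
  unfold bt
  omega

open Classical in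
include hε in
theorem half_le (A : Finset G) (k : ℕ) :
    ((halfE x (A ∩ (ball x (k + 1) \ ball x k)) (ball x k)).card : ℤ) ≤
    ((A ∩ (ball x (k + 1) \ ball x k)).card : ℤ) + (bt x (k + 1) - bt x k) := by
  set S := ball x (k + 1) \ ball x k with hS
  have h0 := bt_succ_half hε k
  rw [← hS] at h0
  have h1 : S = (A ∩ S) ∪ (S \ A) := by
    ext g
    simp only [mem_union, mem_inter, mem_sdiff]
    tauto
  have hd : Disjoint (A ∩ S) (S \ A) := by
    rw [disjoint_left]
    intro g h1 h2
    exact (mem_sdiff.1 h2).2 (mem_inter.1 h1).1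
  have h2 : (halfE x S (ball x k)).card =
      (halfE x (A ∩ S) (ball x k)).card + (halfE x (S \ A) (ball x k)).card := by
    rw [card_halfE, card_halfE, card_halfE, ← sum_union hd, ← h1]
  have h3 : S.card = (A ∩ S).card + (S \ A).card := by
    rw [← card_union_of_disjoint hd, ← h1]
  have h4 : (S \ A).card ≤ (halfE x (S \ A) (ball x k)).card := by
    rw [card_halfE, card_eq_sum_ones]
    apply sum_le_sum
    intro v hv
    rw [Nat.one_le_iff_ne_zero, ← Nat.pos_iff_ne_zero, card_pos]
    rw [mem_sdiff, hS, mem_sdiff, mem_ball_succ] at hv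
    obtain ⟨⟨h5 | ⟨u, hu, ⟨t, b⟩, rfl⟩, h6⟩, _⟩ := hv
    · exact absurd h5 h6
    · refine ⟨(t, !b), ?_⟩
      rw [mem_filter]
      refine ⟨mem_univ _, ?_⟩
      rw [letter_not, mul_inv_cancel_right]
      exact hu
  omega

open Classical in
include hε in
/-- Vertices of degree at least two on one level. -/
theorem level_le (A : Finset G) (k : ℕ)
    (hdeg : ∀ v ∈ A, v ∉ ball x k → 2 ≤ (halfE x {v} A).card) :
    2 * ((A ∩ (ball x (k + 1) \ ball x k)).card : ℤ) ≤
    ((halfE x (A ∩ (ball x (k + 1) \ ball x k)) (ball x k)).card : ℤ) +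
    (halfE x (A ∩ (ball x (k + 2) \ ball x (k + 1))) (ball x (k + 1))).card := by
  set S := ball x (k + 1) \ ball x k with hS
  have h1 : 2 * (A ∩ S).card ≤ (halfE x (A ∩ S) A).card := by
    rw [card_halfE, mul_comm, ← smul_eq_mul, ← sum_const]
    apply sum_le_sum
    intro v hv
    rw [mem_inter, hS, mem_sdiff] at hv
    have := hdeg v hv.1 hv.2.2
    rw [card_halfE, sum_singleton] at this
    exact this
  have h2 : halfE x (A ∩ S) A ⊆ halfE x (A ∩ S) (ball x k) ∪
      halfE x (A ∩ S) (A ∩ (ball x (k + 2) \ ball x (k + 1))) := by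
    intro p hp
    rw [mem_halfE] at hp
    rw [mem_union, mem_halfE, mem_halfE]
    have h3 := mem_inter.1 hp.1
    rw [hS, mem_sdiff] at h3
    by_cases h4 : p.1 * letter x p.2 ∈ ball x (k + 1)
    · left
      exact ⟨hp.1, level_letter hε k _ _ h3.2.1 h3.2.2 h4⟩
    · right
      exact ⟨hp.1, mem_inter.2 ⟨hp.2, mem_sdiff.2 ⟨mul_letter_mem x h3.2.1 _, h4⟩⟩⟩
  have h3 : (halfE x (A ∩ S) (A ∩ (ball x (k + 2) \ ball x (k + 1)))).card ≤
      (halfE x (A ∩ (ball x (k + 2) \ ball x (k + 1))) (ball x (k + 1))).card := by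
    rw [halfE_comm]
    apply card_le_card
    apply halfE_mono x (Subset.refl _)
    intro g hg
    rw [mem_inter, hS, mem_sdiff] at hg
    exact hg.2.1
  have h4 := (card_le_card h2).trans (card_union_le _ _)
  omega

theorem exists_min (N m : ℕ) (hNm : N ≤ m) : ∃ A : Finset G, ball x N ⊆ A ∧ A ⊆ ball x m ∧
    (edges x (ball x m)).card + A.card ≤ (edges x A).card + (ball x m).card ∧
    ∀ v ∈ A, v ∉ ball x N → 2 ≤ (halfE x {v} A).card := by
  classical
  let F : Finset (Finset G) := (ball x m).powerset.filter (fun A => ball x N ⊆ A ∧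
    (edges x (ball x m)).card + A.card ≤ (edges x A).card + (ball x m).card)
  have hF : F.Nonempty := by
    refine ⟨ball x m, ?_⟩
    rw [mem_filter, mem_powerset]
    exact ⟨Subset.refl _, ball_mono x hNm, le_refl _⟩
  obtain ⟨A, hA, hmin⟩ := exists_min_image F Finset.card hF
  rw [mem_filter, mem_powerset] at hA
  obtain ⟨h1, h2, h3⟩ := hA
  refine ⟨A, h2, h1, h3, ?_⟩
  intro v hv hvN
  by_contra hcon
  have h4 := edges_erase x A v
  have h5 : (A.erase v).card + 1 = A.card := card_erase_add_one hv
  have h6 : A.erase v ∈ F := by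
    rw [mem_filter, mem_powerset]
    refine ⟨(erase_subset _ _).trans h1, ?_, ?_⟩
    · intro g hg
      rw [mem_erase]
      exact ⟨fun h => hvN (h ▸ hg), h2 hg⟩
    · omega
  have h7 := hmin _ h6
  omega

end Prune

section Main

variable {G : Type*} [Group G] {ι : Type*} [Fintype ι] [DecidableEq ι]

/-- Pruned balls. -/
theorem prune (x : ι → G) (hd : 3 ≤ Fintype.card ι) (ε : G →* Multiplicative ℚ)
    (hε : ∀ t, Multiplicative.toAdd (ε (x t)) = 1)
    (hVI : ∀ A : Finset G, A.Nonempty → (2 * (Fintype.card ι : ℤ) - 1) *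
      ((edges x A).card + 1 - A.card) ≤ (edges x A).card) (N : ℕ) :
    bt x N + 2 * ∑ j ∈ range (Fintype.card ι - 2), bt x (N + j + 1) +
      bt x (N + Fintype.card ι - 1) + 1 ≤ V x N := by
  classical
  obtain ⟨K, hK⟩ : ∃ K, Fintype.card ι = K + 2 := ⟨Fintype.card ι - 2, by omega⟩
  set m := N + K + 1 with hm
  obtain ⟨A, hNA, hAm, hedge, hdeg⟩ := exists_min (x := x) N m (by omega)
  -- the sizes of the levels
  set a : ℕ → ℤ := fun k => ((A ∩ (ball x (k + 1) \ ball x k)).card : ℤ) with ha
  have hstep : ∀ j ≤ K, a (N + K - j) ≤ 2 * bt x m - bt x (N + K - j + 1) - bt x (N + K - j) := by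
    intro j hj
    induction j with
    | zero =>
      have h1 := level_le hε A (N + K) (fun v hv hvk => hdeg v hv
        (fun h => hvk (ball_mono x (by omega) h)))
      have h2 := half_le hε A (N + K)
      have h3 : A ∩ (ball x (N + K + 2) \ ball x (N + K + 1)) = ∅ := by
        rw [eq_empty_iff_forall_notMem]
        intro g hg
        rw [mem_inter, mem_sdiff] at hg
        exact hg.2.2 (hAm hg.1)
      have h4 : (halfE x (∅ : Finset G) (ball x (N + K + 1))).card = 0 := by
        rw [card_halfE, sum_empty]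
      rw [h3, h4, Nat.cast_zero, add_zero] at h1
      rw [Nat.sub_zero]
      have hm' : bt x m = bt x (N + K + 1) := by rw [hm]
      show ((A ∩ (ball x (N + K + 1) \ ball x (N + K))).card : ℤ) ≤ _
      rw [hm']
      linarith
    | succ j ih =>
      have ih := ih (by omega)
      obtain ⟨k, hk⟩ : ∃ k, N + K - (j + 1) = k := ⟨_, rfl⟩
      have hk2 : N + K - j = k + 1 := by omega
      rw [hk]
      rw [hk2] at ih
      have h1 := level_le hε A k (fun v hv hvk => hdeg v hv
        (fun h => hvk (ball_mono x (by omega) h)))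
      have h2 := half_le hε A k
      have h3 := half_le hε A (k + 1)
      have h4 : a k = ((A ∩ (ball x (k + 1) \ ball x k)).card : ℤ) := rfl
      have h5 : a (k + 1) = ((A ∩ (ball x (k + 2) \ ball x (k + 1))).card : ℤ) := rfl
      have h6 : k + 1 + 1 = k + 2 := rfl
      rw [h6] at h3 ih
      rw [← h5] at h3
      rw [← h4] at h1 h2
      linarith
  have hcard : ∀ j, (((A ∩ ball x (N + j)).card : ℕ) : ℤ) = V x N + ∑ i ∈ range j, a (N + i) := by
    intro j
    induction j with
    | zero =>
      rw [add_zero, inter_eq_right.2 hNA]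
      simp [V]
    | succ j ih =>
      rw [sum_range_succ, ← add_assoc, ← add_assoc, ← ih]
      have h1 : A ∩ ball x (N + j + 1) = (A ∩ ball x (N + j)) ∪
          (A ∩ (ball x (N + j + 1) \ ball x (N + j))) := by
        ext g
        simp only [mem_inter, mem_union, mem_sdiff]
        constructor
        · rintro ⟨h1, h2⟩
          by_cases h3 : g ∈ ball x (N + j)
          · exact Or.inl ⟨h1, h3⟩
          · exact Or.inr ⟨h1, h2, h3⟩
        · rintro (⟨h1, h2⟩ | ⟨h1, h2, _⟩)
          · exact ⟨h1, ball_subset_succ x _ h2⟩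
          · exact ⟨h1, h2⟩
      have hd : Disjoint (A ∩ ball x (N + j)) (A ∩ (ball x (N + j + 1) \ ball x (N + j))) := by
        rw [disjoint_left]
        intro g h1 h2
        rw [mem_inter, mem_sdiff] at h2
        exact h2.2.2 (mem_inter.1 h1).2
      rw [h1, card_union_of_disjoint hd]
      push_cast
      rfl
  have hA : (A.card : ℤ) = V x N + ∑ i ∈ range (K + 1), a (N + i) := by
    rw [← hcard (K + 1), ← add_assoc, ← hm, inter_eq_left.2 hAm]
  have hsum : ∑ i ∈ range (K + 1), a (N + i) ≤
      ∑ i ∈ range (K + 1), (2 * bt x m - bt x (N + i + 1) - bt x (N + i)) := by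
    apply sum_le_sum
    intro i hi
    rw [mem_range] at hi
    have := hstep (K - i) (by omega)
    rw [show N + K - (K - i) = N + i by omega] at this
    exact this
  rw [sum_sub_distrib, sum_sub_distrib, sum_const, card_range, nsmul_eq_mul] at hsum
  have hs1 : ∑ i ∈ range (K + 1), bt x (N + i + 1) =
      ∑ i ∈ range K, bt x (N + i + 1) + bt x m := by
    rw [sum_range_succ, hm]
  have hs2 : ∑ i ∈ range (K + 1), bt x (N + i) = bt x N + ∑ i ∈ range K, bt x (N + i + 1) := by
    rw [sum_range_succ']
    rw [add_comm]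
    rfl
  rw [hs1, hs2] at hsum
  have hVIA := hVI A ⟨1, hNA (one_mem_ball x N)⟩
  rw [hK] at hVIA ⊢
  rw [show K + 2 - 2 = K by omega, show N + (K + 2) - 1 = m by omega]
  have hc : bt x m ≤ (edges x A).card + 1 - A.card := by
    unfold bt
    omega
  set c : ℤ := (edges x A).card + 1 - A.card with hcdef
  have h5 : (2 * (K : ℤ) + 2) * c ≤ A.card - 1 := by
    have : ((edges x A).card : ℤ) = c + A.card - 1 := by rw [hcdef]; ring
    rw [this] at hVIA
    push_cast at hVIA
    linarith
  have h6 : (2 * (K : ℤ) + 2) * bt x m ≤ (2 * (K : ℤ) + 2) * c :=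
    mul_le_mul_of_nonneg_left hc (by positivity)
  push_cast at hsum
  linarith

end Main

end Pool.Agent.SurfExact
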