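import Pool.Agent.SurfExact.Principal

/-!
# MP_5bf54f_al, package B4: top parts of cycles
-/

set_option autoImplicit false
set_option linter.unusedSectionVars false

namespace Pool.Agent.SurfExact

open Function

section Aux

variable {G : Type*} [Group G]

theorem pairL_congr {M : Type*} [AddCommGroup M] [Module ℚ M] {ψ ψ' : G → M} {y : QG G}
    (h : ∀ g, y.coeff g ≠ 0 → ψ g = ψ' g) : pairL ψ y = pairL ψ' y := by
  rw [pairL_apply, pairL_apply]
  refine Finsupp.sum_congr fun g hg => ?_
  rw [h g (Finsupp.mem_support_iff.1 hg)]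

theorem pairL_zero_fun {M : Type*} [AddCommGroup M] [Module ℚ M] {ψ : G → M} {y : QG G}
    (h : ∀ g, y.coeff g ≠ 0 → ψ g = 0) : pairL ψ y = 0 := by
  rw [pairL_congr (ψ' := fun _ => (0 : M)) h, pairL_apply]
  simp

/-- Crossed homomorphism on a free subgroup, extended to the whole group. -/
theorem exists_ext_free {X : Type*} {M : Type*} [AddCommGroup M] [Module (QG G) M]
    (φ : FreeGroup X →* G) (hφ : Injective φ) (v : X → M) :
    ∃ Ψ : G → M, ∀ g w, Ψ (g * φ w) = Ψ g + el g • cross φ v w := by
  classical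
  let e : G → M := fun g => if h : g ∈ φ.range then cross φ v (Classical.choose h) else 0
  have he : ∀ u, e (φ u) = cross φ v u := by
    intro u
    have h : φ u ∈ φ.range := ⟨u, rfl⟩
    show (if h : φ u ∈ φ.range then cross φ v (Classical.choose h) else 0) = cross φ v u
    rw [dif_pos h, hφ (Classical.choose_spec h)]
  obtain ⟨Ψ, hΨ⟩ := exists_ext_crossed φ.range e (by
    rintro _ ⟨a, rfl⟩ _ ⟨b, rfl⟩
    rw [← map_mul, he, he, he, cross_crossed])
  refine ⟨Ψ, fun g w => ?_⟩
  rw [hΨ g (φ w) ⟨w, rfl⟩, he]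

end Aux

section Main

variable {G : Type*} [Group G] {ι : Type*} [Fintype ι] [DecidableEq ι]

/-- Cycles are determined by their `s`-component. -/
theorem cyc_eq_zero {x : ι → G} {s : ι} {f : G →* Multiplicative ℤ} (h : Hyp x s f)
    {z : ι → QG G} (hz : z ∈ cyc x) (hs : z s = 0) : z = 0 := by
  funext t₀
  by_cases ht₀ : t₀ = s
  · rw [ht₀, hs, Pi.zero_apply]
  obtain ⟨Ψ, hΨ⟩ := exists_ext_free (M := QG G)
    (FreeGroup.lift (fun t : {t : ι // t ≠ s} => x t)) h.basisP
    (fun t => if t.1 = t₀ then (1 : QG G) else 0)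
  have h1 : ∀ t (ht : t ≠ s) g, Ψ (g * x t) - Ψ g = el g • (if t = t₀ then (1 : QG G) else 0) := by
    intro t ht g
    have h2 := hΨ g (FreeGroup.of ⟨t, ht⟩)
    rw [FreeGroup.lift_apply_of, cross_of] at h2
    rw [h2, add_sub_cancel_left]
  have h2 := cyc_pair hz Ψ
  rw [Finset.sum_eq_single t₀] at h2
  · have h3 : pairL (fun g => Ψ (g * x t₀) - Ψ g) (z t₀) = z t₀ • (1 : QG G) := by
      rw [← pairL_el_smul]
      apply pairL_congr
      intro g _
      rw [h1 t₀ ht₀, if_pos rfl]
    rw [h3, smul_eq_mul, mul_one] at h2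
    exact h2
  · intro t _ ht
    by_cases hts : t = s
    · rw [hts, hs, map_zero]
    · apply pairL_zero_fun
      intro g _
      rw [h1 t hts, if_neg ht, smul_zero]
  · simp

theorem levelPart_coeff (f : G →* Multiplicative ℤ) (l : ℤ) (y : QG G) (g : G) :
    (levelPart f l y).coeff g = if Multiplicative.toAdd (f g) = l then y.coeff g else 0 := by
  unfold levelPart
  rw [MonoidAlgebra.coeff_ofCoeff, Finsupp.filter_apply]

theorem pairL_levelPart {M : Type*} [AddCommGroup M] [Module ℚ M] (f : G →* Multiplicative ℤ)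
    (l : ℤ) (y : QG G) (ψ : G → M) : pairL ψ (levelPart f l y) =
      pairL (fun g => if Multiplicative.toAdd (f g) = l then ψ g else 0) y := by
  rw [pairL_apply, pairL_apply]
  unfold levelPart
  rw [MonoidAlgebra.coeff_ofCoeff, Finsupp.sum_filter_index, Finsupp.sum]
  rw [Finsupp.support_filter, Finset.sum_filter]
  refine Finset.sum_congr rfl fun g _ => ?_
  split_ifs <;> simp

/-- The level part as a linear map. -/
noncomputable def levelL (f : G →* Multiplicative ℤ) (l : ℤ) : QG G →ₗ[ℚ] QG G where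
  toFun := levelPart f l
  map_add' := by
    intro a b
    refine MonoidAlgebra.ext (Finsupp.ext fun g => ?_)
    rw [MonoidAlgebra.coeff_add, Finsupp.add_apply, levelPart_coeff, levelPart_coeff,
      levelPart_coeff, MonoidAlgebra.coeff_add, Finsupp.add_apply]
    split_ifs <;> simp
  map_smul' := by
    intro c a
    refine MonoidAlgebra.ext (Finsupp.ext fun g => ?_)
    rw [RingHom.id_apply, MonoidAlgebra.coeff_smul, Finsupp.smul_apply, levelPart_coeff,
      levelPart_coeff, MonoidAlgebra.coeff_smul, Finsupp.smul_apply]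
    split_ifs <;> simp

theorem top_ZS_Pc {x : ι → G} {s : ι} {f : G →* Multiplicative ℤ}
    (fs : f (x s) = Multiplicative.ofAdd 1) (ft : ∀ t, t ≠ s → f (x t) = 1)
    {z : ι → QG G} (hz : z ∈ cyc x) (l : ℤ)
    (hl : ∀ g, (z s).coeff g ≠ 0 → Multiplicative.toAdd (f g) ≤ l) :
    ZS (Pc x s) (levelPart f l (z s)) := by
  apply ZS_of
  intro ψ hψ
  rw [pairL_levelPart]
  let ψt : G → ℚ := fun v => if Multiplicative.toAdd (f v) = l + 1 then ψ (v * (x s)⁻¹) else 0
  have h2 := cyc_pair hz ψt
  rw [Finset.sum_eq_single s] at h2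
  · refine Eq.trans ?_ h2
    apply pairL_congr
    intro g hg
    have h3 := hl g hg
    have h4 : Multiplicative.toAdd (f (g * x s)) = Multiplicative.toAdd (f g) + 1 := by
      rw [map_mul, fs, toAdd_mul, toAdd_ofAdd]
    show _ = ψt (g * x s) - ψt g
    simp only [ψt]
    rw [h4, if_neg (show ¬ (Multiplicative.toAdd (f g) = l + 1) by omega), sub_zero,
      mul_inv_cancel_right]
    by_cases h5 : Multiplicative.toAdd (f g) = l
    · rw [if_pos h5, if_pos (by omega)]
    · rw [if_neg h5, if_neg (by omega)]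
  · intro t _ ht
    apply pairL_zero_fun
    intro g _
    have h4 : Multiplicative.toAdd (f (g * x t)) = Multiplicative.toAdd (f g) := by
      rw [map_mul, ft t ht, mul_one]
    simp only [ψt]
    rw [h4]
    have h5 : ψ (g * x t * (x s)⁻¹) = ψ (g * (x s)⁻¹) := by
      have : g * x t * (x s)⁻¹ = g * (x s)⁻¹ * (x s * x t * (x s)⁻¹) := by group
      rw [this]
      exact hψ _ _ (Subgroup.subset_closure ⟨t, ht, rfl⟩)
    rw [h5, sub_self]
  · simp

theorem top_ZS_Qn {x : ι → G} {s : ι} {f : G →* Multiplicative ℤ}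
    (fs : f (x s) = Multiplicative.ofAdd 1) (ft : ∀ t, t ≠ s → f (x t) = 1)
    {z : ι → QG G} (hz : z ∈ cyc x) (l : ℤ) (n : ℕ)
    (hl : ∀ g, (z s).coeff g ≠ 0 → Multiplicative.toAdd (f g) ≤ l)
    (hn : ∀ t g, (z t).coeff g ≠ 0 → l - n ≤ Multiplicative.toAdd (f g)) :
    ZS (Qn x s n) (levelPart f l (z s)) := by
  apply ZS_of
  intro ψ hψ
  rw [pairL_levelPart]
  let ψt : G → ℚ := fun v => if Multiplicative.toAdd (f v) ≤ l then
    - ψ (v * x s ^ (l - Multiplicative.toAdd (f v)).toNat) else 0
  have h2 := cyc_pair hz ψt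
  rw [Finset.sum_eq_single s] at h2
  · refine Eq.trans ?_ h2
    apply pairL_congr
    intro g hg
    have h3 := hl g hg
    have h4 : Multiplicative.toAdd (f (g * x s)) = Multiplicative.toAdd (f g) + 1 := by
      rw [map_mul, fs, toAdd_mul, toAdd_ofAdd]
    show _ = ψt (g * x s) - ψt g
    simp only [ψt]
    rw [h4, if_pos h3]
    by_cases h5 : Multiplicative.toAdd (f g) = l
    · rw [if_pos h5, if_neg (by omega), h5]
      simp
    · rw [if_neg h5, if_pos (by omega)]
      have h6 : (l - Multiplicative.toAdd (f g)).toNat =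
          (l - (Multiplicative.toAdd (f g) + 1)).toNat + 1 := by omega
      rw [h6, pow_succ', mul_assoc]
      ring
  · intro t _ ht
    apply pairL_zero_fun
    intro g hg
    have h4 : Multiplicative.toAdd (f (g * x t)) = Multiplicative.toAdd (f g) := by
      rw [map_mul, ft t ht, mul_one]
    simp only [ψt]
    rw [h4]
    split_ifs with h5
    · have h6 : (l - Multiplicative.toAdd (f g)).toNat ≤ n := by
        have := hn t g hg
        omega
      generalize (l - Multiplicative.toAdd (f g)).toNat = i at *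
      have : g * x t * x s ^ i = g * x s ^ i * ((x s ^ i)⁻¹ * x t * x s ^ i) := by group
      rw [this, hψ _ _ (Subgroup.subset_closure ⟨t, i, ht, h6, rfl⟩), sub_self]
    · simp
  · simp

/-- The top part of the `s`-component of a cycle. -/
theorem top_ZS {x : ι → G} {s : ι} {f : G →* Multiplicative ℤ} (h : Hyp x s f)
    {z : ι → QG G} (hz : z ∈ cyc x) (l : ℤ) (n : ℕ)
    (hl : ∀ g, (z s).coeff g ≠ 0 → Multiplicative.toAdd (f g) ≤ l)
    (hn : ∀ t g, (z t).coeff g ≠ 0 → l - n ≤ Multiplicative.toAdd (f g)) :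
    ZS (Qn x s n) (levelPart f l (z s)) ∧ ZS (Pc x s) (levelPart f l (z s)) :=
  ⟨top_ZS_Qn h.fs h.ft hz l n hl hn, top_ZS_Pc h.fs h.ft hz l hl⟩

/-- Elements of the group ring supported in a set of group elements. -/
def inSub (S : Set G) : Submodule ℚ (QG G) where
  carrier := {y | ∀ g, y.coeff g ≠ 0 → g ∈ S}
  zero_mem' := by simp
  add_mem' := by
    rintro a b ha hb g hg
    by_contra hgn
    apply hg
    have h1 : a.coeff g = 0 := by
      by_contra h
      exact hgn (ha g h)
    have h2 : b.coeff g = 0 := by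
      by_contra h
      exact hgn (hb g h)
    simp [h1, h2]
  smul_mem' := by
    rintro c a ha g hg
    apply ha
    intro h
    apply hg
    simp [h]

theorem mem_inSub {S : Set G} {y : QG G} : y ∈ inSub S ↔ ∀ g, y.coeff g ≠ 0 → g ∈ S := Iff.rfl

/-- Restriction of the coefficients to a finite set. -/
noncomputable def resL (Y : Finset G) : QG G →ₗ[ℚ] (Y → ℚ) where
  toFun := fun y g => y.coeff g
  map_add' := fun a b => by
    funext g
    simp
  map_smul' := fun c a => by
    funext g
    simp

theorem finrank_le_card (Z : Finset G) (V : Submodule ℚ (QG G))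
    (hZ : ∀ y ∈ V, (∀ g ∈ Z, y.coeff g = 0) → y = 0) :
    FiniteDimensional ℚ V ∧ Module.finrank ℚ V ≤ Z.card := by
  have hinj : Injective ((resL Z).domRestrict V) := by
    rw [← LinearMap.ker_eq_bot, LinearMap.ker_eq_bot']
    intro y hy
    apply Subtype.ext
    apply hZ y.1 y.2
    intro g hg
    exact congrFun hy ⟨g, hg⟩
  refine ⟨FiniteDimensional.of_injective _ hinj, ?_⟩
  have h1 := LinearMap.finrank_le_finrank_of_injective hinj
  simpa using h1

theorem finiteDimensional_of_supp (Y : Finset G) (V : Submodule ℚ (QG G))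
    (hV : ∀ y ∈ V, ∀ g, y.coeff g ≠ 0 → g ∈ Y) : FiniteDimensional ℚ V := by
  refine (finrank_le_card Y V ?_).1
  intro y hy h0
  refine MonoidAlgebra.ext (Finsupp.ext fun g => ?_)
  by_contra h
  exact h (h0 g (hV y hy g h))

theorem gr_aux (f : G →* Multiplicative ℤ) (lo : ℤ) (k : ℕ) :
    ∀ (E V : Submodule ℚ (QG G)) (_ : FiniteDimensional ℚ E) (_ : FiniteDimensional ℚ V)
    (_ : ∀ y ∈ E, ∀ g, y.coeff g ≠ 0 →
      lo < Multiplicative.toAdd (f g) ∧ Multiplicative.toAdd (f g) ≤ lo + k)
    (_ : ∀ y ∈ E, ∀ l, (∀ g, y.coeff g ≠ 0 → Multiplicative.toAdd (f g) ≤ l) →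
      levelPart f l y ∈ V), Module.finrank ℚ E ≤ Module.finrank ℚ V := by
  induction k with
  | zero =>
    intro E V _ _ hE _
    have : E = ⊥ := by
      rw [Submodule.eq_bot_iff]
      intro y hy
      refine MonoidAlgebra.ext (Finsupp.ext fun g => ?_)
      by_contra h
      have := hE y hy g h
      simp only [Nat.cast_zero, add_zero] at this
      omega
    rw [this, finrank_bot]
    exact Nat.zero_le _
  | succ k ih =>
    intro E V _ _ hE hV
    set l : ℤ := lo + (k + 1 : ℕ) with hl
    let π := (levelL f l).domRestrict E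
    let E' : Submodule ℚ (QG G) := E ⊓ LinearMap.ker (levelL f l)
    let V' : Submodule ℚ (QG G) := V ⊓ inSub {g | Multiplicative.toAdd (f g) ≤ lo + k}
    have hE'top : ∀ y ∈ E', ∀ g, y.coeff g ≠ 0 →
        lo < Multiplicative.toAdd (f g) ∧ Multiplicative.toAdd (f g) ≤ lo + k := by
      rintro y ⟨hy1, hy2⟩ g hg
      have h1 := hE y hy1 g hg
      refine ⟨h1.1, ?_⟩
      by_contra h2
      have h3 : Multiplicative.toAdd (f g) = l := by
        have := h1.2
        rw [hl] at *
        push_cast at *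
        omega
      have h4 : (levelPart f l y).coeff g = 0 := by
        have h5 : levelPart f l y = 0 := hy2
        rw [h5]
        rfl
      rw [levelPart_coeff, if_pos h3] at h4
      exact hg h4
    have h1 : Module.finrank ℚ E' ≤ Module.finrank ℚ V' := by
      apply ih E' V' inferInstance inferInstance hE'top
      intro y hy l' hl'
      refine ⟨hV y hy.1 l' hl', ?_⟩
      intro g hg
      rw [levelPart_coeff] at hg
      split_ifs at hg with h2
      · exact (hE'top y hy g hg).2
      · exact absurd rfl hg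
    have h2 := LinearMap.finrank_range_add_finrank_ker π
    have h3 : Module.finrank ℚ (LinearMap.ker π) ≤ Module.finrank ℚ E' := by
      rw [← Submodule.finrank_map_subtype_eq E (LinearMap.ker π)]
      apply Submodule.finrank_mono
      rintro _ ⟨y, hy, rfl⟩
      exact ⟨y.2, hy⟩
    have h4 : LinearMap.range π ≤ V := by
      rintro _ ⟨y, rfl⟩
      exact hV y.1 y.2 l (fun g hg => by
        have := (hE y.1 y.2 g hg).2
        exact this)
    have : FiniteDimensional ℚ (LinearMap.range π) := Submodule.finiteDimensional_of_le h4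
    have h5 : LinearMap.range π ⊓ V' = ⊥ := by
      rw [Submodule.eq_bot_iff]
      rintro _ ⟨⟨y, rfl⟩, hy2⟩
      refine MonoidAlgebra.ext (Finsupp.ext fun g => ?_)
      by_contra h
      have h6 := hy2.2 g h
      have h7 : (levelPart f l y.1).coeff g ≠ 0 := h
      rw [levelPart_coeff] at h7
      split_ifs at h7 with h8
      · simp only [Set.mem_ofPred_eq] at h6
        rw [h8, hl] at h6
        push_cast at h6
        omega
      · exact absurd rfl h7
    have h6 := Submodule.finrank_sup_add_finrank_inf_eq (LinearMap.range π) V'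
    rw [h5, finrank_bot, add_zero] at h6
    have h7 : Module.finrank ℚ (LinearMap.range π ⊔ V' : Submodule ℚ (QG G)) ≤
        Module.finrank ℚ V :=
      Submodule.finrank_mono (sup_le h4 inf_le_left)
    omega

theorem finrank_le_top {x : ι → G} {s : ι} {f : G →* Multiplicative ℤ} (h : Hyp x s f)
    (Y : ι → Finset G) :
    ∃ N : ℕ, ∀ n ≥ N,
      Module.finrank ℚ (cycIn x Y) ≤ Module.finrank ℚ (zsIn (Qn x s n) (Pc x s) (Y s)) := by
  classical
  set B : ℕ := (Finset.univ.biUnion Y).sup (fun g => (Multiplicative.toAdd (f g)).natAbs) with hB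
  have hbd : ∀ t, ∀ g ∈ Y t, (Multiplicative.toAdd (f g)).natAbs ≤ B := by
    intro t g hg
    exact Finset.le_sup (f := fun g => (Multiplicative.toAdd (f g)).natAbs)
      (Finset.mem_biUnion.2 ⟨t, Finset.mem_univ t, hg⟩)
  refine ⟨2 * B, fun n hn => ?_⟩
  let P : (cycIn x Y) →ₗ[ℚ] QG G := (LinearMap.proj s).domRestrict (cycIn x Y)
  have hPinj : Injective P := by
    rw [← LinearMap.ker_eq_bot, LinearMap.ker_eq_bot']
    intro z hz
    apply Subtype.ext
    exact cyc_eq_zero h z.2.1 hz
  rw [← LinearMap.finrank_range_of_inj hPinj]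
  have hE1 : FiniteDimensional ℚ (LinearMap.range P) := by
    apply finiteDimensional_of_supp (Y s)
    rintro _ ⟨z, rfl⟩ g hg
    exact z.2.2 s g hg
  have hE2 : FiniteDimensional ℚ (zsIn (Qn x s n) (Pc x s) (Y s)) :=
    finiteDimensional_of_supp (Y s) _ (fun y hy g hg => hy.1 g hg)
  apply gr_aux f (-(B : ℤ) - 1) (2 * B + 1) _ _ hE1 hE2
  · rintro _ ⟨z, rfl⟩ g hg
    have h1 := hbd s g (z.2.2 s g hg)
    push_cast
    omega
  · rintro _ ⟨z, rfl⟩ l hl
    have hlp : ∀ g, (levelPart f l (P z)).coeff g ≠ 0 → g ∈ Y s ∧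
        Multiplicative.toAdd (f g) = l := by
      intro g hg
      rw [levelPart_coeff] at hg
      split_ifs at hg with h2
      · exact ⟨z.2.2 s g hg, h2⟩
      · exact absurd rfl hg
    by_cases h0 : levelPart f l (P z) = 0
    · rw [h0]
      exact Submodule.zero_mem _
    · have h1 : ∃ g, (levelPart f l (P z)).coeff g ≠ 0 := by
        by_contra hcon
        push Not at hcon
        exact h0 (MonoidAlgebra.ext (Finsupp.ext hcon))
      obtain ⟨g₀, hg₀⟩ := h1
      have h2 := hlp g₀ hg₀
      have h3 := hbd s g₀ h2.1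
      have h4 := top_ZS h z.2.1 l n hl (by
        intro t g hg
        have h5 := hbd t g (z.2.2 t g hg)
        omega)
      exact ⟨fun g hg => (hlp g hg).1, h4.1, h4.2⟩

/-- Dimension of the space of vectors with vanishing coset sums. -/
theorem finrank_zsIn_le (A B : Subgroup G) (Y : Finset G) :
    Module.finrank ℚ (zsIn A B Y) + ((fun g : G => (g : G ⧸ A)) '' (Y : Set G)).ncard ≤ Y.card := by
  classical
  set q : G → G ⧸ A := fun g => (g : G ⧸ A) with hq
  -- one representative in `Y` for every coset met by `Y`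
  have hsurj : ∀ c ∈ Y.image q, ∃ g ∈ Y, q g = c := by
    intro c hc
    exact Finset.mem_image.1 hc
  choose! r hr1 hr2 using hsurj
  set M : Finset G := (Y.image q).image r with hM
  have hMY : M ⊆ Y := by
    intro g hg
    obtain ⟨c, hc, rfl⟩ := Finset.mem_image.1 hg
    exact hr1 c hc
  have hMcard : M.card = (Y.image q).card := by
    apply Finset.card_image_of_injOn
    intro c hc c' hc' hcc
    rw [← hr2 c hc, ← hr2 c' hc', hcc]
  have h1 : ((q '' (Y : Set G)).ncard) = M.card := by
    rw [hMcard, ← Finset.coe_image, Set.ncard_coe_finset]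
  rw [h1]
  have h2 : Module.finrank ℚ (zsIn A B Y) ≤ (Y \ M).card := by
    refine (finrank_le_card (Y \ M) _ ?_).2
    intro y hy h0
    have hsupp : ∀ g, y.coeff g ≠ 0 → g ∈ M := by
      intro g hg
      by_contra hgM
      exact hg (h0 g (Finset.mem_sdiff.2 ⟨hy.1 g hg, hgM⟩))
    refine MonoidAlgebra.ext (Finsupp.ext fun m => ?_)
    by_contra hm
    have hmM := hsupp m hm
    have h3 := hy.2.1.pair (M := ℚ) (fun g => if q g = q m then 1 else 0) (by
      intro g a ha
      have : q (g * a) = q g := by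
        rw [hq]
        show ((g * a : G) : G ⧸ A) = (g : G ⧸ A)
        rw [QuotientGroup.eq]
        simpa using A.inv_mem ha
      rw [this])
    have h4 : pairL (fun g => if q g = q m then (1 : ℚ) else 0) y =
        pairL (fun g => if g = m then (1 : ℚ) else 0) y := by
      apply pairL_congr
      intro g hg
      have hgM := hsupp g hg
      by_cases hgm : g = m
      · rw [hgm]
        simp
      · rw [if_neg hgm, if_neg]
        intro hqq
        apply hgm
        obtain ⟨c, hc, rfl⟩ := Finset.mem_image.1 hgM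
        obtain ⟨c', hc', rfl⟩ := Finset.mem_image.1 hmM
        rw [hr2 c hc, hr2 c' hc'] at hqq
        rw [hqq]
    rw [h4, pairL_apply] at h3
    rw [Finsupp.sum, Finset.sum_eq_single m] at h3
    · simp only [if_true, smul_eq_mul, mul_one] at h3
      exact hm h3
    · intro g _ hgm
      rw [if_neg hgm, smul_zero]
    · intro hmn
      rw [Finsupp.notMem_support_iff.1 hmn, zero_smul]
  have h3 : (Y \ M).card + M.card = Y.card := Finset.card_sdiff_add_card_eq_card hMY
  omega

end Main

end Pool.Agent.SurfExact
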