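import Pool.Agent.SurfExact.DefsA
import Pool.Agent.SurfExact.Levels

/-!
# MP_5bf54f_al, package A3: rank-nullity for finite subgraphs of the Cayley graph
-/

set_option autoImplicit false
set_option linter.unusedSectionVars false

namespace Pool.Agent.SurfExact

open Function Pool.Agent.SurfGrowth Finset

section Euler

variable {G : Type*} [Group G] {ι : Type*} [Fintype ι] [DecidableEq ι]

/-- The chain with given coefficients on the edges of `Y`. -/
noncomputable def a3Z (Y : ι → Finset G) : ((t : ι) → Y t → ℚ) →ₗ[ℚ] (ι → QG G) where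
  toFun f := fun t => ∑ g : Y t, f t g • el g.1
  map_add' f f' := by
    funext t
    simp only [Pi.add_apply, add_smul, Finset.sum_add_distrib]
  map_smul' c f := by
    funext t
    simp only [Pi.smul_apply, smul_eq_mul, mul_smul, Finset.smul_sum, RingHom.id_apply]

theorem a3_coeff_sum {κ : Type*} (S : Finset κ) (f : κ → QG G) (g : G) :
    (∑ i ∈ S, f i).coeff g = ∑ i ∈ S, (f i).coeff g := by
  classical
  induction S using Finset.induction_on with
  | empty => simp
  | insert b S hb ih => rw [Finset.sum_insert hb, Finset.sum_insert hb, ← ih]; simp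

open Classical in
theorem a3Z_coeff (Y : ι → Finset G) (f : (t : ι) → Y t → ℚ) (t : ι) (g : G) :
    (a3Z Y f t).coeff g = if h : g ∈ Y t then f t ⟨g, h⟩ else 0 := by
  show (∑ g' : Y t, f t g' • el g'.1).coeff g = _
  rw [a3_coeff_sum]
  have h1 : ∀ g' : Y t, (f t g' • el g'.1).coeff g = if g'.1 = g then f t g' else 0 := by
    intro g'
    rw [MonoidAlgebra.coeff_smul, Finsupp.smul_apply, el_coeff, Finsupp.single_apply]
    split_ifs <;> simp
  simp only [h1]
  split_ifs with h
  · rw [Finset.sum_eq_single (⟨g, h⟩ : Y t)]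
    · simp
    · intro g' _ hg'
      rw [if_neg]
      intro h2
      exact hg' (Subtype.ext h2)
    · simp
  · apply Finset.sum_eq_zero
    intro g' _
    rw [if_neg]
    intro h2
    exact h (h2 ▸ g'.2)

theorem a3Z_injective (Y : ι → Finset G) : Injective (a3Z (G := G) Y) := by
  classical
  intro f f' h
  funext t g
  have h1 := congrArg (fun y : QG G => y.coeff g.1) (congrFun h t)
  simp only [a3Z_coeff] at h1
  rw [dif_pos g.2, dif_pos g.2] at h1
  exact h1

/-- Elements supported in `A` with vanishing sum of the coefficients. -/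
noncomputable def a3W (A : Finset G) : Submodule ℚ (QG G) where
  carrier := {y | (∀ g, y.coeff g ≠ 0 → g ∈ A) ∧ pairL (fun _ => (1 : ℚ)) y = 0}
  zero_mem' := ⟨by simp, by simp⟩
  add_mem' := by
    rintro a b ⟨ha, ha'⟩ ⟨hb, hb'⟩
    refine ⟨?_, by rw [map_add, ha', hb', add_zero]⟩
    intro g hg
    by_contra hgA
    apply hg
    have h1 : a.coeff g = 0 := by
      by_contra h1
      exact hgA (ha g h1)
    have h2 : b.coeff g = 0 := by
      by_contra h2
      exact hgA (hb g h2)
    simp [h1, h2]
  smul_mem' := by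
    rintro c a ⟨ha, ha'⟩
    refine ⟨?_, by rw [map_smul, ha', smul_zero]⟩
    intro g hg
    apply ha g
    intro h0
    apply hg
    simp [h0]

theorem a3W_fin (A : Finset G) (hA : A.Nonempty) :
    FiniteDimensional ℚ (a3W A) ∧ Module.finrank ℚ (a3W A) + 1 ≤ A.card := by
  classical
  obtain ⟨a0, ha0⟩ := hA
  have h1 := finrank_le_card (A.erase a0) (a3W A) (by
    intro y hy h0
    have hsupp : ∀ g, g ≠ a0 → y.coeff g = 0 := by
      intro g hg
      by_contra hne
      exact hne (h0 g (Finset.mem_erase.2 ⟨hg, hy.1 g hne⟩))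
    have hy2 : y = y.coeff a0 • el a0 := by
      refine MonoidAlgebra.ext (Finsupp.ext fun g => ?_)
      rw [MonoidAlgebra.coeff_smul, Finsupp.smul_apply, el_coeff, Finsupp.single_apply]
      by_cases hg : a0 = g
      · rw [if_pos hg, hg]
        simp
      · rw [if_neg hg, hsupp g (fun h => hg h.symm)]
        simp
    have h3 := hy.2
    rw [hy2, map_smul, pairL_el, smul_eq_mul, mul_one] at h3
    rw [hy2, h3, zero_smul])
  refine ⟨h1.1, ?_⟩
  have h2 := h1.2
  rw [Finset.card_erase_of_mem ha0] at h2
  have h3 : 0 < A.card := Finset.card_pos.2 ⟨a0, ha0⟩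
  omega

theorem a3_finiteDimensional (x : ι → G) (Y : ι → Finset G) :
    FiniteDimensional ℚ (cycIn x Y) := by
  let L : (cycIn x Y) →ₗ[ℚ] (∀ t, (Y t → ℚ)) :=
    (LinearMap.pi (fun t => (resL (Y t)).comp (LinearMap.proj t))).domRestrict (cycIn x Y)
  have hinj : Injective L := by
    rw [← LinearMap.ker_eq_bot, LinearMap.ker_eq_bot']
    intro z hz
    apply Subtype.ext
    funext t
    refine MonoidAlgebra.ext (Finsupp.ext fun g => ?_)
    by_contra hg
    exact hg (congrFun (congrFun hz t) ⟨g, z.2.2 t g hg⟩)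
  exact FiniteDimensional.of_injective L hinj

/-- Rank-nullity for a finite subgraph of the Cayley graph. -/
theorem euler (x : ι → G) (Y : ι → Finset G) (A : Finset G) (hA : A.Nonempty)
    (hY : ∀ t, ∀ g ∈ Y t, g ∈ A ∧ g * x t ∈ A) :
    ∑ t, (Y t).card + 1 ≤ Module.finrank ℚ (cycIn x Y) + A.card := by
  classical
  let E : ((t : ι) → Y t → ℚ) →ₗ[ℚ] QG G := ((bdry x).restrictScalars ℚ).comp (a3Z Y)
  have hE : ∀ f, E f = bdry x (a3Z Y f) := fun f => rfl
  have hrange : LinearMap.range E ≤ a3W A := by
    rintro y ⟨f, rfl⟩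
    rw [hE, bdry_apply]
    have h1 : ∀ t, a3Z Y f t * (el (x t) - 1) =
        ∑ g : Y t, f t g • (el (g.1 * x t) - el g.1) := by
      intro t
      show (∑ g : Y t, f t g • el g.1) * (el (x t) - 1) = _
      rw [Finset.sum_mul]
      refine Finset.sum_congr rfl fun g _ => ?_
      rw [smul_mul_assoc, mul_sub, mul_one, el_mul]
    simp only [h1]
    refine Submodule.sum_mem _ fun t _ => Submodule.sum_mem _ fun g _ => ?_
    refine Submodule.smul_mem _ _ ⟨?_, ?_⟩
    · intro g' hg'
      by_contra hgA
      apply hg'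
      have h2 := hY t g.1 g.2
      have h3 : g.1 ≠ g' := fun h => hgA (h ▸ h2.1)
      have h4 : g.1 * x t ≠ g' := fun h => hgA (h ▸ h2.2)
      rw [MonoidAlgebra.coeff_sub, Finsupp.sub_apply, el_coeff, el_coeff, Finsupp.single_apply,
        Finsupp.single_apply, if_neg h3, if_neg h4, sub_self]
    · rw [map_sub, pairL_el, pairL_el, sub_self]
  obtain ⟨hW1, hW2⟩ := a3W_fin A hA
  have h2 : Module.finrank ℚ (LinearMap.range E) ≤ Module.finrank ℚ (a3W A) :=
    Submodule.finrank_mono hrange
  have hfd : FiniteDimensional ℚ (cycIn x Y) := a3_finiteDimensional x Y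
  have h3 : Module.finrank ℚ (LinearMap.ker E) ≤ Module.finrank ℚ (cycIn x Y) := by
    have hmem : ∀ f ∈ LinearMap.ker E, a3Z Y f ∈ cycIn x Y := by
      intro f hf
      refine ⟨?_, ?_⟩
      · show a3Z Y f ∈ cyc x
        unfold cyc
        rw [LinearMap.mem_ker, ← hE]
        exact hf
      · intro t g hg
        rw [a3Z_coeff] at hg
        by_contra hgY
        rw [dif_neg hgY] at hg
        exact hg rfl
    exact LinearMap.finrank_le_finrank_of_injective
      (f := (a3Z Y).restrict (p := LinearMap.ker E) (q := cycIn x Y) hmem)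
      (fun a b hab => Subtype.ext (a3Z_injective Y (congrArg Subtype.val hab)))
  have h4 := LinearMap.finrank_range_add_finrank_ker E
  have h5 : Module.finrank ℚ ((t : ι) → Y t → ℚ) = ∑ t, (Y t).card := by
    rw [Module.finrank_pi_fintype]
    refine Finset.sum_congr rfl fun t _ => ?_
    rw [Module.finrank_fintype_fun_eq_card, Fintype.card_coe]
  rw [h5] at h4
  omega

theorem sum_card_edgeFam (x : ι → G) (A : Finset G) :
    ∑ t, (edgeFam x A t).card = (edges x A).card := by
  rw [card_edges]
  rfl

end Euler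

end Pool.Agent.SurfExact
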