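import Pool.Agent.SurfExact.DefsA

/-!
# Families of standard type: basic facts (package SX-A11)
-/

set_option autoImplicit false
set_option linter.unusedSectionVars false

namespace Pool.Agent.SurfExact

open Function Pool.Agent.SurfGrowth Finset

section StdBasic

variable {G : Type*} [Group G] {ι : Type*} [Fintype ι] [DecidableEq ι]

theorem stdB_linv_linv (l : ι × Bool) : linv (linv l) = l := by
  rcases l with ⟨t, b⟩
  simp [linv]

theorem stdB_letter_linv (x : ι → G) (l : ι × Bool) : letter x (linv l) = (letter x l)⁻¹ := by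
  rcases l with ⟨t, b⟩
  cases b <;> simp [linv, letter]

variable {x : ι → G} {n : ℕ} (S : Std x n)

include S in
theorem stdB_neZero : NeZero n := ⟨by
  have h1 := S.hn
  have h2 := S.hd
  omega⟩

theorem stdB_r_rv (i : ZMod n) : S.r (S.rv i) = linv (S.r i) := by
  simp [Std.rv]

theorem rv_rv (i : ZMod n) : S.rv (S.rv i) = i := by
  have h : S.rv (S.rv i) = S.r.symm (linv (S.r (S.rv i))) := rfl
  rw [h, stdB_r_rv, stdB_linv_linv, Equiv.symm_apply_apply]

theorem nb_rv (w : G) (i : ZMod n) : S.nb (S.nb w i) (S.rv i) = w := by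
  unfold Std.nb
  rw [stdB_r_rv, stdB_letter_linv, mul_inv_cancel_right]

theorem fc_succ (w : G) (i : ZMod n) : S.fc (S.nb w i) (i + 1) = S.fc w i := by
  unfold Std.nb Std.fc
  rw [S.p_succ]
  group

theorem fc_rv (w : G) (i : ZMod n) : S.fc (S.nb w i) (S.rv i) = S.fc w (S.tau i) := by
  have h := fc_succ S (S.nb w i) (S.rv i)
  rw [nb_rv] at h
  exact h.symm

theorem tau_bijective : Bijective S.tau := by
  have h1 : Bijective S.rv := (show Involutive S.rv from rv_rv S).bijective
  exact (Equiv.addRight (1 : ZMod n)).bijective.comp h1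

theorem tau_ne (i : ZMod n) : S.tau i ≠ i := by
  intro h
  have h1 : S.p (S.rv i + 1) = S.p (S.rv i) * (letter x (S.r i))⁻¹ := by
    rw [S.p_succ, stdB_r_rv, stdB_letter_linv]
  have h2 : S.rv i + 1 = i := h
  rw [h2] at h1
  have h3 : S.p (S.rv i) = S.p (i + 1) := by
    rw [S.p_succ, h1, inv_mul_cancel_right]
  have h4 := S.p_inj h3
  rw [h4] at h2
  have h5 : ((2 : ℕ) : ZMod n) = 0 := by
    have : i + 1 + 1 - i = 0 := by rw [h2, sub_self]
    push_cast
    rw [← this]
    ring
  rw [ZMod.natCast_eq_zero_iff] at h5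
  have h6 := Nat.le_of_dvd (by norm_num) h5
  have h7 := S.hn
  have h8 := S.hd
  omega

/-- The powers of `tau` act transitively. -/
theorem tau_trans (i j : ZMod n) : ∃ k : ℕ, (S.tau)^[k] i = j := by
  classical
  have := stdB_neZero S
  let e : Equiv.Perm (ZMod n) := Equiv.ofBijective S.tau (tau_bijective S)
  have he : ∀ a, e a = S.tau a := fun a => rfl
  have h := S.link (fun j => if e.SameCycle i j then 1 else 0) (by
    intro a
    have h1 : e.SameCycle i (S.tau a) ↔ e.SameCycle i a := by
      rw [← he a, Equiv.Perm.sameCycle_apply_right]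
    have h2 : S.r.symm (linv (S.r a)) + 1 = S.tau a := rfl
    rw [h2]
    simp only [h1]) i j
  have h2 : e.SameCycle i j := by
    by_contra hcon
    simp only [Equiv.Perm.SameCycle.refl, if_true, if_neg hcon] at h
    exact one_ne_zero h
  obtain ⟨k, _, hk⟩ := h2.exists_pow_eq'
  refine ⟨k, ?_⟩
  rw [← hk, ← Equiv.Perm.iterate_eq_pow]
  rfl

/-- The generator of the module of cycles. -/
noncomputable def stdB_zeta (t : ι) : QG G :=
  el (S.p (S.r.symm (t, true))) - el (S.p (S.r.symm (t, false) + 1))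

theorem stdB_zeta_coeff (c : QG G) (t : ι) (w : G) (i : ZMod n) (hi : S.r i = (t, true)) :
    (c * stdB_zeta S t).coeff w = c.coeff (S.fc w i) - c.coeff (S.fc w (S.tau i)) := by
  have h1 : S.r.symm (t, true) = i := by rw [← hi, Equiv.symm_apply_apply]
  have h2 : S.r.symm (t, false) + 1 = S.tau i := by
    show _ = S.r.symm (linv (S.r i)) + 1
    rw [hi]
    rfl
  unfold stdB_zeta
  rw [h1, h2, mul_sub, MonoidAlgebra.coeff_sub, Finsupp.sub_apply, mulel_coeff, mulel_coeff]
  rfl

theorem stdB_zeta_ne (t : ι) : stdB_zeta S t ≠ 0 := by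
  classical
  intro h
  unfold stdB_zeta at h
  rw [sub_eq_zero, el_eq_single, el_eq_single] at h
  have h2 := congrArg (fun y : QG G => y.coeff (S.p (S.r.symm (t, true)))) h
  simp only [MonoidAlgebra.coeff_single, Finsupp.single_apply, if_true] at h2
  split_ifs at h2 with h3
  · have h4 := S.p_inj h3
    apply tau_ne S (S.r.symm (t, true))
    show S.r.symm (linv (S.r (S.r.symm (t, true)))) + 1 = _
    rw [Equiv.apply_symm_apply]
    exact h4
  · exact one_ne_zero h2

theorem stdB_of_mem {z : ι → QG G} (hz : z ∈ cyc x) : ∃ c : QG G, ∀ t, z t = c * stdB_zeta S t := by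
  rw [S.cyc_eq, Submodule.mem_span_singleton] at hz
  obtain ⟨c, hc⟩ := hz
  refine ⟨c, fun t => ?_⟩
  rw [← hc]
  rfl

include S in
theorem stdB_letter_inj {l l' : ι × Bool} (h : letter x l = letter x l') : l = l' := by
  classical
  have := S.dom
  rcases l with ⟨t, b⟩
  rcases l' with ⟨t', b'⟩
  have hbb : b = b' := by
    have h1 := congrArg (fun g => Multiplicative.toAdd (S.ε g)) h
    cases b <;> cases b' <;> first | rfl | (
      exfalso
      simp only [letter, Bool.false_eq_true, if_false, if_true, map_inv, toAdd_inv, S.hε] at h1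
      norm_num at h1)
  subst hbb
  have hx : x t = x t' := by
    cases b
    · simpa [letter] using h
    · simpa [letter] using h
  by_cases ht : t = t'
  · rw [ht]
  exfalso
  have hz : (Pi.single t 1 - Pi.single t' 1 : ι → QG G) ∈ cyc x := by
    rw [cyc, LinearMap.mem_ker, map_sub, bdry_single, bdry_single, hx, sub_self]
  obtain ⟨c, hc⟩ := stdB_of_mem S hz
  have hs : ∃ s, s ∉ ({t, t'} : Finset ι) := by
    by_contra hcon
    push Not at hcon
    have h1 : (univ : Finset ι) ⊆ {t, t'} := fun s _ => hcon s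
    have h2 := card_le_card h1
    have h3 : ({t, t'} : Finset ι).card ≤ 2 := Finset.card_le_two
    have h4 := S.hd
    rw [card_univ] at h2
    omega
  obtain ⟨s, hs⟩ := hs
  simp only [mem_insert, mem_singleton, not_or] at hs
  have h1 := hc s
  simp only [Pi.sub_apply] at h1
  rw [Pi.single_eq_of_ne hs.1, Pi.single_eq_of_ne hs.2, sub_self] at h1
  have h2 : c = 0 := by
    rcases mul_eq_zero.1 h1.symm with h | h
    · exact h
    · exact absurd h (stdB_zeta_ne S s)
  have h3 := hc t
  simp only [Pi.sub_apply] at h3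
  rw [Pi.single_eq_same, Pi.single_eq_of_ne ht, h2, zero_mul, sub_zero] at h3
  exact one_ne_zero h3

theorem nb_inj (w : G) {i j : ZMod n} (h : S.nb w i = S.nb w j) : i = j :=
  S.r.injective (stdB_letter_inj S (mul_left_cancel h))

/-- Flows are boundaries of unique finitely supported functions on the faces. -/
theorem std_flow (z : G → ZMod n → ℚ) (hfin : {w | ∃ i, z w i ≠ 0}.Finite)
    (hanti : ∀ w i, z (S.nb w i) (S.rv i) = - z w i) (hz : ∀ w, ∑ᶠ i, z w i = 0) :
    ∃ c : G →₀ ℚ, ∀ w i, z w i = c (S.fc w i) - c (S.fc w (S.tau i)) := by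
  classical
  have := stdB_neZero S
  let F : ι → (G →₀ ℚ) := fun t => Finsupp.ofSupportFinite (fun w => z w (S.r.symm (t, true)))
    (hfin.subset (fun w hw => ⟨_, hw⟩))
  have hF : ∀ t w, F t w = z w (S.r.symm (t, true)) := fun t w => rfl
  let Z : ι → QG G := fun t => MonoidAlgebra.ofCoeff (F t)
  have hZ : ∀ t w, (Z t).coeff w = z w (S.r.symm (t, true)) := fun t w => rfl
  have hmem : Z ∈ cyc x := by
    rw [cyc, LinearMap.mem_ker, bdry_apply]
    ext g
    have h1 : ∀ t, (Z t * (el (x t) - 1)).coeff g =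
        - z g (S.r.symm (t, false)) - z g (S.r.symm (t, true)) := by
      intro t
      rw [mul_sub, mul_one, MonoidAlgebra.coeff_sub, Finsupp.sub_apply, mulel_coeff, hZ, hZ,
        ← hanti g (S.r.symm (t, false))]
      congr 2
      · unfold Std.nb
        rw [Equiv.apply_symm_apply]
        simp [letter]
      · unfold Std.rv
        rw [Equiv.apply_symm_apply]
        simp [linv]
    have h2 : (∑ t, Z t * (el (x t) - 1)).coeff g = ∑ t, (Z t * (el (x t) - 1)).coeff g := by
      rw [MonoidAlgebra.coeff_sum, Finsupp.finsetSum_apply]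
    rw [h2, sum_congr rfl (fun t _ => h1 t)]
    have h3 := hz g
    rw [finsum_eq_sum_of_fintype, ← Equiv.sum_comp S.r.symm, Fintype.sum_prod_type] at h3
    simp only [Fintype.sum_bool] at h3
    have h4 : ∑ t, (- z g (S.r.symm (t, false)) - z g (S.r.symm (t, true))) =
        - ∑ t, (z g (S.r.symm (t, true)) + z g (S.r.symm (t, false))) := by
      rw [← sum_neg_distrib]
      refine sum_congr rfl fun t _ => ?_
      ring
    rw [h4, h3]
    simp
  obtain ⟨c, hc⟩ := stdB_of_mem S hmem
  refine ⟨c.coeff, ?_⟩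
  have key : ∀ w i, (S.r i).2 = true →
      z w i = c.coeff (S.fc w i) - c.coeff (S.fc w (S.tau i)) := by
    intro w i hi
    have h1 : S.r i = ((S.r i).1, true) := by rw [← hi]
    rw [← stdB_zeta_coeff S c (S.r i).1 w i h1, ← hc, hZ, ← h1, Equiv.symm_apply_apply]
  intro w i
  by_cases hi : (S.r i).2 = true
  · exact key w i hi
  · have h1 : (S.r (S.rv i)).2 = true := by
      rw [stdB_r_rv]
      simpa [linv] using hi
    have h2 := key (S.nb w i) (S.rv i) h1
    rw [hanti, fc_rv, ← fc_rv S (S.nb w i) (S.rv i), nb_rv, rv_rv] at h2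
    linarith

theorem std_uniq (c : G →₀ ℚ) (hc : ∀ w i, c (S.fc w i) = c (S.fc w (S.tau i))) : c = 0 := by
  classical
  have := S.dom
  obtain ⟨t⟩ : Nonempty ι := by
    rw [← Fintype.card_pos_iff]
    have := S.hd
    omega
  have h1 : (MonoidAlgebra.ofCoeff c : QG G) * stdB_zeta S t = 0 := by
    ext w
    rw [stdB_zeta_coeff S _ t w (S.r.symm (t, true)) (Equiv.apply_symm_apply _ _)]
    simp only [MonoidAlgebra.coeff_zero, Finsupp.coe_zero,
      Pi.zero_apply]
    rw [hc w (S.r.symm (t, true)), sub_self]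
  rcases mul_eq_zero.1 h1 with h | h
  · have := congrArg MonoidAlgebra.coeff h
    simpa using this
  · exact absurd h (stdB_zeta_ne S t)

end StdBasic

end Pool.Agent.SurfExact
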