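import Pool.Agent.SurfExact.Lev
import Pool.Agent.SurfExact.StdBasic

/-!
# MP_5bf54f_al: existence of bigons (package A12)
-/

set_option autoImplicit false
set_option linter.unusedSectionVars false

namespace Pool.Agent.SurfExact

open Function Pool.Agent.SurfGrowth Finset

variable {G : Type*} [Group G] {ι : Type*} [Fintype ι] [DecidableEq ι]

variable {x : ι → G} {n : ℕ} (S : Std x n)

/-- Two descending paths with the same ends. -/
structure BETwo (v : G) (m : ℕ) (Q : ℕ → G) (A : ℕ → ZMod n) (Q' : ℕ → G) (A' : ℕ → ZMod n) :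
    Prop where
  hm : 1 ≤ m
  h0 : Q 0 = v
  h0' : Q' 0 = v
  hmm : Q m = Q' m
  step : ∀ k < m, Q (k + 1) = S.nb (Q k) (A k)
  step' : ∀ k < m, Q' (k + 1) = S.nb (Q' k) (A' k)
  hl : ∀ k ≤ m, lev x (Q k) + k = lev x v
  hl' : ∀ k ≤ m, lev x (Q' k) + k = lev x v
  ne : ∀ k, 0 < k → k < m → Q k ≠ Q' k
  ab : A 0 ≠ A' 0

/-- The positively oriented edges. -/
def BEP (m : ℕ) (Q : ℕ → G) (A : ℕ → ZMod n) (Q' : ℕ → G) (A' : ℕ → ZMod n) (w : G)
    (i : ZMod n) : Prop :=
  (∃ k < m, w = Q k ∧ i = A k) ∨ (∃ k < m, w = Q' (k + 1) ∧ i = S.rv (A' k))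

variable {S} {v : G} {m : ℕ} {Q : ℕ → G} {A : ℕ → ZMod n} {Q' : ℕ → G} {A' : ℕ → ZMod n}

theorem BETwo.symm (T : BETwo S v m Q A Q' A') : BETwo S v m Q' A' Q A :=
  ⟨T.hm, T.h0', T.h0, T.hmm.symm, T.step', T.step, T.hl', T.hl, fun k h1 h2 => (T.ne k h1 h2).symm,
    T.ab.symm⟩

theorem BETwo.inj (T : BETwo S v m Q A Q' A') {i j : ℕ} (hi : i ≤ m) (hj : j ≤ m)
    (h : Q i = Q j) : i = j := by
  have h1 := T.hl i hi
  have h2 := T.hl j hj
  rw [h] at h1
  omega

theorem BETwo.inj' (T : BETwo S v m Q A Q' A') {i j : ℕ} (hi : i ≤ m) (hj : j ≤ m)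
    (h : Q i = Q' j) : i = j ∧ (i = 0 ∨ i = m) := by
  have h1 := T.hl i hi
  have h2 := T.hl' j hj
  rw [h] at h1
  have h3 : i = j := by omega
  refine ⟨h3, ?_⟩
  by_contra hc
  push Not at hc
  apply T.ne i (Nat.pos_of_ne_zero hc.1) (lt_of_le_of_ne hi hc.2)
  rw [h, h3]

/-- Reversal of edges. -/
theorem BETwo.rev (T : BETwo S v m Q A Q' A') (w : G) (i : ZMod n) :
    BEP S m Q A Q' A' (S.nb w i) (S.rv i) ↔ BEP S m Q' A' Q A w i := by
  constructor
  · rintro (⟨k, hk, h1, h2⟩ | ⟨k, hk, h1, h2⟩)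
    · right
      refine ⟨k, hk, ?_, ?_⟩
      · rw [T.step k hk, ← h1, ← h2, nb_rv]
      · rw [← h2, rv_rv]
    · left
      have h3 : i = A' k := by rw [← rv_rv S i, h2, rv_rv]
      refine ⟨k, hk, ?_, h3⟩
      have h4 := nb_rv S (Q' k) (A' k)
      rw [← T.step' k hk] at h4
      rw [← h4, ← h2, ← h1, nb_rv]
  · rintro (⟨k, hk, rfl, rfl⟩ | ⟨k, hk, rfl, rfl⟩)
    · right
      exact ⟨k, hk, (T.step' k hk).symm, rfl⟩
    · left
      refine ⟨k, hk, ?_, rv_rv S _⟩
      rw [T.step k hk, nb_rv]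

theorem BETwo.down (T : BETwo S v m Q A Q' A') {k : ℕ} (hk : k < m) :
    lev x (S.nb (Q k) (A k)) + 1 = lev x (Q k) := by
  rw [← T.step k hk]
  have h1 := T.hl k hk.le
  have h2 := T.hl (k + 1) hk
  omega

theorem BETwo.up (T : BETwo S v m Q A Q' A') {k : ℕ} (hk : k < m) :
    lev x (S.nb (Q (k + 1)) (S.rv (A k))) = lev x (Q (k + 1)) + 1 := by
  rw [T.step k hk, nb_rv]
  have h1 := T.down hk
  omega

/-- No edge occurs in both orientations. -/
theorem BETwo.disjoint (T : BETwo S v m Q A Q' A') (w : G) (i : ZMod n)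
    (h1 : BEP S m Q A Q' A' w i) (h2 : BEP S m Q' A' Q A w i) : False := by
  rcases h1 with ⟨k, hk, rfl, rfl⟩ | ⟨k, hk, rfl, rfl⟩
  · rcases h2 with ⟨j, hj, h3, h4⟩ | ⟨j, hj, h3, h4⟩
    · obtain ⟨h5, h6⟩ := T.inj' hk.le hj.le h3
      have h7 : k = 0 := by omega
      subst h5
      rw [h7] at h4
      exact T.ab h4
    · have h5 := T.down hk
      rw [h3, h4, T.up hj] at h5
      omega
  · rcases h2 with ⟨j, hj, h3, h4⟩ | ⟨j, hj, h3, h4⟩
    · have h5 := T.symm.down hj
      rw [← h3, ← h4, T.symm.up hk] at h5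
      omega
    · obtain ⟨h5, h6⟩ := T.inj' (i := j + 1) (j := k + 1) hj hk h3.symm
      have h7 : j = k := by omega
      subst h7
      have h8 : Q j = Q' j := by
        have e1 := nb_rv S (Q j) (A j)
        have e2 := nb_rv S (Q' j) (A' j)
        rw [← T.step j hj, ← h3, ← h4, T.step' j hj, e2] at e1
        exact e1.symm
      obtain ⟨-, h9⟩ := T.inj' hj.le hj.le h8
      have h10 : j = 0 := by omega
      have h11 : S.nb (Q j) (A j) = S.nb (Q j) (A' j) := by
        rw [← T.step j hj, ← h3, T.step' j hj, h8]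
      have h12 := nb_inj S _ h11
      rw [h10] at h12
      exact T.ab h12

open Classical in
/-- The flow. -/
noncomputable def BEz (S : Std x n) (m : ℕ) (Q : ℕ → G) (A : ℕ → ZMod n) (w : G) (i : ZMod n) : ℚ :=
  ∑ k ∈ range m, ((if w = Q k ∧ i = A k then (1 : ℚ) else 0) -
    (if w = Q (k + 1) ∧ i = S.rv (A k) then 1 else 0))

theorem BETwo.z_anti (T : BETwo S v m Q A Q' A') (w : G) (i : ZMod n) :
    BEz S m Q A (S.nb w i) (S.rv i) = - BEz S m Q A w i := by
  classical
  unfold BEz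
  rw [← Finset.sum_neg_distrib]
  apply Finset.sum_congr rfl
  intro k hk
  have hk' := Finset.mem_range.mp hk
  have e1 : (S.nb w i = Q k ∧ S.rv i = A k) ↔ (w = Q (k + 1) ∧ i = S.rv (A k)) := by
    constructor
    · rintro ⟨h1, h2⟩
      refine ⟨?_, ?_⟩
      · rw [T.step k hk', ← h1, ← h2, nb_rv]
      · rw [← h2, rv_rv]
    · rintro ⟨rfl, rfl⟩
      refine ⟨?_, rv_rv S _⟩
      rw [T.step k hk', nb_rv]
  have e2 : (S.nb w i = Q (k + 1) ∧ S.rv i = S.rv (A k)) ↔ (w = Q k ∧ i = A k) := by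
    constructor
    · rintro ⟨h1, h2⟩
      have h3 : i = A k := by rw [← rv_rv S i, h2, rv_rv]
      refine ⟨?_, h3⟩
      have h4 := nb_rv S (Q k) (A k)
      rw [← T.step k hk'] at h4
      rw [← h4, ← h2, ← h1, nb_rv]
    · rintro ⟨rfl, rfl⟩
      exact ⟨(T.step k hk').symm, rfl⟩
  simp only [e1, e2]
  ring

theorem BETwo.z_sum [Fintype (ZMod n)] (T : BETwo S v m Q A Q' A') (w : G) :
    ∑ i, (BEz S m Q A w i - BEz S m Q' A' w i) = 0 := by
  classical
  have key : ∀ (q : ℕ → G) (a : ℕ → ZMod n), ∑ i, BEz S m q a w i =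
      (if w = q 0 then (1 : ℚ) else 0) - (if w = q m then 1 else 0) := by
    intro q a
    unfold BEz
    rw [Finset.sum_comm]
    have h1 : ∀ k ∈ range m, ∑ i : ZMod n, ((if w = q k ∧ i = a k then (1 : ℚ) else 0) -
        (if w = q (k + 1) ∧ i = S.rv (a k) then 1 else 0)) =
        (if w = q k then (1 : ℚ) else 0) - (if w = q (k + 1) then 1 else 0) := by
      intro k _
      rw [Finset.sum_sub_distrib]
      congr 1
      · by_cases h : w = q k
        · simp [h]
        · simp [h]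
      · by_cases h : w = q (k + 1)
        · simp [h]
        · simp [h]
    rw [Finset.sum_congr rfl h1]
    exact Finset.sum_range_sub' (fun k => if w = q k then (1 : ℚ) else 0) m
  rw [Finset.sum_sub_distrib, key, key, T.h0, T.h0', T.hmm]
  ring

theorem BEz_finite (S : Std x n) (m : ℕ) (Q : ℕ → G) (A : ℕ → ZMod n) :
    {w | ∃ i, BEz S m Q A w i ≠ 0}.Finite := by
  classical
  apply Set.Finite.subset (((range m).image Q) ∪ ((range m).image (fun k => Q (k + 1)))).finite_toSet
  rintro w ⟨i, hi⟩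
  by_contra hc
  apply hi
  unfold BEz
  apply Finset.sum_eq_zero
  intro k hk
  rw [if_neg, if_neg, sub_zero]
  · rintro ⟨h1, _⟩
    apply hc
    rw [Finset.mem_coe, Finset.mem_union]
    exact Or.inr (Finset.mem_image.mpr ⟨k, hk, h1.symm⟩)
  · rintro ⟨h1, _⟩
    apply hc
    rw [Finset.mem_coe, Finset.mem_union]
    exact Or.inl (Finset.mem_image.mpr ⟨k, hk, h1.symm⟩)

open Classical in
theorem BETwo.z_eq (T : BETwo S v m Q A Q' A') (w : G) (i : ZMod n) :
    BEz S m Q A w i = (if ∃ k < m, w = Q k ∧ i = A k then (1 : ℚ) else 0) -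
      (if ∃ k < m, w = Q (k + 1) ∧ i = S.rv (A k) then 1 else 0) := by
  unfold BEz
  rw [Finset.sum_sub_distrib]
  congr 1
  · by_cases h : ∃ k < m, w = Q k ∧ i = A k
    · rw [if_pos h]
      obtain ⟨k, hk, h1, h2⟩ := h
      rw [Finset.sum_eq_single_of_mem k (Finset.mem_range.mpr hk), if_pos ⟨h1, h2⟩]
      intro j hj hjk
      rw [if_neg]
      rintro ⟨h3, _⟩
      apply hjk
      exact T.inj (Finset.mem_range.mp hj).le hk.le (h3.symm.trans h1)
    · rw [if_neg h]
      apply Finset.sum_eq_zero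
      intro k hk
      rw [if_neg]
      intro h1
      exact h ⟨k, Finset.mem_range.mp hk, h1⟩
  · by_cases h : ∃ k < m, w = Q (k + 1) ∧ i = S.rv (A k)
    · rw [if_pos h]
      obtain ⟨k, hk, h1, h2⟩ := h
      rw [Finset.sum_eq_single_of_mem k (Finset.mem_range.mpr hk), if_pos ⟨h1, h2⟩]
      intro j hj hjk
      rw [if_neg]
      rintro ⟨h3, _⟩
      apply hjk
      have := T.inj (i := j + 1) (j := k + 1) (Finset.mem_range.mp hj) hk (h3.symm.trans h1)
      omega
    · rw [if_neg h]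
      apply Finset.sum_eq_zero
      intro k hk
      rw [if_neg]
      intro h1
      exact h ⟨k, Finset.mem_range.mp hk, h1⟩

theorem BETwo.z_pos (T : BETwo S v m Q A Q' A') {w : G} {i : ZMod n}
    (h : BEP S m Q A Q' A' w i) : BEz S m Q A w i - BEz S m Q' A' w i = 1 := by
  classical
  have hN : ¬ BEP S m Q' A' Q A w i := fun h2 => T.disjoint w i h h2
  unfold BEP at h hN
  push Not at hN
  rw [T.z_eq, T.symm.z_eq]
  have h3 : ¬ ∃ k < m, w = Q' k ∧ i = A' k := by
    rintro ⟨k, hk, h4, h5⟩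
    exact hN.1 k hk h4 h5
  have h4 : ¬ ∃ k < m, w = Q (k + 1) ∧ i = S.rv (A k) := by
    rintro ⟨k, hk, h4, h5⟩
    exact hN.2 k hk h4 h5
  rw [if_neg h3, if_neg h4]
  rcases h with h | h
  · rw [if_pos h]
    have h5 : ¬ ∃ k < m, w = Q' (k + 1) ∧ i = S.rv (A' k) := by
      rintro ⟨j, hj, h5, h6⟩
      obtain ⟨k, hk, h7, h8⟩ := h
      have h9 := T.down hk
      rw [← h7, ← h8, h5, h6, T.symm.up hj] at h9
      omega
    rw [if_neg h5]
    norm_num
  · rw [if_pos h]
    have h5 : ¬ ∃ k < m, w = Q k ∧ i = A k := by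
      rintro ⟨k, hk, h7, h8⟩
      obtain ⟨j, hj, h5, h6⟩ := h
      have h9 := T.down hk
      rw [← h7, ← h8, h5, h6, T.symm.up hj] at h9
      omega
    rw [if_neg h5]
    norm_num

theorem BETwo.z_zero (T : BETwo S v m Q A Q' A') {w : G} {i : ZMod n}
    (h : ¬ BEP S m Q A Q' A' w i) (h' : ¬ BEP S m Q' A' Q A w i) :
    BEz S m Q A w i - BEz S m Q' A' w i = 0 := by
  classical
  unfold BEP at h h'
  rw [not_or] at h h'
  rw [T.z_eq, T.symm.z_eq, if_neg h.1, if_neg h.2, if_neg h'.1, if_neg h'.2]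
  norm_num

/-- A conserved flow supported on the bigon is constant along the first side. -/
theorem BETwo.const (T : BETwo S v m Q A Q' A') [Fintype (ZMod n)] (y : G → ZMod n → ℚ)
    (hanti : ∀ w i, y (S.nb w i) (S.rv i) = - y w i) (hsum : ∀ w, ∑ i, y w i = 0)
    (hsupp : ∀ w i, ¬ BEP S m Q A Q' A' w i → ¬ BEP S m Q' A' Q A w i → y w i = 0) :
    ∀ k < m, y (Q k) (A k) = y v (A 0) := by
  classical
  intro k
  induction k with
  | zero =>
    intro _
    rw [T.h0]
  | succ k ih =>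
    intro hk
    have hk' : k < m := by omega
    rw [← ih hk']
    have h1 := hsum (Q (k + 1))
    have h2 : ∀ i, i ≠ A (k + 1) → i ≠ S.rv (A k) → y (Q (k + 1)) i = 0 := by
      intro i hi1 hi2
      apply hsupp
      · rintro (⟨j, hj, h3, h4⟩ | ⟨j, hj, h3, h4⟩)
        · have h5 := T.inj (i := k + 1) (j := j) hk.le hj.le h3
          rw [← h5] at h4
          exact hi1 h4
        · obtain ⟨h5, h6⟩ := T.inj' (i := k + 1) (j := j + 1) hk.le hj h3
          omega
      · rintro (⟨j, hj, h3, h4⟩ | ⟨j, hj, h3, h4⟩)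
        · obtain ⟨h5, h6⟩ := T.inj' (i := k + 1) (j := j) hk.le hj.le h3
          omega
        · have h5 := T.inj (i := k + 1) (j := j + 1) hk.le hj h3
          have h6 : j = k := by omega
          rw [h6] at h4
          exact hi2 h4
    have hne : A (k + 1) ≠ S.rv (A k) := by
      intro h3
      have h4 := T.down hk
      rw [h3, T.up hk'] at h4
      omega
    have h3 : ∑ i, y (Q (k + 1)) i = y (Q (k + 1)) (A (k + 1)) + y (Q (k + 1)) (S.rv (A k)) := by
      rw [← Finset.sum_pair hne]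
      symm
      apply Finset.sum_subset (Finset.subset_univ _)
      intro i _ hi
      rw [Finset.mem_insert, Finset.mem_singleton, not_or] at hi
      exact h2 i hi.1 hi.2
    rw [h3] at h1
    have h4 := hanti (Q k) (A k)
    rw [← T.step k hk'] at h4
    linarith

theorem BETwo.top_eq (T : BETwo S v m Q A Q' A') [Fintype (ZMod n)] (y : G → ZMod n → ℚ)
    (hsum : ∀ w, ∑ i, y w i = 0)
    (hsupp : ∀ w i, ¬ BEP S m Q A Q' A' w i → ¬ BEP S m Q' A' Q A w i → y w i = 0) :
    y v (A' 0) = - y v (A 0) := by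
  classical
  have key : ∀ {Q A Q' A'}, BETwo S v m Q A Q' A' → ∀ i, BEP S m Q A Q' A' v i → i = A 0 := by
    intro Q A Q' A' T i h
    rcases h with ⟨j, hj, h3, h4⟩ | ⟨j, hj, h3, h4⟩
    · have h5 := T.hl j hj.le
      rw [← h3] at h5
      have h6 : j = 0 := by omega
      rw [h6] at h4
      exact h4
    · have h5 := T.hl' (j + 1) hj
      rw [← h3] at h5
      omega
  have h1 := hsum v
  have h3 : ∑ i, y v i = y v (A 0) + y v (A' 0) := by
    rw [← Finset.sum_pair T.ab]
    symm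
    apply Finset.sum_subset (Finset.subset_univ _)
    intro i _ hi
    rw [Finset.mem_insert, Finset.mem_singleton, not_or] at hi
    exact hsupp v i (fun h => hi.1 (key T i h)) (fun h => hi.2 (key T.symm i h))
  rw [h3] at h1
  linarith

/-- If the potential has a positive value the two paths bound a finite set of faces. -/
theorem BETwo.bigon (T : BETwo S v m Q A Q' A') (c : G →₀ ℚ)
    (hc : ∀ w i, BEz S m Q A w i - BEz S m Q' A' w i = c (S.fc w i) - c (S.fc w (S.tau i)))
    (hpos : ∃ f, 0 < c f) :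
    ∃ X : Finset G, Bigon S m Q A (fun k => Q' (m - k)) (fun k => S.rv (A' (m - 1 - k))) X := by
  classical
  have hn0 : NeZero n := ⟨by have h1 := S.hd; have h2 := S.hn; omega⟩
  obtain ⟨f0, hf0⟩ := hpos
  have hf0s : f0 ∈ c.support := Finsupp.mem_support_iff.mpr hf0.ne'
  obtain ⟨f1, hf1, hmax⟩ := Finset.exists_max_image c.support c ⟨f0, hf0s⟩
  set M := c f1 with hM
  have hM0 : 0 < M := lt_of_lt_of_le hf0 (hmax f0 hf0s)
  have hle : ∀ f, c f ≤ M := by
    intro f
    by_cases h : f ∈ c.support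
    · exact hmax f h
    · rw [Finsupp.notMem_support_iff.mp h]
      exact hM0.le
  set X : Finset G := c.support.filter (fun f => c f = M) with hX
  have hmem : ∀ f, f ∈ X ↔ c f = M := by
    intro f
    rw [hX, Finset.mem_filter]
    constructor
    · exact fun h => h.2
    · intro h
      refine ⟨?_, h⟩
      rw [Finsupp.mem_support_iff, h]
      exact hM0.ne'
  set y : G → ZMod n → ℚ := fun w i =>
    (if S.fc w i ∈ X then (1 : ℚ) else 0) - (if S.fc w (S.tau i) ∈ X then 1 else 0) with hy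
  have htr : ∀ i, S.tau (S.rv i) = i + 1 := by
    intro i
    unfold Std.tau
    rw [rv_rv]
  have yanti : ∀ w i, y (S.nb w i) (S.rv i) = - y w i := by
    intro w i
    simp only [hy]
    rw [htr, fc_succ, fc_rv]
    ring
  have ysum : ∀ w, ∑ i, y w i = 0 := by
    intro w
    simp only [hy]
    rw [Finset.sum_sub_distrib, sub_eq_zero]
    exact (Function.Bijective.sum_comp (tau_bijective S)
      (fun i => if S.fc w i ∈ X then (1 : ℚ) else 0)).symm
  have yzero : ∀ w i, c (S.fc w i) = c (S.fc w (S.tau i)) → y w i = 0 := by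
    intro w i h
    simp only [hy, hmem, h, sub_self]
  have ysupp : ∀ w i, ¬ BEP S m Q A Q' A' w i → ¬ BEP S m Q' A' Q A w i → y w i = 0 := by
    intro w i h1 h2
    apply yzero
    have h3 := hc w i
    rw [T.z_zero h1 h2] at h3
    linarith
  have ypos : ∀ w i, BEP S m Q A Q' A' w i →
      S.fc w (S.tau i) ∉ X ∧ (y w i = 0 ∨ y w i = 1) := by
    intro w i h1
    have h3 := hc w i
    rw [T.z_pos h1] at h3
    have h4 : S.fc w (S.tau i) ∉ X := by
      rw [hmem]
      intro h5
      have h6 := hle (S.fc w i)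
      linarith
    refine ⟨h4, ?_⟩
    simp only [hy]
    rw [if_neg h4, sub_zero]
    by_cases h5 : S.fc w i ∈ X
    · rw [if_pos h5]
      exact Or.inr rfl
    · rw [if_neg h5]
      exact Or.inl rfl
  have hm0 : 0 < m := T.hm
  have hva : BEP S m Q A Q' A' v (A 0) := Or.inl ⟨0, hm0, T.h0.symm, rfl⟩
  have c1 := T.const y yanti ysum ysupp
  have c2 := T.symm.const y yanti ysum (fun w i h1 h2 => ysupp w i h2 h1)
  have c3 := T.top_eq y ysum ysupp
  -- the common value
  have hall : ∀ w i, BEP S m Q A Q' A' w i → y w i = y v (A 0) := by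
    rintro w i (⟨k, hk, rfl, rfl⟩ | ⟨k, hk, rfl, rfl⟩)
    · exact c1 k hk
    · have h4 := yanti (Q' k) (A' k)
      rw [← T.step' k hk] at h4
      rw [h4, c2 k hk, c3, neg_neg]
  have hone : y v (A 0) = 1 := by
    rcases (ypos v (A 0) hva).2 with h0 | h1
    · exfalso
      have hall0 : ∀ w i, y w i = 0 := by
        intro w i
        by_cases h1 : BEP S m Q A Q' A' w i
        · rw [hall w i h1, h0]
        · by_cases h2 : BEP S m Q' A' Q A w i
          · have h3 : BEP S m Q A Q' A' (S.nb w i) (S.rv i) := (T.rev w i).mpr h2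
            have h4 := hall _ _ h3
            rw [yanti, h0] at h4
            linarith
          · exact ysupp w i h1 h2
      have h5 : (Finsupp.indicator X (fun _ _ => (1 : ℚ))) = 0 := by
        apply std_uniq S
        intro w i
        have h6 := hall0 w i
        simp only [hy] at h6
        rw [Finsupp.indicator_apply, Finsupp.indicator_apply]
        simp only [dite_eq_ite]
        linarith
      have h6 : (Finsupp.indicator X (fun _ _ => (1 : ℚ))) f1 = 1 := by
        rw [Finsupp.indicator_apply, dif_pos ((hmem f1).mpr rfl)]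
      rw [h5] at h6
      simp at h6
    · exact h1
  have honD : ∀ w i, OnD m Q A (fun k => Q' (m - k)) (fun k => S.rv (A' (m - 1 - k))) w i ↔
      BEP S m Q A Q' A' w i := by
    intro w i
    unfold OnD BEP
    apply or_congr Iff.rfl
    constructor
    · rintro ⟨k, hk, h1, h2⟩
      refine ⟨m - 1 - k, by omega, ?_, h2⟩
      have h3 : m - 1 - k + 1 = m - k := by omega
      rw [h1, h3]
    · rintro ⟨k, hk, h1, h2⟩
      refine ⟨m - 1 - k, by omega, ?_, ?_⟩
      · rw [h1]
        congr 1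
        omega
      · rw [h2]
        congr 2
        omega
  refine ⟨X, ⟨T.hm, ⟨T.step, ?_⟩, ⟨?_, ?_⟩, ?_, ?_, ?_, ?_, ?_⟩⟩
  · intro k hk
    have h1 := T.hl k hk
    rw [T.h0]
    push_cast [← h1]
    ring
  · intro k hk
    show Q' (m - (k + 1)) = S.nb (Q' (m - k)) (S.rv (A' (m - 1 - k)))
    have h1 : m - (k + 1) = m - 1 - k := by omega
    have h2 : m - k = (m - 1 - k) + 1 := by omega
    rw [h1, h2, T.step' _ (by omega), nb_rv]
  · intro k hk
    have h1 := T.hl' (m - k) (by omega)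
    have h2 := T.hl' m le_rfl
    simp only [Nat.sub_zero]
    have h3 : ((m - k : ℕ) : ℤ) = m - k := by
      push_cast [hk]
      ring
    have h1' : (lev x (Q' (m - k)) : ℤ) + (m - k : ℕ) = lev x v := by exact_mod_cast h1
    have h2' : (lev x (Q' m) : ℤ) + m = lev x v := by exact_mod_cast h2
    rw [h3] at h1'
    linarith
  · simp only [Nat.sub_zero]
    exact T.hmm.symm
  · simp only [Nat.sub_self]
    rw [T.h0, T.h0']
  · intro i hi j hj0 hjm h
    obtain ⟨h1, h2⟩ := T.inj' hi (by omega) h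
    omega
  · intro w i h
    rw [honD] at h
    refine ⟨?_, (ypos w i h).1⟩
    have h1 := hall w i h
    rw [hone] at h1
    simp only [hy] at h1
    rw [if_neg (ypos w i h).1, sub_zero] at h1
    by_contra hcon
    rw [if_neg hcon] at h1
    norm_num at h1
  · intro w i h1 h2
    rw [honD] at h1 h2
    have h3 : ¬ BEP S m Q' A' Q A w i := fun h => h2 ((T.rev w i).mpr h)
    have h4 := hc w i
    rw [T.z_zero h1 h3] at h4
    rw [hmem, hmem]
    have h5 : c (S.fc w i) = c (S.fc w (S.tau i)) := by linarith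
    rw [h5]

/-- A descending path. -/
theorem BE_path (S : Std x n) (v : G) (a : ZMod n) (ha : lev x (S.nb v a) + 1 = lev x v) :
    ∃ (Q : ℕ → G) (A : ℕ → ZMod n), Q 0 = v ∧ A 0 = a ∧
      (∀ k, Q (k + 1) = S.nb (Q k) (A k)) ∧ ∀ k ≤ lev x v, lev x (Q k) + k = lev x v := by
  classical
  have hdown : ∀ w : G, ∃ i : ZMod n, w ≠ 1 → lev x (S.nb w i) + 1 = lev x w := by
    intro w
    by_cases hw : w = 1
    · exact ⟨a, fun h => absurd hw h⟩
    · obtain ⟨l, hl⟩ := exists_down x S.gen w hw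
      refine ⟨S.r.symm l, fun _ => ?_⟩
      unfold Std.nb
      rw [Equiv.apply_symm_apply]
      exact hl
  choose dn hdn using hdown
  let Q : ℕ → G := fun k => Nat.rec v (fun k w => if k = 0 then S.nb v a else S.nb w (dn w)) k
  let A : ℕ → ZMod n := fun k => if k = 0 then a else dn (Q k)
  have hQ0 : Q 0 = v := rfl
  have hQs : ∀ k, Q (k + 1) = S.nb (Q k) (A k) := by
    intro k
    by_cases h : k = 0
    · rw [h]
      rfl
    · show (if k = 0 then S.nb v a else S.nb (Q k) (dn (Q k))) = S.nb (Q k) (if k = 0 then a else dn (Q k))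
      rw [if_neg h, if_neg h]
  refine ⟨Q, A, hQ0, rfl, hQs, ?_⟩
  intro k
  induction k with
  | zero =>
    intro _
    rw [hQ0, add_zero]
  | succ k ih =>
    intro hk
    have h1 := ih (by omega)
    have h2 : lev x (S.nb (Q k) (A k)) + 1 = lev x (Q k) := by
      by_cases h : k = 0
      · subst h
        exact ha
      · have h3 : A k = dn (Q k) := if_neg h
        rw [h3]
        apply hdn
        intro h4
        rw [h4, (lev_eq_zero x S.gen 1).mpr rfl] at h1
        omega
    rw [hQs]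
    omega

theorem exists_bigon (S : Std x n) (v : G) (a b : ZMod n) (hab : a ≠ b)
    (ha : lev x (S.nb v a) + 1 = lev x v) (hb : lev x (S.nb v b) + 1 = lev x v) :
    ∃ (m : ℕ) (q : ℕ → G) (α : ℕ → ZMod n) (q' : ℕ → G) (α' : ℕ → ZMod n) (X : Finset G),
      Bigon S m q α q' α' X ∧ q 0 = v ∧
      ((α 0 = a ∧ S.rv (α' (m - 1)) = b) ∨ (α 0 = b ∧ S.rv (α' (m - 1)) = a)) := by
  classical
  have hn0 : NeZero n := ⟨by have h1 := S.hd; have h2 := S.hn; omega⟩
  obtain ⟨Q, A, hQ0, hA0, hQs, hQl⟩ := BE_path S v a ha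
  obtain ⟨Q', A', hQ0', hA0', hQs', hQl'⟩ := BE_path S v b hb
  have hex : ∃ m, 1 ≤ m ∧ Q m = Q' m := by
    refine ⟨lev x v, by omega, ?_⟩
    have h1 : lev x (Q (lev x v)) = 0 := by
      have := hQl _ le_rfl
      omega
    have h2 : lev x (Q' (lev x v)) = 0 := by
      have := hQl' _ le_rfl
      omega
    rw [(lev_eq_zero x S.gen _).mp h1, (lev_eq_zero x S.gen _).mp h2]
  set m := Nat.find hex with hm
  obtain ⟨hm1, hmm⟩ := Nat.find_spec hex
  have hmin : ∀ k, 0 < k → k < m → Q k ≠ Q' k := by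
    intro k hk hkm h
    exact Nat.find_min hex hkm ⟨hk, h⟩
  have hmle : m ≤ lev x v := by
    apply Nat.find_min' hex
    refine ⟨by omega, ?_⟩
    have h1 : lev x (Q (lev x v)) = 0 := by
      have := hQl _ le_rfl
      omega
    have h2 : lev x (Q' (lev x v)) = 0 := by
      have := hQl' _ le_rfl
      omega
    rw [(lev_eq_zero x S.gen _).mp h1, (lev_eq_zero x S.gen _).mp h2]
  have T : BETwo S v m Q A Q' A' :=
    ⟨hm1, hQ0, hQ0', hmm, fun k _ => hQs k, fun k _ => hQs' k, fun k hk => hQl k (hk.trans hmle),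
      fun k hk => hQl' k (hk.trans hmle), hmin, by rw [hA0, hA0']; exact hab⟩
  obtain ⟨c, hc⟩ := std_flow S (fun w i => BEz S m Q A w i - BEz S m Q' A' w i)
    (by
      apply Set.Finite.subset ((BEz_finite S m Q A).union (BEz_finite S m Q' A'))
      rintro w ⟨i, hi⟩
      by_contra hcon
      rw [Set.mem_union, not_or] at hcon
      apply hi
      have h1 : BEz S m Q A w i = 0 := by
        by_contra h
        exact hcon.1 ⟨i, h⟩
      have h2 : BEz S m Q' A' w i = 0 := by
        by_contra h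
        exact hcon.2 ⟨i, h⟩
      rw [h1, h2, sub_zero])
    (by
      intro w i
      rw [T.z_anti, T.symm.z_anti]
      ring)
    (by
      intro w
      rw [finsum_eq_sum_of_fintype]
      exact T.z_sum w)
  by_cases hpos : ∃ f, 0 < c f
  · obtain ⟨X, hX⟩ := T.bigon c hc hpos
    refine ⟨m, Q, A, _, _, X, hX, hQ0, Or.inl ⟨hA0, ?_⟩⟩
    show S.rv (S.rv (A' (m - 1 - (m - 1)))) = b
    rw [Nat.sub_self, rv_rv, hA0']
  · have hneg : ∃ f, 0 < (-c) f := by
      by_contra hcon
      push Not at hpos hcon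
      have h0 : ∀ f, c f = 0 := by
        intro f
        have h1 := hpos f
        have h2 := hcon f
        rw [Finsupp.neg_apply] at h2
        linarith
      have h1 := hc v (A 0)
      rw [h0, h0, sub_zero] at h1
      have h2 := T.z_pos (w := v) (i := A 0) (Or.inl ⟨0, by omega, hQ0.symm, rfl⟩)
      rw [h2] at h1
      norm_num at h1
    have hc' : ∀ w i, BEz S m Q' A' w i - BEz S m Q A w i
        = (-c) (S.fc w i) - (-c) (S.fc w (S.tau i)) := by
      intro w i
      have h1 := hc w i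
      rw [Finsupp.neg_apply, Finsupp.neg_apply]
      linarith
    obtain ⟨X, hX⟩ := T.symm.bigon (-c) hc' hneg
    refine ⟨m, Q', A', _, _, X, hX, hQ0', Or.inr ⟨hA0', ?_⟩⟩
    show S.rv (S.rv (A (m - 1 - (m - 1)))) = a
    rw [Nat.sub_self, rv_rv, hA0]

end Pool.Agent.SurfExact
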