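import Pool.Agent.SurfExact.Lev
import Pool.Agent.SurfExact.StdBasic

/-!
# MP_5bf54f_al, part A13b: sides of bigons (helper3)
-/

set_option autoImplicit false
set_option linter.unusedSectionVars false

namespace Pool.Agent.SurfExact

open Function Pool.Agent.SurfGrowth Finset

section Main

variable {G : Type*} [Group G] {ι : Type*} [Fintype ι] [DecidableEq ι]

section BigonSide

variable {x : ι → G} {n : ℕ} (S : Std x n)

theorem bs_nb_face (f : G) (i : ZMod n) : S.nb (f * S.p i) i = f * S.p (i + 1) := by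
  unfold Std.nb
  rw [S.p_succ, mul_assoc]

theorem bs_nb_face_rv (f : G) (i : ZMod n) : S.nb (f * S.p (i + 1)) (S.rv i) = f * S.p i := by
  rw [← bs_nb_face, nb_rv]

theorem bs_lev_nb (w : G) (i : ZMod n) :
    (lev x (S.nb w i) : ℤ) = lev x w + 1 ∨ (lev x (S.nb w i) : ℤ) = lev x w - 1 := by
  have h := lev_step x S.gen S.ε S.hε w (S.r i)
  unfold Std.nb
  omega

theorem bs_lev_path (f : G) (i : ZMod n) (j : ℕ) :
    |(lev x (f * S.p (i + j)) : ℤ) - lev x (f * S.p i)| ≤ j := by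
  induction j with
  | zero => simp
  | succ j ih =>
    have h := bs_lev_nb S (f * S.p (i + j)) (i + j)
    rw [bs_nb_face] at h
    have e : i + ((j + 1 : ℕ) : ZMod n) = i + j + 1 := by push_cast; ring
    rw [e]
    rw [abs_le] at ih ⊢
    push_cast
    omega

variable {m : ℕ} {q : ℕ → G} {a : ℕ → ZMod n} {q' : ℕ → G} {a' : ℕ → ZMod n} {X : Finset G}

variable {S}

theorem bs_side (B : Bigon S m q a q' a' X) {σ : ℤ} {Q : ℕ → G} {A : ℕ → ZMod n}
    (hQ : (σ = -1 ∧ Q = q ∧ A = a) ∨ (σ = 1 ∧ Q = q' ∧ A = a')) :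
    Side S σ m Q A ∧ (σ = 1 ∨ σ = -1) ∧ ∀ k < m, OnD m q a q' a' (Q k) (A k) := by
  rcases hQ with ⟨h1, h2, h3⟩ | ⟨h1, h2, h3⟩
  · subst h1 h2 h3
    exact ⟨B.side, Or.inr rfl, fun k hk => Or.inl ⟨k, hk, rfl, rfl⟩⟩
  · subst h1 h2 h3
    exact ⟨B.side', Or.inl rfl, fun k hk => Or.inr ⟨k, hk, rfl, rfl⟩⟩

theorem bs_inj {σ : ℤ} {Q : ℕ → G} {A : ℕ → ZMod n} (hs : Side S σ m Q A)
    (hσ : σ = 1 ∨ σ = -1) {j k : ℕ} (hj : j ≤ m) (hk : k ≤ m) (h : Q j = Q k) : j = k := by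
  have h1 := hs.lev_step j hj
  have h2 := hs.lev_step k hk
  rw [h] at h1
  rcases hσ with rfl | rfl <;> omega

variable (S)

theorem abs_eta (Q : ℕ → G) (A : ℕ → ZMod n) (k : ℕ) :
    |S.etaP Q A k| ≤ 1 ∧ |S.etaM Q A k| ≤ 1 := by
  have h1 := bs_lev_nb S (Q k) (A (k - 1) + 1)
  have h2 := bs_lev_nb S (Q k) (S.rv (A k - 1))
  unfold Std.etaP Std.etaM
  rw [abs_le, abs_le]
  omega

/-- A run along one face. -/
theorem side_run (B : Bigon S m q a q' a' X) {σ : ℤ} {Q : ℕ → G} {A : ℕ → ZMod n}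
    (hQ : (σ = -1 ∧ Q = q ∧ A = a) ∨ (σ = 1 ∧ Q = q' ∧ A = a')) (k ℓ : ℕ) (hℓ : 1 ≤ ℓ)
    (hkl : k + ℓ ≤ m) (hrun : ∀ j, k < j → j < k + ℓ → A j = A (j - 1) + 1) :
    2 * (ℓ : ℤ) ≤ 2 * Fintype.card ι - 2 -
      σ * (S.etaP Q A (k + ℓ) - S.etaM Q A k) := by
  obtain ⟨hs, hσ, hon⟩ := bs_side B hQ
  have hn := S.hn
  have hd := S.hd
  obtain ⟨f, hf⟩ : ∃ f, f = S.fc (Q k) (A k) := ⟨_, rfl⟩
  have hA : ∀ j, j < ℓ → A (k + j) = A k + j := by
    intro j
    induction j with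
    | zero => intro _; simp
    | succ j ih =>
      intro hj
      have h1 := hrun (k + j + 1) (by omega) (by omega)
      simp only [Nat.add_sub_cancel] at h1
      rw [← add_assoc, h1, ih (by omega)]
      push_cast
      ring
  have hP : ∀ j, j ≤ ℓ → Q (k + j) = f * S.p (A k + j) := by
    intro j
    induction j with
    | zero =>
      intro _
      rw [hf]
      simp [Std.fc]
    | succ j ih =>
      intro hj
      rw [← add_assoc, hs.step (k + j) (by omega), ih (by omega), hA j (by omega), bs_nb_face]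
      congr 2
      push_cast
      ring
  have hP0 : Q k = f * S.p (A k) := by
    have := hP 0 (by omega)
    simpa using this
  have hL : ∀ j, j ≤ ℓ → (lev x (f * S.p (A k + j)) : ℤ) = lev x (Q k) + σ * j := by
    intro j hj
    rw [← hP j hj]
    have h1 := hs.lev_step (k + j) (by omega)
    have h2 := hs.lev_step k (by omega)
    rw [h1, h2]
    push_cast
    ring
  have hn0 : ((n : ℕ) : ZMod n) = 0 := ZMod.natCast_self n
  have hln : ℓ < n := by
    by_contra hcon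
    push Not at hcon
    have h1 := hL n hcon
    rw [hn0, add_zero, ← hP0] at h1
    rcases hσ with rfl | rfl <;> omega
  have hback : 2 * ℓ ≤ n := by
    have h1 := bs_lev_path S f (A k + ℓ) (n - ℓ)
    have e : A k + (ℓ : ZMod n) + ((n - ℓ : ℕ) : ZMod n) = A k := by
      rw [Nat.cast_sub hln.le, hn0]; ring
    rw [e, ← hP0, hL ℓ le_rfl, abs_le] at h1
    rcases hσ with rfl | rfl <;> omega
  have hM : S.etaM Q A k = (lev x (f * S.p (A k - 1)) : ℤ) - lev x (Q k) := by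
    unfold Std.etaM
    have h1 := bs_nb_face_rv S f (A k - 1)
    rw [sub_add_cancel, ← hP0] at h1
    rw [h1]
  have hPl : S.etaP Q A (k + ℓ) = (lev x (f * S.p (A k + ℓ + 1)) : ℤ) - lev x (Q (k + ℓ)) := by
    unfold Std.etaP
    have e1 : A (k + ℓ - 1) + 1 = A k + ℓ := by
      have h1 := hA (ℓ - 1) (by omega)
      have e2 : k + (ℓ - 1) = k + ℓ - 1 := by omega
      rw [e2] at h1
      rw [h1, Nat.cast_sub hℓ]
      push_cast
      ring
    rw [e1, hP ℓ le_rfl, bs_nb_face]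
  have hQl : (lev x (Q (k + ℓ)) : ℤ) = lev x (Q k) + σ * ℓ := by
    rw [hP ℓ le_rfl]; exact hL ℓ le_rfl
  have hpath := bs_lev_path S f (A k + ℓ + 1) (n - ℓ - 2)
  have e : A k + (ℓ : ZMod n) + 1 + ((n - ℓ - 2 : ℕ) : ZMod n) = A k - 1 := by
    rw [Nat.cast_sub (by omega), Nat.cast_sub hln.le, hn0]
    push_cast
    ring
  rw [e, abs_le] at hpath
  rw [hM, hPl, hQl]
  rcases hσ with rfl | rfl <;> omega

/-- The left faces along a side. -/
theorem bs_mem_left (B : Bigon S m q a q' a' X) {σ : ℤ} {Q : ℕ → G} {A : ℕ → ZMod n}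
    (hQ : (σ = -1 ∧ Q = q ∧ A = a) ∨ (σ = 1 ∧ Q = q' ∧ A = a')) (k : ℕ) (hk : k < m) :
    S.fc (Q k) (A k) ∈ X ∧ S.fc (Q k) (S.tau (A k)) ∉ X ∧ S.fc (Q (k + 1)) (A k + 1) ∈ X := by
  obtain ⟨hs, hσ, hon⟩ := bs_side B hQ
  have h1 := B.onD _ _ (hon k hk)
  refine ⟨h1.1, h1.2, ?_⟩
  rw [hs.step k hk, fc_succ]
  exact h1.1

theorem bs_corn_pos (B : Bigon S m q a q' a' X) {σ : ℤ} {Q : ℕ → G} {A : ℕ → ZMod n}
    (hQ : (σ = -1 ∧ Q = q ∧ A = a) ∨ (σ = 1 ∧ Q = q' ∧ A = a')) (k : ℕ) (hk : k < m) :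
    1 ≤ S.corn X (Q k) := by
  have : NeZero n := ⟨by have := S.hn; have := S.hd; omega⟩
  have h1 := (bs_mem_left S B hQ k hk).1
  unfold Std.corn
  rw [Nat.one_le_iff_ne_zero, Ne, Set.ncard_eq_zero]
  exact Set.Nonempty.ne_empty ⟨A k, h1⟩

/-- A vertex of a side at which the face changes. -/
theorem side_split (B : Bigon S m q a q' a' X) {σ : ℤ} {Q : ℕ → G} {A : ℕ → ZMod n}
    (hQ : (σ = -1 ∧ Q = q ∧ A = a) ∨ (σ = 1 ∧ Q = q' ∧ A = a')) (k : ℕ) (hk0 : 0 < k)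
    (hk : k < m) (hs : A k ≠ A (k - 1) + 1) :
    2 ≤ S.corn X (Q k) ∧ - σ * (S.etaP Q A k - S.etaM Q A k) ≤ 2 * ((S.corn X (Q k) : ℤ) - 2) := by
  have : NeZero n := ⟨by have := S.hn; have := S.hd; omega⟩
  obtain ⟨hsd, hσ, hon⟩ := bs_side B hQ
  obtain ⟨i0, hi0⟩ : ∃ i0, i0 = A (k - 1) + 1 := ⟨_, rfl⟩
  rw [← hi0] at hs
  have hk1 : k - 1 + 1 = k := by omega
  have hc1 : S.fc (Q k) (A k) ∈ X := (bs_mem_left S B hQ k hk).1
  have hc2 : S.fc (Q k) i0 ∈ X := by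
    have := (bs_mem_left S B hQ (k - 1) (by omega)).2.2
    rwa [hk1, ← hi0] at this
  have hsub : ({i0, A k} : Set (ZMod n)) ⊆ {i : ZMod n | S.fc (Q k) i ∈ X} := by
    intro i hi
    rcases hi with rfl | hi
    · exact hc2
    · rw [Set.mem_singleton_iff] at hi
      rw [hi]; exact hc1
  have hpair : ({i0, A k} : Set (ZMod n)).ncard = 2 := Set.ncard_pair (Ne.symm hs)
  have hcorn2 : 2 ≤ S.corn X (Q k) := by
    unfold Std.corn
    rw [← hpair]
    exact Set.ncard_le_ncard hsub (Set.toFinite _)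
  refine ⟨hcorn2, ?_⟩
  have habs := abs_eta S Q A k
  rw [abs_le, abs_le] at habs
  by_cases h3 : 3 ≤ S.corn X (Q k)
  · rcases hσ with rfl | rfl <;> omega
  · have hcorn : S.corn X (Q k) = 2 := by omega
    have heq : ({i0, A k} : Set (ZMod n)) = {i : ZMod n | S.fc (Q k) i ∈ X} := by
      refine Set.eq_of_subset_of_ncard_le hsub ?_ (Set.toFinite _)
      rw [hpair]
      exact hcorn.le
    -- the germ `i0` at `Q k` is not on the bigon
    have hoff1 : ¬ OnD m q a q' a' (Q k) i0 := by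
      rintro (⟨j, hj, h1, h2⟩ | ⟨j, hj, h1, h2⟩)
      · rcases hQ with ⟨e1, e2, e3⟩ | ⟨e1, e2, e3⟩
        · subst e1 e2 e3
          have := bs_inj hsd hσ hk.le hj.le h1
          subst this
          exact hs h2.symm
        · subst e1 e2 e3
          exact B.disj j hj.le k hk0 hk h1.symm
      · rcases hQ with ⟨e1, e2, e3⟩ | ⟨e1, e2, e3⟩
        · subst e1 e2 e3
          rcases Nat.eq_zero_or_pos j with rfl | hj0
          · rw [B.bot] at h1
            have := bs_inj hsd hσ hk.le le_rfl h1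
            omega
          · exact B.disj k hk.le j hj0 hj h1
        · subst e1 e2 e3
          have := bs_inj hsd hσ hk.le hj.le h1
          subst this
          exact hs h2.symm
    have hprev : ∀ j < m, S.nb (Q k) i0 = Q j → S.rv i0 = A j → False := by
      intro j hj h1 h2
      have h3 : Q (j + 1) = Q k := by
        rw [hsd.step j hj, ← h1, ← h2, nb_rv]
      have h4 := bs_inj hsd hσ (by omega) hk.le h3
      have h5 : i0 = S.rv (A j) := by rw [← h2, rv_rv]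
      have h6 := (bs_mem_left S B hQ j hj).2.1
      rw [← fc_rv, ← hsd.step j hj, h3, ← h5] at h6
      exact h6 hc2
    have hoff2 : ¬ OnD m q a q' a' (S.nb (Q k) i0) (S.rv i0) := by
      rintro (⟨j, hj, h1, h2⟩ | ⟨j, hj, h1, h2⟩)
      · rcases hQ with ⟨e1, e2, e3⟩ | ⟨e1, e2, e3⟩
        · subst e1 e2 e3
          exact hprev j hj h1 h2
        · subst e1 e2 e3
          have h3 : q (j + 1) = Q k := by
            rw [B.side.step j hj, ← h1, ← h2, nb_rv]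
          exact B.disj (j + 1) (by omega) k hk0 hk h3
      · rcases hQ with ⟨e1, e2, e3⟩ | ⟨e1, e2, e3⟩
        · subst e1 e2 e3
          have h3 : q' (j + 1) = Q k := by
            rw [B.side'.step j hj, ← h1, ← h2, nb_rv]
          by_cases hjm : j + 1 < m
          · exact B.disj k hk.le (j + 1) (by omega) hjm h3.symm
          · have e : j + 1 = m := by omega
            rw [e, B.top] at h3
            have := bs_inj hsd hσ (Nat.zero_le _) hk.le h3
            omega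
        · subst e1 e2 e3
          exact hprev j hj h1 h2
    have h4 := (B.off _ _ hoff1 hoff2).1 hc2
    have h5 : S.tau i0 ∈ ({i0, A k} : Set (ZMod n)) := by
      rw [heq]; exact h4
    have h6 : S.tau i0 = A k := by
      rcases h5 with h5 | h5
      · exact absurd h5 (tau_ne S i0)
      · exact h5
    have h7 : S.rv (A k - 1) = i0 := by
      rw [← h6]
      unfold Std.tau
      rw [add_sub_cancel_right, rv_rv]
    have h8 : S.etaP Q A k = S.etaM Q A k := by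
      unfold Std.etaP Std.etaM
      rw [h7, hi0]
    rw [h8, hcorn]
    simp

/-- The part of a side between two vertices at which the face changes. -/
theorem side_between (B : Bigon S m q a q' a' X) {σ : ℤ} {Q : ℕ → G} {A : ℕ → ZMod n}
    (hQ : (σ = -1 ∧ Q = q ∧ A = a) ∨ (σ = 1 ∧ Q = q' ∧ A = a')) (k₁ k₂ : ℕ) (hk : k₁ ≤ k₂)
    (hk₂ : k₂ < m) (hk₁ : k₁ = 0 ∨ A k₁ ≠ A (k₁ - 1) + 1) (hk₂' : k₂ = 0 ∨ A k₂ ≠ A (k₂ - 1) + 1) :
    2 * ((k₂ : ℤ) - k₁) ≤ (2 * Fintype.card ι - 2) *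
        ∑ j ∈ Ioc k₁ k₂, ((S.corn X (Q j) : ℤ) - 1) - σ * (S.etaM Q A k₂ - S.etaM Q A k₁) := by
  have hd : (3 : ℤ) ≤ Fintype.card ι := by exact_mod_cast S.hd
  -- induction on the length
  obtain ⟨L, hL⟩ : ∃ L, L = k₂ - k₁ := ⟨_, rfl⟩
  induction L using Nat.strong_induction_on generalizing k₁ with
  | _ L ih =>
    rcases hk.eq_or_lt with rfl | hlt
    · simp
    · have hsp2 : A k₂ ≠ A (k₂ - 1) + 1 := by
        rcases hk₂' with h | h
        · omega
        · exact h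
      -- the next split
      classical
      have hex : ∃ j, k₁ < j ∧ A j ≠ A (j - 1) + 1 := ⟨k₂, hlt, hsp2⟩
      obtain ⟨k₃, hk₃⟩ : ∃ k₃, k₃ = Nat.find hex := ⟨_, rfl⟩
      have h1 : k₁ < k₃ ∧ A k₃ ≠ A (k₃ - 1) + 1 := by rw [hk₃]; exact Nat.find_spec hex
      have h2 : k₃ ≤ k₂ := by rw [hk₃]; exact Nat.find_min' hex ⟨hlt, hsp2⟩
      have h3 : ∀ j, k₁ < j → j < k₃ → A j = A (j - 1) + 1 := by
        intro j hj1 hj2
        rw [hk₃] at hj2
        have := Nat.find_min hex hj2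
        by_contra hcon
        exact this ⟨hj1, hcon⟩
      have hrun := side_run S B hQ k₁ (k₃ - k₁) (by omega) (by omega)
        (fun j hj1 hj2 => h3 j hj1 (by omega))
      have e : k₁ + (k₃ - k₁) = k₃ := by omega
      rw [e] at hrun
      have hspl := side_split S B hQ k₃ (by omega) (by omega) h1.2
      have hih := ih (k₂ - k₃) (by omega) k₃ h2 (Or.inr h1.2) rfl
      have hsum : ∑ j ∈ Ioc k₁ k₂, ((S.corn X (Q j) : ℤ) - 1) =
          ∑ j ∈ Ioc k₁ k₃, ((S.corn X (Q j) : ℤ) - 1) +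
            ∑ j ∈ Ioc k₃ k₂, ((S.corn X (Q j) : ℤ) - 1) :=
        (Finset.sum_Ioc_consecutive _ h1.1.le h2).symm
      have hge : ((S.corn X (Q k₃) : ℤ) - 1) ≤ ∑ j ∈ Ioc k₁ k₃, ((S.corn X (Q j) : ℤ) - 1) := by
        refine Finset.single_le_sum (f := fun j => ((S.corn X (Q j) : ℤ) - 1)) ?_
          (Finset.mem_Ioc.2 ⟨h1.1, le_rfl⟩)
        intro j hj
        have hj' := Finset.mem_Ioc.1 hj
        have := bs_corn_pos S B hQ j (by omega)
        omega
      have hcast : ((k₃ - k₁ : ℕ) : ℤ) = (k₃ : ℤ) - k₁ := by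
        rw [Nat.cast_sub h1.1.le]
      rw [hcast] at hrun
      obtain ⟨hs1, hs2⟩ := hspl
      have hs1' : (2 : ℤ) ≤ S.corn X (Q k₃) := by exact_mod_cast hs1
      rw [hsum]
      nlinarith [mul_nonneg (by linarith : (0 : ℤ) ≤ 2 * (Fintype.card ι : ℤ) - 4)
        (by linarith : (0 : ℤ) ≤ (S.corn X (Q k₃) : ℤ) - 2),
        mul_le_mul_of_nonneg_left hge (by linarith : (0 : ℤ) ≤ 2 * (Fintype.card ι : ℤ) - 2)]

/-- The end part of a side, from a vertex at which the face changes. -/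
theorem side_end (B : Bigon S m q a q' a' X) {σ : ℤ} {Q : ℕ → G} {A : ℕ → ZMod n}
    (hQ : (σ = -1 ∧ Q = q ∧ A = a) ∨ (σ = 1 ∧ Q = q' ∧ A = a')) (k₁ : ℕ)
    (hk : k₁ < m) (hk₁ : k₁ = 0 ∨ A k₁ ≠ A (k₁ - 1) + 1) :
    2 * ((m : ℤ) - k₁) ≤ (2 * Fintype.card ι - 2) *
        (1 + ∑ j ∈ Ioo k₁ m, ((S.corn X (Q j) : ℤ) - 1)) -
      σ * (S.etaP Q A m - S.etaM Q A k₁) := by
  have hd : (3 : ℤ) ≤ Fintype.card ι := by exact_mod_cast S.hd
  classical
  -- the last split before `m`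
  have hex : ∃ k₂, k₁ ≤ k₂ ∧ k₂ < m ∧ (k₂ = 0 ∨ A k₂ ≠ A (k₂ - 1) + 1) ∧
      ∀ j, k₂ < j → j < m → A j = A (j - 1) + 1 := by
    obtain ⟨L, hL⟩ : ∃ L, L = m - k₁ := ⟨_, rfl⟩
    clear hd
    induction L using Nat.strong_induction_on generalizing k₁ with
    | _ L ih =>
      by_cases h : ∃ j, k₁ < j ∧ j < m ∧ A j ≠ A (j - 1) + 1
      · obtain ⟨j, hj1, hj2, hj3⟩ := h
        obtain ⟨k₂, h1, h2, h3, h4⟩ := ih (m - j) (by omega) j hj2 (Or.inr hj3) rfl
        exact ⟨k₂, by omega, h2, h3, h4⟩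
      · push Not at h
        exact ⟨k₁, le_rfl, hk, hk₁, fun j hj1 hj2 => h j hj1 hj2⟩
  obtain ⟨k₂, h1, h2, h3, h4⟩ := hex
  have hrun := side_run S B hQ k₂ (m - k₂) (by omega) (by omega)
    (fun j hj1 hj2 => h4 j hj1 (by omega))
  have e : k₂ + (m - k₂) = m := by omega
  rw [e, Nat.cast_sub h2.le] at hrun
  have hbet := side_between S B hQ k₁ k₂ h1 h2 hk₁ h3
  have hle : ∑ j ∈ Ioc k₁ k₂, ((S.corn X (Q j) : ℤ) - 1) ≤
      ∑ j ∈ Ioo k₁ m, ((S.corn X (Q j) : ℤ) - 1) := by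
    refine Finset.sum_le_sum_of_subset_of_nonneg ?_ ?_
    · intro j hj
      have := Finset.mem_Ioc.1 hj
      exact Finset.mem_Ioo.2 ⟨this.1, by omega⟩
    · intro j hj _
      have hj' := Finset.mem_Ioo.1 hj
      have := bs_corn_pos S B hQ j hj'.2
      omega
  have := mul_le_mul_of_nonneg_left hle (by linarith : (0 : ℤ) ≤ 2 * (Fintype.card ι : ℤ) - 2)
  linarith

end BigonSide

end Main

end Pool.Agent.SurfExact
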