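import Pool.Agent.SurfExact.BigonE1
import Pool.Agent.SurfExact.BigonSide
import Pool.Agent.SurfExact.StdBasic

/-!
# MP_5bf54f_al, A13c: the main result on geodesic bigons in families of standard type
-/

set_option autoImplicit false
set_option linter.unusedSectionVars false

namespace Pool.Agent.SurfExact

open Function Pool.Agent.SurfGrowth Finset

section Main

variable {G : Type*} [Group G] {ι : Type*} [Fintype ι] [DecidableEq ι]

variable {x : ι → G} {n : ℕ} (S : Std x n)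

variable {m : ℕ} {q : ℕ → G} {a : ℕ → ZMod n} {q' : ℕ → G} {a' : ℕ → ZMod n} {X : Finset G}

/-- levels make sides injective -/
theorem bm_side_inj {σ : ℤ} (hσ : σ ≠ 0) {Q : ℕ → G} {A : ℕ → ZMod n} (h : Side S σ m Q A)
    {i j : ℕ} (hi : i ≤ m) (hj : j ≤ m) (hij : Q i = Q j) : i = j := by
  have h1 := h.lev_step i hi
  have h2 := h.lev_step j hj
  rw [hij, h2] at h1
  have h3 : σ * (j : ℤ) = σ * (i : ℤ) := by linarith
  have h4 := mul_left_cancel₀ hσ h3
  exact_mod_cast h4.symm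

/-- a corner in `X` gives a positive number of corners -/
theorem bm_corn_pos (w : G) (i : ZMod n) (h : S.fc w i ∈ X) : 0 < S.corn X w := by
  have : NeZero n := ⟨by have := S.hn; have := S.hd; omega⟩
  exact (Set.ncard_pos (Set.toFinite _)).2 ⟨i, h⟩

theorem bm_corn_one {w : G} {i j : ZMod n} (h1 : S.corn X w ≤ 1) (hi : S.fc w i ∈ X)
    (hj : S.fc w j ∈ X) : i = j := by
  have : NeZero n := ⟨by have := S.hn; have := S.hd; omega⟩
  exact (Set.ncard_le_one (Set.toFinite _)).1 h1 i hi j hj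

/-- the finite set of vertices with a corner in `X` -/
theorem bm_exists_W (X : Finset G) : ∃ W : Finset G, ∀ w, w ∈ W ↔ 0 < S.corn X w := by
  classical
  have hn : NeZero n := ⟨by have := S.hn; have := S.hd; omega⟩
  refine ⟨(X ×ˢ (univ : Finset (ZMod n))).image (fun fi => fi.1 * S.p fi.2), fun w => ?_⟩
  rw [mem_image]
  constructor
  · rintro ⟨⟨f, i⟩, hf, rfl⟩
    refine bm_corn_pos S _ i ?_
    show f * S.p i * (S.p i)⁻¹ ∈ X
    rw [mul_inv_cancel_right]
    exact (mem_product.1 hf).1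
  · intro h
    obtain ⟨i, hi⟩ := (Set.ncard_pos (Set.toFinite _)).1 h
    refine ⟨(S.fc w i, i), mem_product.2 ⟨hi, mem_univ _⟩, ?_⟩
    show w * (S.p i)⁻¹ * S.p i = w
    rw [inv_mul_cancel_right]

/-- the corner at the end of an arriving step of a side -/
theorem bm_fc_arrive (B : Bigon S m q a q' a' X) :
    (∀ k < m, S.fc (q (k + 1)) (a k + 1) ∈ X) ∧ (∀ k < m, S.fc (q' (k + 1)) (a' k + 1) ∈ X) := by
  constructor
  · intro k hk
    rw [B.side.step k hk, fc_succ]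
    exact (B.onD _ _ (Or.inl ⟨k, hk, rfl, rfl⟩)).1
  · intro k hk
    rw [B.side'.step k hk, fc_succ]
    exact (B.onD _ _ (Or.inr ⟨k, hk, rfl, rfl⟩)).1

theorem bm_corn_q (B : Bigon S m q a q' a' X) (k : ℕ) (hk : k ≤ m) : 0 < S.corn X (q k) := by
  have hm := B.hm
  rcases lt_or_eq_of_le hk with h | h
  · exact bm_corn_pos S _ _ (B.onD _ _ (Or.inl ⟨k, h, rfl, rfl⟩)).1
  · rw [h, ← B.bot]
    exact bm_corn_pos S _ _ (B.onD _ _ (Or.inr ⟨0, hm, rfl, rfl⟩)).1

theorem bm_corn_q' (B : Bigon S m q a q' a' X) (k : ℕ) (hk : k < m) : 0 < S.corn X (q' k) :=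
  bm_corn_pos S _ _ (B.onD _ _ (Or.inr ⟨k, hk, rfl, rfl⟩)).1

/-- all other vertices with a corner in `X` have all their corners in `X` -/
theorem bm_inner (B : Bigon S m q a q' a' X) (w : G) (h1 : ∀ k ≤ m, w ≠ q k)
    (h2 : ∀ k < m, 0 < k → w ≠ q' k) (hw : 0 < S.corn X w) : S.corn X w = n := by
  have hn : NeZero n := ⟨by have := S.hn; have := S.hd; omega⟩
  have hm := B.hm
  have h3 : ∀ k ≤ m, w ≠ q' k := by
    intro k hk
    rcases Nat.eq_zero_or_pos k with h | h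
    · rw [h, B.bot]
      exact h1 m le_rfl
    · rcases lt_or_eq_of_le hk with h' | h'
      · exact h2 k h' h
      · rw [h', B.top]
        exact h1 0 (Nat.zero_le _)
  have hoff : ∀ i, (S.fc w i ∈ X ↔ S.fc w (S.tau i) ∈ X) := by
    intro i
    apply B.off
    · rintro (⟨k, hk, hwk, -⟩ | ⟨k, hk, hwk, -⟩)
      · exact h1 k hk.le hwk
      · exact h3 k hk.le hwk
    · rintro (⟨k, hk, hwk, hik⟩ | ⟨k, hk, hwk, hik⟩)
      · apply h1 (k + 1) hk
        rw [B.side.step k hk, ← hwk, ← hik, nb_rv]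
      · apply h3 (k + 1) hk
        rw [B.side'.step k hk, ← hwk, ← hik, nb_rv]
  obtain ⟨i, hi⟩ := (Set.ncard_pos (Set.toFinite _)).1 hw
  have hit : ∀ k : ℕ, S.fc w ((S.tau)^[k] i) ∈ X := by
    intro k
    induction k with
    | zero => exact hi
    | succ k ih =>
      rw [Function.iterate_succ_apply']
      exact (hoff _).1 ih
  have hall : {j : ZMod n | S.fc w j ∈ X} = Set.univ := by
    ext j
    simp only [Set.mem_ofPred_eq, Set.mem_univ, iff_true]
    obtain ⟨k, hk⟩ := tau_trans S i j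
    rw [← hk]
    exact hit k
  show Set.ncard {j : ZMod n | S.fc w j ∈ X} = n
  rw [hall, Set.ncard_univ, Nat.card_eq_fintype_card, ZMod.card]

/-- The global count. -/
theorem bm_count (B : Bigon S m q a q' a' X) : ∃ I : ℤ, 0 ≤ I ∧
    (Fintype.card ι - 1 : ℤ) * X.card + m + 1 ≤ 2 * m + I ∧
    2 * (Fintype.card ι : ℤ) * X.card = 2 * (Fintype.card ι : ℤ) * I + 2 * m +
      ∑ j ∈ Ioo 0 m, ((S.corn X (q j) : ℤ) - 1) + ∑ j ∈ Ioo 0 m, ((S.corn X (q' j) : ℤ) - 1) +
      ((S.corn X (q 0) : ℤ) - 1) + ((S.corn X (q m) : ℤ) - 1) := by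
  classical
  have hm := B.hm
  obtain ⟨W, hW⟩ := bm_exists_W S X
  have hE1 := bigon_E1 S B W hW
  have hsum := sum_corn S X W hW
  set A1 : Finset G := (range (m + 1)).image q with hA1
  set A2 : Finset G := (Ioo 0 m).image q' with hA2
  have hinj1 : Set.InjOn q (range (m + 1) : Finset ℕ) := by
    intro i hi j hj hij
    rw [mem_coe, mem_range] at hi hj
    exact bm_side_inj S (by norm_num) B.side (by omega) (by omega) hij
  have hinj2 : Set.InjOn q' (Ioo 0 m : Finset ℕ) := by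
    intro i hi j hj hij
    rw [mem_coe, mem_Ioo] at hi hj
    exact bm_side_inj S (by norm_num) B.side' (by omega) (by omega) hij
  have hdisj : Disjoint A1 A2 := by
    rw [Finset.disjoint_left]
    intro w h1 h2
    obtain ⟨i, hi, hwi⟩ := mem_image.1 h1
    obtain ⟨j, hj, hwj⟩ := mem_image.1 h2
    rw [mem_range] at hi
    rw [mem_Ioo] at hj
    exact B.disj i (by omega) j hj.1 hj.2 (hwi.trans hwj.symm)
  have hsub : A1 ∪ A2 ⊆ W := by
    intro w hw
    rw [hW]
    rcases mem_union.1 hw with h | h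
    · obtain ⟨i, hi, rfl⟩ := mem_image.1 h
      rw [mem_range] at hi
      exact bm_corn_q S B i (by omega)
    · obtain ⟨i, hi, rfl⟩ := mem_image.1 h
      rw [mem_Ioo] at hi
      exact bm_corn_q' S B i hi.2
  have hc1 : A1.card = m + 1 := by rw [hA1, card_image_of_injOn hinj1, card_range]
  have hc2 : A2.card = m - 1 := by
    rw [hA2, card_image_of_injOn hinj2, Nat.card_Ioo]
    omega
  have hcW : (W \ (A1 ∪ A2)).card + 2 * m = W.card := by
    have h1 := card_sdiff_add_card_eq_card hsub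
    rw [card_union_of_disjoint hdisj, hc1, hc2] at h1
    omega
  have hs1 : ∑ w ∈ A1, (S.corn X w : ℤ) = ∑ j ∈ range (m + 1), (S.corn X (q j) : ℤ) :=
    sum_image (fun i hi j hj hij => hinj1 hi hj hij)
  have hs2 : ∑ w ∈ A2, (S.corn X w : ℤ) = ∑ j ∈ Ioo 0 m, (S.corn X (q' j) : ℤ) :=
    sum_image (fun i hi j hj hij => hinj2 hi hj hij)
  have hs3 : ∑ w ∈ W \ (A1 ∪ A2), (S.corn X w : ℤ) = (n : ℤ) * (W \ (A1 ∪ A2)).card := by
    rw [sum_congr rfl (g := fun _ => (n : ℤ))]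
    · rw [sum_const, nsmul_eq_mul, mul_comm]
    · intro w hw
      rw [mem_sdiff, hW] at hw
      rw [bm_inner S B w ?_ ?_ hw.1]
      · intro k hk h
        exact hw.2 (mem_union_left _ (mem_image.2 ⟨k, mem_range.2 (by omega), h.symm⟩))
      · intro k hk hk0 h
        exact hw.2 (mem_union_right _ (mem_image.2 ⟨k, mem_Ioo.2 ⟨hk0, hk⟩, h.symm⟩))
  have hsplit : ∑ w ∈ W, (S.corn X w : ℤ) = ∑ w ∈ W \ (A1 ∪ A2), (S.corn X w : ℤ) +
      (∑ w ∈ A1, (S.corn X w : ℤ) + ∑ w ∈ A2, (S.corn X w : ℤ)) := by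
    rw [← sum_union hdisj, sum_sdiff hsub]
  have hr : ∑ j ∈ range (m + 1), (S.corn X (q j) : ℤ) =
      (S.corn X (q 0) : ℤ) + ∑ j ∈ Ioo 0 m, (S.corn X (q j) : ℤ) + (S.corn X (q m) : ℤ) := by
    rw [sum_range_succ]
    congr 1
    rw [range_eq_Ico, Finset.sum_eq_sum_Ico_succ_bot (by omega)]
    congr 1
  have hcI : ((Ioo 0 m).card : ℤ) = m - 1 := by
    rw [Nat.card_Ioo]
    omega
  have ht : ∀ F : ℕ → ℤ, ∑ j ∈ Ioo 0 m, (F j - 1) = ∑ j ∈ Ioo 0 m, F j - (m - 1) := by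
    intro F
    rw [sum_sub_distrib, sum_const, nsmul_eq_mul, hcI, mul_one]
  refine ⟨((W \ (A1 ∪ A2)).card : ℤ), Int.natCast_nonneg _, ?_, ?_⟩
  · have h1 : (W.card : ℤ) = 2 * m + ((W \ (A1 ∪ A2)).card : ℤ) := by
      rw [← hcW]
      push_cast
      ring
    rw [← h1]
    exact hE1
  · rw [ht, ht]
    have h2 : ∑ w ∈ W, (S.corn X w : ℤ) = (n : ℤ) * X.card := by exact_mod_cast hsum
    have h3 : (n : ℤ) = 2 * (Fintype.card ι : ℤ) := by
      have := S.hn
      exact_mod_cast this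
    rw [hsplit, hs1, hs2, hs3, hr, h3] at h2
    linarith

/-- Main result on bigons: the two sides meet in one corner at the top, and both sides run along
the face of this corner for at least `card ι - 1` steps from there. -/
theorem bigon_main (B : Bigon S m q a q' a' X) :
    Fintype.card ι - 1 ≤ m ∧ a 0 = a' (m - 1) + 1 ∧
    (∀ k < Fintype.card ι - 1, a k = a 0 + k) ∧
    (∀ k < Fintype.card ι - 1, a' (m - 1 - k) = a' (m - 1) - k) := by
  classical
  have hm := B.hm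
  have hd := S.hd
  obtain ⟨I, hI, hE, hC⟩ := bm_count S B
  have hQ1 : ((-1 : ℤ) = -1 ∧ q = q ∧ a = a) ∨ ((-1 : ℤ) = 1 ∧ q = q' ∧ a = a') :=
    Or.inl ⟨rfl, rfl, rfl⟩
  have hQ2 : ((1 : ℤ) = -1 ∧ q' = q ∧ a' = a) ∨ ((1 : ℤ) = 1 ∧ q' = q' ∧ a' = a') :=
    Or.inr ⟨rfl, rfl, rfl⟩
  have hs1 := side_end S B hQ1 0 (by omega) (Or.inl rfl)
  have hs2 := side_end S B hQ2 0 (by omega) (Or.inl rfl)
  have hPm := abs_le.1 (abs_eta S q a m).1
  have hM0 := abs_le.1 (abs_eta S q a 0).2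
  have hPm' := abs_le.1 (abs_eta S q' a' m).1
  have hM0' := abs_le.1 (abs_eta S q' a' 0).2
  have hcq : ∀ k ≤ m, (0 : ℤ) ≤ (S.corn X (q k) : ℤ) - 1 := by
    intro k hk
    have := bm_corn_q S B k hk
    omega
  have hcq' : ∀ k < m, (0 : ℤ) ≤ (S.corn X (q' k) : ℤ) - 1 := by
    intro k hk
    have := bm_corn_q' S B k hk
    omega
  have hT0 : 0 ≤ ∑ j ∈ Ioo 0 m, ((S.corn X (q j) : ℤ) - 1) :=
    sum_nonneg fun j hj => hcq j (mem_Ioo.1 hj).2.le
  have hT0' : 0 ≤ ∑ j ∈ Ioo 0 m, ((S.corn X (q' j) : ℤ) - 1) :=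
    sum_nonneg fun j hj => hcq' j (mem_Ioo.1 hj).2
  have he0 := hcq 0 (Nat.zero_le _)
  have hem := hcq m le_rfl
  set T : ℤ := ∑ j ∈ Ioo 0 m, ((S.corn X (q j) : ℤ) - 1) with hT
  set T' : ℤ := ∑ j ∈ Ioo 0 m, ((S.corn X (q' j) : ℤ) - 1) with hT'
  obtain ⟨e, hee⟩ : ∃ e : ℤ, e = ((S.corn X (q 0) : ℤ) - 1) + ((S.corn X (q m) : ℤ) - 1) := ⟨_, rfl⟩
  obtain ⟨d, hdd⟩ : ∃ d : ℤ, d = (Fintype.card ι : ℤ) := ⟨_, rfl⟩
  have hd3 : 3 ≤ d := by rw [hdd]; exact_mod_cast hd
  rw [← hdd] at hE hC hs1 hs2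
  have he : 0 ≤ e := by rw [hee]; linarith
  have hC' : 2 * d * (X.card : ℤ) = 2 * d * I + 2 * m + T + T' + e := by rw [hC, hee]; ring
  -- the key inequality
  have hs1' : (2 * (m : ℤ)) ≤ (2 * d - 2) * (1 + T) + 2 := by
    push_cast at hs1
    linarith [hPm.2, hM0.1]
  have hs2' : (2 * (m : ℤ)) ≤ (2 * d - 2) * (1 + T') + 2 := by
    push_cast at hs2
    linarith [hPm'.1, hM0'.2]
  have hkey : 4 * (d * (d - 2) * I) + 2 * ((d - 1) * e) +
      ((2 * d - 2) * (1 + T) + 2 - 2 * m) + ((2 * d - 2) * (1 + T') + 2 - 2 * m) ≤ 0 := by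
    have h1 : 2 * (2 * d * ((d - 1) * (X.card : ℤ) + m + 1)) ≤ 2 * (2 * d * (2 * m + I)) := by
      have h2 : 0 ≤ 2 * (2 * d) := by linarith
      nlinarith [mul_le_mul_of_nonneg_left hE h2]
    have h3 : 2 * (2 * d * ((d - 1) * (X.card : ℤ) + m + 1)) =
        2 * (d - 1) * (2 * d * (X.card : ℤ)) + 4 * d * (m + 1) := by ring
    rw [h3, hC'] at h1
    linarith
  have hI0 : 0 ≤ d * (d - 2) * I := mul_nonneg (mul_nonneg (by linarith) (by linarith)) hI
  have he1 : 0 ≤ (d - 1) * e := mul_nonneg (by linarith) he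
  have hm1 : 2 * (m : ℤ) = (2 * d - 2) * (1 + T) + 2 := by linarith
  have hm2 : 2 * (m : ℤ) = (2 * d - 2) * (1 + T') + 2 := by linarith
  have he2 : (d - 1) * e = 0 := by linarith
  have he3 : e = 0 := by
    rcases mul_eq_zero.1 he2 with h | h
    · exfalso; linarith
    · exact h
  have hq0 : S.corn X (q 0) = 1 := by
    rw [hee] at he3
    have : (S.corn X (q 0) : ℤ) = 1 := by linarith
    exact_mod_cast this
  have hM1' : S.etaM q' a' 0 = 1 := by
    push_cast at hs2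
    linarith [hPm'.1, hM0'.2]
  have hdm : d ≤ m := by
    have h1 : 0 ≤ (d - 1) * T := mul_nonneg (by linarith) hT0
    linarith
  have hdm' : Fintype.card ι ≤ m := by
    rw [hdd] at hdm
    exact_mod_cast hdm
  -- runs
  have hrun1 : ∀ k, k < Fintype.card ι - 1 → 0 < k → a k = a (k - 1) + 1 := by
    by_contra hcon
    push Not at hcon
    obtain ⟨k, hk1, hk0, hk2⟩ := hcon
    have hkm : k < m := by omega
    have h1 := side_end S B hQ1 k hkm (Or.inr hk2)
    have h2 := side_split S B hQ1 k hk0 hkm hk2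
    have h3 : T = ∑ j ∈ Ioc 0 k, ((S.corn X (q j) : ℤ) - 1) +
        ∑ j ∈ Ioo k m, ((S.corn X (q j) : ℤ) - 1) := by
      rw [hT, ← Finset.sum_union]
      · congr 1
        ext j
        simp only [mem_Ioo, mem_union, mem_Ioc]
        omega
      · rw [Finset.disjoint_left]
        intro j hj hj'
        rw [mem_Ioc] at hj
        rw [mem_Ioo] at hj'
        omega
    have h4 : (1 : ℤ) ≤ ∑ j ∈ Ioc 0 k, ((S.corn X (q j) : ℤ) - 1) := by
      have h5 : ((S.corn X (q k) : ℤ) - 1) ≤ ∑ j ∈ Ioc 0 k, ((S.corn X (q j) : ℤ) - 1) := by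
        apply single_le_sum (f := fun j => ((S.corn X (q j) : ℤ) - 1))
        · intro j hj
          exact hcq j (by have := (mem_Ioc.1 hj).2; omega)
        · exact mem_Ioc.2 ⟨hk0, le_rfl⟩
      have h6 : (2 : ℤ) ≤ (S.corn X (q k) : ℤ) := by exact_mod_cast h2.1
      linarith
    have h5 := abs_le.1 (abs_eta S q a k).2
    rw [← hdd] at h1
    generalize ∑ j ∈ Ioc 0 k, ((S.corn X (q j) : ℤ) - 1) = T1 at h3 h4
    generalize ∑ j ∈ Ioo k m, ((S.corn X (q j) : ℤ) - 1) = T2 at h1 h3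
    rw [h3] at hm1
    have h6 : (2 * d - 2) * 1 ≤ (2 * d - 2) * T1 := mul_le_mul_of_nonneg_left h4 (by linarith)
    have h7 : (k : ℤ) < d - 1 := by
      rw [hdd]
      omega
    linarith [hPm.2, h5.1]
  have hrun2 : ∀ k, k < m → m - 1 < k + (Fintype.card ι - 1) - 1 → 0 < k →
      a' k = a' (k - 1) + 1 := by
    by_contra hcon
    push Not at hcon
    obtain ⟨k, hkm, hk1, hk0, hk2⟩ := hcon
    have h1 := side_between S B hQ2 0 k (Nat.zero_le _) hkm (Or.inl rfl) (Or.inr hk2)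
    have h3 : T' = ∑ j ∈ Ioc 0 k, ((S.corn X (q' j) : ℤ) - 1) +
        ∑ j ∈ Ioo k m, ((S.corn X (q' j) : ℤ) - 1) := by
      rw [hT', ← Finset.sum_union]
      · congr 1
        ext j
        simp only [mem_Ioo, mem_union, mem_Ioc]
        omega
      · rw [Finset.disjoint_left]
        intro j hj hj'
        rw [mem_Ioc] at hj
        rw [mem_Ioo] at hj'
        omega
    have h4 : (0 : ℤ) ≤ ∑ j ∈ Ioo k m, ((S.corn X (q' j) : ℤ) - 1) :=
      sum_nonneg fun j hj => hcq' j (mem_Ioo.1 hj).2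
    have h5 := abs_le.1 (abs_eta S q' a' k).2
    rw [← hdd, hM1'] at h1
    generalize ∑ j ∈ Ioc 0 k, ((S.corn X (q' j) : ℤ) - 1) = T1 at h1 h3
    generalize ∑ j ∈ Ioo k m, ((S.corn X (q' j) : ℤ) - 1) = T2 at h4 h3
    rw [h3] at hm2
    have h6 : 0 ≤ (2 * d - 2) * T2 := mul_nonneg (by linarith) h4
    have h7 : (m : ℤ) - k < d - 1 := by
      rw [hdd]
      omega
    push_cast at h1
    linarith [h5.1]
  refine ⟨by omega, ?_, ?_, ?_⟩
  · apply bm_corn_one S (w := q 0) hq0.le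
    · exact (B.onD _ _ (Or.inl ⟨0, hm, rfl, rfl⟩)).1
    · have h1 := (bm_fc_arrive S B).2 (m - 1) (by omega)
      rw [Nat.sub_add_cancel hm, B.top] at h1
      exact h1
  · intro k
    induction k with
    | zero => intro _; simp
    | succ k ih =>
      intro hk
      rw [hrun1 (k + 1) hk (Nat.succ_pos _), Nat.add_sub_cancel, ih (by omega)]
      push_cast
      ring
  · intro k
    induction k with
    | zero => intro _; simp
    | succ k ih =>
      intro hk
      have h1 := hrun2 (m - 1 - k) (by omega) (by omega) (by omega)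
      rw [ih (by omega)] at h1
      have h2 : m - 1 - (k + 1) = m - 1 - k - 1 := by omega
      rw [h2]
      push_cast
      linear_combination -h1

end Main

end Pool.Agent.SurfExact
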