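import Pool.Agent.SurfExact.Lev
import Pool.Agent.SurfExact.StdBasic
import Pool.Agent.SurfExact.BigonEx
import Pool.Agent.SurfExact.BigonMain

/-!
# MP_5bf54f_al, package SX-A14: consequences of the result on bigons (helper1)
-/

set_option autoImplicit false
set_option linter.unusedSectionVars false

namespace Pool.Agent.SurfExact

open Function Pool.Agent.SurfGrowth Finset

variable {G : Type*} [Group G] {ι : Type*} [Fintype ι] [DecidableEq ι]

section Facts

variable {x : ι → G} {n : ℕ} (S : Std x n)

/-- Two down edges at a vertex are adjacent. -/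
theorem down_adjacent (v : G) (a b : ZMod n) (hab : a ≠ b)
    (ha : lev x (S.nb v a) + 1 = lev x v) (hb : lev x (S.nb v b) + 1 = lev x v) :
    b = S.tau a ∨ a = S.tau b := by
  obtain ⟨m, q, α, q', α', X, B, -, h⟩ := exists_bigon S v a b hab ha hb
  obtain ⟨-, h0, -, -⟩ := bigon_main S B
  rcases h with ⟨h1, h2⟩ | ⟨h1, h2⟩
  · right
    have h3 : α' (m - 1) = S.rv b := by rw [← h2, rv_rv]
    rw [← h1, h0, h3]
    rfl
  · left
    have h3 : α' (m - 1) = S.rv a := by rw [← h2, rv_rv]
    rw [← h1, h0, h3]
    rfl

/-- One step forward along the boundary of the face `f`. -/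
theorem h1_fwd (f : G) (i : ZMod n) : S.nb (f * S.p i) i = f * S.p (i + 1) := by
  rw [S.p_succ, Std.nb, mul_assoc]

/-- One step backward along the boundary of the face `f`. -/
theorem h1_bwd (f : G) (i : ZMod n) : S.nb (f * S.p (i + 1)) (S.rv i) = f * S.p i := by
  rw [← h1_fwd, nb_rv]

/-- Consecutive levels along a face. -/
theorem h1_level_step (f : G) (i : ZMod n) :
    lev x (f * S.p (i + 1)) = lev x (f * S.p i) + 1 ∨
      lev x (f * S.p (i + 1)) + 1 = lev x (f * S.p i) := by
  rw [← h1_fwd]
  exact lev_step x S.gen S.ε S.hε _ _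

include S in
theorem h1_n_ge : 6 ≤ n := by
  have h1 := S.hn
  have h2 := S.hd
  omega

/-- `tau (tau i) ≠ i`. -/
theorem h1_tau_tau_ne (i : ZMod n) : S.tau (S.tau i) ≠ i := by
  intro h
  have hit : ∀ k : ℕ, (S.tau)^[k] i = i ∨ (S.tau)^[k] i = S.tau i := by
    intro k
    induction k with
    | zero => left; rfl
    | succ k ih =>
      rw [Function.iterate_succ_apply']
      rcases ih with ih | ih
      · right; rw [ih]
      · left; rw [ih, h]
  have hall : ∀ j : ZMod n, j = i ∨ j = S.tau i := by
    intro j
    obtain ⟨k, hk⟩ := tau_trans S i j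
    rw [← hk]
    exact hit k
  have hn := h1_n_ge S
  have h1 : (1 : ZMod n) ≠ 0 := by
    have : ((1 : ℕ) : ZMod n) ≠ 0 := by
      rw [Ne, ZMod.natCast_eq_zero_iff]
      intro h3
      have := Nat.le_of_dvd (by norm_num) h3
      omega
    simpa using this
  have h2 : (2 : ZMod n) ≠ 0 := by
    have : ((2 : ℕ) : ZMod n) ≠ 0 := by
      rw [Ne, ZMod.natCast_eq_zero_iff]
      intro h3
      have := Nat.le_of_dvd (by norm_num) h3
      omega
    simpa using this
  have ha : i + 1 = S.tau i := by
    rcases hall (i + 1) with h3 | h3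
    · exact absurd (by simpa using h3) h1
    · exact h3
  have hb : i + 2 = S.tau i := by
    rcases hall (i + 2) with h3 | h3
    · exact absurd (by simpa using h3) h2
    · exact h3
  apply h1
  have h4 : i + 2 = i + 1 := by rw [ha, hb]
  have h5 : (2 : ZMod n) = 1 := add_left_cancel h4
  have h6 : (1 : ZMod n) + 1 = 1 + 0 := by
    rw [one_add_one_eq_two, add_zero, h5]
  exact add_left_cancel h6

/-- At a local maximum of the level along a face, the level goes down for `card ι - 1` steps in
both directions. -/
theorem h1_local_max (f : G) (i : ZMod n)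
    (h1 : lev x (f * S.p (i - 1)) + 1 = lev x (f * S.p i))
    (h2 : lev x (f * S.p (i + 1)) + 1 = lev x (f * S.p i)) :
    ∀ k : ℕ, k ≤ Fintype.card ι - 1 →
      lev x (f * S.p (i + k)) + k = lev x (f * S.p i) ∧
      lev x (f * S.p (i - k)) + k = lev x (f * S.p i) := by
  have hbwd : ∀ j : ZMod n, S.nb (f * S.p j) (S.rv (j - 1)) = f * S.p (j - 1) := by
    intro j
    have := h1_bwd S f (j - 1)
    rwa [sub_add_cancel] at this
  have hne : i ≠ S.rv (i - 1) := by
    intro h
    apply tau_ne S (i - 1)
    have : S.tau (i - 1) = S.rv (i - 1) + 1 := rfl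
    have h3 : S.rv i = i - 1 := by
      conv_lhs => rw [h]
      rw [rv_rv]
    have h4 : S.tau i = i := by
      change S.rv i + 1 = i
      rw [h3, sub_add_cancel]
    exact absurd h4 (tau_ne S i)
  obtain ⟨m, q, α, q', α', X, B, hq0, h⟩ := exists_bigon S (f * S.p i) i (S.rv (i - 1)) hne
    (by rw [h1_fwd]; exact h2) (by rw [hbwd]; exact h1)
  obtain ⟨hm, h0, hrun, hrun'⟩ := bigon_main S B
  have halt : α 0 = i ∧ α' (m - 1) = i - 1 := by
    rcases h with ⟨h3, h4⟩ | ⟨h3, h4⟩
    · refine ⟨h3, ?_⟩
      rw [← h3, h0]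
      ring
    · exfalso
      apply h1_tau_tau_ne S i
      have h5 : α' (m - 1) = S.rv i := by rw [← h4, rv_rv]
      have h6 : S.rv (i - 1) = S.tau i := by
        rw [← h3, h0, h5]
        rfl
      change S.rv (S.tau i) + 1 = i
      rw [← h6, rv_rv, sub_add_cancel]
  have hd := S.hd
  -- first side
  have hqk : ∀ k : ℕ, k ≤ Fintype.card ι - 1 → q k = f * S.p (i + k) := by
    intro k
    induction k with
    | zero => intro _; simp [hq0]
    | succ k ih =>
      intro hk
      rw [B.side.step k (by omega), ih (by omega), hrun k (by omega), halt.1, h1_fwd]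
      push_cast
      rw [add_assoc]
  have hq'k : ∀ k : ℕ, k ≤ Fintype.card ι - 1 → q' (m - k) = f * S.p (i - k) := by
    intro k
    induction k with
    | zero => intro _; simp [B.top, hq0]
    | succ k ih =>
      intro hk
      have h5 := B.side'.step (m - (k + 1)) (by omega)
      have h6 : m - (k + 1) + 1 = m - k := by omega
      have h7 : m - (k + 1) = m - 1 - k := by omega
      rw [h6, ih (by omega)] at h5
      have h8 : α' (m - (k + 1)) = i - 1 - k := by
        rw [h7, hrun' k (by omega), halt.2]
      have h9 : S.nb (f * S.p (i - k)) (S.rv (α' (m - (k + 1)))) = q' (m - (k + 1)) := by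
        rw [h5, nb_rv]
      rw [← h9, h8]
      have h10 : i - 1 - (k : ZMod n) = i - k - 1 := by ring
      rw [h10, hbwd]
      congr 2
      push_cast
      ring
  intro k hk
  constructor
  · have h5 := B.side.lev_step k (by omega)
    rw [hqk k hk, hq0] at h5
    have : (lev x (f * S.p (i + k)) : ℤ) + k = lev x (f * S.p i) := by rw [h5]; ring
    exact_mod_cast this
  · have h5 := B.side'.lev_step (m - k) (by omega)
    have h6 := B.side'.lev_step m le_rfl
    rw [hq'k k hk] at h5
    rw [B.top, hq0] at h6
    have h7 : ((m - k : ℕ) : ℤ) = (m : ℤ) - k := by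
      have : k ≤ m := by omega
      push_cast [Nat.cast_sub this]
      ring
    have : (lev x (f * S.p (i - k)) : ℤ) + k = lev x (f * S.p i) := by
      rw [h5, h6, h7]; ring
    exact_mod_cast this

/-- Every face is unimodal. -/
theorem face_unimodal (f : G) : ∃ i₀ : ZMod n, ∀ k ≤ Fintype.card ι,
    lev x (f * S.p (i₀ + k)) = lev x (f * S.p i₀) + k ∧
    lev x (f * S.p (i₀ - k)) = lev x (f * S.p i₀) + k := by
  have hn := h1_n_ge S
  have hd := S.hd
  have hnd := S.hn
  have : NeZero n := ⟨by omega⟩
  obtain ⟨i, -, hi⟩ := Finset.exists_max_image (Finset.univ : Finset (ZMod n))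
    (fun i => lev x (f * S.p i)) ⟨0, Finset.mem_univ _⟩
  have hlm : lev x (f * S.p (i - 1)) + 1 = lev x (f * S.p i) := by
    have h1 := h1_level_step S f (i - 1)
    rw [sub_add_cancel] at h1
    have h2 := hi (i - 1) (Finset.mem_univ _)
    rcases h1 with h1 | h1
    · exact h1.symm
    · exfalso; omega
  have hlp : lev x (f * S.p (i + 1)) + 1 = lev x (f * S.p i) := by
    have h1 := h1_level_step S f i
    have h2 := hi (i + 1) (Finset.mem_univ _)
    rcases h1 with h1 | h1
    · exfalso; omega
    · exact h1
  have hrun := h1_local_max S f i hlm hlp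
  set d := Fintype.card ι with hddef
  have h2d : ((d : ℕ) : ZMod n) + (d : ZMod n) = 0 := by
    have : ((d + d : ℕ) : ZMod n) = 0 := by
      rw [ZMod.natCast_eq_zero_iff]
      exact ⟨1, by omega⟩
    rw [← this]
    push_cast
    rfl
  -- the opposite corner
  have hjm : ∀ k : ℕ, k ≤ d → i + d - k = i + ((d - k : ℕ) : ZMod n) := by
    intro k hk
    push_cast [Nat.cast_sub hk]
    ring
  have hjp : ∀ k : ℕ, k ≤ d → i + d + k = i - ((d - k : ℕ) : ZMod n) := by
    intro k hk
    push_cast [Nat.cast_sub hk]
    have : i + (d : ZMod n) + k = i - (d - k) + (d + d) := by ring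
    rw [this, h2d, add_zero]
  have hjlev : ∀ k : ℕ, 1 ≤ k → k ≤ d →
      lev x (f * S.p (i + d + k)) + (d - k) = lev x (f * S.p i) ∧
      lev x (f * S.p (i + d - k)) + (d - k) = lev x (f * S.p i) := by
    intro k hk1 hk
    rw [hjp k hk, hjm k hk]
    have := hrun (d - k) (by omega)
    exact ⟨this.2, this.1⟩
  have hL1 := hjlev 1 le_rfl (by omega)
  have hL2 := hjlev 2 (by norm_num) (by omega)
  have hstep := h1_level_step S f (i + d)
  have hjd : lev x (f * S.p (i + d)) + d = lev x (f * S.p i) := by
    rcases hstep with hs | hs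
    · have := hL1.1
      push_cast at this
      omega
    · exfalso
      have h1 : lev x (f * S.p (i + d - 1)) + 1 = lev x (f * S.p (i + d)) := by
        have h3 := hL1.1
        have h4 := hL1.2
        push_cast at h3 h4
        omega
      have h5 := h1_local_max S f (i + d) h1 hs 2 (by omega)
      have h3 := hL1.1
      have h4 := hL2.1
      have h6 := h5.1
      push_cast at h3 h4 h6
      omega
  refine ⟨i + d, ?_⟩
  intro k hk
  rcases Nat.eq_zero_or_pos k with rfl | hk0
  · simp
  · have := hjlev k hk0 hk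
    omega

end Facts

end Pool.Agent.SurfExact
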