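import Pool.Agent.SurfExact.DefsA

/-!
# MP_5bf54f_al: the distance function of a Cayley graph (package A10)
-/

set_option autoImplicit false
set_option linter.unusedSectionVars false

namespace Pool.Agent.SurfExact

open Function Pool.Agent.SurfGrowth Finset

variable {G : Type*} [Group G] {ι : Type*} [Fintype ι] [DecidableEq ι]

section Lev

variable (x : ι → G) (hgen : Subgroup.closure (Set.range x) = ⊤)

/-- Balls are symmetric under multiplication from the right by balls. -/
theorem mul_mem_ball {m n : ℕ} {u v : G} (hu : u ∈ ball x m) (hv : v ∈ ball x n) :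
    u * v ∈ ball x (m + n) := by
  induction n generalizing v with
  | zero =>
    rw [ball_zero, mem_singleton] at hv
    rw [hv, mul_one]
    exact hu
  | succ n ih =>
    rw [mem_ball_succ] at hv
    rcases hv with h | ⟨w, hw, l, rfl⟩
    · exact ball_subset_succ x _ (ih h)
    · rw [← mul_assoc]
      exact mul_letter_mem x (ih hw) l

theorem inv_letter (l : ι × Bool) : (letter x l)⁻¹ = letter x (linv l) := by
  rcases l with ⟨t, b⟩
  cases b <;> simp [letter, linv]

theorem letter_mem_ball (l : ι × Bool) : letter x l ∈ ball x 1 := by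
  have := mul_letter_mem x (one_mem_ball x 0) l
  simpa using this

theorem inv_mem_ball {n : ℕ} {v : G} (hv : v ∈ ball x n) : v⁻¹ ∈ ball x n := by
  induction n generalizing v with
  | zero =>
    rw [ball_zero, mem_singleton] at hv ⊢
    rw [hv, inv_one]
  | succ n ih =>
    rw [mem_ball_succ] at hv
    rcases hv with h | ⟨w, hw, l, rfl⟩
    · exact ball_subset_succ x _ (ih h)
    · rw [mul_inv_rev, inv_letter, add_comm]
      exact mul_mem_ball x (letter_mem_ball x _) (ih hw)

include hgen in
theorem exists_mem_ball (w : G) : ∃ n, w ∈ ball x n := by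
  have hw : w ∈ Subgroup.closure (Set.range x) := by rw [hgen]; trivial
  induction hw using Subgroup.closure_induction with
  | mem z hz =>
    obtain ⟨t, rfl⟩ := hz
    exact ⟨1, by simpa [letter] using letter_mem_ball x (t, true)⟩
  | one => exact ⟨0, one_mem_ball x 0⟩
  | mul a b _ _ ha hb =>
    obtain ⟨m, hm⟩ := ha
    obtain ⟨n, hn⟩ := hb
    exact ⟨m + n, mul_mem_ball x hm hn⟩
  | inv a _ ha =>
    obtain ⟨m, hm⟩ := ha
    exact ⟨m, inv_mem_ball x hm⟩

include hgen in
theorem mem_ball_lev (w : G) : w ∈ ball x (lev x w) :=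
  Nat.sInf_mem (s := {n | w ∈ ball x n}) (exists_mem_ball x hgen w)

include hgen in
theorem mem_ball_iff_lev (w : G) (n : ℕ) : w ∈ ball x n ↔ lev x w ≤ n := by
  constructor
  · intro h
    exact Nat.sInf_le h
  · intro h
    exact ball_mono x h (mem_ball_lev x hgen w)

include hgen in
theorem lev_eq_zero (w : G) : lev x w = 0 ↔ w = 1 := by
  rw [← Nat.le_zero, ← mem_ball_iff_lev x hgen, ball_zero, mem_singleton]

include hgen in
theorem lev_mul_letter_le (w : G) (l : ι × Bool) : lev x (w * letter x l) ≤ lev x w + 1 := by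
  rw [← mem_ball_iff_lev x hgen]
  exact mul_letter_mem x (mem_ball_lev x hgen w) l

include hgen in
theorem par_lev {ε : G →* Multiplicative ℚ} (hε : ∀ t, Multiplicative.toAdd (ε (x t)) = 1)
    (w : G) : Par ε (lev x w) w := by
  rcases Nat.eq_zero_or_pos (lev x w) with h | h
  · rw [h, (lev_eq_zero x hgen w).1 h]
    exact ⟨0, by simp⟩
  · obtain ⟨n, hn⟩ : ∃ n, lev x w = n + 1 := ⟨lev x w - 1, by omega⟩
    rw [hn]
    apply par_of_level hε
    · rw [mem_ball_iff_lev x hgen, hn]
    · rw [mem_ball_iff_lev x hgen, hn]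
      omega

include hgen in
theorem lev_step (ε : G →* Multiplicative ℚ) (hε : ∀ t, Multiplicative.toAdd (ε (x t)) = 1)
    (w : G) (l : ι × Bool) :
    lev x (w * letter x l) = lev x w + 1 ∨ lev x (w * letter x l) + 1 = lev x w := by
  have h1 := lev_mul_letter_le x hgen w l
  have h2 := lev_mul_letter_le x hgen (w * letter x l) (linv l)
  rw [← inv_letter, mul_inv_cancel_right] at h2
  have h3 : lev x (w * letter x l) ≠ lev x w := by
    intro h
    have h4 := par_lev x hgen hε (w * letter x l)
    rw [h] at h4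
    exact par_disjoint h4 (par_letter hε (par_lev x hgen hε w) l)
  omega

include hgen in
theorem exists_down (w : G) (hw : w ≠ 1) : ∃ l, lev x (w * letter x l) + 1 = lev x w := by
  have h0 : lev x w ≠ 0 := fun h => hw ((lev_eq_zero x hgen w).1 h)
  obtain ⟨n, hn⟩ : ∃ n, lev x w = n + 1 := ⟨lev x w - 1, by omega⟩
  have h1 : w ∈ ball x (n + 1) := by rw [mem_ball_iff_lev x hgen, hn]
  have h2 : w ∉ ball x n := by rw [mem_ball_iff_lev x hgen, hn]; omega
  rw [mem_ball_succ] at h1
  rcases h1 with h | ⟨u, hu, l, hl⟩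
  · exact absurd h h2
  · refine ⟨linv l, ?_⟩
    have h3 : w * letter x (linv l) = u := by rw [hl, ← inv_letter, mul_inv_cancel_right]
    rw [h3, hn]
    rw [mem_ball_iff_lev x hgen] at hu
    have h4 := lev_mul_letter_le x hgen u l
    rw [← hl, hn] at h4
    omega

end Lev

end Pool.Agent.SurfExact
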