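import Pool.Agent.SurfExact.DefsA
import Pool.Agent.SurfExact.Euler
import Pool.Agent.SurfExact.Lev
import Pool.Agent.SurfExact.StdBasic
import Pool.Agent.SurfExact.Facts

/-!
# MP_5bf54f_al, part A15: counting in families of standard type

`b (N + d) + b N ≤ (2d - 2) V N + 2`, and `b m ≤ 0` for `m < d`.
-/

set_option autoImplicit false
set_option linter.unusedSectionVars false

namespace Pool.Agent.SurfExact

open Function Pool.Agent.SurfGrowth Finset

section Main

variable {G : Type*} [Group G] {ι : Type*} [Fintype ι] [DecidableEq ι]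

/-! ### auxiliary statements for `std_count` -/

section StdCount

variable {x : ι → G} {n : ℕ} (S : Std x n)

/-- The generating cycle. -/
noncomputable def scZeta : ι → QG G :=
  fun t => el (S.p (S.r.symm (t, true))) - el (S.p (S.r.symm (t, false) + 1))

include S in
theorem sc_neZero : NeZero n := ⟨by rw [S.hn]; have := S.hd; omega⟩

theorem sc_tau_true (t : ι) : S.tau (S.r.symm (t, true)) = S.r.symm (t, false) + 1 := by
  simp [Std.tau, Std.rv, linv]

theorem sc_coeff (c : QG G) (t : ι) (w : G) :
    ((c • scZeta S) t).coeff w = c.coeff (S.fc w (S.r.symm (t, true))) -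
      c.coeff (S.fc w (S.tau (S.r.symm (t, true)))) := by
  rw [sc_tau_true]
  simp only [scZeta, Pi.smul_apply, smul_eq_mul, mul_sub, Std.fc]
  rw [MonoidAlgebra.coeff_sub, Finsupp.sub_apply, mulel_coeff, mulel_coeff]

/-- A cycle vanishes at all germs of a vertex outside of the ball. -/
theorem sc_const {m : ℕ} (c : QG G) (hc : c • scZeta S ∈ suppIn (edgeFam x (ball x m))) (w : G)
    (hw : w ∉ ball x m) (i : ZMod n) : c.coeff (S.fc w i) = c.coeff (S.fc w (S.tau i)) := by
  classical
  rcases hi : S.r i with ⟨t, b⟩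
  cases b
  · -- the edge arrives at `w`
    have h1 : S.r.symm (t, true) = S.rv i := by
      simp [Std.rv, linv, hi]
    have h2 := sc_coeff S c t (S.nb w i)
    rw [h1] at h2
    have h3 : ((c • scZeta S) t).coeff (S.nb w i) = 0 := by
      by_contra hne
      have h4 := hc t (S.nb w i) hne
      unfold edgeFam at h4
      rw [mem_filter] at h4
      apply hw
      have h5 : S.nb w i * x t = w := by simp [Std.nb, letter, hi]
      rw [← h5]; exact h4.2
    have h6 : S.fc (S.nb w i) (S.tau (S.rv i)) = S.fc w i := by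
      rw [Std.tau, rv_rv, fc_succ]
    rw [h3, fc_rv, h6] at h2
    linarith
  · have h1 : S.r.symm (t, true) = i := by
      rw [← hi]; simp
    have h2 := sc_coeff S c t w
    rw [h1] at h2
    have h3 : ((c • scZeta S) t).coeff w = 0 := by
      by_contra hne
      have h4 := hc t w hne
      unfold edgeFam at h4
      rw [mem_filter] at h4
      exact hw h4.1
    rw [h3] at h2
    linarith

theorem sc_const_all {m : ℕ} (c : QG G) (hc : c • scZeta S ∈ suppIn (edgeFam x (ball x m))) (w : G)
    (hw : w ∉ ball x m) (i j : ZMod n) : c.coeff (S.fc w i) = c.coeff (S.fc w j) := by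
  obtain ⟨k, rfl⟩ := tau_trans S i j
  induction k with
  | zero => rfl
  | succ k ih => rw [ih, iterate_succ_apply', ← sc_const S c hc w hw]

/-- Not all germs at a vertex go down. -/
theorem sc_not_all_down (w : G) : ∃ i, lev x (S.nb w i) ≠ lev x w - 1 ∨ lev x w = 0 := by
  by_contra hcon
  push Not at hcon
  have := sc_neZero S
  have hdown : ∀ i, lev x (S.nb w i) + 1 = lev x w := by
    intro i
    have h1 := hcon i
    omega
  have h1 : ∀ b : ZMod n, b = 0 ∨ b = S.tau 0 ∨ S.tau b = 0 := by
    intro b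
    by_cases hb : (0 : ZMod n) = b
    · exact Or.inl hb.symm
    · rcases down_adjacent S w 0 b hb (hdown 0) (hdown b) with h | h
      · exact Or.inr (Or.inl h)
      · exact Or.inr (Or.inr h.symm)
  obtain ⟨a', ha'⟩ := (tau_bijective S).2 0
  have h2 : (univ : Finset (ZMod n)) ⊆ {0, S.tau 0, a'} := by
    intro b _
    simp only [mem_insert, mem_singleton]
    rcases h1 b with h | h | h
    · exact Or.inl h
    · exact Or.inr (Or.inl h)
    · exact Or.inr (Or.inr ((tau_bijective S).1 (h.trans ha'.symm)))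
  have h3 := card_le_card h2
  rw [card_univ, ZMod.card] at h3
  have h4 : ({0, S.tau 0, a'} : Finset (ZMod n)).card ≤ 3 := card_le_three
  have h5 := S.hn
  have h6 := S.hd
  omega

open Classical in
/-- The pairs (vertex, corner) that are the bottom of a face. -/
noncomputable def scP (N : ℕ) [NeZero n] : Finset (G × ZMod n) :=
  ((ball x N) ×ˢ (univ : Finset (ZMod n))).filter (fun q =>
    lev x (S.nb q.1 q.2) = lev x q.1 + 1 ∧ lev x (S.nb q.1 (S.rv (q.2 - 1))) = lev x q.1 + 1)

theorem sc_nb_rv_sub (f : G) (i : ZMod n) : S.nb (f * S.p i) (S.rv (i - 1)) = f * S.p (i - 1) := by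
  have h1 : S.nb (f * S.p (i - 1)) (i - 1) = f * S.p i := by
    have := S.p_succ (i - 1)
    rw [sub_add_cancel] at this
    rw [Std.nb, this, mul_assoc]
  rw [← h1, nb_rv]

theorem sc_nb (f : G) (i : ZMod n) : S.nb (f * S.p i) i = f * S.p (i + 1) := by
  rw [Std.nb, S.p_succ, mul_assoc]

theorem sc_fc (f : G) (i : ZMod n) : S.fc (f * S.p i) i = f := by
  rw [Std.fc, mul_inv_cancel_right]

theorem sc_fc_mul (w : G) (i : ZMod n) : S.fc w i * S.p i = w := by
  rw [Std.fc, inv_mul_cancel_right]

/-- Every face has its vertices in levels at most `bottom + card ι`. -/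
theorem sc_le_top (f : G) (i₀ : ZMod n) (h : ∀ k ≤ Fintype.card ι,
    lev x (f * S.p (i₀ + k)) = lev x (f * S.p i₀) + k ∧
    lev x (f * S.p (i₀ - k)) = lev x (f * S.p i₀) + k) (j : ZMod n) :
    lev x (f * S.p j) ≤ lev x (f * S.p i₀) + Fintype.card ι := by
  have := sc_neZero S
  have h1 : ((j - i₀).val : ZMod n) = j - i₀ := ZMod.natCast_zmod_val _
  have h2 : (j - i₀).val < n := ZMod.val_lt _
  have hn := S.hn
  by_cases hk : (j - i₀).val ≤ Fintype.card ι
  · have := (h _ hk).1
    rw [h1, add_sub_cancel] at this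
    omega
  · have h3 : n - (j - i₀).val ≤ Fintype.card ι := by omega
    have := (h _ h3).2
    rw [Nat.cast_sub h2.le, h1, ZMod.natCast_self, zero_sub, sub_neg_eq_add, add_sub_cancel] at this
    omega

/-- The faces in the support of a cycle in the ball of radius `m` have top level at most `m`. -/
theorem sc_top_le (m : ℕ) (c : QG G)
    (hc : c • scZeta S ∈ suppIn (edgeFam x (ball x m))) (i₀ : G → ZMod n)
    (hi₀ : ∀ f, ∀ k ≤ Fintype.card ι,
      lev x (f * S.p (i₀ f + k)) = lev x (f * S.p (i₀ f)) + k ∧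
      lev x (f * S.p (i₀ f - k)) = lev x (f * S.p (i₀ f)) + k) (f : G)
    (hf : c.coeff f ≠ 0) : lev x (f * S.p (i₀ f)) + Fintype.card ι ≤ m := by
  classical
  -- a face of the support with maximal bottom level
  obtain ⟨f₁, hf₁, hmax⟩ := Finset.exists_max_image c.coeff.support
    (fun f => lev x (f * S.p (i₀ f))) ⟨f, Finsupp.mem_support_iff.2 hf⟩
  have hbot : lev x (f₁ * S.p (i₀ f₁)) + Fintype.card ι ≤ m := by
    by_contra hcon
    push Not at hcon
    set w := f₁ * S.p (i₀ f₁ + (Fintype.card ι : ℕ)) with hw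
    have hlw : lev x w = lev x (f₁ * S.p (i₀ f₁)) + Fintype.card ι := (hi₀ f₁ _ le_rfl).1
    have hwm : w ∉ ball x m := by
      rw [mem_ball_iff_lev x S.gen]
      omega
    obtain ⟨j, hj⟩ := sc_not_all_down S w
    have h1 : c.coeff (S.fc w j) ≠ 0 := by
      rw [sc_const_all S c hc w hwm j (i₀ f₁ + (Fintype.card ι : ℕ)), hw, sc_fc]
      exact Finsupp.mem_support_iff.1 hf₁
    have h2 := hmax (S.fc w j) (Finsupp.mem_support_iff.2 h1)
    have h3 := sc_le_top S (S.fc w j) (i₀ (S.fc w j)) (hi₀ (S.fc w j)) (j + 1)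
    rw [← sc_nb, sc_fc_mul] at h3
    have h4 : lev x (S.nb w j) = lev x w + 1 ∨ lev x (S.nb w j) + 1 = lev x w :=
      lev_step x S.gen S.ε S.hε w (S.r j)
    have hd := S.hd
    omega
  have := hmax f (Finsupp.mem_support_iff.2 hf)
  omega

theorem sc_supp (N : ℕ) [NeZero n] (c : QG G)
    (hc : c • scZeta S ∈ suppIn (edgeFam x (ball x (N + Fintype.card ι)))) (f : G)
    (hf : c.coeff f ≠ 0) : ∃ q ∈ scP S N, S.fc q.1 q.2 = f := by
  classical
  choose i₀ hi₀ using face_unimodal S
  have hbf : lev x (f * S.p (i₀ f)) ≤ N := by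
    have := sc_top_le S _ c hc i₀ hi₀ f hf
    omega
  refine ⟨(f * S.p (i₀ f), i₀ f), ?_, sc_fc S f _⟩
  have hd := S.hd
  have h1 := hi₀ f 1 (by omega)
  rw [Nat.cast_one] at h1
  rw [scP, mem_filter, mem_product]
  refine ⟨⟨(mem_ball_iff_lev x S.gen _ _).2 hbf, mem_univ _⟩, ?_, ?_⟩
  · change lev x (S.nb (f * S.p (i₀ f)) (i₀ f)) = _
    rw [sc_nb]; exact h1.1
  · change lev x (S.nb (f * S.p (i₀ f)) (S.rv (i₀ f - 1))) = _
    rw [sc_nb_rv_sub]; exact h1.2

/-- Rank-nullity in balls. -/
theorem sc_bt_le_finrank (m : ℕ) :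
    bt x m ≤ Module.finrank ℚ (cycIn x (edgeFam x (ball x m))) := by
  classical
  have h1 := euler x (edgeFam x (ball x m)) (ball x m) ⟨1, one_mem_ball x m⟩ (by
    intro t g hg
    unfold edgeFam at hg
    rw [mem_filter] at hg
    exact hg)
  rw [sum_card_edgeFam] at h1
  unfold bt
  omega

theorem sc_bt_le (N : ℕ) [NeZero n] :
    bt x (N + Fintype.card ι) ≤ (scP S N).card := by
  classical
  set m := N + Fintype.card ι with hm
  have h1 := sc_bt_le_finrank (x := x) m
  have h2 : Module.finrank ℚ (cycIn x (edgeFam x (ball x m))) ≤ (scP S N).card := by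
    set Sp : Finset (ι → QG G) := (scP S N).image (fun q => el (S.fc q.1 q.2) • scZeta S) with hSp
    have h3 : cycIn x (edgeFam x (ball x m)) ≤ Submodule.span ℚ (Sp : Set (ι → QG G)) := by
      intro z hz
      obtain ⟨hz1, hz2⟩ := hz
      have hz1' : z ∈ cyc x := hz1
      rw [S.cyc_eq] at hz1'
      obtain ⟨c, hc⟩ := Submodule.mem_span_singleton.1 hz1'
      have hc' : c • scZeta S = z := hc
      have hsupp := sc_supp S N c (by rw [hc']; exact hz2)
      have h4 : z = ∑ g ∈ c.coeff.support, c.coeff g • (el g • scZeta S) := by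
        rw [← hc']
        conv_lhs => rw [QG_eq_sum c]
        rw [Finsupp.sum, Finset.sum_smul]
        refine Finset.sum_congr rfl fun g _ => ?_
        rw [smul_assoc]
      rw [h4]
      refine Submodule.sum_mem _ fun g hg => Submodule.smul_mem _ _ (Submodule.subset_span ?_)
      obtain ⟨q, hq, hqf⟩ := hsupp g (Finsupp.mem_support_iff.1 hg)
      rw [hSp, coe_image]
      exact ⟨q, hq, by simp only [hqf]⟩
    calc Module.finrank ℚ (cycIn x (edgeFam x (ball x m))) ≤
          Module.finrank ℚ (Submodule.span ℚ (Sp : Set (ι → QG G))) := Submodule.finrank_mono h3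
      _ ≤ Sp.card := finrank_span_finset_le_card Sp
      _ ≤ (scP S N).card := card_image_le
  omega

open Classical in
/-- The down germs at a vertex. -/
noncomputable def scD [NeZero n] (v : G) : Finset (ZMod n) :=
  univ.filter (fun i => lev x (S.nb v i) + 1 = lev x v)

open Classical in
/-- The corners at a vertex both germs of which go up. -/
noncomputable def scU [NeZero n] (v : G) : Finset (ZMod n) :=
  univ.filter (fun i => lev x (S.nb v i) = lev x v + 1 ∧ lev x (S.nb v (S.rv (i - 1))) = lev x v + 1)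

theorem scD_nonempty [NeZero n] (v : G) (hv : v ≠ 1) : (scD S v).Nonempty := by
  classical
  obtain ⟨l, hl⟩ := exists_down x S.gen v hv
  refine ⟨S.r.symm l, ?_⟩
  rw [scD, mem_filter]
  refine ⟨mem_univ _, ?_⟩
  rw [Std.nb, Equiv.apply_symm_apply]
  exact hl

theorem scD_exists [NeZero n] (v : G) (hv : v ≠ 1) : ∃ a ∈ scD S v, S.tau a ∉ scD S v := by
  classical
  by_contra hcon
  push Not at hcon
  obtain ⟨a, ha⟩ := scD_nonempty S v hv
  have hall : ∀ j, j ∈ scD S v := by
    intro j
    obtain ⟨k, rfl⟩ := tau_trans S a j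
    induction k with
    | zero => exact ha
    | succ k ih => rw [iterate_succ_apply']; exact hcon _ ih
  obtain ⟨i, hi⟩ := sc_not_all_down S v
  have h1 := hall i
  rw [scD, mem_filter] at h1
  omega

theorem sc_card_U_add_D [NeZero n] (v : G) (hv : v ≠ 1) :
    (scU S v).card + (scD S v).card + 1 ≤ n := by
  classical
  obtain ⟨a, ha, hta⟩ := scD_exists S v hv
  have h1 : Disjoint (scU S v) (insert (S.tau a) (scD S v)) := by
    rw [Finset.disjoint_left]
    intro i hi hi'
    rw [scU, mem_filter] at hi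
    rw [mem_insert] at hi'
    rcases hi' with rfl | hi'
    · have h2 : S.rv (S.tau a - 1) = a := by rw [Std.tau, add_sub_cancel_right, rv_rv]
      rw [h2] at hi
      rw [scD, mem_filter] at ha
      omega
    · rw [scD, mem_filter] at hi'
      omega
  have h2 := card_le_univ (scU S v ∪ insert (S.tau a) (scD S v))
  rw [card_union_of_disjoint h1, card_insert_of_notMem hta, ZMod.card] at h2
  omega

theorem scD_one [NeZero n] : scD S (1 : G) = ∅ := by
  classical
  rw [scD, filter_eq_empty_iff]
  intro i _ h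
  have := (lev_eq_zero x S.gen (1 : G)).2 rfl
  omega

theorem sc_card_P (N : ℕ) [NeZero n] : (scP S N).card = ∑ v ∈ ball x N, (scU S v).card := by
  classical
  rw [scP, card_filter, sum_product]
  refine Finset.sum_congr rfl fun v _ => ?_
  rw [scU, card_filter]

open Classical in
/-- The upper end of an edge with its down germ. -/
noncomputable def scUp (e : G × ι) : G × ZMod n :=
  if lev x (e.1 * x e.2) = lev x e.1 + 1 then (e.1 * x e.2, S.r.symm (e.2, false))
  else (e.1, S.r.symm (e.2, true))

theorem scUp_inj : Injective (scUp S) := by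
  classical
  rintro ⟨g, t⟩ ⟨g', t'⟩ h
  unfold scUp at h
  simp only at h
  split_ifs at h with h1 h2 h2
  · have h3 := congrArg Prod.fst h
    have h4 := congrArg Prod.snd h
    simp only [EmbeddingLike.apply_eq_iff_eq, Prod.mk.injEq, and_true] at h3 h4
    subst h4
    rw [mul_left_inj] at h3
    rw [h3]
  · have h4 := congrArg Prod.snd h
    simp at h4
  · have h4 := congrArg Prod.snd h
    simp at h4
  · have h3 := congrArg Prod.fst h
    have h4 := congrArg Prod.snd h
    simp only [EmbeddingLike.apply_eq_iff_eq, Prod.mk.injEq, and_true] at h3 h4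
    rw [h3, h4]

theorem sc_card_edges (N : ℕ) [NeZero n] :
    (edges x (ball x N)).card ≤ ∑ v ∈ ball x N, (scD S v).card := by
  classical
  have h1 : ∑ v ∈ ball x N, (scD S v).card = (((ball x N) ×ˢ (univ : Finset (ZMod n))).filter
      (fun q => lev x (S.nb q.1 q.2) + 1 = lev x q.1)).card := by
    rw [card_filter, sum_product]
    refine Finset.sum_congr rfl fun v _ => ?_
    rw [scD, card_filter]
  rw [h1]
  refine card_le_card_of_injOn (scUp S) ?_ ((scUp_inj S).injOn)
  rintro ⟨g, t⟩ he
  rw [mem_coe, mem_edges] at he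
  obtain ⟨he1, he2⟩ := he
  simp only at he1 he2
  rw [mem_coe, mem_filter, mem_product]
  have h2 : g * letter x (t, true) = g * x t := by simp [letter]
  have h3 := lev_step x S.gen S.ε S.hε g (t, true)
  rw [h2] at h3
  unfold scUp
  simp only
  split_ifs with h4
  · refine ⟨⟨he2, mem_univ _⟩, ?_⟩
    simp only [Std.nb, Equiv.apply_symm_apply]
    have h5 : g * x t * letter x (t, false) = g := by simp [letter]
    rw [h5, h4]
  · refine ⟨⟨he1, mem_univ _⟩, ?_⟩
    simp only [Std.nb, Equiv.apply_symm_apply, h2]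
    rcases h3 with h3 | h3
    · exact absurd h3 h4
    · exact h3

end StdCount

/-- There are no cycles in small balls. -/
theorem std_small {x : ι → G} {n : ℕ} (S : Std x n) (m : ℕ) (hm : m < Fintype.card ι) :
    bt x m ≤ 0 := by
  classical
  have h1 := sc_bt_le_finrank (x := x) m
  have h2 : cycIn x (edgeFam x (ball x m)) = ⊥ := by
    rw [eq_bot_iff]
    intro z hz
    obtain ⟨hz1, hz2⟩ := hz
    have hz1' : z ∈ cyc x := hz1
    rw [S.cyc_eq] at hz1'
    obtain ⟨c, hc⟩ := Submodule.mem_span_singleton.1 hz1'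
    have hc' : c • scZeta S = z := hc
    choose i₀ hi₀ using face_unimodal S
    have h3 : c = 0 := by
      have h4 : c.coeff = 0 := by
        ext f
        by_contra hne
        have := sc_top_le S m c (by rw [hc']; exact hz2) i₀ hi₀ f (by simpa using hne)
        omega
      ext f
      rw [h4]
      simp
    rw [Submodule.mem_bot, ← hc', h3, zero_smul]
  rw [h2, finrank_bot] at h1
  exact_mod_cast h1

theorem std_count {x : ι → G} {n : ℕ} (S : Std x n) (N : ℕ) :
    bt x (N + Fintype.card ι) + bt x N ≤ (2 * (Fintype.card ι : ℤ) - 2) * V x N + 2 := by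
  classical
  have := sc_neZero S
  have h1 := sc_bt_le S N
  have h2 := sc_card_P S N
  have h3 := sc_card_edges S N
  have h4 : ∑ v ∈ ball x N, ((scU S v).card + (scD S v).card) ≤
      n + (n - 1) * ((ball x N).card - 1) := by
    rw [← add_sum_erase _ _ (one_mem_ball x N)]
    have h5 : (scU S (1 : G)).card + (scD S (1 : G)).card ≤ n := by
      rw [scD_one, card_empty, add_zero]
      have := card_le_univ (scU S (1 : G))
      rwa [ZMod.card] at this
    have h6 : ∑ v ∈ (ball x N).erase 1, ((scU S v).card + (scD S v).card) ≤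
        ∑ v ∈ (ball x N).erase 1, (n - 1) := by
      refine sum_le_sum fun v hv => ?_
      have := sc_card_U_add_D S v (ne_of_mem_erase hv)
      omega
    rw [sum_const, card_erase_of_mem (one_mem_ball x N), smul_eq_mul, mul_comm] at h6
    exact Nat.add_le_add h5 h6
  rw [sum_add_distrib, ← h2] at h4
  have hcard : 1 ≤ (ball x N).card := card_pos.2 ⟨1, one_mem_ball x N⟩
  have hn := S.hn
  have hd := S.hd
  have h7 : (((n - 1) * ((ball x N).card - 1) : ℕ) : ℤ) =
      ((2 * (Fintype.card ι : ℤ) - 1) * ((ball x N).card - 1)) := by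
    rw [Nat.cast_mul, Nat.cast_sub hcard, Nat.cast_sub (by omega), hn]
    push_cast
    ring
  have h8 : ((scP S N).card : ℤ) + ((edges x (ball x N)).card : ℤ) ≤
      n + (2 * (Fintype.card ι : ℤ) - 1) * ((ball x N).card - 1) := by
    rw [← h7]
    have : (scP S N).card + (edges x (ball x N)).card ≤ n + (n - 1) * ((ball x N).card - 1) := by
      omega
    exact_mod_cast this
  have h9 : (n : ℤ) = 2 * (Fintype.card ι : ℤ) := by rw [hn]; push_cast; ring
  unfold bt V at *
  rw [h9] at h8
  linarith

end Main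

end Pool.Agent.SurfExact
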