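import Pool.Agent.SurfExact.DefsA

/-!
# MP_5bf54f_al, package A9: if all letters are cyclic the family is of standard type
-/

set_option autoImplicit false
set_option linter.unusedSectionVars false

namespace Pool.Agent.SurfExact

open Function Pool.Agent.SurfGrowth Finset

section StdOf

variable {G : Type*} [Group G] {ι : Type*} [Fintype ι] [DecidableEq ι]

/-- Origin of the positive edge with a given label. -/
def a9o (x A B : ι → G) (l : ι × Bool) : G := if l.2 then A l.1 else B l.1 * x l.1

/-- End of the positive edge with a given label. -/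
def a9e (x A B : ι → G) (l : ι × Bool) : G := if l.2 then A l.1 * x l.1 else B l.1

theorem a9e_eq (x A B : ι → G) (l : ι × Bool) : a9e x A B l = a9o x A B l * letter x l := by
  rcases l with ⟨t, b⟩
  cases b <;> simp [a9e, a9o, letter]

theorem a9_sum (x A B : ι → G) (δ : ι × Bool → ℚ) :
    ∑ t, (δ (t, true) • el (A t) - δ (t, false) • el (B t)) * (el (x t) - 1) =
      ∑ l, δ l • (el (a9e x A B l) - el (a9o x A B l)) := by
  rw [Fintype.sum_prod_type]
  refine Finset.sum_congr rfl fun t _ => ?_
  rw [Fintype.sum_bool]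
  simp only [a9e, a9o, el_mul, if_true, Bool.false_eq_true, if_false, sub_mul, mul_sub, smul_sub,
    smul_mul_assoc, mul_one]
  abel

open Classical in
theorem a9_el_coeff (a b : G) : (el a).coeff b = if a = b then (1 : ℚ) else 0 := by
  rw [el_coeff, Finsupp.single_apply]

/-- If a positive edge ends at a vertex then another one starts there. -/
theorem a9_next (x A B : ι → G) (a : ι → ℚ) (ha : ∀ t, 0 < a t)
    (h : ∑ t, (a t • (el (A t) - el (B t))) * (el (x t) - 1) = 0) (l : ι × Bool) :
    ∃ l', a9o x A B l' = a9e x A B l := by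
  classical
  by_contra hne
  push Not at hne
  have h1 : ∑ l', a l'.1 • (el (a9e x A B l') - el (a9o x A B l')) = 0 := by
    rw [← a9_sum x A B (fun l' => a l'.1)]
    rw [← h]
    refine Finset.sum_congr rfl fun t _ => ?_
    rw [smul_sub]
  have h2 := congrArg (fun y : QG G => y.coeff (a9e x A B l)) h1
  have h3 : ∀ (S : Finset (ι × Bool)) (f : ι × Bool → QG G) (g : G),
      (∑ l' ∈ S, f l').coeff g = ∑ l' ∈ S, (f l').coeff g := by
    intro S f g
    induction S using Finset.induction_on with
    | empty => simp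
    | insert b S hb ih => rw [Finset.sum_insert hb, Finset.sum_insert hb, ← ih]; simp
  simp only [h3] at h2
  have h4 : ∀ l' : ι × Bool, (a l'.1 • (el (a9e x A B l') - el (a9o x A B l'))).coeff
      (a9e x A B l) = if a9e x A B l' = a9e x A B l then a l'.1 else 0 := by
    intro l'
    have h5 : (a l'.1 • (el (a9e x A B l') - el (a9o x A B l'))).coeff (a9e x A B l) =
        a l'.1 * ((el (a9e x A B l')).coeff (a9e x A B l) -
          (el (a9o x A B l')).coeff (a9e x A B l)) := by simp
    rw [h5, a9_el_coeff, a9_el_coeff, if_neg (hne l')]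
    split_ifs <;> simp
  simp only [h4] at h2
  have h6 : a l.1 ≤ ∑ l' : ι × Bool, (if a9e x A B l' = a9e x A B l then a l'.1 else 0) := by
    have := Finset.single_le_sum (f := fun l' : ι × Bool =>
      (if a9e x A B l' = a9e x A B l then a l'.1 else 0)) (s := Finset.univ)
      (fun l' _ => by
        show 0 ≤ (if a9e x A B l' = a9e x A B l then a l'.1 else 0)
        split_ifs
        · exact (ha _).le
        · exact le_refl _) (Finset.mem_univ l)
    simpa using this
  have h7 : (0 : QG G).coeff (a9e x A B l) = 0 := by simp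
  rw [h7] at h2
  have := ha l.1
  linarith

/-- First return of a sequence. -/
theorem a9_return {L : Type*} [Finite L] (o : L → G) (seq : ℕ → L) :
    ∃ i d : ℕ, o (seq i) = o (seq (i + (d + 1))) ∧
      ∀ a b, a < b → b < d + 1 → o (seq (i + a)) ≠ o (seq (i + b)) := by
  classical
  have h1 : ∃ d i : ℕ, o (seq i) = o (seq (i + (d + 1))) := by
    obtain ⟨i, j, hij, h⟩ := Finite.exists_ne_map_eq_of_infinite seq
    rcases Nat.lt_or_gt_of_ne hij with hlt | hlt
    · refine ⟨j - i - 1, i, ?_⟩
      rw [show i + (j - i - 1 + 1) = j from by omega, h]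
    · refine ⟨i - j - 1, j, ?_⟩
      rw [show j + (i - j - 1 + 1) = i from by omega, h]
  obtain ⟨i, hi⟩ := Nat.find_spec h1
  refine ⟨i, Nat.find h1, hi, ?_⟩
  intro a b hab hb heq
  have := Nat.find_min h1 (m := b - a - 1) (by omega)
  apply this
  refine ⟨i + a, ?_⟩
  rw [heq]
  congr 2
  omega

/-- The positive edges form a simple closed path. -/
theorem a9_path (x : ι → G) (hdom : NoZeroDivisors (QG G)) (ρ : ι → QG G)
    (hcyc : cyc x = Submodule.span (QG G) {ρ}) (A B : ι → G) (hAB : ∀ t, A t ≠ B t)
    (a : ι → ℚ) (ha : ∀ t, 0 < a t) (hρ : ∀ t, ρ t = a t • (el (A t) - el (B t)))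
    (l₀ : ι × Bool) :
    ∃ P : ℕ → ι × Bool,
      (∀ j, a9o x A B (P (j + 1)) = a9e x A B (P j)) ∧
      a9o x A B (P (2 * Fintype.card ι)) = a9o x A B (P 0) ∧
      (∀ i j, i < j → j < 2 * Fintype.card ι → a9o x A B (P i) ≠ a9o x A B (P j)) ∧
      cyc x = Submodule.span (QG G) {fun t => el (A t) - el (B t)} := by
  classical
  have hρc : ρ ∈ cyc x := by
    rw [hcyc]
    exact Submodule.mem_span_singleton_self ρ
  have h0 : ∑ t, (a t • (el (A t) - el (B t))) * (el (x t) - 1) = 0 := by
    rw [← mem_cyc.1 hρc]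
    refine Finset.sum_congr rfl fun t _ => ?_
    rw [hρ]
  choose next hnext using a9_next x A B a ha h0
  obtain ⟨i, d, hret, hinj⟩ := a9_return (a9o x A B) (fun n => next^[n] l₀)
  set P : ℕ → ι × Bool := fun n => next^[i + n] l₀ with hP
  have hPs : ∀ j, a9o x A B (P (j + 1)) = a9e x A B (P j) := by
    intro j
    show a9o x A B (next^[i + (j + 1)] l₀) = a9e x A B (next^[i + j] l₀)
    rw [show i + (j + 1) = (i + j) + 1 from by ring, Function.iterate_succ_apply', hnext]
  have hPr : a9o x A B (P (d + 1)) = a9o x A B (P 0) := hret.symm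
  have hPi : ∀ a b, a < b → b < d + 1 → a9o x A B (P a) ≠ a9o x A B (P b) := hinj
  have hPinj : Set.InjOn P (Finset.range (d + 1) : Set ℕ) := by
    intro u hu v hv huv
    rw [Finset.mem_coe, Finset.mem_range] at hu hv
    by_contra hne
    rcases Nat.lt_or_gt_of_ne hne with hlt | hlt
    · exact hPi u v hlt hv (by rw [huv])
    · exact hPi v u hlt hu (by rw [huv])
  set S : Finset (ι × Bool) := (Finset.range (d + 1)).image P with hS
  set δ : ι × Bool → ℚ := fun l => if l ∈ S then 1 else 0 with hδ
  set ζ : ι → QG G := fun t => δ (t, true) • el (A t) - δ (t, false) • el (B t) with hζ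
  have hζc : ζ ∈ cyc x := by
    rw [mem_cyc, a9_sum x A B δ]
    have h1 : ∑ l, δ l • (el (a9e x A B l) - el (a9o x A B l)) =
        ∑ l ∈ S, (el (a9e x A B l) - el (a9o x A B l)) := by
      rw [← Finset.sum_filter_add_sum_filter_not Finset.univ (fun l => l ∈ S)]
      have h2 : ∑ l ∈ Finset.univ.filter (fun l => ¬ l ∈ S),
          δ l • (el (a9e x A B l) - el (a9o x A B l)) = 0 := by
        apply Finset.sum_eq_zero
        intro l hl
        rw [Finset.mem_filter] at hl
        simp only [hδ, if_neg hl.2, zero_smul]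
      rw [h2, add_zero]
      apply Finset.sum_congr
      · ext l
        simp
      · intro l hl
        simp only [hδ, if_pos hl, one_smul]
    rw [h1, hS, Finset.sum_image (fun u hu v hv h => hPinj hu hv h)]
    have h3 : ∀ j, el (a9e x A B (P j)) - el (a9o x A B (P j)) =
        el (a9o x A B (P (j + 1))) - el (a9o x A B (P j)) := by
      intro j
      rw [hPs]
    simp only [h3]
    rw [Finset.sum_range_sub (fun j => el (a9o x A B (P j))), hPr, sub_self]
  rw [hcyc, Submodule.mem_span_singleton] at hζc
  obtain ⟨y, hy⟩ := hζc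
  have hyt : ∀ t, y * ρ t = ζ t := fun t => congrFun hy t
  -- both or neither
  have haug : ∀ t, δ (t, true) = δ (t, false) := by
    intro t
    have h1 : pairL (fun _ : G => (1 : ℚ)) (ζ t) = δ (t, true) - δ (t, false) := by
      simp only [hζ, map_sub, map_smul, pairL_el, smul_eq_mul, mul_one]
    have h2 : pairL (fun _ : G => (1 : ℚ)) (y * ρ t) = 0 := by
      rw [hρ, mul_smul_comm, map_smul, mul_sub, map_sub, pairL_mulel, pairL_mulel, sub_self,
        smul_zero]
    rw [hyt, h1] at h2
    linarith
  have hζt : ∀ t, ζ t = δ (t, true) • (el (A t) - el (B t)) := by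
    intro t
    simp only [hζ]
    rw [← haug t, smul_sub]
  have hne0 : ∀ t, (el (A t) - el (B t) : QG G) ≠ 0 := by
    intro t h
    have h1 := congrArg (fun y : QG G => y.coeff (A t)) h
    have h2 : (el (A t) - el (B t) : QG G).coeff (A t) =
        (el (A t)).coeff (A t) - (el (B t)).coeff (A t) := by simp
    simp only [h2] at h1
    rw [a9_el_coeff, a9_el_coeff, if_pos rfl, if_neg (fun h => hAB t h.symm)] at h1
    simp at h1
  -- the multiplier is a constant
  obtain ⟨t₀, ht₀⟩ : ∃ t, δ (t, true) = 1 := by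
    have h1 : P 0 ∈ S := by
      rw [hS]
      exact Finset.mem_image_of_mem _ (Finset.mem_range.2 (by omega))
    refine ⟨(P 0).1, ?_⟩
    rcases hb : (P 0) with ⟨t, b⟩
    rw [hb] at h1
    cases b
    · rw [haug]
      simp only [hδ, if_pos h1]
    · simp only [hδ, if_pos h1]
  have hy0 : y = (a t₀)⁻¹ • (1 : QG G) := by
    have h1 := hyt t₀
    rw [hζt, ht₀, one_smul, hρ] at h1
    have h2 : (a t₀ • y - 1) * (el (A t₀) - el (B t₀)) = 0 := by
      rw [sub_mul, one_mul, smul_mul_assoc, ← mul_smul_comm, h1, sub_self]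
    rcases mul_eq_zero.1 h2 with h3 | h3
    · have h4 : a t₀ • y = 1 := sub_eq_zero.1 h3
      rw [← h4, smul_smul, inv_mul_cancel₀ (ha t₀).ne', one_smul]
    · exact absurd h3 (hne0 t₀)
  have hδ1 : ∀ t, δ (t, true) = 1 := by
    intro t
    by_contra hne
    have h1 : δ (t, true) = 0 := by
      simp only [hδ] at hne ⊢
      split_ifs at hne ⊢ with h2
      · exact absurd rfl hne
      · rfl
    have h2 := hyt t
    rw [hζt, h1, zero_smul, hρ, hy0] at h2
    rw [mul_smul_comm, smul_mul_assoc, one_mul, smul_smul] at h2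
    rcases smul_eq_zero.1 h2 with h3 | h3
    · exact (mul_pos (ha t) (inv_pos.2 (ha t₀))).ne' h3
    · exact hne0 t h3
  have hSuniv : S = Finset.univ := by
    rw [Finset.eq_univ_iff_forall]
    rintro ⟨t, b⟩
    have h1 : δ (t, b) = 1 := by
      cases b
      · rw [← haug]
        exact hδ1 t
      · exact hδ1 t
    by_contra hne
    simp only [hδ, if_neg hne] at h1
    exact zero_ne_one h1
  have hd : d + 1 = 2 * Fintype.card ι := by
    have h1 : S.card = d + 1 := by
      rw [hS, Finset.card_image_of_injOn hPinj, Finset.card_range]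
    rw [hSuniv, Finset.card_univ, Fintype.card_prod, Fintype.card_bool] at h1
    omega
  refine ⟨P, hPs, ?_, ?_, ?_⟩
  · rw [← hd]
    exact hPr
  · intro u v huv hv
    exact hPi u v huv (by omega)
  · have hζ' : (fun t => el (A t) - el (B t)) = ζ := by
      funext t
      rw [hζt, hδ1, one_smul]
    rw [hζ', hcyc]
    apply le_antisymm
    · rw [Submodule.span_singleton_le_iff_mem, Submodule.mem_span_singleton]
      refine ⟨a t₀ • (1 : QG G), ?_⟩
      rw [← hy, hy0, smul_smul]
      have h1 : (a t₀ • (1 : QG G)) * ((a t₀)⁻¹ • (1 : QG G)) = 1 := by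
        rw [smul_mul_smul_comm, mul_inv_cancel₀ (ha t₀).ne', mul_one, one_smul]
      rw [h1, one_smul]
    · rw [Submodule.span_singleton_le_iff_mem, Submodule.mem_span_singleton]
      exact ⟨y, hy⟩

theorem a9_link (x A B : ι → G) (n : ℕ) [NeZero n] (r : ZMod n ≃ ι × Bool) (p : ZMod n → G)
    (p_succ : ∀ i, p (i + 1) = p i * letter x (r i)) (hA : ∀ t, p (r.symm (t, true)) = A t)
    (hB : ∀ t, p (r.symm (t, false) + 1) = B t)
    (χ : G →* Multiplicative (ι → ℤ)) (hχ : ∀ t, χ (x t) = Multiplicative.ofAdd (Pi.single t 1))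
    (hind : LinearIndependent ℚ (fun s => omegaRow χ (el (A s) - el (B s))))
    (φ : ZMod n → ℚ) (hφ : ∀ i, φ (r.symm (linv (r i)) + 1) = φ i) : ∀ i j, φ i = φ j := by
  classical
  set w : ι → ℚ := fun t => φ (r.symm (t, true) + 1) - φ (r.symm (t, true)) with hw
  have hF : ∀ t, φ (r.symm (t, false) + 1) = φ (r.symm (t, true)) := by
    intro t
    have := hφ (r.symm (t, true))
    rw [Equiv.apply_symm_apply] at this
    simpa [linv] using this
  have hT : ∀ t, φ (r.symm (t, true) + 1) = φ (r.symm (t, false)) := by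
    intro t
    have := hφ (r.symm (t, false))
    rw [Equiv.apply_symm_apply] at this
    simpa [linv] using this
  set Ψ : G → ℚ := fun g => ∑ t, ((Multiplicative.toAdd (χ g) t : ℤ) : ℚ) * w t with hΨ
  have hΨmul : ∀ g h, Ψ (g * h) = Ψ g + Ψ h := by
    intro g h
    simp only [hΨ, map_mul, toAdd_mul, Pi.add_apply, Int.cast_add, add_mul,
      Finset.sum_add_distrib]
  have hΨx : ∀ t, Ψ (x t) = w t := by
    intro t
    simp only [hΨ, hχ, toAdd_ofAdd]
    rw [Finset.sum_eq_single t]
    · simp
    · intro t' _ ht'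
      rw [Pi.single_eq_of_ne ht']
      simp
    · simp
  have hΨ1 : Ψ 1 = 0 := by
    have := hΨmul 1 1
    rw [mul_one] at this
    linarith
  have hΨinv : ∀ g, Ψ g⁻¹ = - Ψ g := by
    intro g
    have := hΨmul g g⁻¹
    rw [mul_inv_cancel, hΨ1] at this
    linarith
  have hstep : ∀ i, Ψ (p (i + 1)) - φ (i + 1) = Ψ (p i) - φ i := by
    intro i
    rw [p_succ, hΨmul]
    obtain ⟨l, rfl⟩ := r.symm.surjective i
    rw [Equiv.apply_symm_apply]
    rcases l with ⟨t, b⟩
    cases b
    · have h1 : Ψ (letter x (t, false)) = - w t := by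
        simp only [letter, Bool.false_eq_true, if_false]
        rw [hΨinv, hΨx]
      rw [h1, hF]
      simp only [hw]
      rw [hT]
      ring
    · have h1 : Ψ (letter x (t, true)) = w t := by
        simp only [letter, if_true]
        rw [hΨx]
      rw [h1]
      simp only [hw]
      ring
  have hconstN : ∀ (f : ZMod n → ℚ), (∀ i, f (i + 1) = f i) → ∀ i j, f i = f j := by
    intro f hf
    have h1 : ∀ m : ℕ, f (m : ZMod n) = f 0 := by
      intro m
      induction m with
      | zero => simp
      | succ m ih => rw [Nat.cast_succ, hf, ih]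
    intro i j
    rw [← ZMod.natCast_zmod_val i, ← ZMod.natCast_zmod_val j, h1, h1]
  have hc := hconstN (fun i => Ψ (p i) - φ i) hstep
  have hrow : ∀ t, ∑ t', omegaRow χ (el (A t) - el (B t)) t' * w t' = 0 := by
    intro t
    have h1 : ∑ t', omegaRow χ (el (A t) - el (B t)) t' * w t' = Ψ (A t) - Ψ (B t) := by
      simp only [omegaRow, map_sub, pairL_el, Pi.sub_apply, sub_mul, Finset.sum_sub_distrib, hΨ]
    rw [h1, ← hA, ← hB]
    have h2 := hc (r.symm (t, true)) (r.symm (t, false) + 1)
    rw [hF] at h2
    linarith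
  have hw0 : w = 0 := by
    have hspan : ⊤ ≤ Submodule.span ℚ (Set.range fun s => omegaRow χ (el (A s) - el (B s))) := by
      have := hind.span_eq_top_of_card_eq_finrank' (by simp)
      rw [this]
    have hall : ∀ v : ι → ℚ, ∑ t', v t' * w t' = 0 := by
      intro v
      have hv : v ∈ Submodule.span ℚ (Set.range fun s => omegaRow χ (el (A s) - el (B s))) :=
        hspan trivial
      induction hv using Submodule.span_induction with
      | mem v hv =>
        obtain ⟨t, rfl⟩ := hv
        exact hrow t
      | zero => simp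
      | add u v _ _ hu hv =>
        simp only [Pi.add_apply, add_mul, Finset.sum_add_distrib]
        rw [hu, hv, add_zero]
      | smul q v _ hv =>
        simp only [Pi.smul_apply, smul_eq_mul, mul_assoc]
        rw [← Finset.mul_sum, hv, mul_zero]
    funext t
    have := hall (Pi.single t 1)
    rw [Finset.sum_eq_single t] at this
    · simpa using this
    · intro t' _ ht'
      rw [Pi.single_eq_of_ne ht', zero_mul]
    · simp
  apply hconstN
  intro i
  obtain ⟨l, rfl⟩ := r.symm.surjective i
  rcases l with ⟨t, b⟩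
  have h1 : w t = 0 := congrFun hw0 t
  simp only [hw] at h1
  cases b
  · rw [hF, ← hT]
    linarith
  · linarith

theorem std_of_all (x : ι → G) (hgen : Subgroup.closure (Set.range x) = ⊤)
    (hd : 3 ≤ Fintype.card ι) (hdom : NoZeroDivisors (QG G)) (ρ : ι → QG G)
    (hcyc : cyc x = Submodule.span (QG G) {ρ}) (γ k : ι → G) (c : ι → ℚ) (hc : ∀ s, c s ≠ 0)
    (hρ : ∀ s, ρ s = c s • (el (γ s) * (1 - el (k s))))
    (χ : G →* Multiplicative (ι → ℤ)) (hχ : ∀ t, χ (x t) = Multiplicative.ofAdd (Pi.single t 1))
    (hind : LinearIndependent ℚ (fun s => omegaRow χ (ρ s))) :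
    Nonempty (Std x (2 * Fintype.card ι)) := by
  classical
  set A : ι → G := fun t => if 0 < c t then γ t else γ t * k t with hA
  set B : ι → G := fun t => if 0 < c t then γ t * k t else γ t with hB
  have hρ' : ∀ t, ρ t = |c t| • (el (A t) - el (B t)) := by
    intro t
    rw [hρ, mul_sub, mul_one, ← el_mul]
    rcases lt_or_gt_of_ne (hc t) with h | h
    · rw [abs_of_neg h]
      simp only [hA, hB, if_neg (not_lt.2 h.le)]
      rw [neg_smul, ← smul_neg, neg_sub]
    · rw [abs_of_pos h]
      simp only [hA, hB, if_pos h]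
  have hAB : ∀ t, A t ≠ B t := by
    intro t h
    have h1 : ρ t = 0 := by rw [hρ', h, sub_self, smul_zero]
    have h2 := hind.ne_zero t
    apply h2
    simp only [h1, omegaRow, map_zero]
  have hpos : ∀ t, 0 < |c t| := fun t => abs_pos.2 (hc t)
  have : Nonempty ι := Fintype.card_pos_iff.1 (by omega)
  obtain ⟨P, hPs, hPr, hPi, hcyc'⟩ := a9_path x hdom ρ hcyc A B hAB (fun t => |c t|) hpos hρ'
    (Classical.arbitrary ι, true)
  set n := 2 * Fintype.card ι with hn
  have : NeZero n := ⟨by omega⟩
  have hrinj : Injective (fun i : ZMod n => P i.val) := by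
    intro i j hij
    have hi := ZMod.val_lt i
    have hj := ZMod.val_lt j
    apply ZMod.val_injective n
    by_contra hne
    rcases Nat.lt_or_gt_of_ne hne with hlt | hlt
    · exact hPi _ _ hlt hj (congrArg _ hij)
    · exact hPi _ _ hlt hi (congrArg _ hij.symm)
  have hrbij : Bijective (fun i : ZMod n => P i.val) := by
    rw [Fintype.bijective_iff_injective_and_card]
    refine ⟨hrinj, ?_⟩
    rw [ZMod.card, Fintype.card_prod, Fintype.card_bool, hn]
    ring
  set r : ZMod n ≃ ι × Bool := Equiv.ofBijective _ hrbij with hr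
  have hrap : ∀ i : ZMod n, r i = P i.val := fun i => rfl
  set p : ZMod n → G := fun i => a9o x A B (r i) with hp
  have psucc : ∀ i, p (i + 1) = a9e x A B (r i) := by
    intro i
    simp only [hp, hrap]
    rw [← hPs]
    by_cases hlast : i.val + 1 < n
    · have : (i + 1).val = i.val + 1 := by
        have h1 : (1 : ZMod n).val = 1 := by
          rw [ZMod.val_one_eq_one_mod]
          exact Nat.mod_eq_of_lt (by omega)
        rw [ZMod.val_add, h1]
        exact Nat.mod_eq_of_lt hlast
      rw [this]
    · have h2 : i.val + 1 = n := by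
        have := ZMod.val_lt i
        omega
      have h3 : (i + 1).val = 0 := by
        have h1 : (1 : ZMod n).val = 1 := by
          rw [ZMod.val_one_eq_one_mod]
          exact Nat.mod_eq_of_lt (by omega)
        rw [ZMod.val_add, h1, h2]
        exact Nat.mod_self n
      rw [h3, h2, hPr]
  have p_succ : ∀ i, p (i + 1) = p i * letter x (r i) := by
    intro i
    rw [psucc, a9e_eq]
  have hpA : ∀ t, p (r.symm (t, true)) = A t := by
    intro t
    simp [hp, a9o]
  have hpB : ∀ t, p (r.symm (t, false) + 1) = B t := by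
    intro t
    rw [psucc]
    simp [a9e]
  have hind' : LinearIndependent ℚ (fun s => omegaRow χ (el (A s) - el (B s))) := by
    have h1 : (fun s => omegaRow χ (ρ s)) =
        fun s => (Units.mk0 |c s| (hpos s).ne') • omegaRow χ (el (A s) - el (B s)) := by
      funext s
      rw [hρ']
      simp only [omegaRow, map_smul]
      rfl
    rw [h1] at hind
    have h2 := hind.units_smul (fun s => (Units.mk0 |c s| (hpos s).ne')⁻¹)
    convert h2 using 1
    funext s
    exact (inv_smul_smul (Units.mk0 |c s| (hpos s).ne') _).symm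
  let ε₀ : (ι → ℤ) →+ ℚ :=
    { toFun := fun v => ∑ t, ((v t : ℤ) : ℚ)
      map_zero' := by simp
      map_add' := by
        intro u v
        simp [Finset.sum_add_distrib] }
  refine ⟨{
    r := r
    p := p
    p_succ := p_succ
    p_inj := ?_
    gen := hgen
    hn := hn
    hd := hd
    ε := (AddMonoidHom.toMultiplicative ε₀).comp χ
    hε := ?_
    dom := hdom
    cyc_eq := ?_
    link := ?_ }⟩
  · intro i j hij
    simp only [hp, hrap] at hij
    have hi := ZMod.val_lt i
    have hj := ZMod.val_lt j
    apply ZMod.val_injective n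
    by_contra hne
    rcases Nat.lt_or_gt_of_ne hne with hlt | hlt
    · exact hPi _ _ hlt hj hij
    · exact hPi _ _ hlt hi hij.symm
  · intro t
    rw [MonoidHom.comp_apply, hχ]
    show ∑ t', (((Pi.single t (1 : ℤ) : ι → ℤ) t' : ℤ) : ℚ) = 1
    rw [Finset.sum_eq_single t]
    · simp
    · intro t' _ ht'
      rw [Pi.single_eq_of_ne ht']
      simp
    · simp
  · rw [hcyc']
    congr 2
    funext t
    rw [hpA, hpB]
  · exact a9_link x A B n r p p_succ hpA hpB χ hχ hind'

end StdOf

end Pool.Agent.SurfExact
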