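import Mathlib

set_option autoImplicit false

/-!
A finite-state description of the group with a planar relator of even length `2h`
(standard presentation of a surface group): the letters are `ZMod (2h)` in the cyclic order of the
star of a vertex.  `Acc n a b z γ` says that `γ` is reached by an accepted word of length `n` with
last letter `z` in state `(a, b)`.
-/

namespace Pool.Agent.SurfExact

variable {G : Type*} [Group G] {h : ℕ}

/-- Planar relator data on the letters `ZMod (2h)`. -/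
structure Planar (h : ℕ) (G : Type*) [Group G] where
  /-- inverse letter -/
  inv : Equiv.Perm (ZMod (2 * h))
  inv_inv : ∀ z, inv (inv z) = z
  /-- the group element of a letter -/
  lam : ZMod (2 * h) → G
  lam_inv : ∀ z, lam (inv z) = (lam z)⁻¹

namespace Planar

variable (P : Planar h G)

/-- next letter of the relator -/
def al : Equiv.Perm (ZMod (2 * h)) := (Equiv.addRight 1) * P.inv

/-- next letter of the inverse relator -/
def be : Equiv.Perm (ZMod (2 * h)) := (Equiv.addRight 1)⁻¹ * P.inv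

theorem al_apply (z : ZMod (2 * h)) : P.al z = P.inv z + 1 := rfl

theorem be_apply (z : ZMod (2 * h)) : P.be z = P.inv z - 1 := by
  show ((Equiv.addRight (1 : ZMod (2 * h)))⁻¹) (P.inv z) = P.inv z - 1
  rw [Equiv.Perm.inv_eq_iff_eq]
  simp

/-- product of `j` consecutive letters along `f` -/
def pr (f : Equiv.Perm (ZMod (2 * h))) (z : ZMod (2 * h)) : ℕ → G
  | 0 => 1
  | j + 1 => pr f z j * P.lam ((f ^ j) z)

@[simp] theorem pr_zero (f : Equiv.Perm (ZMod (2 * h))) (z : ZMod (2 * h)) : P.pr f z 0 = 1 := rfl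

theorem pr_succ (f : Equiv.Perm (ZMod (2 * h))) (z : ZMod (2 * h)) (j : ℕ) :
    P.pr f z (j + 1) = P.pr f z j * P.lam ((f ^ j) z) := rfl

theorem pr_succ' (f : Equiv.Perm (ZMod (2 * h))) (z : ZMod (2 * h)) (j : ℕ) :
    P.pr f z (j + 1) = P.lam z * P.pr f (f z) j := by
  induction j with
  | zero => simp [pr_succ]
  | succ j ih =>
    rw [pr_succ, ih, pr_succ, mul_assoc]
    congr 2

theorem pr_add (f : Equiv.Perm (ZMod (2 * h))) (z : ZMod (2 * h)) (i j : ℕ) :
    P.pr f z (i + j) = P.pr f z i * P.pr f ((f ^ i) z) j := by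
  induction j with
  | zero => simp
  | succ j ih =>
    rw [← add_assoc, pr_succ, ih, pr_succ, mul_assoc]
    congr 3
    rw [add_comm, pow_add]
    rfl

theorem be_eq : P.be = P.inv * P.al⁻¹ * P.inv := by
  have h1 : P.inv * P.inv = 1 := by
    ext z
    simp [P.inv_inv]
  have h2 : P.inv⁻¹ = P.inv := inv_eq_of_mul_eq_one_left h1
  unfold be al
  rw [mul_inv_rev, h2, ← mul_assoc, h1, one_mul]

theorem inv_sub_one (p : ZMod (2 * h)) : P.inv (p - 1) = P.al⁻¹ p := by
  rw [Equiv.Perm.eq_inv_iff_eq, al_apply, P.inv_inv]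
  ring

theorem be_pow (j : ℕ) (q : ZMod (2 * h)) : (P.be ^ j) q = P.inv (((P.al⁻¹) ^ j) (P.inv q)) := by
  induction j with
  | zero => simp [P.inv_inv]
  | succ j ih =>
    rw [pow_succ', Equiv.Perm.mul_apply, ih, be_eq, Equiv.Perm.mul_apply, Equiv.Perm.mul_apply,
      P.inv_inv, pow_succ', Equiv.Perm.mul_apply]

theorem be_pow_sub_one (j : ℕ) (p : ZMod (2 * h)) :
    (P.be ^ j) (p - 1) = P.inv (((P.al⁻¹) ^ (j + 1)) p) := by
  rw [be_pow, inv_sub_one, pow_succ, Equiv.Perm.mul_apply]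

theorem pr_be (p : ZMod (2 * h)) (j : ℕ) :
    P.pr P.be (p - 1) j = (P.pr P.al (((P.al⁻¹) ^ j) p) j)⁻¹ := by
  induction j with
  | zero => simp
  | succ j ih =>
    rw [pr_succ, ih, be_pow_sub_one, P.lam_inv, pr_succ', mul_inv_rev]
    congr 3
    rw [pow_succ', Equiv.Perm.mul_apply]
    simp

/-- the relator holds at every letter and `al` has order dividing `2h` -/
structure Closed : Prop where
  al_pow : P.al ^ (h + h) = 1
  rel : ∀ z, P.pr P.al z (h + h) = 1

variable {P}

theorem Closed.al_inv_pow (hP : P.Closed) : (P.al⁻¹) ^ h = P.al ^ h := by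
  rw [inv_pow, inv_eq_iff_mul_eq_one, ← pow_add]
  exact hP.al_pow

theorem Closed.half (hP : P.Closed) (p : ZMod (2 * h)) :
    P.pr P.be (p - 1) h = P.pr P.al p h := by
  rw [pr_be]
  have h1 := hP.rel (((P.al⁻¹) ^ h) p)
  rw [pr_add] at h1
  have h2 : (P.al ^ h) (((P.al⁻¹) ^ h) p) = p := by
    rw [← Equiv.Perm.mul_apply, inv_pow]
    simp
  rw [h2] at h1
  exact inv_eq_of_mul_eq_one_right h1

/-- transitions between states -/
def next (h a b k : ℕ) : Option (ℕ × ℕ) :=
  if k = 1 then (if a + 1 ≤ h - 1 then some (a + 1, 1) else none)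
  else if k = 2 * h - 1 then (if b + 1 ≤ h then some (1, b + 1) else none)
  else if k = 2 * h - 2 ∧ b = h then some (1, 2)
  else some (1, 1)

variable (P)

/-- accepted words: length, state, last letter, value -/
inductive Acc : ℕ → ℕ → ℕ → ZMod (2 * h) → G → Prop
  | base (y : ZMod (2 * h)) : Acc 1 1 1 y (P.lam y)
  | step {n a b : ℕ} {z : ZMod (2 * h)} {γ : G} (hA : Acc n a b z γ) (k a' b' : ℕ)
      (hk : next h a b k = some (a', b')) (h1 : 1 ≤ k) (h2 : k ≤ 2 * h - 1) :
      Acc (n + 1) a' b' (P.inv z + k) (γ * P.lam (P.inv z + k))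

variable {P}

theorem Acc.inv {n a b : ℕ} {z : ZMod (2 * h)} {γ : G} (hA : P.Acc n a b z γ) (hh : 3 ≤ h) :
    1 ≤ n ∧ 1 ≤ a ∧ 1 ≤ b ∧ a ≤ h - 1 ∧ b ≤ h ∧ (2 ≤ a → b = 1) ∧ (2 ≤ b → a = 1) := by
  induction hA with
  | base y => omega
  | step hA k a' b' hk h1 h2 ih =>
    unfold next at hk
    split_ifs at hk <;> simp only [Option.some.injEq, Prod.mk.injEq] at hk <;> omega

theorem cast_two_mul_sub (i : ℕ) (hi : i ≤ 2 * h) :
    (((2 * h - i : ℕ) : ℕ) : ZMod (2 * h)) = -(i : ZMod (2 * h)) := by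
  rw [Nat.cast_sub hi, ZMod.natCast_self, zero_sub]

theorem Acc.cast {n n' a a' b b' : ℕ} {z z' : ZMod (2 * h)} {γ γ' : G} (hA : P.Acc n a b z γ)
    (h1 : n = n') (h2 : a = a') (h3 : b = b') (h4 : z = z') (h5 : γ = γ') :
    P.Acc n' a' b' z' γ' := by
  subst h1 h2 h3 h4 h5
  exact hA

theorem Acc.rollB (hh : 3 ≤ h) {m a b : ℕ} {q : ZMod (2 * h)} {γ : G} (hA : P.Acc m a b q γ)
    (j : ℕ) (hj : b + (j + 1) ≤ h) :
    P.Acc (m + (j + 1)) 1 (b + (j + 1)) ((P.be ^ (j + 1)) q) (γ * P.pr P.be (P.be q) (j + 1)) := by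
  induction j with
  | zero =>
    have h1 : next h a b (2 * h - 1) = some (1, b + 1) := by
      unfold next
      rw [if_neg (by omega), if_pos rfl, if_pos (by omega)]
    refine (Acc.step hA (2 * h - 1) 1 (b + 1) h1 (by omega) le_rfl).cast (by omega) rfl rfl ?_ ?_
    · rw [cast_two_mul_sub 1 (by omega), pow_one, be_apply]
      push_cast
      ring
    · rw [cast_two_mul_sub 1 (by omega), pr_succ, be_apply]
      simp [sub_eq_add_neg]
  | succ j ih =>
    have ih' := ih (by omega)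
    have h1 : next h 1 (b + (j + 1)) (2 * h - 1) = some (1, b + (j + 1) + 1) := by
      unfold next
      rw [if_neg (by omega), if_pos rfl, if_pos (by omega)]
    have h3 : P.inv ((P.be ^ (j + 1)) q) + ((2 * h - 1 : ℕ) : ZMod (2 * h)) =
        (P.be ^ (j + 1 + 1)) q := by
      rw [cast_two_mul_sub 1 (by omega), pow_succ' P.be (j + 1), Equiv.Perm.mul_apply, be_apply]
      push_cast
      ring
    refine (Acc.step ih' (2 * h - 1) 1 _ h1 (by omega) le_rfl).cast (by omega) rfl (by omega) ?_ ?_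
    · exact h3
    · rw [h3, pr_succ P P.be (P.be q) (j + 1), mul_assoc]
      rfl

theorem Acc.rollA (hh : 3 ≤ h) {m a b : ℕ} {p : ZMod (2 * h)} {γ : G} (hA : P.Acc m a b p γ)
    (j : ℕ) (hj : a + (j + 1) ≤ h - 1) :
    P.Acc (m + (j + 1)) (a + (j + 1)) 1 ((P.al ^ (j + 1)) p)
      (γ * P.pr P.al (P.al p) (j + 1)) := by
  induction j with
  | zero =>
    have h1 : next h a b 1 = some (a + 1, 1) := by
      unfold next
      rw [if_pos rfl, if_pos (by omega)]
    refine (Acc.step hA 1 (a + 1) 1 h1 le_rfl (by omega)).cast (by omega) rfl rfl ?_ ?_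
    · rw [pow_one, al_apply]
      push_cast
      ring
    · rw [pr_succ, al_apply]
      simp
  | succ j ih =>
    have ih' := ih (by omega)
    have h1 : next h (a + (j + 1)) 1 1 = some (a + (j + 1) + 1, 1) := by
      unfold next
      rw [if_pos rfl, if_pos (by omega)]
    have h3 : P.inv ((P.al ^ (j + 1)) p) + ((1 : ℕ) : ZMod (2 * h)) =
        (P.al ^ (j + 1 + 1)) p := by
      rw [pow_succ' P.al (j + 1), Equiv.Perm.mul_apply, al_apply]
      push_cast
      ring
    refine (Acc.step ih' 1 _ 1 h1 le_rfl (by omega)).cast (by omega) (by omega) rfl ?_ ?_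
    · exact h3
    · rw [h3, pr_succ P P.al (P.al p) (j + 1), mul_assoc]
      rfl

theorem Acc.unrollA (hh : 3 ≤ h) {n a b : ℕ} {z : ZMod (2 * h)} {γ : G} (hA : P.Acc n a b z γ) :
    ∃ m b1 p γ1, P.Acc m 1 b1 p γ1 ∧ n + 1 = m + a ∧ z = (P.al ^ (a - 1)) p ∧
      γ = γ1 * P.pr P.al (P.al p) (a - 1) := by
  induction hA with
  | base y => exact ⟨1, 1, y, P.lam y, Acc.base y, by omega, by simp, by simp⟩
  | @step n a b z γ hA k a' b' hk h1 h2 ih =>
    have hinv := hA.inv hh
    by_cases ha' : a' = 1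
    · subst ha'
      exact ⟨n + 1, b', _, _, Acc.step hA k 1 b' hk h1 h2, by omega, by simp, by simp⟩
    · have hk' := hk
      unfold next at hk'
      split_ifs at hk' with c1 c2 c3 c4 c5 <;>
        simp only [Option.some.injEq, Prod.mk.injEq] at hk' <;> try omega
      obtain ⟨m, b1, p, γ1, e1, e2, e3, e4⟩ := ih
      obtain ⟨rfl, rfl⟩ := hk'
      subst c1
      obtain ⟨a, rfl⟩ : ∃ c, a = c + 1 := ⟨a - 1, by omega⟩
      have h3 : P.inv z + ((1 : ℕ) : ZMod (2 * h)) = (P.al ^ (a + 1)) p := by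
        rw [pow_succ' P.al a, Equiv.Perm.mul_apply, al_apply, e3]
        simp
      refine ⟨m, b1, p, γ1, e1, by omega, ?_, ?_⟩
      · exact h3
      · rw [h3, e4]
        show _ = γ1 * P.pr P.al (P.al p) (a + 1)
        rw [pr_succ, mul_assoc]
        rfl

theorem Acc.unrollB (hh : 3 ≤ h) {n a b : ℕ} {z : ZMod (2 * h)} {γ : G} (hA : P.Acc n a b z γ)
    (hb : 2 ≤ b) :
    ∃ m q γ2, P.Acc m 1 2 q γ2 ∧ n + 2 = m + b ∧ z = (P.be ^ (b - 2)) q ∧
      γ = γ2 * P.pr P.be (P.be q) (b - 2) := by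
  induction hA with
  | base y => omega
  | @step n a b z γ hA k a' b' hk h1 h2 ih =>
    have hinv := hA.inv hh
    have hinv' := (Acc.step hA k a' b' hk h1 h2).inv hh
    by_cases hb' : b' = 2
    · subst hb'
      have ha' : a' = 1 := hinv'.2.2.2.2.2.2 le_rfl
      subst ha'
      exact ⟨n + 1, _, _, Acc.step hA k 1 2 hk h1 h2, by omega, by simp, by simp⟩
    · have hk' := hk
      unfold next at hk'
      split_ifs at hk' with c1 c2 c3 c4 c5 <;>
        simp only [Option.some.injEq, Prod.mk.injEq] at hk' <;> try omega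
      obtain ⟨m, q, γ2, e1, e2, e3, e4⟩ := ih (by omega)
      obtain ⟨rfl, rfl⟩ := hk'
      subst c3
      obtain ⟨b, rfl⟩ : ∃ c, b = c + 2 := ⟨b - 2, by omega⟩
      have h3 : P.inv z + ((2 * h - 1 : ℕ) : ZMod (2 * h)) = (P.be ^ (b + 1)) q := by
        rw [cast_two_mul_sub 1 (by omega), pow_succ' P.be b, Equiv.Perm.mul_apply, be_apply, e3]
        simp [sub_eq_add_neg]
      refine ⟨m, q, γ2, e1, by omega, ?_, ?_⟩
      · exact h3
      · rw [h3, e4]
        show _ = γ2 * P.pr P.be (P.be q) (b + 1)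
        rw [pr_succ, mul_assoc]
        rfl

end Planar

end Pool.Agent.SurfExact
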