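import Mathlib
import Pool.Agent.SurfExact.Upper1

set_option autoImplicit false

namespace Pool.Agent.SurfExact

namespace Planar

variable {G : Type*} [Group G] {h : ℕ} {P : Planar h G}

theorem Acc.finish1 (hP : P.Closed) (hh : 3 ≤ h) {m a : ℕ} {p : ZMod (2 * h)} {δ : G}
    (hA : P.Acc m a 1 (p - 1) (δ * P.lam (p - 1))) :
    P.Acc (m + (h - 1)) 1 h (P.inv ((P.al ^ h) p)) (δ * P.pr P.al p h) := by
  obtain ⟨j, rfl⟩ : ∃ j, h = j + 2 := ⟨h - 2, by omega⟩
  have h1 := hA.rollB hh j (by omega)
  refine h1.cast (by omega) rfl (by omega) ?_ ?_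
  · rw [be_pow_sub_one, hP.al_inv_pow]
  · rw [mul_assoc, ← pr_succ', hP.half]

theorem Acc.finish2 (hP : P.Closed) (hh : 3 ≤ h) {m b : ℕ} {p : ZMod (2 * h)} {δ : G}
    (hA : P.Acc m 1 b p (δ * P.lam p)) {z : ZMod (2 * h)} {γ : G}
    (hz : z = (P.be ^ (h - 1)) (p - 1)) (hγ : γ = δ * P.pr P.be (p - 1) h) :
    ∃ z', P.Acc (m + (h - 2)) (h - 1) 1 z' (γ * P.lam (P.be z)) ∧ P.al z' = P.inv (P.be z) := by
  obtain ⟨j, rfl⟩ : ∃ j, h = j + 3 := ⟨h - 3, by omega⟩
  have h1 := hA.rollA hh j (by omega)
  have h2 : P.be z = P.inv ((P.al ^ (j + 2)) p) := by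
    subst hz
    show P.be ((P.be ^ (j + 2)) (p - 1)) = _
    rw [← Equiv.Perm.mul_apply, ← pow_succ', be_pow_sub_one]
    congr 1
    rw [show j + 2 + 1 + 1 = (j + 3) + 1 by omega, pow_succ', hP.al_inv_pow,
      pow_succ' P.al (j + 2), ← mul_assoc, inv_mul_cancel, one_mul]
  refine ⟨(P.al ^ (j + 1)) p, h1.cast (by omega) (by omega) rfl rfl ?_, ?_⟩
  · rw [h2, hγ, hP.half, P.lam_inv]
    have e1 : P.pr P.al p (j + 3) = P.pr P.al p (j + 2) * P.lam ((P.al ^ (j + 2)) p) :=
      P.pr_succ P.al p (j + 2)
    have e2 : P.pr P.al p (j + 2) = P.lam p * P.pr P.al (P.al p) (j + 1) :=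
      P.pr_succ' P.al p (j + 1)
    rw [e1, e2]
    simp only [mul_assoc, mul_inv_cancel, mul_one]
  · rw [h2, P.inv_inv, pow_succ' P.al (j + 1)]
    rfl

/-- the missing down edge from the state `(h-1, 1)` -/
theorem Acc.claim1 (hP : P.Closed) (hh : 3 ≤ h) : ∀ (n : ℕ) (b : ℕ) (z : ZMod (2 * h)) (γ : G),
    P.Acc n (h - 1) b z γ → P.Acc (n + 1) 1 h (P.inv (P.al (P.al z))) (γ * P.lam (P.al z)) := by
  intro n
  induction n using Nat.strong_induction_on with
  | _ n ih =>
    intro b z γ hA
    obtain ⟨m, b1, p, γ1, e1, e2, e3, e4⟩ := hA.unrollA hh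
    obtain ⟨j, hj⟩ : ∃ j, h = j + 3 := ⟨h - 3, by omega⟩
    have key : ∀ δ : G, γ1 = δ * P.lam p → γ * P.lam (P.al z) = δ * P.pr P.al p h := by
      intro δ hδ
      rw [e4, hδ, e3]
      subst hj
      show δ * P.lam p * P.pr P.al (P.al p) (j + 1) * P.lam (P.al ((P.al ^ (j + 1)) p)) = _
      have f1 : P.pr P.al p (j + 3) = P.lam p * P.pr P.al (P.al p) (j + 2) :=
        P.pr_succ' P.al p (j + 2)
      have f2 : P.pr P.al (P.al p) (j + 2) =
          P.pr P.al (P.al p) (j + 1) * P.lam ((P.al ^ (j + 1)) (P.al p)) :=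
        P.pr_succ P.al (P.al p) (j + 1)
      have f3 : (P.al ^ (j + 1)) (P.al p) = P.al ((P.al ^ (j + 1)) p) := by
        rw [← Equiv.Perm.mul_apply, ← Equiv.Perm.mul_apply, ← pow_succ', ← pow_succ]
      rw [f1, f2, f3]
      simp only [mul_assoc]
    have key2 : P.inv (P.al (P.al z)) = P.inv ((P.al ^ h) p) := by
      rw [e3]
      subst hj
      show P.inv (P.al (P.al ((P.al ^ (j + 1)) p))) = P.inv ((P.al ^ (j + 3)) p)
      rw [pow_succ' P.al (j + 2), pow_succ' P.al (j + 1)]
      rfl
    have fin : ∀ (δ : G) (a' : ℕ), γ1 = δ * P.lam p → P.Acc m a' 1 (p - 1) (δ * P.lam (p - 1)) →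
        P.Acc (n + 1) 1 h (P.inv (P.al (P.al z))) (γ * P.lam (P.al z)) := by
      intro δ a' hδ hA'
      exact (hA'.finish1 hP hh).cast (by omega) rfl rfl key2.symm (key δ hδ).symm
    cases e1 with
    | base =>
      exact fin 1 1 (by simp) (by rw [one_mul]; exact Acc.base (p - 1))
    | @step m' a b0 z0 γ0 hA0 k _ _ hk h1 h2 =>
      have hinv := hA0.inv hh
      have hk' := hk
      unfold next at hk'
      have hk1 : k ≠ 1 := by
        intro hk1
        rw [if_pos hk1] at hk'
        split_ifs at hk'
        simp only [Option.some.injEq, Prod.mk.injEq] at hk'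
        omega
      have hq : P.inv z0 + (k : ZMod (2 * h)) - 1 = P.inv z0 + ((k - 1 : ℕ) : ZMod (2 * h)) := by
        rw [Nat.cast_sub h1]
        push_cast
        ring
      by_cases hc : k = 2 ∧ a = h - 1
      · obtain ⟨rfl, rfl⟩ := hc
        have hIH := ih m' (by omega) _ _ _ hA0
        have hn : next h 1 h (2 * h - 2) = some (1, 2) := by
          unfold next
          rw [if_neg (by omega), if_neg (by omega), if_pos ⟨rfl, rfl⟩]
        have hB := Acc.step hIH (2 * h - 2) 1 2 hn (by omega) (by omega)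
        have hz : P.inv (P.inv (P.al (P.al z0))) + ((2 * h - 2 : ℕ) : ZMod (2 * h)) =
            P.be (P.al z0) := by
          rw [P.inv_inv, cast_two_mul_sub 2 (by omega), al_apply P (P.al z0), be_apply]
          push_cast
          ring
        rw [hz] at hB
        subst hj
        by_cases hj0 : j = 0
        · subst hj0
          have hB' := hB.rollB hh 0 (by omega)
          have hp : P.al z0 = P.inv z0 + ((2 : ℕ) : ZMod (2 * (0 + 3))) - 1 := by
            rw [al_apply]
            push_cast
            ring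
          refine hB'.cast (by omega) rfl (by omega) ?_ ?_
          · rw [key2, ← hP.al_inv_pow]
            show _ = P.inv (((P.al⁻¹) ^ (2 + 1)) _)
            rw [← be_pow_sub_one, ← hp, ← Equiv.Perm.mul_apply, ← pow_succ]
          · rw [key γ0 rfl, ← hP.half, ← hp]
            show _ = γ0 * P.pr P.be (P.al z0) (1 + 1 + 1)
            rw [P.pr_succ' P.be _ (1 + 1), P.pr_succ' P.be _ 1]
            simp only [mul_assoc]
        · obtain ⟨i, rfl⟩ : ∃ i, j = i + 1 := ⟨j - 1, by omega⟩
          have hB' := hB.rollB hh (i + 1) (by omega)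
          have hp : P.al z0 = P.inv z0 + ((2 : ℕ) : ZMod (2 * (i + 1 + 3))) - 1 := by
            rw [al_apply]
            push_cast
            ring
          refine hB'.cast (by omega) rfl (by omega) ?_ ?_
          · rw [key2, ← hP.al_inv_pow]
            show _ = P.inv (((P.al⁻¹) ^ (i + 3 + 1)) _)
            rw [← be_pow_sub_one, ← hp, ← Equiv.Perm.mul_apply, ← pow_succ]
          · rw [key γ0 rfl, ← hP.half, ← hp]
            show _ = γ0 * P.pr P.be (P.al z0) (i + 2 + 1 + 1)
            rw [P.pr_succ' P.be _ (i + 2 + 1), P.pr_succ' P.be _ (i + 2)]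
            simp only [mul_assoc]
      · -- the left neighbour is an accepted letter
        obtain ⟨a', ha'⟩ : ∃ a', next h a b0 (k - 1) = some (a', 1) := by
          unfold next
          by_cases c1 : k - 1 = 1
          · rw [if_pos c1, if_pos (by omega)]
            exact ⟨_, rfl⟩
          · rw [if_neg c1, if_neg (by omega), if_neg]
            · exact ⟨_, rfl⟩
            · rintro ⟨c2, c3⟩
              rw [if_neg hk1, if_pos (by omega), if_neg (by omega)] at hk'
              exact absurd hk' (by simp)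
        have hB := Acc.step hA0 (k - 1) a' 1 ha' (by omega) (by omega)
        rw [← hq] at hB
        exact fin γ0 a' rfl hB

/-- the second down edge from the state `(1, h)` -/
theorem Acc.claim2 (hP : P.Closed) (hh : 3 ≤ h) : ∀ (n : ℕ) (z : ZMod (2 * h)) (γ : G),
    P.Acc n 1 h z γ →
      ∃ z', P.Acc (n - 1) (h - 1) 1 z' (γ * P.lam (P.be z)) ∧ P.al z' = P.inv (P.be z) := by
  intro n
  induction n using Nat.strong_induction_on with
  | _ n ih =>
    intro z γ hA
    obtain ⟨m, q, γ2, e1, e2, e3, e4⟩ := hA.unrollB hh (by omega)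
    obtain ⟨j, hj⟩ : ∃ j, h = j + 3 := ⟨h - 3, by omega⟩
    -- reduction to the data at the bottom vertex
    have key : ∀ (δ : G) (p : ZMod (2 * h)), q = P.be (p - 1) →
        γ2 = δ * P.lam (p - 1) * P.lam q → z = (P.be ^ (h - 1)) (p - 1) ∧
          γ = δ * P.pr P.be (p - 1) h := by
      intro δ p hq hγ2
      subst hj
      constructor
      · rw [e3, hq]
        show (P.be ^ (j + 1)) (P.be (p - 1)) = (P.be ^ (j + 2)) (p - 1)
        rw [pow_succ P.be (j + 1)]
        rfl
      · rw [e4, hγ2, hq]
        show δ * P.lam (p - 1) * P.lam (P.be (p - 1)) * P.pr P.be (P.be (P.be (p - 1))) (j + 1) =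
          δ * P.pr P.be (p - 1) (j + 1 + 1 + 1)
        rw [P.pr_succ' P.be _ (j + 1 + 1), P.pr_succ' P.be _ (j + 1)]
        simp only [mul_assoc]
    have fin : ∀ (m0 b' : ℕ) (δ : G) (p : ZMod (2 * h)), q = P.be (p - 1) →
        γ2 = δ * P.lam (p - 1) * P.lam q → P.Acc m0 1 b' p (δ * P.lam p) → m0 + 1 = m →
        ∃ z', P.Acc (n - 1) (h - 1) 1 z' (γ * P.lam (P.be z)) ∧
          P.al z' = P.inv (P.be z) := by
      intro m0 b' δ p hq hγ2 hA' hm
      obtain ⟨k1, k2⟩ := key δ p hq hγ2
      obtain ⟨z', f1, f2⟩ := hA'.finish2 hP hh k1 k2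
      exact ⟨z', f1.cast (by omega) rfl rfl rfl rfl, f2⟩
    cases e1 with
    | @step m' a b0 z0 γ0 hA0 k _ _ hk h1 h2 =>
      have hinv := hA0.inv hh
      have hk' := hk
      unfold next at hk'
      split_ifs at hk' with c1 c2 c3 c4 c5 <;>
        simp only [Option.some.injEq, Prod.mk.injEq] at hk' <;> try omega
      · -- from a state `(a, 1)`
        obtain ⟨-, hb0⟩ := hk'
        obtain rfl : b0 = 1 := by omega
        subst c3
        have hq : P.inv z0 + ((2 * h - 1 : ℕ) : ZMod (2 * h)) = P.be z0 := by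
          rw [cast_two_mul_sub 1 (by omega), be_apply]
          push_cast
          ring
        cases hA0 with
        | base =>
          refine fin 1 1 1 (z0 + 1) ?_ ?_ ?_ rfl
          · rw [hq, add_sub_cancel_right]
          · rw [add_sub_cancel_right, one_mul]
          · rw [one_mul]
            exact Acc.base _
        | @step m'' a0 b00 z00 γ00 hA00 k0 _ _ hk0 h10 h20 =>
          have hinv0 := hA00.inv hh
          have hk0' := hk0
          unfold next at hk0'
          have hk01 : k0 ≠ 2 * h - 1 := by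
            intro hk1
            rw [if_neg (by omega), if_pos hk1] at hk0'
            split_ifs at hk0'
            simp only [Option.some.injEq, Prod.mk.injEq] at hk0'
            omega
          obtain ⟨b', hb'⟩ : ∃ b', next h a0 b00 (k0 + 1) = some (1, b') := by
            unfold next
            rw [if_neg (by omega)]
            by_cases d1 : k0 + 1 = 2 * h - 1
            · rw [if_pos d1, if_pos]
              · exact ⟨_, rfl⟩
              · by_contra hcon
                rw [if_neg (by omega), if_neg hk01, if_pos ⟨by omega, by omega⟩] at hk0'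
                simp only [Option.some.injEq, Prod.mk.injEq] at hk0'
                omega
            · rw [if_neg d1]
              split_ifs
              · exact ⟨_, rfl⟩
              · exact ⟨_, rfl⟩
          have hB := Acc.step hA00 (k0 + 1) 1 b' hb' (by omega) (by omega)
          have hp : P.inv z00 + ((k0 + 1 : ℕ) : ZMod (2 * h)) =
              P.inv z00 + (k0 : ZMod (2 * h)) + 1 := by
            push_cast
            ring
          rw [hp] at hB
          refine fin _ b' γ00 _ ?_ ?_ hB rfl
          · rw [hq, add_sub_cancel_right]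
          · rw [add_sub_cancel_right]
      · -- from the state `(1, h)`
        obtain ⟨rfl, rfl⟩ := c5
        obtain rfl : a = 1 := hinv.2.2.2.2.2.2 (by omega)
        obtain ⟨z', f1, f2⟩ := ih m' (by omega) _ _ hA0
        have hn : next b0 (b0 - 1) 1 2 = some (1, 1) := by
          unfold next
          rw [if_neg (by omega), if_neg (by omega), if_neg (by omega)]
        have hB := Acc.step f1 2 1 1 hn (by omega) (by omega)
        have hp : P.inv z' + ((2 : ℕ) : ZMod (2 * b0)) = P.inv (P.be z0) + 1 := by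
          rw [← f2, al_apply]
          push_cast
          ring
        rw [hp] at hB
        have hq : P.inv z0 + ((2 * b0 - 2 : ℕ) : ZMod (2 * b0)) =
            P.be (P.inv (P.be z0) + 1 - 1) := by
          rw [add_sub_cancel_right, be_apply P (P.inv (P.be z0)), P.inv_inv,
            cast_two_mul_sub 2 (by omega), be_apply]
          push_cast
          ring
        refine fin _ 1 (γ0 * P.lam (P.be z0)) _ hq ?_ hB ?_
        · rw [add_sub_cancel_right, P.lam_inv, mul_assoc γ0, mul_inv_cancel, mul_one]
        · omega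

/-- closure of the set of accepted elements under right multiplication by letters -/
theorem Acc.mul_letter [NeZero h] (hP : P.Closed) (hh : 3 ≤ h) {n a b : ℕ} {z : ZMod (2 * h)} {γ : G}
    (hA : P.Acc n a b z γ) (y : ZMod (2 * h)) :
    γ * P.lam y = 1 ∨ ∃ n' a' b' z', n' ≤ n + 1 ∧ P.Acc n' a' b' z' (γ * P.lam y) := by
  have hN : NeZero (2 * h) := ⟨by omega⟩
  have hinv := hA.inv hh
  set k : ℕ := (y - P.inv z).val with hk
  have hkval : (k : ZMod (2 * h)) = y - P.inv z := by
    rw [hk, ZMod.natCast_zmod_val]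
  have hklt : k < 2 * h := ZMod.val_lt _
  have hy : y = P.inv z + (k : ZMod (2 * h)) := by
    rw [hkval]
    ring
  by_cases hk0 : k = 0
  · -- back to the predecessor
    rw [hk0] at hy
    have hy' : P.lam y = (P.lam z)⁻¹ := by
      rw [hy, Nat.cast_zero, add_zero, P.lam_inv]
    rw [hy']
    cases hA with
    | base => left; simp
    | @step m' a0 b0 z0 γ0 hA0 k _ _ hk h1 h2 =>
      right
      refine ⟨m', a0, b0, z0, by omega, ?_⟩
      rw [mul_assoc, mul_inv_cancel, mul_one]
      exact hA0
  · right
    rcases hnext : next h a b k with _ | ⟨a', b'⟩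
    · unfold next at hnext
      split_ifs at hnext with c1 c2 c3 c4 c5
      · -- claim 1
        obtain rfl : a = h - 1 := by omega
        have h1 := Acc.claim1 hP hh _ _ _ _ hA
        have h2 : y = P.al z := by
          rw [hy, c1, al_apply]
          push_cast
          ring
        rw [h2]
        exact ⟨_, _, _, _, le_rfl, h1⟩
      · -- claim 2
        obtain rfl : b = h := by omega
        obtain rfl : a = 1 := hinv.2.2.2.2.2.2 (by omega)
        obtain ⟨z', h1, -⟩ := Acc.claim2 hP hh _ _ _ hA
        have h2 : y = P.be z := by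
          rw [hy, c3, be_apply, cast_two_mul_sub 1 (by omega)]
          push_cast
          ring
        rw [h2]
        exact ⟨_, _, _, _, by omega, h1⟩
    · have h1 := Acc.step hA k a' b' hnext (by omega) (by omega)
      rw [← hy] at h1
      exact ⟨_, _, _, _, le_rfl, h1⟩

end Planar

end Pool.Agent.SurfExact
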