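import Mathlib
import Pool.Agent.SurfExact.Upper2
import Pool.Agent.SurfGrowth.Growth

set_option autoImplicit false

namespace Pool.Agent.SurfExact

open Finset Pool.Agent.SurfGrowth

/-- data of an eigenvector for the automaton -/
structure Weights (h : ℕ) (x : ℝ) where
  A : ℕ → ℝ
  B : ℕ → ℝ
  A_one : A 1 = 1
  B_one : B 1 = 1
  A_step : ∀ a, 1 ≤ a → a + 1 ≤ h - 1 → x * A a = A (a + 1) + B 2 + (2 * (h : ℝ) - 3)
  A_last : x * A (h - 1) = B 2 + (2 * (h : ℝ) - 3)
  B_step : ∀ b, 1 ≤ b → b + 1 ≤ h → x * B b = A 2 + B (b + 1) + (2 * (h : ℝ) - 3)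
  B_last : x * B h = A 2 + B 2 + (2 * (h : ℝ) - 4)
  c : ℝ
  c_pos : 0 < c
  le_A : ∀ a, 1 ≤ a → a ≤ h - 1 → c ≤ A a
  le_B : ∀ b, 1 ≤ b → b ≤ h → c ≤ B b

theorem exists_weights (h : ℕ) (hh : 3 ≤ h) (x : ℝ) (hx : 1 < x)
    (hroot : x ^ h + 1 = (2 * (h : ℝ) - 2) * ∑ i ∈ range (h - 1), x ^ (i + 1)) :
    Nonempty (Weights h x) := by
  have hx0 : 0 < x := by linarith
  set u : ℝ := x⁻¹ with hu
  have hu0 : 0 < u := inv_pos.mpr hx0
  have hu1 : u < 1 := inv_lt_one_of_one_lt₀ hx
  have hxu : x * u = 1 := mul_inv_cancel₀ hx0.ne'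
  let T : ℕ → ℝ := fun m => ∑ j ∈ range m, u ^ (j + 1)
  have hT0 : ∀ m, 0 ≤ T m := fun m => sum_nonneg (fun j _ => by positivity)
  have hTs : ∀ m, x * T (m + 1) = 1 + T m := by
    intro m
    simp only [T]
    rw [sum_range_succ', mul_add, mul_sum]
    rw [zero_add, pow_one, hxu, add_comm]
    congr 1
    apply sum_congr rfl
    intro j _
    rw [pow_succ' u (j + 1), ← mul_assoc, hxu, one_mul]
  have hTs' : ∀ m, T (m + 1) = T m + u ^ (m + 1) := by
    intro m
    simp only [T]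
    rw [sum_range_succ]
  have hTpos : ∀ m, 1 ≤ m → u ≤ T m := by
    intro m hm
    obtain ⟨k, rfl⟩ : ∃ k, m = k + 1 := ⟨m - 1, by omega⟩
    simp only [T]
    rw [sum_range_succ', zero_add, pow_one]
    have : 0 ≤ ∑ k ∈ range k, u ^ (k + 1 + 1) := sum_nonneg (fun j _ => by positivity)
    linarith
  obtain ⟨j, rfl⟩ : ∃ j, h = j + 3 := ⟨h - 3, by omega⟩
  -- the root equation in terms of `u`
  have hT : (2 * ((j + 3 : ℕ) : ℝ) - 2) * T (j + 2) = 1 + u ^ (j + 3) := by
    have h1 : u ^ (j + 3) * ∑ i ∈ range (j + 3 - 1), x ^ (i + 1) = T (j + 2) := by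
      rw [show j + 3 - 1 = j + 2 by omega]
      simp only [T]
      rw [← sum_range_reflect, mul_sum]
      apply sum_congr rfl
      intro i hi
      rw [mem_range] at hi
      have h2 : u ^ (j + 3) = u ^ (i + 1) * u ^ (j + 2 - 1 - i + 1) := by
        rw [← pow_add]
        congr 1
        omega
      rw [h2, mul_assoc, ← mul_pow, mul_comm u x, hxu, one_pow, mul_one]
    rw [← h1]
    have h3 : u ^ (j + 3) * (x ^ (j + 3) + 1) = 1 + u ^ (j + 3) := by
      rw [mul_add, ← mul_pow, mul_comm u x, hxu, one_pow, mul_one]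
    rw [← h3, hroot]
    ring
  have hS : 0 < T (j + 2) := lt_of_lt_of_le hu0 (hTpos _ (by omega))
  set p : ℝ := (T (j + 2))⁻¹ with hp
  have hp0 : 0 < p := inv_pos.mpr hS
  have hpS : p * T (j + 2) = 1 := inv_mul_cancel₀ hS.ne'
  set q : ℝ := p * T (j + 1) + (2 * ((j + 3 : ℕ) : ℝ) - 3) with hq
  have hq0 : 0 ≤ q := by
    have h1 : 0 ≤ p * T (j + 1) := mul_nonneg hp0.le (hT0 _)
    have h2 : (3 : ℝ) ≤ ((j + 3 : ℕ) : ℝ) := by
      push_cast
      have : (0 : ℝ) ≤ (j : ℝ) := Nat.cast_nonneg j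
      linarith
    rw [hq]
    linarith
  let A : ℕ → ℝ := fun a => p * T (j + 3 - a)
  let B : ℕ → ℝ := fun b => q * T (j + 3 - b) + (1 - u) * u ^ (j + 3 - b)
  have hA1 : A 1 = 1 := hpS
  have hA2 : A 2 = p * T (j + 1) := rfl
  have hpT : p * T (j + 2) = p * T (j + 1) + p * u ^ (j + 2) := by
    rw [hTs' (j + 1)]
    ring
  have hB1 : B 1 = 1 := by
    show q * T (j + 2) + (1 - u) * u ^ (j + 2) = 1
    have h1 : p * T (j + 1) = 1 - p * u ^ (j + 2) := by linarith
    rw [hq, h1]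
    have h2 : (1 - p * u ^ (j + 2) + (2 * ((j + 3 : ℕ) : ℝ) - 3)) * T (j + 2) =
        (2 * ((j + 3 : ℕ) : ℝ) - 2) * T (j + 2) - u ^ (j + 2) * (p * T (j + 2)) := by ring
    rw [h2, hT, hpS]
    ring
  have hBrec : ∀ b, 1 ≤ b → b + 1 ≤ j + 3 → x * B b = q + B (b + 1) := by
    intro b hb1 hb2
    obtain ⟨m, hm⟩ : ∃ m, j + 3 - b = m + 1 := ⟨j + 3 - b - 1, by omega⟩
    have hm' : j + 3 - (b + 1) = m := by omega
    simp only [B]
    rw [hm, hm']
    have h1 := hTs m
    have h2 : x * u ^ (m + 1) = u ^ m := by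
      rw [pow_succ', ← mul_assoc, hxu, one_mul]
    have h3 : x * (q * T (m + 1) + (1 - u) * u ^ (m + 1)) =
        q * (x * T (m + 1)) + (1 - u) * (x * u ^ (m + 1)) := by ring
    rw [h3, h1, h2]
    ring
  have hArec : ∀ a, 1 ≤ a → a + 1 ≤ j + 3 → x * A a = p + A (a + 1) := by
    intro a ha1 ha2
    obtain ⟨m, hm⟩ : ∃ m, j + 3 - a = m + 1 := ⟨j + 3 - a - 1, by omega⟩
    have hm' : j + 3 - (a + 1) = m := by omega
    simp only [A]
    rw [hm, hm']
    have h1 := hTs m
    have h3 : x * (p * T (m + 1)) = p * (x * T (m + 1)) := by ring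
    rw [h3, h1]
    ring
  have hqA : q = A 2 + (2 * ((j + 3 : ℕ) : ℝ) - 3) := rfl
  have hpB : p = B 2 + (2 * ((j + 3 : ℕ) : ℝ) - 3) := by
    have h1 := hBrec 1 le_rfl (by omega)
    have h2 := hArec 1 le_rfl (by omega)
    norm_num only at h1 h2
    rw [hB1] at h1
    rw [hA1] at h2
    linarith
  have hA3 : A (j + 3) = 0 := by
    show p * T (j + 3 - (j + 3)) = 0
    rw [Nat.sub_self]
    simp [T]
  have hB3 : B (j + 3) = 1 - u := by
    show q * T (j + 3 - (j + 3)) + (1 - u) * u ^ (j + 3 - (j + 3)) = 1 - u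
    rw [Nat.sub_self]
    simp [T]
  refine ⟨⟨A, B, hA1, hB1, ?_, ?_, ?_, ?_, min (p * u) ((1 - u) * u ^ (j + 3)), ?_, ?_, ?_⟩⟩
  · intro a h1 h2
    rw [hArec a h1 (by omega)]
    linarith
  · have h1 := hArec (j + 2) (by omega) le_rfl
    have h2 : A (j + 2 + 1) = 0 := hA3
    show x * A (j + 2) = _
    rw [h1, h2]
    linarith
  · intro b h1 h2
    rw [hBrec b h1 h2]
    linarith
  · rw [hB3, mul_sub, mul_one, hxu]
    have h2 := hArec 1 le_rfl (by omega)
    norm_num only at h2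
    rw [hA1] at h2
    linarith
  · exact lt_min (mul_pos hp0 hu0) (mul_pos (by linarith) (by positivity))
  · intro a h1 h2
    refine (min_le_left _ _).trans ?_
    simp only [A]
    exact mul_le_mul_of_nonneg_left (hTpos _ (by omega)) hp0.le
  · intro b h1 h2
    refine (min_le_right _ _).trans ?_
    simp only [B]
    have h3 : 0 ≤ q * T (j + 3 - b) := mul_nonneg hq0 (hT0 _)
    have h4 : u ^ (j + 3) ≤ u ^ (j + 3 - b) :=
      pow_le_pow_of_le_one hu0.le hu1.le (Nat.sub_le _ _)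
    have h5 : (1 - u) * u ^ (j + 3) ≤ (1 - u) * u ^ (j + 3 - b) :=
      mul_le_mul_of_nonneg_left h4 (by linarith)
    linarith

namespace Planar

variable {G : Type*} [Group G] {h : ℕ} (P : Planar h G)

/-- one-step successors of a path -/
def succs (s : ℕ × ℕ × ZMod (2 * h) × G) : List (ℕ × ℕ × ZMod (2 * h) × G) :=
  (List.range (2 * h - 1)).filterMap (fun k => (next h s.1 s.2.1 (k + 1)).map
    (fun ab => (ab.1, ab.2, P.inv s.2.2.1 + ((k + 1 : ℕ) : ZMod (2 * h)),
      s.2.2.2 * P.lam (P.inv s.2.2.1 + ((k + 1 : ℕ) : ZMod (2 * h))))))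

/-- accepted words of length `n + 1` -/
noncomputable def paths [Fintype (ZMod (2 * h))] : ℕ → List (ℕ × ℕ × ZMod (2 * h) × G)
  | 0 => ((univ : Finset (ZMod (2 * h))).toList).map (fun y => (1, 1, y, P.lam y))
  | n + 1 => (paths n).flatMap P.succs

variable {P}

theorem mem_paths [Fintype (ZMod (2 * h))] {n a b : ℕ} {z : ZMod (2 * h)} {γ : G}
    (hA : P.Acc n a b z γ) :
    ∃ m, n = m + 1 ∧ (a, b, z, γ) ∈ P.paths m := by
  induction hA with
  | base y =>
    refine ⟨0, rfl, ?_⟩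
    unfold paths
    rw [List.mem_map]
    exact ⟨y, by simp, rfl⟩
  | @step n a b z γ hA k a' b' hk h1 h2 ih =>
    obtain ⟨m, rfl, hm⟩ := ih
    refine ⟨m + 1, rfl, ?_⟩
    unfold paths
    rw [List.mem_flatMap]
    refine ⟨_, hm, ?_⟩
    unfold succs
    rw [List.mem_filterMap]
    refine ⟨k - 1, ?_, ?_⟩
    · rw [List.mem_range]
      omega
    · have : k - 1 + 1 = k := by omega
      rw [this]
      simp only [hk, Option.map_some]

theorem acc_of_mem_paths [Fintype (ZMod (2 * h))] {n : ℕ} {s : ℕ × ℕ × ZMod (2 * h) × G}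
    (hs : s ∈ P.paths n) : P.Acc (n + 1) s.1 s.2.1 s.2.2.1 s.2.2.2 := by
  induction n generalizing s with
  | zero =>
    unfold paths at hs
    rw [List.mem_map] at hs
    obtain ⟨y, -, rfl⟩ := hs
    exact Acc.base y
  | succ n ih =>
    unfold paths at hs
    rw [List.mem_flatMap] at hs
    obtain ⟨t, ht, hs⟩ := hs
    unfold succs at hs
    rw [List.mem_filterMap] at hs
    obtain ⟨k, hk, hs⟩ := hs
    rw [List.mem_range] at hk
    rw [Option.map_eq_some_iff] at hs
    obtain ⟨⟨a', b'⟩, h1, rfl⟩ := hs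
    exact Acc.step (ih ht) (k + 1) a' b' h1 (by omega) (by omega)

/-- weight of a state -/
def wt {x : ℝ} (W : Weights h x) (a b : ℕ) : ℝ := if b = 1 then W.A a else W.B b

theorem sum_filterMap {α β : Type*} (f : α → Option β) (w : β → ℝ) (l : List α) :
    ((l.filterMap f).map w).sum = (l.map (fun k => (f k).elim 0 w)).sum := by
  induction l with
  | nil => simp
  | cons a l ih =>
    rw [List.filterMap_cons, List.map_cons, List.sum_cons]
    rcases hfa : f a with _ | b
    · simp [ih]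
    · simp [ih]

theorem list_sum_range (f : ℕ → ℝ) (n : ℕ) :
    ((List.range n).map f).sum = ∑ k ∈ range n, f k := by
  induction n with
  | zero => simp
  | succ n ih => rw [List.range_succ, List.map_append, List.sum_append, ih, sum_range_succ]; simp

theorem wt_succs (hh : 3 ≤ h) {x : ℝ} (W : Weights h x) {n a b : ℕ} {z : ZMod (2 * h)} {γ : G}
    (hA : P.Acc n a b z γ) :
    ((P.succs (a, b, z, γ)).map (fun s => wt W s.1 s.2.1)).sum = x * wt W a b := by
  have hinv := hA.inv hh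
  unfold succs
  rw [sum_filterMap]
  have h0 : ∀ k, (Option.elim ((next h a b (k + 1)).map
    (fun ab => (ab.1, ab.2, P.inv z + ((k + 1 : ℕ) : ZMod (2 * h)),
      γ * P.lam (P.inv z + ((k + 1 : ℕ) : ZMod (2 * h)))))) 0
        (fun s : ℕ × ℕ × ZMod (2 * h) × G => wt W s.1 s.2.1)) =
      (next h a b (k + 1)).elim 0 (fun s => wt W s.1 s.2) := by
    intro k
    rcases next h a b (k + 1) with _ | s
    · rfl
    · rfl
  simp only [h0]
  clear h0
  rw [list_sum_range (fun k => (next h a b (k + 1)).elim 0 (fun s => wt W s.1 s.2))]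
  obtain ⟨j, rfl⟩ : ∃ j, h = j + 3 := ⟨h - 3, by omega⟩
  rw [show 2 * (j + 3) - 1 = ((2 * j + 2) + 1) + 1 + 1 by omega, sum_range_succ, sum_range_succ,
    sum_range_succ']
  have hmid : ∀ k ∈ range (2 * j + 2),
      (next (j + 3) a b (k + 1 + 1)).elim 0 (fun s => wt W s.1 s.2) = 1 := by
    intro k hk
    rw [mem_range] at hk
    have : next (j + 3) a b (k + 1 + 1) = some (1, 1) := by
      unfold next
      rw [if_neg (by omega), if_neg (by omega), if_neg (by omega)]
    rw [this]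
    show wt W 1 1 = 1
    unfold wt
    rw [if_pos rfl, W.A_one]
  rw [sum_congr rfl hmid, sum_const, card_range, nsmul_eq_mul, mul_one]
  have hA2 : wt W 2 1 = W.A 2 := by unfold wt; rw [if_pos rfl]
  have e1 : next (j + 3) a b (0 + 1) = if a + 1 ≤ j + 3 - 1 then some (a + 1, 1) else none := by
    unfold next
    rw [if_pos rfl]
  have e3 : next (j + 3) a b (2 * j + 2 + 1 + 1 + 1) =
      if b + 1 ≤ j + 3 then some (1, b + 1) else none := by
    unfold next
    rw [if_neg (by omega), if_pos (by omega)]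
  have e2 : next (j + 3) a b (2 * j + 2 + 1 + 1) =
      if b = j + 3 then some (1, 2) else some (1, 1) := by
    unfold next
    rw [if_neg (by omega), if_neg (by omega)]
    by_cases hb : b = j + 3
    · rw [if_pos ⟨by omega, hb⟩, if_pos hb]
    · rw [if_neg (fun h => hb h.2), if_neg hb]
  rw [e1, e2, e3]
  have hj : ((j + 3 : ℕ) : ℝ) = (j : ℝ) + 3 := by push_cast; ring
  have hj2 : ((2 * j + 2 : ℕ) : ℝ) = 2 * (j : ℝ) + 2 := by push_cast; ring
  rw [hj2]
  have w12 : wt W 1 2 = W.B 2 := by unfold wt; rw [if_neg (by omega)]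
  have w11 : wt W 1 1 = 1 := by unfold wt; rw [if_pos rfl, W.A_one]
  by_cases hb1 : b = 1
  · subst hb1
    have wa : wt W a 1 = W.A a := by unfold wt; rw [if_pos rfl]
    rw [wa, if_neg (by omega : ¬ (1 = j + 3)), if_pos (by omega : 1 + 1 ≤ j + 3)]
    show 2 * (j : ℝ) + 2 + _ + wt W 1 1 + wt W 1 2 = _
    rw [w11, w12]
    by_cases ha : a + 1 ≤ j + 3 - 1
    · rw [if_pos ha]
      show 2 * (j : ℝ) + 2 + wt W (a + 1) 1 + 1 + W.B 2 = _
      have wa' : wt W (a + 1) 1 = W.A (a + 1) := by unfold wt; rw [if_pos rfl]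
      rw [wa', W.A_step a (by omega) ha, hj]
      ring
    · rw [if_neg ha]
      have ha' : a = j + 3 - 1 := by omega
      rw [ha', W.A_last, hj]
      show 2 * (j : ℝ) + 2 + 0 + 1 + W.B 2 = _
      ring
  · have ha1 : a = 1 := hinv.2.2.2.2.2.2 (by omega)
    subst ha1
    have wb : wt W 1 b = W.B b := by unfold wt; rw [if_neg hb1]
    rw [wb, if_pos (by omega : 1 + 1 ≤ j + 3 - 1)]
    by_cases hb : b = j + 3
    · subst hb
      rw [if_pos rfl, if_neg (by omega), W.B_last, hj]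
      show 2 * (j : ℝ) + 2 + wt W (1 + 1) 1 + wt W 1 2 + 0 = _
      rw [show (1 : ℕ) + 1 = 2 from rfl, hA2, w12]
      ring
    · rw [if_neg hb, if_pos (by omega : b + 1 ≤ j + 3), W.B_step b (by omega) (by omega), hj]
      show 2 * (j : ℝ) + 2 + wt W (1 + 1) 1 + wt W 1 1 + wt W 1 (b + 1) = _
      have wb' : wt W 1 (b + 1) = W.B (b + 1) := by unfold wt; rw [if_neg (by omega)]
      rw [show (1 : ℕ) + 1 = 2 from rfl, hA2, w11, wb']
      ring

theorem sum_flatMap {α β : Type*} (f : α → List β) (w : β → ℝ) (l : List α) :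
    ((l.flatMap f).map w).sum = (l.map (fun s => ((f s).map w).sum)).sum := by
  induction l with
  | nil => simp
  | cons a l ih =>
    rw [List.flatMap_cons, List.map_append, List.sum_append, ih, List.map_cons, List.sum_cons]

theorem wt_paths [Fintype (ZMod (2 * h))] (hh : 3 ≤ h) {x : ℝ} (W : Weights h x) (n : ℕ) :
    ((P.paths n).map (fun s => wt W s.1 s.2.1)).sum =
      x ^ n * (Fintype.card (ZMod (2 * h)) : ℝ) := by
  induction n with
  | zero =>
    unfold paths
    rw [List.map_map]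
    have : ((fun s : ℕ × ℕ × ZMod (2 * h) × G => wt W s.1 s.2.1) ∘ fun y => (1, 1, y, P.lam y)) =
        fun _ => (1 : ℝ) := by
      funext y
      show wt W 1 1 = 1
      unfold wt
      rw [if_pos rfl, W.A_one]
    rw [this]
    simp
  | succ n ih =>
    unfold paths
    rw [sum_flatMap]
    have h1 : ∀ s ∈ P.paths n, ((P.succs s).map (fun s => wt W s.1 s.2.1)).sum =
        x * wt W s.1 s.2.1 := fun s hs => wt_succs hh W (acc_of_mem_paths hs)
    rw [List.map_congr_left h1]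
    have h2 : ∀ l : List (ℕ × ℕ × ZMod (2 * h) × G), (l.map (fun s => x * wt W s.1 s.2.1)).sum =
        x * (l.map (fun s => wt W s.1 s.2.1)).sum := by
      intro l
      induction l with
      | nil => simp
      | cons a l ih =>
        simp only [List.map_cons, List.sum_cons, ih]
        ring
    rw [h2, ih]
    ring

theorem wt_ge (hh : 3 ≤ h) {x : ℝ} (W : Weights h x) {n a b : ℕ} {z : ZMod (2 * h)} {γ : G}
    (hA : P.Acc n a b z γ) : W.c ≤ wt W a b := by
  have hinv := hA.inv hh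
  unfold wt
  split_ifs
  · exact W.le_A a (by omega) (by omega)
  · exact W.le_B b (by omega) (by omega)

theorem length_paths_le [Fintype (ZMod (2 * h))] (hh : 3 ≤ h) {x : ℝ} (W : Weights h x) (n : ℕ) :
    ((P.paths n).length : ℝ) ≤ x ^ n * (Fintype.card (ZMod (2 * h)) : ℝ) / W.c := by
  rw [le_div_iff₀ W.c_pos, ← wt_paths (P := P) hh W n]
  have h1 : ∀ s ∈ P.paths n, W.c ≤ wt W s.1 s.2.1 := by
    intro s hs
    exact wt_ge (P := P) hh W (acc_of_mem_paths hs)
  have h2 : ∀ l : List (ℕ × ℕ × ZMod (2 * h) × G), (∀ s ∈ l, W.c ≤ wt W s.1 s.2.1) →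
      (l.length : ℝ) * W.c ≤ (l.map (fun s => wt W s.1 s.2.1)).sum := by
    intro l
    induction l with
    | nil => intro _; simp
    | cons s l ih =>
      intro hl
      rw [List.map_cons, List.sum_cons, List.length_cons]
      have := ih (fun t ht => hl t (List.mem_cons_of_mem _ ht))
      have := hl s List.mem_cons_self
      push_cast
      linarith
  exact h2 _ h1

end Planar

end Pool.Agent.SurfExact
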