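import Mathlib
import Pool.Agent.SurfExact.Upper3
import Pool.Agent.SurfGrowth.Surface

set_option autoImplicit false

namespace Pool.Agent.SurfExact

open Finset Pool.Agent.SurfGrowth

namespace Planar

variable {G : Type*} [Group G] {h : ℕ} {P : Planar h G}

theorem wordBall_subset [NeZero h] [Fintype (ZMod (2 * h))] (hP : P.Closed) (hh : 3 ≤ h)
    (S : Finset G) (hS : ∀ s ∈ S, ∃ y, P.lam y = s) (n : ℕ) (w : G) (hw : w ∈ wordBall S n) :
    w = 1 ∨ ∃ m < n, ∃ s ∈ P.paths m, s.2.2.2 = w := by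
  obtain ⟨l, hl, hlS, rfl⟩ := hw
  have key : ∀ l : List G, (∀ s ∈ l, s ∈ S ∨ s⁻¹ ∈ S) →
      l.reverse.prod = 1 ∨ ∃ m a b z, m ≤ l.length ∧ P.Acc m a b z l.reverse.prod := by
    intro l
    induction l with
    | nil => intro _; left; simp
    | cons s l ih =>
      intro hl
      have ih' := ih (fun t ht => hl t (List.mem_cons_of_mem _ ht))
      obtain ⟨y, hy⟩ : ∃ y, P.lam y = s := by
        rcases hl s List.mem_cons_self with h1 | h1
        · exact hS s h1
        · obtain ⟨y, hy⟩ := hS _ h1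
          exact ⟨P.inv y, by rw [P.lam_inv, hy, _root_.inv_inv]⟩
      rw [List.reverse_cons, List.prod_append, List.prod_singleton, ← hy]
      rcases ih' with h1 | ⟨m, a, b, z, hm, hA⟩
      · right
        rw [h1, one_mul]
        exact ⟨1, 1, 1, y, by simp, Acc.base y⟩
      · rcases hA.mul_letter hP hh y with h2 | ⟨n', a', b', z', hn', hA'⟩
        · exact Or.inl h2
        · exact Or.inr ⟨n', a', b', z', by simp; omega, hA'⟩
  have h1 := key l.reverse (by simpa using hlS)
  rw [List.reverse_reverse, List.length_reverse] at h1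
  rcases h1 with h1 | ⟨m, a, b, z, hm, hA⟩
  · exact Or.inl h1
  · right
    obtain ⟨m', rfl, hm'⟩ := mem_paths hA
    exact ⟨m', by omega, _, hm', rfl⟩

theorem beta_le [NeZero h] [Fintype (ZMod (2 * h))] (hP : P.Closed) (hh : 3 ≤ h)
    (S : Finset G) (hS : ∀ s ∈ S, ∃ y, P.lam y = s) {x : ℝ} (hx : 1 < x) (W : Weights h x) :
    ∃ D : ℝ, 1 ≤ D ∧ ∀ n, (beta S n : ℝ) ≤ D * x ^ n := by
  classical
  set C : ℝ := (Fintype.card (ZMod (2 * h)) : ℝ) / W.c with hC
  have hC0 : 0 ≤ C := div_nonneg (Nat.cast_nonneg _) W.c_pos.le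
  refine ⟨1 + C / (x - 1), ?_, ?_⟩
  · have : 0 ≤ C / (x - 1) := div_nonneg hC0 (by linarith)
    linarith
  · intro n
    let T : Finset G := insert 1 ((range n).biUnion
      (fun m => ((P.paths m).map (fun s => s.2.2.2)).toFinset))
    have h1 : wordBall S n ⊆ (T : Set G) := by
      intro w hw
      simp only [T, coe_insert, Set.mem_insert_iff, mem_coe, mem_biUnion, mem_range,
        List.mem_toFinset, List.mem_map]
      rcases wordBall_subset hP hh S hS n w hw with h1 | ⟨m, hm, s, hs, rfl⟩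
      · exact Or.inl h1
      · exact Or.inr ⟨m, hm, s, hs, rfl⟩
    have h2 : beta S n ≤ T.card := by
      unfold beta
      rw [← Set.ncard_coe_finset]
      exact Set.ncard_le_ncard h1 (finite_toSet _)
    have h3 : (T.card : ℝ) ≤ 1 + ∑ m ∈ range n, x ^ m * C := by
      have h4 : T.card ≤ ∑ m ∈ range n, (P.paths m).length + 1 := by
        refine (card_insert_le _ _).trans ?_
        refine Nat.add_le_add_right ?_ 1
        refine card_biUnion_le.trans ?_
        refine sum_le_sum (fun m _ => ?_)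
        refine (List.toFinset_card_le _).trans ?_
        rw [List.length_map]
      have h5 : (T.card : ℝ) ≤ ∑ m ∈ range n, ((P.paths m).length : ℝ) + 1 := by exact_mod_cast h4
      have h6 : ∑ m ∈ range n, ((P.paths m).length : ℝ) ≤ ∑ m ∈ range n, x ^ m * C := by
        refine sum_le_sum (fun m _ => ?_)
        have := length_paths_le (P := P) hh W m
        rw [hC, ← mul_div_assoc]
        exact this
      linarith
    have h4 : ∑ m ∈ range n, x ^ m * C = C * (x ^ n - 1) / (x - 1) := by
      rw [← sum_mul, geom_sum_eq (by linarith : x ≠ 1)]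
      ring
    have h5 : (beta S n : ℝ) ≤ (T.card : ℝ) := by exact_mod_cast h2
    rw [h4] at h3
    have h6 : 1 ≤ x ^ n := one_le_pow₀ hx.le
    have hx1 : 0 < x - 1 := by linarith
    have h7 : C * (x ^ n - 1) / (x - 1) ≤ C / (x - 1) * x ^ n := by
      have e : C / (x - 1) * x ^ n = C * x ^ n / (x - 1) := by ring
      rw [e, div_le_div_iff_of_pos_right hx1]
      nlinarith
    calc (beta S n : ℝ) ≤ 1 + C * (x ^ n - 1) / (x - 1) := h5.trans h3
      _ ≤ 1 * x ^ n + C / (x - 1) * x ^ n := by linarith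
      _ = (1 + C / (x - 1)) * x ^ n := by ring

end Planar

theorem growthRate_le_of_bound {G : Type*} [Group G] (S : Finset G) (x D : ℝ) (hx : 1 < x)
    (hD : ∀ n, (beta S n : ℝ) ≤ D * x ^ n) : growthRate S ≤ ENNReal.ofReal x := by
  have hx0 : 0 < x := by linarith
  refine le_of_forall_gt_imp_ge_of_dense ?_
  intro y hy
  rcases eq_or_ne y ⊤ with rfl | hytop
  · exact le_top
  obtain ⟨z, rfl⟩ : ∃ z : ℝ, y = ENNReal.ofReal z := ⟨y.toReal, (ENNReal.ofReal_toReal hytop).symm⟩
  have hz : x < z := by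
    rw [ENNReal.ofReal_lt_ofReal_iff'] at hy
    exact hy.1
  have hz0 : 0 < z := by linarith
  have h1 : 1 < z / x := by rwa [one_lt_div hx0]
  have h2 := tendsto_pow_atTop_atTop_of_one_lt h1
  have h3 := h2.eventually_ge_atTop D
  unfold growthRate
  refine Filter.limsup_le_of_le ?_ ?_
  · isBoundedDefault
  · filter_upwards [h3, Filter.eventually_gt_atTop 0] with n hn hn0
    have h4 : (beta S n : ℝ) ≤ z ^ n := by
      refine (hD n).trans ?_
      have h5 : D * x ^ n ≤ (z / x) ^ n * x ^ n :=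
        mul_le_mul_of_nonneg_right hn (by positivity)
      have h6 : (z / x) ^ n * x ^ n = z ^ n := by
        rw [← mul_pow, div_mul_cancel₀ _ hx0.ne']
      rwa [h6] at h5
    have h5 : (beta S n : ENNReal) ≤ (ENNReal.ofReal z) ^ n := by
      rw [← ENNReal.ofReal_pow hz0.le, ← ENNReal.ofReal_natCast]
      exact ENNReal.ofReal_le_ofReal h4
    have hn' : (n : ℝ) ≠ 0 := by exact_mod_cast hn0.ne'
    calc (beta S n : ENNReal) ^ (1 / (n : ℝ)) ≤ ((ENNReal.ofReal z) ^ n) ^ (1 / (n : ℝ)) :=
          ENNReal.rpow_le_rpow h5 (by positivity)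
      _ = ENNReal.ofReal z := by
        rw [← ENNReal.rpow_natCast, ← ENNReal.rpow_mul]
        field_simp
        simp

end Pool.Agent.SurfExact
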