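import Mathlib
import Pool.Agent.SurfExact.Upper4

set_option autoImplicit false

namespace Pool.Agent.SurfExact

open Finset Pool.Agent.SurfGrowth
open scoped commutatorElement

/-- the inverse letter, on representatives -/
def invN (v : ℕ) : ℕ := 4 * (v / 4) + (v + 2) % 4

theorem invN_invN (v : ℕ) : invN (invN v) = v := by
  unfold invN
  omega

section

variable (g : ℕ) [NeZero g]

/-- the letter at position `v` of the star of a vertex -/
def lamN (v : ℕ) : SurfaceGroup g :=
  if v % 4 = 0 then SurfaceGroup.gen (⟨(v / 4) % g, Nat.mod_lt _ (NeZero.pos g)⟩, false)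
  else if v % 4 = 1 then (SurfaceGroup.gen (⟨(v / 4) % g, Nat.mod_lt _ (NeZero.pos g)⟩, true))⁻¹
  else if v % 4 = 2 then (SurfaceGroup.gen (⟨(v / 4) % g, Nat.mod_lt _ (NeZero.pos g)⟩, false))⁻¹
  else SurfaceGroup.gen (⟨(v / 4) % g, Nat.mod_lt _ (NeZero.pos g)⟩, true)

theorem lamN_invN (v : ℕ) : lamN g (invN v) = (lamN g v)⁻¹ := by
  have h1 : invN v / 4 = v / 4 := by unfold invN; omega
  have h2 : invN v % 4 = (v + 2) % 4 := by unfold invN; omega
  unfold lamN
  simp only [h1, h2]
  have h3 : v % 4 = 0 ∨ v % 4 = 1 ∨ v % 4 = 2 ∨ v % 4 = 3 := by omega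
  rcases h3 with h3 | h3 | h3 | h3
  · have h4 : (v + 2) % 4 = 2 := by omega
    rw [h3, h4]
    simp
  · have h4 : (v + 2) % 4 = 3 := by omega
    rw [h3, h4]
    simp
  · have h4 : (v + 2) % 4 = 0 := by omega
    rw [h3, h4]
    simp
  · have h4 : (v + 2) % 4 = 1 := by omega
    rw [h3, h4]
    simp

theorem mod_div (v : ℕ) : (v % (2 * (2 * g))) / 4 = (v / 4) % g := by
  rw [show 2 * (2 * g) = 4 * g by ring]
  exact Nat.mod_mul_right_div_self v 4 g

theorem mod_mod (v : ℕ) : (v % (2 * (2 * g))) % 4 = v % 4 := by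
  rw [show 2 * (2 * g) = 4 * g by ring]
  exact Nat.mod_mod_of_dvd v (Dvd.intro g rfl)

theorem lamN_mod (v : ℕ) : lamN g (v % (2 * (2 * g))) = lamN g v := by
  unfold lamN
  simp only [mod_div, mod_mod, Nat.mod_mod]

theorem invN_mod (v : ℕ) : ((invN (v % (2 * (2 * g))) : ℕ) : ZMod (2 * (2 * g))) =
    ((invN v : ℕ) : ZMod (2 * (2 * g))) := by
  rw [ZMod.natCast_eq_natCast_iff]
  have h1 : v = (2 * (2 * g)) * (v / (2 * (2 * g))) + v % (2 * (2 * g)) := (Nat.div_add_mod _ _).symm
  have h2 : invN v = (2 * (2 * g)) * (v / (2 * (2 * g))) + invN (v % (2 * (2 * g))) := by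
    set t := v / (2 * (2 * g)) with ht
    set w := v % (2 * (2 * g)) with hw
    rw [h1]
    unfold invN
    have h3 : 2 * (2 * g) * t = 4 * (g * t) := by ring
    rw [h3]
    omega
  rw [h2]
  unfold Nat.ModEq
  rw [Nat.mul_add_mod]

/-- the planar data of the standard presentation -/
noncomputable def planar : Planar (2 * g) (SurfaceGroup g) where
  inv :=
    haveI : NeZero (2 * (2 * g)) := ⟨by have := NeZero.ne g; omega⟩
    { toFun := fun m => ((invN m.val : ℕ) : ZMod (2 * (2 * g)))
      invFun := fun m => ((invN m.val : ℕ) : ZMod (2 * (2 * g)))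
      left_inv := by
        intro m
        show ((invN (((invN m.val : ℕ) : ZMod (2 * (2 * g))).val) : ℕ) : ZMod (2 * (2 * g))) = m
        rw [ZMod.val_natCast, invN_mod, invN_invN, ZMod.natCast_zmod_val]
      right_inv := by
        intro m
        show ((invN (((invN m.val : ℕ) : ZMod (2 * (2 * g))).val) : ℕ) : ZMod (2 * (2 * g))) = m
        rw [ZMod.val_natCast, invN_mod, invN_invN, ZMod.natCast_zmod_val] }
  inv_inv := by
    have : NeZero (2 * (2 * g)) := ⟨by have := NeZero.ne g; omega⟩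
    intro m
    show ((invN (((invN m.val : ℕ) : ZMod (2 * (2 * g))).val) : ℕ) : ZMod (2 * (2 * g))) = m
    rw [ZMod.val_natCast, invN_mod, invN_invN, ZMod.natCast_zmod_val]
  lam := fun m => lamN g m.val
  lam_inv := by
    have : NeZero (2 * (2 * g)) := ⟨by have := NeZero.ne g; omega⟩
    intro m
    show lamN g (((invN m.val : ℕ) : ZMod (2 * (2 * g))).val) = (lamN g m.val)⁻¹
    rw [ZMod.val_natCast, lamN_mod, lamN_invN]

theorem planar_inv (v : ℕ) : (planar g).inv (v : ZMod (2 * (2 * g))) =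
    ((invN v : ℕ) : ZMod (2 * (2 * g))) := by
  show ((invN ((v : ZMod (2 * (2 * g))).val) : ℕ) : ZMod (2 * (2 * g))) = _
  rw [ZMod.val_natCast, invN_mod]

theorem planar_lam (v : ℕ) : (planar g).lam (v : ZMod (2 * (2 * g))) = lamN g v := by
  show lamN g ((v : ZMod (2 * (2 * g))).val) = _
  rw [ZMod.val_natCast, lamN_mod]

theorem planar_al (v : ℕ) : (planar g).al (v : ZMod (2 * (2 * g))) =
    ((invN v + 1 : ℕ) : ZMod (2 * (2 * g))) := by
  rw [Planar.al_apply, planar_inv]
  push_cast
  ring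

theorem planar_al4 (v : ℕ) : ((planar g).al ^ 4) (v : ZMod (2 * (2 * g))) =
    ((v + 4 : ℕ) : ZMod (2 * (2 * g))) := by
  show (planar g).al ((planar g).al ((planar g).al ((planar g).al (v : ZMod (2 * (2 * g)))))) = _
  rw [planar_al, planar_al, planar_al, planar_al]
  congr 1
  unfold invN
  omega

theorem planar_al4mul (j v : ℕ) : ((planar g).al ^ (4 * j)) (v : ZMod (2 * (2 * g))) =
    ((v + 4 * j : ℕ) : ZMod (2 * (2 * g))) := by
  induction j with
  | zero => simp
  | succ j ih =>
    rw [show 4 * (j + 1) = 4 + 4 * j by ring, pow_add, Equiv.Perm.mul_apply, ih, planar_al4]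
    congr 1
    omega

theorem exists_cast (z : ZMod (2 * (2 * g))) : ∃ v : ℕ, (v : ZMod (2 * (2 * g))) = z := by
  have : NeZero (2 * (2 * g)) := ⟨by have := NeZero.ne g; omega⟩
  exact ⟨z.val, ZMod.natCast_zmod_val z⟩

theorem planar_al_pow : (planar g).al ^ (2 * g + 2 * g) = 1 := by
  ext z
  obtain ⟨v, rfl⟩ := exists_cast g z
  rw [show 2 * g + 2 * g = 4 * g by ring, planar_al4mul, Equiv.Perm.one_apply]
  have : ((v + 4 * g : ℕ) : ZMod (2 * (2 * g))) = v := by
    have h1 : ((2 * (2 * g) : ℕ) : ZMod (2 * (2 * g))) = 0 := ZMod.natCast_self _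
    rw [show v + 4 * g = v + 2 * (2 * g) by ring, Nat.cast_add, h1, add_zero]
  rw [this]

theorem planar_pr_zero (j : ℕ) (hj : j ≤ g) : (planar g).pr (planar g).al 0 (4 * j) =
    ((List.ofFn (fun i : Fin g => ⁅SurfaceGroup.gen (g := g) (i, false),
      SurfaceGroup.gen (i, true)⁆)).take j).prod := by
  induction j with
  | zero => simp
  | succ j ih =>
    rw [List.prod_take_succ _ _ (by rw [List.length_ofFn]; omega), ← ih (by omega),
      List.getElem_ofFn]
    have e : 4 * (j + 1) = 4 * j + 1 + 1 + 1 + 1 := by ring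
    have z0 : (0 : ZMod (2 * (2 * g))) = ((0 : ℕ) : ZMod (2 * (2 * g))) := by simp
    have e0 : ((planar g).al ^ (4 * j)) 0 = ((4 * j : ℕ) : ZMod (2 * (2 * g))) := by
      rw [z0, planar_al4mul, zero_add]
    have e1 : ((planar g).al ^ (4 * j + 1)) 0 = ((4 * j + 3 : ℕ) : ZMod (2 * (2 * g))) := by
      rw [pow_succ', Equiv.Perm.mul_apply, e0, planar_al]
      congr 1
      unfold invN
      omega
    have e2 : ((planar g).al ^ (4 * j + 1 + 1)) 0 = ((4 * j + 2 : ℕ) : ZMod (2 * (2 * g))) := by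
      rw [pow_succ', Equiv.Perm.mul_apply, e1, planar_al]
      congr 1
      unfold invN
      omega
    have e3 : ((planar g).al ^ (4 * j + 1 + 1 + 1)) 0 =
        ((4 * j + 1 : ℕ) : ZMod (2 * (2 * g))) := by
      rw [pow_succ', Equiv.Perm.mul_apply, e2, planar_al]
      congr 1
      unfold invN
      omega
    rw [e, Planar.pr_succ, Planar.pr_succ, Planar.pr_succ, Planar.pr_succ, e0, e1, e2, e3,
      planar_lam, planar_lam, planar_lam, planar_lam]
    have hjg : j % g = j := Nat.mod_eq_of_lt (by omega)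
    have l0 : lamN g (4 * j) = SurfaceGroup.gen (⟨j, by omega⟩, false) := by
      unfold lamN
      have h1 : 4 * j % 4 = 0 := by omega
      have h2 : 4 * j / 4 % g = j := by rw [show 4 * j / 4 = j by omega]; exact hjg
      rw [if_pos h1]
      simp only [h2]
    have l1 : lamN g (4 * j + 3) = SurfaceGroup.gen (⟨j, by omega⟩, true) := by
      unfold lamN
      have h1 : (4 * j + 3) % 4 = 3 := by omega
      have h2 : (4 * j + 3) / 4 % g = j := by rw [show (4 * j + 3) / 4 = j by omega]; exact hjg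
      simp only [h1, h2]
      simp
    have l2 : lamN g (4 * j + 2) = (SurfaceGroup.gen (⟨j, by omega⟩, false))⁻¹ := by
      unfold lamN
      have h1 : (4 * j + 2) % 4 = 2 := by omega
      have h2 : (4 * j + 2) / 4 % g = j := by rw [show (4 * j + 2) / 4 = j by omega]; exact hjg
      simp only [h1, h2]
      simp
    have l3 : lamN g (4 * j + 1) = (SurfaceGroup.gen (⟨j, by omega⟩, true))⁻¹ := by
      unfold lamN
      have h1 : (4 * j + 1) % 4 = 1 := by omega
      have h2 : (4 * j + 1) / 4 % g = j := by rw [show (4 * j + 1) / 4 = j by omega]; exact hjg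
      simp only [h1, h2]
      simp
    rw [l0, l1, l2, l3, commutatorElement_def]
    simp only [mul_assoc]

theorem planar_closed : (planar g).Closed := by
  refine ⟨planar_al_pow g, ?_⟩
  have h0 : (planar g).pr (planar g).al 0 (2 * g + 2 * g) = 1 := by
    rw [show 2 * g + 2 * g = 4 * g by ring, planar_pr_zero g g le_rfl, ← SurfaceGroup.rel_eq_one]
    congr 1
    rw [List.take_of_length_le]
    rw [List.length_ofFn]
  have hstep : ∀ z, (planar g).pr (planar g).al z (2 * g + 2 * g) = 1 →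
      (planar g).pr (planar g).al ((planar g).al z) (2 * g + 2 * g) = 1 := by
    intro z hz
    have h1 := Planar.pr_succ' (planar g) (planar g).al z (2 * g + 2 * g)
    rw [Planar.pr_succ, hz, planar_al_pow, one_mul, Equiv.Perm.one_apply] at h1
    exact (mul_eq_left.mp h1.symm)
  have hpow : ∀ k, (planar g).pr (planar g).al (((planar g).al ^ k) 0) (2 * g + 2 * g) = 1 := by
    intro k
    induction k with
    | zero => exact h0
    | succ k ih =>
      rw [pow_succ', Equiv.Perm.mul_apply]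
      exact hstep _ ih
  intro z
  obtain ⟨v, rfl⟩ := exists_cast g z
  have z0 : (0 : ZMod (2 * (2 * g))) = ((0 : ℕ) : ZMod (2 * (2 * g))) := by simp
  have e0 : ((planar g).al ^ (4 * (v / 4))) 0 = ((4 * (v / 4) : ℕ) : ZMod (2 * (2 * g))) := by
    rw [z0, planar_al4mul, zero_add]
  have e1 : ((planar g).al ^ (4 * (v / 4) + 1)) 0 =
      ((4 * (v / 4) + 3 : ℕ) : ZMod (2 * (2 * g))) := by
    rw [pow_succ', Equiv.Perm.mul_apply, e0, planar_al]
    congr 1
    unfold invN
    omega
  have e2 : ((planar g).al ^ (4 * (v / 4) + 1 + 1)) 0 =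
      ((4 * (v / 4) + 2 : ℕ) : ZMod (2 * (2 * g))) := by
    rw [pow_succ', Equiv.Perm.mul_apply, e1, planar_al]
    congr 1
    unfold invN
    omega
  have e3 : ((planar g).al ^ (4 * (v / 4) + 1 + 1 + 1)) 0 =
      ((4 * (v / 4) + 1 : ℕ) : ZMod (2 * (2 * g))) := by
    rw [pow_succ', Equiv.Perm.mul_apply, e2, planar_al]
    congr 1
    unfold invN
    omega
  have h3 : v % 4 = 0 ∨ v % 4 = 1 ∨ v % 4 = 2 ∨ v % 4 = 3 := by omega
  rcases h3 with h3 | h3 | h3 | h3
  · have : v = 4 * (v / 4) := by omega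
    rw [this, ← e0]
    exact hpow _
  · have : v = 4 * (v / 4) + 1 := by omega
    rw [this, ← e3]
    exact hpow _
  · have : v = 4 * (v / 4) + 2 := by omega
    rw [this, ← e2]
    exact hpow _
  · have : v = 4 * (v / 4) + 3 := by omega
    rw [this, ← e1]
    exact hpow _

end

/-- **Upper bound**: the standard generators of the genus `g` surface group have growth rate at
most the root `x > 1` of `x^(2g) + 1 = (4g - 2)(x + x^2 + ... + x^(2g-1))`. -/
theorem minGrowth_le (g : ℕ) (hg : 2 ≤ g) (x : ℝ) (hx : 1 < x)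
    (hroot : x ^ (2 * g) + 1 = (4 * (g : ℝ) - 2) * ∑ i ∈ range (2 * g - 1), x ^ (i + 1)) :
    minGrowth (SurfaceGroup g) ≤ ENNReal.ofReal x := by
  classical
  have : NeZero g := ⟨by omega⟩
  have : NeZero (2 * (2 * g)) := ⟨by omega⟩
  have : NeZero (2 * g) := ⟨by omega⟩
  have hroot' : x ^ (2 * g) + 1 =
      (2 * ((2 * g : ℕ) : ℝ) - 2) * ∑ i ∈ range (2 * g - 1), x ^ (i + 1) := by
    rw [hroot]
    push_cast
    ring
  obtain ⟨W⟩ := exists_weights (2 * g) (by omega) x hx hroot'
  let S : Finset (SurfaceGroup g) := (univ : Finset (Fin g × Bool)).image SurfaceGroup.gen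
  have hS : Subgroup.closure (S : Set (SurfaceGroup g)) = ⊤ := by
    have h1 : (S : Set (SurfaceGroup g)) = Set.range PresentedGroup.of := by
      ext w
      simp only [S, coe_image, coe_univ, Set.image_univ]
      rfl
    rw [h1]
    exact PresentedGroup.closure_range_of _
  have hlam : ∀ s ∈ S, ∃ y, (planar g).lam y = s := by
    intro s hs
    rw [mem_image] at hs
    obtain ⟨⟨i, b⟩, -, rfl⟩ := hs
    cases b
    · refine ⟨((4 * i.1 : ℕ) : ZMod (2 * (2 * g))), ?_⟩
      rw [planar_lam]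
      unfold lamN
      have h1 : 4 * i.1 % 4 = 0 := by omega
      have h2 : 4 * i.1 / 4 % g = i.1 := by
        rw [show 4 * i.1 / 4 = i.1 by omega]
        exact Nat.mod_eq_of_lt i.2
      rw [if_pos h1]
      simp only [h2]
    · refine ⟨((4 * i.1 + 3 : ℕ) : ZMod (2 * (2 * g))), ?_⟩
      rw [planar_lam]
      unfold lamN
      have h1 : (4 * i.1 + 3) % 4 = 3 := by omega
      have h2 : (4 * i.1 + 3) / 4 % g = i.1 := by
        rw [show (4 * i.1 + 3) / 4 = i.1 by omega]
        exact Nat.mod_eq_of_lt i.2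
      simp only [h1, h2]
      simp
  obtain ⟨D, -, hD⟩ := Planar.beta_le (planar_closed g) (by omega) S hlam hx W
  unfold minGrowth
  exact (iInf₂_le S hS).trans (growthRate_le_of_bound S x D hx hD)

end Pool.Agent.SurfExact
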