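import Pool.Agent.SurfExact.MainIneq
import Pool.Agent.SurfExact.Prune
import Pool.Agent.SurfExact.Numeric2
import Pool.Agent.SurfExact.StdOf
import Pool.Agent.SurfExact.StdCount
import Pool.Agent.SurfExact.Upper5
import Pool.Agent.SurfGrowth.Growth

/-!
# MP_5bf54f_al: the minimal exponential growth rate of surface groups
-/

set_option autoImplicit false
set_option linter.unusedSectionVars false

namespace Pool.Agent.SurfExact

open Function Pool.Agent.SurfGrowth Finset

/-- Balls and homomorphisms. -/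
theorem mem_ball_map {G H : Type*} [Group G] [Group H] {ι : Type*} [Fintype ι] (j : H →* G)
    (x : ι → H) (n : ℕ) (w : G) :
    w ∈ ball (fun i => j (x i)) n ↔ ∃ u ∈ ball x n, j u = w := by
  have hl : ∀ l : ι × Bool, letter (fun i => j (x i)) l = j (letter x l) := by
    rintro ⟨t, b⟩
    cases b <;> simp [letter]
  induction n generalizing w with
  | zero =>
    simp only [ball_zero, mem_singleton]
    constructor
    · rintro rfl
      exact ⟨1, rfl, map_one j⟩
    · rintro ⟨u, rfl, rfl⟩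
      exact map_one j
  | succ n ih =>
    rw [mem_ball_succ]
    constructor
    · rintro (h | ⟨u, hu, l, rfl⟩)
      · obtain ⟨u, hu, rfl⟩ := (ih w).1 h
        exact ⟨u, ball_subset_succ x n hu, rfl⟩
      · obtain ⟨u', hu', rfl⟩ := (ih u).1 hu
        exact ⟨u' * letter x l, mul_letter_mem x hu' l, by rw [map_mul, hl]⟩
    · rintro ⟨u, hu, rfl⟩
      rw [mem_ball_succ] at hu
      rcases hu with h | ⟨u', hu', l, rfl⟩
      · exact Or.inl ((ih _).2 ⟨u, h, rfl⟩)
      · exact Or.inr ⟨j u', (ih _).2 ⟨u', hu', rfl⟩, l, by rw [map_mul, hl]⟩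

theorem card_ball_map {G H : Type*} [Group G] [Group H] {ι : Type*} [Fintype ι] (j : H →* G)
    (hj : Injective j) (x : ι → H) (n : ℕ) :
    (ball (fun i => j (x i)) n).card = (ball x n).card := by
  classical
  have h1 : ball (fun i => j (x i)) n = (ball x n).image j := by
    ext w
    rw [mem_ball_map, mem_image]
  rw [h1, card_image_of_injective _ hj]

/-- The dichotomy: growth of `2g` independent elements. -/
theorem ball_lower {g : ℕ} (hg : 2 ≤ g) {H : Type} [Group H] (j : H →* SurfaceGroup g)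
    (hj : Injective j) {ι : Type} [Fintype ι] [DecidableEq ι] (hι : Fintype.card ι = 2 * g)
    (x : ι → H) (hx : Subgroup.closure (Set.range x) = ⊤)
    (hind : LinearIndependent ℚ (fun i => Multiplicative.toAdd (SurfaceGroup.ab (j (x i)))))
    (z : ℝ) (hz : 1 < z)
    (hroot : z ^ (2 * g) + 1 = (4 * (g : ℝ) - 2) * ∑ i ∈ range (2 * g - 1), z ^ (i + 1)) :
    ∃ C : ℝ, 0 < C ∧ ∀ n, z ^ n ≤ C * (ball x n).card := by
  classical
  have hd : 3 ≤ Fintype.card ι := by omega
  have hne : Nonempty ι := by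
    rw [← Fintype.card_pos_iff]
    omega
  have hg2 : (2 : ℝ) ≤ g := by exact_mod_cast hg
  have hcast : ((Fintype.card ι : ℕ) : ℝ) = 2 * (g : ℝ) := by rw [hι]; push_cast; ring
  have hroot' : z ^ (Fintype.card ι) + 1 =
      (2 * ((Fintype.card ι : ℕ) : ℝ) - 2) * ∑ i ∈ range (Fintype.card ι - 1), z ^ (i + 1) := by
    rw [hcast, hι, hroot]
    ring
  obtain ⟨χ, hχ⟩ := exists_chi hg j hj hι x hx hind
  -- the sum of the coordinates
  obtain ⟨ε, hε⟩ : ∃ ε : H →* Multiplicative ℚ, ∀ t, Multiplicative.toAdd (ε (x t)) = 1 := by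
    obtain ⟨ε₀, hε₀⟩ := SurfaceGroup.exists_char (fun i => j (x i)) hind
    exact ⟨ε₀.comp j, hε₀⟩
  have hx1 : ∀ s, x s ≠ 1 := by
    intro s h
    have := hε s
    rw [h] at this
    simp at this
  have hV0 : (((V x 0 : ℤ)) : ℝ) = 1 := by simp [V_zero]
  have hb0 : ∀ n, (0 : ℝ) ≤ ((bt x n : ℤ) : ℝ) := fun n => by exact_mod_cast bt_nonneg x hx1 n
  have hrec : ∀ n, ((V x (n + 1) : ℤ) : ℝ) = (2 * ((Fintype.card ι : ℕ) : ℝ) - 1) *
      ((V x n : ℤ) : ℝ) + 2 - ((bt x n : ℤ) : ℝ) - ((bt x (n + 1) : ℤ) : ℝ) := by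
    intro n
    have := V_rec x hε n
    have h2 : ((V x (n + 1) : ℤ) : ℝ) = (((2 * (Fintype.card ι : ℤ) - 1) * V x n + 2 - bt x n -
      bt x (n + 1) : ℤ) : ℝ) := by rw [this]
    rw [h2]
    push_cast
    ring
  by_cases hall : ∀ s, Pg x s ⊓ Pc x s ≠ ⊥
  · -- standard type
    obtain ⟨ρ, c, γ, k, hcyc, hck, hrow⟩ := caseC hg j hj hι x hx hind χ hχ univ
      univ_nonempty (fun s _ => hall s)
    have hU := uniqueProds_sub hg j hj hι x hx hind
    obtain ⟨S⟩ := std_of_all x hx hd (noZeroDivisors_of_uniqueProds hU) ρ hcyc γ k c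
      (fun s => (hck s (mem_univ s)).1) (fun s => (hck s (mem_univ s)).2) χ hχ hrow
    refine ⟨3 * (Fintype.card ι : ℕ), by positivity, fun n => ?_⟩
    have h1 := numeric_std (Fintype.card ι) hd (fun n => ((V x n : ℤ) : ℝ))
      (fun n => ((bt x n : ℤ) : ℝ)) hV0 hb0 (fun n => by exact_mod_cast bt_mono x n)
      (fun n => by
        have : (ball x n).card ≤ (ball x (n + 1)).card := card_le_card (ball_subset_succ x n)
        show ((V x n : ℤ) : ℝ) ≤ ((V x (n + 1) : ℤ) : ℝ)
        unfold V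
        exact_mod_cast this)
      hrec
      (fun n hn => by
        have h2 := std_small S n hn
        have h3 := bt_nonneg x hx1 n
        have h4 : bt x n = 0 := le_antisymm h2 h3
        show ((bt x n : ℤ) : ℝ) = 0
        rw [h4, Int.cast_zero])
      (fun N => by
        have h2 := std_count S N
        have h3 : (((bt x (N + Fintype.card ι) + bt x N : ℤ)) : ℝ) ≤
          (((2 * (Fintype.card ι : ℤ) - 2) * V x N + 2 : ℤ) : ℝ) := by exact_mod_cast h2
        push_cast at h3
        exact h3)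
      z hz hroot' n
    refine h1.trans (le_of_eq ?_)
    simp [V]
  · -- the main inequality holds
    push Not at hall
    refine ⟨1, one_pos, fun n => ?_⟩
    have hI := prune x hd ε hε (fun A hA => main_ineq hg j hj hι x hx hind hall A hA)
    have h1 := numeric_prune (Fintype.card ι) hd (fun n => ((V x n : ℤ) : ℝ))
      (fun n => ((bt x n : ℤ) : ℝ)) hV0 hb0 hrec
      (fun N => by
        have h2 : (((bt x N + 2 * ∑ j ∈ range (Fintype.card ι - 2), bt x (N + j + 1) +
          bt x (N + Fintype.card ι - 1) + 1 : ℤ)) : ℝ) ≤ ((V x N : ℤ) : ℝ) := by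
          exact_mod_cast hI N
        push_cast at h2
        exact h2)
      z hz hroot' n
    rw [one_mul]
    refine h1.trans (le_of_eq ?_)
    simp [V]

/-- The lower bound for the minimal growth rate. -/
theorem le_minGrowth (g : ℕ) (hg : 2 ≤ g) (z : ℝ) (hz : 1 < z)
    (hroot : z ^ (2 * g) + 1 = (4 * (g : ℝ) - 2) * ∑ i ∈ range (2 * g - 1), z ^ (i + 1)) :
    ENNReal.ofReal z ≤ minGrowth (SurfaceGroup g) := by
  classical
  unfold minGrowth
  refine le_iInf₂ ?_
  intro S hS
  obtain ⟨ι, hι, y, hcard, hyS, hlin⟩ := SurfaceGroup.exists_indep S hS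
  set H : Subgroup (SurfaceGroup g) := Subgroup.closure (Set.range y) with hH
  let x : ι → H := fun i => ⟨y i, Subgroup.subset_closure ⟨i, rfl⟩⟩
  have hx : Subgroup.closure (Set.range x) = ⊤ := by
    have h1 : Set.range x = (Subtype.val : H → SurfaceGroup g) ⁻¹' (Set.range y) := by
      ext w
      constructor
      · rintro ⟨i, rfl⟩
        exact ⟨i, rfl⟩
      · rintro ⟨i, hi⟩
        exact ⟨i, Subtype.ext hi⟩
    rw [h1]
    exact Subgroup.closure_closure_coe_preimage
  obtain ⟨C, hC, hCn⟩ := ball_lower hg H.subtype H.subtype_injective hcard x hx hlin z hz hroot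
  refine le_growthRate_const y S hyS z C (by linarith) hC (fun n => ?_)
  have h2 : (ball y n).card = (ball x n).card := card_ball_map H.subtype H.subtype_injective x n
  rw [h2]
  exact hCn n

/-- **The minimal exponential growth rate of the surface group of genus `g ≥ 2`.** -/
theorem minGrowth_eq (g : ℕ) (hg : 2 ≤ g) (z : ℝ) (hz : 1 < z)
    (hroot : z ^ (2 * g) + 1 = (4 * (g : ℝ) - 2) * ∑ i ∈ range (2 * g - 1), z ^ (i + 1)) :
    minGrowth (SurfaceGroup g) = ENNReal.ofReal z :=
  le_antisymm (minGrowth_le g hg z hz hroot) (le_minGrowth g hg z hz hroot)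

end Pool.Agent.SurfExact
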