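import Pool.Agent.SurfExact.DefsB

/-!
# Basic facts: coset sums, crossed homomorphisms, Fox derivatives
-/

set_option autoImplicit false

namespace Pool.Agent.SurfExact

open Function

section Basic

set_option linter.unusedSectionVars false

variable {G : Type*} [Group G]

theorem el_eq_single (g : G) : el g = MonoidAlgebra.single g 1 := rfl

theorem el_coeff (g : G) : (el g).coeff = Finsupp.single g 1 := rfl

theorem elmul_coeff (c : G) (y : QG G) (g : G) : (el c * y).coeff g = y.coeff (c⁻¹ * g) := by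
  rw [el_eq_single, MonoidAlgebra.coeff_single_mul_apply]
  simp

theorem mulel_coeff (c : G) (y : QG G) (g : G) : (y * el c).coeff g = y.coeff (g * c⁻¹) := by
  rw [el_eq_single, MonoidAlgebra.coeff_mul_single_apply]
  simp

/-- Elements of the group ring are rational combinations of group elements. -/
theorem QG_eq_sum (y : QG G) : y = y.coeff.sum (fun g c => c • el g) := by
  conv_lhs => rw [← MonoidAlgebra.sum_coeff_single y]
  refine Finsupp.sum_congr fun g _ => ?_
  rw [el_eq_single, MonoidAlgebra.smul_single, smul_eq_mul, mul_one]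

/-- Pairing an element of the group ring with a function on the group. -/
noncomputable def pairL {M : Type*} [AddCommGroup M] [Module ℚ M] (ψ : G → M) : QG G →ₗ[ℚ] M :=
  (Finsupp.lsum ℚ (fun g : G => (LinearMap.id (R := ℚ) (M := ℚ)).smulRight (ψ g))).comp
    (MonoidAlgebra.coeffLinearEquiv ℚ).toLinearMap

theorem pairL_apply {M : Type*} [AddCommGroup M] [Module ℚ M] (ψ : G → M) (y : QG G) :
    pairL ψ y = y.coeff.sum (fun g c => c • ψ g) := by
  simp [pairL]

theorem pairL_el {M : Type*} [AddCommGroup M] [Module ℚ M] (ψ : G → M) (g : G) :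
    pairL ψ (el g) = ψ g := by
  rw [pairL_apply, el_coeff, Finsupp.sum_single_index (by simp), one_smul]

/-- Linear maps on the group ring are determined by the group elements. -/
theorem linext {M : Type*} [AddCommGroup M] [Module ℚ M] {L L' : QG G →ₗ[ℚ] M}
    (h : ∀ g, L (el g) = L' (el g)) : L = L' := by
  apply LinearMap.ext
  intro y
  rw [QG_eq_sum y, Finsupp.sum, map_sum, map_sum]
  refine Finset.sum_congr rfl fun g _ => ?_
  rw [map_smul, map_smul, h]

theorem pairL_elmul {M : Type*} [AddCommGroup M] [Module ℚ M] (ψ : G → M) (c : G) (y : QG G) :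
    pairL ψ (el c * y) = pairL (fun g => ψ (c * g)) y := by
  have h : (pairL ψ).comp (LinearMap.mulLeft ℚ (el c)) = pairL (fun g => ψ (c * g)) := by
    apply linext
    intro g
    rw [LinearMap.comp_apply, LinearMap.mulLeft_apply, ← el_mul, pairL_el, pairL_el]
  exact LinearMap.congr_fun h y

theorem pairL_mulel {M : Type*} [AddCommGroup M] [Module ℚ M] (ψ : G → M) (c : G) (y : QG G) :
    pairL ψ (y * el c) = pairL (fun g => ψ (g * c)) y := by
  have h : (pairL ψ).comp (LinearMap.mulRight ℚ (el c)) = pairL (fun g => ψ (g * c)) := by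
    apply linext
    intro g
    rw [LinearMap.comp_apply, LinearMap.mulRight_apply, ← el_mul, pairL_el, pairL_el]
  exact LinearMap.congr_fun h y

/-- Pairing an element with vanishing coset sums and an invariant function. -/
theorem ZS.pair {A : Subgroup G} {y : QG G} (h : ZS A y) {M : Type*} [AddCommGroup M] [Module ℚ M]
    (ψ : G → M) (hψ : ∀ g, ∀ a ∈ A, ψ (g * a) = ψ g) : pairL ψ y = 0 := by
  let Ψ : G ⧸ A → M := Quotient.lift ψ (by
    intro a b hab
    have h1 : a⁻¹ * b ∈ A := QuotientGroup.leftRel_apply.1 hab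
    have h2 := hψ a _ h1
    rw [mul_inv_cancel_left] at h2
    exact h2.symm)
  have h1 : (Finsupp.mapDomain (fun g : G => (g : G ⧸ A)) y.coeff).sum (fun q c => c • Ψ q) = 0 := by
    rw [show Finsupp.mapDomain (fun g : G => (g : G ⧸ A)) y.coeff = 0 from h]
    exact Finsupp.sum_zero_index
  rw [Finsupp.sum_mapDomain_index (by simp) (by intros; rw [add_smul])] at h1
  rw [pairL_apply]
  exact h1

/-- Criterion for vanishing coset sums. -/
theorem ZS_of {A : Subgroup G} {y : QG G}
    (h : ∀ ψ : G → ℚ, (∀ g, ∀ a ∈ A, ψ (g * a) = ψ g) → pairL ψ y = 0) :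
    ZS A y := by
  classical
  unfold ZS
  ext q
  obtain ⟨g₀, rfl⟩ := QuotientGroup.mk_surjective q
  have h1 := h (fun g => if (g : G ⧸ A) = (g₀ : G ⧸ A) then 1 else 0) (by
    intro g a ha
    have : ((g * a : G) : G ⧸ A) = (g : G ⧸ A) := by
      rw [QuotientGroup.eq]
      simpa using A.inv_mem ha
    rw [this])
  rw [pairL_apply] at h1
  rw [Finsupp.mapDomain, Finsupp.sum, Finsupp.finsetSum_apply]
  simp only [Finsupp.coe_zero, Pi.zero_apply]
  rw [← h1, Finsupp.sum]
  refine Finset.sum_congr rfl fun g _ => ?_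
  rw [Finsupp.single_apply]
  split_ifs <;> simp

theorem ZS.mono {A B : Subgroup G} (hAB : A ≤ B) {y : QG G} (h : ZS A y) : ZS B y :=
  ZS_of fun ψ hψ => h.pair ψ (fun g a ha => hψ g a (hAB ha))

theorem ZS_zero {A : Subgroup G} : ZS A (0 : QG G) := by simp [ZS]

theorem ZS.add {A : Subgroup G} {y z : QG G} (hy : ZS A y) (hz : ZS A z) : ZS A (y + z) := by
  unfold ZS at *
  rw [MonoidAlgebra.coeff_add, Finsupp.mapDomain_add, hy, hz, add_zero]

theorem ZS.smul {A : Subgroup G} {y : QG G} (c : ℚ) (hy : ZS A y) : ZS A (c • y) := by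
  unfold ZS at *
  rw [MonoidAlgebra.coeff_smul, Finsupp.mapDomain_smul, hy, smul_zero]

theorem ZS.neg {A : Subgroup G} {y : QG G} (hy : ZS A y) : ZS A (-y) := by
  have := hy.smul (-1)
  simpa using this

theorem ZS.sub {A : Subgroup G} {y z : QG G} (hy : ZS A y) (hz : ZS A z) : ZS A (y - z) := by
  rw [sub_eq_add_neg]
  exact hy.add hz.neg

theorem ZS.elmul {A : Subgroup G} {y : QG G} (c : G) (hy : ZS A y) : ZS A (el c * y) := by
  apply ZS_of
  intro ψ hψ
  rw [pairL_elmul]
  exact hy.pair (fun g => ψ (c * g)) (fun g a ha => by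
    simp only [← mul_assoc]
    exact hψ _ a ha)

theorem ZS.mul {A : Subgroup G} {y : QG G} (c : QG G) (hy : ZS A y) : ZS A (c * y) := by
  rw [QG_eq_sum c, Finsupp.sum, Finset.sum_mul]
  refine Finset.sum_induction _ (ZS A) (fun _ _ => ZS.add) ZS_zero ?_
  intro g _
  rw [smul_mul_assoc]
  exact (hy.elmul g).smul _

/-- `b - 1` has vanishing sums over the left cosets of a subgroup containing `b`. -/
theorem ZS_of_sub_one {A : Subgroup G} {b : G} (hb : b ∈ A) : ZS A (el b - 1) := by
  apply ZS_of
  intro ψ hψ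
  rw [map_sub, pairL_el, ← el_one, pairL_el]
  have := hψ 1 b hb
  rw [one_mul] at this
  rw [this, sub_self]

/-- Elements supported in `Y` with vanishing sums over the left cosets of two subgroups. -/
def zsIn (A B : Subgroup G) (Y : Finset G) : Submodule ℚ (QG G) where
  carrier := {y | (∀ g, y.coeff g ≠ 0 → g ∈ Y) ∧ ZS A y ∧ ZS B y}
  zero_mem' := ⟨by simp, ZS_zero, ZS_zero⟩
  add_mem' := by
    rintro a b ⟨ha, ha1, ha2⟩ ⟨hb, hb1, hb2⟩
    refine ⟨?_, ha1.add hb1, ha2.add hb2⟩
    intro g h
    by_contra hg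
    apply h
    have h1 : a.coeff g = 0 := by
      by_contra h1
      exact hg (ha g h1)
    have h2 : b.coeff g = 0 := by
      by_contra h2
      exact hg (hb g h2)
    simp [h1, h2]
  smul_mem' := by
    rintro c a ⟨ha, ha1, ha2⟩
    refine ⟨?_, ha1.smul c, ha2.smul c⟩
    intro g h
    apply ha g
    intro h0
    apply h
    simp [h0]

theorem mem_zsIn {A B : Subgroup G} {Y : Finset G} {y : QG G} :
    y ∈ zsIn A B Y ↔ (∀ g, y.coeff g ≠ 0 → g ∈ Y) ∧ ZS A y ∧ ZS B y := Iff.rfl

end Basic

section Crossed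

variable {G : Type*} [Group G] {X : Type*} {M : Type*} [AddCommGroup M] [Module (QG G) M]
  {φ : FreeGroup X →* G}

theorem affPerm_of (φ : FreeGroup X →* G) (v : X → M) (t : X) (m : M) :
    affPerm φ v (FreeGroup.of t) m = v t + el (φ (FreeGroup.of t)) • m := by
  unfold affPerm
  rw [FreeGroup.lift_apply_of]
  rfl

theorem affPerm_of_inv (φ : FreeGroup X →* G) (v : X → M) (t : X) (m : M) :
    affPerm φ v (FreeGroup.of t)⁻¹ m = el (φ (FreeGroup.of t))⁻¹ • (m - v t) := by
  unfold affPerm
  rw [map_inv, FreeGroup.lift_apply_of]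
  rfl

theorem affPerm_apply (φ : FreeGroup X →* G) (v : X → M) (w : FreeGroup X) :
    ∀ m, affPerm φ v w m = cross φ v w + el (φ w) • m := by
  unfold cross
  induction w using FreeGroup.induction_on with
  | C1 =>
    intro m
    rw [map_one, map_one, el_one, one_smul, Equiv.Perm.one_apply, Equiv.Perm.one_apply, zero_add]
  | of t =>
    intro m
    rw [affPerm_of, affPerm_of, smul_zero, add_zero]
  | inv_of t h =>
    intro m
    rw [affPerm_of_inv, affPerm_of_inv, map_inv, ← smul_add]
    congr 1
    abel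
  | mul a b ha hb =>
    intro m
    rw [map_mul, Equiv.Perm.mul_apply, Equiv.Perm.mul_apply, hb m,
      ha (affPerm φ v b 0 + el (φ b) • m), ha (affPerm φ v b 0),
      smul_add, smul_smul, ← el_mul, ← map_mul, add_assoc]

theorem cross_crossed (φ : FreeGroup X →* G) (v : X → M) : Crossed φ (cross φ v) := by
  intro a b
  show affPerm φ v (a * b) 0 = _
  rw [map_mul, Equiv.Perm.mul_apply]
  exact affPerm_apply φ v a _

theorem cross_of (φ : FreeGroup X →* G) (v : X → M) (t : X) : cross φ v (FreeGroup.of t) = v t := by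
  unfold cross
  rw [affPerm_of, smul_zero, add_zero]

theorem Crossed.one {d : FreeGroup X → M} (h : Crossed φ d) : d 1 = 0 := by
  have h1 : d (1 * 1) = d 1 + el (φ 1) • d 1 := h 1 1
  rw [mul_one, map_one, el_one, one_smul] at h1
  simpa using h1

theorem Crossed.inv {d : FreeGroup X → M} (h : Crossed φ d) (a : FreeGroup X) :
    d a⁻¹ = -(el (φ a)⁻¹ • d a) := by
  have h1 : d (a⁻¹ * a) = d a⁻¹ + el (φ a⁻¹) • d a := h a⁻¹ a
  rw [inv_mul_cancel, h.one, map_inv] at h1
  exact eq_neg_of_add_eq_zero_left h1.symm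

/-- A property closed under the module operations which holds on the generators holds for all
values of a crossed homomorphism. -/
theorem Crossed.mem {d : FreeGroup X → M} (h : Crossed φ d) (W : Submodule (QG G) M)
    (hX : ∀ t, d (FreeGroup.of t) ∈ W) (w : FreeGroup X) : d w ∈ W := by
  induction w using FreeGroup.induction_on with
  | C1 => rw [h.one]; exact W.zero_mem
  | of t => exact hX t
  | inv_of t ht =>
    rw [h.inv]
    exact W.neg_mem (W.smul_mem _ ht)
  | mul a b ha hb =>
    rw [h a b]
    exact W.add_mem ha (W.smul_mem _ hb)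

theorem Crossed.sub {d d' : FreeGroup X → M} (h : Crossed φ d) (h' : Crossed φ d') :
    Crossed φ (fun w => d w - d' w) := by
  intro a b
  show d (a * b) - d' (a * b) = (d a - d' a) + el (φ a) • (d b - d' b)
  rw [h a b, h' a b, smul_sub]
  abel

theorem Crossed.ext {d d' : FreeGroup X → M} (h : Crossed φ d) (h' : Crossed φ d')
    (hX : ∀ t, d (FreeGroup.of t) = d' (FreeGroup.of t)) : d = d' := by
  funext w
  have h2 := (h.sub h').mem ⊥ (fun t => by simp [hX t]) w
  rw [Submodule.mem_bot] at h2
  exact sub_eq_zero.1 h2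

end Crossed

section Fox

set_option linter.unusedSectionVars false

variable {G : Type*} [Group G] {ι : Type*} [Fintype ι] [DecidableEq ι]

theorem fox_crossed (x : ι → G) : Crossed (FreeGroup.lift x) (fox x) := cross_crossed _ _

theorem fox_of (x : ι → G) (t : ι) : fox x (FreeGroup.of t) = Pi.single t 1 := cross_of _ _ t

theorem bdry_apply (x : ι → G) (z : ι → QG G) : bdry x z = ∑ t, z t * (el (x t) - 1) := by
  simp [bdry]

theorem bdry_single (x : ι → G) (t : ι) (y : QG G) :
    bdry x (Pi.single t y) = y * (el (x t) - 1) := by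
  rw [bdry_apply, Finset.sum_eq_single t]
  · simp
  · intro t' _ ht'
    simp [Pi.single_eq_of_ne ht']
  · simp

theorem bdry_fox (x : ι → G) (w : FreeGroup ι) :
    bdry x (fox x w) = el (FreeGroup.lift x w) - 1 := by
  have h1 : Crossed (FreeGroup.lift x) (fun w => bdry x (fox x w)) := by
    intro a b
    show bdry x (fox x (a * b)) = _
    rw [fox_crossed x a b, map_add, map_smul]
  have h2 : Crossed (FreeGroup.lift x) (fun w => (el (FreeGroup.lift x w) - 1 : QG G)) := by
    intro a b
    show (el (FreeGroup.lift x (a * b)) - 1 : QG G) =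
      (el (FreeGroup.lift x a) - 1) + el (FreeGroup.lift x a) • (el (FreeGroup.lift x b) - 1)
    rw [map_mul, el_mul, smul_eq_mul, mul_sub, mul_one]
    abel
  have h3 := h1.ext h2 (fun t => by
    show bdry x (fox x (FreeGroup.of t)) = _
    rw [fox_of, bdry_single, one_mul, FreeGroup.lift_apply_of])
  exact congrFun h3 w

theorem mem_cyc {x : ι → G} {z : ι → QG G} :
    z ∈ cyc x ↔ ∑ t, z t * (el (x t) - 1) = 0 := by
  unfold cyc
  rw [LinearMap.mem_ker, bdry_apply]

/-- Cycles pair trivially with coboundaries. -/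
theorem cyc_pair {x : ι → G} {z : ι → QG G} (hz : z ∈ cyc x) {M : Type*} [AddCommGroup M]
    [Module ℚ M] (ψ : G → M) :
    ∑ t, pairL (fun g => ψ (g * x t) - ψ g) (z t) = 0 := by
  have h1 : pairL ψ (∑ t, z t * (el (x t) - 1)) = 0 := by
    rw [mem_cyc.1 hz, map_zero]
  rw [map_sum] at h1
  rw [← h1]
  refine Finset.sum_congr rfl fun t _ => ?_
  rw [mul_sub, map_sub, pairL_mulel, mul_one]
  have h2 : pairL (fun g => ψ (g * x t) - ψ g) = pairL (fun g => ψ (g * x t)) - pairL ψ := by
    apply linext
    intro g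
    rw [LinearMap.sub_apply, pairL_el, pairL_el, pairL_el]
  rw [h2, LinearMap.sub_apply]

end Fox

end Pool.Agent.SurfExact
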