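import Pool.Agent.SurfExact.DefsA
import Pool.Agent.SurfExact.Euler
import Pool.Agent.SurfExact.StdBasic

/-!
# Package A13a: cycles in the union of the faces inside a bigon, counting corners
-/

set_option autoImplicit false
set_option linter.unusedSectionVars false

namespace Pool.Agent.SurfExact

open Function Pool.Agent.SurfGrowth Finset

section BigonE1

variable {G : Type*} [Group G] {ι : Type*} [Fintype ι] [DecidableEq ι]
variable {x : ι → G} {n : ℕ} (S : Std x n)

/-- Counting corners. -/
theorem sum_corn (X W : Finset G) (hW : ∀ w, w ∈ W ↔ 0 < S.corn X w) :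
    ∑ w ∈ W, S.corn X w = n * X.card := by
  classical
  have := stdB_neZero S
  have h0 : ∀ w, S.corn X w = ∑ i : ZMod n, if S.fc w i ∈ X then 1 else 0 := by
    intro w
    unfold Std.corn
    rw [Set.ncard_eq_toFinset_card']
    rw [← Finset.card_filter]
    congr 1
    ext i
    simp
  have hmem : ∀ w i, S.fc w i ∈ X → w ∈ W := by
    intro w i h
    rw [hW, h0]
    exact Finset.sum_pos' (fun _ _ => Nat.zero_le _) ⟨i, mem_univ _, by simp [h]⟩
  calc ∑ w ∈ W, S.corn X w = ∑ w ∈ W, ∑ i : ZMod n, (if S.fc w i ∈ X then 1 else 0) :=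
        sum_congr rfl fun w _ => h0 w
    _ = ∑ i : ZMod n, ∑ w ∈ W, (if S.fc w i ∈ X then 1 else 0) := sum_comm
    _ = ∑ _i : ZMod n, X.card := by
        refine sum_congr rfl fun i _ => ?_
        rw [← Finset.card_filter]
        refine card_bij' (fun w _ => S.fc w i) (fun f _ => f * S.p i) ?_ ?_ ?_ ?_
        · intro w hw
          exact (mem_filter.1 hw).2
        · intro f hf
          have h1 : S.fc (f * S.p i) i = f := by
            unfold Std.fc
            group
          rw [mem_filter, h1]
          refine ⟨hmem _ i ?_, hf⟩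
          rw [h1]
          exact hf
        · intro w _
          unfold Std.fc
          group
        · intro f _
          unfold Std.fc
          group
    _ = n * X.card := by
        rw [sum_const, card_univ, ZMod.card, smul_eq_mul]

/-- The boundary of a function on the faces. -/
def e1bd (c : G →₀ ℚ) (w : G) (i : ZMod n) : ℚ := c (S.fc w i) - c (S.fc w (S.tau i))

theorem e1bd_anti (c : G →₀ ℚ) (w : G) (i : ZMod n) :
    e1bd S c (S.nb w i) (S.rv i) = - e1bd S c w i := by
  unfold e1bd
  rw [fc_rv, ← fc_rv S (S.nb w i) (S.rv i), nb_rv, rv_rv]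
  ring

theorem e1bd_sum [NeZero n] (c : G →₀ ℚ) (w : G) : ∑ i : ZMod n, e1bd S c w i = 0 := by
  unfold e1bd
  rw [sum_sub_distrib, (tau_bijective S).sum_comp (fun i => c (S.fc w i)), sub_self]

variable {m : ℕ} {q : ℕ → G} {a : ℕ → ZMod n} {q' : ℕ → G} {a' : ℕ → ZMod n} {X : Finset G}

/-- The closed path. -/
def e1Q (m : ℕ) (q q' : ℕ → G) (k : ℕ) : G := if k < m then q k else q' (k - m)

/-- The germs along the closed path. -/
def e1A (m : ℕ) (a a' : ℕ → ZMod n) (k : ℕ) : ZMod n := if k < m then a k else a' (k - m)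

variable {S}

theorem e1_step (B : Bigon S m q a q' a' X) (k : ℕ) (hk : k < 2 * m) :
    e1Q m q q' (k + 1) = S.nb (e1Q m q q' k) (e1A m a a' k) := by
  unfold e1Q e1A
  by_cases h1 : k < m
  · rw [if_pos h1, if_pos h1, ← B.side.step k h1]
    by_cases h2 : k + 1 < m
    · rw [if_pos h2]
    · have h3 : k + 1 = m := by omega
      rw [if_neg h2, h3, Nat.sub_self, B.bot]
  · rw [if_neg h1, if_neg h1, if_neg (by omega), ← B.side'.step (k - m) (by omega)]
    congr 1
    omega

theorem e1_closed (B : Bigon S m q a q' a' X) : e1Q m q q' (2 * m) = e1Q m q q' 0 := by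
  have := B.hm
  unfold e1Q
  rw [if_neg (by omega), if_pos (by omega), show 2 * m - m = m by omega, B.top]

theorem e1_inj (B : Bigon S m q a q' a' X) (k l : ℕ) (hk : k < 2 * m) (hl : l < 2 * m)
    (h : e1Q m q q' k = e1Q m q q' l) : k = l := by
  have key : ∀ i j, i < m → j < m → q i ≠ q' j := by
    intro i j hi hj he
    by_cases hj0 : 0 < j
    · exact B.disj i hi.le j hj0 hj he
    · have h0 : j = 0 := by omega
      rw [h0, B.bot] at he
      have h1 := B.side.lev_step i hi.le
      have h2 := B.side.lev_step m le_rfl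
      rw [he] at h1
      omega
  unfold e1Q at h
  by_cases h1 : k < m <;> by_cases h2 : l < m
  · rw [if_pos h1, if_pos h2] at h
    have h3 := B.side.lev_step k h1.le
    have h4 := B.side.lev_step l h2.le
    rw [h] at h3
    omega
  · rw [if_pos h1, if_neg h2] at h
    exact absurd h (key _ _ h1 (by omega))
  · rw [if_neg h1, if_pos h2] at h
    exact absurd h.symm (key _ _ h2 (by omega))
  · rw [if_neg h1, if_neg h2] at h
    have h3 := B.side'.lev_step (k - m) (by omega)
    have h4 := B.side'.lev_step (l - m) (by omega)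
    rw [h] at h3
    omega

theorem e1_onD (w : G) (i : ZMod n) :
    OnD m q a q' a' w i ↔ ∃ k < 2 * m, w = e1Q m q q' k ∧ i = e1A m a a' k := by
  unfold OnD e1Q e1A
  constructor
  · rintro (⟨k, hk, h1, h2⟩ | ⟨k, hk, h1, h2⟩)
    · exact ⟨k, by omega, by rw [if_pos hk, h1], by rw [if_pos hk, h2]⟩
    · refine ⟨k + m, by omega, ?_, ?_⟩
      · rw [if_neg (by omega), h1, Nat.add_sub_cancel]
      · rw [if_neg (by omega), h2, Nat.add_sub_cancel]
  · rintro ⟨k, hk, h1, h2⟩
    by_cases h3 : k < m
    · rw [if_pos h3] at h1 h2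
      exact Or.inl ⟨k, h3, h1, h2⟩
    · rw [if_neg h3] at h1 h2
      exact Or.inr ⟨k - m, by omega, h1, h2⟩

theorem e1_mem (B : Bigon S m q a q' a' X) (k : ℕ) (hk : k < 2 * m) :
    S.fc (e1Q m q q' k) (e1A m a a' k) ∈ X ∧
      S.fc (e1Q m q q' k) (S.tau (e1A m a a' k)) ∉ X :=
  B.onD _ _ ((e1_onD _ _).2 ⟨k, hk, rfl, rfl⟩)

/-- A function on the faces whose boundary is supported on the bigon has constant boundary along
the bigon. -/
theorem e1_const (B : Bigon S m q a q' a' X) (c : G →₀ ℚ)
    (hc : ∀ w i, ¬ OnD m q a q' a' w i → ¬ OnD m q a q' a' (S.nb w i) (S.rv i) →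
      e1bd S c w i = 0) (k : ℕ) (hk : k < 2 * m) :
    e1bd S c (e1Q m q q' k) (e1A m a a' k) = e1bd S c (e1Q m q q' 0) (e1A m a a' 0) := by
  have := stdB_neZero S
  induction k with
  | zero => rfl
  | succ k ih =>
    rw [← ih (by omega)]
    have hst := e1_step B k (by omega)
    set Q := e1Q m q q' with hQ
    set A := e1A m a a' with hA
    have hne : A (k + 1) ≠ S.rv (A k) := by
      intro h
      have h1 := (e1_mem B (k + 1) hk).1
      have h2 := (e1_mem B k (by omega)).2
      rw [← hQ, ← hA] at h1 h2
      rw [h, hst, fc_rv] at h1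
      exact h2 h1
    have h0 : ∀ i, i ≠ A (k + 1) → i ≠ S.rv (A k) → e1bd S c (Q (k + 1)) i = 0 := by
      intro i hi1 hi2
      apply hc
      · rw [e1_onD]
        rintro ⟨l, hl, h1, h2⟩
        have h3 := e1_inj B _ _ hk hl h1
        rw [← h3] at h2
        exact hi1 h2
      · rw [e1_onD]
        rintro ⟨l, hl, h1, h2⟩
        have h3 : Q (l + 1) = Q (k + 1) := by
          rw [hQ, e1_step B l hl, ← h1, ← h2, nb_rv]
        have h4 : l = k := by
          by_cases h5 : l + 1 < 2 * m
          · have := e1_inj B _ _ h5 hk h3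
            omega
          · have h6 : l + 1 = 2 * m := by omega
            rw [h6, hQ, e1_closed B] at h3
            have := e1_inj B _ _ (by omega) hk h3
            omega
        rw [h4] at h2
        apply hi2
        rw [← hA] at h2
        rw [← h2, rv_rv]
    have hs := e1bd_sum S c (Q (k + 1))
    have h1 : ∑ i : ZMod n, e1bd S c (Q (k + 1)) i =
        e1bd S c (Q (k + 1)) (A (k + 1)) + e1bd S c (Q (k + 1)) (S.rv (A k)) := by
      rw [← sum_pair hne]
      symm
      apply sum_subset (subset_univ _)
      intro i _ hi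
      rw [mem_insert, mem_singleton, not_or] at hi
      exact h0 i hi.1 hi.2
    rw [h1] at hs
    have h2 : e1bd S c (Q (k + 1)) (S.rv (A k)) = - e1bd S c (Q k) (A k) := by
      rw [hst, e1bd_anti]
    rw [h2] at hs
    linarith

/-- A function on the faces whose boundary is supported on the bigon is a multiple of the
indicator function of `X`. -/
theorem e1_multiple (B : Bigon S m q a q' a' X) (c : G →₀ ℚ)
    (hc : ∀ w i, ¬ OnD m q a q' a' w i → ¬ OnD m q a q' a' (S.nb w i) (S.rv i) →
      e1bd S c w i = 0) (f : G) (hf : f ∉ X) : c f = 0 := by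
  classical
  set γ := e1bd S c (e1Q m q q' 0) (e1A m a a' 0) with hγ
  let c1 : G →₀ ℚ := Finsupp.indicator X (fun _ _ => γ)
  have hc1 : ∀ g, c1 g = if g ∈ X then γ else 0 := by
    intro g
    simp [c1, Finsupp.indicator_apply]
  have honD : ∀ w i, OnD m q a q' a' w i → e1bd S c w i = e1bd S c1 w i := by
    intro w i h
    have h1 := B.onD w i h
    obtain ⟨k, hk, h2, h3⟩ := (e1_onD w i).1 h
    have h4 := e1_const B c hc k hk
    rw [← h2, ← h3] at h4
    rw [h4, ← hγ]
    unfold e1bd
    rw [hc1, hc1, if_pos h1.1, if_neg h1.2, sub_zero]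
  have h1 : c - c1 = 0 := by
    apply std_uniq S
    intro w i
    have h2 : e1bd S c w i = e1bd S c1 w i := by
      by_cases h3 : OnD m q a q' a' w i
      · exact honD w i h3
      · by_cases h4 : OnD m q a q' a' (S.nb w i) (S.rv i)
        · have h5 := honD _ _ h4
          rw [e1bd_anti, e1bd_anti] at h5
          linarith
        · rw [hc w i h3 h4]
          have h5 := B.off w i h3 h4
          unfold e1bd
          rw [hc1, hc1]
          by_cases h6 : S.fc w i ∈ X
          · rw [if_pos h6, if_pos (h5.1 h6), sub_self]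
          · rw [if_neg h6, if_neg (fun h => h6 (h5.2 h)), sub_self]
    unfold e1bd at h2
    rw [Finsupp.sub_apply, Finsupp.sub_apply]
    linarith
  have h2 : c f - c1 f = 0 := by
    rw [← Finsupp.sub_apply, h1, Finsupp.zero_apply]
  rw [hc1, if_neg hf, sub_zero] at h2
  exact h2

open Classical in
/-- The edges starting with the first side face in `X`. -/
noncomputable def e1P (S : Std x n) (X : Finset G) (t : ι) : Finset G :=
  X.image (fun f => f * S.p (S.r.symm (t, true)))

open Classical in
/-- The edges with the other side face in `X`. -/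
noncomputable def e1R (S : Std x n) (X : Finset G) (t : ι) : Finset G :=
  X.image (fun f => f * S.p (S.tau (S.r.symm (t, true))))

theorem mem_e1P (t : ι) (g : G) : g ∈ e1P S X t ↔ S.fc g (S.r.symm (t, true)) ∈ X := by
  classical
  unfold e1P Std.fc
  rw [mem_image]
  constructor
  · rintro ⟨f, hf, rfl⟩
    rwa [mul_inv_cancel_right]
  · intro h
    exact ⟨_, h, by group⟩

theorem mem_e1R (t : ι) (g : G) : g ∈ e1R S X t ↔ S.fc g (S.tau (S.r.symm (t, true))) ∈ X := by
  classical
  unfold e1R Std.fc
  rw [mem_image]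
  constructor
  · rintro ⟨f, hf, rfl⟩
    rwa [mul_inv_cancel_right]
  · intro h
    exact ⟨_, h, by group⟩

theorem card_e1P (t : ι) : (e1P S X t).card = X.card := by
  classical
  unfold e1P
  exact card_image_of_injective _ (mul_left_injective _)

theorem card_e1R (t : ι) : (e1R S X t).card = X.card := by
  classical
  unfold e1R
  exact card_image_of_injective _ (mul_left_injective _)

open Classical in
/-- The bigon has `2 m` edges. -/
theorem e1_edges (B : Bigon S m q a q' a' X) :
    2 * m ≤ ∑ t, ((e1P S X t \ e1R S X t).card + (e1R S X t \ e1P S X t).card) := by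
  set Q := e1Q m q q' with hQ
  set A := e1A m a a' with hA
  have h1 : ((range (2 * m)).filter (fun k => (S.r (A k)).2 = true)).card ≤
      ∑ t, (e1P S X t \ e1R S X t).card := by
    rw [← card_sigma]
    refine card_le_card_of_injOn (fun k => (⟨(S.r (A k)).1, Q k⟩ : (_ : ι) × G)) ?_ ?_
    · intro k hk
      rw [mem_coe, mem_filter, mem_range] at hk
      have h2 := e1_mem B k hk.1
      rw [← hQ, ← hA] at h2
      have h3 : S.r.symm ((S.r (A k)).1, true) = A k := by
        rw [← hk.2, Prod.mk.eta, Equiv.symm_apply_apply]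
      rw [mem_coe, mem_sigma, mem_sdiff, mem_e1P, mem_e1R, h3]
      exact ⟨mem_univ _, h2.1, h2.2⟩
    · intro k hk l hl h
      rw [mem_coe, mem_filter, mem_range] at hk hl
      have h2 : Q k = Q l := by
        simpa using congrArg Sigma.snd h
      exact e1_inj B k l hk.1 hl.1 h2
  have h2 : ((range (2 * m)).filter (fun k => ¬ (S.r (A k)).2 = true)).card ≤
      ∑ t, (e1R S X t \ e1P S X t).card := by
    rw [← card_sigma]
    refine card_le_card_of_injOn (fun k => (⟨(S.r (A k)).1, Q (k + 1)⟩ : (_ : ι) × G)) ?_ ?_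
    · intro k hk
      rw [mem_coe, mem_filter, mem_range] at hk
      have h2 := e1_mem B k hk.1
      rw [← hQ, ← hA] at h2
      have h3 : S.r.symm ((S.r (A k)).1, true) = S.rv (A k) := by
        unfold Std.rv linv
        have h4 : (S.r (A k)).2 = false := by simpa using hk.2
        rw [h4]
        rfl
      have h5 : Q (k + 1) = S.nb (Q k) (A k) := e1_step B k hk.1
      rw [mem_coe, mem_sigma, mem_sdiff, mem_e1P, mem_e1R]
      dsimp only
      rw [h3, h5, fc_rv, ← fc_rv S (S.nb (Q k) (A k)) (S.rv (A k)), nb_rv, rv_rv]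
      exact ⟨mem_univ _, h2.1, h2.2⟩
    · intro k hk l hl h
      rw [mem_coe, mem_filter, mem_range] at hk hl
      have h2 : Q (k + 1) = Q (l + 1) := by
        simpa using congrArg Sigma.snd h
      by_cases h3 : k + 1 < 2 * m <;> by_cases h4 : l + 1 < 2 * m
      · have := e1_inj B _ _ h3 h4 h2
        omega
      · have h5 : l + 1 = 2 * m := by omega
        rw [h5, hQ, e1_closed B] at h2
        have := e1_inj B _ _ h3 (by omega) h2
        omega
      · have h5 : k + 1 = 2 * m := by omega
        rw [h5, hQ, e1_closed B] at h2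
        have := e1_inj B _ _ (by omega) h4 h2
        omega
      · omega
  have h3 := card_filter_add_card_filter_not (s := range (2 * m))
    (fun k => (S.r (A k)).2 = true)
  rw [card_range] at h3
  rw [sum_add_distrib]
  omega

open Classical in
/-- Cycles in the union of the faces of `X`: the space of cycles. -/
theorem e1_finrank (B : Bigon S m q a q' a' X) :
    Module.finrank ℚ (cycIn x (fun t => e1P S X t ∪ e1R S X t)) ≤ X.card := by
  let L : (X → ℚ) →ₗ[ℚ] (ι → QG G) :=
    { toFun := fun c t => (∑ f : X, c f • el (f : G)) * stdB_zeta S t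
      map_add' := by
        intro c c'
        funext t
        simp only [Pi.add_apply, add_smul, sum_add_distrib, add_mul]
      map_smul' := by
        intro r c
        funext t
        simp only [Pi.smul_apply, smul_eq_mul, RingHom.id_apply, mul_smul, ← smul_sum,
          smul_mul_assoc] }
  have hle : cycIn x (fun t => e1P S X t ∪ e1R S X t) ≤ LinearMap.range L := by
    intro z hz
    obtain ⟨hz1, hz2⟩ := hz
    obtain ⟨c, hc⟩ := stdB_of_mem S hz1
    -- the support of `c` is contained in `X`
    have hsupp : ∀ f, f ∉ X → c.coeff f = 0 := by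
      intro f hf
      let c1 : G →₀ ℚ := c.coeff.filter (fun g => g ∉ X)
      have hc1 : ∀ g, g ∉ X → c1 g = c.coeff g := fun g hg => Finsupp.filter_apply_pos _ _ hg
      have hc2 : ∀ g, g ∈ X → c1 g = 0 := fun g hg =>
        Finsupp.filter_apply_neg _ _ (by simpa using hg)
      rw [← hc1 f hf]
      refine e1_multiple B c1 ?_ f hf
      have key : ∀ w i, (S.r i).2 = true → S.fc w i ∉ X → S.fc w (S.tau i) ∉ X →
          c.coeff (S.fc w i) - c.coeff (S.fc w (S.tau i)) = 0 := by
        intro w i hi h1 h2
        have h3 : S.r i = ((S.r i).1, true) := by rw [← hi]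
        rw [← stdB_zeta_coeff S c (S.r i).1 w i h3, ← hc]
        by_contra h4
        have h5 := hz2 (S.r i).1 w h4
        rw [mem_union, mem_e1P, mem_e1R, ← h3, Equiv.symm_apply_apply] at h5
        rcases h5 with h5 | h5
        · exact h1 h5
        · exact h2 h5
      intro w i h1 h2
      have h3 := B.off w i h1 h2
      unfold e1bd
      by_cases h4 : S.fc w i ∈ X
      · rw [hc2 _ h4, hc2 _ (h3.1 h4), sub_zero]
      · have h5 : S.fc w (S.tau i) ∉ X := fun h => h4 (h3.2 h)
        rw [hc1 _ h4, hc1 _ h5]
        by_cases hi : (S.r i).2 = true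
        · exact key w i hi h4 h5
        · have h6 : (S.r (S.rv i)).2 = true := by
            rw [stdB_r_rv]
            simpa [linv] using hi
          have h7 := key (S.nb w i) (S.rv i) h6
          rw [fc_rv, ← fc_rv S (S.nb w i) (S.rv i), nb_rv, rv_rv] at h7
          have h8 := h7 h5 h4
          linarith
    refine ⟨fun f => c.coeff (f : G), ?_⟩
    funext t
    show (∑ f : X, c.coeff (f : G) • el (f : G)) * stdB_zeta S t = z t
    rw [hc t]
    congr 1
    rw [Finset.sum_coe_sort X (fun f => c.coeff f • el f)]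
    conv_rhs => rw [QG_eq_sum c]
    rw [Finsupp.sum]
    symm
    apply sum_subset_zero_on_sdiff
    · intro g hg
      by_contra h
      exact (Finsupp.mem_support_iff.1 hg) (hsupp g h)
    · intro g hg
      rw [mem_sdiff, Finsupp.mem_support_iff, not_not] at hg
      rw [hg.2, zero_smul]
    · intro g _
      rfl
  calc Module.finrank ℚ (cycIn x (fun t => e1P S X t ∪ e1R S X t)) ≤
        Module.finrank ℚ (LinearMap.range L) := Submodule.finrank_mono hle
    _ ≤ Module.finrank ℚ (X → ℚ) := LinearMap.finrank_range_le L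
    _ = X.card := by rw [Module.finrank_fintype_fun_eq_card, Fintype.card_coe]

variable (S) in
/-- Cycles in the union of the faces of `X`. -/
theorem bigon_E1 (B : Bigon S m q a q' a' X) (W : Finset G)
    (hW : ∀ w, w ∈ W ↔ 0 < S.corn X w) :
    (Fintype.card ι - 1 : ℤ) * X.card + m + 1 ≤ W.card := by
  classical
  have := stdB_neZero S
  have hmem : ∀ w i, S.fc w i ∈ X → w ∈ W := by
    intro w i h
    rw [hW]
    unfold Std.corn
    exact (Set.ncard_pos (Set.toFinite _)).2 ⟨i, h⟩
  have hWn : W.Nonempty := ⟨_, hmem _ _ (e1_mem B 0 (by have := B.hm; omega)).1⟩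
  have h1 := euler x (fun t => e1P S X t ∪ e1R S X t) W hWn (by
    intro t g hg
    rw [mem_union, mem_e1P, mem_e1R] at hg
    have h2 : g * x t = S.nb g (S.r.symm (t, true)) := by
      unfold Std.nb
      rw [Equiv.apply_symm_apply]
      simp [letter]
    rcases hg with hg | hg
    · refine ⟨hmem _ _ hg, ?_⟩
      rw [h2]
      exact hmem _ (S.r.symm (t, true) + 1) (by rwa [fc_succ])
    · refine ⟨hmem _ _ hg, ?_⟩
      rw [h2]
      exact hmem _ (S.rv (S.r.symm (t, true))) (by rwa [fc_rv]))
  have h2 := e1_finrank B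
  have h3 := e1_edges B
  have h4 : ∀ t, 2 * (e1P S X t ∪ e1R S X t).card = 2 * X.card +
      ((e1P S X t \ e1R S X t).card + (e1R S X t \ e1P S X t).card) := by
    intro t
    have h5 := card_sdiff_add_card (e1P S X t) (e1R S X t)
    have h6 := card_sdiff_add_card (e1R S X t) (e1P S X t)
    rw [card_e1R] at h5
    rw [card_e1P, union_comm] at h6
    omega
  have h5 : 2 * ∑ t, (e1P S X t ∪ e1R S X t).card = 2 * (Fintype.card ι * X.card) +
      ∑ t, ((e1P S X t \ e1R S X t).card + (e1R S X t \ e1P S X t).card) := by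
    rw [mul_sum, sum_congr rfl (fun t _ => h4 t), sum_add_distrib, sum_const, card_univ,
      smul_eq_mul]
    ring
  have h6 : Fintype.card ι * X.card + m + 1 ≤ X.card + W.card := by
    have h7 : ∑ t, (e1P S X t ∪ e1R S X t).card + 1 ≤ X.card + W.card := h1.trans (by omega)
    omega
  have h8 : ((Fintype.card ι : ℤ) * X.card + m + 1 : ℤ) ≤ X.card + W.card := by
    exact_mod_cast h6
  linarith

end BigonE1

end Pool.Agent.SurfExact
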