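import Pool.Agent.SurfExact.BasicB

/-!
# The element `k` is not in the commutator subgroup
-/

set_option autoImplicit false

namespace Pool.Agent.SurfExact

open Function Pool.Agent.SurfGrowth

section ChiK

variable {G : Type*} [Group G] {ι : Type*} [Fintype ι] [DecidableEq ι]

/-- the variable as a unit -/
noncomputable def h11q : (RatFunc ℚ)ˣ := Units.mk0 RatFunc.X RatFunc.X_ne_zero

/-- the character as a homomorphism of rings -/
noncomputable def h11Th (f : G →* Multiplicative ℤ) : QG G →ₐ[ℚ] RatFunc ℚ :=
  MonoidAlgebra.lift ℚ (RatFunc ℚ) G ((Units.coeHom _).comp ((zpowersHom _ h11q).comp f))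

theorem h11Th_el (f : G →* Multiplicative ℤ) (g : G) :
    h11Th f (el g) = RatFunc.X ^ (Multiplicative.toAdd (f g)) := by
  unfold h11Th el
  rw [MonoidAlgebra.lift_of]
  show (((zpowersHom _ h11q) (f g) : (RatFunc ℚ)ˣ) : RatFunc ℚ) = _
  rw [zpowersHom_apply, Units.val_zpow_eq_zpow_val]
  rfl

/-- twisted derivation -/
noncomputable def h11D (f : G →* Multiplicative ℤ) (x : ι → G) (t : ι) (w : FreeGroup ι) :
    RatFunc ℚ := h11Th f (fox x w t)

theorem h11D_mul (f : G →* Multiplicative ℤ) (x : ι → G) (t : ι) (a b : FreeGroup ι) :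
    h11D f x t (a * b) = h11D f x t a +
      RatFunc.X ^ (Multiplicative.toAdd (f (FreeGroup.lift x a))) * h11D f x t b := by
  unfold h11D
  rw [fox_crossed x a b, Pi.add_apply, Pi.smul_apply, smul_eq_mul, map_add, map_mul, h11Th_el]

theorem h11D_of (f : G →* Multiplicative ℤ) (x : ι → G) (t t' : ι) :
    h11D f x t (FreeGroup.of t') = if t = t' then 1 else 0 := by
  unfold h11D
  rw [fox_of]
  by_cases h : t = t'
  · subst h; rw [Pi.single_eq_same, if_pos rfl, map_one]
  · rw [Pi.single_eq_of_ne h, if_neg h, map_zero]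

theorem h11D_one (f : G →* Multiplicative ℤ) (x : ι → G) (t : ι) : h11D f x t 1 = 0 := by
  have := h11D_mul f x t 1 1
  rw [mul_one, map_one, map_one, toAdd_one, zpow_zero, one_mul] at this
  simpa using this

theorem h11D_inv (f : G →* Multiplicative ℤ) (x : ι → G) (t : ι) (a : FreeGroup ι) :
    h11D f x t a⁻¹ = -(RatFunc.X ^ (Multiplicative.toAdd (f (FreeGroup.lift x a⁻¹))) *
      h11D f x t a) := by
  have := h11D_mul f x t a⁻¹ a
  rw [inv_mul_cancel, h11D_one] at this
  exact eq_neg_of_add_eq_zero_left this.symm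

/-- linear independence of `1` and the variable -/
theorem h11_indep (a b : ℚ) (h : (a : RatFunc ℚ) + (b : RatFunc ℚ) * RatFunc.X = 0) :
    a = 0 ∧ b = 0 := by
  have h1 : algebraMap (Polynomial ℚ) (RatFunc ℚ) (Polynomial.C a + Polynomial.C b * Polynomial.X)
      = 0 := by
    rw [map_add, map_mul, RatFunc.algebraMap_X, RatFunc.algebraMap_C, RatFunc.algebraMap_C,
      ← RatFunc.algebraMap_eq_C, eq_ratCast, eq_ratCast]
    exact h
  have h2 : Polynomial.C a + Polynomial.C b * Polynomial.X = 0 := by
    apply RatFunc.algebraMap_injective ℚ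
    rw [h1, map_zero]
  constructor
  · have := congrArg (fun p => Polynomial.coeff p 0) h2
    simpa using this
  · have := congrArg (fun p => Polynomial.coeff p 1) h2
    simpa using this

theorem chi_k_ne {x : ι → G} {s : ι} {f : G →* Multiplicative ℤ} (h : Hyp x s f)
    (k : G) (u v : FreeGroup {t : ι // t ≠ s}) (hk : k ≠ 1)
    (hv : FreeGroup.lift (fun t : {t : ι // t ≠ s} => x t) v = k)
    (hu : FreeGroup.lift (fun t : {t : ι // t ≠ s} => x t) u = (x s)⁻¹ * k * x s)
    (hcyc : cyc x = Submodule.span (QG G) {fox x (FreeGroup.of s *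
        FreeGroup.map Subtype.val u * (FreeGroup.of s)⁻¹ * (FreeGroup.map Subtype.val v)⁻¹)})
    (χ : G →* Multiplicative (ι → ℤ)) (hχ : ∀ t, χ (x t) = Multiplicative.ofAdd (Pi.single t 1)) :
    χ k ≠ 1 := by
  intro hχk
  have hlm : ∀ w : FreeGroup {t : ι // t ≠ s},
      FreeGroup.lift x (FreeGroup.map Subtype.val w) =
        FreeGroup.lift (fun t : {t : ι // t ≠ s} => x t) w := by
    intro w
    have : (FreeGroup.lift x).comp (FreeGroup.map (Subtype.val : {t : ι // t ≠ s} → ι)) =
        FreeGroup.lift (fun t : {t : ι // t ≠ s} => x t) := by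
      apply FreeGroup.ext_hom; intro t; simp
    exact DFunLike.congr_fun this w
  -- the character is trivial on words without `s`
  have hfm : ∀ w : FreeGroup {t : ι // t ≠ s},
      f (FreeGroup.lift x (FreeGroup.map Subtype.val w)) = 1 := by
    intro w
    have : (f.comp (FreeGroup.lift x)).comp (FreeGroup.map (Subtype.val : {t : ι // t ≠ s} → ι))
        = 1 := by
      apply FreeGroup.ext_hom; intro t
      simp [h.ft t.1 t.2]
    exact DFunLike.congr_fun this w
  -- on words without `s` the derivations are exponent sums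
  have hDm : ∀ (t : ι) (w : FreeGroup {t : ι // t ≠ s}),
      h11D f x t (FreeGroup.map Subtype.val w) =
        ((Multiplicative.toAdd (χ (FreeGroup.lift x (FreeGroup.map Subtype.val w))) t : ℤ) :
          RatFunc ℚ) := by
    intro t w
    induction w using FreeGroup.induction_on with
    | C1 => rw [map_one, map_one, map_one, h11D_one, toAdd_one, Pi.zero_apply, Int.cast_zero]
    | of t' =>
      rw [FreeGroup.map.of, h11D_of, FreeGroup.lift_apply_of, hχ, toAdd_ofAdd]
      by_cases htt : t = t'.1
      · rw [if_pos htt, htt, Pi.single_eq_same, Int.cast_one]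
      · rw [if_neg htt, Pi.single_eq_of_ne htt, Int.cast_zero]
    | inv_of t' ih =>
      rw [map_inv, h11D_inv, ← map_inv, hfm, toAdd_one, zpow_zero, one_mul, ih, map_inv,
        map_inv, map_inv, toAdd_inv, Pi.neg_apply, Int.cast_neg]
    | mul a b iha ihb =>
      rw [map_mul, h11D_mul, hfm, toAdd_one, zpow_zero, one_mul, iha, ihb, map_mul, map_mul,
        toAdd_mul, Pi.add_apply, Int.cast_add]
  have hU : ∀ t, h11D f x t (FreeGroup.map Subtype.val u) = 0 := by
    intro t
    have h1 : χ ((x s)⁻¹ * k * x s) = 1 := by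
      rw [map_mul, map_mul, hχk, mul_one, map_inv, inv_mul_cancel]
    rw [hDm, hlm, hu, h1, toAdd_one, Pi.zero_apply, Int.cast_zero]
  have hV : ∀ t, h11D f x t (FreeGroup.map Subtype.val v) = 0 := by
    intro t
    rw [hDm, hlm, hv, hχk, toAdd_one, Pi.zero_apply, Int.cast_zero]
  have hq : (RatFunc.X : RatFunc ℚ) ≠ 0 := RatFunc.X_ne_zero
  have hr : ∀ t, h11D f x t (FreeGroup.of s *
        FreeGroup.map Subtype.val u * (FreeGroup.of s)⁻¹ * (FreeGroup.map Subtype.val v)⁻¹) = 0 := by
    intro t
    rw [h11D_mul, h11D_mul, h11D_mul, h11D_inv f x t (FreeGroup.map Subtype.val v), hU, hV,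
      h11D_inv, mul_zero, mul_zero, neg_zero, mul_zero, add_zero, add_zero, map_mul, map_mul, hfm,
      mul_one, FreeGroup.lift_apply_of, map_inv, map_inv, FreeGroup.lift_apply_of, toAdd_inv,
      mul_neg, ← mul_assoc, ← zpow_add₀ hq, add_neg_cancel, zpow_zero, one_mul, add_neg_cancel]
  -- relators
  have hrel : ∀ w, FreeGroup.lift x w = 1 → ∀ t, h11D f x t w = 0 := by
    intro w hw t
    have h1 : fox x w ∈ cyc x := by
      unfold cyc
      rw [LinearMap.mem_ker, bdry_fox, hw, el_one, sub_self]
    rw [hcyc, Submodule.mem_span_singleton] at h1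
    obtain ⟨e, he⟩ := h1
    unfold h11D
    rw [← he, Pi.smul_apply, smul_eq_mul, map_mul]
    have := hr t
    unfold h11D at this
    rw [this, mul_zero]
  have hwd : ∀ a b, FreeGroup.lift x a = FreeGroup.lift x b → ∀ t, h11D f x t a = h11D f x t b := by
    intro a b hab t
    have h1 := hrel (a⁻¹ * b) (by rw [map_mul, map_inv, hab, inv_mul_cancel]) t
    rw [h11D_mul, h11D_inv, neg_add_eq_sub, ← mul_sub] at h1
    have h2 := (mul_eq_zero.1 h1).resolve_left (zpow_ne_zero _ hq)
    exact (sub_eq_zero.1 h2).symm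
  have hsurj : Surjective (FreeGroup.lift x) := by
    rw [← MonoidHom.range_eq_top, FreeGroup.range_lift_eq_closure, h.gen]
  choose W hW using hsurj
  have hδ : ∀ (t : ι) (w : FreeGroup ι), h11D f x t (W (FreeGroup.lift x w)) = h11D f x t w :=
    fun t w => hwd _ _ (hW _) t
  have hδmul : ∀ (t : ι) (g g' : G), h11D f x t (W (g * g')) = h11D f x t (W g) +
      RatFunc.X ^ (Multiplicative.toAdd (f g)) * h11D f x t (W g') := by
    intro t g g'
    have h1 : h11D f x t (W (g * g')) = h11D f x t (W g * W g') :=
      hwd _ _ (by rw [hW, map_mul, hW, hW]) t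
    rw [h1, h11D_mul, hW]
  -- homomorphism on the kernel
  let Δ : f.ker →* Multiplicative ({t : ι // t ≠ s} → RatFunc ℚ) :=
    { toFun := fun g => Multiplicative.ofAdd (fun t => h11D f x t.1 (W g.1))
      map_one' := by
        have : (fun t : {t : ι // t ≠ s} => h11D f x t.1 (W (1 : G))) = 0 := by
          funext t
          have := hδ t.1 1
          rw [map_one, h11D_one] at this
          exact this
        show Multiplicative.ofAdd (fun t : {t : ι // t ≠ s} => h11D f x t.1 (W (1 : G))) = 1
        rw [this]; rfl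
      map_mul' := by
        intro g g'
        show Multiplicative.ofAdd (fun t : {t : ι // t ≠ s} => h11D f x t.1 (W (g.1 * g'.1))) = _
        rw [← ofAdd_add]
        congr 1
        funext t
        rw [hδmul, MonoidHom.mem_ker.1 g.2, toAdd_one, zpow_zero, one_mul]
        rfl }
  have hΔ : ∀ g : f.ker, Multiplicative.toAdd (Δ g) = fun t => h11D f x t.1 (W g.1) :=
    fun g => rfl
  let y : {t : ι // t ≠ s} ⊕ {t : ι // t ≠ s} → f.ker := fun i => match i with
    | Sum.inl t => ⟨x t.1, by rw [MonoidHom.mem_ker, h.ft t.1 t.2]⟩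
    | Sum.inr t => ⟨x s * x t.1 * (x s)⁻¹, by
        rw [MonoidHom.mem_ker, map_mul, map_mul, h.ft t.1 t.2, map_inv, mul_one, mul_inv_cancel]⟩
  have hy1 : ∀ t, Multiplicative.toAdd (Δ (y (Sum.inl t))) = Pi.single t 1 := by
    intro t
    rw [hΔ]
    funext t'
    show h11D f x t'.1 (W (x t.1)) = _
    have := hδ t'.1 (FreeGroup.of t.1)
    rw [FreeGroup.lift_apply_of] at this
    rw [this, h11D_of]
    by_cases htt : t' = t
    · subst htt; rw [if_pos rfl, Pi.single_eq_same]
    · rw [if_neg (fun h' => htt (Subtype.ext h')), Pi.single_eq_of_ne htt]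
  have hy2 : ∀ t, Multiplicative.toAdd (Δ (y (Sum.inr t))) = Pi.single t RatFunc.X := by
    intro t
    rw [hΔ]
    funext t'
    show h11D f x t'.1 (W (x s * x t.1 * (x s)⁻¹)) = _
    have := hδ t'.1 (FreeGroup.of s * FreeGroup.of t.1 * (FreeGroup.of s)⁻¹)
    rw [map_mul, map_mul, map_inv, FreeGroup.lift_apply_of, FreeGroup.lift_apply_of] at this
    rw [this, h11D_mul, h11D_mul, h11D_inv, h11D_of, h11D_of, if_neg t'.2, mul_zero, neg_zero,
      mul_zero, add_zero, zero_add, FreeGroup.lift_apply_of, h.fs, toAdd_ofAdd, zpow_one]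
    by_cases htt : t' = t
    · subst htt; rw [if_pos rfl, Pi.single_eq_same, mul_one]
    · rw [if_neg (fun h' => htt (Subtype.ext h')), Pi.single_eq_of_ne htt, mul_zero]
  have hli : LinearIndependent ℚ (fun i => Multiplicative.toAdd (Δ (y i))) := by
    rw [Fintype.linearIndependent_iff]
    intro c hc
    have key : ∀ t, c (Sum.inl t) = 0 ∧ c (Sum.inr t) = 0 := by
      intro t
      apply h11_indep
      have h1 := congrFun hc t
      rw [Fintype.sum_sum_type] at h1
      simp only [hy1, hy2, Pi.add_apply, Finset.sum_apply, Pi.smul_apply, Pi.zero_apply] at h1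
      rw [Finset.sum_eq_single t, Finset.sum_eq_single t, Pi.single_eq_same,
        Pi.single_eq_same, Algebra.smul_def, Algebra.smul_def, mul_one, eq_ratCast,
        eq_ratCast] at h1
      · exact h1
      · intro t' _ ht'
        rw [Pi.single_eq_of_ne ht'.symm, smul_zero]
      · intro h'; exact absurd (Finset.mem_univ t) h'
      · intro t' _ ht'
        rw [Pi.single_eq_of_ne ht'.symm, smul_zero]
      · intro h'; exact absurd (Finset.mem_univ t) h'
    rintro (t | t)
    · exact (key t).1
    · exact (key t).2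
  -- transport to a free group
  have hfree := h.free
  let C := IsFreeGroup.Generators f.ker
  let e : f.ker ≃* FreeGroup C := IsFreeGroup.toFreeGroup f.ker
  let Λ : (C →₀ ℚ) →ₗ[ℚ] ({t : ι // t ≠ s} → RatFunc ℚ) :=
    Finsupp.linearCombination ℚ (fun c => Multiplicative.toAdd (Δ (e.symm (FreeGroup.of c))))
  have hΛ : ∀ w, Λ (Multiplicative.toAdd (abQ C w)) = Multiplicative.toAdd (Δ (e.symm w)) := by
    intro w
    let F1 : FreeGroup C →* Multiplicative ({t : ι // t ≠ s} → RatFunc ℚ) :=
      (AddMonoidHom.toMultiplicative Λ.toAddMonoidHom).comp (abQ C)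
    have hF : F1 = Δ.comp e.symm.toMonoidHom := by
      apply FreeGroup.ext_hom
      intro a
      apply Multiplicative.toAdd.injective
      show Λ (Multiplicative.toAdd (abQ C (FreeGroup.of a))) = _
      rw [abQ_of]
      simp [Λ]
    exact congrArg Multiplicative.toAdd (DFunLike.congr_fun hF w)
  have hli2 : LinearIndependent ℚ (fun i => Multiplicative.toAdd (abQ C (e (y i)))) := by
    apply LinearIndependent.of_comp Λ
    have : (Λ ∘ fun i => Multiplicative.toAdd (abQ C (e (y i)))) =
        fun i => Multiplicative.toAdd (Δ (y i)) := by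
      funext i
      show Λ (Multiplicative.toAdd (abQ C (e (y i)))) = _
      rw [hΛ, MulEquiv.symm_apply_apply]
    rw [this]
    exact hli
  have hinj := lift_injective_of_linearIndependent (fun i => e (y i)) hli2
  have hinj2 : Injective (FreeGroup.lift (fun i => (y i : G))) := by
    have : FreeGroup.lift (fun i => (y i : G)) =
        (f.ker.subtype.comp e.symm.toMonoidHom).comp (FreeGroup.lift (fun i => e (y i))) := by
      apply FreeGroup.ext_hom
      intro i
      simp
    rw [this]
    exact (f.ker.subtype_injective.comp e.symm.injective).comp hinj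
  have hkv : FreeGroup.lift (fun i => (y i : G)) (FreeGroup.map Sum.inl v) = k := by
    rw [← hv]
    have : (FreeGroup.lift (fun i => (y i : G))).comp (FreeGroup.map Sum.inl) =
        FreeGroup.lift (fun t : {t : ι // t ≠ s} => x t) := by
      apply FreeGroup.ext_hom
      intro t
      simp [y]
    exact DFunLike.congr_fun this v
  have hku : FreeGroup.lift (fun i => (y i : G)) (FreeGroup.map Sum.inr u) = k := by
    have h1 : k = x s * ((x s)⁻¹ * k * x s) * (x s)⁻¹ := by group
    rw [h1, ← hu]
    have : (FreeGroup.lift (fun i => (y i : G))).comp (FreeGroup.map Sum.inr) =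
        (MulAut.conj (x s)).toMonoidHom.comp
          (FreeGroup.lift (fun t : {t : ι // t ≠ s} => x t)) := by
      apply FreeGroup.ext_hom
      intro t
      simp [y]
    exact DFunLike.congr_fun this u
  have heq : FreeGroup.map Sum.inl v = FreeGroup.map Sum.inr u := hinj2 (hkv.trans hku.symm)
  have hv1 : v = 1 := by
    let κ : FreeGroup ({t : ι // t ≠ s} ⊕ {t : ι // t ≠ s}) →* FreeGroup {t : ι // t ≠ s} :=
      FreeGroup.lift (fun i => match i with
        | Sum.inl t => FreeGroup.of t
        | Sum.inr _ => 1)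
    have h1 : κ (FreeGroup.map Sum.inl v) = v := by
      have : κ.comp (FreeGroup.map Sum.inl) = MonoidHom.id _ := by
        apply FreeGroup.ext_hom
        intro t
        simp [κ]
      exact DFunLike.congr_fun this v
    have h2 : κ (FreeGroup.map Sum.inr u) = 1 := by
      have : κ.comp (FreeGroup.map Sum.inr) = 1 := by
        apply FreeGroup.ext_hom
        intro t
        simp [κ]
      exact DFunLike.congr_fun this u
    rw [← h1, heq, h2]
  apply hk
  rw [← hv, hv1, map_one]

end ChiK

end Pool.Agent.SurfExact
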