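import Pool.Agent.SurfExact.BasicB

/-!
# Group rings without zero divisors
-/

set_option autoImplicit false

namespace Pool.Agent.SurfExact

open Function

section Domain

theorem h11_uniq {G : Type*} [Group G]
    (h : ∀ K : Subgroup G, K.FG → K ≠ ⊥ → ∃ f : K →* Multiplicative ℤ, f ≠ 1) (n : ℕ) :
    ∀ (A B : Finset G), A.Nonempty → B.Nonempty → A.card + B.card ≤ n →
      ∃ a0 ∈ A, ∃ b0 ∈ B, UniqueMul A B a0 b0 := by
  classical
  induction n with
  | zero =>
    intro A B hA _ hn
    have := hA.card_pos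
    omega
  | succ n ih =>
    intro A B hA hB hn
    obtain ⟨a1, ha1⟩ := hA
    obtain ⟨b1, hb1⟩ := hB
    by_cases hone : ∀ a ∈ A, ∀ b ∈ B, a = a1 ∧ b = b1
    · refine ⟨a1, ha1, b1, hb1, ?_⟩
      intro a b ha hb _
      exact hone a ha b hb
    · let S : Finset G := A.image (fun a => a1⁻¹ * a) ∪ B.image (fun b => b * b1⁻¹)
      let K : Subgroup G := Subgroup.closure (S : Set G)
      have hAK : ∀ a ∈ A, a1⁻¹ * a ∈ K := fun a ha =>
        Subgroup.subset_closure (Finset.mem_coe.2 (Finset.mem_union_left _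
          (Finset.mem_image_of_mem _ ha)))
      have hBK : ∀ b ∈ B, b * b1⁻¹ ∈ K := fun b hb =>
        Subgroup.subset_closure (Finset.mem_coe.2 (Finset.mem_union_right _
          (Finset.mem_image_of_mem _ hb)))
      have hK : K ≠ ⊥ := by
        intro hbot
        apply hone
        intro a ha b hb
        have h1 := hAK a ha
        have h2 := hBK b hb
        rw [hbot, Subgroup.mem_bot] at h1 h2
        exact ⟨(inv_mul_eq_one.1 h1).symm, mul_inv_eq_one.1 h2⟩
      obtain ⟨f, hf⟩ := h K ⟨S, rfl⟩ hK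
      let F : G → ℤ := fun g => if hg : g ∈ K then Multiplicative.toAdd (f ⟨g, hg⟩) else 0
      have hF : ∀ g g', g ∈ K → g' ∈ K → F (g * g') = F g + F g' := by
        intro g g' hg hg'
        have h3 : g * g' ∈ K := K.mul_mem hg hg'
        simp only [F, dif_pos hg, dif_pos hg', dif_pos h3]
        have : (⟨g * g', h3⟩ : K) = ⟨g, hg⟩ * ⟨g', hg'⟩ := rfl
        rw [this, map_mul, toAdd_mul]
      have hF1 : F 1 = 0 := by
        have := hF 1 1 K.one_mem K.one_mem
        rw [mul_one] at this
        omega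
      let φ : G → ℤ := fun a => F (a1⁻¹ * a)
      let ψ : G → ℤ := fun b => F (b * b1⁻¹)
      have hsum : ∀ a ∈ A, ∀ b ∈ B, φ a + ψ b = F (a1⁻¹ * a * (b * b1⁻¹)) :=
        fun a ha b hb => (hF _ _ (hAK a ha) (hBK b hb)).symm
      obtain ⟨am, ham, hamax⟩ := A.exists_max_image φ ⟨a1, ha1⟩
      obtain ⟨bm, hbm, hbmax⟩ := B.exists_max_image ψ ⟨b1, hb1⟩
      let A' := A.filter (fun a => φ a = φ am)
      let B' := B.filter (fun b => ψ b = ψ bm)
      have hAB : A'.card + B'.card ≤ n := by
        have h1 : A'.card ≤ A.card := Finset.card_filter_le _ _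
        have h2 : B'.card ≤ B.card := Finset.card_filter_le _ _
        by_contra hlt
        have h3 : A'.card = A.card := by omega
        have h4 : B'.card = B.card := by omega
        have h5 : A' = A := Finset.eq_of_subset_of_card_le (Finset.filter_subset _ _) h3.ge
        have h6 : B' = B := Finset.eq_of_subset_of_card_le (Finset.filter_subset _ _) h4.ge
        have e1 : φ a1 = 0 := by
          show F (a1⁻¹ * a1) = 0
          rw [inv_mul_cancel, hF1]
        have e2 : ψ b1 = 0 := by
          show F (b1 * b1⁻¹) = 0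
          rw [mul_inv_cancel, hF1]
        have h7 : ∀ a ∈ A, φ a = 0 := by
          intro a ha
          rw [← h5] at ha ha1
          rw [(Finset.mem_filter.1 ha).2, ← (Finset.mem_filter.1 ha1).2, e1]
        have h8 : ∀ b ∈ B, ψ b = 0 := by
          intro b hb
          rw [← h6] at hb hb1
          rw [(Finset.mem_filter.1 hb).2, ← (Finset.mem_filter.1 hb1).2, e2]
        apply hf
        have key : ∀ g (hg : g ∈ K), f ⟨g, hg⟩ = 1 := by
          intro g hg
          induction hg using Subgroup.closure_induction with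
          | mem g hg' =>
            rcases Finset.mem_union.1 (Finset.mem_coe.1 hg') with h9 | h9
            · obtain ⟨a, ha, rfl⟩ := Finset.mem_image.1 h9
              have := h7 a ha
              simp only [φ, F, dif_pos (hAK a ha)] at this
              exact toAdd_eq_zero.1 this
            · obtain ⟨b, hb, rfl⟩ := Finset.mem_image.1 h9
              have := h8 b hb
              simp only [ψ, F, dif_pos (hBK b hb)] at this
              exact toAdd_eq_zero.1 this
          | one => exact map_one f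
          | mul g g' hg hg' h9 h10 =>
            have : (⟨g * g', K.mul_mem hg hg'⟩ : K) = ⟨g, hg⟩ * ⟨g', hg'⟩ := rfl
            rw [this, map_mul, h9, h10, mul_one]
          | inv g hg h9 =>
            have : (⟨g⁻¹, K.inv_mem hg⟩ : K) = ⟨g, hg⟩⁻¹ := rfl
            rw [this, map_inv, h9, inv_one]
        ext g
        rw [key g.1 g.2]
        rfl
      obtain ⟨a0, ha0, b0, hb0, hu⟩ := ih A' B' ⟨am, Finset.mem_filter.2 ⟨ham, rfl⟩⟩
        ⟨bm, Finset.mem_filter.2 ⟨hbm, rfl⟩⟩ hAB
      refine ⟨a0, (Finset.mem_filter.1 ha0).1, b0, (Finset.mem_filter.1 hb0).1, ?_⟩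
      intro a b ha hb hab
      have e1 := hsum a ha b hb
      have e2 := hsum a0 (Finset.mem_filter.1 ha0).1 b0 (Finset.mem_filter.1 hb0).1
      have e3 : a1⁻¹ * a * (b * b1⁻¹) = a1⁻¹ * a0 * (b0 * b1⁻¹) := by
        calc a1⁻¹ * a * (b * b1⁻¹) = a1⁻¹ * (a * b) * b1⁻¹ := by group
          _ = a1⁻¹ * (a0 * b0) * b1⁻¹ := by rw [hab]
          _ = _ := by group
      rw [e3, ← e2, (Finset.mem_filter.1 ha0).2, (Finset.mem_filter.1 hb0).2] at e1
      have m1 := hamax a ha
      have m2 := hbmax b hb
      exact hu (Finset.mem_filter.2 ⟨ha, by omega⟩) (Finset.mem_filter.2 ⟨hb, by omega⟩) hab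

theorem uniqueProds_of_locInd {G : Type*} [Group G]
    (h : ∀ K : Subgroup G, K.FG → K ≠ ⊥ → ∃ f : K →* Multiplicative ℤ, f ≠ 1) : UniqueProds G :=
  ⟨fun {A B} hA hB => h11_uniq h _ A B hA hB le_rfl⟩

theorem h11_free_char (K : Type*) [Group K] [IsFreeGroup K] (hK : Nontrivial K) :
    ∃ f : K →* Multiplicative ℤ, f ≠ 1 := by
  have hne : Nonempty (IsFreeGroup.Generators K) := by
    by_contra hemp
    rw [not_nonempty_iff] at hemp
    have : Subsingleton (FreeGroup (IsFreeGroup.Generators K)) := inferInstance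
    have : Subsingleton K := (IsFreeGroup.toFreeGroup K).toEquiv.subsingleton
    exact not_subsingleton K this
  obtain ⟨g⟩ := hne
  refine ⟨IsFreeGroup.lift (fun _ => Multiplicative.ofAdd 1), fun h => ?_⟩
  have h1 := IsFreeGroup.lift_of (fun _ : IsFreeGroup.Generators K => Multiplicative.ofAdd (1 : ℤ)) g
  rw [h] at h1
  have : (0 : ℤ) = 1 := congrArg Multiplicative.toAdd h1
  omega

theorem uniqueProds_of_isFreeGroup (G : Type*) [Group G] [IsFreeGroup G] : UniqueProds G := by
  apply uniqueProds_of_locInd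
  intro K _ hK
  exact h11_free_char K ((Subgroup.nontrivial_iff_ne_bot K).2 hK)

theorem uniqueProds_of_ker_free {G : Type*} [Group G] (f : G →* Multiplicative ℤ)
    (hf : IsFreeGroup f.ker) : UniqueProds G := by
  apply uniqueProds_of_locInd
  intro K _ hK
  by_cases h : f.comp K.subtype = 1
  · have hle : K ≤ f.ker := by
      intro g hg
      rw [MonoidHom.mem_ker]
      exact DFunLike.congr_fun h (⟨g, hg⟩ : K)
    have hfree : IsFreeGroup (K.subgroupOf f.ker) := subgroupIsFreeOfIsFree _
    have : IsFreeGroup K := IsFreeGroup.ofMulEquiv (Subgroup.subgroupOfEquivOfLe hle)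
    exact h11_free_char K ((Subgroup.nontrivial_iff_ne_bot K).2 hK)
  · exact ⟨_, h⟩

theorem noZeroDivisors_of_uniqueProds {G : Type*} [Group G] (h : UniqueProds G) :
    NoZeroDivisors (QG G) := by
  have := h
  infer_instance

theorem unit_trivial {G : Type*} [Group G] (hG : UniqueProds G) {a b : QG G} (h : a * b = 1) :
    ∃ (c : ℚ) (g : G), c ≠ 0 ∧ a = c • el g ∧ b = c⁻¹ • el g⁻¹ := by
  have := hG
  have := UniqueProds.toTwoUniqueProds_of_group (G := G)
  have hone : (1 : QG G).coeff = Finsupp.single 1 1 := by rw [← el_one, el_coeff]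
  have ha0 : a ≠ 0 := by
    rintro rfl
    rw [zero_mul] at h
    exact zero_ne_one h
  have hb0 : b ≠ 0 := by
    rintro rfl
    rw [mul_zero] at h
    exact zero_ne_one h
  have hcard : ¬ 1 < a.coeff.support.card * b.coeff.support.card := by
    intro hc
    obtain ⟨p, hp, q, hq, hpq, hup, huq⟩ := TwoUniqueProds.uniqueMul_of_one_lt_card hc
    rw [Finset.mem_product] at hp hq
    have h1 := MonoidAlgebra.coeff_mul_mul_of_uniqueMul hup
    have h2 := MonoidAlgebra.coeff_mul_mul_of_uniqueMul huq
    rw [h, hone] at h1 h2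
    have h3 : a.coeff p.1 * b.coeff p.2 ≠ 0 :=
      mul_ne_zero (Finsupp.mem_support_iff.1 hp.1) (Finsupp.mem_support_iff.1 hp.2)
    have h4 : a.coeff q.1 * b.coeff q.2 ≠ 0 :=
      mul_ne_zero (Finsupp.mem_support_iff.1 hq.1) (Finsupp.mem_support_iff.1 hq.2)
    rw [← h1] at h3
    rw [← h2] at h4
    have h5 : p.1 * p.2 = 1 := by
      by_contra h5
      exact h3 (Finsupp.single_eq_of_ne h5)
    have h6 : q.1 * q.2 = 1 := by
      by_contra h6
      exact h4 (Finsupp.single_eq_of_ne h6)
    have := hup hq.1 hq.2 (h6.trans h5.symm)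
    exact hpq (Prod.ext this.1.symm this.2.symm)
  have hac : 1 ≤ a.coeff.support.card := by
    rw [Nat.one_le_iff_ne_zero, Finset.card_ne_zero, Finsupp.support_nonempty_iff]
    simpa using ha0
  have hbc : 1 ≤ b.coeff.support.card := by
    rw [Nat.one_le_iff_ne_zero, Finset.card_ne_zero, Finsupp.support_nonempty_iff]
    simpa using hb0
  have hac1 : a.coeff.support.card = 1 := by
    by_contra hne
    exact hcard (by nlinarith [Nat.lt_of_le_of_ne hac (Ne.symm hne)])
  have hbc1 : b.coeff.support.card = 1 := by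
    by_contra hne
    exact hcard (by nlinarith [Nat.lt_of_le_of_ne hbc (Ne.symm hne)])
  obtain ⟨g, c, hc, hg⟩ := Finsupp.card_support_eq_one'.1 hac1
  obtain ⟨g', c', hc', hg'⟩ := Finsupp.card_support_eq_one'.1 hbc1
  have ea : a = c • el g := by
    rw [QG_eq_sum a, hg, Finsupp.sum_single_index (by simp)]
  have eb : b = c' • el g' := by
    rw [QG_eq_sum b, hg', Finsupp.sum_single_index (by simp)]
  rw [ea, eb, smul_mul_smul_comm, ← el_mul] at h
  have h1 := congrArg (fun z : QG G => z.coeff (g * g')) h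
  simp only [MonoidAlgebra.coeff_smul, el_coeff, Finsupp.smul_apply, Finsupp.single_eq_same,
    hone] at h1
  have h2 : g * g' = 1 := by
    by_contra h2
    rw [Finsupp.single_eq_of_ne h2, smul_eq_mul, mul_one] at h1
    exact mul_ne_zero hc hc' h1
  rw [h2, Finsupp.single_eq_same, smul_eq_mul, mul_one] at h1
  refine ⟨c, g, hc, ea, ?_⟩
  rw [eb, eq_inv_of_mul_eq_one_right h2, eq_inv_of_mul_eq_one_right h1]

end Domain

end Pool.Agent.SurfExact
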