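import Pool.Agent.SurfExact.Der
import Pool.Agent.SurfGrowth.Indep

/-!
# MP_5bf54f_al, Theorem B, package B0b': twisted derivations at `2g` independent elements
-/

set_option autoImplicit false

namespace Pool.Agent.SurfExact

open Function Pool.Agent.SurfGrowth Polynomial

/-- `u` is a Laurent polynomial with value `r` at `1` -/
def H11P (u : RatFunc ℚ) (r : ℚ) : Prop :=
  ∃ (n : ℕ) (p : ℚ[X]), RatFunc.X ^ n * u = algebraMap ℚ[X] (RatFunc ℚ) p ∧ p.eval 1 = r

theorem H11P.zero : H11P 0 0 := ⟨0, 0, by simp, by simp⟩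

theorem H11P.of (p : ℚ[X]) : H11P (algebraMap ℚ[X] (RatFunc ℚ) p) (p.eval 1) :=
  ⟨0, p, by simp, rfl⟩

theorem H11P.add {u v : RatFunc ℚ} {r s : ℚ} (h : H11P u r) (h' : H11P v s) :
    H11P (u + v) (r + s) := by
  obtain ⟨n, p, h1, h2⟩ := h
  obtain ⟨m, q, h3, h4⟩ := h'
  refine ⟨n + m, X ^ m * p + X ^ n * q, ?_, ?_⟩
  · rw [map_add, map_mul, map_mul, ← h1, ← h3, map_pow, map_pow, RatFunc.algebraMap_X]
    ring
  · simp [h2, h4]

theorem H11P.neg {u : RatFunc ℚ} {r : ℚ} (h : H11P u r) : H11P (-u) (-r) := by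
  obtain ⟨n, p, h1, h2⟩ := h
  exact ⟨n, -p, by rw [mul_neg, h1, map_neg], by rw [eval_neg, h2]⟩

theorem H11P.zpow_mul {u : RatFunc ℚ} {r : ℚ} (h : H11P u r) (z : ℤ) :
    H11P (RatFunc.X ^ z * u) r := by
  obtain ⟨n, p, h1, h2⟩ := h
  refine ⟨n + z.natAbs, X ^ (z.natAbs + z).toNat * p, ?_, ?_⟩
  · have h3 : (((z.natAbs + z).toNat : ℕ) : ℤ) = z.natAbs + z := Int.toNat_of_nonneg (by omega)
    have h4 : (RatFunc.X : RatFunc ℚ) ^ (z.natAbs + z).toNat =
        RatFunc.X ^ z.natAbs * RatFunc.X ^ z := by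
      rw [← zpow_natCast, h3, zpow_add₀ RatFunc.X_ne_zero, zpow_natCast]
    rw [map_mul, map_pow, RatFunc.algebraMap_X, h4, ← h1, pow_add]
    ring
  · simp [h2]

theorem H11P.eq_zero {r : ℚ} (h : H11P 0 r) : r = 0 := by
  obtain ⟨n, p, h1, h2⟩ := h
  rw [mul_zero] at h1
  have h3 : p = 0 := (map_eq_zero_iff _ (RatFunc.algebraMap_injective ℚ)).1 h1.symm
  rw [← h2, h3, eval_zero]

section

variable {g : ℕ} (F : SurfaceGroup g →* Multiplicative ℤ)

theorem h11_closure_gen : Subgroup.closure (Set.range (SurfaceGroup.gen (g := g))) = ⊤ :=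
  PresentedGroup.closure_range_of _

/-- the functional with values `c y` -/
noncomputable def h11Fun (c : Fin g × Bool → ℚ) : ((Fin g × Bool) →₀ ℚ) →ₗ[ℚ] ℚ :=
  Finsupp.lsum ℚ (fun y => (LinearMap.id (R := ℚ) (M := ℚ)).smulRight (c y))

theorem h11Fun_single (c : Fin g × Bool → ℚ) (y : Fin g × Bool) :
    h11Fun c (Finsupp.single y 1) = c y := by
  simp [h11Fun]

theorem h11_eval (δ : SurfaceGroup g → RatFunc ℚ) (hδ : δ ∈ h11E RatFunc.X F)
    (p : Fin g × Bool → ℚ[X])
    (hp : ∀ y, δ (SurfaceGroup.gen y) = algebraMap ℚ[X] (RatFunc ℚ) (p y)) (a : SurfaceGroup g) :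
    H11P (δ a) (h11Fun (fun y => (p y).eval 1) (Multiplicative.toAdd (SurfaceGroup.ab a))) := by
  have hd : ∀ a b, δ (a * b) = δ a + RatFunc.X ^ (Multiplicative.toAdd (F a)) * δ b := hδ
  have h1 : δ 1 = 0 := by
    have := hd 1 1
    rw [mul_one, map_one, toAdd_one, zpow_zero, one_mul] at this
    simpa using this
  have ha : a ∈ Subgroup.closure (Set.range (SurfaceGroup.gen (g := g))) := by
    rw [h11_closure_gen]; trivial
  induction ha using Subgroup.closure_induction with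
  | mem a ha =>
    obtain ⟨y, rfl⟩ := ha
    rw [SurfaceGroup.ab_gen, h11Fun_single, hp]
    exact H11P.of _
  | one =>
    rw [h1, map_one, toAdd_one, map_zero]
    exact H11P.zero
  | mul a b _ _ ha hb =>
    rw [hd, map_mul, toAdd_mul, map_add]
    exact ha.add (hb.zpow_mul _)
  | inv a _ ha =>
    have h2 := hd a⁻¹ a
    rw [inv_mul_cancel, h1] at h2
    have h3 : δ a⁻¹ = -(RatFunc.X ^ (Multiplicative.toAdd (F a⁻¹)) * δ a) := by
      linear_combination -h2
    rw [h3, map_inv SurfaceGroup.ab, toAdd_inv, map_neg]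
    exact (ha.zpow_mul _).neg

theorem h11_main {ι : Type} [Fintype ι] (hι : Fintype.card ι = 2 * g) (x : ι → SurfaceGroup g)
    (hind : LinearIndependent ℚ (fun i => Multiplicative.toAdd (SurfaceGroup.ab (x i))))
    (y0 : Fin g × Bool) : ∀ (n : ℕ) (δ : SurfaceGroup g → RatFunc ℚ) (_ : δ ∈ h11E RatFunc.X F)
    (p : Fin g × Bool → ℚ[X])
    (_ : ∀ y, δ (SurfaceGroup.gen y) = algebraMap ℚ[X] (RatFunc ℚ) (p y))
    (_ : ∀ t, δ (x t) = 0), (p y0).natDegree ≤ n → p y0 = 0 := by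
  intro n
  induction n with
  | zero =>
    intro δ hδ p hp h0 hn
    have hfin : Fintype.card ι = Module.finrank ℚ ((Fin g × Bool) →₀ ℚ) := by
      rw [Module.finrank_finsupp_self, hι]
      simp [mul_comm]
    have hspan := hind.span_eq_top_of_card_eq_finrank' hfin
    have hl : h11Fun (fun y => (p y).eval 1) = 0 := by
      apply LinearMap.ext_on hspan
      rintro _ ⟨t, rfl⟩
      have h1 := h11_eval F δ hδ p hp (x t)
      rw [h0 t] at h1
      rw [h1.eq_zero]; rfl
    have h2 : (p y0).eval 1 = 0 := by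
      have := LinearMap.congr_fun hl (Finsupp.single y0 1)
      rwa [h11Fun_single] at this
    have h3 := eq_C_of_natDegree_le_zero hn
    rw [h3, eval_C] at h2
    rw [h3, h2, C_0]
  | succ n ih =>
    intro δ hδ p hp h0 hn
    have hfin : Fintype.card ι = Module.finrank ℚ ((Fin g × Bool) →₀ ℚ) := by
      rw [Module.finrank_finsupp_self, hι]
      simp [mul_comm]
    have hspan := hind.span_eq_top_of_card_eq_finrank' hfin
    have hl : h11Fun (fun y => (p y).eval 1) = 0 := by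
      apply LinearMap.ext_on hspan
      rintro _ ⟨t, rfl⟩
      have h1 := h11_eval F δ hδ p hp (x t)
      rw [h0 t] at h1
      rw [h1.eq_zero]; rfl
    have h2 : ∀ y, (p y).eval 1 = 0 := by
      intro y
      have := LinearMap.congr_fun hl (Finsupp.single y 1)
      rwa [h11Fun_single] at this
    have h3 : ∀ y, ∃ q, p y = (X - C 1) * q := fun y => dvd_iff_isRoot.2 (h2 y)
    choose q hq using h3
    have hX : algebraMap ℚ[X] (RatFunc ℚ) (X - C 1) ≠ 0 := by
      rw [Ne, map_eq_zero_iff _ (RatFunc.algebraMap_injective ℚ)]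
      exact X_sub_C_ne_zero 1
    have h4 := ih ((algebraMap ℚ[X] (RatFunc ℚ) (X - C 1))⁻¹ • δ) (Submodule.smul_mem _ _ hδ) q (by
      intro y
      rw [Pi.smul_apply, hp, hq, smul_eq_mul, map_mul, inv_mul_cancel_left₀ hX]) (by
      intro t
      rw [Pi.smul_apply, h0, smul_zero])
    by_cases h5 : q y0 = 0
    · rw [hq, h5, mul_zero]
    · exfalso
      apply h5
      apply h4
      rw [hq, natDegree_mul (X_sub_C_ne_zero 1) h5, natDegree_X_sub_C] at hn
      omega

theorem h11_inj {ι : Type} [Fintype ι] (hι : Fintype.card ι = 2 * g) (x : ι → SurfaceGroup g)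
    (hind : LinearIndependent ℚ (fun i => Multiplicative.toAdd (SurfaceGroup.ab (x i))))
    (δ : SurfaceGroup g → RatFunc ℚ) (hδ : δ ∈ h11E RatFunc.X F)
    (h0 : ∀ t, δ (x t) = 0) : δ = 0 := by
  obtain ⟨b, hb⟩ := IsLocalization.exist_integer_multiples_of_finite (nonZeroDivisors ℚ[X])
    (S := RatFunc ℚ) (fun y => δ (SurfaceGroup.gen y))
  choose p hp using hb
  have hb0 : algebraMap ℚ[X] (RatFunc ℚ) b ≠ 0 := by
    rw [Ne, map_eq_zero_iff _ (RatFunc.algebraMap_injective ℚ)]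
    exact nonZeroDivisors.coe_ne_zero b
  have h1 : ∀ y, p y = 0 := fun y => h11_main F hι x hind y (p y).natDegree
    (algebraMap ℚ[X] (RatFunc ℚ) b • δ) (Submodule.smul_mem _ _ hδ) p (by
      intro y
      rw [hp y, Pi.smul_apply, smul_eq_mul]
      exact (Algebra.smul_def _ _).symm) (by
      intro t
      rw [Pi.smul_apply, h0, smul_zero]) le_rfl
  apply h11E_zero RatFunc.X F SurfaceGroup.gen h11_closure_gen δ hδ
  intro y
  have h2 := hp y
  rw [h1 y, map_zero] at h2
  have h3 : algebraMap ℚ[X] (RatFunc ℚ) b * δ (SurfaceGroup.gen y) = 0 := by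
    rw [← Algebra.smul_def]
    exact h2.symm
  exact (mul_eq_zero.1 h3).resolve_left hb0

end

theorem der_sub {g : ℕ} {H : Type} [Group H] (j : H →* SurfaceGroup g) {ι : Type} [Fintype ι]
    [DecidableEq ι] (hι : Fintype.card ι = 2 * g) (x : ι → H)
    (hind : LinearIndependent ℚ (fun i => Multiplicative.toAdd (SurfaceGroup.ab (j (x i)))))
    (F : SurfaceGroup g →* Multiplicative ℤ) :
    ∃ W : Submodule (RatFunc ℚ) (ι → RatFunc ℚ),
      Fintype.card ι ≤ Module.finrank (RatFunc ℚ) W + 1 ∧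
      ∀ v ∈ W, ∃ δ : H → RatFunc ℚ,
        (∀ a b, δ (a * b) = δ a + RatFunc.X ^ (Multiplicative.toAdd (F (j a))) * δ b) ∧
        ∀ t, δ (x t) = v t := by
  classical
  let E := h11E (RatFunc.X : RatFunc ℚ) F
  let ev : {κ : Type} → (κ → SurfaceGroup g) → E →ₗ[RatFunc ℚ] (κ → RatFunc ℚ) := fun y =>
    (LinearMap.funLeft (RatFunc ℚ) (RatFunc ℚ) y).comp E.subtype
  have ev_apply : ∀ {κ : Type} (y : κ → SurfaceGroup g) (δ : E) (t : κ),
      ev y δ t = δ.1 (y t) := fun y δ t => rfl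
  have inj : Injective (ev (fun t => j (x t))) := by
    rw [injective_iff_map_eq_zero]
    intro δ hδ
    exact Subtype.ext (h11_inj F hι (fun t => j (x t)) hind δ.1 δ.2 (fun t => congrFun hδ t))
  have fd : FiniteDimensional (RatFunc ℚ) E := FiniteDimensional.of_injective _ inj
  obtain ⟨W, hW1, hW2⟩ := der_surface (g := g) (RatFunc.X : RatFunc ℚ) RatFunc.X_ne_zero
    SurfaceGroup.gen h11_closure_gen F (by
      rw [Fintype.card_prod, Fintype.card_fin, Fintype.card_bool, mul_comm])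
  have hW3 : W ≤ LinearMap.range (ev (SurfaceGroup.gen (g := g))) := by
    intro v hv
    obtain ⟨δ, h1, h2⟩ := hW2 v hv
    exact ⟨⟨δ, h1⟩, funext h2⟩
  have h1 : Module.finrank (RatFunc ℚ) W ≤ Module.finrank (RatFunc ℚ) E :=
    (Submodule.finrank_mono hW3).trans (LinearMap.finrank_range_le _)
  refine ⟨LinearMap.range (ev (fun t => j (x t))), ?_, ?_⟩
  · rw [LinearMap.finrank_range_of_inj inj, hι]
    rw [Fintype.card_prod, Fintype.card_fin, Fintype.card_bool, mul_comm] at hW1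
    omega
  · rintro v ⟨δ, rfl⟩
    refine ⟨fun h => δ.1 (j h), ?_, fun t => rfl⟩
    intro a b
    have : ∀ a b, δ.1 (a * b) = δ.1 a + RatFunc.X ^ (Multiplicative.toAdd (F a)) * δ.1 b := δ.2
    show δ.1 (j (a * b)) = _
    rw [map_mul, this]

end Pool.Agent.SurfExact
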