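import Pool.Agent.SurfExact.KerEuclid

/-!
# MP_5bf54f_al, Theorem B, package B0a: kernels of characters of surface groups are free
-/

set_option autoImplicit false

namespace Pool.Agent.SurfExact

open Function Pool.Agent.SurfGrowth Pool.Agent.SurfGrowth.SurfaceGroup

open scoped commutatorElement

namespace KE

/-- a group embedding in a free group is free -/
theorem free_of_injective {A B : Type*} [Group A] [Group B] [IsFreeGroup B] (β : A →* B)
    (hβ : Injective β) : IsFreeGroup A := by
  have h1 : IsFreeGroup β.range := inferInstance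
  exact IsFreeGroup.ofMulEquiv (MonoidHom.ofInjective hβ).symm

/-- the integral character with given values on the generators -/
def chr {g : ℕ} (m : Fin g × Bool → ℤ) : SurfaceGroup g →* Multiplicative ℤ :=
  toGroup (fun y => Multiplicative.ofAdd (m y)) (commProd (fun a b => mul_comm a b) _)

theorem chr_gen {g : ℕ} (m : Fin g × Bool → ℤ) (y : Fin g × Bool) :
    chr m (gen y) = Multiplicative.ofAdd (m y) := toGroup_gen _ _ _

/-- the predicate: the kernel of the character is free -/
def KF {n : ℕ} (m : Fin (n + 1) × Bool → ℤ) : Prop := IsFreeGroup (chr m).ker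

theorem KF.transfer {n : ℕ} {m m' : Fin (n + 1) × Bool → ℤ} (h : KF m')
    (α γ : SurfaceGroup (n + 1) →* SurfaceGroup (n + 1)) (hγ : ∀ y, γ (α (gen y)) = gen y)
    (hα : ∀ y, chr m' (α (gen y)) = Multiplicative.ofAdd (m y)) : KF m := by
  have h1 : γ.comp α = MonoidHom.id _ := hom_ext (fun y => hγ y)
  have h2 : (chr m').comp α = chr m := hom_ext (fun y => by
    rw [MonoidHom.comp_apply, hα, chr_gen])
  have hinj : Injective α := by
    intro a b hab
    have := congrArg γ hab
    have e1 := DFunLike.congr_fun h1 a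
    have e2 := DFunLike.congr_fun h1 b
    simp only [MonoidHom.comp_apply, MonoidHom.id_apply] at e1 e2
    rw [e1, e2] at this
    exact this
  have : IsFreeGroup (chr m').ker := h
  let β : (chr m).ker →* (chr m').ker :=
    (α.comp (chr m).ker.subtype).codRestrict (chr m').ker (by
      intro z
      rw [MonoidHom.mem_ker]
      have := DFunLike.congr_fun h2 z.1
      simp only [MonoidHom.comp_apply] at this
      show chr m' (α z.1) = 1
      rw [this]
      exact z.2)
  have hβ : Injective β := by
    intro a b hab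
    apply Subtype.ext
    exact hinj (congrArg Subtype.val hab)
  exact free_of_injective β hβ

theorem tGen_self {g : ℕ} (i : Fin g) (s : Bool) (ε : ℤ) :
    tGen i s ε (i, s) = gen (i, s) * gen (i, !s) ^ ε := by
  unfold tGen
  rw [if_pos rfl]

theorem tGen_ne {g : ℕ} (i : Fin g) (s : Bool) (ε : ℤ) {y : Fin g × Bool} (h : y ≠ (i, s)) :
    tGen i s ε y = gen y := by
  unfold tGen
  rw [if_neg h]

theorem hT {n : ℕ} (i : Fin (n + 1)) (s : Bool) (ε : ℤ) {m m' : Fin (n + 1) × Bool → ℤ}
    (h1 : m (i, s) = m' (i, s) + ε * m' (i, !s)) (h2 : ∀ y, y ≠ (i, s) → m y = m' y)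
    (hm' : KF m') : KF m := by
  classical
  have hne : ((i, !s) : Fin (n + 1) × Bool) ≠ (i, s) := by
    intro h
    have := (Prod.mk.inj h).2
    cases s <;> simp at this
  refine hm'.transfer (toGroup (tGen i s ε) (tGen_rel i s ε))
    (toGroup (tGen i s (-ε)) (tGen_rel i s (-ε))) ?_ ?_
  · intro y
    rw [toGroup_gen]
    by_cases hy : y = (i, s)
    · subst hy
      rw [tGen_self, map_mul, map_zpow, toGroup_gen, toGroup_gen, tGen_self, tGen_ne _ _ _ hne]
      group
    · rw [tGen_ne _ _ _ hy, toGroup_gen, tGen_ne _ _ _ hy]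
  · intro y
    rw [toGroup_gen]
    by_cases hy : y = (i, s)
    · subst hy
      rw [tGen_self, map_mul, map_zpow, chr_gen, chr_gen, h1]
      apply Multiplicative.toAdd.injective
      simp [mul_comm]
    · rw [tGen_ne _ _ _ hy, chr_gen, h2 y hy]

section Slide

variable {n : ℕ} (j : Fin n)

/-- `c~ = Z c Z⁻¹` -/
noncomputable def cT : SurfaceGroup (n + 1) := midZ j * gen (j.succ, false) * (midZ j)⁻¹

/-- `d~ = Z d Z⁻¹` -/
noncomputable def dT : SurfaceGroup (n + 1) := midZ j * gen (j.succ, true) * (midZ j)⁻¹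

/-- images of the generators under the inverse slide -/
noncomputable def rGen (y : Fin (n + 1) × Bool) : SurfaceGroup (n + 1) :=
  open Classical in
  if y = (0, false) then
    (gen (0, true))⁻¹ * (cT j)⁻¹ * gen (0, true) * gen (0, false)
  else if y = (j.succ, false) then
    (midZ j)⁻¹ * ((cT j)⁻¹ * slB⁻¹ * cT j * slB * cT j) * midZ j
  else if y = (j.succ, true) then
    (midZ j)⁻¹ * (dT j * (cT j)⁻¹ * slB * cT j) * midZ j
  else gen y

theorem rGen_identity {K : Type*} [Group K] (a b c d Z : K) :
    let P := b * a * b⁻¹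
    let β := P * b * P⁻¹
    let c' := Z * c * Z⁻¹
    let d' := Z * d * Z⁻¹
    ⁅b⁻¹ * c'⁻¹ * b * a, b⁆ * (Z *
      ⁅Z⁻¹ * (c'⁻¹ * β⁻¹ * c' * β * c') * Z, Z⁻¹ * (d' * c'⁻¹ * β * c') * Z⁆) =
    ⁅a, b⁆ * (Z * ⁅c, d⁆) := by
  simp only [commutatorElement_def]
  group

theorem rGen0 : rGen j (0, false) =
    (gen (0, true))⁻¹ * (cT j)⁻¹ * gen (0, true) * gen (0, false) := by
  unfold rGen
  rw [if_pos rfl]

theorem rGen1 : rGen j (0, true) = gen (0, true) := by
  unfold rGen
  rw [if_neg (by simp), if_neg (by simp), if_neg (by simp [(Fin.succ_ne_zero j).symm])]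

theorem rGen2 : rGen j (j.succ, false) =
    (midZ j)⁻¹ * ((cT j)⁻¹ * slB⁻¹ * cT j * slB * cT j) * midZ j := by
  unfold rGen
  rw [if_neg (by simp [Fin.succ_ne_zero]), if_pos rfl]

theorem rGen3 : rGen j (j.succ, true) =
    (midZ j)⁻¹ * (dT j * (cT j)⁻¹ * slB * cT j) * midZ j := by
  unfold rGen
  rw [if_neg (by simp), if_neg (by simp), if_pos rfl]

theorem rGen_off (k : Fin n) (hk : k ≠ j) (s : Bool) : rGen j (k.succ, s) = gen (k.succ, s) := by
  unfold rGen
  rw [if_neg (by simp [Fin.succ_ne_zero]), if_neg (by simp [hk]), if_neg (by simp [hk])]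

theorem rGen_rel :
    (List.ofFn (fun k : Fin (n + 1) => ⁅rGen j (k, false), rGen j (k, true)⁆)).prod = 1 := by
  rw [← rel_eq_one (g := n + 1)]
  rw [List.ofFn_succ, List.ofFn_succ, List.prod_cons, List.prod_cons]
  have hoff : ∀ k : Fin n, k ≠ j → ⁅rGen j (k.succ, false), rGen j (k.succ, true)⁆ =
      ⁅gen (k.succ, false), gen (k.succ, true)⁆ := by
    intro k hk
    rw [rGen_off j k hk, rGen_off j k hk]
  rw [ofFn_prod_split _ j, take_congr _ _ j hoff, drop_congr _ _ j hoff]
  rw [ofFn_prod_split (fun k : Fin n => ⁅gen (k.succ, false), gen (k.succ, true)⁆) j]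
  rw [rGen0, rGen1, rGen2, rGen3]
  have key := rGen_identity (gen (g := n + 1) (0, false)) (gen (0, true)) (gen (j.succ, false))
    (gen (j.succ, true)) (midZ j)
  simp only at key
  have reassoc : ∀ u z v u' v' q : SurfaceGroup (n + 1), u * (z * v) = u' * (z * v') →
      u * (z * v * q) = u' * (z * v' * q) := by
    intro u z v u' v' q h
    calc u * (z * v * q) = (u * (z * v)) * q := by simp only [mul_assoc]
      _ = (u' * (z * v')) * q := by rw [h]
      _ = _ := by simp only [mul_assoc]
  exact reassoc _ _ _ _ _ _ key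

theorem midZ_fixed (α : SurfaceGroup (n + 1) →* SurfaceGroup (n + 1))
    (h : ∀ k : Fin n, k ≠ j → ∀ s, α (gen (k.succ, s)) = gen (k.succ, s)) :
    α (midZ j) = midZ j := by
  unfold midZ
  rw [map_list_prod, List.map_take, List.map_ofFn]
  congr 1
  refine take_congr _ _ j (fun k hk => ?_)
  simp only [Function.comp_apply, map_commutatorElement]
  rw [h k hk, h k hk]

end Slide

theorem hS {n : ℕ} (j : Fin n) {m m' : Fin (n + 1) × Bool → ℤ}
    (h1 : m (0, false) = m' (0, false) + m' (j.succ, false))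
    (h2 : m (j.succ, true) = m' (j.succ, true) - m' (0, true))
    (h3 : ∀ y, y ≠ (0, false) → y ≠ (j.succ, true) → m y = m' y) (hm' : KF m') : KF m := by
  classical
  set γ : SurfaceGroup (n + 1) →* SurfaceGroup (n + 1) := toGroup (rGen j) (rGen_rel j) with hγ
  have g0 : γ (gen (0, false)) =
    (gen (0, true))⁻¹ * (cT j)⁻¹ * gen (0, true) * gen (0, false) := by
    rw [hγ, toGroup_gen, rGen0]
  have g1 : γ (gen (0, true)) = gen (0, true) := by rw [hγ, toGroup_gen, rGen1]
  have g2 : γ (gen (j.succ, false)) =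
    (midZ j)⁻¹ * ((cT j)⁻¹ * slB⁻¹ * cT j * slB * cT j) * midZ j := by
    rw [hγ, toGroup_gen, rGen2]
  have g3 : γ (gen (j.succ, true)) =
    (midZ j)⁻¹ * (dT j * (cT j)⁻¹ * slB * cT j) * midZ j := by
    rw [hγ, toGroup_gen, rGen3]
  have goff : ∀ k : Fin n, k ≠ j → ∀ s, γ (gen (k.succ, s)) = gen (k.succ, s) := by
    intro k hk s
    rw [hγ, toGroup_gen, rGen_off j k hk]
  have gZ : γ (midZ j) = midZ j := midZ_fixed j γ goff
  have gc : γ (cT j) = (cT j)⁻¹ * slB⁻¹ * cT j * slB * cT j := by
    conv_lhs => rw [cT]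
    rw [map_mul, map_mul, map_inv, gZ, g2]
    group
  have gd : γ (dT j) = dT j * (cT j)⁻¹ * slB * cT j := by
    conv_lhs => rw [dT]
    rw [map_mul, map_mul, map_inv, gZ, g3]
    group
  have gP : γ slP = (cT j)⁻¹ * slP := by
    unfold slP
    rw [map_mul, map_mul, map_inv, g1, g0]
    group
  have gB : γ slB = (cT j)⁻¹ * slB * cT j := by
    unfold slB
    rw [map_mul, map_mul, map_inv, g1, gP]
    group
  have s0 : sGen j (0, false) = gen (0, false) * slP⁻¹ * cT j * slP := by
    unfold sGen
    rw [if_pos rfl]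
    rfl
  have s2 : sGen j (j.succ, false) = (midZ j)⁻¹ * (slB * cT j * slB⁻¹) * midZ j := by
    unfold sGen
    rw [if_neg (by simp [Fin.succ_ne_zero]), if_pos rfl]
    rfl
  have s3 : sGen j (j.succ, true) = (midZ j)⁻¹ * (dT j * slB⁻¹) * midZ j := by
    unfold sGen
    rw [if_neg (by simp), if_neg (by simp), if_pos rfl]
    rfl
  have soff : ∀ y, y ≠ (0, false) → y ≠ (j.succ, false) → y ≠ (j.succ, true) →
      sGen j y = gen y := by
    intro y h1 h2 h3
    unfold sGen
    rw [if_neg h1, if_neg h2, if_neg h3]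
  have roff : ∀ y, y ≠ (0, false) → y ≠ (j.succ, false) → y ≠ (j.succ, true) →
      γ (gen y) = gen y := by
    intro y h1 h2 h3
    rw [hγ, toGroup_gen]
    unfold rGen
    rw [if_neg h1, if_neg h2, if_neg h3]
  refine hm'.transfer (toGroup (sGen j) (sGen_rel j)) γ ?_ ?_
  · intro y
    rw [toGroup_gen]
    by_cases hy0 : y = (0, false)
    · subst hy0
      rw [s0, map_mul, map_mul, map_mul, map_inv, gP, gc, g0]
      have e : (slB : SurfaceGroup (n + 1)) = slP * gen (0, true) * slP⁻¹ := rfl
      have e' : (slP : SurfaceGroup (n + 1)) = gen (0, true) * gen (0, false) * (gen (0, true))⁻¹ :=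
        rfl
      rw [e, e']
      group
    · by_cases hy2 : y = (j.succ, false)
      · subst hy2
        rw [s2, map_mul, map_mul, map_mul, map_mul, map_inv, map_inv, gZ, gB, gc]
        have : gen (j.succ, false) = (midZ j)⁻¹ * cT j * midZ j := by
          unfold cT
          group
        rw [this]
        group
      · by_cases hy3 : y = (j.succ, true)
        · subst hy3
          rw [s3, map_mul, map_mul, map_mul, map_inv, map_inv, gZ, gB, gd]
          have : gen (j.succ, true) = (midZ j)⁻¹ * dT j * midZ j := by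
            unfold dT
            group
          rw [this]
          group
        · rw [soff y hy0 hy2 hy3, roff y hy0 hy2 hy3]
  · intro y
    have conj1 : ∀ u v : SurfaceGroup (n + 1), chr m' (u * v * u⁻¹) = chr m' v := by
      intro u v
      rw [map_mul, map_mul, map_inv, mul_comm (chr m' u), mul_assoc, mul_inv_cancel, mul_one]
    have conj2 : ∀ u v : SurfaceGroup (n + 1), chr m' (u⁻¹ * v * u) = chr m' v := by
      intro u v
      rw [map_mul, map_mul, map_inv, mul_comm (chr m' u)⁻¹, mul_assoc, inv_mul_cancel, mul_one]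
    have cc : chr m' (cT j) = Multiplicative.ofAdd (m' (j.succ, false)) := by
      rw [cT, conj1, chr_gen]
    have cd : chr m' (dT j) = Multiplicative.ofAdd (m' (j.succ, true)) := by
      rw [dT, conj1, chr_gen]
    have cB : chr m' slB = Multiplicative.ofAdd (m' (0, true)) := by
      rw [slB, conj1, chr_gen]
    rw [toGroup_gen]
    by_cases hy0 : y = (0, false)
    · subst hy0
      have : gen (0, false) * slP⁻¹ * cT j * slP = gen (0, false) * (slP⁻¹ * cT j * slP) := by
        simp only [mul_assoc]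
      rw [s0, this, map_mul, conj2, cc, chr_gen, h1]
      rfl
    · by_cases hy3 : y = (j.succ, true)
      · subst hy3
        rw [s3, conj2, map_mul, map_inv, cd, cB, h2]
        rfl
      · rw [h3 y hy0 hy3]
        by_cases hy2 : y = (j.succ, false)
        · subst hy2
          rw [s2, conj2, conj1, cc]
        · rw [soff y hy0 hy2 hy3, chr_gen]

/-! ### the base case -/

section Base

variable {n : ℕ}

/-- letters of the kernel -/
abbrev Lt (n : ℕ) : Type := Option ((Fin n × Bool) × ℤ)

/-- the free group of the kernel -/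
abbrev Bf (n : ℕ) : Type := FreeGroup (Lt n)

/-- the letter `b` -/
def lb : Bf n := FreeGroup.of none

/-- the letters `c_{y,i}` -/
def lc (y : Fin n × Bool) (i : ℤ) : Bf n := FreeGroup.of (some (y, i))

/-- product of the commutators at level `i` -/
def lR (n : ℕ) (i : ℤ) : Bf n :=
  (List.ofFn (fun k : Fin n => ⁅lc (k, false) i, lc (k, true) i⁆)).prod

/-- shift by `e`, with `b ↦ u b` -/
def sh (e : ℤ) (u : Bf n) : Bf n →* Bf n :=
  FreeGroup.lift (fun y : Lt n => match y with
    | none => u * lb
    | some (y, i) => lc y (i + e))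

theorem sh_lb (e : ℤ) (u : Bf n) : sh e u lb = u * lb := by
  unfold sh lb
  rw [FreeGroup.lift_apply_of]

theorem sh_lc (e : ℤ) (u : Bf n) (y : Fin n × Bool) (i : ℤ) : sh e u (lc y i) = lc y (i + e) := by
  unfold sh lc
  rw [FreeGroup.lift_apply_of]

theorem sh_lR (e : ℤ) (u : Bf n) (i : ℤ) : sh e u (lR n i) = lR n (i + e) := by
  unfold lR
  rw [map_list_prod, List.map_ofFn]
  congr 2

/-- the automorphism `σ` -/
def sg : MulAut (Bf n) :=
  MonoidHom.toMulEquiv (sh 1 (lR n 0)⁻¹) (sh (-1) (lR n (-1)))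
    (by
      apply FreeGroup.ext_hom
      intro y
      rcases y with _ | ⟨y, i⟩
      · show sh (-1) (lR n (-1)) (sh 1 (lR n 0)⁻¹ lb) = lb
        rw [sh_lb, map_mul, map_inv, sh_lR, sh_lb]
        simp
      · show sh (-1) (lR n (-1)) (sh 1 (lR n 0)⁻¹ (lc y i)) = lc y i
        rw [sh_lc, sh_lc]
        simp)
    (by
      apply FreeGroup.ext_hom
      intro y
      rcases y with _ | ⟨y, i⟩
      · show sh 1 (lR n 0)⁻¹ (sh (-1) (lR n (-1)) lb) = lb
        rw [sh_lb, map_mul, sh_lR, sh_lb]
        simp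
      · show sh 1 (lR n 0)⁻¹ (sh (-1) (lR n (-1)) (lc y i)) = lc y i
        rw [sh_lc, sh_lc]
        simp)

theorem sg_lb : sg (n := n) lb = (lR n 0)⁻¹ * lb := sh_lb _ _

theorem sg_lc (y : Fin n × Bool) (i : ℤ) : sg (lc y i) = lc y (i + 1) :=
  sh_lc 1 (lR n 0)⁻¹ y i

/-- the action of `ℤ` -/
def ac : Multiplicative ℤ →* MulAut (Bf n) := zpowersHom _ sg

theorem ac_one : ac (n := n) (Multiplicative.ofAdd 1) = sg := by
  simp [ac]

/-- the semidirect product -/
abbrev Sd (n : ℕ) : Type := SemidirectProduct (Bf n) (Multiplicative ℤ) ac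

/-- images of the generators -/
def qGen (y : Fin (n + 1) × Bool) : Sd n :=
  Fin.cases (motive := fun _ => Sd n)
    (if y.2 then SemidirectProduct.inl lb else SemidirectProduct.inr (Multiplicative.ofAdd 1))
    (fun k => SemidirectProduct.inl (lc (k, y.2) 0)) y.1

theorem qGen_a : qGen (n := n) (0, false) = SemidirectProduct.inr (Multiplicative.ofAdd 1) := by
  simp [qGen]

theorem qGen_b : qGen (n := n) (0, true) = SemidirectProduct.inl lb := by
  simp [qGen]

theorem qGen_c (k : Fin n) (s : Bool) : qGen (n := n) (k.succ, s) =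
    SemidirectProduct.inl (lc (k, s) 0) := by
  simp [qGen]

theorem qGen_rel : (List.ofFn (fun k : Fin (n + 1) => ⁅qGen (k, false), qGen (k, true)⁆)).prod
    = 1 := by
  rw [List.ofFn_succ, List.prod_cons]
  have e3 : (List.ofFn (fun k : Fin n => ⁅qGen ((k.succ, false) : Fin (n + 1) × Bool),
      qGen (k.succ, true)⁆)).prod = SemidirectProduct.inl (lR n 0) := by
    unfold lR
    rw [map_list_prod, List.map_ofFn]
    congr 2
  rw [e3, qGen_a, qGen_b]
  rw [commutatorElement_def, ← map_inv SemidirectProduct.inr, ← SemidirectProduct.inl_aut,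
    ← map_inv, ← map_mul, ← map_mul, ac_one, sg_lb]
  have : (lR n 0)⁻¹ * lb * (lb)⁻¹ * lR n 0 = (1 : Bf n) := by group
  rw [this, map_one]

/-- the homomorphism to the semidirect product -/
def toSd : SurfaceGroup (n + 1) →* Sd n := toGroup qGen qGen_rel

/-- the left inverse on the free part -/
def fromBf : Bf n →* SurfaceGroup (n + 1) :=
  FreeGroup.lift (fun y : Lt n => match y with
    | none => gen (0, true)
    | some ((k, s), i) => gen (0, false) ^ i * gen (k.succ, s) * (gen (0, false) ^ i)⁻¹)

theorem fromBf_lb : fromBf (n := n) lb = gen (0, true) := by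
  unfold fromBf lb
  rw [FreeGroup.lift_apply_of]

theorem fromBf_lc (k : Fin n) (s : Bool) (i : ℤ) : fromBf (n := n) (lc (k, s) i) =
    gen (0, false) ^ i * gen (k.succ, s) * (gen (0, false) ^ i)⁻¹ := by
  unfold fromBf lc
  rw [FreeGroup.lift_apply_of]

theorem fromBf_lR : fromBf (lR n 0) =
    (List.ofFn (fun k : Fin n => ⁅gen (g := n + 1) (k.succ, false), gen (k.succ, true)⁆)).prod := by
  unfold lR
  rw [map_list_prod, List.map_ofFn]
  congr 2

theorem fromBf_sg (w : Bf n) :
    fromBf (sg w) = gen (0, false) * fromBf w * (gen (0, false))⁻¹ := by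
  have hrel := rel_eq_one (g := n + 1)
  rw [List.ofFn_succ, List.prod_cons, ← fromBf_lR] at hrel
  have h : fromBf.comp (sg (n := n)).toMonoidHom =
      (MulAut.conj (gen (g := n + 1) (0, false))).toMonoidHom.comp fromBf := by
    apply FreeGroup.ext_hom
    intro y
    rcases y with _ | ⟨⟨k, s⟩, i⟩
    · show fromBf (sg lb) = gen (0, false) * fromBf lb * (gen (0, false))⁻¹
      rw [sg_lb, map_mul, map_inv, fromBf_lb]
      have h3 : fromBf (lR n 0) = (⁅gen (g := n + 1) (0, false), gen (0, true)⁆)⁻¹ :=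
        (inv_eq_of_mul_eq_one_right hrel).symm
      rw [h3, inv_inv, commutatorElement_def]
      group
    · show fromBf (sg (lc (k, s) i)) = gen (0, false) * fromBf (lc (k, s) i) * (gen (0, false))⁻¹
      rw [sg_lc, fromBf_lc, fromBf_lc, zpow_add_one]
      group
  exact DFunLike.congr_fun h w

theorem fromBf_sg_zpow (k : ℤ) (w : Bf n) : fromBf ((sg ^ k) w) =
    gen (0, false) ^ k * fromBf w * (gen (0, false) ^ k)⁻¹ := by
  have hinv : ∀ w : Bf n, fromBf (sg⁻¹ w) = (gen (0, false))⁻¹ * fromBf w * gen (0, false) := by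
    intro w
    have h1 := fromBf_sg (sg⁻¹ w)
    rw [← MulAut.mul_apply, mul_inv_cancel, MulAut.one_apply] at h1
    rw [h1]
    group
  induction k using Int.induction_on generalizing w with
  | zero => simp
  | succ k ih =>
    rw [zpow_add_one, MulAut.mul_apply, ih, fromBf_sg, zpow_add_one]
    group
  | pred k ih =>
    rw [zpow_sub_one, MulAut.mul_apply, ih, hinv, zpow_sub_one]
    group

/-- the left inverse -/
def fromSd : Sd n →* SurfaceGroup (n + 1) :=
  SemidirectProduct.lift fromBf (zpowersHom _ (gen (0, false))) (by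
    intro k
    apply MonoidHom.ext
    intro w
    show fromBf (ac k w) = MulAut.conj ((zpowersHom _ (gen (g := n + 1) (0, false))) k) (fromBf w)
    have h1 : (ac (n := n)) k = (sg (n := n)) ^ (Multiplicative.toAdd k) := by
      simp [ac]
    have h2 : (zpowersHom _ (gen (g := n + 1) (0, false))) k =
        gen (0, false) ^ (Multiplicative.toAdd k) := by simp
    rw [h1, fromBf_sg_zpow, h2, MulAut.conj_apply])

theorem fromSd_toSd (z : SurfaceGroup (n + 1)) : fromSd (toSd z) = z := by
  have h : fromSd.comp (toSd (n := n)) = MonoidHom.id _ := by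
    apply hom_ext
    rintro ⟨k, s⟩
    rw [MonoidHom.comp_apply, toSd, toGroup_gen, MonoidHom.id_apply]
    refine Fin.cases ?_ (fun k => ?_) k
    · cases s
      · rw [qGen_a, fromSd, SemidirectProduct.lift_inr]
        simp
      · rw [qGen_b, fromSd, SemidirectProduct.lift_inl, fromBf_lb]
    · rw [qGen_c, fromSd, SemidirectProduct.lift_inl, fromBf_lc]
      simp
  exact DFunLike.congr_fun h z

theorem right_toSd {m : Fin (n + 1) × Bool → ℤ}
    (h1 : ∀ y, y ≠ (0, false) → m y = 0) (z : SurfaceGroup (n + 1)) :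
    (toSd z).right ^ (m (0, false)) = chr m z := by
  let F1 : SurfaceGroup (n + 1) →* Multiplicative ℤ :=
    (zpowGroupHom (m (0, false))).comp ((SemidirectProduct.rightHom (φ := ac (n := n))).comp toSd)
  have h : F1 = chr m := by
    apply hom_ext
    rintro ⟨k, s⟩
    rw [chr_gen]
    show (toSd (gen (k, s))).right ^ (m (0, false)) = _
    rw [toSd, toGroup_gen]
    refine Fin.cases ?_ (fun k => ?_) k
    · cases s
      · rw [qGen_a]
        apply Multiplicative.toAdd.injective
        simp
      · rw [qGen_b, h1 (0, true) (by simp)]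
        simp
    · rw [qGen_c, h1 (k.succ, s) (by simp [Fin.succ_ne_zero])]
      simp
  exact DFunLike.congr_fun h z

theorem hb {m : Fin (n + 1) × Bool → ℤ} (h0 : m (0, false) ≠ 0)
    (h1 : ∀ y, y ≠ (0, false) → m y = 0) : KF m := by
  have hr : ∀ z : (chr m).ker, (toSd z.1).right = 1 := by
    intro z
    have h2 := right_toSd h1 z.1
    rw [MonoidHom.mem_ker.mp z.2] at h2
    have h3 : m (0, false) * Multiplicative.toAdd (toSd z.1).right = 0 := by
      have := congrArg Multiplicative.toAdd h2
      simpa using this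
    rcases mul_eq_zero.mp h3 with h4 | h4
    · exact absurd h4 h0
    · exact Multiplicative.toAdd.injective h4
  let β : (chr m).ker →* Bf n := MonoidHom.mk' (fun z => (toSd z.1).left) (by
    intro a b
    show (toSd (a.1 * b.1)).left = _
    rw [map_mul, SemidirectProduct.mul_left, hr a]
    simp)
  have hβ : Injective β := by
    intro a b hab
    apply Subtype.ext
    have h5 : toSd a.1 = toSd b.1 := by
      ext
      · exact hab
      · rw [hr a, hr b]
    rw [← fromSd_toSd a.1, ← fromSd_toSd b.1, h5]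
  exact free_of_injective β hβ

end Base

theorem eHyp (n : ℕ) : EHyp (KF (n := n)) where
  T := fun i s ε _ _ h1 h2 h3 => hT i s ε h1 h2 h3
  S := fun j _ _ h1 h2 h3 h4 => hS j h1 h2 h3 h4
  base := fun h0 h1 => hb h0 h1

end KE

/-- B0a KerFree.lean -/
theorem ker_free {g : ℕ} (f : SurfaceGroup g →* Multiplicative ℤ) (hf : f ≠ 1) :
    IsFreeGroup f.ker := by
  rcases g with _ | n
  · exact absurd (hom_ext (fun y => y.1.elim0)) hf
  · set m : Fin (n + 1) × Bool → ℤ := fun y => Multiplicative.toAdd (f (gen y)) with hm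
    have hfm : f = KE.chr m := hom_ext (fun y => by rw [KE.chr_gen]; rfl)
    have hm0 : m ≠ 0 := by
      intro h
      apply hf
      rw [hfm, h]
      refine hom_ext (fun y => ?_)
      rw [KE.chr_gen]
      rfl
    have := KE.good_all (KE.eHyp n) m hm0
    rw [hfm]
    exact this

end Pool.Agent.SurfExact
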