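import Pool.Agent.SurfExact.BasicB
import Pool.Agent.SurfExact.KerFree
import Pool.Agent.SurfExact.DerSub
import Pool.Agent.SurfGrowth.Indep

/-!
# MP_5bf54f_al, Theorem B, package B0c': subgroups of surface groups generated by `2g` independent
elements satisfy the hypotheses
-/

set_option autoImplicit false
set_option linter.unusedSectionVars false

namespace Pool.Agent.SurfExact

open Function Pool.Agent.SurfGrowth

section

variable {g : ℕ} {H : Type} [Group H] {ι : Type} [Fintype ι] [DecidableEq ι]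

/-- the value of the `t`-th coordinate functional -/
private noncomputable def hsCo (b : Module.Basis ι ℚ ((Fin g × Bool) →₀ ℚ)) (t : ι)
    (z : SurfaceGroup g) : ℚ :=
  b.repr (Multiplicative.toAdd (SurfaceGroup.ab z)) t

private theorem hsCo_mul (b : Module.Basis ι ℚ ((Fin g × Bool) →₀ ℚ)) (t : ι)
    (z z' : SurfaceGroup g) : hsCo b t (z * z') = hsCo b t z + hsCo b t z' := by
  unfold hsCo
  rw [map_mul, toAdd_mul, map_add, Finsupp.add_apply]

private theorem hsCo_one (b : Module.Basis ι ℚ ((Fin g × Bool) →₀ ℚ)) (t : ι) :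
    hsCo b t (1 : SurfaceGroup g) = 0 := by
  unfold hsCo
  rw [map_one, toAdd_one, map_zero, Finsupp.zero_apply]

private theorem hsCo_inv (b : Module.Basis ι ℚ ((Fin g × Bool) →₀ ℚ)) (t : ι)
    (z : SurfaceGroup g) : hsCo b t z⁻¹ = - hsCo b t z := by
  have h := hsCo_mul b t z⁻¹ z
  rw [inv_mul_cancel, hsCo_one] at h
  linarith

/-- the coordinates are integral on the subgroup -/
private theorem hsCo_int (b : Module.Basis ι ℚ ((Fin g × Bool) →₀ ℚ)) (j : H →* SurfaceGroup g)
    (x : ι → H) (hx : Subgroup.closure (Set.range x) = ⊤)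
    (hb : ∀ t, Multiplicative.toAdd (SurfaceGroup.ab (j (x t))) = b t) (t : ι) (h : H) :
    ∃ k : ℤ, (k : ℚ) = hsCo b t (j h) := by
  have hz : h ∈ Subgroup.closure (Set.range x) := by rw [hx]; trivial
  induction hz using Subgroup.closure_induction with
  | mem z hz =>
    obtain ⟨u, rfl⟩ := hz
    refine ⟨if u = t then 1 else 0, ?_⟩
    unfold hsCo
    rw [hb, b.repr_self, Finsupp.single_apply]
    split_ifs <;> simp
  | one => exact ⟨0, by rw [map_one, hsCo_one]; simp⟩
  | mul a c _ _ ha hc =>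
    obtain ⟨k, hk⟩ := ha
    obtain ⟨l, hl⟩ := hc
    exact ⟨k + l, by rw [map_mul, hsCo_mul, ← hk, ← hl]; push_cast; ring⟩
  | inv a _ ha =>
    obtain ⟨k, hk⟩ := ha
    exact ⟨-k, by rw [map_inv, hsCo_inv, ← hk]; push_cast; ring⟩

/-- `N` times the `s`-th coordinate functional is an integral character of the surface group -/
private theorem hs_exists_F (b : Module.Basis ι ℚ ((Fin g × Bool) →₀ ℚ)) (s : ι) :
    ∃ (N : ℕ) (F : SurfaceGroup g →* Multiplicative ℤ), 0 < N ∧
      ∀ z, ((Multiplicative.toAdd (F z) : ℤ) : ℚ) = N * hsCo b s z := by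
  classical
  set φ : Fin g × Bool → ℚ := fun y => b.repr (Finsupp.single y 1) s with hφ
  set N : ℕ := ∏ y, (φ y).den with hN
  have hN0 : 0 < N := Finset.prod_pos fun y _ => (φ y).den_pos
  have hm : ∀ y, ∃ m : ℤ, (m : ℚ) = N * φ y := by
    intro y
    obtain ⟨k, hk⟩ := Finset.dvd_prod_of_mem (fun y => (φ y).den) (Finset.mem_univ y)
    refine ⟨k * (φ y).num, ?_⟩
    have h1 : ((φ y).den : ℚ) * φ y = (φ y).num := by
      rw [mul_comm]
      exact_mod_cast Rat.mul_den_eq_num (φ y)
    have h2 : (N : ℚ) = (φ y).den * k := by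
      rw [hN, hk]; push_cast; ring
    rw [h2]
    push_cast
    linear_combination (-(k : ℚ)) * h1
  choose m hm using hm
  set ge : Fin g × Bool → Multiplicative ℤ := fun y => Multiplicative.ofAdd (m y) with hge
  set F : SurfaceGroup g →* Multiplicative ℤ :=
    SurfaceGroup.toGroup ge (SurfaceGroup.commProd (fun a b => mul_comm a b) ge) with hF
  refine ⟨N, F, hN0, ?_⟩
  -- both sides are homomorphisms to the rationals
  let Φ : ((Fin g × Bool) →₀ ℚ) →ₗ[ℚ] ℚ := (N : ℚ) • (b.coord s)
  let F1 : SurfaceGroup g →* Multiplicative ℚ :=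
    (AddMonoidHom.toMultiplicative Φ.toAddMonoidHom).comp SurfaceGroup.ab
  let F2 : SurfaceGroup g →* Multiplicative ℚ :=
    (AddMonoidHom.toMultiplicative (Int.castAddHom ℚ)).comp F
  have h : F2 = F1 := by
    apply SurfaceGroup.hom_ext
    intro y
    apply Multiplicative.toAdd.injective
    show ((Multiplicative.toAdd (F (SurfaceGroup.gen y)) : ℤ) : ℚ) =
      (N : ℚ) * (b.repr (Multiplicative.toAdd (SurfaceGroup.ab (SurfaceGroup.gen y))) s)
    rw [SurfaceGroup.ab_gen, hF, SurfaceGroup.toGroup_gen]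
    exact hm y
  intro z
  exact congrArg Multiplicative.toAdd (DFunLike.congr_fun h z)

end

theorem hyp_sub {g : ℕ} (hg : 1 ≤ g) {H : Type} [Group H] (j : H →* SurfaceGroup g)
    (hj : Function.Injective j) {ι : Type} [Fintype ι] [DecidableEq ι]
    (hι : Fintype.card ι = 2 * g) (x : ι → H) (hx : Subgroup.closure (Set.range x) = ⊤)
    (hind : LinearIndependent ℚ (fun i => Multiplicative.toAdd (SurfaceGroup.ab (j (x i)))))
    (s : ι) : ∃ f : H →* Multiplicative ℤ, Hyp x s f := by
  classical
  obtain ⟨n, rfl⟩ : ∃ n, g = n + 1 := ⟨g - 1, by omega⟩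
  have hne : Nonempty ι := ⟨s⟩
  have hfin : Fintype.card ι = Module.finrank ℚ ((Fin (n + 1) × Bool) →₀ ℚ) := by
    rw [Module.finrank_finsupp_self, hι]
    simp [mul_comm]
  set b : Module.Basis ι ℚ ((Fin (n + 1) × Bool) →₀ ℚ) :=
    basisOfLinearIndependentOfCardEqFinrank hind hfin with hb
  have hbt : ∀ t, Multiplicative.toAdd (SurfaceGroup.ab (j (x t))) = b t := by
    intro t
    rw [hb, coe_basisOfLinearIndependentOfCardEqFinrank]
  choose c hc using fun (h : H) (t : ι) => hsCo_int b j x hx hbt t h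
  -- the character
  set χ : H →* Multiplicative (ι → ℤ) := MonoidHom.mk' (fun h => Multiplicative.ofAdd (c h)) (by
    intro a a'
    apply Multiplicative.toAdd.injective
    funext t
    show c (a * a') t = c a t + c a' t
    have : ((c (a * a') t : ℤ) : ℚ) = ((c a t + c a' t : ℤ) : ℚ) := by
      rw [hc, map_mul, hsCo_mul, ← hc, ← hc]; push_cast; ring
    exact_mod_cast this) with hχ
  have hχt : ∀ t, χ (x t) = Multiplicative.ofAdd (Pi.single t 1) := by
    intro t
    apply Multiplicative.toAdd.injective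
    funext u
    show c (x t) u = (Pi.single t (1 : ℤ) : ι → ℤ) u
    have h1 : ((c (x t) u : ℤ) : ℚ) = (((Pi.single t (1 : ℤ) : ι → ℤ) u : ℤ) : ℚ) := by
      rw [hc]
      unfold hsCo
      rw [hbt, b.repr_self, Finsupp.single_apply, Pi.single_apply]
      by_cases h : t = u
      · subst h; simp
      · simp [h, Ne.symm h]
    exact_mod_cast h1
  set f : H →* Multiplicative ℤ :=
    (AddMonoidHom.toMultiplicative (Pi.evalAddMonoidHom (fun _ : ι => ℤ) s)).comp χ with hf
  have hfc : ∀ h, Multiplicative.toAdd (f h) = c h s := fun h => rfl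
  have hfx : ∀ t, f (x t) = Multiplicative.ofAdd ((Pi.single t (1 : ℤ) : ι → ℤ) s) := by
    intro t
    show Multiplicative.ofAdd ((Multiplicative.toAdd (χ (x t))) s) = _
    rw [hχt, toAdd_ofAdd]
  have hfs : f (x s) = Multiplicative.ofAdd 1 := by rw [hfx]; simp
  obtain ⟨N, F, hN, hF⟩ := hs_exists_F b s
  have hFf : ∀ h, Multiplicative.toAdd (F (j h)) = N * Multiplicative.toAdd (f h) := by
    intro h
    have h1 : ((Multiplicative.toAdd (F (j h)) : ℤ) : ℚ) =
        ((N * Multiplicative.toAdd (f h) : ℤ) : ℚ) := by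
      rw [hF, hfc]
      push_cast
      rw [hc]
    exact_mod_cast h1
  have hker : ∀ h, h ∈ f.ker ↔ j h ∈ F.ker := by
    intro h
    rw [MonoidHom.mem_ker, MonoidHom.mem_ker]
    constructor
    · intro h0
      apply Multiplicative.toAdd.injective
      rw [hFf, h0]
      simp
    · intro h0
      apply Multiplicative.toAdd.injective
      have h1 := hFf h
      rw [h0, toAdd_one] at h1
      rw [toAdd_one]
      have hN' : (N : ℤ) ≠ 0 := by exact_mod_cast hN.ne'
      exact (mul_eq_zero.1 h1.symm).resolve_left hN'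
  have hFne : F ≠ 1 := by
    intro h
    have h1 : x s ∈ f.ker := by
      rw [hker, h]
      rfl
    rw [MonoidHom.mem_ker, hfs] at h1
    have : Multiplicative.toAdd (1 : Multiplicative ℤ) = 1 := by rw [← h1]; rfl
    simp at this
  refine ⟨f, ⟨hx, hfs, ?_, ?_, ?_, ⟨χ, hχt⟩, ?_⟩⟩
  · intro t ht
    rw [hfx]
    simp [Ne.symm ht]
  · -- the kernel is free
    have : IsFreeGroup F.ker := ker_free F hFne
    set J : f.ker →* F.ker :=
      (j.comp f.ker.subtype).codRestrict F.ker (fun h => (hker h).1 h.2) with hJ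
    have hJi : Injective J := by
      intro a a' h
      have h1 : j a = j a' := congrArg Subtype.val h
      exact Subtype.ext (hj h1)
    exact IsFreeGroup.ofMulEquiv (MonoidHom.ofInjective hJi).symm
  · have h1 : Injective (FreeGroup.lift (fun t : {t : ι // t ≠ s} => j (x t))) := by
      apply SurfaceGroup.indep_free
      · exact hind.comp (fun t : {t : ι // t ≠ s} => (t : ι)) Subtype.val_injective
      · rw [Fintype.card_subtype_compl, hι]
        simp only [Fintype.card_subtype_eq]
        omega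
    have h2 : FreeGroup.lift (fun t : {t : ι // t ≠ s} => j (x t)) =
        j.comp (FreeGroup.lift (fun t : {t : ι // t ≠ s} => x t)) := by
      apply FreeGroup.ext_hom
      intro i
      simp
    rw [h2, MonoidHom.coe_comp] at h1
    exact Function.Injective.of_comp h1
  · obtain ⟨W, hW, hδ⟩ := der_sub j hι x hind F
    refine ⟨RatFunc ℚ, RatFunc.instField ℚ, RatFunc.instAlgebraOfPolynomial ℚ ℚ,
      RatFunc.X ^ N, @Transcendental.pow ℚ (RatFunc ℚ) _ _ (RatFunc.instAlgebraOfPolynomial ℚ ℚ)
        _ RatFunc.transcendental_X N hN, W, hW, fun v hv => ?_⟩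
    obtain ⟨δ, h1, h2⟩ := hδ v hv
    refine ⟨δ, fun a a' => ?_, h2⟩
    rw [h1, hFf, zpow_mul, zpow_natCast]

end Pool.Agent.SurfExact
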