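import Pool.Agent.SurfExact.BasicB

/-!
# MP_5bf54f_al, Theorem B, package B6: left cosets of the cyclic subgroups of a free family
-/

set_option autoImplicit false

namespace Pool.Agent.SurfExact

open Function

private lemma Forest_pow {κ : Type*} (i : κ) (k : ℤ) (hk : k ≠ 0) :
    ∃ (b : Bool) (n : ℕ), (FreeGroup.of i) ^ k = FreeGroup.mk (List.replicate (n + 1) (i, b)) := by
  classical
  have h0 : ∀ n : ℕ, (FreeGroup.of i) ^ n = FreeGroup.mk (List.replicate n (i, true)) := by
    intro n
    rw [← FreeGroup.mk_toWord (x := (FreeGroup.of i) ^ n), FreeGroup.toWord_of_pow]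
  obtain ⟨n, hn | hn⟩ := Int.eq_nat_or_neg k
  · obtain ⟨m, rfl⟩ : ∃ m, n = m + 1 := Nat.exists_eq_succ_of_ne_zero (by
      rintro rfl; exact hk (by simpa using hn))
    refine ⟨true, m, ?_⟩
    rw [hn, zpow_natCast, h0]
  · obtain ⟨m, rfl⟩ : ∃ m, n = m + 1 := Nat.exists_eq_succ_of_ne_zero (by
      rintro rfl; exact hk (by simpa using hn))
    refine ⟨false, m, ?_⟩
    rw [hn, zpow_neg, zpow_natCast, h0, FreeGroup.inv_mk]
    congr 1
    simp [FreeGroup.invRev]

/-- If multiplication by a power of a letter does not increase the length then the word ends with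
this letter. -/
private lemma Forest_last {κ : Type*} [DecidableEq κ] (w : FreeGroup κ) (i : κ) (k : ℤ)
    (hk : k ≠ 0) (h : FreeGroup.norm (w * FreeGroup.of i ^ k) ≤ FreeGroup.norm w) :
    ∃ x ∈ w.toWord.getLast?, x.1 = i := by
  by_contra hcon
  push Not at hcon
  obtain ⟨b, n, hb⟩ := Forest_pow i k hk
  have hred : FreeGroup.IsReduced (w.toWord ++ List.replicate (n + 1) (i, b)) := by
    unfold FreeGroup.IsReduced
    rw [List.isChain_append]
    refine ⟨FreeGroup.isReduced_toWord, ?_, ?_⟩
    · exact List.isChain_replicate_of_rel _ (fun _ => rfl)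
    · intro x hx y hy
      have : y = (i, b) := by
        simpa [List.head?_replicate] using hy.symm
      intro hxy
      rw [this] at hxy
      exact absurd hxy (hcon x hx)
  have hw : w * FreeGroup.of i ^ k = FreeGroup.mk (w.toWord ++ List.replicate (n + 1) (i, b)) := by
    rw [hb, ← FreeGroup.mul_mk, FreeGroup.mk_toWord]
  have hnorm : FreeGroup.norm (w * FreeGroup.of i ^ k) = FreeGroup.norm w + (n + 1) := by
    rw [hw, FreeGroup.norm, FreeGroup.toWord_mk, hred.reduce_eq, List.length_append,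
      List.length_replicate]
    rfl
  omega

theorem coset_forest {G : Type*} [Group G] {κ : Type*} [Fintype κ] (h : κ → G)
    (hinj : Injective (FreeGroup.lift h)) (Y : Set G) (hfin : Y.Finite) (hne : Y.Nonempty) :
    (Fintype.card κ - 1 : ℤ) * Y.ncard + 1 ≤
      ∑ i, (((fun g : G => (g : G ⧸ Subgroup.zpowers (h i))) '' Y).ncard : ℤ) := by
  classical
  induction hn : Y.ncard using Nat.strong_induction_on generalizing Y with
  | _ N ih =>
  obtain ⟨y₀, hy₀⟩ := hne
  -- the words of the elements of `Y` in the coset of `y₀`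
  set Wd : Set (FreeGroup κ) := {w | y₀ * FreeGroup.lift h w ∈ Y} with hWd
  have hWfin : Wd.Finite := by
    refine Set.Finite.preimage (f := fun w => y₀ * FreeGroup.lift h w) ?_ hfin
    intro a _ b _ hab
    exact hinj (mul_left_cancel hab)
  have hWne : Wd.Nonempty := ⟨1, by simpa [hWd] using hy₀⟩
  obtain ⟨w, hwW, hwmax⟩ := hWfin.exists_maximalFor (fun w => FreeGroup.norm w) Wd hWne
  set y := y₀ * FreeGroup.lift h w with hy
  have hyY : y ∈ Y := hwW
  have hmax : ∀ (i : κ) (k : ℤ), k ≠ 0 → y * h i ^ k ∈ Y →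
      ∃ x ∈ w.toWord.getLast?, x.1 = i := by
    intro i k hk hyk
    refine Forest_last w i k hk ?_
    have hmem : w * FreeGroup.of i ^ k ∈ Wd := by
      show y₀ * FreeGroup.lift h (w * FreeGroup.of i ^ k) ∈ Y
      rw [map_mul, map_zpow, FreeGroup.lift_apply_of, ← mul_assoc]
      exact hyk
    by_contra hlt
    push Not at hlt
    exact absurd (hwmax hmem hlt.le) (not_le.mpr hlt)
  set Y' := Y \ {y} with hY'
  have hY'fin : Y'.Finite := hfin.sdiff
  have hYY' : Y = insert y Y' := by
    rw [hY', Set.insert_sdiff_singleton, Set.insert_eq_of_mem hyY]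
  have hyY' : y ∉ Y' := fun hh => hh.2 rfl
  have hcard : Y.ncard = Y'.ncard + 1 := by
    conv_lhs => rw [hYY']
    exact Set.ncard_insert_of_notMem hyY' hY'fin
  -- the exceptional index
  set B : Finset κ := Finset.univ.filter (fun i =>
    ((y : G ⧸ Subgroup.zpowers (h i))) ∈
      (fun g : G => (g : G ⧸ Subgroup.zpowers (h i))) '' Y') with hB
  have hBlast : ∀ i ∈ B, ∃ x ∈ w.toWord.getLast?, x.1 = i := by
    intro i hi
    obtain ⟨y', hy', hyy'⟩ := (Finset.mem_filter.mp hi).2
    have h1 : y⁻¹ * y' ∈ Subgroup.zpowers (h i) := (QuotientGroup.eq.mp hyy'.symm)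
    obtain ⟨k, hk⟩ := Subgroup.mem_zpowers_iff.mp h1
    have h2 : y' = y * h i ^ k := by rw [hk]; group
    refine hmax i k ?_ (h2 ▸ hy'.1)
    rintro rfl
    rw [zpow_zero, mul_one] at h2
    exact hyY' (h2 ▸ hy')
  have hB1 : B.card ≤ 1 := by
    rw [Finset.card_le_one]
    intro i hi j hj
    obtain ⟨x, hx, hxi⟩ := hBlast i hi
    obtain ⟨x', hx', hxj⟩ := hBlast j hj
    have : x = x' := by
      have := Option.mem_unique hx hx'
      exact this
    rw [← hxi, ← hxj, this]
  have hone : ∀ i : κ, (((fun g : G => (g : G ⧸ Subgroup.zpowers (h i))) '' Y).ncard : ℤ) =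
      ((fun g : G => (g : G ⧸ Subgroup.zpowers (h i))) '' Y').ncard +
        (if i ∈ B then 0 else 1) := by
    intro i
    have h1 : (fun g : G => (g : G ⧸ Subgroup.zpowers (h i))) '' Y =
        insert (y : G ⧸ Subgroup.zpowers (h i))
          ((fun g : G => (g : G ⧸ Subgroup.zpowers (h i))) '' Y') := by
      conv_lhs => rw [hYY']
      rw [Set.image_insert_eq]
    rw [h1]
    by_cases hi : i ∈ B
    · rw [if_pos hi, Set.insert_eq_of_mem (Finset.mem_filter.mp hi).2, add_zero]
    · rw [if_neg hi, Set.ncard_insert_of_notMem (fun hh => hi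
        (Finset.mem_filter.mpr ⟨Finset.mem_univ i, hh⟩)) (hY'fin.image _)]
      push_cast
      ring
  have hsum : ∑ i, (((fun g : G => (g : G ⧸ Subgroup.zpowers (h i))) '' Y).ncard : ℤ) =
      ∑ i, (((fun g : G => (g : G ⧸ Subgroup.zpowers (h i))) '' Y').ncard : ℤ) +
        (Fintype.card κ - B.card : ℤ) := by
    rw [Finset.sum_congr rfl (fun i _ => hone i), Finset.sum_add_distrib]
    congr 1
    have : ∑ i : κ, (if i ∈ B then (0 : ℤ) else 1) = ∑ i : κ, ((1 : ℤ) - if i ∈ B then 1 else 0) :=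
      Finset.sum_congr rfl (fun i _ => by split_ifs <;> ring)
    rw [this, Finset.sum_sub_distrib]
    simp
  rw [hsum]
  rcases Set.eq_empty_or_nonempty Y' with hemp | hne'
  · have hN : Y.ncard = 1 := by rw [hcard, hemp, Set.ncard_empty]
    have hBe : B = ∅ := by
      rw [Finset.eq_empty_iff_forall_notMem]
      intro i hi
      obtain ⟨y', hy', _⟩ := (Finset.mem_filter.mp hi).2
      rw [hemp] at hy'
      exact hy'
    rw [← hn, hN, hBe, hemp]
    simp
  · have hlt : Y'.ncard < N := by omega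
    have hih := ih Y'.ncard hlt Y' hY'fin hne' rfl
    have hN : (N : ℤ) = Y'.ncard + 1 := by omega
    have hB1' : (B.card : ℤ) ≤ 1 := by exact_mod_cast hB1
    rw [hN]
    linarith [hih, hB1', mul_add (Fintype.card κ - 1 : ℤ) (Y'.ncard : ℤ) 1]

end Pool.Agent.SurfExact
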