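import Pool.Agent.SurfExact.BasicB

/-!
# Commuting elements in a free subgroup
-/

set_option autoImplicit false

namespace Pool.Agent.SurfExact

open Function Pool.Agent.SurfGrowth

namespace FF

/-- An element commuting with a letter is trivial or begins with that letter or its inverse. -/
theorem head_of_commute {B : Type*} [DecidableEq B] (w : FreeGroup B) (a : B)
    (h : w * FreeGroup.of a = FreeGroup.of a * w) (hw : w ≠ 1) :
    ∃ (b : Bool) (l : List (B × Bool)), w.toWord = (a, b) :: l := by
  obtain ⟨⟨y, b⟩, l, hl⟩ : ∃ (p : B × Bool) (l : List (B × Bool)), w.toWord = p :: l := by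
    rcases hl : w.toWord with _ | ⟨p, l⟩
    · exact absurd (FreeGroup.toWord_eq_nil_iff.1 hl) hw
    · exact ⟨p, l, rfl⟩
  by_cases hy : y = a
  · subst hy
    exact ⟨b, l, hl⟩
  exfalso
  -- the word of `of a * w` is `(a, true) :: w.toWord`
  have h1 : (FreeGroup.of a * w).toWord = (a, true) :: w.toWord := by
    rw [FreeGroup.toWord_mul, FreeGroup.toWord_of, hl]
    apply FreeGroup.IsReduced.reduce_eq
    rw [List.singleton_append, FreeGroup.isReduced_cons_cons]
    refine ⟨fun h2 => absurd h2.symm hy, ?_⟩
    rw [← hl]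
    exact FreeGroup.isReduced_toWord
  have h2 : (w * FreeGroup.of a).toWord.Sublist (w.toWord ++ (FreeGroup.of a).toWord) :=
    FreeGroup.toWord_mul_sublist _ _
  rw [h, h1, FreeGroup.toWord_of] at h2
  have h3 := h2.eq_of_length (by simp)
  rw [hl, List.cons_append, List.cons.injEq] at h3
  exact hy (congrArg Prod.fst h3.1).symm

/-- An element commuting with two different letters is trivial. -/
theorem eq_one_of_commute {B : Type*} (w : FreeGroup B) {a b : B} (hab : a ≠ b)
    (ha : w * FreeGroup.of a = FreeGroup.of a * w)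
    (hb : w * FreeGroup.of b = FreeGroup.of b * w) : w = 1 := by
  classical
  by_contra hw
  obtain ⟨e, l, h1⟩ := head_of_commute w a ha hw
  obtain ⟨e', l', h2⟩ := head_of_commute w b hb hw
  rw [h1, List.cons.injEq] at h2
  exact hab (congrArg Prod.fst h2.1)

/-- A free group on at most one letter is commutative. -/
theorem comm_of_subsingleton {B : Type*} [Subsingleton B] (u v : FreeGroup B) : u * v = v * u := by
  have h : ∀ x ∈ Set.range (FreeGroup.of (α := B)), ∀ y ∈ Set.range (FreeGroup.of (α := B)),
      x * y = y * x := by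
    rintro _ ⟨a, rfl⟩ _ ⟨b, rfl⟩
    rw [Subsingleton.elim a b]
  have hu : u ∈ Subgroup.closure (Set.range (FreeGroup.of (α := B))) := by
    rw [FreeGroup.closure_range_of]; trivial
  have hv : v ∈ Subgroup.closure (Set.range (FreeGroup.of (α := B))) := by
    rw [FreeGroup.closure_range_of]; trivial
  exact Subgroup.closure_induction₂ (p := fun x y _ _ => x * y = y * x)
    (fun x y hx hy => h x hx y hy) (fun x _ => by simp) (fun x _ => by simp)
    (fun x y z _ _ _ h1 h2 => by rw [mul_assoc, h2, ← mul_assoc, h1, mul_assoc])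
    (fun x y z _ _ _ h1 h2 => by rw [← mul_assoc, h1, mul_assoc, h2, mul_assoc])
    (fun x y _ _ h1 => (Commute.inv_left h1 : _))
    (fun x y _ _ h1 => (Commute.inv_right h1 : _)) hu hv

/-- A free group with a nontrivial central element is generated by one letter. -/
theorem central {B : Type*} (z : FreeGroup B) (hz : z ≠ 1) (hc : ∀ u, z * u = u * z) :
    ∃ b : B, ∀ u : FreeGroup B, u ∈ Subgroup.zpowers (FreeGroup.of b) := by
  have hsub : Subsingleton B := by
    constructor
    intro a b
    by_contra hab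
    exact hz (eq_one_of_commute z hab (hc _) (hc _))
  have hne : Nonempty B := by
    by_contra h
    rw [not_nonempty_iff] at h
    exact hz (Subsingleton.elim _ _)
  obtain ⟨b⟩ := hne
  refine ⟨b, fun u => ?_⟩
  have hu : u ∈ Subgroup.closure (Set.range (FreeGroup.of (α := B))) := by
    rw [FreeGroup.closure_range_of]; trivial
  have hr : Set.range (FreeGroup.of (α := B)) = {FreeGroup.of b} := by
    ext x
    constructor
    · rintro ⟨a, rfl⟩
      rw [Subsingleton.elim a b]
      rfl
    · rintro rfl
      exact ⟨b, rfl⟩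
  rw [hr, ← Subgroup.zpowers_eq_closure] at hu
  exact hu

/-- Subgroups of a free subgroup are free. -/
theorem isFree_of_le {G : Type*} [Group G] {F H : Subgroup G} (hF : IsFreeGroup F) (h : H ≤ F) :
    IsFreeGroup H := by
  have h1 : IsFreeGroup (H.subgroupOf F) := subgroupIsFreeOfIsFree _
  exact IsFreeGroup.ofMulEquiv (Subgroup.subgroupOfEquivOfLe h)

end FF

section FreeFacts

variable {G : Type*} [Group G]

/-- The centralizer of a nontrivial element in a free group is infinite cyclic. -/
theorem centralizer_cyclic (F : Subgroup G) (hF : IsFreeGroup F) {c : G} (hc : c ∈ F)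
    (hc1 : c ≠ 1) : ∃ h ∈ F, h ≠ 1 ∧ ∀ y ∈ F, y * c = c * y ↔ y ∈ Subgroup.zpowers h := by
  classical
  let C : Subgroup G := F ⊓ Subgroup.centralizer {c}
  have hCF : C ≤ F := inf_le_left
  have hfree : IsFreeGroup C := FF.isFree_of_le hF hCF
  have hmem : ∀ y, y ∈ C ↔ y ∈ F ∧ y * c = c * y := by
    intro y
    rw [show y ∈ C ↔ y ∈ F ∧ y ∈ Subgroup.centralizer {c} from Subgroup.mem_inf,
      Subgroup.mem_centralizer_iff]
    constructor
    · rintro ⟨h1, h2⟩
      exact ⟨h1, (h2 c rfl).symm⟩
    · rintro ⟨h1, h2⟩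
      refine ⟨h1, ?_⟩
      rintro _ rfl
      exact h2.symm
  have hcC : c ∈ C := (hmem c).2 ⟨hc, rfl⟩
  let e : C ≃* FreeGroup (IsFreeGroup.Generators C) := IsFreeGroup.toFreeGroup C
  let z := e ⟨c, hcC⟩
  have hz : z ≠ 1 := by
    intro h1
    have h2 : (⟨c, hcC⟩ : C) = 1 := e.injective (by rw [map_one]; exact h1)
    exact hc1 (congrArg Subtype.val h2)
  have hcen : ∀ u, z * u = u * z := by
    intro u
    obtain ⟨v, rfl⟩ := e.surjective u
    show e _ * e v = e v * e _
    rw [← map_mul, ← map_mul]
    congr 1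
    apply Subtype.ext
    show c * (v : G) = (v : G) * c
    exact ((hmem v).1 v.2).2.symm
  obtain ⟨b, hb⟩ := FF.central z hz hcen
  let h : C := e.symm (FreeGroup.of b)
  refine ⟨(h : G), hCF h.2, ?_, ?_⟩
  · intro h1
    have h2 : h = 1 := Subtype.ext h1
    have h3 : e h = 1 := by rw [h2, map_one]
    have h4 : e h = FreeGroup.of b := e.apply_symm_apply _
    rw [h4] at h3
    exact FreeGroup.of_ne_one b h3
  · intro y hy
    constructor
    · intro hyc
      have hyC : y ∈ C := (hmem y).2 ⟨hy, hyc⟩
      obtain ⟨n, hn⟩ := hb (e ⟨y, hyC⟩)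
      refine ⟨n, ?_⟩
      have h5 : h ^ n = ⟨y, hyC⟩ := by
        apply e.injective
        rw [map_zpow]
        have h4 : e h = FreeGroup.of b := e.apply_symm_apply _
        rw [h4]
        exact hn
      exact congrArg Subtype.val h5
    · rintro ⟨n, rfl⟩
      have : (h : G) ^ n ∈ C := C.zpow_mem h.2 n
      exact ((hmem _).1 this).2

theorem pow_ne_one_of_free (F : Subgroup G) (hF : IsFreeGroup F) {h : G} (hh : h ∈ F)
    (h1 : h ≠ 1) {n : ℤ} (hn : n ≠ 0) : h ^ n ≠ 1 := by
  intro h0
  let e : F ≃* FreeGroup (IsFreeGroup.Generators F) := IsFreeGroup.toFreeGroup F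
  have h2 : (e ⟨h, hh⟩) ^ n = 1 := by
    rw [← map_zpow]
    have : (⟨h, hh⟩ : F) ^ n = 1 := Subtype.ext h0
    rw [this, map_one]
  have h3 : e ⟨h, hh⟩ ≠ 1 := by
    intro h4
    have h5 : (⟨h, hh⟩ : F) = 1 := e.injective (by rw [map_one]; exact h4)
    exact h1 (congrArg Subtype.val h5)
  exact h3 ((IsMulTorsionFree.zpow_eq_one_iff_left hn).1 h2)

/-- Two noncommuting elements of a free group are free generators. -/
theorem noncomm_free (F : Subgroup G) (hF : IsFreeGroup F) {a b : G} (ha : a ∈ F) (hb : b ∈ F)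
    (hab : a * b ≠ b * a) : Injective (FreeGroup.lift (fun i : Bool => cond i a b)) := by
  classical
  let y : Bool → G := fun i => cond i a b
  let H := (FreeGroup.lift y).range
  have hHF : H ≤ F := by
    rintro _ ⟨w, rfl⟩
    induction w using FreeGroup.induction_on with
    | C1 => rw [map_one]; exact F.one_mem
    | of t =>
      rw [FreeGroup.lift_apply_of]
      cases t
      · exact hb
      · exact ha
    | inv_of t ht => rw [map_inv]; exact F.inv_mem ht
    | mul u v hu hv => rw [map_mul]; exact F.mul_mem hu hv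
  have hfree : IsFreeGroup H := FF.isFree_of_le hF hHF
  let C := IsFreeGroup.Generators H
  let e : H ≃* FreeGroup C := IsFreeGroup.toFreeGroup H
  let f : FreeGroup Bool →* FreeGroup C := e.toMonoidHom.comp (FreeGroup.lift y).rangeRestrict
  have hf : Function.Surjective f :=
    e.surjective.comp (FreeGroup.lift y).rangeRestrict_surjective
  have hlsurj : Function.Surjective (indLin f) := by
    rw [← LinearMap.range_eq_top, eq_top_iff,
      ← (Finsupp.basisSingleOne : Module.Basis C ℚ (C →₀ ℚ)).span_eq, Submodule.span_le]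
    rintro _ ⟨c, rfl⟩
    rw [Finsupp.coe_basisSingleOne]
    obtain ⟨u, hu⟩ := hf (FreeGroup.of c)
    refine ⟨Multiplicative.toAdd (abQ Bool u), ?_⟩
    rw [indLin_abQ, hu, abQ_of]
  have hfin : Module.Finite ℚ (C →₀ ℚ) := Module.Finite.of_surjective _ hlsurj
  have hfinC : Finite C := by
    have := Module.Finite.finite_basis (Finsupp.basisSingleOne : Module.Basis C ℚ (C →₀ ℚ))
    exact this
  have hCfin : Fintype C := Fintype.ofFinite C
  have hcard : Fintype.card C ≤ 2 := by
    have h1 := LinearMap.finrank_le_finrank_of_surjective hlsurj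
    rw [Module.finrank_finsupp_self, Module.finrank_finsupp_self] at h1
    simpa using h1
  have hC2 : Fintype.card C = 2 := by
    by_contra hne
    have hC1 : Fintype.card C ≤ 1 := by omega
    have hsub : Subsingleton C := Fintype.card_le_one_iff_subsingleton.1 hC1
    have haH : a ∈ H := ⟨FreeGroup.of true, by rw [FreeGroup.lift_apply_of]; rfl⟩
    have hbH : b ∈ H := ⟨FreeGroup.of false, by rw [FreeGroup.lift_apply_of]; rfl⟩
    have h2 := FF.comm_of_subsingleton (e ⟨a, haH⟩) (e ⟨b, hbH⟩)
    rw [← map_mul, ← map_mul] at h2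
    exact hab (congrArg Subtype.val (e.injective h2))
  have e2 : Bool ≃ C := Fintype.equivOfCardEq (by rw [hC2]; rfl)
  have hfi := free_surj_inj e2 f hf
  intro w w' hww
  apply hfi
  show e _ = e _
  congr 1
  exact Subtype.ext hww

end FreeFacts

end Pool.Agent.SurfExact
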