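import Pool.Agent.SurfExact.Levels

/-!
# MP_5bf54f_al, package A2: top parts of spaces of vectors, and two faces of a plane point set
-/

set_option autoImplicit false
set_option linter.unusedSectionVars false

namespace Pool.Agent.SurfExact

open Function

section Filt

theorem finrank_le_of_top {G : Type*} [Group G] {L : Type*} [LinearOrder L] (lv : G → L)
    (Y : Finset G) (V U : Submodule ℚ (QG G)) (hV : ∀ y ∈ V, ∀ g, y.coeff g ≠ 0 → g ∈ Y)
    (hU : ∀ y ∈ U, ∀ g, y.coeff g ≠ 0 → g ∈ Y)
    (h : ∀ y ∈ V, ∀ l : L, (∀ g, y.coeff g ≠ 0 → lv g ≤ l) →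
      MonoidAlgebra.ofCoeff (y.coeff.filter (fun g => lv g = l)) ∈ U) :
    Module.finrank ℚ V ≤ Module.finrank ℚ U := by
  classical
  have key : ∀ (n : ℕ) (Y : Finset G) (V U : Submodule ℚ (QG G)), Y.card = n →
      (∀ y ∈ V, ∀ g, y.coeff g ≠ 0 → g ∈ Y) → (∀ y ∈ U, ∀ g, y.coeff g ≠ 0 → g ∈ Y) →
      (∀ y ∈ V, ∀ l : L, (∀ g, y.coeff g ≠ 0 → lv g ≤ l) →
        MonoidAlgebra.ofCoeff (y.coeff.filter (fun g => lv g = l)) ∈ U) →
      Module.finrank ℚ V ≤ Module.finrank ℚ U := by
    intro n
    induction n using Nat.strong_induction_on with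
    | _ n ih =>
      intro Y V U hn hV hU h
      have hfdU : FiniteDimensional ℚ U := finiteDimensional_of_supp Y U hU
      have hfdV : FiniteDimensional ℚ V := finiteDimensional_of_supp Y V hV
      rcases Y.eq_empty_or_nonempty with hY | hY
      · have : V = ⊥ := by
          rw [Submodule.eq_bot_iff]
          intro y hy
          refine MonoidAlgebra.ext (Finsupp.ext fun g => ?_)
          by_contra hg
          have := hV y hy g hg
          rw [hY] at this
          exact absurd this (Finset.notMem_empty g)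
        rw [this, finrank_bot]
        exact Nat.zero_le _
      · obtain ⟨a, haY, hmax⟩ := Finset.exists_max_image Y lv hY
        set l := lv a with hl
        let T : QG G →ₗ[ℚ] QG G :=
          { toFun := fun y => MonoidAlgebra.ofCoeff (y.coeff.filter (fun g => lv g = l))
            map_add' := by
              intro a b
              refine MonoidAlgebra.ext (Finsupp.ext fun g => ?_)
              simp only [MonoidAlgebra.coeff_add, Finsupp.add_apply, Finsupp.filter_apply]
              split_ifs <;> simp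
            map_smul' := by
              intro c a
              refine MonoidAlgebra.ext (Finsupp.ext fun g => ?_)
              simp only [MonoidAlgebra.coeff_smul, Finsupp.smul_apply, Finsupp.filter_apply,
                RingHom.id_apply]
              split_ifs <;> simp }
        have hT : ∀ y g, (T y).coeff g = if lv g = l then y.coeff g else 0 := by
          intro y g
          show (MonoidAlgebra.ofCoeff (y.coeff.filter (fun g => lv g = l))).coeff g = _
          rw [MonoidAlgebra.coeff_ofCoeff, Finsupp.filter_apply]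
        let V' : Submodule ℚ (QG G) := V ⊓ LinearMap.ker T
        let U' : Submodule ℚ (QG G) := U ⊓ inSub {g | lv g < l}
        have hV'lt : ∀ y ∈ V', ∀ g, y.coeff g ≠ 0 → g ∈ Y ∧ lv g < l := by
          rintro y ⟨hy1, hy2⟩ g hg
          have h1 := hV y hy1 g hg
          refine ⟨h1, lt_of_le_of_ne (hmax g h1) ?_⟩
          intro h2
          have h3 : (T y).coeff g = 0 := by
            have h4 : T y = 0 := hy2
            rw [h4]
            rfl
          rw [hT, if_pos h2] at h3
          exact hg h3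
        have hY'lt : (Y.filter (fun g => lv g < l)).card < Y.card := by
          apply Finset.card_lt_card
          rw [Finset.ssubset_iff_of_subset (Finset.filter_subset _ _)]
          exact ⟨a, haY, by simp [hl]⟩
        have h1 : Module.finrank ℚ V' ≤ Module.finrank ℚ U' := by
          apply ih (Y.filter (fun g => lv g < l)).card (by omega)
            (Y.filter (fun g => lv g < l)) V' U' rfl
          · intro y hy g hg
            rw [Finset.mem_filter]
            exact hV'lt y hy g hg
          · rintro y ⟨hy1, hy2⟩ g hg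
            rw [Finset.mem_filter]
            exact ⟨hU y hy1 g hg, hy2 g hg⟩
          · intro y hy l' hl'
            refine ⟨h y hy.1 l' hl', ?_⟩
            intro g hg
            rw [MonoidAlgebra.coeff_ofCoeff, Finsupp.filter_apply] at hg
            split_ifs at hg with h2
            · exact (hV'lt y hy g hg).2
            · exact absurd rfl hg
        let π := T.domRestrict V
        have h2 := LinearMap.finrank_range_add_finrank_ker π
        have h3 : Module.finrank ℚ (LinearMap.ker π) ≤ Module.finrank ℚ V' := by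
          rw [← Submodule.finrank_map_subtype_eq V (LinearMap.ker π)]
          have : FiniteDimensional ℚ V' := Submodule.finiteDimensional_of_le inf_le_left
          apply Submodule.finrank_mono
          rintro _ ⟨y, hy, rfl⟩
          exact ⟨y.2, hy⟩
        have h4 : LinearMap.range π ≤ U := by
          rintro _ ⟨y, rfl⟩
          exact h y.1 y.2 l (fun g hg => hmax g (hV y.1 y.2 g hg))
        have h5 : LinearMap.range π ⊓ U' = ⊥ := by
          rw [Submodule.eq_bot_iff]
          rintro _ ⟨⟨y, rfl⟩, hy2⟩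
          refine MonoidAlgebra.ext (Finsupp.ext fun g => ?_)
          by_contra hg
          have h6 : lv g < l := hy2.2 g hg
          have h7 : (T y.1).coeff g ≠ 0 := hg
          rw [hT] at h7
          split_ifs at h7 with h8
          · exact absurd h8 h6.ne
          · exact absurd rfl h7
        have h6 := Submodule.finrank_sup_add_finrank_inf_eq (LinearMap.range π) U'
        rw [h5, finrank_bot, add_zero] at h6
        have h7 : Module.finrank ℚ (LinearMap.range π ⊔ U' : Submodule ℚ (QG G)) ≤
            Module.finrank ℚ U :=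
          Submodule.finrank_mono (sup_le h4 inf_le_left)
        omega
  exact key _ Y V U rfl hV hU h

/-- Two non-parallel faces of a finite set of points of the plane that is not on a line. -/
theorem two_faces (P : Finset (ℚ × ℚ)) (hP : ∃ u ∈ P, ∃ v ∈ P, ∃ w ∈ P,
      (v.1 - u.1) * (w.2 - u.2) - (v.2 - u.2) * (w.1 - u.1) ≠ 0) :
    ∃ (α β : Bool → ℚ) (a b : Bool → ℚ × ℚ),
      (∀ i, a i ∈ P ∧ b i ∈ P ∧ α i * (a i).1 + β i * (a i).2 = α i * (b i).1 + β i * (b i).2 ∧
        (∀ p ∈ P, α i * p.1 + β i * p.2 ≤ α i * (a i).1 + β i * (a i).2) ∧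
        ∃ p ∈ P, α i * p.1 + β i * p.2 < α i * (a i).1 + β i * (a i).2) ∧
      ((b true).1 - (a true).1) * ((b false).2 - (a false).2) -
        ((b true).2 - (a true).2) * ((b false).1 - (a false).1) ≠ 0 := by
  classical
  -- a generic direction
  obtain ⟨t, ht⟩ := Infinite.exists_notMem_finset
    ((P ×ˢ P).image (fun pq : (ℚ × ℚ) × (ℚ × ℚ) => -(pq.1.1 - pq.2.1) / (pq.1.2 - pq.2.2)))
  let F : ℚ × ℚ → ℚ := fun p => p.1 + t * p.2
  have hFinj : ∀ p ∈ P, ∀ q ∈ P, F p = F q → p = q := by
    intro p hp q hq h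
    have h1 : p.1 + t * p.2 = q.1 + t * q.2 := h
    by_cases h2 : p.2 = q.2
    · rw [h2] at h1
      exact Prod.ext (by linarith) h2
    · exfalso
      apply ht
      rw [Finset.mem_image]
      refine ⟨(p, q), Finset.mem_product.2 ⟨hp, hq⟩, ?_⟩
      have h3 : p.2 - q.2 ≠ 0 := sub_ne_zero.2 h2
      simp only
      rw [div_eq_iff h3]
      linarith
  obtain ⟨u, hu, v, hv, w, hw, huvw⟩ := hP
  obtain ⟨p₀, hp₀, hmax⟩ := Finset.exists_max_image P F ⟨u, hu⟩
  have hlt : ∀ p ∈ P, p ≠ p₀ → F p - F p₀ < 0 := by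
    intro p hp hne
    have h1 := hmax p hp
    have h2 : F p ≠ F p₀ := fun h => hne (hFinj p hp p₀ hp₀ h)
    have h3 := lt_of_le_of_ne h1 h2
    linarith
  let sl : ℚ × ℚ → ℚ := fun p => (p.2 - p₀.2) / (F p - F p₀)
  have hsl : ∀ p ∈ P, p ≠ p₀ → p.2 - p₀.2 = sl p * (F p - F p₀) := by
    intro p hp hne
    have h1 := (hlt p hp hne).ne
    show p.2 - p₀.2 = (p.2 - p₀.2) / (F p - F p₀) * (F p - F p₀)
    rw [div_mul_cancel₀ _ h1]
  -- the set of the other points is nonempty
  have hPne : (P.erase p₀).Nonempty := by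
    by_contra hcon
    rw [Finset.not_nonempty_iff_eq_empty] at hcon
    have h1 : ∀ p ∈ P, p = p₀ := by
      intro p hp
      by_contra hne
      have : p ∈ P.erase p₀ := Finset.mem_erase.2 ⟨hne, hp⟩
      rw [hcon] at this
      exact absurd this (Finset.notMem_empty _)
    apply huvw
    rw [h1 u hu, h1 v hv, h1 w hw]
    ring
  obtain ⟨a₁, ha₁, hmin⟩ := Finset.exists_min_image (P.erase p₀) sl hPne
  obtain ⟨a₂, ha₂, hmax2⟩ := Finset.exists_max_image (P.erase p₀) sl hPne
  obtain ⟨ha₁n, ha₁P⟩ := Finset.mem_erase.1 ha₁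
  obtain ⟨ha₂n, ha₂P⟩ := Finset.mem_erase.1 ha₂
  have hs12 : sl a₁ < sl a₂ := by
    refine lt_of_le_of_ne (hmin a₂ ha₂) ?_
    intro heq
    apply huvw
    have h1 : ∀ p ∈ P, p.2 - p₀.2 = sl a₁ * (F p - F p₀) := by
      intro p hp
      by_cases hne : p = p₀
      · rw [hne]; ring
      · have hp' : p ∈ P.erase p₀ := Finset.mem_erase.2 ⟨hne, hp⟩
        have h2 := hmin p hp'
        have h3 := hmax2 p hp'
        have h4 : sl p = sl a₁ := le_antisymm (by rw [heq]; exact h3) h2
        rw [hsl p hp hne, h4]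
    have hu' := h1 u hu
    have hv' := h1 v hv
    have hw' := h1 w hw
    simp only [F] at hu' hv' hw'
    have e1 : v.2 - u.2 = sl a₁ * ((v.1 - u.1) + t * (v.2 - u.2)) := by linear_combination hv' - hu'
    have e2 : w.2 - u.2 = sl a₁ * ((w.1 - u.1) + t * (w.2 - u.2)) := by linear_combination hw' - hu'
    generalize sl a₁ = s at e1 e2
    linear_combination (v.1 - u.1) * e2 - (w.1 - u.1) * e1 +
      t * ((v.2 - u.2) * e2 - (w.2 - u.2) * e1)
  have hF1 := hlt a₁ ha₁P ha₁n
  have hF2 := hlt a₂ ha₂P ha₂n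
  have hv1 := hsl a₁ ha₁P ha₁n
  have hv2 := hsl a₂ ha₂P ha₂n
  refine ⟨fun i => cond i (-(sl a₁)) (sl a₂), fun i => cond i (1 - sl a₁ * t) (-1 + sl a₂ * t),
    fun _ => p₀, fun i => cond i a₁ a₂, ?_, ?_⟩
  · have hle1 : ∀ p ∈ P, -(sl a₁) * p.1 + (1 - sl a₁ * t) * p.2 ≤
        -(sl a₁) * p₀.1 + (1 - sl a₁ * t) * p₀.2 := by
      intro p hp
      by_cases hne : p = p₀
      · rw [hne]
      · have h1 := hsl p hp hne
        have h2 := hlt p hp hne
        have h3 := hmin p (Finset.mem_erase.2 ⟨hne, hp⟩)
        have h4 : (sl p - sl a₁) * (F p - F p₀) ≤ 0 :=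
          mul_nonpos_of_nonneg_of_nonpos (by linarith) h2.le
        simp only [F] at h1 h4
        linarith
    have hle2 : ∀ p ∈ P, sl a₂ * p.1 + (-1 + sl a₂ * t) * p.2 ≤
        sl a₂ * p₀.1 + (-1 + sl a₂ * t) * p₀.2 := by
      intro p hp
      by_cases hne : p = p₀
      · rw [hne]
      · have h1 := hsl p hp hne
        have h2 := hlt p hp hne
        have h3 := hmax2 p (Finset.mem_erase.2 ⟨hne, hp⟩)
        have h4 : (sl a₂ - sl p) * (F p - F p₀) ≤ 0 :=
          mul_nonpos_of_nonneg_of_nonpos (by linarith) h2.le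
        simp only [F] at h1 h4
        linarith
    intro i
    cases i
    · simp only [cond_false]
      refine ⟨hp₀, ha₂P, ?_, hle2, a₁, ha₁P, ?_⟩
      · simp only [F] at hv2
        linarith
      · have h4 : (sl a₂ - sl a₁) * (F a₁ - F p₀) < 0 :=
          mul_neg_of_pos_of_neg (by linarith) hF1
        simp only [F] at h4 hv1
        linarith
    · simp only [cond_true]
      refine ⟨hp₀, ha₁P, ?_, hle1, a₂, ha₂P, ?_⟩
      · simp only [F] at hv1
        linarith
      · have h4 : (sl a₂ - sl a₁) * (F a₂ - F p₀) < 0 :=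
          mul_neg_of_pos_of_neg (by linarith) hF2
        simp only [F] at h4 hv2
        linarith
  · simp only [cond_true, cond_false]
    have h1 : (a₁.1 - p₀.1) * (a₂.2 - p₀.2) - (a₁.2 - p₀.2) * (a₂.1 - p₀.1) =
        (F a₁ - F p₀) * (F a₂ - F p₀) * (sl a₂ - sl a₁) := by
      have e1 : a₁.1 - p₀.1 = (F a₁ - F p₀) - t * (a₁.2 - p₀.2) := by simp only [F]; ring
      have e2 : a₂.1 - p₀.1 = (F a₂ - F p₀) - t * (a₂.2 - p₀.2) := by simp only [F]; ring
      rw [e1, e2, hv1, hv2]
      ring
    rw [h1]
    exact mul_ne_zero (mul_ne_zero hF1.ne hF2.ne) (by linarith)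

end Filt

end Pool.Agent.SurfExact
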