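import Pool.Agent.SurfExact.Levels
import Pool.Agent.SurfExact.FreeFacts
import Pool.Agent.SurfExact.Forest
import Pool.Agent.SurfExact.Domain
import Pool.Agent.SurfExact.Filt

/-!
# MP_5bf54f_al, package A2b: Lemma A
-/

set_option autoImplicit false
set_option linter.unusedSectionVars false

namespace Pool.Agent.SurfExact

open Function

namespace LA

variable {G : Type*} [Group G]

theorem isFree_of_le {F H : Subgroup G} (hF : IsFreeGroup F) (hHF : H ≤ F) : IsFreeGroup H := by
  have h1 : IsFreeGroup (H.subgroupOf F) := inferInstance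
  exact IsFreeGroup.ofMulEquiv (Subgroup.subgroupOfEquivOfLe hHF)

theorem QG_eq_zero {y : QG G} (h : ∀ g, y.coeff g = 0) : y = 0 :=
  MonoidAlgebra.ext (Finsupp.ext h)

theorem exists_coeff {y : QG G} (h : y ≠ 0) : ∃ g, y.coeff g ≠ 0 := by
  by_contra hcon
  push Not at hcon
  exact h (QG_eq_zero hcon)

/-- Multiplication by a nonzero element supported in a free subgroup is injective. -/
theorem mul_ne_zero_of_supp (F : Subgroup G) (hF : IsFreeGroup F) {e D : QG G} (he : e ≠ 0)
    (hD : D ≠ 0) (hDF : ∀ g, D.coeff g ≠ 0 → g ∈ F) : e * D ≠ 0 := by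
  classical
  obtain ⟨a, ha⟩ := exists_coeff he
  obtain ⟨w, hw⟩ := exists_coeff hD
  have hU : UniqueProds F := uniqueProds_of_isFreeGroup F
  -- the part of `e` on the coset `a F`, and `D`, as subsets of `F`
  let A : Finset F := (e.coeff.support.image (fun g => a⁻¹ * g)).subtype (· ∈ F)
  let B : Finset F := D.coeff.support.subtype (· ∈ F)
  have hA : A.Nonempty := ⟨1, by
    rw [Finset.mem_subtype, Finset.mem_image]
    exact ⟨a, Finsupp.mem_support_iff.2 ha, by simp⟩⟩
  have hB : B.Nonempty := ⟨⟨w, hDF w hw⟩, by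
    rw [Finset.mem_subtype]
    exact Finsupp.mem_support_iff.2 hw⟩
  obtain ⟨a0, ha0, b0, hb0, huniq⟩ := UniqueProds.uniqueMul_of_nonempty hA hB
  have ha0' : e.coeff (a * a0.1) ≠ 0 := by
    rw [Finset.mem_subtype, Finset.mem_image] at ha0
    obtain ⟨g, hg, hga⟩ := ha0
    have : a * a0.1 = g := by rw [← hga]; group
    rw [this]
    exact Finsupp.mem_support_iff.1 hg
  have hb0' : D.coeff b0.1 ≠ 0 := by
    rw [Finset.mem_subtype] at hb0
    exact Finsupp.mem_support_iff.1 hb0
  have hU2 : UniqueMul e.coeff.support D.coeff.support (a * a0.1) b0.1 := by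
    intro a' b' ha' hb' hab
    have hb'F : b' ∈ F := hDF b' (Finsupp.mem_support_iff.1 hb')
    have h1 : a⁻¹ * a' = a0.1 * b0.1 * b'⁻¹ := by
      have : a' = a * a0.1 * b0.1 * b'⁻¹ := by rw [← hab]; group
      rw [this]; group
    have ha'F : a⁻¹ * a' ∈ F := by
      rw [h1]
      exact mul_mem (mul_mem a0.2 b0.2) (inv_mem hb'F)
    have h2 := huniq (a := ⟨a⁻¹ * a', ha'F⟩) (b := ⟨b', hb'F⟩) (by
      rw [Finset.mem_subtype, Finset.mem_image]
      exact ⟨a', ha', rfl⟩) (by
      rw [Finset.mem_subtype]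
      exact hb') (by
      apply Subtype.ext
      show a⁻¹ * a' * b' = a0.1 * b0.1
      rw [h1]; group)
    constructor
    · have h3 : a⁻¹ * a' = a0.1 := congrArg Subtype.val h2.1
      rw [← h3]; group
    · exact congrArg Subtype.val h2.2
  intro h0
  have h1 := MonoidAlgebra.coeff_mul_mul_of_uniqueMul hU2
  rw [h0] at h1
  exact mul_ne_zero ha0' hb0' h1.symm

open Classical in
/-- The part of an element of the group ring on a set. -/
noncomputable def part (p : G → Prop) : QG G →ₗ[ℚ] QG G where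
  toFun y := MonoidAlgebra.ofCoeff (y.coeff.filter p)
  map_add' := by
    intro a b
    refine MonoidAlgebra.ext (Finsupp.ext fun g => ?_)
    simp only [MonoidAlgebra.coeff_add, Finsupp.add_apply, Finsupp.filter_apply]
    split_ifs <;> simp
  map_smul' := by
    intro c a
    refine MonoidAlgebra.ext (Finsupp.ext fun g => ?_)
    simp only [MonoidAlgebra.coeff_smul, Finsupp.smul_apply, Finsupp.filter_apply,
      RingHom.id_apply]
    split_ifs <;> simp

open Classical in
theorem part_coeff (p : G → Prop) (y : QG G) (g : G) :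
    (part p y).coeff g = if p g then y.coeff g else 0 := by
  show (MonoidAlgebra.ofCoeff (y.coeff.filter p)).coeff g = _
  rw [MonoidAlgebra.coeff_ofCoeff, Finsupp.filter_apply]

open Classical in
theorem part_el (p : G → Prop) (g : G) : part p (el g) = if p g then el g else 0 := by
  refine MonoidAlgebra.ext (Finsupp.ext fun g' => ?_)
  rw [part_coeff, el_coeff]
  by_cases hg : p g
  · rw [if_pos hg, el_coeff]
    by_cases h : g' = g
    · rw [h, if_pos hg]
    · rw [Finsupp.single_eq_of_ne h]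
      simp
  · rw [if_neg hg]
    by_cases h : g' = g
    · rw [h, if_neg hg]
      rfl
    · rw [Finsupp.single_eq_of_ne h]
      simp

theorem eq_sum (y : QG G) : y = ∑ g ∈ y.coeff.support, y.coeff g • el g := QG_eq_sum y

/-- Multiplicativity of top parts. -/
theorem part_mul (lv : G → ℚ) (φ : G → ℚ) (e D : QG G)
    (hlv : ∀ a g, D.coeff g ≠ 0 → lv (a * g) = lv a + φ g) (m μ : ℚ)
    (he : ∀ g, e.coeff g ≠ 0 → lv g ≤ m) (hD : ∀ g, D.coeff g ≠ 0 → φ g ≤ μ) :
    part (fun g => lv g = m + μ) (e * D) =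
      part (fun g => lv g = m) e * part (fun g => φ g = μ) D := by
  classical
  conv_lhs => rw [eq_sum e, eq_sum D]
  conv_rhs => rw [eq_sum e, eq_sum D]
  rw [map_sum, map_sum, Finset.sum_mul_sum, Finset.sum_mul_sum, map_sum]
  refine Finset.sum_congr rfl fun a ha => ?_
  rw [map_sum]
  refine Finset.sum_congr rfl fun w hw => ?_
  have ha1 := he a (Finsupp.mem_support_iff.1 ha)
  have hw1 := hD w (Finsupp.mem_support_iff.1 hw)
  have hl := hlv a w (Finsupp.mem_support_iff.1 hw)
  rw [smul_mul_smul_comm, ← el_mul, map_smul, map_smul, map_smul, smul_mul_smul_comm, part_el,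
    part_el, part_el, hl]
  by_cases h1 : lv a = m
  · by_cases h2 : φ w = μ
    · rw [if_pos h1, if_pos h2, if_pos (by rw [h1, h2]), el_mul]
    · rw [if_neg h2, if_neg (by
        intro h3
        apply h2
        linarith), mul_zero]
  · rw [if_neg h1, if_neg (by
      intro h3
      apply h1
      linarith), zero_mul]

/-- Products have no part above the sum of the top levels. -/
theorem part_mul_above (lv : G → ℚ) (φ : G → ℚ) (e D : QG G)
    (hlv : ∀ a g, D.coeff g ≠ 0 → lv (a * g) = lv a + φ g) (m μ l : ℚ)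
    (he : ∀ g, e.coeff g ≠ 0 → lv g ≤ m) (hD : ∀ g, D.coeff g ≠ 0 → φ g ≤ μ) (hl : m + μ < l) :
    part (fun g => lv g = l) (e * D) = 0 := by
  classical
  conv_lhs => rw [eq_sum e, eq_sum D]
  rw [Finset.sum_mul_sum, map_sum]
  refine Finset.sum_eq_zero fun a ha => ?_
  rw [map_sum]
  refine Finset.sum_eq_zero fun w hw => ?_
  have ha1 := he a (Finsupp.mem_support_iff.1 ha)
  have hw1 := hD w (Finsupp.mem_support_iff.1 hw)
  have hl := hlv a w (Finsupp.mem_support_iff.1 hw)
  rw [smul_mul_smul_comm, ← el_mul, map_smul, part_el, hl, if_neg, smul_zero]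
  intro h3
  linarith

/-- Extension of a homomorphism on a subgroup to a level function. -/
theorem exists_lv (F : Subgroup G) (φ : G → ℚ) (hφ : ∀ a ∈ F, ∀ b ∈ F, φ (a * b) = φ a + φ b) :
    ∃ lv : G → ℚ, ∀ a, ∀ g ∈ F, lv (a * g) = lv a + φ g := by
  let r : G → G := fun g => (Quotient.out (g : G ⧸ F))
  have hr : ∀ g, (r g)⁻¹ * g ∈ F := by
    intro g
    rw [← QuotientGroup.eq]
    exact Quotient.out_eq (g : G ⧸ F)
  refine ⟨fun g => φ ((r g)⁻¹ * g), ?_⟩
  intro g a ha
  have h1 : r (g * a) = r g := by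
    show Quotient.out ((g * a : G) : G ⧸ F) = Quotient.out (g : G ⧸ F)
    have : ((g * a : G) : G ⧸ F) = (g : G ⧸ F) := by
      rw [QuotientGroup.eq]
      simpa using F.inv_mem ha
    rw [this]
  show φ ((r (g * a))⁻¹ * (g * a)) = φ ((r g)⁻¹ * g) + φ a
  rw [h1, ← mul_assoc, hφ _ (hr g) a ha]

/-- The submodule of multiples of `D` supported in `Y`. -/
def mulIn (D : QG G) (Y : Finset G) : Submodule ℚ (QG G) where
  carrier := {y | (∀ g, y.coeff g ≠ 0 → g ∈ Y) ∧ ∃ e : QG G, y = e * D}
  zero_mem' := ⟨by simp, 0, by simp⟩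
  add_mem' := by
    rintro a b ⟨ha, e, he⟩ ⟨hb, e', he'⟩
    refine ⟨?_, e + e', by rw [he, he', add_mul]⟩
    intro g h
    by_contra hg
    apply h
    have h1 : a.coeff g = 0 := by
      by_contra h1
      exact hg (ha g h1)
    have h2 : b.coeff g = 0 := by
      by_contra h2
      exact hg (hb g h2)
    simp [h1, h2]
  smul_mem' := by
    rintro c a ⟨ha, e, he⟩
    refine ⟨?_, c • e, by rw [he, smul_mul_assoc]⟩
    intro g h
    apply ha g
    intro h0
    apply h
    simp [h0]

/-- Reduction to top parts of `D`. -/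
theorem finrank_le_mulIn (F : Subgroup G) (hF : IsFreeGroup F) (D : QG G)
    (hDF : ∀ g, D.coeff g ≠ 0 → g ∈ F) (φ : G → ℚ)
    (hφ : ∀ a ∈ F, ∀ b ∈ F, φ (a * b) = φ a + φ b) (μ : ℚ)
    (hμ : ∀ g, D.coeff g ≠ 0 → φ g ≤ μ) (hμ' : ∃ g, D.coeff g ≠ 0 ∧ φ g = μ)
    (Y : Finset G) (V : Submodule ℚ (QG G))
    (hV : ∀ y ∈ V, (∀ g, y.coeff g ≠ 0 → g ∈ Y) ∧ ∃ e : QG G, y = e * D) :
    Module.finrank ℚ V ≤ Module.finrank ℚ (mulIn (part (fun g => φ g = μ) D) Y) := by
  classical
  obtain ⟨lv, hlv⟩ := exists_lv F φ hφ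
  have hlv' : ∀ a g, D.coeff g ≠ 0 → lv (a * g) = lv a + φ g := fun a g hg => hlv a g (hDF g hg)
  have hDt : part (fun g => φ g = μ) D ≠ 0 := by
    obtain ⟨g, hg, hgμ⟩ := hμ'
    intro h0
    apply hg
    have h1 : (part (fun g => φ g = μ) D).coeff g = 0 := by rw [h0]; rfl
    rwa [part_coeff, if_pos hgμ] at h1
  apply finrank_le_of_top lv Y V (mulIn (part (fun g => φ g = μ) D) Y)
    (fun y hy => (hV y hy).1) (fun y hy => hy.1)
  intro y hy l hl
  have hpart : MonoidAlgebra.ofCoeff (y.coeff.filter (fun g => lv g = l)) =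
      part (fun g => lv g = l) y := by
    refine MonoidAlgebra.ext (Finsupp.ext fun g => ?_)
    rw [part_coeff, MonoidAlgebra.coeff_ofCoeff, Finsupp.filter_apply]
    split_ifs <;> rfl
  rw [hpart]
  refine ⟨?_, ?_⟩
  · intro g hg
    rw [part_coeff] at hg
    split_ifs at hg with h
    · exact (hV y hy).1 g hg
    · exact absurd rfl hg
  obtain ⟨e, he⟩ := (hV y hy).2
  by_cases he0 : e = 0
  · refine ⟨0, ?_⟩
    rw [he, he0, zero_mul, map_zero, zero_mul]
  -- the top level of `e`
  have hne : (e.coeff.support).Nonempty := by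
    obtain ⟨g, hg⟩ := exists_coeff he0
    exact ⟨g, Finsupp.mem_support_iff.2 hg⟩
  obtain ⟨a, ha, hmax⟩ := Finset.exists_max_image e.coeff.support lv hne
  set m := lv a with hm
  have hem : ∀ g, e.coeff g ≠ 0 → lv g ≤ m := fun g hg => hmax g (Finsupp.mem_support_iff.2 hg)
  rcases lt_trichotomy (m + μ) l with hlt | heq | hgt
  · refine ⟨0, ?_⟩
    rw [he, part_mul_above lv φ e D hlv' m μ l hem hμ hlt, zero_mul]
  · refine ⟨part (fun g => lv g = m) e, ?_⟩
    rw [he, ← heq]
    exact part_mul lv φ e D hlv' m μ hem hμ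
  · exfalso
    have h1 := part_mul lv φ e D hlv' m μ hem hμ
    have h2 : part (fun g => lv g = m + μ) (e * D) = 0 := by
      rw [← he]
      apply QG_eq_zero
      intro g
      rw [part_coeff]
      split_ifs with h
      · by_contra hg
        have := hl g hg
        linarith
      · rfl
    rw [h2] at h1
    have h3 : part (fun g => lv g = m) e ≠ 0 := by
      intro h0
      have h4 : (part (fun g => lv g = m) e).coeff a = 0 := by rw [h0]; rfl
      rw [part_coeff, if_pos hm.symm] at h4
      exact Finsupp.mem_support_iff.1 ha h4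
    refine mul_ne_zero_of_supp F hF h3 hDt ?_ h1.symm
    intro g hg
    rw [part_coeff] at hg
    split_ifs at hg with h
    · exact hDF g hg
    · exact absurd rfl hg

/-- Multiples of a nonmonomial element supported in an infinite cyclic group. -/
theorem cyclic_partner {h : G} (hh : ∀ n : ℤ, n ≠ 0 → h ^ n ≠ 1) {D : QG G}
    (hD : ∀ g, D.coeff g ≠ 0 → g ∈ Subgroup.zpowers h)
    (hD2 : ∃ a b, a ≠ b ∧ D.coeff a ≠ 0 ∧ D.coeff b ≠ 0) (e : QG G) {a : G}
    (ha : (e * D).coeff a ≠ 0) :
    ∃ b, (e * D).coeff b ≠ 0 ∧ b ≠ a ∧ a⁻¹ * b ∈ Subgroup.zpowers h := by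
  classical
  have hinj : ∀ i j : ℤ, h ^ i = h ^ j → i = j := by
    intro i j hij
    by_contra hne
    apply hh (i - j) (sub_ne_zero.2 hne)
    rw [zpow_sub, hij, mul_inv_cancel]
  -- exponents of `D`
  let B : Finset ℤ := D.coeff.support.preimage (fun n : ℤ => h ^ n) (fun i _ j _ hij => hinj i j hij)
  have hBmem : ∀ n : ℤ, n ∈ B ↔ D.coeff (h ^ n) ≠ 0 := by
    intro n
    exact Finset.mem_preimage.trans Finsupp.mem_support_iff
  -- exponents of `e` on the coset of `a`
  let A : Finset ℤ := e.coeff.support.preimage (fun n : ℤ => a * h ^ n)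
    (fun i _ j _ hij => hinj i j (mul_left_cancel hij))
  have hAmem : ∀ n : ℤ, n ∈ A ↔ e.coeff (a * h ^ n) ≠ 0 := by
    intro n
    exact Finset.mem_preimage.trans Finsupp.mem_support_iff
  have hAne : A.Nonempty := by
    by_contra hA
    rw [Finset.not_nonempty_iff_eq_empty] at hA
    apply ha
    rw [eq_sum e, eq_sum D, Finset.sum_mul_sum]
    have h1 : ∀ g ∈ e.coeff.support, ∀ w ∈ D.coeff.support, g * w ≠ a := by
      intro g hg w hw hgw
      obtain ⟨n, hn⟩ := hD w (Finsupp.mem_support_iff.1 hw)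
      have hn' : h ^ n = w := hn
      have h2 : -n ∈ A := by
        rw [hAmem]
        have : a * h ^ (-n) = g := by
          rw [← hgw, ← hn', zpow_neg]; group
        rw [this]
        exact Finsupp.mem_support_iff.1 hg
      rw [hA] at h2
      exact absurd h2 (Finset.notMem_empty _)
    have h3 : ∀ s : Finset G, ∀ F : G → QG G, (∀ g ∈ s, (F g).coeff a = 0) →
        (∑ g ∈ s, F g).coeff a = 0 := by
      intro s F hF
      induction s using Finset.induction_on with
      | empty => rfl
      | insert g s hgs ih =>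
        rw [Finset.sum_insert hgs, MonoidAlgebra.coeff_add, Finsupp.add_apply,
          hF g (Finset.mem_insert_self g s),
          ih (fun g' hg' => hF g' (Finset.mem_insert_of_mem hg')), add_zero]
    apply h3
    intro g hg
    apply h3
    intro w hw
    rw [smul_mul_smul_comm, ← el_mul, MonoidAlgebra.coeff_smul, Finsupp.smul_apply, el_coeff,
      Finsupp.single_eq_of_ne (h1 g hg w hw).symm, smul_zero]
  obtain ⟨u, v, huv, hu, hv⟩ := hD2
  obtain ⟨nu, hnu⟩ := hD u hu
  obtain ⟨nv, hnv⟩ := hD v hv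
  have hnu' : h ^ nu = u := hnu
  have hnv' : h ^ nv = v := hnv
  have hBu : nu ∈ B := by rw [hBmem, hnu']; exact hu
  have hBv : nv ∈ B := by rw [hBmem, hnv']; exact hv
  have hBne : B.Nonempty := ⟨nu, hBu⟩
  have hnn : nu ≠ nv := by
    intro h0
    apply huv
    rw [← hnu', ← hnv', h0]
  -- products of extreme exponents
  have key : ∀ i ∈ A, ∀ k ∈ B, (∀ i' ∈ A, ∀ k' ∈ B, i' + k' = i + k → i' = i ∧ k' = k) →
      (e * D).coeff (a * h ^ (i + k)) ≠ 0 := by
    intro i hi k hk huniq
    have h1 : UniqueMul e.coeff.support D.coeff.support (a * h ^ i) (h ^ k) := by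
      intro a' b' ha' hb' hab
      obtain ⟨k', hk'⟩ := hD b' (Finsupp.mem_support_iff.1 hb')
      have hk'' : h ^ k' = b' := hk'
      have h2 : a' = a * h ^ (i + k - k') := by
        have : a' = a * h ^ i * h ^ k * b'⁻¹ := by rw [← hab]; group
        rw [this, ← hk'', zpow_sub, zpow_add]; group
      have h3 := huniq (i + k - k') (by
        rw [hAmem, ← h2]
        exact Finsupp.mem_support_iff.1 ha') k' (by
        rw [hBmem, hk'']
        exact Finsupp.mem_support_iff.1 hb') (by ring)
      constructor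
      · rw [h2, h3.1]
      · rw [← hk'', h3.2]
    have h4 := MonoidAlgebra.coeff_mul_mul_of_uniqueMul h1
    rw [zpow_add, ← mul_assoc, h4]
    exact mul_ne_zero ((hAmem i).1 hi) ((hBmem k).1 hk)
  have hmax := key (A.max' hAne) (A.max'_mem hAne) (B.max' hBne) (B.max'_mem hBne) (by
    intro i' hi' k' hk' h1
    have h2 := A.le_max' i' hi'
    have h3 := B.le_max' k' hk'
    constructor <;> linarith)
  have hmin := key (A.min' hAne) (A.min'_mem hAne) (B.min' hBne) (B.min'_mem hBne) (by
    intro i' hi' k' hk' h1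
    have h2 := A.min'_le i' hi'
    have h3 := B.min'_le k' hk'
    constructor <;> linarith)
  have hlt : A.min' hAne + B.min' hBne < A.max' hAne + B.max' hBne := by
    have h1 := A.min'_le _ (A.max'_mem hAne)
    have h2 : B.min' hBne < B.max' hBne := by
      rcases lt_or_gt_of_ne hnn with h3 | h3
      · have := B.min'_le nu hBu
        have := B.le_max' nv hBv
        linarith
      · have := B.min'_le nv hBv
        have := B.le_max' nu hBu
        linarith
    linarith
  by_cases h0 : a * h ^ (A.max' hAne + B.max' hBne) = a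
  · refine ⟨_, hmin, ?_, ⟨A.min' hAne + B.min' hBne, by
      show h ^ _ = _
      group⟩⟩
    intro h1
    have h2 := hinj _ _ (mul_left_cancel (h0.trans h1.symm))
    linarith
  · exact ⟨_, hmax, h0, ⟨A.max' hAne + B.max' hBne, by
      show h ^ _ = _
      group⟩⟩

/-- Dimension count by cosets. -/
theorem finrank_add_cosets_le (A : Subgroup G) (Y : Finset G) (V : Submodule ℚ (QG G))
    (hV : ∀ y ∈ V, ∀ g, y.coeff g ≠ 0 → g ∈ Y)
    (hp : ∀ y ∈ V, ∀ a, y.coeff a ≠ 0 → ∃ b, y.coeff b ≠ 0 ∧ b ≠ a ∧ a⁻¹ * b ∈ A) :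
    Module.finrank ℚ V + ((fun g : G => (g : G ⧸ A)) '' (Y : Set G)).ncard ≤ Y.card := by
  classical
  set q : G → G ⧸ A := fun g => (g : G ⧸ A) with hq
  have hsurj : ∀ c ∈ Y.image q, ∃ g ∈ Y, q g = c := by
    intro c hc
    exact Finset.mem_image.1 hc
  choose! r hr1 hr2 using hsurj
  set M : Finset G := (Y.image q).image r with hM
  have hMY : M ⊆ Y := by
    intro g hg
    obtain ⟨c, hc, rfl⟩ := Finset.mem_image.1 hg
    exact hr1 c hc
  have hMcard : M.card = (Y.image q).card := by
    apply Finset.card_image_of_injOn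
    intro c hc c' hc' hcc
    rw [← hr2 c hc, ← hr2 c' hc', hcc]
  have h1 : ((q '' (Y : Set G)).ncard) = M.card := by
    rw [hMcard, ← Finset.coe_image, Set.ncard_coe_finset]
  rw [h1]
  have h2 : Module.finrank ℚ V ≤ (Y \ M).card := by
    refine (finrank_le_card (Y \ M) _ ?_).2
    intro y hy h0
    have hsupp : ∀ g, y.coeff g ≠ 0 → g ∈ M := by
      intro g hg
      by_contra hgM
      exact hg (h0 g (Finset.mem_sdiff.2 ⟨hV y hy g hg, hgM⟩))
    apply QG_eq_zero
    intro m
    by_contra hm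
    obtain ⟨b, hb, hbm, hbA⟩ := hp y hy m hm
    have hmM := hsupp m hm
    have hbM := hsupp b hb
    have hqq : q m = q b := by
      show ((m : G) : G ⧸ A) = (b : G ⧸ A)
      rw [QuotientGroup.eq]
      exact hbA
    apply hbm
    obtain ⟨c, hc, rfl⟩ := Finset.mem_image.1 hmM
    obtain ⟨c', hc', rfl⟩ := Finset.mem_image.1 hbM
    rw [hr2 c hc, hr2 c' hc'] at hqq
    rw [hqq]
  have h3 : (Y \ M).card + M.card = Y.card := Finset.card_sdiff_add_card_eq_card hMY
  omega

/-- Two integral characters of a noncommutative free group that are independent on a generating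
set. -/
theorem exists_two_char (F : Subgroup G) (hF : IsFreeGroup F)
    (hnc : ∃ a ∈ F, ∃ b ∈ F, a * b ≠ b * a) :
    ∃ f : Bool → G → ℚ, (∀ i, ∀ a ∈ F, ∀ b ∈ F, f i (a * b) = f i a + f i b) ∧
      ∀ α β : ℚ, (∀ a ∈ F, α * f true a + β * f false a = 0) → α = 0 ∧ β = 0 := by
  classical
  let B := IsFreeGroup.Generators F
  let e : F ≃* FreeGroup B := IsFreeGroup.toFreeGroup F
  -- two different generators
  have hB : ∃ b₁ b₂ : B, b₁ ≠ b₂ := by
    by_contra hcon
    push Not at hcon
    obtain ⟨a, ha, b, hb, hab⟩ := hnc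
    apply hab
    have hcomm : ∀ u v : FreeGroup B, u * v = v * u := by
      by_cases hne : Nonempty B
      · obtain ⟨b₀⟩ := hne
        have h1 : ∀ u : FreeGroup B, u ∈ Subgroup.zpowers (FreeGroup.of b₀) := by
          intro u
          induction u using FreeGroup.induction_on with
          | C1 => exact one_mem _
          | of b => rw [hcon b b₀]; exact Subgroup.mem_zpowers _
          | inv_of b h => exact inv_mem h
          | mul a b ha hb => exact mul_mem ha hb
        intro u v
        obtain ⟨i, hi⟩ := h1 u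
        obtain ⟨j, hj⟩ := h1 v
        have hi' : FreeGroup.of b₀ ^ i = u := hi
        have hj' : FreeGroup.of b₀ ^ j = v := hj
        rw [← hi', ← hj', ← zpow_add, ← zpow_add, add_comm]
      · have h1 : ∀ u : FreeGroup B, u = 1 := by
          intro u
          induction u using FreeGroup.induction_on with
          | C1 => rfl
          | of b => exact absurd ⟨b⟩ hne
          | inv_of b h => exact absurd ⟨b⟩ hne
          | mul a b ha hb => rw [ha, hb, one_mul]
        intro u v
        rw [h1 u, h1 v]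
    have h1 := hcomm (e ⟨a, ha⟩) (e ⟨b, hb⟩)
    rw [← map_mul, ← map_mul] at h1
    exact congrArg Subtype.val (e.injective h1)
  obtain ⟨b₁, b₂, hb⟩ := hB
  let χ : B → FreeGroup B →* Multiplicative ℚ := fun b =>
    FreeGroup.lift (fun b' => Multiplicative.ofAdd (if b' = b then 1 else 0))
  let bb : Bool → B := fun i => cond i b₁ b₂
  refine ⟨fun i a => if h : a ∈ F then Multiplicative.toAdd (χ (bb i) (e ⟨a, h⟩)) else 0, ?_, ?_⟩
  · intro i a ha b hb
    simp only
    rw [dif_pos ha, dif_pos hb, dif_pos (mul_mem ha hb)]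
    have : (⟨a * b, mul_mem ha hb⟩ : F) = ⟨a, ha⟩ * ⟨b, hb⟩ := rfl
    rw [this, map_mul, map_mul, toAdd_mul]
  · intro α β h
    have h1 := h (e.symm (FreeGroup.of b₁)).1 (e.symm (FreeGroup.of b₁)).2
    have h2 := h (e.symm (FreeGroup.of b₂)).1 (e.symm (FreeGroup.of b₂)).2
    simp only [SetLike.coe_mem, dif_pos, Subtype.coe_eta, MulEquiv.apply_symm_apply, χ, bb,
      cond_true, cond_false, FreeGroup.lift_apply_of, toAdd_ofAdd, if_true, if_neg hb,
      if_neg hb.symm] at h1 h2
    constructor <;> linarith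

theorem core (D : QG G) (hD : NonCyc D) (h1D : D.coeff 1 ≠ 0)
    (F : Subgroup G) (hF : IsFreeGroup F)
    (hFgen : F = Subgroup.closure {g | D.coeff g ≠ 0})
    (IH : ∀ D' : QG G, D'.coeff.support.card < D.coeff.support.card → NonCyc D' →
      (∀ g, D'.coeff g ≠ 0 → g ∈ F) →
      ∀ (Y : Finset G) (_ : Y.Nonempty) (V : Submodule ℚ (QG G))
      (_ : ∀ y ∈ V, (∀ g, y.coeff g ≠ 0 → g ∈ Y) ∧ ∃ e : QG G, y = e * D'),
      2 * Module.finrank ℚ V + 1 ≤ Y.card)
    (Y : Finset G) (hY : Y.Nonempty) (V : Submodule ℚ (QG G))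
    (hV : ∀ y ∈ V, (∀ g, y.coeff g ≠ 0 → g ∈ Y) ∧ ∃ e : QG G, y = e * D) :
    2 * Module.finrank ℚ V + 1 ≤ Y.card := by
  classical
  have hDF : ∀ g, D.coeff g ≠ 0 → g ∈ F := by
    intro g hg
    rw [hFgen]
    exact Subgroup.subset_closure hg
  have hD0 : D ≠ 0 := by
    intro h0
    apply h1D
    rw [h0]
    rfl
  -- the characters
  obtain ⟨f, hf, hfind⟩ := exists_two_char F hF (by
    obtain ⟨a, b, c, ha, hb, hc, hne⟩ := hD
    exact ⟨_, mul_mem (inv_mem (hDF a ha)) (hDF b hb), _, mul_mem (inv_mem (hDF a ha)) (hDF c hc),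
      hne⟩)
  have hf1 : ∀ i, f i 1 = 0 := by
    intro i
    have := hf i 1 (one_mem _) 1 (one_mem _)
    rw [mul_one] at this
    linarith
  have hfinv : ∀ i, ∀ a ∈ F, f i a⁻¹ = - f i a := by
    intro i a ha
    have := hf i a ha a⁻¹ (inv_mem ha)
    rw [mul_inv_cancel, hf1] at this
    linarith
  let pt : G → ℚ × ℚ := fun g => (f true g, f false g)
  let P : Finset (ℚ × ℚ) := D.coeff.support.image pt
  -- linear relations on the support vanish
  have hrel : ∀ α β : ℚ, (∀ g, D.coeff g ≠ 0 → α * f true g + β * f false g = 0) →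
      α = 0 ∧ β = 0 := by
    intro α β h
    apply hfind
    intro a ha
    rw [hFgen] at ha
    have : a ∈ F ∧ α * f true a + β * f false a = 0 := by
      induction ha using Subgroup.closure_induction with
      | mem g hg => exact ⟨hDF g hg, h g hg⟩
      | one => exact ⟨one_mem _, by rw [hf1, hf1]; ring⟩
      | mul a b _ _ ha hb =>
        refine ⟨mul_mem ha.1 hb.1, ?_⟩
        rw [hf true a ha.1 b hb.1, hf false a ha.1 b hb.1]
        linear_combination ha.2 + hb.2
      | inv a _ ha =>
        refine ⟨inv_mem ha.1, ?_⟩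
        rw [hfinv true a ha.1, hfinv false a ha.1]
        linear_combination -ha.2
    exact this.2
  have hP : ∃ u ∈ P, ∃ v ∈ P, ∃ w ∈ P,
      (v.1 - u.1) * (w.2 - u.2) - (v.2 - u.2) * (w.1 - u.1) ≠ 0 := by
    by_contra hcon
    push Not at hcon
    have h0 : ((0 : ℚ), (0 : ℚ)) ∈ P := by
      rw [Finset.mem_image]
      exact ⟨1, Finsupp.mem_support_iff.2 h1D, by simp only [pt, hf1]⟩
    have hpt : ∀ g, D.coeff g ≠ 0 → pt g ∈ P := fun g hg =>
      Finset.mem_image_of_mem pt (Finsupp.mem_support_iff.2 hg)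
    have h2 : ∀ v, D.coeff v ≠ 0 → ∀ w, D.coeff w ≠ 0 →
        f true v * f false w - f false v * f true w = 0 := by
      intro v hv w hw
      have := hcon _ h0 _ (hpt v hv) _ (hpt w hw)
      simp only [pt, sub_zero] at this
      exact this
    have h3 : ∀ v, D.coeff v ≠ 0 → f true v = 0 ∧ f false v = 0 := by
      intro v hv
      have h4 := hrel (-(f false v)) (f true v) (by
        intro w hw
        have := h2 v hv w hw
        linarith)
      exact ⟨h4.2, by linarith [h4.1]⟩
    have h5 := hrel 1 0 (by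
      intro v hv
      rw [(h3 v hv).1, (h3 v hv).2]
      ring)
    exact one_ne_zero h5.1
  obtain ⟨α, β, a, b, hab, hdet⟩ := two_faces P hP
  let φ : Bool → G → ℚ := fun i g => α i * f true g + β i * f false g
  have hφ : ∀ i, ∀ u ∈ F, ∀ v ∈ F, φ i (u * v) = φ i u + φ i v := by
    intro i u hu v hv
    simp only [φ]
    rw [hf true u hu v hv, hf false u hu v hv]
    ring
  -- preimages of the points
  have hpre : ∀ p ∈ P, ∃ g, D.coeff g ≠ 0 ∧ pt g = p := by
    intro p hp
    obtain ⟨g, hg, hgp⟩ := Finset.mem_image.1 hp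
    exact ⟨g, Finsupp.mem_support_iff.1 hg, hgp⟩
  choose! w hw1 hw2 using hpre
  let wa : Bool → G := fun i => w (a i)
  let wb : Bool → G := fun i => w (b i)
  have hwa : ∀ i, D.coeff (wa i) ≠ 0 := fun i => hw1 _ (hab i).1
  have hwb : ∀ i, D.coeff (wb i) ≠ 0 := fun i => hw1 _ (hab i).2.1
  have hpta : ∀ i, pt (wa i) = a i := fun i => hw2 _ (hab i).1
  have hptb : ∀ i, pt (wb i) = b i := fun i => hw2 _ (hab i).2.1
  let μ : Bool → ℚ := fun i => φ i (wa i)
  have hφpt : ∀ i g, φ i g = α i * (pt g).1 + β i * (pt g).2 := fun i g => rfl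
  have hμb : ∀ i, φ i (wb i) = μ i := by
    intro i
    show φ i (wb i) = φ i (wa i)
    rw [hφpt, hφpt, hpta, hptb]
    exact (hab i).2.2.1.symm
  have hμmax : ∀ i g, D.coeff g ≠ 0 → φ i g ≤ μ i := by
    intro i g hg
    show φ i g ≤ φ i (wa i)
    rw [hφpt, hφpt, hpta]
    exact (hab i).2.2.2.1 _ (Finset.mem_image_of_mem pt (Finsupp.mem_support_iff.2 hg))
  have hμlt : ∀ i, ∃ g, D.coeff g ≠ 0 ∧ φ i g < μ i := by
    intro i
    obtain ⟨p, hp, hlt⟩ := (hab i).2.2.2.2
    refine ⟨w p, hw1 p hp, ?_⟩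
    show φ i (w p) < φ i (wa i)
    rw [hφpt, hφpt, hpta, hw2 p hp]
    exact hlt
  let Dt : Bool → QG G := fun i => part (fun g => φ i g = μ i) D
  have hDt : ∀ i g, (Dt i).coeff g ≠ 0 → D.coeff g ≠ 0 ∧ φ i g = μ i := by
    intro i g hg
    simp only [Dt] at hg
    rw [part_coeff] at hg
    split_ifs at hg with h
    · exact ⟨hg, h⟩
    · exact absurd rfl hg
  have hDt' : ∀ i g, D.coeff g ≠ 0 → φ i g = μ i → (Dt i).coeff g ≠ 0 := by
    intro i g hg h
    simp only [Dt]
    rw [part_coeff, if_pos h]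
    exact hg
  have hcard : ∀ i, (Dt i).coeff.support.card < D.coeff.support.card := by
    intro i
    apply Finset.card_lt_card
    rw [Finset.ssubset_iff_of_subset]
    · obtain ⟨g, hg, hlt⟩ := hμlt i
      refine ⟨g, Finsupp.mem_support_iff.2 hg, ?_⟩
      intro hgs
      have := (hDt i g (Finsupp.mem_support_iff.1 hgs)).2
      linarith
    · intro g hg
      exact Finsupp.mem_support_iff.2 (hDt i g (Finsupp.mem_support_iff.1 hg)).1
  have hle : ∀ i, Module.finrank ℚ V ≤ Module.finrank ℚ (mulIn (Dt i) Y) := fun i =>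
    finrank_le_mulIn F hF D hDF (φ i) (hφ i) (μ i) (hμmax i) ⟨wa i, hwa i, rfl⟩ Y V hV
  -- Case A
  by_cases hA : ∃ i, NonCyc (Dt i)
  · obtain ⟨i, hi⟩ := hA
    have h1 := IH (Dt i) (hcard i) hi (fun g hg => hDF g (hDt i g hg).1) Y hY (mulIn (Dt i) Y)
      (fun y hy => hy)
    have h2 := hle i
    omega
  push Not at hA
  -- Case B
  let d : Bool → G := fun i => (wa i)⁻¹ * wb i
  have hdF : ∀ i, d i ∈ F := fun i => mul_mem (inv_mem (hDF _ (hwa i))) (hDF _ (hwb i))
  have hdf : ∀ i j, f j (d i) = f j (wb i) - f j (wa i) := by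
    intro i j
    show f j ((wa i)⁻¹ * wb i) = _
    rw [hf j _ (inv_mem (hDF _ (hwa i))) _ (hDF _ (hwb i)), hfinv j _ (hDF _ (hwa i))]
    ring
  have hdet' : f true (d true) * f false (d false) - f false (d true) * f true (d false) ≠ 0 := by
    have e1 : ∀ i, f true (wa i) = (a i).1 := fun i => by rw [← hpta]
    have e2 : ∀ i, f false (wa i) = (a i).2 := fun i => by rw [← hpta]
    have e3 : ∀ i, f true (wb i) = (b i).1 := fun i => by rw [← hptb]
    have e4 : ∀ i, f false (wb i) = (b i).2 := fun i => by rw [← hptb]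
    rw [hdf, hdf, hdf, hdf, e1, e2, e3, e4, e1, e2, e3, e4]
    exact hdet
  have hd1 : ∀ i, d i ≠ 1 := by
    intro i h0
    apply hdet'
    cases i
    · rw [h0, hf1, hf1]; ring
    · rw [h0, hf1, hf1]; ring
  have hfz : ∀ j, ∀ g ∈ F, ∀ n : ℤ, f j (g ^ n) = n * f j g := by
    intro j g hg n
    induction n using Int.induction_on with
    | zero => rw [zpow_zero, hf1]; simp
    | succ n ih =>
      rw [zpow_add_one, hf j _ (zpow_mem hg _) _ hg, ih]
      push_cast
      ring
    | pred n ih =>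
      rw [zpow_sub_one, hf j _ (zpow_mem hg _) _ (inv_mem hg), ih, hfinv j g hg]
      push_cast
      ring
  choose h hhF hh1 hhc using fun i => centralizer_cyclic F hF (hdF i) (hd1 i)
  have hdz : ∀ i, d i ∈ Subgroup.zpowers (h i) := fun i => (hhc i _ (hdF i)).1 rfl
  have hnc : h true * h false ≠ h false * h true := by
    intro hcomm
    have hc : Commute (h true) (h false) := hcomm
    -- `d true` and `d false` commute
    obtain ⟨i, hi⟩ := hdz true
    obtain ⟨j, hj⟩ := hdz false
    have hi' : h true ^ i = d true := hi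
    have hj' : h false ^ j = d false := hj
    have h1 : d true ∈ Subgroup.zpowers (h false) := by
      apply (hhc false _ (hdF true)).1
      rw [← hi', ← hj']
      exact (hc.zpow_zpow i j).eq
    obtain ⟨k, hk⟩ := h1
    have hk' : h false ^ k = d true := hk
    apply hdet'
    rw [← hk', ← hj', hfz _ _ (hhF false), hfz _ _ (hhF false), hfz _ _ (hhF false),
      hfz _ _ (hhF false)]
    ring
  -- the estimate on each side
  have hside : ∀ i, Module.finrank ℚ V +
      ((fun g : G => (g : G ⧸ Subgroup.zpowers (h i))) '' (Y : Set G)).ncard ≤ Y.card := by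
    intro i
    have h1 : Module.finrank ℚ (mulIn (Dt i) Y) +
        ((fun g : G => (g : G ⧸ Subgroup.zpowers (h i))) '' (Y : Set G)).ncard ≤ Y.card := by
      apply finrank_add_cosets_le (Subgroup.zpowers (h i)) Y (mulIn (Dt i) Y) (fun y hy => hy.1)
      rintro y ⟨-, e, he⟩ c hc
      -- move the support of `Dt i` into the cyclic group
      let D' : QG G := el (wa i)⁻¹ * Dt i
      have hD' : ∀ g, D'.coeff g ≠ 0 → g ∈ Subgroup.zpowers (h i) := by
        intro g hg
        simp only [D'] at hg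
        rw [elmul_coeff, inv_inv] at hg
        have h3 := hDt i _ hg
        have h4 : g ∈ F := by
          have := mul_mem (inv_mem (hDF _ (hwa i))) (hDF _ h3.1)
          rwa [inv_mul_cancel_left] at this
        apply (hhc i g h4).1
        by_contra hne
        apply hA i
        refine ⟨wa i, wa i * g, wb i, hDt' i _ (hwa i) rfl, hg, hDt' i _ (hwb i) (hμb i), ?_⟩
        rw [inv_mul_cancel_left]
        exact hne
      have h5 : y = (e * el (wa i)) * D' := by
        rw [he]
        simp only [D']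
        rw [mul_assoc, ← mul_assoc (el (wa i)), el_mul_el_inv, one_mul]
      rw [h5] at hc ⊢
      apply cyclic_partner (fun n hn => pow_ne_one_of_free F hF (hhF i) (hh1 i) hn) hD' _ _ hc
      refine ⟨1, d i, (hd1 i).symm, ?_, ?_⟩
      · simp only [D']
        rw [elmul_coeff, inv_inv, mul_one]
        exact hDt' i _ (hwa i) rfl
      · simp only [D', d]
        rw [elmul_coeff, inv_inv, mul_inv_cancel_left]
        exact hDt' i _ (hwb i) (hμb i)
    have h2 := hle i
    omega
  have hfree := noncomm_free F hF (hhF true) (hhF false) hnc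
  have h5 := coset_forest _ hfree (Y : Set G) (Finset.finite_toSet _) hY
  rw [Fintype.sum_bool, Fintype.card_bool, Set.ncard_coe_finset] at h5
  simp only [cond_true, cond_false] at h5
  have h6 := hside true
  have h7 := hside false
  push_cast at h5
  have h6' : (Module.finrank ℚ V : ℤ) +
      (((fun g : G => (g : G ⧸ Subgroup.zpowers (h true))) '' (Y : Set G)).ncard : ℤ) ≤
      Y.card := by exact_mod_cast h6
  have h7' : (Module.finrank ℚ V : ℤ) +
      (((fun g : G => (g : G ⧸ Subgroup.zpowers (h false))) '' (Y : Set G)).ncard : ℤ) ≤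
      Y.card := by exact_mod_cast h7
  have h8 : 2 * (Module.finrank ℚ V : ℤ) + 1 ≤ Y.card := by linarith
  exact_mod_cast h8

end LA

/-- **Lemma A** (helper34). -/
theorem lemmaA {G : Type*} [Group G] (D : QG G) (hD : NonCyc D)
    (hfree : IsFreeGroup (Subgroup.closure {g | ∃ a b, D.coeff a ≠ 0 ∧ D.coeff b ≠ 0 ∧ g = a⁻¹ * b}))
    (Y : Finset G) (hY : Y.Nonempty) (V : Submodule ℚ (QG G))
    (hV : ∀ y ∈ V, (∀ g, y.coeff g ≠ 0 → g ∈ Y) ∧ ∃ e : QG G, y = e * D) :
    2 * Module.finrank ℚ V + 1 ≤ Y.card := by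
  classical
  have key : ∀ (n : ℕ) (D : QG G), D.coeff.support.card = n → NonCyc D →
      IsFreeGroup (Subgroup.closure {g | ∃ a b, D.coeff a ≠ 0 ∧ D.coeff b ≠ 0 ∧ g = a⁻¹ * b}) →
      ∀ (Y : Finset G) (_ : Y.Nonempty) (V : Submodule ℚ (QG G))
      (_ : ∀ y ∈ V, (∀ g, y.coeff g ≠ 0 → g ∈ Y) ∧ ∃ e : QG G, y = e * D),
      2 * Module.finrank ℚ V + 1 ≤ Y.card := by
    intro n
    induction n using Nat.strong_induction_on with
    | _ n ih =>
      intro D hn hD hfree Y hY V hV
      obtain ⟨w₀, b, c, hw₀, hb, hc, hne⟩ := hD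
      let D₁ : QG G := el w₀⁻¹ * D
      have hco : ∀ g, D₁.coeff g = D.coeff (w₀ * g) := by
        intro g
        simp only [D₁]
        rw [elmul_coeff, inv_inv]
      have hsupp : D₁.coeff.support = D.coeff.support.map (Equiv.mulLeft w₀⁻¹).toEmbedding := by
        ext g
        rw [Finsupp.mem_support_iff, hco, Finset.mem_map]
        constructor
        · intro hg
          exact ⟨w₀ * g, Finsupp.mem_support_iff.2 hg, by simp⟩
        · rintro ⟨g', hg', rfl⟩
          have : w₀ * (Equiv.mulLeft w₀⁻¹).toEmbedding g' = g' := by simp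
          rw [this]
          exact Finsupp.mem_support_iff.1 hg'
      have hcl : Subgroup.closure {g | ∃ a b, D.coeff a ≠ 0 ∧ D.coeff b ≠ 0 ∧ g = a⁻¹ * b} =
          Subgroup.closure {g | D₁.coeff g ≠ 0} := by
        apply le_antisymm
        · rw [Subgroup.closure_le]
          rintro _ ⟨a', b', ha', hb', rfl⟩
          have h1 : w₀⁻¹ * a' ∈ Subgroup.closure {g | D₁.coeff g ≠ 0} := by
            apply Subgroup.subset_closure
            show D₁.coeff _ ≠ 0
            rw [hco, mul_inv_cancel_left]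
            exact ha'
          have h2 : w₀⁻¹ * b' ∈ Subgroup.closure {g | D₁.coeff g ≠ 0} := by
            apply Subgroup.subset_closure
            show D₁.coeff _ ≠ 0
            rw [hco, mul_inv_cancel_left]
            exact hb'
          have h3 := mul_mem (inv_mem h1) h2
          have : (w₀⁻¹ * a')⁻¹ * (w₀⁻¹ * b') = a'⁻¹ * b' := by group
          rwa [this] at h3
        · rw [Subgroup.closure_le]
          intro g hg
          have hg' : D₁.coeff g ≠ 0 := hg
          rw [hco] at hg'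
          apply Subgroup.subset_closure
          exact ⟨w₀, w₀ * g, hw₀, hg', by group⟩
      refine LA.core D₁ ?_ ?_ _ hfree hcl ?_ Y hY V ?_
      · refine ⟨w₀⁻¹ * w₀, w₀⁻¹ * b, w₀⁻¹ * c, ?_, ?_, ?_, ?_⟩
        · rw [hco, mul_inv_cancel_left]; exact hw₀
        · rw [hco, mul_inv_cancel_left]; exact hb
        · rw [hco, mul_inv_cancel_left]; exact hc
        · have e1 : (w₀⁻¹ * w₀)⁻¹ * (w₀⁻¹ * b) = w₀⁻¹ * b := by group
          have e2 : (w₀⁻¹ * w₀)⁻¹ * (w₀⁻¹ * c) = w₀⁻¹ * c := by group
          rw [e1, e2]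
          exact hne
      · rw [hco, mul_one]
        exact hw₀
      · intro D' hcard' hD' hD'F Y' hY' V' hV'
        apply ih D'.coeff.support.card _ D' rfl hD' _ Y' hY' V' hV'
        · rw [hsupp, Finset.card_map, hn] at hcard'
          exact hcard'
        · apply LA.isFree_of_le hfree
          rw [Subgroup.closure_le]
          rintro _ ⟨a', b', ha', hb', rfl⟩
          exact mul_mem (inv_mem (hD'F a' ha')) (hD'F b' hb')
      · intro y hy
        refine ⟨(hV y hy).1, ?_⟩
        obtain ⟨e, he⟩ := (hV y hy).2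
        refine ⟨e * el w₀, ?_⟩
        simp only [D₁]
        rw [he, mul_assoc, ← mul_assoc (el w₀), el_mul_el_inv, one_mul]
  exact key _ D rfl hD hfree Y hY V hV

end Pool.Agent.SurfExact
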