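import Pool.Agent.SurfExact.Nielsen

/-!
# Adapted bases and ranks of finitely generated subgroups of free groups
-/

set_option autoImplicit false

namespace Pool.Agent.SurfExact

open Function

section H11aux

variable {X Y G : Type*} [Group G]

theorem h11_lift_reindex (c : X → G) (e : Y → X) :
    FreeGroup.lift (fun y => c (e y)) = (FreeGroup.lift c).comp (FreeGroup.map e) := by
  ext y
  simp

theorem h11_map_injective {e : Y → X} (he : Injective e) :
    Injective (FreeGroup.map e) := by
  rcases isEmpty_or_nonempty Y with hY | hY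
  · intro a b _
    have : Subsingleton (FreeGroup Y) := inferInstance
    exact Subsingleton.elim _ _
  · have h : LeftInverse (FreeGroup.map (invFun e)) (FreeGroup.map e) := by
      intro a
      rw [FreeGroup.map.comp]
      have : invFun e ∘ e = id := invFun_comp he
      rw [this, FreeGroup.map.id]
    exact h.injective

/-- extension of an automorphism of the free group on the letters different from `x₀` -/
theorem h11_extend (x₀ : X) (θ : FreeGroup {t : X // t ≠ x₀} ≃* FreeGroup {t : X // t ≠ x₀}) :
    ∃ Θ : FreeGroup X ≃* FreeGroup X, Θ (FreeGroup.of x₀) = FreeGroup.of x₀ ∧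
      ∀ t : {t : X // t ≠ x₀}, Θ (FreeGroup.of t.1) =
        FreeGroup.map Subtype.val (θ (FreeGroup.of t)) := by
  classical
  let E : (FreeGroup {t : X // t ≠ x₀} ≃* FreeGroup {t : X // t ≠ x₀}) →
      (FreeGroup X →* FreeGroup X) := fun η => FreeGroup.lift (fun t =>
        if h : t = x₀ then FreeGroup.of x₀ else FreeGroup.map Subtype.val (η (FreeGroup.of ⟨t, h⟩)))
  have E0 : ∀ η, E η (FreeGroup.of x₀) = FreeGroup.of x₀ := by
    intro η; simp [E]
  have E1 : ∀ η (t : {t : X // t ≠ x₀}), E η (FreeGroup.of t.1) =
      FreeGroup.map Subtype.val (η (FreeGroup.of t)) := by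
    intro η t
    simp only [E, FreeGroup.lift_apply_of, dif_neg t.2]
  have E2 : ∀ η (w : FreeGroup {t : X // t ≠ x₀}), E η (FreeGroup.map Subtype.val w) =
      FreeGroup.map Subtype.val (η w) := by
    intro η w
    have : (E η).comp (FreeGroup.map Subtype.val) =
        (FreeGroup.map Subtype.val).comp η.toMonoidHom := by
      ext t
      simp only [MonoidHom.comp_apply, FreeGroup.map.of, E1]
      rfl
    exact DFunLike.congr_fun this w
  have E3 : ∀ η (w : FreeGroup X), E η.symm (E η w) = w := by
    intro η w
    have : (E η.symm).comp (E η) = MonoidHom.id _ := by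
      ext t
      simp only [MonoidHom.comp_apply, MonoidHom.id_apply]
      by_cases h : t = x₀
      · subst h; rw [E0, E0]
      · have := E1 η ⟨t, h⟩
        simp only at this
        rw [this, E2, MulEquiv.symm_apply_apply, FreeGroup.map.of]
    exact DFunLike.congr_fun this w
  exact ⟨{ toFun := E θ
           invFun := E θ.symm
           left_inv := E3 θ
           right_inv := fun w => E3 θ.symm w
           map_mul' := (E θ).map_mul }, E0 θ, E1 θ⟩

theorem h11_adapt {κ : Type*} (n : ℕ) : ∀ (X : Type*) [Finite X] (_ : Nat.card X = n)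
    (φ : FreeGroup X →* FreeGroup κ), ∃ (θ : FreeGroup X ≃* FreeGroup X) (M : Set X),
      (∀ t ∈ M, φ (θ (FreeGroup.of t)) = 1) ∧
      Injective (FreeGroup.lift (fun t : {t : X // t ∉ M} => φ (θ (FreeGroup.of t.1)))) := by
  induction n with
  | zero =>
    intro X _ hX φ
    have : IsEmpty X := (Nat.card_eq_zero.1 hX).resolve_right (fun h => h.not_finite inferInstance)
    refine ⟨MulEquiv.refl _, ∅, by simp, ?_⟩
    intro a b _
    have : Subsingleton (FreeGroup {t : X // t ∉ (∅ : Set X)}) := by
      have : IsEmpty {t : X // t ∉ (∅ : Set X)} := ⟨fun t => IsEmpty.false t.1⟩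
      infer_instance
    exact Subsingleton.elim _ _
  | succ n ih =>
    intro X _ hX φ
    by_cases hφ : Injective φ
    · refine ⟨MulEquiv.refl _, ∅, by simp, ?_⟩
      have : (FreeGroup.lift (fun t : {t : X // t ∉ (∅ : Set X)} =>
          φ ((MulEquiv.refl _) (FreeGroup.of t.1)))) = φ.comp (FreeGroup.map Subtype.val) := by
        ext t
        simp
      rw [this]
      exact hφ.comp (h11_map_injective Subtype.val_injective)
    · obtain ⟨θ₁, x₀, h0⟩ := nielsen_kill φ hφ
      have hcard : Nat.card {t : X // t ≠ x₀} = n := by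
        classical
        have := Fintype.ofFinite X
        rw [Nat.card_eq_fintype_card] at hX ⊢
        rw [Fintype.card_subtype_compl, Fintype.card_subtype_eq, hX]
        rfl
      obtain ⟨θ', M', hM', hinj⟩ := ih {t : X // t ≠ x₀} hcard
        ((φ.comp θ₁.toMonoidHom).comp (FreeGroup.map Subtype.val))
      obtain ⟨Θ, hΘ0, hΘ1⟩ := h11_extend x₀ θ'
      refine ⟨Θ.trans θ₁, {x₀} ∪ Subtype.val '' M', ?_, ?_⟩
      · rintro t (rfl | ⟨t', ht', rfl⟩)
        · rw [MulEquiv.trans_apply, hΘ0, h0]
        · rw [MulEquiv.trans_apply, hΘ1]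
          exact hM' t' ht'
      · let e : {t : X // t ∉ {x₀} ∪ Subtype.val '' M'} → {t : {t : X // t ≠ x₀} // t ∉ M'} :=
          fun t => ⟨⟨t.1, fun h => t.2 (Or.inl h)⟩, fun h => t.2 (Or.inr ⟨_, h, rfl⟩)⟩
        have he : Injective e := by
          intro a b hab
          have := congrArg (fun t => t.1.1) hab
          exact Subtype.ext this
        have : (FreeGroup.lift (fun t : {t : X // t ∉ {x₀} ∪ Subtype.val '' M'} =>
            φ ((Θ.trans θ₁) (FreeGroup.of t.1)))) =
            (FreeGroup.lift (fun t : {t : {t : X // t ≠ x₀} // t ∉ M'} =>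
              ((φ.comp θ₁.toMonoidHom).comp (FreeGroup.map Subtype.val))
                (θ' (FreeGroup.of t.1)))).comp (FreeGroup.map e) := by
          ext t
          simp only [MonoidHom.comp_apply, FreeGroup.map.of, FreeGroup.lift_apply_of,
            MulEquiv.trans_apply]
          have := hΘ1 (e t).1
          have h2 : ((e t).1 : X) = t.1 := rfl
          rw [h2] at this
          rw [this]
          rfl
        rw [this]
        exact hinj.comp (h11_map_injective he)

end H11aux

section Rank

variable {G : Type*} [Group G]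

theorem nielsen_adapted {X : Type*} [Finite X] (F : Subgroup G) (hF : IsFreeGroup F)
    (φ : FreeGroup X →* G) (hφ : φ.range ≤ F) :
    ∃ (θ : FreeGroup X ≃* FreeGroup X) (M : Set X),
      (∀ t ∈ M, φ (θ (FreeGroup.of t)) = 1) ∧
      Injective (FreeGroup.lift (fun t : {t : X // t ∉ M} => φ (θ (FreeGroup.of t.1)))) := by
  let ψ : F ≃* FreeGroup (IsFreeGroup.Generators F) := IsFreeGroup.toFreeGroup F
  let φF : FreeGroup X →* F := φ.codRestrict F (fun w => hφ ⟨w, rfl⟩)
  obtain ⟨θ, M, hM, hinj⟩ := h11_adapt (Nat.card X) X rfl (ψ.toMonoidHom.comp φF)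
  refine ⟨θ, M, ?_, ?_⟩
  · intro t ht
    have h1 : ψ (φF (θ (FreeGroup.of t))) = 1 := hM t ht
    have h2 : φF (θ (FreeGroup.of t)) = 1 := by
      rw [← map_one ψ] at h1
      exact ψ.injective h1
    exact congrArg Subtype.val h2
  · have : (FreeGroup.lift (fun t : {t : X // t ∉ M} => φ (θ (FreeGroup.of t.1)))) =
        (F.subtype.comp ψ.symm.toMonoidHom).comp (FreeGroup.lift
          (fun t : {t : X // t ∉ M} => (ψ.toMonoidHom.comp φF) (θ (FreeGroup.of t.1)))) := by
      ext t
      simp only [MonoidHom.comp_apply, FreeGroup.lift_apply_of]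
      have : ψ.symm (ψ (φF (θ (FreeGroup.of t.1)))) = φF (θ (FreeGroup.of t.1)) :=
        ψ.symm_apply_apply _
      exact (congrArg Subtype.val this).symm
    rw [this]
    exact (F.subtype_injective.comp ψ.symm.injective).comp hinj

/-- The complementary part of an adapted basis generates the range. -/
theorem adapted_range {X : Type*} (φ : FreeGroup X →* G) (θ : FreeGroup X ≃* FreeGroup X)
    (M : Set X) (hM : ∀ t ∈ M, φ (θ (FreeGroup.of t)) = 1) :
    (FreeGroup.lift (fun t : {t : X // t ∉ M} => φ (θ (FreeGroup.of t.1)))).range = φ.range := by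
  apply le_antisymm
  · rintro _ ⟨w, rfl⟩
    induction w using FreeGroup.induction_on with
    | C1 => rw [map_one]; exact one_mem _
    | of t => rw [FreeGroup.lift_apply_of]; exact ⟨_, rfl⟩
    | inv_of t h => rw [map_inv]; exact inv_mem h
    | mul a b ha hb => rw [map_mul]; exact mul_mem ha hb
  · have key : ∀ w, φ (θ w) ∈
        (FreeGroup.lift (fun t : {t : X // t ∉ M} => φ (θ (FreeGroup.of t.1)))).range := by
      intro w
      induction w using FreeGroup.induction_on with
      | C1 => rw [map_one, map_one]; exact one_mem _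
      | of t =>
        by_cases ht : t ∈ M
        · rw [hM t ht]; exact one_mem _
        · exact ⟨FreeGroup.of ⟨t, ht⟩, by rw [FreeGroup.lift_apply_of]⟩
      | inv_of t h => rw [map_inv, map_inv]; exact inv_mem h
      | mul a b ha hb => rw [map_mul, map_mul]; exact mul_mem ha hb
    rintro _ ⟨w, rfl⟩
    have := key (θ.symm w)
    rwa [MulEquiv.apply_symm_apply] at this

theorem FreeRk.unique {H : Subgroup G} {m m' : ℕ} (h : FreeRk H m) (h' : FreeRk H m') :
    m = m' := by
  obtain ⟨c, hc, hr⟩ := h
  obtain ⟨c', hc', hr'⟩ := h'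
  let e1 : FreeGroup (Fin m) ≃* (FreeGroup.lift c).range := MonoidHom.ofInjective hc
  let e2 : FreeGroup (Fin m') ≃* (FreeGroup.lift c').range := MonoidHom.ofInjective hc'
  let e3 : (FreeGroup.lift c).range ≃* (FreeGroup.lift c').range :=
    MulEquiv.subgroupCongr (hr.trans hr'.symm)
  have e := Equiv.ofFreeGroupEquiv ((e1.trans e3).trans e2.symm)
  simpa using Fintype.card_congr e

theorem freeRk_of_injective {X : Type*} [Finite X] (c : X → G)
    (hc : Injective (FreeGroup.lift c)) : FreeRk (FreeGroup.lift c).range (Nat.card X) := by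
  let e := (Finite.equivFin X).symm
  refine ⟨fun i => c (e i), ?_, ?_⟩
  · rw [h11_lift_reindex c e]
    exact hc.comp (h11_map_injective e.injective)
  · rw [h11_lift_reindex c e]
    apply le_antisymm
    · rintro _ ⟨w, rfl⟩
      exact ⟨_, rfl⟩
    · rintro _ ⟨w, rfl⟩
      refine ⟨FreeGroup.map e.symm w, ?_⟩
      rw [MonoidHom.comp_apply, FreeGroup.map.comp]
      have : (e ∘ e.symm) = id := e.self_comp_symm
      rw [this, FreeGroup.map.id]

/-- Finitely generated subgroups of a free subgroup have finite rank, at most the number of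
generators, and with equality only for free generators (Hopf). -/
theorem exists_freeRk {X : Type*} [Finite X] (F : Subgroup G) (hF : IsFreeGroup F) (c : X → G)
    (hc : ∀ t, c t ∈ F) :
    ∃ m ≤ Nat.card X, FreeRk (Subgroup.closure (Set.range c)) m ∧
      (m = Nat.card X → Injective (FreeGroup.lift c)) := by
  have hcl : (FreeGroup.lift c).range = Subgroup.closure (Set.range c) :=
    FreeGroup.range_lift_eq_closure
  have hr : (FreeGroup.lift c).range ≤ F := by
    rw [hcl, Subgroup.closure_le]
    rintro _ ⟨t, rfl⟩
    exact hc t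
  obtain ⟨θ, M, hM, hinj⟩ := nielsen_adapted F hF (FreeGroup.lift c) hr
  refine ⟨Nat.card {t : X // t ∉ M}, Nat.card_le_card_of_injective _ Subtype.val_injective,
    ?_, ?_⟩
  · rw [← hcl, ← adapted_range (FreeGroup.lift c) θ M hM]
    exact freeRk_of_injective _ hinj
  · intro hm
    have hbij : Bijective (Subtype.val : {t : X // t ∉ M} → X) :=
      (Nat.bijective_iff_injective_and_card _).2 ⟨Subtype.val_injective, hm⟩
    rw [injective_iff_map_eq_one]
    intro w hw
    let e := Equiv.ofBijective _ hbij
    have h1 : θ (FreeGroup.map Subtype.val (FreeGroup.map e.symm (θ.symm w))) = w := by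
      rw [FreeGroup.map.comp]
      have : (Subtype.val ∘ e.symm) = id := e.self_comp_symm
      rw [this, FreeGroup.map.id, MulEquiv.apply_symm_apply]
    have h2 : ∀ v, FreeGroup.lift (fun t : {t : X // t ∉ M} =>
        FreeGroup.lift c (θ (FreeGroup.of t.1))) v =
        FreeGroup.lift c (θ (FreeGroup.map Subtype.val v)) := by
      intro v
      have : (FreeGroup.lift (fun t : {t : X // t ∉ M} =>
        FreeGroup.lift c (θ (FreeGroup.of t.1)))) =
        ((FreeGroup.lift c).comp θ.toMonoidHom).comp (FreeGroup.map Subtype.val) := by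
        ext t
        simp
      exact DFunLike.congr_fun this v
    have h3 : FreeGroup.map e.symm (θ.symm w) = 1 := by
      apply hinj
      rw [h2, h1, hw, map_one]
    rw [h3, map_one, map_one] at h1
    exact h1.symm

theorem FreeRk.conj {H : Subgroup G} {m : ℕ} (g : G) (h : FreeRk H m) :
    FreeRk (H.map (MulAut.conj g).toMonoidHom) m := by
  obtain ⟨c, hc, hr⟩ := h
  have key : FreeGroup.lift (fun i => MulAut.conj g (c i)) =
      (MulAut.conj g).toMonoidHom.comp (FreeGroup.lift c) := by
    ext i
    simp
  refine ⟨fun i => MulAut.conj g (c i), ?_, ?_⟩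
  · rw [key]
    exact (MulAut.conj g).injective.comp hc
  · rw [key, ← hr, MonoidHom.range_comp]

end Rank

end Pool.Agent.SurfExact
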