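import Pool.Agent.SurfExact.BasicB
import Pool.Agent.SurfExact.Rank
import Pool.Agent.SurfExact.FreeFacts
import Pool.Agent.SurfExact.LemmaA

/-!
# MP_5bf54f_al, package B5: root closed subgroups
-/

set_option autoImplicit false

namespace Pool.Agent.SurfExact

open Function

section RootAux

variable {G : Type*} [Group G]

/-- Augmentation. -/
noncomputable def rtAug : QG G →ₐ[ℚ] ℚ := MonoidAlgebra.lift ℚ ℚ G 1

theorem rtAug_el (g : G) : rtAug (el g) = 1 := by simp [rtAug, el]

theorem rt_cancel (c : G) (hc : ∀ n : ℤ, n ≠ 0 → c ^ n ≠ 1) (y : QG G)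
    (h : y * (el c - 1) = 0) : y = 0 := by
  have h1 : y * el c = y := by
    rw [mul_sub, mul_one, sub_eq_zero] at h; exact h
  have h2 : ∀ g, y.coeff (g * c⁻¹) = y.coeff g := by
    intro g
    rw [← mulel_coeff, h1]
  have h3 : ∀ (n : ℕ) (g : G), y.coeff (g * (c ^ n)⁻¹) = y.coeff g := by
    intro n
    induction n with
    | zero => intro g; simp
    | succ n ih =>
      intro g
      rw [pow_succ', mul_inv_rev, ← mul_assoc, h2, ih]
  by_contra hy
  have hne : ∃ g, y.coeff g ≠ 0 := by
    by_contra h4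
    push Not at h4
    apply hy
    apply MonoidAlgebra.coeff_injective
    ext g
    simpa using h4 g
  obtain ⟨g, hg⟩ := hne
  have hinj : Injective (fun n : ℕ => g * (c ^ n)⁻¹) := by
    intro a b hab
    have h5 : (c ^ a)⁻¹ = (c ^ b)⁻¹ := mul_left_cancel hab
    have h6 : c ^ a = c ^ b := inv_injective h5
    by_contra hne
    apply hc ((a : ℤ) - b) (sub_ne_zero.2 (by exact_mod_cast hne))
    rw [zpow_sub, zpow_natCast, zpow_natCast, h6, mul_inv_cancel]
  have := Set.infinite_of_injective_forall_mem (s := (y.coeff.support : Set G)) hinj (by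
    intro n
    rw [Finset.mem_coe, Finsupp.mem_support_iff]
    show y.coeff (g * (c ^ n)⁻¹) ≠ 0
    rw [h3]; exact hg)
  exact this (Finset.finite_toSet _)

/-- The multiples of `el c - 1` by elements with integral augmentation. -/
def RtI (c : G) (y : QG G) : Prop :=
  ∃ g : QG G, (∃ k : ℤ, rtAug g = k) ∧ y = g * (el c - 1)

theorem RtI.add {c : G} {y z : QG G} (hy : RtI c y) (hz : RtI c z) : RtI c (y + z) := by
  obtain ⟨g, ⟨k, hk⟩, rfl⟩ := hy
  obtain ⟨g', ⟨k', hk'⟩, rfl⟩ := hz
  exact ⟨g + g', ⟨k + k', by rw [map_add, hk, hk']; push_cast; ring⟩, by rw [add_mul]⟩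

theorem RtI.zero {c : G} : RtI c (0 : QG G) := ⟨0, ⟨0, by simp⟩, by simp⟩

theorem RtI.smul {c : G} {y : QG G} (k : ℤ) (hy : RtI c y) : RtI c ((k : ℚ) • y) := by
  obtain ⟨g, ⟨l, hl⟩, rfl⟩ := hy
  exact ⟨(k : ℚ) • g, ⟨k * l, by rw [map_smul, hl, smul_eq_mul]; push_cast; ring⟩, by
    rw [smul_mul_assoc]⟩

theorem RtI.elmul {c : G} {y : QG G} (a : G) (hy : RtI c y) : RtI c (el a * y) := by
  obtain ⟨g, ⟨l, hl⟩, rfl⟩ := hy
  exact ⟨el a * g, ⟨l, by rw [map_mul, rtAug_el, hl, one_mul]⟩, by rw [mul_assoc]⟩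

theorem RtI.sum {c : G} {κ : Type*} (s : Finset κ) (f : κ → QG G) (h : ∀ i ∈ s, RtI c (f i)) :
    RtI c (∑ i ∈ s, f i) := Finset.sum_induction _ (RtI c) (fun _ _ => RtI.add) RtI.zero h

theorem RtI.self (c : G) : RtI c (el c - 1) := ⟨1, ⟨1, by simp⟩, by rw [one_mul]⟩

theorem RtI.zpow (c : G) (q : ℤ) : RtI c (el (c ^ q) - 1) := by
  induction q using Int.induction_on with
  | zero => simpa using RtI.zero (c := c)
  | succ i ih =>
    have h1 : el (c ^ ((i : ℤ) + 1)) - 1 = el (c ^ (i : ℤ)) * (el c - 1) + (el (c ^ (i : ℤ)) - 1) := by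
      rw [zpow_add_one, el_mul, mul_sub, mul_one]
      abel
    rw [h1]
    exact ((RtI.self c).elmul _).add ih
  | pred i ih =>
    have h1 : el (c ^ (-(i : ℤ) - 1)) - 1
        = ((-1 : ℤ) : ℚ) • (el (c ^ (-(i : ℤ) - 1)) * (el c - 1)) + (el (c ^ (-(i : ℤ))) - 1) := by
      rw [mul_sub, mul_one, ← el_mul, ← zpow_add_one]
      rw [sub_add_cancel]
      push_cast
      rw [neg_smul, one_smul]
      abel
    rw [h1]
    exact (((RtI.self c).elmul _).smul (-1)).add ih

/-- Division: an element with integral coefficients supported in `zpowers h` with vanishing sums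
over the cosets of `A`, where `A ∩ zpowers h` is generated by `h ^ β`. -/
theorem rt_divide (A : Subgroup G) (h : G) (β : ℕ)
    (hA : ∀ j : ℤ, h ^ j ∈ A ↔ (β : ℤ) ∣ j) (y : QG G) (hint : ∀ g, ∃ k : ℤ, y.coeff g = k)
    (hsupp : ∀ g, y.coeff g ≠ 0 → g ∈ Subgroup.zpowers h) (hZ : ZS A y) :
    RtI (h ^ β) y := by
  classical
  let τ : G ⧸ A → QG G := fun q =>
    if hq : ∃ j : ℤ, ((h ^ j : G) : G ⧸ A) = q then el (h ^ (Classical.choose hq % (β : ℤ))) else 0
  have hτ : ∀ j : ℤ, τ ((h ^ j : G) : G ⧸ A) = el (h ^ (j % (β : ℤ))) := by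
    intro j
    have hq : ∃ i : ℤ, ((h ^ i : G) : G ⧸ A) = ((h ^ j : G) : G ⧸ A) := ⟨j, rfl⟩
    have h1 : τ ((h ^ j : G) : G ⧸ A) = el (h ^ (Classical.choose hq % (β : ℤ))) := dif_pos hq
    rw [h1]
    have h2 := Classical.choose_spec hq
    rw [QuotientGroup.eq, ← zpow_neg, ← zpow_add, hA] at h2
    have h3 : Classical.choose hq % (β : ℤ) = j % (β : ℤ) := by
      refine Int.ModEq.symm (Int.modEq_iff_dvd.2 ?_)
      rw [← Int.dvd_neg]
      have e : -(Classical.choose hq - j) = -Classical.choose hq + j := by ring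
      rwa [e]
    rw [h3]
  have hpair : pairL (fun g : G => τ (g : G ⧸ A)) y = 0 := by
    apply hZ.pair
    intro g a ha
    have : ((g * a : G) : G ⧸ A) = (g : G ⧸ A) := by
      rw [QuotientGroup.eq]
      simpa using A.inv_mem ha
    rw [this]
  rw [pairL_apply] at hpair
  have h1 : y = y.coeff.sum (fun g c => c • (el g - τ (g : G ⧸ A))) := by
    have h2 : y.coeff.sum (fun g c => c • (el g - τ (g : G ⧸ A)))
        = y.coeff.sum (fun g c => c • el g) - y.coeff.sum (fun g c => c • τ (g : G ⧸ A)) := by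
      rw [Finsupp.sum, Finsupp.sum, Finsupp.sum, ← Finset.sum_sub_distrib]
      refine Finset.sum_congr rfl fun g _ => ?_
      rw [smul_sub]
    rw [h2, hpair, sub_zero]
    exact QG_eq_sum y
  rw [h1, Finsupp.sum]
  refine RtI.sum _ _ fun g hg => ?_
  obtain ⟨k, hk⟩ := hint g
  rw [hk]
  refine RtI.smul k ?_
  obtain ⟨j, rfl⟩ := Subgroup.mem_zpowers_iff.1 (hsupp g (Finsupp.mem_support_iff.1 hg))
  rw [hτ]
  have h3 : el (h ^ j) - el (h ^ (j % (β : ℤ))) = el (h ^ (j % (β : ℤ))) *
      (el ((h ^ β) ^ (j / (β : ℤ))) - 1) := by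
    rw [mul_sub, mul_one, ← el_mul, ← zpow_natCast, ← zpow_mul, ← zpow_add]
    congr 3
    exact (Int.emod_add_mul_ediv j β).symm
  rw [h3]
  exact (RtI.zpow _ _).elmul _

/-- Subgroups of free subgroups are free. -/
theorem rt_free_le {F K : Subgroup G} (hF : IsFreeGroup F) (h : K ≤ F) : IsFreeGroup K := by
  have h1 : IsFreeGroup (K.subgroupOf F) := subgroupIsFreeOfIsFree _
  exact IsFreeGroup.ofMulEquiv (Subgroup.subgroupOfEquivOfLe h)

/-- If any two differences commute then the support lies in one coset of a cyclic group. -/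
theorem rt_coset {F : Subgroup G} {h : G} (hc : ∀ i : ℤ, i ≠ 0 → ∀ y ∈ F,
    y * h ^ i = h ^ i * y → y ∈ Subgroup.zpowers h) (δ : QG G) (hne : δ ≠ 0)
    (hF : ∀ g, δ.coeff g ≠ 0 → g ∈ F) (hZ : ZS (Subgroup.zpowers h) δ) (hN : ¬ NonCyc δ) :
    ∃ a : G, ∀ g, δ.coeff g ≠ 0 → a⁻¹ * g ∈ Subgroup.zpowers h := by
  classical
  have hex : ∃ a, δ.coeff a ≠ 0 := by
    by_contra h4
    push Not at h4
    apply hne
    apply MonoidAlgebra.coeff_injective
    ext g
    simpa using h4 g
  obtain ⟨a, ha⟩ := hex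
  have hb : ∃ b, δ.coeff b ≠ 0 ∧ b ≠ a ∧ a⁻¹ * b ∈ Subgroup.zpowers h := by
    by_contra h4
    push Not at h4
    have h5 := hZ.pair (fun g : G => if (g : G ⧸ Subgroup.zpowers h) = (a : G ⧸ Subgroup.zpowers h)
      then (1 : ℚ) else 0) (by
        intro g x hx
        have : ((g * x : G) : G ⧸ Subgroup.zpowers h) = (g : G ⧸ Subgroup.zpowers h) := by
          rw [QuotientGroup.eq]
          simpa using (Subgroup.zpowers h).inv_mem hx
        rw [this])
    rw [pairL_apply, Finsupp.sum, Finset.sum_eq_single a] at h5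
    · simp at h5
      exact ha h5
    · intro b hb hba
      rw [if_neg, smul_zero]
      intro hq
      apply h4 b (Finsupp.mem_support_iff.1 hb) hba
      exact QuotientGroup.eq.1 hq.symm
    · intro hna
      rw [Finsupp.notMem_support_iff.1 hna, zero_smul]
  obtain ⟨b, hb, hba, hbz⟩ := hb
  obtain ⟨i, hi⟩ := Subgroup.mem_zpowers_iff.1 hbz
  have hi0 : i ≠ 0 := by
    rintro rfl
    rw [zpow_zero] at hi
    exact hba (by rw [eq_comm, inv_mul_eq_one] at hi; exact hi.symm)
  refine ⟨a, fun g hg => ?_⟩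
  apply hc i hi0 _ (F.mul_mem (F.inv_mem (hF a ha)) (hF g hg))
  rw [hi]
  by_contra hne
  exact hN ⟨a, g, b, ha, hg, hb, hne⟩

/-- Values of a crossed homomorphism have integral coefficients and support in the range. -/
theorem rt_integral {X : Type*} (φ : FreeGroup X →* G) (d : FreeGroup X → QG G)
    (hd : Crossed φ d) (F : Subgroup G) (hF : φ.range ≤ F)
    (h1 : ∀ t g, ∃ k : ℤ, (d (FreeGroup.of t)).coeff g = k)
    (h2 : ∀ t g, (d (FreeGroup.of t)).coeff g ≠ 0 → g ∈ F) (w : FreeGroup X) :
    (∀ g, ∃ k : ℤ, (d w).coeff g = k) ∧ ∀ g, (d w).coeff g ≠ 0 → g ∈ F := by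
  have hφ : ∀ w, φ w ∈ F := fun w => hF ⟨w, rfl⟩
  induction w using FreeGroup.induction_on with
  | C1 =>
    rw [hd.one]
    exact ⟨fun g => ⟨0, by simp⟩, fun g hg => absurd (by simp) hg⟩
  | of t => exact ⟨h1 t, h2 t⟩
  | inv_of t ht =>
    rw [hd.inv]
    constructor
    · intro g
      obtain ⟨k, hk⟩ := h1 t ((φ (FreeGroup.of t))⁻¹⁻¹ * g)
      refine ⟨-k, ?_⟩
      rw [MonoidAlgebra.coeff_neg, Finsupp.neg_apply, smul_eq_mul, elmul_coeff, hk]
      push_cast; ring
    · intro g hg
      rw [MonoidAlgebra.coeff_neg, Finsupp.neg_apply, smul_eq_mul, elmul_coeff] at hg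
      have := h2 t _ (neg_ne_zero.1 hg)
      have h3 := F.mul_mem (F.inv_mem (hφ (FreeGroup.of t))) this
      simpa using h3
  | mul a b ha hb =>
    rw [hd a b]
    constructor
    · intro g
      obtain ⟨k, hk⟩ := ha.1 g
      obtain ⟨l, hl⟩ := hb.1 ((φ a)⁻¹ * g)
      refine ⟨k + l, ?_⟩
      rw [MonoidAlgebra.coeff_add, Finsupp.add_apply, smul_eq_mul, elmul_coeff, hk, hl]
      push_cast; ring
    · intro g hg
      by_contra hgF
      apply hg
      rw [MonoidAlgebra.coeff_add, Finsupp.add_apply, smul_eq_mul, elmul_coeff]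
      have e1 : (d a).coeff g = 0 := by
        by_contra h; exact hgF (ha.2 g h)
      have e2 : (d b).coeff ((φ a)⁻¹ * g) = 0 := by
        by_contra h
        have := F.mul_mem (hφ a) (hb.2 _ h)
        rw [mul_inv_cancel_left] at this
        exact hgF this
      rw [e1, e2, add_zero]

/-- Homomorphisms are crossed (with values `el - 1`). -/
theorem rt_crossed_el {X : Type*} (φ : FreeGroup X →* G) :
    Crossed φ (fun w => (el (φ w) - 1 : QG G)) := by
  intro a b
  show (el (φ (a * b)) - 1 : QG G) = (el (φ a) - 1) + el (φ a) • (el (φ b) - 1)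
  rw [map_mul, el_mul, smul_eq_mul, mul_sub, mul_one]
  abel

/-- The submodule of elements with vanishing coset sums. -/
def rtZ (A : Subgroup G) : Submodule (QG G) (QG G) where
  carrier := {y | ZS A y}
  zero_mem' := ZS_zero
  add_mem' := fun ha hb => ZS.add ha hb
  smul_mem' := fun c _ hy => ZS.mul c hy

end RootAux

section RootCore

variable {G : Type*} [Group G] {T : Type*} [Fintype T] [DecidableEq T]

/-- Dimension count. -/
theorem rt_count (b : T → G) (χ : G →* Multiplicative (T → ℤ))
    (hχ : ∀ t, χ (b t) = Multiplicative.ofAdd (Pi.single t 1))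
    {Y : Type*} [Finite Y] (c : Y → G) (hb : ∀ t, b t ∈ (FreeGroup.lift c).range) :
    Fintype.card T ≤ Nat.card Y := by
  have := Fintype.ofFinite Y
  let u : Y → (T → ℚ) := fun y t => ((Multiplicative.toAdd (χ (c y)) t : ℤ) : ℚ)
  have key : ∀ w : FreeGroup Y,
      (fun t => ((Multiplicative.toAdd (χ (FreeGroup.lift c w)) t : ℤ) : ℚ))
        ∈ Submodule.span ℚ (Set.range u) := by
    intro w
    induction w using FreeGroup.induction_on with
    | C1 =>
      have : (fun t => ((Multiplicative.toAdd (χ (FreeGroup.lift c 1)) t : ℤ) : ℚ)) = 0 := by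
        funext t; simp
      rw [this]; exact Submodule.zero_mem _
    | of y =>
      have : (fun t => ((Multiplicative.toAdd (χ (FreeGroup.lift c (FreeGroup.of y))) t : ℤ) : ℚ))
          = u y := by
        funext t; simp [u]
      rw [this]; exact Submodule.subset_span ⟨y, rfl⟩
    | inv_of y hy =>
      have : (fun t => ((Multiplicative.toAdd (χ (FreeGroup.lift c (FreeGroup.of y)⁻¹)) t : ℤ) : ℚ))
          = -(fun t => ((Multiplicative.toAdd (χ (FreeGroup.lift c (FreeGroup.of y))) t : ℤ) : ℚ)) := by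
        funext t; simp
      rw [this]; exact Submodule.neg_mem _ hy
    | mul a a' ha ha' =>
      have : (fun t => ((Multiplicative.toAdd (χ (FreeGroup.lift c (a * a'))) t : ℤ) : ℚ))
          = (fun t => ((Multiplicative.toAdd (χ (FreeGroup.lift c a)) t : ℤ) : ℚ))
            + (fun t => ((Multiplicative.toAdd (χ (FreeGroup.lift c a')) t : ℤ) : ℚ)) := by
        funext t; simp
      rw [this]; exact Submodule.add_mem _ ha ha'
  have top : Submodule.span ℚ (Set.range u) = ⊤ := by
    rw [eq_top_iff, ← (Pi.basisFun ℚ T).span_eq, Submodule.span_le]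
    rintro _ ⟨t, rfl⟩
    obtain ⟨w, hw⟩ := hb t
    have h1 := key w
    rw [hw, hχ] at h1
    have e : Pi.basisFun ℚ T t = fun s => ((Multiplicative.toAdd (Multiplicative.ofAdd
        (Pi.single t (1 : ℤ) : T → ℤ)) s : ℤ) : ℚ) := by
      funext s
      rw [Pi.basisFun_apply, toAdd_ofAdd]
      by_cases hst : s = t
      · subst hst; simp
      · simp [hst]
    rw [SetLike.mem_coe, e]
    exact h1
  have h2 := finrank_range_le_card (R := ℚ) u
  rw [Set.finrank, top, finrank_top, Module.finrank_fintype_fun_eq_card] at h2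
  rwa [Nat.card_eq_fintype_card]

theorem rt_core (F : Subgroup G) (hF : IsFreeGroup F) (b : T → G) (hb : ∀ t, b t ∈ F)
    (χ : G →* Multiplicative (T → ℤ)) (hχ : ∀ t, χ (b t) = Multiplicative.ofAdd (Pi.single t 1))
    (h : G) (hh : h ∈ F)
    (hc : ∀ i : ℤ, i ≠ 0 → ∀ y ∈ F, y * h ^ i = h ^ i * y → y ∈ Subgroup.zpowers h)
    (hinf : ∀ i : ℤ, i ≠ 0 → h ^ i ≠ 1)
    (β : ℕ) (hβ : 0 < β)
    (hA : ∀ j : ℤ, h ^ j ∈ Subgroup.closure (Set.range b) ↔ (β : ℤ) ∣ j) : β = 1 := by
  classical
  set P := Subgroup.closure (Set.range b) with hP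
  let φ : FreeGroup (Option T) →* G := FreeGroup.lift (fun o : Option T => o.elim h b)
  have hφF : φ.range ≤ F := by
    apply FreeGroup.range_lift_le
    rintro _ ⟨o, rfl⟩
    cases o with
    | none => exact hh
    | some t => exact hb t
  obtain ⟨θ, M, hM, hinj⟩ := nielsen_adapted F hF φ hφF
  have hrange := adapted_range φ θ M hM
  let c : {t : Option T // t ∉ M} → G := fun t => φ (θ (FreeGroup.of t.1))
  have hφs : ∀ w : FreeGroup T, φ (FreeGroup.map some w) = FreeGroup.lift b w := by
    intro w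
    have : φ.comp (FreeGroup.map some) = FreeGroup.lift b := by
      apply FreeGroup.ext_hom
      intro t
      simp [φ]
    exact DFunLike.congr_fun this w
  have hφn : φ (FreeGroup.of none) = h := by simp [φ]
  have hφo : ∀ t, φ (FreeGroup.of (some t)) = b t := fun t => by simp [φ]
  -- the retraction
  let κ' : FreeGroup (Option T) →* FreeGroup {t : Option T // t ∉ M} :=
    FreeGroup.lift (fun t => if ht : t ∉ M then FreeGroup.of ⟨t, ht⟩ else 1)
  have hκ' : ∀ w, FreeGroup.lift c (κ' w) = φ (θ w) := by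
    intro w
    have : (FreeGroup.lift c).comp κ' = φ.comp θ.toMonoidHom := by
      apply FreeGroup.ext_hom
      intro t
      by_cases ht : t ∉ M
      · simp [κ', ht, c]
      · simp only [MonoidHom.comp_apply, κ', FreeGroup.lift_apply_of, dif_neg ht, map_one]
        exact (hM t (not_not.1 ht)).symm
    exact DFunLike.congr_fun this w
  have hker : ∀ w, φ (θ w) = 1 → κ' w = 1 := by
    intro w hw
    apply hinj
    rw [map_one]
    exact (hκ' w).trans hw
  -- the relation
  have hβP : h ^ β ∈ P := by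
    have := (hA (β : ℤ)).2 dvd_rfl
    rwa [zpow_natCast] at this
  obtain ⟨p0, hp0⟩ : ∃ p0 : FreeGroup T, FreeGroup.lift b p0 = h ^ β := by
    have h1 : h ^ β ∈ (FreeGroup.lift b).range := by
      rw [FreeGroup.range_lift_eq_closure]; exact hβP
    exact h1
  set v0 : FreeGroup (Option T) := FreeGroup.of none ^ β * (FreeGroup.map some p0)⁻¹ with hv0
  have hφv0 : φ v0 = 1 := by
    rw [hv0, map_mul, map_inv, hφs, hp0, map_pow, hφn, mul_inv_cancel]
  set v := θ.symm v0 with hv
  have hθv : θ v = v0 := by rw [hv, MulEquiv.apply_symm_apply]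
  -- `M` is a singleton
  have hMne : M.Nonempty := by
    by_contra hMe
    rw [Set.not_nonempty_iff_eq_empty] at hMe
    have h1 : κ' v = 1 := hker v (by rw [hθv, hφv0])
    have h2 : (FreeGroup.map Subtype.val).comp κ' = MonoidHom.id _ := by
      apply FreeGroup.ext_hom
      intro t
      have ht : t ∉ M := by rw [hMe]; exact Set.notMem_empty t
      simp [κ', ht]
    have h3 : v = 1 := by
      have := DFunLike.congr_fun h2 v
      rw [MonoidHom.comp_apply, h1, map_one] at this
      exact this.symm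
    have h4 : v0 = 1 := by rw [← hθv, h3, map_one]
    let ψ : FreeGroup (Option T) →* Multiplicative ℤ :=
      FreeGroup.lift (fun o : Option T => o.elim (Multiplicative.ofAdd 1) (fun _ => 1))
    have h5 : ∀ w : FreeGroup T, ψ (FreeGroup.map some w) = 1 := by
      intro w
      have : ψ.comp (FreeGroup.map some) = 1 := by
        apply FreeGroup.ext_hom
        intro t
        simp [ψ]
      exact DFunLike.congr_fun this w
    have h6 : ψ v0 = Multiplicative.ofAdd (β : ℤ) := by
      rw [hv0, map_mul, map_inv, h5, map_pow]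
      simp only [ψ, FreeGroup.lift_apply_of, Option.elim_none, inv_one, mul_one]
      rw [← ofAdd_nsmul]; simp
    rw [h4, map_one] at h6
    have h7 : (0 : ℤ) = β := congrArg Multiplicative.toAdd h6
    omega
  obtain ⟨x0, hx0⟩ := hMne
  have hMx : ∀ t, t ∈ M → t = x0 := by
    have h1 : Fintype.card T ≤ Nat.card {t : Option T // t ∉ M} := by
      apply rt_count b χ hχ c
      intro t
      have : b t ∈ φ.range := ⟨FreeGroup.of (some t), hφo t⟩
      rw [← hrange] at this
      exact this
    have h2 := Set.ncard_add_ncard_compl M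
    rw [Nat.card_eq_fintype_card, Fintype.card_option] at h2
    have h3 : Mᶜ.ncard = Nat.card {t : Option T // t ∉ M} := rfl
    have h4 : M.ncard ≤ 1 := by omega
    intro t ht
    exact (Set.ncard_le_one (Set.toFinite M)).1 h4 t ht x0 hx0
  -- the crossed homomorphism
  let d : FreeGroup (Option T) → QG G :=
    cross φ (fun o : Option T => o.elim (el h - 1) (fun _ => 0))
  have hd : Crossed φ d := cross_crossed _ _
  have hdn : d (FreeGroup.of none) = el h - 1 := cross_of _ _ _
  have hds : ∀ t, d (FreeGroup.of (some t)) = 0 := fun t => cross_of _ _ _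
  have hdmap : ∀ w : FreeGroup T, d (FreeGroup.map some w) = 0 := by
    intro w
    have h1 : Crossed (φ.comp (FreeGroup.map some)) (fun w : FreeGroup T => d (FreeGroup.map some w)) := by
      intro a a'
      show d (FreeGroup.map some (a * a')) = _
      rw [map_mul, hd]; rfl
    have := h1.mem ⊥ (fun t => by
      show d (FreeGroup.map some (FreeGroup.of t)) ∈ _
      rw [FreeGroup.map.of, hds]; exact Submodule.zero_mem _) w
    exact this
  have hdpow : ∀ k : ℕ, d (FreeGroup.of none ^ k) = el (h ^ k) - 1 := by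
    intro k
    induction k with
    | zero => rw [pow_zero, hd.one, pow_zero, el_one, sub_self]
    | succ k ih =>
      rw [pow_succ, hd, ih, hdn, map_pow, hφn, smul_eq_mul, mul_sub, ← el_mul, ← pow_succ]
      noncomm_ring
  have hdv0 : d v0 = el (h ^ β) - 1 := by
    rw [hv0, hd, hdpow, hd.inv, hdmap, smul_zero, neg_zero, smul_zero, add_zero]
  set δ : QG G := d (θ (FreeGroup.of x0)) with hδ
  have hφx0 : φ (θ (FreeGroup.of x0)) = 1 := hM x0 hx0
  -- integrality and support
  obtain ⟨hδint, hδF⟩ := rt_integral φ d hd F hφF (by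
    intro o g
    cases o with
    | none =>
      rw [hdn, ← el_one, MonoidAlgebra.coeff_sub, Finsupp.sub_apply, el_coeff, el_coeff,
        Finsupp.single_apply, Finsupp.single_apply]
      refine ⟨(if h = g then 1 else 0) - (if 1 = g then 1 else 0), ?_⟩
      push_cast
      rfl
    | some t => rw [hds]; exact ⟨0, by simp⟩) (by
    intro o g hg
    cases o with
    | none =>
      rw [hdn, ← el_one, MonoidAlgebra.coeff_sub, Finsupp.sub_apply, el_coeff, el_coeff,
        Finsupp.single_apply, Finsupp.single_apply] at hg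
      by_cases h1 : h = g
      · rw [← h1]; exact hh
      · by_cases h2 : 1 = g
        · rw [← h2]; exact F.one_mem
        · rw [if_neg h1, if_neg h2] at hg
          exact absurd (sub_zero _) hg
    | some t => rw [hds] at hg; exact absurd (by simp) hg) (θ (FreeGroup.of x0))
  rw [← hδ] at hδint hδF
  -- coset sums
  have hZh : ZS (Subgroup.zpowers h) δ := by
    have := hd.mem (rtZ (Subgroup.zpowers h)) (by
      intro o
      cases o with
      | none => rw [hdn]; exact ZS_of_sub_one (Subgroup.mem_zpowers h)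
      | some t => rw [hds]; exact ZS_zero) (θ (FreeGroup.of x0))
    exact this
  have hZP : ZS P δ := by
    have h1 : Crossed φ (fun w => (el (φ w) - 1 : QG G) - d w) := (rt_crossed_el φ).sub hd
    have h2 := h1.mem (rtZ P) (by
      intro o
      cases o with
      | none =>
        show (el (φ (FreeGroup.of none)) - 1 : QG G) - d (FreeGroup.of none) ∈ rtZ P
        rw [hdn, hφn, sub_self]; exact Submodule.zero_mem _
      | some t =>
        show (el (φ (FreeGroup.of (some t))) - 1 : QG G) - d (FreeGroup.of (some t)) ∈ rtZ P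
        rw [hds, hφo, sub_zero]
        exact ZS_of_sub_one (Subgroup.subset_closure ⟨t, rfl⟩)) (θ (FreeGroup.of x0))
    have h3 : (el (φ (θ (FreeGroup.of x0))) - 1 : QG G) - d (θ (FreeGroup.of x0)) = -δ := by
      rw [hφx0, el_one, sub_self, zero_sub]
    have h4 : (el (φ (θ (FreeGroup.of x0))) - 1 : QG G) - d (θ (FreeGroup.of x0)) ∈ rtZ P := h2
    rw [h3] at h4
    have h5 : ZS P (-δ) := h4
    have := h5.neg
    rwa [neg_neg] at this
  -- the factorisation
  let φ' : FreeGroup (Option T) →* G := φ.comp θ.toMonoidHom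
  let D0 : FreeGroup (Option T) → QG G := cross φ' (fun t => if t = x0 then 1 else 0)
  have hD0 : Crossed φ' D0 := cross_crossed _ _
  have hfac : ∀ w, φ (θ w) = 1 → d (θ w) = D0 w * δ := by
    have h1 : Crossed φ' (fun w => d (θ w) - D0 w * δ) := by
      intro a a'
      show d (θ (a * a')) - D0 (a * a') * δ = (d (θ a) - D0 a * δ) + el (φ' a) • (d (θ a') - D0 a' * δ)
      rw [map_mul, hd, hD0]
      show d (θ a) + el (φ (θ a)) • d (θ a') - (D0 a + el (φ (θ a)) • D0 a') * δ = _ + el (φ (θ a)) • _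
      simp only [smul_eq_mul, add_mul, mul_sub, mul_assoc]
      abel
    let κ : FreeGroup (Option T) →* FreeGroup (Option T) := (FreeGroup.map Subtype.val).comp κ'
    have hφκ : ∀ w, φ' (κ w) = φ' w := by
      intro w
      have : φ'.comp κ = φ' := by
        apply FreeGroup.ext_hom
        intro t
        by_cases ht : t ∉ M
        · simp [κ, κ', ht]
        · simp only [MonoidHom.comp_apply, κ, κ', FreeGroup.lift_apply_of, dif_neg ht, map_one]
          exact (hM t (not_not.1 ht)).symm
      exact DFunLike.congr_fun this w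
    have h2 : Crossed φ' (fun w => d (θ (κ w)) - D0 (κ w) * δ) := by
      intro a a'
      show d (θ (κ (a * a'))) - D0 (κ (a * a')) * δ = _
      rw [map_mul κ]
      have := h1 (κ a) (κ a')
      rw [hφκ] at this
      exact this
    have h3 := h1.ext h2 (by
      intro t
      show d (θ (FreeGroup.of t)) - D0 (FreeGroup.of t) * δ
        = d (θ (κ (FreeGroup.of t))) - D0 (κ (FreeGroup.of t)) * δ
      by_cases ht : t ∉ M
      · have : κ (FreeGroup.of t) = FreeGroup.of t := by simp [κ, κ', ht]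
        rw [this]
      · have e1 : κ (FreeGroup.of t) = 1 := by
          simp only [MonoidHom.comp_apply, κ, κ', FreeGroup.lift_apply_of, dif_neg ht, map_one]
        have e2 : t = x0 := hMx t (not_not.1 ht)
        have e3 : D0 (FreeGroup.of t) = 1 := by
          show cross φ' _ (FreeGroup.of t) = 1
          rw [cross_of, if_pos e2]
        rw [e1, map_one, hd.one, hD0.one, e3, e2, ← hδ, zero_mul, one_mul, sub_self, sub_self])
    intro w hw
    have h4 := congrFun h3 w
    have h5 : κ w = 1 := by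
      show FreeGroup.map Subtype.val (κ' w) = 1
      rw [hker w hw, map_one]
    have h6 : d (θ w) - D0 w * δ = d (θ (κ w)) - D0 (κ w) * δ := h4
    rw [h5, map_one, hd.one, hD0.one, zero_mul, sub_self] at h6
    exact sub_eq_zero.1 h6
  have hev : el (h ^ β) - 1 = D0 v * δ := by
    rw [← hdv0, ← hθv]
    exact hfac v (by rw [hθv, hφv0])
  -- the augmentation of `e`
  have hdvd : ∃ k : ℤ, rtAug (D0 v) = k ∧ (β : ℤ) ∣ k := by
    let η1 : FreeGroup (Option T) →* Multiplicative ℤ :=
      FreeGroup.lift (fun t => if t = x0 then Multiplicative.ofAdd 1 else 1)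
    have h1 : ∀ w, rtAug (D0 w) = ((Multiplicative.toAdd (η1 w) : ℤ) : ℚ) := by
      intro w
      induction w using FreeGroup.induction_on with
      | C1 => rw [hD0.one, map_zero, map_one]; simp
      | of t =>
        show rtAug (cross φ' _ (FreeGroup.of t)) = _
        rw [cross_of]
        by_cases ht : t = x0
        · simp [η1, ht]
        · simp [η1, ht]
      | inv_of t ih =>
        rw [hD0.inv, map_neg, smul_eq_mul, map_mul, rtAug_el, one_mul, ih, map_inv, toAdd_inv]
        push_cast; rfl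
      | mul a a' ha ha' =>
        rw [hD0, map_add, smul_eq_mul, map_mul, rtAug_el, one_mul, ha, ha', map_mul, toAdd_mul]
        push_cast; rfl
    refine ⟨_, h1 v, ?_⟩
    let η0 : FreeGroup (Option T) →* Multiplicative ℤ := η1.comp θ.symm.toMonoidHom
    have h2 : η1 v = η0 v0 := rfl
    let L : (T → ℤ) → ℤ := fun z => ∑ t, z t * Multiplicative.toAdd (η0 (FreeGroup.of (some t)))
    have hL : ∀ w : FreeGroup T, Multiplicative.toAdd (η0 (FreeGroup.map some w))
        = L (Multiplicative.toAdd (χ (FreeGroup.lift b w))) := by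
      intro w
      induction w using FreeGroup.induction_on with
      | C1 => simp [L]
      | of t =>
        rw [FreeGroup.map.of, FreeGroup.lift_apply_of, hχ, toAdd_ofAdd]
        simp only [L]
        rw [Finset.sum_eq_single t]
        · simp
        · intro s _ hs; simp [hs]
        · simp
      | inv_of t ih =>
        rw [map_inv, map_inv, toAdd_inv, ih, map_inv, map_inv, toAdd_inv]
        simp [L]
      | mul a a' ha ha' =>
        rw [map_mul, map_mul, toAdd_mul, ha, ha', map_mul, map_mul, toAdd_mul]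
        simp only [L, Pi.add_apply, add_mul]
        rw [Finset.sum_add_distrib]
    rw [h2, hv0, map_mul, map_inv, toAdd_mul, toAdd_inv, hL, hp0, map_pow η0, map_pow χ, toAdd_pow,
      toAdd_pow]
    have h3 : L (β • Multiplicative.toAdd (χ h)) = β * L (Multiplicative.toAdd (χ h)) := by
      simp only [L, Pi.smul_apply, Finset.mul_sum]
      refine Finset.sum_congr rfl fun t _ => ?_
      rw [nsmul_eq_mul]; ring
    rw [h3, nsmul_eq_mul]
    exact (dvd_mul_right _ _).add (Int.dvd_neg.2 (dvd_mul_right _ _))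
  obtain ⟨k, hk, hβk⟩ := hdvd
  have hβ1 : h ^ β ≠ 1 := by
    have := hinf (β : ℤ) (by exact_mod_cast hβ.ne')
    rwa [zpow_natCast] at this
  have hne : (el (h ^ β) - 1 : QG G) ≠ 0 := by
    intro h0
    have h1 : (el (h ^ β) : QG G) = el 1 := by rw [el_one]; exact sub_eq_zero.1 h0
    have h2 := congrArg (fun y : QG G => y.coeff 1) h1
    simp only [el_coeff] at h2
    rw [Finsupp.single_apply, Finsupp.single_apply, if_neg hβ1] at h2
    simp at h2
  have hδne : δ ≠ 0 := by
    intro h0
    rw [h0, mul_zero] at hev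
    exact hne hev
  -- Lemma A
  have hNC : ¬ NonCyc δ := by
    intro hNC
    have h1 := lemmaA δ hNC (rt_free_le hF (by
      rw [Subgroup.closure_le]
      rintro _ ⟨a, a', ha, ha', rfl⟩
      exact F.mul_mem (F.inv_mem (hδF a ha)) (hδF a' ha'))) {1, h ^ β} ⟨1, by simp⟩
      (Submodule.span ℚ {(el (h ^ β) - 1 : QG G)}) (by
        intro y hy
        obtain ⟨q, rfl⟩ := Submodule.mem_span_singleton.1 hy
        constructor
        · intro g hg
          rw [MonoidAlgebra.coeff_smul, Finsupp.smul_apply, ← el_one, MonoidAlgebra.coeff_sub,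
            Finsupp.sub_apply, el_coeff, el_coeff, Finsupp.single_apply, Finsupp.single_apply] at hg
          rw [Finset.mem_insert, Finset.mem_singleton]
          by_cases h1 : h ^ β = g
          · exact Or.inr h1.symm
          · by_cases h2 : 1 = g
            · exact Or.inl h2.symm
            · rw [if_neg h1, if_neg h2, sub_zero, smul_zero] at hg
              exact absurd rfl hg
        · exact ⟨q • D0 v, by rw [smul_mul_assoc, ← hev]⟩)
    rw [finrank_span_singleton hne, Finset.card_pair (Ne.symm hβ1)] at h1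
    omega
  obtain ⟨a, ha⟩ := rt_coset hc δ hδne hδF hZh hNC
  -- division
  have hdiv : RtI (h ^ β) (el a⁻¹ * δ) := by
    apply rt_divide P h β hA
    · intro g
      rw [elmul_coeff]; exact hδint _
    · intro g hg
      rw [elmul_coeff] at hg
      have := ha _ hg
      rwa [inv_inv, inv_mul_cancel_left] at this
    · exact hZP.elmul _
  obtain ⟨g, ⟨l, hl⟩, hg⟩ := hdiv
  have h1 : (1 - D0 v * el a * g) * (el (h ^ β) - 1) = 0 := by
    have h2 : D0 v * el a * g * (el (h ^ β) - 1) = el (h ^ β) - 1 := by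
      calc D0 v * el a * g * (el (h ^ β) - 1) = D0 v * el a * (g * (el (h ^ β) - 1)) := by
            rw [mul_assoc]
        _ = D0 v * (el a * el a⁻¹) * δ := by rw [← hg]; noncomm_ring
        _ = _ := by rw [el_mul_el_inv, mul_one, ← hev]
    rw [sub_mul, one_mul, h2, sub_self]
  have h2 := rt_cancel (h ^ β) (by
    intro n hn
    rw [← zpow_natCast, ← zpow_mul]
    exact hinf _ (mul_ne_zero (by exact_mod_cast hβ.ne') hn)) _ h1
  have h3 := congrArg (rtAug (G := G)) (sub_eq_zero.1 h2)
  rw [map_one, map_mul, map_mul, rtAug_el, mul_one, hk, hl] at h3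
  have h4 : (1 : ℤ) = k * l := by exact_mod_cast h3
  have h5 : (β : ℤ) ∣ 1 := h4 ▸ hβk.mul_right l
  have h6 : (β : ℤ) = 1 := Int.eq_one_of_dvd_one (by positivity) h5
  exact_mod_cast h6

/-- A finite family of elements of a free group that is a `ℤ`-basis of a direct summand in
homology generates a root closed subgroup. -/
theorem root_closed {G : Type*} [Group G] {T : Type*} [Fintype T] [DecidableEq T]
    (F : Subgroup G) (hF : IsFreeGroup F) (b : T → G) (hb : ∀ t, b t ∈ F)
    (χ : G →* Multiplicative (T → ℤ)) (hχ : ∀ t, χ (b t) = Multiplicative.ofAdd (Pi.single t 1))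
    (h : G) (hh : h ∈ F) (m : ℤ) (hm : m ≠ 0) (hp : h ^ m ∈ Subgroup.closure (Set.range b)) :
    h ∈ Subgroup.closure (Set.range b) := by
  classical
  by_cases h1 : h = 1
  · rw [h1]; exact Subgroup.one_mem _
  have hhm : h ^ m ≠ 1 := pow_ne_one_of_free F hF hh h1 hm
  obtain ⟨c, hcF, hc1, hc⟩ := centralizer_cyclic F hF (F.zpow_mem hh m) hhm
  obtain ⟨j, hj⟩ := Subgroup.mem_zpowers_iff.1 ((hc h hh).1 (by
    rw [← zpow_one_add, ← zpow_add_one, add_comm]))
  have hinf : ∀ i : ℤ, i ≠ 0 → c ^ i ≠ 1 := fun i hi => pow_ne_one_of_free F hF hcF hc1 hi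
  have hcent : ∀ i : ℤ, i ≠ 0 → ∀ y ∈ F, y * c ^ i = c ^ i * y → y ∈ Subgroup.zpowers c := by
    intro i hi y hy hyc
    obtain ⟨c', hc'F, hc'1, hc'⟩ := centralizer_cyclic F hF (F.zpow_mem hcF i) (hinf i hi)
    obtain ⟨r, hr⟩ := Subgroup.mem_zpowers_iff.1 ((hc' y hy).1 hyc)
    obtain ⟨r', hr'⟩ := Subgroup.mem_zpowers_iff.1 ((hc' c hcF).1 (by
      rw [← zpow_one_add, ← zpow_add_one, add_comm]))
    rw [← hc y hy, ← hj, ← zpow_mul, ← hr, ← hr', ← zpow_mul, ← zpow_add, ← zpow_add, add_comm]
  -- the least power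
  have hex : ∃ n : ℕ, 0 < n ∧ c ^ n ∈ Subgroup.closure (Set.range b) := by
    refine ⟨(j * m).natAbs, Int.natAbs_pos.2 (mul_ne_zero ?_ hm), ?_⟩
    · rintro rfl
      rw [zpow_zero] at hj
      exact h1 hj.symm
    · have h2 : c ^ (j * m) ∈ Subgroup.closure (Set.range b) := by
        rw [zpow_mul, hj]; exact hp
      rcases Int.natAbs_eq (j * m) with h3 | h3
      · rw [h3, zpow_natCast] at h2; exact h2
      · rw [h3, zpow_neg, zpow_natCast] at h2
        simpa using Subgroup.inv_mem _ h2
  obtain ⟨hβ, hβP⟩ := Nat.find_spec hex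
  set β := Nat.find hex with hβdef
  have hA : ∀ i : ℤ, c ^ i ∈ Subgroup.closure (Set.range b) ↔ (β : ℤ) ∣ i := by
    intro i
    constructor
    · intro hi
      have h2 : c ^ (i % (β : ℤ)) ∈ Subgroup.closure (Set.range b) := by
        have h3 : i % (β : ℤ) = i - β * (i / β) := Int.emod_def i β
        rw [h3, zpow_sub, zpow_mul, zpow_natCast]
        exact Subgroup.mul_mem _ hi (Subgroup.inv_mem _ (Subgroup.zpow_mem _ hβP _))
      by_contra hdvd
      have h4 : 0 ≤ i % (β : ℤ) := Int.emod_nonneg i (by exact_mod_cast hβ.ne')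
      have h5 : i % (β : ℤ) < β := Int.emod_lt_of_pos i (by exact_mod_cast hβ)
      have h6 : i % (β : ℤ) ≠ 0 := fun h => hdvd (Int.dvd_of_emod_eq_zero h)
      obtain ⟨n, hn⟩ := Int.eq_ofNat_of_zero_le h4
      rw [hn] at h2 h5 h6
      have h7 : n < β := by exact_mod_cast h5
      refine Nat.find_min hex h7 ⟨Nat.pos_of_ne_zero (by exact_mod_cast h6), ?_⟩
      rwa [zpow_natCast] at h2
    · rintro ⟨r, rfl⟩
      rw [zpow_mul, zpow_natCast]
      exact Subgroup.zpow_mem _ hβP _
  have hβ1 : β = 1 := rt_core F hF b hb χ hχ c hcF hcent hinf β hβ hA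
  rw [hβ1, pow_one] at hβP
  rw [← hj]
  exact Subgroup.zpow_mem _ hβP _

end RootCore

end Pool.Agent.SurfExact
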