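import Pool.Agent.SurfExact.BasicB

/-!
# MP_5bf54f_al, package B2: generators of the left ideal of vectors with two systems of vanishing
coset sums
-/

set_option autoImplicit false
set_option linter.unusedSectionVars false

namespace Pool.Agent.SurfExact

open Function

section Ext

variable {G : Type*} [Group G] {M : Type*} [AddCommGroup M] [Module (QG G) M]

/-- Extension of a crossed homomorphism of a subgroup to a function on the group. -/
theorem exists_ext_crossed (H : Subgroup G) (e : G → M)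
    (he : ∀ a ∈ H, ∀ b ∈ H, e (a * b) = e a + el a • e b) :
    ∃ Ψ : G → M, ∀ g, ∀ a ∈ H, Ψ (g * a) = Ψ g + el g • e a := by
  let r : G → G := fun g => (Quotient.out (g : G ⧸ H))
  have hr : ∀ g, (r g)⁻¹ * g ∈ H := by
    intro g
    rw [← QuotientGroup.eq]
    exact Quotient.out_eq (g : G ⧸ H)
  refine ⟨fun g => el (r g) • e ((r g)⁻¹ * g), ?_⟩
  intro g a ha
  have h1 : r (g * a) = r g := by
    show Quotient.out ((g * a : G) : G ⧸ H) = Quotient.out (g : G ⧸ H)
    have : ((g * a : G) : G ⧸ H) = (g : G ⧸ H) := by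
      rw [QuotientGroup.eq]
      simpa using H.inv_mem ha
    rw [this]
  show el (r (g * a)) • e ((r (g * a))⁻¹ * (g * a)) = el (r g) • e ((r g)⁻¹ * g) + el g • e a
  rw [h1, ← mul_assoc, he _ (hr g) a ha, smul_add, smul_smul, ← el_mul, mul_inv_cancel_left]

variable [Module ℚ M] [IsScalarTower ℚ (QG G) M]

theorem pairL_el_smul (v : M) (y : QG G) : pairL (fun g => el g • v) y = y • v := by
  let L : QG G →ₗ[ℚ] M :=
    { toFun := fun y => y • v
      map_add' := fun a b => add_smul a b v
      map_smul' := fun c a => by simp [smul_assoc] }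
  have h : pairL (fun g => el g • v) = L := by
    apply linext
    intro g
    rw [pairL_el]
    rfl
  exact LinearMap.congr_fun h y

end Ext

section Principal

variable {G : Type*} [Group G]

theorem principal_gen {X : Type*} (φ : FreeGroup X →* G) (θ : FreeGroup X ≃* FreeGroup X)
    (M I : Set X) (hM : ∀ t ∈ M, φ (θ (FreeGroup.of t)) = 1)
    (hinj : Injective (FreeGroup.lift (fun t : {t : X // t ∉ M} => φ (θ (FreeGroup.of t.1)))))
    (d : FreeGroup X → QG G) (hd : Crossed φ d) (hI : ∀ t ∈ I, d (FreeGroup.of t) = 0)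
    (hI' : ∀ t, t ∉ I → d (FreeGroup.of t) = el (φ (FreeGroup.of t)) - 1)
    (y : QG G) (hA : ZS (Subgroup.closure {g | ∃ t ∈ I, g = φ (FreeGroup.of t)}) y)
    (hB : ZS (Subgroup.closure {g | ∃ t, t ∉ I ∧ g = φ (FreeGroup.of t)}) y) :
    y ∈ Submodule.span (QG G) {z | ∃ t ∈ M, z = d (θ (FreeGroup.of t))} := by
  classical
  set S : Submodule (QG G) (QG G) :=
    Submodule.span (QG G) {z | ∃ t ∈ M, z = d (θ (FreeGroup.of t))} with hS
  let V := QG G ⧸ S
  let db : FreeGroup X → V := fun w => S.mkQ (d w)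
  have hdb : Crossed φ db := by
    intro a b
    show S.mkQ (d (a * b)) = S.mkQ (d a) + el (φ a) • S.mkQ (d b)
    rw [hd a b, map_add, map_smul]
  -- the endomorphism killing `M`
  let κ : FreeGroup X →* FreeGroup {t : X // t ∉ M} :=
    FreeGroup.lift (fun t => if h : t ∈ M then 1 else FreeGroup.of ⟨t, h⟩)
  let j : FreeGroup {t : X // t ∉ M} →* FreeGroup X := FreeGroup.map Subtype.val
  have hφκ : ∀ v, φ (θ v) =
      FreeGroup.lift (fun t : {t : X // t ∉ M} => φ (θ (FreeGroup.of t.1))) (κ v) := by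
    have : φ.comp θ.toMonoidHom =
        (FreeGroup.lift (fun t : {t : X // t ∉ M} => φ (θ (FreeGroup.of t.1)))).comp κ := by
      apply FreeGroup.ext_hom
      intro t
      by_cases h : t ∈ M
      · simp [κ, h, hM]
      · simp [κ, h]
    intro v
    exact DFunLike.congr_fun this v
  have hφj : ∀ v, φ (θ (j (κ v))) = φ (θ v) := by
    have : ((φ.comp θ.toMonoidHom).comp j).comp κ = φ.comp θ.toMonoidHom := by
      apply FreeGroup.ext_hom
      intro t
      by_cases h : t ∈ M
      · simp [κ, h, hM]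
      · simp [κ, h, j]
    intro v
    exact DFunLike.congr_fun this v
  have hcr1 : Crossed (φ.comp θ.toMonoidHom) (fun v => db (θ v)) := by
    intro a b
    show db (θ (a * b)) = db (θ a) + el (φ (θ a)) • db (θ b)
    rw [map_mul, hdb]
  have hcr2 : Crossed (φ.comp θ.toMonoidHom) (fun v => db (θ (j (κ v)))) := by
    intro a b
    show db (θ (j (κ (a * b)))) = db (θ (j (κ a))) + el (φ (θ a)) • db (θ (j (κ b)))
    rw [map_mul, map_mul, map_mul, hdb, hφj]
  have hcr : ∀ v, db (θ v) = db (θ (j (κ v))) := by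
    intro v
    refine congrFun (hcr1.ext hcr2 ?_) v
    intro t
    show db (θ (FreeGroup.of t)) = db (θ (j (κ (FreeGroup.of t))))
    by_cases h : t ∈ M
    · have h1 : κ (FreeGroup.of t) = 1 := by simp [κ, h]
      rw [h1, map_one, map_one, hdb.one]
      show S.mkQ (d (θ (FreeGroup.of t))) = 0
      rw [Submodule.mkQ_apply, Submodule.Quotient.mk_eq_zero]
      exact Submodule.subset_span ⟨t, h, rfl⟩
    · have h1 : j (κ (FreeGroup.of t)) = FreeGroup.of t := by simp [κ, h, j]
      rw [h1]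
  -- `db u` depends only on `φ u`
  have hdep : ∀ u u', φ u = φ u' → db u = db u' := by
    intro u u' h
    have h1 : κ (θ.symm u) = κ (θ.symm u') := by
      apply hinj
      rw [← hφκ, ← hφκ, MulEquiv.apply_symm_apply, MulEquiv.apply_symm_apply, h]
    have h2 := hcr (θ.symm u)
    have h3 := hcr (θ.symm u')
    rw [MulEquiv.apply_symm_apply] at h2 h3
    rw [h2, h3, h1]
  let H := φ.range
  let e : G → V := fun g => if h : g ∈ φ.range then db (Classical.choose h) else 0
  have he : ∀ u, e (φ u) = db u := by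
    intro u
    have h : φ u ∈ φ.range := ⟨u, rfl⟩
    show (if h : φ u ∈ φ.range then db (Classical.choose h) else 0) = db u
    rw [dif_pos h]
    exact hdep _ _ (Classical.choose_spec h)
  have hecr : ∀ a ∈ φ.range, ∀ b ∈ φ.range, e (a * b) = e a + el a • e b := by
    rintro _ ⟨u, rfl⟩ _ ⟨v, rfl⟩
    rw [← map_mul, he, he, he, hdb]
  obtain ⟨Ψ, hΨ⟩ := exists_ext_crossed φ.range e hecr
  set A := Subgroup.closure {g | ∃ t ∈ I, g = φ (FreeGroup.of t)} with hAdef
  set B := Subgroup.closure {g | ∃ t, t ∉ I ∧ g = φ (FreeGroup.of t)} with hBdef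
  have he1 : e 1 = 0 := by
    have := he 1
    rw [map_one, hdb.one] at this
    exact this
  -- `e` vanishes on `A`
  have hAmem : ∀ a ∈ A, a ∈ φ.range ∧ e a = 0 := by
    intro a ha
    induction ha using Subgroup.closure_induction with
    | mem g hg =>
      obtain ⟨t, ht, rfl⟩ := hg
      refine ⟨⟨_, rfl⟩, ?_⟩
      rw [he]
      show S.mkQ (d (FreeGroup.of t)) = 0
      rw [hI t ht, map_zero]
    | one => exact ⟨one_mem _, he1⟩
    | mul a b _ _ ha hb =>
      refine ⟨mul_mem ha.1 hb.1, ?_⟩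
      rw [hecr a ha.1 b hb.1, ha.2, hb.2, smul_zero, add_zero]
    | inv a _ ha =>
      refine ⟨inv_mem ha.1, ?_⟩
      have h1 := hecr a⁻¹ (inv_mem ha.1) a ha.1
      rw [inv_mul_cancel, he1, ha.2, smul_zero, add_zero] at h1
      exact h1.symm
  let v₀ : V := S.mkQ 1
  have hBmem : ∀ b ∈ B, b ∈ φ.range ∧ e b = el b • v₀ - v₀ := by
    intro b hb
    induction hb using Subgroup.closure_induction with
    | mem g hg =>
      obtain ⟨t, ht, rfl⟩ := hg
      refine ⟨⟨_, rfl⟩, ?_⟩
      rw [he]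
      show S.mkQ (d (FreeGroup.of t)) = _
      rw [hI' t ht, map_sub, ← map_smul, smul_eq_mul, mul_one]
    | one =>
      refine ⟨one_mem _, ?_⟩
      rw [he1, el_one, one_smul, sub_self]
    | mul a b _ _ ha hb =>
      refine ⟨mul_mem ha.1 hb.1, ?_⟩
      rw [hecr a ha.1 b hb.1, ha.2, hb.2, el_mul, mul_smul, smul_sub]
      abel
    | inv a _ ha =>
      refine ⟨inv_mem ha.1, ?_⟩
      have h1 := hecr a⁻¹ (inv_mem ha.1) a ha.1
      rw [inv_mul_cancel, he1, ha.2, smul_sub, smul_smul, el_inv_mul_el, one_smul] at h1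
      rw [eq_comm, ← sub_eq_zero] at h1
      rw [← sub_eq_zero]
      rw [← h1]
      abel
  have h1 : pairL Ψ y = 0 := by
    apply hA.pair
    intro g a ha
    rw [hΨ g a (hAmem a ha).1, (hAmem a ha).2, smul_zero, add_zero]
  have h2 : pairL (fun g => Ψ g - el g • v₀) y = 0 := by
    apply hB.pair
    intro g b hb
    rw [hΨ g b (hBmem b hb).1, (hBmem b hb).2, el_mul, mul_smul, smul_sub]
    abel
  have h3 : pairL (fun g => Ψ g - el g • v₀) = pairL Ψ - pairL (fun g => el g • v₀) := by
    apply linext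
    intro g
    rw [LinearMap.sub_apply, pairL_el, pairL_el, pairL_el]
  rw [h3, LinearMap.sub_apply, h1, zero_sub, neg_eq_zero, pairL_el_smul] at h2
  have h4 : S.mkQ y = 0 := by
    have : S.mkQ y = y • v₀ := by
      show S.mkQ y = y • S.mkQ 1
      rw [← map_smul, smul_eq_mul, mul_one]
    rw [this]
    exact h2
  rwa [Submodule.mkQ_apply, Submodule.Quotient.mk_eq_zero] at h4

/-- The left ideal of elements with vanishing coset sums. -/
def zsIdeal (A : Subgroup G) : Submodule (QG G) (QG G) where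
  carrier := {y | ZS A y}
  zero_mem' := ZS_zero
  add_mem' := fun ha hb => ha.add hb
  smul_mem' := fun c _ hy => hy.mul c

/-- All values of the crossed homomorphism of `principal_gen` have vanishing `B`-coset sums. -/
theorem crossed_ZS_right {X : Type*} (φ : FreeGroup X →* G) (I : Set X)
    (d : FreeGroup X → QG G) (hd : Crossed φ d) (hI : ∀ t ∈ I, d (FreeGroup.of t) = 0)
    (hI' : ∀ t, t ∉ I → d (FreeGroup.of t) = el (φ (FreeGroup.of t)) - 1) (w : FreeGroup X) :
    ZS (Subgroup.closure {g | ∃ t, t ∉ I ∧ g = φ (FreeGroup.of t)}) (d w) := by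
  refine hd.mem (zsIdeal _) ?_ w
  intro t
  by_cases ht : t ∈ I
  · rw [hI t ht]
    exact ZS_zero
  · rw [hI' t ht]
    exact ZS_of_sub_one (Subgroup.subset_closure ⟨t, ht, rfl⟩)

/-- Its values on the kernel of `φ` have vanishing `A`-coset sums. -/
theorem crossed_ZS_left {X : Type*} (φ : FreeGroup X →* G) (I : Set X)
    (d : FreeGroup X → QG G) (hd : Crossed φ d) (hI : ∀ t ∈ I, d (FreeGroup.of t) = 0)
    (hI' : ∀ t, t ∉ I → d (FreeGroup.of t) = el (φ (FreeGroup.of t)) - 1) {w : FreeGroup X}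
    (hw : φ w = 1) : ZS (Subgroup.closure {g | ∃ t ∈ I, g = φ (FreeGroup.of t)}) (d w) := by
  have h1 : Crossed φ (fun w => (el (φ w) - 1 : QG G)) := by
    intro a b
    show (el (φ (a * b)) - 1 : QG G) = (el (φ a) - 1) + el (φ a) • (el (φ b) - 1)
    rw [map_mul, el_mul, smul_eq_mul, mul_sub, mul_one]
    abel
  have h2 := (h1.sub hd).mem (zsIdeal (Subgroup.closure {g | ∃ t ∈ I, g = φ (FreeGroup.of t)})) (by
    intro t
    show ZS _ (el (φ (FreeGroup.of t)) - 1 - d (FreeGroup.of t))
    by_cases ht : t ∈ I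
    · rw [hI t ht, sub_zero]
      exact ZS_of_sub_one (Subgroup.subset_closure ⟨t, ht, rfl⟩)
    · rw [hI' t ht, sub_self]
      exact ZS_zero) w
  have h3 : ZS (Subgroup.closure {g | ∃ t ∈ I, g = φ (FreeGroup.of t)})
      (el (φ w) - 1 - d w) := h2
  rw [hw, el_one, sub_self, zero_sub] at h3
  simpa using h3.neg

/-- The support of the values lies in the range of `φ`. -/
theorem crossed_supp {X : Type*} (φ : FreeGroup X →* G) (d : FreeGroup X → QG G)
    (hd : Crossed φ d)
    (hX : ∀ t g, (d (FreeGroup.of t)).coeff g ≠ 0 → g ∈ φ.range) (w : FreeGroup X) :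
    ∀ g, (d w).coeff g ≠ 0 → g ∈ φ.range := by
  have hadd : ∀ (y z : QG G), (∀ g, y.coeff g ≠ 0 → g ∈ φ.range) →
      (∀ g, z.coeff g ≠ 0 → g ∈ φ.range) → ∀ g, (y + z).coeff g ≠ 0 → g ∈ φ.range := by
    intro y z hy hz g hg
    by_contra hgn
    apply hg
    have h1 : y.coeff g = 0 := by
      by_contra h
      exact hgn (hy g h)
    have h2 : z.coeff g = 0 := by
      by_contra h
      exact hgn (hz g h)
    simp [h1, h2]
  have hsmul : ∀ (u : FreeGroup X) (y : QG G), (∀ g, y.coeff g ≠ 0 → g ∈ φ.range) →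
      ∀ g, (el (φ u) • y).coeff g ≠ 0 → g ∈ φ.range := by
    intro u y hy g hg
    rw [smul_eq_mul, elmul_coeff] at hg
    have h1 := mul_mem (show φ u ∈ φ.range from ⟨u, rfl⟩) (hy _ hg)
    rwa [mul_inv_cancel_left] at h1
  have hneg : ∀ (y : QG G), (∀ g, y.coeff g ≠ 0 → g ∈ φ.range) →
      ∀ g, (-y).coeff g ≠ 0 → g ∈ φ.range := by
    intro y hy g hg
    apply hy
    intro h
    apply hg
    simp [h]
  induction w using FreeGroup.induction_on with
  | C1 =>
    intro g hg
    rw [hd.one] at hg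
    simp at hg
  | of t => exact hX t
  | inv_of t ht =>
    rw [hd.inv]
    apply hneg
    have h1 := hsmul (FreeGroup.of t)⁻¹ _ ht
    rwa [map_inv] at h1
  | mul a b ha hb =>
    rw [hd a b]
    exact hadd _ _ ha (hsmul a _ hb)

end Principal

end Pool.Agent.SurfExact
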