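import Pool.Agent.SurfExact.Rank
import Pool.Agent.SurfExact.Principal

/-!
# MP_5bf54f_al, package B3: ranks of the groups `Qn` and the principality of the top parts
-/

set_option autoImplicit false
set_option linter.unusedSectionVars false

namespace Pool.Agent.SurfExact

open Function Pool.Agent.SurfGrowth

section Main

variable {G : Type*} [Group G] {ι : Type*} [Fintype ι] [DecidableEq ι]

/-! ### Negative powers of a transcendental element are independent over `ℚ` -/

theorem top_powX_indep {K : Type*} [Field K] [Algebra ℚ K] {q : K} (hq : Transcendental ℚ q)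
    (n : ℕ) (c : Fin (n + 1) → ℚ)
    (h : ∑ i : Fin (n + 1), (algebraMap ℚ K (c i)) * q ^ (-(i : ℤ)) = 0) :
    ∀ i, c i = 0 := by
  have hX : q ≠ 0 := by
    rintro rfl
    exact hq (isAlgebraic_zero)
  have h1 : Polynomial.aeval q
      (∑ i : Fin (n + 1), Polynomial.C (c i) * Polynomial.X ^ (n - (i : ℕ))) = 0 := by
    rw [map_sum]
    have h2 := congrArg (fun z => z * q ^ n) h
    simp only [Finset.sum_mul, zero_mul] at h2
    rw [← h2]
    refine Finset.sum_congr rfl fun i _ => ?_
    rw [map_mul, map_pow, Polynomial.aeval_X, Polynomial.aeval_C, mul_assoc]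
    congr 1
    rw [← zpow_natCast, ← zpow_natCast, ← zpow_add₀ hX]
    congr 1
    have := i.2
    push_cast [Nat.cast_sub (show (i : ℕ) ≤ n by omega)]
    ring
  have h3 := (transcendental_iff.1 hq) _ h1
  intro i
  have h4 := congrArg (fun p => Polynomial.coeff p (n - (i : ℕ))) h3
  simp only [Polynomial.finsetSum_coeff, Polynomial.coeff_C_mul, Polynomial.coeff_X_pow,
    Polynomial.coeff_zero] at h4
  rw [Finset.sum_eq_single i] at h4
  · simpa using h4
  · intro j _ hj
    have hne : n - (i : ℕ) ≠ n - (j : ℕ) := by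
      intro he
      apply hj
      apply Fin.ext
      have := i.2
      have := j.2
      omega
    rw [if_neg hne, mul_zero]
  · intro h
    exact absurd (Finset.mem_univ i) h

/-! ### Twisted derivations -/

section Der

variable {K : Type*} [Field K] {q : K} {f : G →* Multiplicative ℤ} {δ : G → K}

theorem top_der_one (hδ : ∀ a b, δ (a * b) = δ a + q ^ (Multiplicative.toAdd (f a)) * δ b) :
    δ 1 = 0 := by
  have h := hδ 1 1
  rw [mul_one, map_one, toAdd_one, zpow_zero, one_mul] at h
  simpa using h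

theorem top_der_inv (hδ : ∀ a b, δ (a * b) = δ a + q ^ (Multiplicative.toAdd (f a)) * δ b)
    (a : G) (ha : f a = 1) : δ a⁻¹ = -δ a := by
  have h := hδ a a⁻¹
  rw [mul_inv_cancel, top_der_one hδ, ha, toAdd_one, zpow_zero, one_mul] at h
  exact eq_neg_of_add_eq_zero_right h.symm

theorem top_der_conj (hδ : ∀ a b, δ (a * b) = δ a + q ^ (Multiplicative.toAdd (f a)) * δ b)
    (z a : G) (ha : f a = 1) :
    δ (z⁻¹ * a * z) = q ^ (-(Multiplicative.toAdd (f z))) * δ a := by
  have h1 := hδ (z⁻¹ * a) z
  have h2 := hδ z⁻¹ a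
  have h3 := hδ z⁻¹ z
  rw [inv_mul_cancel, top_der_one hδ] at h3
  rw [h1, h2, map_mul, ha, mul_one]
  rw [map_inv, toAdd_inv] at *
  linear_combination -h3

end Der

theorem top_Qn_le {x : ι → G} {s : ι} {f : G →* Multiplicative ℤ} (h : Hyp x s f) (n : ℕ) :
    Qn x s n ≤ f.ker := by
  unfold Qn
  rw [Subgroup.closure_le]
  rintro g ⟨t, i, ht, _, rfl⟩
  show f _ = 1
  rw [map_mul, map_mul, map_inv, h.ft t ht, mul_one, inv_mul_cancel]

theorem rank_lower {x : ι → G} {s : ι} {f : G →* Multiplicative ℤ} (h : Hyp x s f) (n m : ℕ)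
    (hm : FreeRk (Qn x s n) m) : (Fintype.card ι - 2) * (n + 1) ≤ m := by
  classical
  obtain ⟨K, _, _, q, hq, W, hW, hδ⟩ := h.der
  set k := Module.finrank K W with hk
  let w : Module.Basis (Fin k) K W := Module.finBasis K W
  choose δ hδ1 hδ2 using fun j => hδ (w j) (w j).2
  let D : G → (Fin k → K) := fun a j => δ j a
  let T := {t : ι // t ≠ s}
  let A : Matrix T (Fin k) K := Matrix.of fun t j => ((w j : W) : ι → K) t.1
  -- additivity
  have hDmul : ∀ a b, f a = 1 → D (a * b) = D a + D b := by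
    intro a b ha
    funext j
    show δ j (a * b) = δ j a + δ j b
    rw [hδ1, ha, toAdd_one, zpow_zero, one_mul]
  have hDone : D 1 = 0 := by
    funext j
    exact top_der_one (hδ1 j)
  have hDinv : ∀ a, f a = 1 → D a⁻¹ = -D a := by
    intro a ha
    funext j
    exact top_der_inv (hδ1 j) a ha
  have hDgen : ∀ (t : T) (i : ℕ), D ((x s ^ i)⁻¹ * x t.1 * x s ^ i) =
      q ^ (-(i : ℤ)) • A t := by
    intro t i
    funext j
    show δ j _ = _
    rw [top_der_conj (hδ1 j) _ _ (h.ft t.1 t.2), map_pow, h.fs, hδ2]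
    simp only [toAdd_pow, toAdd_ofAdd, Pi.smul_apply, smul_eq_mul]
    congr 2
    simp
  -- the image of `Qn` is spanned by `m` vectors
  obtain ⟨c, hc, hcr⟩ := hm
  have hcker : ∀ v, f (FreeGroup.lift c v) = 1 := by
    intro v
    have : FreeGroup.lift c v ∈ Qn x s n := by
      rw [← hcr]
      exact ⟨v, rfl⟩
    exact top_Qn_le h n this
  set S : Submodule ℚ (Fin k → K) := Submodule.span ℚ (Set.range fun j : Fin m => D (c j)) with hS
  have hDS : ∀ v, D (FreeGroup.lift c v) ∈ S := by
    intro v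
    induction v using FreeGroup.induction_on with
    | C1 => rw [map_one, hDone]; exact S.zero_mem
    | of j =>
      rw [FreeGroup.lift_apply_of]
      exact Submodule.subset_span ⟨j, rfl⟩
    | inv_of j hj =>
      rw [map_inv, hDinv _ (hcker _)]
      exact S.neg_mem hj
    | mul a b ha hb =>
      rw [map_mul, hDmul _ _ (hcker a)]
      exact S.add_mem ha hb
  have hQS : ∀ a ∈ Qn x s n, D a ∈ S := by
    intro a ha
    rw [← hcr] at ha
    obtain ⟨v, rfl⟩ := ha
    exact hDS v
  -- many independent rows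
  obtain ⟨κ, a, ha, hspan, hli⟩ := exists_linearIndependent' K (fun t : T => A t)
  have : Finite κ := Finite.of_injective a ha
  let _ : Fintype κ := Fintype.ofFinite κ
  have hκ : Fintype.card κ = A.rank := by
    rw [Matrix.rank_eq_finrank_span_row]
    have h1 := finrank_span_eq_card hli
    rw [hspan] at h1
    exact h1.symm
  have hrank : Fintype.card ι - 2 ≤ A.rank := by
    rw [Matrix.rank_eq_finrank_span_cols]
    -- restriction to `T`
    let r : (ι → K) →ₗ[K] (T → K) := LinearMap.funLeft K K (fun t : T => t.1)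
    have hmap : Submodule.map r W = Submodule.span K (Set.range A.col) := by
      have h1 : W = Submodule.span K (Set.range fun j => ((w j : W) : ι → K)) := by
        have h2 := congrArg (Submodule.map W.subtype) w.span_eq
        rw [Submodule.map_span, Submodule.map_top, Submodule.range_subtype, ← Set.range_comp] at h2
        exact h2.symm
      conv_lhs => rw [h1]
      rw [Submodule.map_span, ← Set.range_comp]
      rfl
    rw [← hmap]
    let g : W →ₗ[K] (T → K) := r ∘ₗ W.subtype
    have hrange : LinearMap.range g = Submodule.map r W := by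
      rw [LinearMap.range_comp, Submodule.range_subtype]
    have h3 := LinearMap.finrank_range_add_finrank_ker g
    have h4 : Module.finrank K (LinearMap.ker g) ≤ 1 := by
      let e : LinearMap.ker g →ₗ[K] K :=
        (LinearMap.proj s) ∘ₗ W.subtype ∘ₗ (LinearMap.ker g).subtype
      have he : Injective e := by
        rw [injective_iff_map_eq_zero]
        intro y hy
        have hy1 : ((y : W) : ι → K) s = 0 := hy
        have hy2 : g y = 0 := y.2
        apply Subtype.ext
        apply Subtype.ext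
        funext t
        by_cases ht : t = s
        · rw [ht]; exact hy1
        · exact congrFun hy2 ⟨t, ht⟩
      have := LinearMap.finrank_le_finrank_of_injective he
      rwa [Module.finrank_self] at this
    rw [hrange] at h3
    omega
  -- the family
  have hbig : LinearIndependent ℚ (fun p : κ × Fin (n + 1) =>
      q ^ (-(p.2 : ℤ)) • A (a p.1)) := by
    rw [Fintype.linearIndependent_iff]
    intro g hg
    have h1 : ∑ t : κ, (∑ i : Fin (n + 1), algebraMap ℚ K (g (t, i)) * q ^ (-(i : ℤ))) •
        A (a t) = 0 := by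
      rw [← hg, Fintype.sum_prod_type]
      refine Finset.sum_congr rfl fun t _ => ?_
      rw [Finset.sum_smul]
      refine Finset.sum_congr rfl fun i _ => ?_
      rw [mul_smul, algebraMap_smul]
    have h2 := Fintype.linearIndependent_iff.mp hli _ h1
    rintro ⟨t, i⟩
    exact top_powX_indep hq n (fun i => g (t, i)) (h2 t) i
  have hfam : ∀ p : κ × Fin (n + 1), q ^ (-(p.2 : ℤ)) • A (a p.1) ∈ S := by
    intro p
    rw [← hDgen]
    apply hQS
    exact Subgroup.subset_closure ⟨(a p.1).1, p.2, (a p.1).2, Nat.lt_succ_iff.mp p.2.2, rfl⟩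
  have : Module.Finite ℚ S := Module.Finite.span_of_finite ℚ (Set.finite_range _)
  have hSdim : Module.finrank ℚ S ≤ m := by
    have := finrank_range_le_card (R := ℚ) (fun j : Fin m => D (c j))
    rw [Fintype.card_fin] at this
    exact this
  have hli2 : LinearIndependent ℚ (fun p : κ × Fin (n + 1) => (⟨_, hfam p⟩ : S)) := by
    apply LinearIndependent.of_comp S.subtype
    exact hbig
  have hcard := hli2.fintype_card_le_finrank
  rw [Fintype.card_prod, Fintype.card_fin, hκ] at hcard
  calc (Fintype.card ι - 2) * (n + 1) ≤ A.rank * (n + 1) := Nat.mul_le_mul_right _ hrank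
    _ ≤ _ := hcard.trans hSdim

/-! ### The bases of the groups `Qn` and the principality -/

theorem top_Qn_mono (x : ι → G) (s : ι) {n n' : ℕ} (hn : n ≤ n') : Qn x s n ≤ Qn x s n' := by
  unfold Qn
  apply Subgroup.closure_mono
  rintro g ⟨t, i, ht, hi, rfl⟩
  exact ⟨t, i, ht, hi.trans hn, rfl⟩

theorem top_exists_rk {x : ι → G} {s : ι} {f : G →* Multiplicative ℤ} (h : Hyp x s f) (n : ℕ) :
    ∃ m, FreeRk (Qn x s n) m := by
  obtain ⟨m, _, hm, _⟩ := exists_freeRk (X := {t : ι // t ≠ s} × Fin (n + 1)) f.ker h.free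
    (fun p => (x s ^ (p.2 : ℕ))⁻¹ * x p.1.1 * x s ^ (p.2 : ℕ)) (by
      rintro ⟨t, i⟩
      show f _ = 1
      rw [map_mul, map_mul, map_inv, h.ft t.1 t.2, mul_one, inv_mul_cancel])
  refine ⟨m, ?_⟩
  convert hm using 1
  unfold Qn
  congr 1
  ext g
  constructor
  · rintro ⟨t, i, ht, hi, rfl⟩
    exact ⟨(⟨t, ht⟩, ⟨i, by omega⟩), rfl⟩
  · rintro ⟨⟨t, i⟩, rfl⟩
    exact ⟨t.1, i, t.2, by omega, rfl⟩

/-- conjugating the generators -/
theorem top_conj (x : ι → G) (s : ι) (n : ℕ) :
    (Qn x s (n + 1)).map (MulAut.conj (x s)).toMonoidHom = Qn x s n ⊔ Pc x s := by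
  unfold Qn Pc
  rw [MonoidHom.map_closure, ← Subgroup.closure_union]
  congr 1
  ext g
  constructor
  · rintro ⟨_, ⟨t, i, ht, hi, rfl⟩, rfl⟩
    rcases Nat.eq_zero_or_pos i with h0 | hpos
    · right
      refine ⟨t, ht, ?_⟩
      rw [h0]
      simp [MulAut.conj_apply]
    · left
      obtain ⟨j, rfl⟩ := Nat.exists_eq_succ_of_ne_zero hpos.ne'
      refine ⟨t, j, ht, by omega, ?_⟩
      show x s * ((x s ^ (j + 1))⁻¹ * x t * x s ^ (j + 1)) * (x s)⁻¹ = _
      rw [pow_succ]
      group
  · rintro (⟨t, j, ht, hj, rfl⟩ | ⟨t, ht, rfl⟩)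
    · refine ⟨_, ⟨t, j + 1, ht, by omega, rfl⟩, ?_⟩
      show x s * ((x s ^ (j + 1))⁻¹ * x t * x s ^ (j + 1)) * (x s)⁻¹ = _
      rw [pow_succ]
      group
    · refine ⟨_, ⟨t, 0, ht, by omega, rfl⟩, ?_⟩
      show x s * ((x s ^ 0)⁻¹ * x t * x s ^ 0) * (x s)⁻¹ = _
      rw [pow_zero]
      group

theorem top_Pc_le {x : ι → G} {s : ι} {f : G →* Multiplicative ℤ} (h : Hyp x s f) :
    Pc x s ≤ f.ker := by
  unfold Pc
  rw [Subgroup.closure_le]
  rintro g ⟨t, ht, rfl⟩
  show f _ = 1
  rw [map_mul, map_mul, map_inv, h.ft t ht, mul_one, mul_inv_cancel]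

/-- one level: the number of relators and the spanning property -/
theorem top_level {x : ι → G} {s : ι} {f : G →* Multiplicative ℤ} (h : Hyp x s f) (n q q' : ℕ)
    (hq : FreeRk (Qn x s n) q) (hq' : FreeRk (Qn x s (n + 1)) q') :
    ∃ Δ : Finset (QG G), Δ.card + q' ≤ q + (Fintype.card ι - 1) ∧
      (∀ δ ∈ Δ, (∀ g, δ.coeff g ≠ 0 → f g = 1) ∧ ZS (Qn x s n) δ ∧ ZS (Pc x s) δ) ∧
      ∀ y : QG G, ZS (Qn x s n) y → ZS (Pc x s) y → y ∈ Submodule.span (QG G) (Δ : Set (QG G)) := by
  classical
  obtain ⟨c, hc, hcr⟩ := hq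
  let T := {t : ι // t ≠ s}
  let v : Fin q ⊕ T → G := Sum.elim c (fun t => x s * x t.1 * (x s)⁻¹)
  let φ : FreeGroup (Fin q ⊕ T) →* G := FreeGroup.lift v
  have hcc : Subgroup.closure (Set.range c) = Qn x s n := by
    rw [← hcr, FreeGroup.range_lift_eq_closure]
  have hPc : Subgroup.closure {g | ∃ t : T, g = x s * x t.1 * (x s)⁻¹} = Pc x s := by
    unfold Pc
    congr 1
    ext g
    constructor
    · rintro ⟨t, rfl⟩
      exact ⟨t.1, t.2, rfl⟩
    · rintro ⟨t, ht, rfl⟩
      exact ⟨⟨t, ht⟩, rfl⟩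
  have hφr : φ.range = (Qn x s (n + 1)).map (MulAut.conj (x s)).toMonoidHom := by
    rw [top_conj, ← hcc, ← hPc, ← Subgroup.closure_union, FreeGroup.range_lift_eq_closure]
    congr 1
    ext g
    constructor
    · rintro ⟨a, rfl⟩
      cases a with
      | inl a => exact Or.inl ⟨a, rfl⟩
      | inr a => exact Or.inr ⟨a, rfl⟩
    · rintro (⟨a, rfl⟩ | ⟨a, rfl⟩)
      · exact ⟨Sum.inl a, rfl⟩
      · exact ⟨Sum.inr a, rfl⟩
  have hφker : φ.range ≤ f.ker := by
    rw [hφr, top_conj]
    exact sup_le (top_Qn_le h n) (top_Pc_le h)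
  obtain ⟨θ, M, hM, hinj⟩ := nielsen_adapted f.ker h.free φ hφker
  have hrk : Nat.card {t : Fin q ⊕ T // t ∉ M} = q' := by
    have h1 := freeRk_of_injective _ hinj
    rw [adapted_range φ θ M hM, hφr] at h1
    exact h1.unique (hq'.conj (x s))
  let d : FreeGroup (Fin q ⊕ T) → QG G := cross φ (Sum.elim (fun _ => 0)
    (fun t => el (φ (FreeGroup.of (Sum.inr t))) - 1))
  have hd : Crossed φ d := cross_crossed _ _
  have hdl : ∀ j : Fin q, d (FreeGroup.of (Sum.inl j)) = 0 := fun j => cross_of _ _ _
  have hdr : ∀ t : T, d (FreeGroup.of (Sum.inr t)) = el (φ (FreeGroup.of (Sum.inr t))) - 1 :=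
    fun t => cross_of _ _ _
  have hφof : ∀ a, φ (FreeGroup.of a) = v a := fun a => FreeGroup.lift_apply_of
  -- properties of the values of `d`
  have hsupp : ∀ w, ∀ g, (d w).coeff g ≠ 0 → f g = 1 := by
    have hone : ∀ g : G, (1 : QG G).coeff g ≠ 0 → g = 1 := by
      intro g hg
      by_contra hne
      apply hg
      rw [← el_one, el_coeff, Finsupp.single_apply, if_neg (Ne.symm hne)]
    have hφf : ∀ w, f (φ w) = 1 := fun w => hφker ⟨w, rfl⟩
    intro w
    induction w using FreeGroup.induction_on with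
    | C1 =>
      intro g hg
      rw [hd.one] at hg
      exact absurd rfl hg
    | of a =>
      intro g hg
      cases a with
      | inl j =>
        rw [hdl] at hg
        exact absurd rfl hg
      | inr t =>
        rw [hdr, MonoidAlgebra.coeff_sub, Finsupp.sub_apply] at hg
        by_cases h1 : (1 : QG G).coeff g = 0
        · rw [h1, sub_zero, el_coeff, Finsupp.single_apply] at hg
          by_cases h2 : φ (FreeGroup.of (Sum.inr t)) = g
          · rw [← h2]; exact hφf _
          · rw [if_neg h2] at hg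
            exact absurd rfl hg
        · rw [hone g h1, map_one]
    | inv_of a ha =>
      intro g hg
      rw [hd.inv, MonoidAlgebra.coeff_neg, Finsupp.neg_apply, neg_ne_zero, smul_eq_mul,
        elmul_coeff] at hg
      have h1 := ha _ hg
      rw [map_mul, inv_inv] at h1
      rw [hφf (FreeGroup.of a), one_mul] at h1
      exact h1
    | mul a b ha hb =>
      intro g hg
      rw [hd a b, MonoidAlgebra.coeff_add, Finsupp.add_apply] at hg
      by_cases h1 : (d a).coeff g = 0
      · rw [h1, zero_add, smul_eq_mul, elmul_coeff] at hg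
        have h2 := hb _ hg
        rw [map_mul, map_inv, hφf a, inv_one, one_mul] at h2
        exact h2
      · exact ha g h1
  have hZPc : ∀ w, ZS (Pc x s) (d w) := by
    intro w
    let Z : Submodule (QG G) (QG G) :=
      { carrier := {y | ZS (Pc x s) y}
        add_mem' := fun ha hb => ZS.add ha hb
        zero_mem' := ZS_zero
        smul_mem' := fun c y hy => ZS.mul c hy }
    refine hd.mem Z (fun a => ?_) w
    cases a with
    | inl j => rw [hdl]; exact Z.zero_mem
    | inr t =>
      rw [hdr]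
      refine ZS_of_sub_one ?_
      rw [hφof]
      exact Subgroup.subset_closure ⟨t.1, t.2, rfl⟩
  have hZQ : ∀ w, φ w = 1 → ZS (Qn x s n) (d w) := by
    intro w hw
    let Z : Submodule (QG G) (QG G) :=
      { carrier := {y | ZS (Qn x s n) y}
        add_mem' := fun ha hb => ZS.add ha hb
        zero_mem' := ZS_zero
        smul_mem' := fun c y hy => ZS.mul c hy }
    have he : Crossed φ (fun w => (el (φ w) - 1 : QG G)) := by
      intro a b
      show (el (φ (a * b)) - 1 : QG G) = (el (φ a) - 1) + el (φ a) • (el (φ b) - 1)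
      rw [map_mul, el_mul, smul_eq_mul, mul_sub, mul_one]
      abel
    have hd' := he.sub hd
    have h1 := hd'.mem Z (fun a => by
      cases a with
      | inl j =>
        rw [hdl, sub_zero]
        refine ZS_of_sub_one ?_
        rw [hφof, ← hcc]
        exact Subgroup.subset_closure ⟨j, rfl⟩
      | inr t =>
        rw [hdr, sub_self]
        exact Z.zero_mem) w
    have h2 : ZS (Qn x s n) (el (φ w) - 1 - d w) := h1
    rw [hw, el_one, sub_self, zero_sub] at h2
    simpa using h2.neg
  have hMfin : M.Finite := Set.toFinite M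
  refine ⟨hMfin.toFinset.image fun t => d (θ (FreeGroup.of t)), ?_, ?_, ?_⟩
  · have h1 : (hMfin.toFinset.image fun t => d (θ (FreeGroup.of t))).card ≤ Nat.card M := by
      refine Finset.card_image_le.trans (le_of_eq ?_)
      rw [Nat.card_coe_set_eq, Set.ncard_eq_toFinset_card M hMfin]
    have h2 : Nat.card M + Nat.card {t : Fin q ⊕ T // t ∉ M} = q + (Fintype.card ι - 1) := by
      have h3 : Nat.card (Fin q ⊕ T) = q + (Fintype.card ι - 1) := by
        rw [Nat.card_eq_fintype_card, Fintype.card_sum, Fintype.card_fin]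
        congr 1
        rw [Fintype.card_subtype_compl, Fintype.card_subtype_eq]
      rw [← h3, ← Nat.card_sum]
      exact Nat.card_congr (Equiv.sumCompl (fun t => t ∈ M))
    omega
  · intro δ hδ
    obtain ⟨t, ht, rfl⟩ := Finset.mem_image.mp hδ
    have htM : t ∈ M := hMfin.mem_toFinset.mp ht
    exact ⟨hsupp _, hZQ _ (hM t htM), hZPc _⟩
  · intro y hy1 hy2
    have h1 := principal_gen φ θ M (Set.range Sum.inl) hM hinj d hd
      (by
        rintro _ ⟨j, rfl⟩
        exact hdl j)
      (by
        intro t ht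
        cases t with
        | inl j => exact absurd ⟨j, rfl⟩ ht
        | inr t => exact hdr t) y
      (by
        convert hy1 using 1
        rw [← hcc]
        congr 1
        ext g
        constructor
        · rintro ⟨_, ⟨j, rfl⟩, rfl⟩
          exact ⟨j, (hφof (Sum.inl j)).symm⟩
        · rintro ⟨j, rfl⟩
          exact ⟨_, ⟨j, rfl⟩, (hφof (Sum.inl j)).symm⟩)
      (by
        convert hy2 using 1
        rw [← hPc]
        congr 1
        ext g
        constructor
        · rintro ⟨t, ht, rfl⟩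
          cases t with
          | inl j => exact absurd ⟨j, rfl⟩ ht
          | inr t => exact ⟨t, hφof _⟩
        · rintro ⟨t, rfl⟩
          exact ⟨Sum.inr t, by rintro ⟨j, hj⟩; exact absurd hj (by simp),
            (hφof (Sum.inr t)).symm⟩)
    convert h1 using 2
    ext z
    simp only [Finset.coe_image, Set.mem_image, Set.Finite.coe_toFinset, Set.mem_ofPred_eq]
    constructor
    · rintro ⟨t, ht, rfl⟩
      exact ⟨t, ht, rfl⟩
    · rintro ⟨t, ht, rfl⟩
      exact ⟨t, ht, rfl⟩

theorem top_principal {x : ι → G} {s : ι} {f : G →* Multiplicative ℤ} (h : Hyp x s f)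
    (hL : ∃ n, ∃ y : QG G, y ≠ 0 ∧ ZS (Qn x s n) y ∧ ZS (Pc x s) y) (N : ℕ) :
    ∃ n ≥ N, ∃ δ : QG G, (∀ g, δ.coeff g ≠ 0 → f g = 1) ∧ ZS (Qn x s n) δ ∧ ZS (Pc x s) δ ∧
      ∀ y : QG G, ZS (Qn x s n) y → ZS (Pc x s) y → ∃ e : QG G, y = e * δ := by
  obtain ⟨n₀, y₀, hy₀, hy1, hy2⟩ := hL
  choose q hq using top_exists_rk h
  have hlev := fun n => top_level h n (q n) (q (n + 1)) (hq n) (hq (n + 1))
  choose Δ hΔ1 hΔ2 hΔ3 using hlev
  by_cases hex : ∃ n, N ≤ n ∧ n₀ ≤ n ∧ (Δ n).card = 1
  · obtain ⟨n, hn, _, hcard⟩ := hex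
    obtain ⟨δ, hδ⟩ := Finset.card_eq_one.mp hcard
    have h1 := hΔ2 n δ (by rw [hδ]; exact Finset.mem_singleton_self δ)
    refine ⟨n, hn, δ, h1.1, h1.2.1, h1.2.2, fun y hyQ hyP => ?_⟩
    have h2 := hΔ3 n y hyQ hyP
    rw [hδ, Finset.coe_singleton, Submodule.mem_span_singleton] at h2
    obtain ⟨e, he⟩ := h2
    exact ⟨e, by rw [← he, smul_eq_mul]⟩
  · exfalso
    push Not at hex
    set a := max N n₀ with ha
    have htwo : ∀ n, a ≤ n → 2 ≤ (Δ n).card := by
      intro n hn
      have h1 := hex n (le_trans (le_max_left _ _) hn) (le_trans (le_max_right _ _) hn)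
      have h2 : (Δ n).card ≠ 0 := by
        intro h0
        have h3 := hΔ3 n y₀ (hy1.mono (top_Qn_mono x s (le_trans (le_max_right _ _) hn))) hy2
        rw [Finset.card_eq_zero.mp h0, Finset.coe_empty, Submodule.span_empty,
          Submodule.mem_bot] at h3
        exact hy₀ h3
      omega
    have hdown : ∀ k, q (a + k) + 2 * k ≤ q a + k * (Fintype.card ι - 1) := by
      intro k
      induction k with
      | zero => simp
      | succ k ih =>
        have h1 := hΔ1 (a + k)
        have h2 := htwo (a + k) (by omega)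
        rw [← add_assoc, Nat.add_mul, one_mul]
        omega
    have hlow := fun k => rank_lower h (a + k) (q (a + k)) (hq (a + k))
    have h1 := hdown (q a + 1)
    have h2 := hlow (q a + 1)
    rcases Nat.lt_or_ge (Fintype.card ι) 2 with hc | hc
    · have : (q a + 1) * (Fintype.card ι - 1) = 0 := by
        have : Fintype.card ι - 1 = 0 := by omega
        rw [this, mul_zero]
      omega
    · obtain ⟨c, hcc⟩ := Nat.exists_eq_add_of_le hc
      rw [hcc] at h1 h2
      have e1 : 2 + c - 1 = c + 1 := by omega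
      have e2 : 2 + c - 2 = c := by omega
      rw [e1] at h1
      rw [e2] at h2
      nlinarith

end Main

end Pool.Agent.SurfExact
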