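import Pool.Agent.SurfExact.Levels
import Pool.Agent.SurfExact.FreeFacts
import Pool.Agent.SurfExact.Forest
import Pool.Agent.SurfExact.Root
import Pool.Agent.SurfExact.Top
import Pool.Agent.SurfExact.LemmaA

/-!
# MP_5bf54f_al, package B8: Theorem B
-/

set_option autoImplicit false
set_option linter.unusedSectionVars false

namespace Pool.Agent.SurfExact

open Function

section Cyclic

variable {G : Type*} [Group G]

theorem isFree_of_le {F H : Subgroup G} (hF : IsFreeGroup F) (hHF : H ≤ F) : IsFreeGroup H := by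
  have h1 : IsFreeGroup (H.subgroupOf F) := inferInstance
  exact IsFreeGroup.ofMulEquiv (Subgroup.subgroupOfEquivOfLe hHF)

theorem QG_eq_zero {y : QG G} (h : ∀ g, y.coeff g = 0) : y = 0 :=
  MonoidAlgebra.ext (Finsupp.ext h)

theorem exists_coeff {y : QG G} (h : y ≠ 0) : ∃ g, y.coeff g ≠ 0 := by
  by_contra hcon
  push Not at hcon
  exact h (QG_eq_zero hcon)

/-- If the coset sums vanish, then every element of the support has a partner. -/
theorem ZS.partner {A : Subgroup G} {y : QG G} (h : ZS A y) {a : G} (ha : y.coeff a ≠ 0) :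
    ∃ b, y.coeff b ≠ 0 ∧ b ≠ a ∧ a⁻¹ * b ∈ A := by
  classical
  by_contra hcon
  push Not at hcon
  have h1 := h.pair (M := ℚ) (fun g => if a⁻¹ * g ∈ A then 1 else 0) (by
    intro g c hc
    have : a⁻¹ * (g * c) ∈ A ↔ a⁻¹ * g ∈ A := by
      rw [← mul_assoc]
      exact A.mul_mem_cancel_right hc
    simp only [this])
  have h2 : pairL (fun g => if a⁻¹ * g ∈ A then (1 : ℚ) else 0) y = y.coeff a := by
    rw [pairL_apply, Finsupp.sum, Finset.sum_eq_single a]
    · simp
    · intro b hb hba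
      rw [if_neg (hcon b (Finsupp.mem_support_iff.1 hb) hba), smul_zero]
    · intro hn
      exact absurd (Finsupp.notMem_support_iff.1 hn) ha
  rw [h2] at h1
  exact ha h1

/-- `el c - 1` has vanishing coset sums only if `c` is in the subgroup. -/
theorem mem_of_ZS_sub_one {A : Subgroup G} {c : G} (h : ZS A (el c - 1)) : c ∈ A := by
  classical
  by_cases hc : c = 1
  · rw [hc]
    exact A.one_mem
  have h1 : (el c - 1 : QG G).coeff 1 ≠ 0 := by
    rw [← el_one, MonoidAlgebra.coeff_sub, Finsupp.sub_apply, el_coeff, el_coeff,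
      Finsupp.single_eq_of_ne (by exact fun h => hc h.symm), Finsupp.single_eq_same]
    norm_num
  obtain ⟨b, hb, hb1, hbA⟩ := h.partner h1
  rw [inv_one, one_mul] at hbA
  have : b = c := by
    by_contra hbc
    apply hb
    rw [← el_one, MonoidAlgebra.coeff_sub, Finsupp.sub_apply, el_coeff, el_coeff,
      Finsupp.single_eq_of_ne hbc, Finsupp.single_eq_of_ne hb1, sub_self]
  rwa [this] at hbA

/-- Structure of an element with commuting support. -/
theorem cyclic_structure (F : Subgroup G) (hF : IsFreeGroup F) (A : Subgroup G) {δ : QG G}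
    (hδ0 : δ ≠ 0) (hδF : ∀ g, δ.coeff g ≠ 0 → g ∈ F) (hA : ZS A δ) (hcyc : ¬ NonCyc δ) :
    ∃ h ∈ F, h ≠ 1 ∧ (∀ y ∈ F, y * h = h * y → y ∈ Subgroup.zpowers h) ∧
      ZS (Subgroup.zpowers h) δ ∧ (∃ k : ℤ, k ≠ 0 ∧ h ^ k ∈ A) ∧
      ∃ a ∈ F, ∀ g, δ.coeff g ≠ 0 → a⁻¹ * g ∈ Subgroup.zpowers h := by
  obtain ⟨a, ha⟩ := exists_coeff hδ0
  obtain ⟨b, hb, hba, hbA⟩ := hA.partner ha
  have haF := hδF a ha
  have hcF : a⁻¹ * b ∈ F := mul_mem (inv_mem haF) (hδF b hb)
  have hc1 : a⁻¹ * b ≠ 1 := by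
    intro h
    exact hba (inv_mul_eq_one.1 h).symm
  obtain ⟨h, hhF, hh1, hh⟩ := centralizer_cyclic F hF hcF hc1
  have hcz : a⁻¹ * b ∈ Subgroup.zpowers h := (hh _ hcF).1 rfl
  obtain ⟨k, hk⟩ := hcz
  have hsupp : ∀ g, δ.coeff g ≠ 0 → a⁻¹ * g ∈ Subgroup.zpowers h := by
    intro g hg
    apply (hh _ (mul_mem (inv_mem haF) (hδF g hg))).1
    by_contra hne
    exact hcyc ⟨a, g, b, ha, hg, hb, hne⟩
  refine ⟨h, hhF, hh1, ?_, ?_, ⟨k, ?_, ?_⟩, a, haF, hsupp⟩
  · intro y hy hyh
    apply (hh y hy).1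
    have h1 : Commute y h := hyh
    have h2 := h1.zpow_right k
    show y * (a⁻¹ * b) = (a⁻¹ * b) * y
    rw [← hk]
    exact h2
  · apply ZS_of
    intro ψ hψ
    have h1 : pairL ψ δ = pairL (fun _ => ψ a) δ := by
      apply pairL_congr
      intro g hg
      have := hψ a _ (hsupp g hg)
      rw [mul_inv_cancel_left] at this
      exact this
    rw [h1]
    exact hA.pair _ (fun _ _ _ => rfl)
  · intro hk0
    rw [hk0] at hk
    simp only [zpow_zero] at hk
    exact hc1 hk.symm
  · have : h ^ k = a⁻¹ * b := hk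
    rw [this]
    exact hbA

/-- Vectors with vanishing sums over the left cosets of a cyclic group are multiples of
`1 - el h`. -/
theorem ZS_zpowers {h : G} {y : QG G} (hy : ZS (Subgroup.zpowers h) y) :
    ∃ e : QG G, y = e * (1 - el h) := by
  set S : Submodule (QG G) (QG G) := Submodule.span (QG G) {1 - el h} with hS
  have hinv : ∀ g : G, S.mkQ (el (g * h)) = S.mkQ (el g) := by
    intro g
    rw [Submodule.mkQ_apply, Submodule.mkQ_apply, eq_comm, Submodule.Quotient.eq, el_mul]
    have : el g - el g * el h = el g • (1 - el h) := by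
      rw [smul_eq_mul, mul_sub, mul_one]
    rw [this]
    exact S.smul_mem _ (Submodule.subset_span rfl)
  have hinv' : ∀ (n : ℤ) (g : G), S.mkQ (el (g * h ^ n)) = S.mkQ (el g) := by
    intro n
    induction n using Int.induction_on with
    | zero => intro g; simp
    | succ n ih =>
      intro g
      rw [zpow_add_one, ← mul_assoc, hinv, ih]
    | pred n ih =>
      intro g
      rw [zpow_sub_one, ← mul_assoc, ← hinv (g * h ^ (-(n : ℤ)) * h⁻¹), inv_mul_cancel_right, ih]
  have h1 : pairL (fun g => S.mkQ (el g)) y = 0 := by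
    apply hy.pair
    rintro g _ ⟨n, rfl⟩
    exact hinv' n g
  have h2 : pairL (fun g => S.mkQ (el g)) y = S.mkQ y := by
    have h3 : (fun g => S.mkQ (el g)) = fun g => el g • S.mkQ (1 : QG G) := by
      funext g
      rw [← map_smul, smul_eq_mul, mul_one]
    rw [h3, pairL_el_smul, ← map_smul, smul_eq_mul, mul_one]
  rw [h2, Submodule.mkQ_apply, Submodule.Quotient.mk_eq_zero, hS, Submodule.mem_span_singleton] at h1
  obtain ⟨e, he⟩ := h1
  exact ⟨e, he.symm⟩

end Cyclic

section Sub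

variable {G : Type*} [Group G] {ι : Type*} [Fintype ι] [DecidableEq ι]

theorem Pg_eq_range (x : ι → G) (s : ι) :
    Pg x s = (FreeGroup.lift (fun t : {t : ι // t ≠ s} => x t)).range := by
  unfold Pg
  rw [FreeGroup.range_lift_eq_closure]
  congr 1
  ext g
  constructor
  · rintro ⟨t, ht, rfl⟩
    exact ⟨⟨t, ht⟩, rfl⟩
  · rintro ⟨t, rfl⟩
    exact ⟨t.1, t.2, rfl⟩

theorem Pc_eq_map (x : ι → G) (s : ι) : Pc x s = (Pg x s).map (MulAut.conj (x s)).toMonoidHom := by
  unfold Pc Pg
  rw [MonoidHom.map_closure]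
  congr 1
  ext g
  constructor
  · rintro ⟨t, ht, rfl⟩
    exact ⟨x t, ⟨t, ht, rfl⟩, rfl⟩
  · rintro ⟨_, ⟨t, ht, rfl⟩, rfl⟩
    exact ⟨t, ht, rfl⟩

theorem Pg_update (x : ι → G) (s : ι) (y : G) : Pg (update x s y) s = Pg x s := by
  unfold Pg
  congr 1
  ext g
  constructor
  · rintro ⟨t, ht, rfl⟩
    exact ⟨t, ht, by rw [update_of_ne ht]⟩
  · rintro ⟨t, ht, rfl⟩
    exact ⟨t, ht, by rw [update_of_ne ht]⟩

theorem mem_Pc_update (x : ι → G) (s : ι) (y : G) :
    y ∈ Pc (update x s (x s)⁻¹) s ↔ x s * y * (x s)⁻¹ ∈ Pg x s := by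
  rw [Pc_eq_map, Pg_update, update_self]
  constructor
  · rintro ⟨p, hp, rfl⟩
    have : x s * ((MulAut.conj (x s)⁻¹).toMonoidHom p) * (x s)⁻¹ = p := by
      show x s * ((x s)⁻¹ * p * (x s)⁻¹⁻¹) * (x s)⁻¹ = p
      group
    rw [this]
    exact hp
  · intro hp
    refine ⟨_, hp, ?_⟩
    show (x s)⁻¹ * (x s * y * (x s)⁻¹) * (x s)⁻¹⁻¹ = y
    group

theorem Pg_le_Qn (x : ι → G) (s : ι) (n : ℕ) : Pg x s ≤ Qn x s n := by
  apply Subgroup.closure_mono
  rintro _ ⟨t, ht, rfl⟩
  exact ⟨t, 0, ht, Nat.zero_le n, by simp⟩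

theorem Pg_le_ker {x : ι → G} {s : ι} {f : G →* Multiplicative ℤ}
    (ft : ∀ t, t ≠ s → f (x t) = 1) : Pg x s ≤ f.ker := by
  rw [Pg, Subgroup.closure_le]
  rintro _ ⟨t, ht, rfl⟩
  exact ft t ht

/-- Reversing the letter `s`. -/
noncomputable def revL (x : ι → G) (s : ι) : (ι → QG G) →ₗ[ℚ] (ι → QG G) where
  toFun z := update z s (-(z s * el (x s)))
  map_add' := by
    intro a b
    funext t
    by_cases ht : t = s
    · subst ht
      simp [add_mul]
      abel
    · simp [update_of_ne ht]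
  map_smul' := by
    intro c a
    funext t
    by_cases ht : t = s
    · subst ht
      simp
    · simp [update_of_ne ht]

theorem revL_apply (x : ι → G) (s : ι) (z : ι → QG G) :
    revL x s z = update z s (-(z s * el (x s))) := rfl

theorem revL_inj (x : ι → G) (s : ι) : Injective (revL x s) := by
  rw [← LinearMap.ker_eq_bot, LinearMap.ker_eq_bot']
  intro z hz
  rw [revL_apply] at hz
  funext t
  have h1 := congrFun hz t
  by_cases ht : t = s
  · subst ht
    rw [update_self, Pi.zero_apply, neg_eq_zero] at h1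
    have h2 : z t * el (x t) * el (x t)⁻¹ = 0 := by rw [h1, zero_mul]
    rwa [mul_assoc, el_mul_el_inv, mul_one] at h2
  · rwa [update_of_ne ht] at h1

theorem revL_mem_cyc {x : ι → G} {s : ι} {z : ι → QG G} (hz : z ∈ cyc x) :
    revL x s z ∈ cyc (update x s (x s)⁻¹) := by
  rw [mem_cyc] at hz ⊢
  rw [← hz]
  refine Finset.sum_congr rfl fun t _ => ?_
  rw [revL_apply]
  by_cases ht : t = s
  · subst ht
    rw [update_self, update_self, mul_sub, mul_sub, mul_one, mul_one, neg_mul, mul_assoc,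
      el_mul_el_inv, mul_one]
    abel
  · rw [update_of_ne ht, update_of_ne ht]

/-- The reversed edge set. -/
def revY (x : ι → G) (s : ι) (Y : ι → Finset G) : ι → Finset G :=
  update Y s ((Y s).map (Equiv.mulRight (x s)).toEmbedding)

theorem finrank_rev (x : ι → G) (s : ι) (Y : ι → Finset G)
    (hfin : FiniteDimensional ℚ (cycIn (update x s (x s)⁻¹) (revY x s Y))) :
    Module.finrank ℚ (cycIn x Y) ≤
      Module.finrank ℚ (cycIn (update x s (x s)⁻¹) (revY x s Y)) := by
  have h1 : ∀ z ∈ cycIn x Y, revL x s z ∈ cycIn (update x s (x s)⁻¹) (revY x s Y) := by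
    rintro z ⟨hz1, hz2⟩
    refine ⟨revL_mem_cyc hz1, ?_⟩
    intro t g hg
    rw [revL_apply] at hg
    unfold revY
    by_cases ht : t = s
    · subst ht
      rw [update_self] at hg ⊢
      rw [Finset.mem_map]
      refine ⟨g * (x t)⁻¹, hz2 t _ ?_, by simp⟩
      intro h0
      apply hg
      rw [MonoidAlgebra.coeff_neg, Finsupp.neg_apply, mulel_coeff, h0, neg_zero]
    · rw [update_of_ne ht] at hg ⊢
      exact hz2 t g hg
  exact LinearMap.finrank_le_finrank_of_injective
    (f := (revL x s).restrict (p := cycIn x Y) (q := cycIn (update x s (x s)⁻¹) (revY x s Y)) h1)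
    (fun a b hab => Subtype.ext (revL_inj x s (congrArg Subtype.val hab)))

theorem finiteDimensional_cycIn (x : ι → G) (Y : ι → Finset G) :
    FiniteDimensional ℚ (cycIn x Y) := by
  let L : (cycIn x Y) →ₗ[ℚ] (∀ t, (Y t → ℚ)) :=
    (LinearMap.pi (fun t => (resL (Y t)).comp (LinearMap.proj t))).domRestrict (cycIn x Y)
  have hinj : Injective L := by
    rw [← LinearMap.ker_eq_bot, LinearMap.ker_eq_bot']
    intro z hz
    apply Subtype.ext
    funext t
    apply QG_eq_zero
    intro g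
    by_contra hg
    exact hg (congrFun (congrFun hz t) ⟨g, z.2.2 t g hg⟩)
  exact FiniteDimensional.of_injective L hinj

theorem finiteDimensional_zsIn (A B : Subgroup G) (Y : Finset G) :
    FiniteDimensional ℚ (zsIn A B Y) :=
  finiteDimensional_of_supp Y _ (fun _ hy g hg => hy.1 g hg)

/-- The number of left cosets of `A` met by `Y`. -/
noncomputable def numCos (A : Subgroup G) (Y : Finset G) : ℕ :=
  ((fun g : G => (g : G ⧸ A)) '' (Y : Set G)).ncard

/-- The estimate from one side. -/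
theorem half_bound {x : ι → G} {s : ι} {f : G →* Multiplicative ℤ} (h : Hyp x s f)
    (Y : ι → Finset G) (hY : cycIn x Y ≠ ⊥) :
    2 * Module.finrank ℚ (cycIn x Y) + 1 ≤ (Y s).card ∨
    ∃ k ∈ f.ker, k ≠ 1 ∧ (∀ y ∈ f.ker, y * k = k * y → y ∈ Subgroup.zpowers k) ∧
      (∃ m : ℤ, m ≠ 0 ∧ k ^ m ∈ Pc x s) ∧
      Module.finrank ℚ (cycIn x Y) + numCos (Subgroup.zpowers k) (Y s) ≤ (Y s).card := by
  obtain ⟨N, hN⟩ := finrank_le_top h Y
  have hfd := finiteDimensional_cycIn x Y
  have hpos : 0 < Module.finrank ℚ (cycIn x Y) := by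
    rw [Module.finrank_pos_iff]
    exact (Submodule.nontrivial_iff_ne_bot).2 hY
  have hne : ∀ n ≥ N, ∃ y ∈ zsIn (Qn x s n) (Pc x s) (Y s), y ≠ 0 := by
    intro n hn
    have h1 := hN n hn
    by_contra hcon
    push Not at hcon
    have h2 : zsIn (Qn x s n) (Pc x s) (Y s) = ⊥ := by
      rw [Submodule.eq_bot_iff]
      exact hcon
    rw [h2, finrank_bot] at h1
    omega
  obtain ⟨y₀, hy₀, hy₀0⟩ := hne N le_rfl
  obtain ⟨n, hn, δ, hδ1, hδ2, hδ3, hδ⟩ :=
    top_principal h ⟨N, y₀, hy₀0, hy₀.2.1, hy₀.2.2⟩ N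
  obtain ⟨y₁, hy₁, hy₁0⟩ := hne n hn
  have hδ0 : δ ≠ 0 := by
    intro h0
    obtain ⟨e, he⟩ := hδ y₁ hy₁.2.1 hy₁.2.2
    apply hy₁0
    rw [he, h0, mul_zero]
  have hYne : (Y s).Nonempty := by
    obtain ⟨g, hg⟩ := exists_coeff hy₁0
    exact ⟨g, hy₁.1 g hg⟩
  have hle := hN n hn
  by_cases hcyc : NonCyc δ
  · left
    have hfree : IsFreeGroup (Subgroup.closure
        {g | ∃ a b, δ.coeff a ≠ 0 ∧ δ.coeff b ≠ 0 ∧ g = a⁻¹ * b}) := by
      apply isFree_of_le h.free
      rw [Subgroup.closure_le]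
      rintro _ ⟨a, b, ha, hb, rfl⟩
      show f (a⁻¹ * b) = 1
      rw [map_mul, map_inv, hδ1 a ha, hδ1 b hb, inv_one, one_mul]
    have h1 := lemmaA δ hcyc hfree (Y s) hYne (zsIn (Qn x s n) (Pc x s) (Y s))
      (fun y hy => ⟨hy.1, hδ y hy.2.1 hy.2.2⟩)
    omega
  · right
    obtain ⟨k, hk1, hk2, hk3, hk4, hk5, -⟩ :=
      cyclic_structure f.ker h.free (Pc x s) hδ0 (fun g hg => hδ1 g hg) hδ3 hcyc
    refine ⟨k, hk1, hk2, hk3, hk5, ?_⟩
    have h1 : zsIn (Qn x s n) (Pc x s) (Y s) ≤
        zsIn (Subgroup.zpowers k) (Subgroup.zpowers k) (Y s) := by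
      intro y hy
      obtain ⟨e, he⟩ := hδ y hy.2.1 hy.2.2
      have h2 : ZS (Subgroup.zpowers k) y := by
        rw [he]
        exact hk4.mul e
      exact ⟨hy.1, h2, h2⟩
    have hfd2 := finiteDimensional_zsIn (Subgroup.zpowers k) (Subgroup.zpowers k) (Y s)
    have h2 := Submodule.finrank_mono h1
    have h3 := finrank_zsIn_le (Subgroup.zpowers k) (Subgroup.zpowers k) (Y s)
    unfold numCos
    omega

theorem ncard_image_le_of {α A B : Type*} (Y : Set α) (hfin : Y.Finite) (q : α → A) (q' : α → B)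
    (h : ∀ a ∈ Y, ∀ b ∈ Y, q' a = q' b → q a = q b) : (q '' Y).ncard ≤ (q' '' Y).ncard := by
  classical
  rcases Y.eq_empty_or_nonempty with rfl | ⟨y₀, hy₀⟩
  · simp
  let r : B → A := fun b => if hb : ∃ y ∈ Y, q' y = b then q (Classical.choose hb) else q y₀
  have hr : ∀ y ∈ Y, r (q' y) = q y := by
    intro y hy
    have hb : ∃ z ∈ Y, q' z = q' y := ⟨y, hy, rfl⟩
    show (if hb : ∃ z ∈ Y, q' z = q' y then q (Classical.choose hb) else q y₀) = q y
    rw [dif_pos hb]
    have h1 := Classical.choose_spec hb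
    exact h _ h1.1 y hy h1.2
  have h1 : q '' Y = r '' (q' '' Y) := by
    rw [Set.image_image]
    exact (Set.image_congr hr).symm
  rw [h1]
  exact Set.ncard_image_le (hfin.image q')

theorem card_revY (x : ι → G) (s : ι) (Y : ι → Finset G) :
    (revY x s Y s).card = (Y s).card := by
  unfold revY
  rw [update_self, Finset.card_map]

theorem numCos_rev (x : ι → G) (s : ι) (Y : ι → Finset G) (k : G) :
    numCos (Subgroup.zpowers (x s * k * (x s)⁻¹)) (Y s) ≤
      numCos (Subgroup.zpowers k) (revY x s Y s) := by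
  have h1 : ((revY x s Y s : Finset G) : Set G) = (fun g => g * x s) '' (Y s : Set G) := by
    unfold revY
    rw [update_self, Finset.coe_map]
    rfl
  unfold numCos
  rw [h1, Set.image_image]
  apply ncard_image_le_of _ (Finset.finite_toSet _)
  intro a _ b _ hab
  rw [QuotientGroup.eq] at hab ⊢
  obtain ⟨n, hn⟩ := hab
  refine ⟨n, ?_⟩
  have h2 : k ^ n = (x s)⁻¹ * (a⁻¹ * b) * x s := by
    have : k ^ n = (a * x s)⁻¹ * (b * x s) := hn
    rw [this]
    group
  show (x s * k * (x s)⁻¹) ^ n = a⁻¹ * b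
  have h3 : (x s * k * (x s)⁻¹) ^ n = x s * k ^ n * (x s)⁻¹ := by
    rw [conj_zpow]
  rw [h3, h2]
  group

/-- **Theorem B**, first case. -/
theorem B_case_one {x : ι → G} {s : ι} {f f' : G →* Multiplicative ℤ} (h : Hyp x s f)
    (h' : Hyp (update x s (x s)⁻¹) s f') (hP : Pg x s ⊓ Pc x s = ⊥)
    (Y : ι → Finset G) (hY : cycIn x Y ≠ ⊥) :
    2 * Module.finrank ℚ (cycIn x Y) + 1 ≤ (Y s).card := by
  have hfd := finiteDimensional_cycIn x Y
  have hfd' := finiteDimensional_cycIn (update x s (x s)⁻¹) (revY x s Y)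
  have hpos : 0 < Module.finrank ℚ (cycIn x Y) := by
    rw [Module.finrank_pos_iff]
    exact (Submodule.nontrivial_iff_ne_bot).2 hY
  have hrev := finrank_rev x s Y hfd'
  have hY' : cycIn (update x s (x s)⁻¹) (revY x s Y) ≠ ⊥ := by
    intro h0
    rw [h0, finrank_bot] at hrev
    omega
  have hff : f'.ker = f.ker := by
    -- both characters are determined by the generators
    have h1 : ∀ g, f' g = (f g)⁻¹ := by
      have h2 : f' = f⁻¹ := by
        apply MonoidHom.eq_of_eqOn_dense h.gen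
        rintro _ ⟨t, rfl⟩
        rw [MonoidHom.inv_apply]
        by_cases ht : t = s
        · subst ht
          have h3 := h'.fs
          rw [update_self, map_inv] at h3
          rw [h.fs, ← inv_inj, h3, inv_inv]
        · have h3 := h'.ft t ht
          rw [update_of_ne ht] at h3
          rw [h3, h.ft t ht, inv_one]
      intro g
      rw [h2, MonoidHom.inv_apply]
    ext g
    rw [MonoidHom.mem_ker, MonoidHom.mem_ker, h1, inv_eq_one]
  rcases half_bound h Y hY with h1 | ⟨k, hk1, hk2, hk3, ⟨m, hm0, hm⟩, hk5⟩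
  · exact h1
  rcases half_bound h' (revY x s Y) hY' with h1 | ⟨k', hk1', hk2', hk3', ⟨m', hm0', hm'⟩, hk5'⟩
  · rw [card_revY] at h1
    omega
  rw [card_revY] at hk5'
  have h2 := numCos_rev x s Y k'
  rw [hff] at hk1'
  set kk := x s * k' * (x s)⁻¹ with hkk
  have hkk1 : kk ∈ f.ker := by
    rw [MonoidHom.mem_ker, hkk, map_mul, map_mul, (MonoidHom.mem_ker).1 hk1', map_inv]
    simp
  have hkk2 : kk ≠ 1 := by
    intro h0
    apply hk2'
    have h3 : (x s)⁻¹ * kk * x s = k' := by rw [hkk]; group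
    rw [← h3, h0]
    group
  have hkk3 : kk ^ m' ∈ Pg x s := by
    rw [mem_Pc_update] at hm'
    rwa [hkk, conj_zpow]
  by_cases hcomm : kk * k = k * kk
  · exfalso
    obtain ⟨j, hj⟩ := hk3 kk hkk1 hcomm
    have hj' : k ^ j = kk := hj
    have hj0 : j ≠ 0 := by
      intro h0
      rw [h0, zpow_zero] at hj'
      exact hkk2 hj'.symm
    have h4 : k ^ (j * m' * m) ∈ Pg x s ⊓ Pc x s := by
      constructor
      · rw [zpow_mul, zpow_mul, hj']
        exact zpow_mem hkk3 m
      · rw [mul_comm, zpow_mul]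
        exact zpow_mem hm _
    rw [hP, Subgroup.mem_bot] at h4
    exact pow_ne_one_of_free f.ker h.free hk1 hk2
      (mul_ne_zero (mul_ne_zero hj0 hm0') hm0) h4
  · have hfree := noncomm_free f.ker h.free hkk1 hk1 hcomm
    have hYne : (Y s).Nonempty := by
      rw [Finset.nonempty_iff_ne_empty]
      intro h0
      rw [h0, Finset.card_empty] at hk5
      omega
    have h5 := coset_forest _ hfree (Y s : Set G) (Finset.finite_toSet _) hYne
    rw [Fintype.sum_bool, Fintype.card_bool, Set.ncard_coe_finset] at h5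
    have h6 : (((fun g : G => (g : G ⧸ Subgroup.zpowers kk)) '' (Y s : Set G)).ncard : ℤ) =
      numCos (Subgroup.zpowers kk) (Y s) := rfl
    have h7 : (((fun g : G => (g : G ⧸ Subgroup.zpowers k)) '' (Y s : Set G)).ncard : ℤ) =
      numCos (Subgroup.zpowers k) (Y s) := rfl
    simp only [cond_true, cond_false] at h5
    rw [h6, h7] at h5
    push_cast at h5
    omega

theorem mem_Pc_iff (x : ι → G) (s : ι) (y : G) :
    y ∈ Pc x s ↔ (x s)⁻¹ * y * x s ∈ Pg x s := by
  rw [Pc_eq_map]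
  constructor
  · rintro ⟨p, hp, rfl⟩
    have : (x s)⁻¹ * ((MulAut.conj (x s)).toMonoidHom p) * x s = p := by
      show (x s)⁻¹ * (x s * p * (x s)⁻¹) * x s = p
      group
    rw [this]
    exact hp
  · intro hp
    refine ⟨_, hp, ?_⟩
    show x s * ((x s)⁻¹ * y * x s) * (x s)⁻¹ = y
    group

theorem Pc_le_ker {x : ι → G} {s : ι} {f : G →* Multiplicative ℤ}
    (ft : ∀ t, t ≠ s → f (x t) = 1) : Pc x s ≤ f.ker := by
  intro y hy
  rw [mem_Pc_iff] at hy
  have h1 : f ((x s)⁻¹ * y * x s) = 1 := Pg_le_ker ft hy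
  rw [MonoidHom.mem_ker]
  rw [map_mul, map_mul, map_inv, mul_comm, mul_inv_cancel_left] at h1
  exact h1

theorem el_sub_one_ne {c : G} (hc : c ≠ 1) : (el c - 1 : QG G) ≠ 0 := by
  intro h
  have h1 : (el c - 1 : QG G).coeff 1 = 0 := by rw [h]; rfl
  rw [← el_one, MonoidAlgebra.coeff_sub, Finsupp.sub_apply, el_coeff, el_coeff,
    Finsupp.single_eq_of_ne (by exact fun h => hc h.symm), Finsupp.single_eq_same] at h1
  norm_num at h1

/-- In the second case, for infinitely many `n` all elements with vanishing `Qn`- and `Pc`-sums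
have vanishing sums for the centralizer `⟨k⟩`. -/
theorem top_cyclic {x : ι → G} {s : ι} {f : G →* Multiplicative ℤ} (h : Hyp x s f)
    {c : G} (hc1 : c ≠ 1) (hcP : c ∈ Pg x s) (hcP' : c ∈ Pc x s) {k : G}
    (hk : ∀ y ∈ f.ker, y * c = c * y ↔ y ∈ Subgroup.zpowers k) (N : ℕ) :
    ∃ n ≥ N, ∀ y : QG G, ZS (Qn x s n) y → ZS (Pc x s) y → ZS (Subgroup.zpowers k) y := by
  classical
  have hcF : c ∈ f.ker := Pg_le_ker h.ft hcP
  have hc0 := el_sub_one_ne hc1
  have hcZ : ∀ n, ZS (Qn x s n) (el c - 1) := fun n => ZS_of_sub_one (Pg_le_Qn x s n hcP)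
  obtain ⟨n, hn, δ, hδ1, hδ2, hδ3, hδ⟩ :=
    top_principal h ⟨0, el c - 1, hc0, hcZ 0, ZS_of_sub_one hcP'⟩ N
  refine ⟨n, hn, ?_⟩
  obtain ⟨e, he⟩ := hδ (el c - 1) (hcZ n) (ZS_of_sub_one hcP')
  have hδ0 : δ ≠ 0 := by
    intro h0
    apply hc0
    rw [he, h0, mul_zero]
  have hcyc : ¬ NonCyc δ := by
    intro hnc
    have hfree : IsFreeGroup (Subgroup.closure
        {g | ∃ a b, δ.coeff a ≠ 0 ∧ δ.coeff b ≠ 0 ∧ g = a⁻¹ * b}) := by
      apply isFree_of_le h.free
      rw [Subgroup.closure_le]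
      rintro _ ⟨a, b, ha, hb, rfl⟩
      show f (a⁻¹ * b) = 1
      rw [map_mul, map_inv, hδ1 a ha, hδ1 b hb, inv_one, one_mul]
    have h1 := lemmaA δ hnc hfree {1, c} ⟨1, by simp⟩ (Submodule.span ℚ {el c - 1}) (by
      intro y hy
      obtain ⟨a, rfl⟩ := Submodule.mem_span_singleton.1 hy
      constructor
      · intro g hg
        by_contra hgn
        apply hg
        simp only [Finset.mem_insert, Finset.mem_singleton, not_or] at hgn
        rw [← el_one, MonoidAlgebra.coeff_smul, Finsupp.smul_apply, MonoidAlgebra.coeff_sub,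
          Finsupp.sub_apply, el_coeff, el_coeff, Finsupp.single_eq_of_ne hgn.2,
          Finsupp.single_eq_of_ne hgn.1, sub_self, smul_zero]
      · refine ⟨a • e, ?_⟩
        rw [smul_mul_assoc, ← he])
    rw [finrank_span_singleton hc0] at h1
    have h2 : ({1, c} : Finset G).card ≤ 2 := Finset.card_le_two
    omega
  obtain ⟨k₁, hk1, hk2, hk3, hk4, -, -⟩ :=
    cyclic_structure f.ker h.free (Pc x s) hδ0 (fun g hg => hδ1 g hg) hδ3 hcyc
  have hck : c ∈ Subgroup.zpowers k₁ := by
    apply mem_of_ZS_sub_one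
    rw [he]
    exact hk4.mul e
  have hk1k : k₁ ∈ Subgroup.zpowers k := by
    apply (hk k₁ hk1).1
    obtain ⟨j, hj⟩ := hck
    have : k₁ ^ j = c := hj
    rw [← this]
    exact ((Commute.refl k₁).zpow_right j).eq
  intro y hy1 hy2
  obtain ⟨e', he'⟩ := hδ y hy1 hy2
  have h1 : ZS (Subgroup.zpowers k₁) y := by
    rw [he']
    exact hk4.mul e'
  refine h1.mono ?_
  rw [Subgroup.zpowers_le]
  exact hk1k

/-- **Theorem B**, second case. -/
theorem B_case_two {x : ι → G} {s : ι} {f : G →* Multiplicative ℤ} (h : Hyp x s f)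
    (hP : Pg x s ⊓ Pc x s ≠ ⊥) :
    ∃ (k : G) (u v : FreeGroup {t : ι // t ≠ s}), k ≠ 1 ∧ Pg x s ⊓ Pc x s = Subgroup.zpowers k ∧
      FreeGroup.lift (fun t : {t : ι // t ≠ s} => x t) v = k ∧
      FreeGroup.lift (fun t : {t : ι // t ≠ s} => x t) u = (x s)⁻¹ * k * x s ∧
      cyc x = Submodule.span (QG G) {fox x (FreeGroup.of s *
        FreeGroup.map Subtype.val u * (FreeGroup.of s)⁻¹ * (FreeGroup.map Subtype.val v)⁻¹)} ∧
      fox x (FreeGroup.of s * FreeGroup.map Subtype.val u * (FreeGroup.of s)⁻¹ *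
        (FreeGroup.map Subtype.val v)⁻¹) s = 1 - el k := by
  classical
  obtain ⟨c, hcP, hcP', hc1⟩ : ∃ c, c ∈ Pg x s ∧ c ∈ Pc x s ∧ c ≠ 1 := by
    by_contra hcon
    push Not at hcon
    apply hP
    rw [Subgroup.eq_bot_iff_forall]
    intro y hy
    exact hcon y hy.1 hy.2
  have hcF : c ∈ f.ker := Pg_le_ker h.ft hcP
  obtain ⟨k, hkF, hk1, hk⟩ := centralizer_cyclic f.ker h.free hcF hc1
  have hck : c ∈ Subgroup.zpowers k := (hk c hcF).1 rfl
  obtain ⟨m, hm⟩ := hck
  have hm' : k ^ m = c := hm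
  have hm0 : m ≠ 0 := by
    intro h0
    rw [h0, zpow_zero] at hm'
    exact hc1 hm'.symm
  -- the characters for root closedness
  obtain ⟨χ, hχ⟩ := h.ab
  let R : Multiplicative (ι → ℤ) →* Multiplicative ({t : ι // t ≠ s} → ℤ) :=
    AddMonoidHom.toMultiplicative
      { toFun := fun v t => v t.1
        map_zero' := rfl
        map_add' := fun _ _ => rfl }
  have hR : ∀ t : {t : ι // t ≠ s}, (R.comp χ) (x t) = Multiplicative.ofAdd (Pi.single t 1) := by
    intro t
    rw [MonoidHom.comp_apply, hχ]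
    show Multiplicative.ofAdd (fun t' : {t : ι // t ≠ s} => (Pi.single t.1 (1 : ℤ) : ι → ℤ) t'.1) = _
    congr 1
    funext t'
    by_cases htt : t' = t
    · subst htt
      simp
    · rw [Pi.single_eq_of_ne (fun h => htt (Subtype.ext h)), Pi.single_eq_of_ne htt]
  have hPg : Pg x s = Subgroup.closure (Set.range (fun t : {t : ι // t ≠ s} => x t)) := by
    rw [Pg_eq_range, FreeGroup.range_lift_eq_closure]
  have hkP : k ∈ Pg x s := by
    rw [hPg]
    apply root_closed f.ker h.free _ (fun t => (MonoidHom.mem_ker).2 (h.ft t.1 t.2)) (R.comp χ) hR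
      k hkF m hm0
    rw [← hPg, hm']
    exact hcP
  have hPc : Pc x s = Subgroup.closure
      (Set.range (fun t : {t : ι // t ≠ s} => x s * x t * (x s)⁻¹)) := by
    unfold Pc
    congr 1
    ext g
    constructor
    · rintro ⟨t, ht, rfl⟩
      exact ⟨⟨t, ht⟩, rfl⟩
    · rintro ⟨t, rfl⟩
      exact ⟨t.1, t.2, rfl⟩
  have hkP' : k ∈ Pc x s := by
    rw [hPc]
    apply root_closed f.ker h.free _ _ (R.comp χ) _ k hkF m hm0
    · rw [← hPc, hm']
      exact hcP'
    · intro t
      rw [MonoidHom.mem_ker, map_mul, map_mul, h.ft t.1 t.2, map_inv, mul_one, mul_inv_cancel]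
    · intro t
      rw [map_mul, map_mul, map_inv, hR, mul_comm, inv_mul_cancel_left]
  have hPP : Pg x s ⊓ Pc x s = Subgroup.zpowers k := by
    apply le_antisymm
    · rintro y ⟨hy1, hy2⟩
      obtain ⟨n, -, hn⟩ := top_cyclic h hc1 hcP hcP' hk 0
      apply mem_of_ZS_sub_one
      exact hn _ (ZS_of_sub_one (Pg_le_Qn x s n hy1)) (ZS_of_sub_one hy2)
    · rw [Subgroup.zpowers_le]
      exact ⟨hkP, hkP'⟩
  have hv : k ∈ (FreeGroup.lift (fun t : {t : ι // t ≠ s} => x t)).range := by
    rw [← Pg_eq_range]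
    exact hkP
  have hu : (x s)⁻¹ * k * x s ∈ (FreeGroup.lift (fun t : {t : ι // t ≠ s} => x t)).range := by
    rw [← Pg_eq_range, ← mem_Pc_iff]
    exact hkP'
  obtain ⟨v, hv⟩ := hv
  obtain ⟨u, hu⟩ := hu
  have hlm : ∀ w : FreeGroup {t : ι // t ≠ s}, FreeGroup.lift x (FreeGroup.map Subtype.val w) =
      FreeGroup.lift (fun t : {t : ι // t ≠ s} => x t) w := by
    intro w
    have : (FreeGroup.lift x).comp (FreeGroup.map Subtype.val) =
        FreeGroup.lift (fun t : {t : ι // t ≠ s} => x t) := by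
      apply FreeGroup.ext_hom
      intro t
      simp
    exact DFunLike.congr_fun this w
  -- the `s`-component of words without `s`
  have hfs : ∀ w : FreeGroup {t : ι // t ≠ s}, fox x (FreeGroup.map Subtype.val w) s = 0 := by
    intro w
    have h1 : Crossed ((FreeGroup.lift x).comp (FreeGroup.map Subtype.val))
        (fun w : FreeGroup {t : ι // t ≠ s} => fox x (FreeGroup.map Subtype.val w) s) := by
      intro a b
      show fox x (FreeGroup.map Subtype.val (a * b)) s = _
      rw [map_mul, fox_crossed]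
      rfl
    have h2 := h1.mem ⊥ (fun t => by
      show fox x (FreeGroup.map Subtype.val (FreeGroup.of t)) s ∈ _
      rw [FreeGroup.map.of, fox_of, Pi.single_eq_of_ne (Ne.symm t.2)]
      exact Submodule.zero_mem _) w
    exact (Submodule.mem_bot _).1 h2
  set r : FreeGroup ι := FreeGroup.of s * FreeGroup.map Subtype.val u * (FreeGroup.of s)⁻¹ *
    (FreeGroup.map Subtype.val v)⁻¹ with hr
  have hr1 : FreeGroup.lift x r = 1 := by
    rw [hr, map_mul, map_mul, map_mul, map_inv, map_inv, hlm, hlm, hu, hv, FreeGroup.lift_apply_of]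
    group
  have hρ : fox x r ∈ cyc x := by
    rw [cyc, LinearMap.mem_ker, bdry_fox, hr1, el_one, sub_self]
  have hρs : fox x r s = 1 - el k := by
    have hc := fox_crossed x
    have e1 : fox x r = fox x (FreeGroup.of s) + el (x s) • fox x (FreeGroup.map Subtype.val u) +
        el (x s * ((x s)⁻¹ * k * x s)) • fox x (FreeGroup.of s)⁻¹ +
        el (x s * ((x s)⁻¹ * k * x s) * (x s)⁻¹) • fox x (FreeGroup.map Subtype.val v)⁻¹ := by
      rw [hr, hc, hc, hc, map_mul, map_mul, map_mul, map_inv, hlm, hu, FreeGroup.lift_apply_of]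
    have e2 : fox x (FreeGroup.of s)⁻¹ s = -(el (x s)⁻¹) := by
      rw [hc.inv, FreeGroup.lift_apply_of, fox_of]
      simp
    have e3 : fox x (FreeGroup.map Subtype.val v)⁻¹ s = 0 := by
      rw [← map_inv]
      exact hfs v⁻¹
    rw [e1]
    simp only [Pi.add_apply, Pi.smul_apply, hfs, e2, e3, smul_zero, add_zero, fox_of,
      Pi.single_eq_same]
    rw [smul_eq_mul, mul_neg, ← el_mul, ← sub_eq_add_neg]
    congr 2
    group
  refine ⟨k, u, v, hk1, hPP, hv, hu, ?_, hρs⟩
  apply le_antisymm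
  swap
  · rw [Submodule.span_singleton_le_iff_mem]
    exact hρ
  -- reduction of the levels
  have key : ∀ (lo : ℤ) (j : ℕ) (z : ι → QG G), z ∈ cyc x →
      (∀ g, (z s).coeff g ≠ 0 →
        lo < Multiplicative.toAdd (f g) ∧ Multiplicative.toAdd (f g) ≤ lo + j) →
      z ∈ Submodule.span (QG G) {fox x r} := by
    intro lo j
    induction j with
    | zero =>
      intro z hz hlev
      have hz0 : z s = 0 := by
        apply QG_eq_zero
        intro g
        by_contra hg
        have := hlev g hg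
        simp only [Nat.cast_zero, add_zero] at this
        omega
      rw [cyc_eq_zero h hz hz0]
      exact Submodule.zero_mem _
    | succ j ih =>
      intro z hz hlev
      set l : ℤ := lo + (j + 1 : ℕ) with hl
      set B : ℕ := (Finset.univ.biUnion (fun t => (z t).coeff.support)).sup
        (fun g => (Multiplicative.toAdd (f g)).natAbs) with hB
      have hbd : ∀ t g, (z t).coeff g ≠ 0 → (Multiplicative.toAdd (f g)).natAbs ≤ B := by
        intro t g hg
        exact Finset.le_sup (f := fun g => (Multiplicative.toAdd (f g)).natAbs)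
          (Finset.mem_biUnion.2 ⟨t, Finset.mem_univ t, Finsupp.mem_support_iff.2 hg⟩)
      obtain ⟨n, hn, hZ⟩ := top_cyclic h hc1 hcP hcP' hk (B + l.natAbs)
      have h1 := top_ZS h hz l n (fun g hg => (hlev g hg).2) (by
        intro t g hg
        have := hbd t g hg
        omega)
      obtain ⟨e, he⟩ := ZS_zpowers (hZ _ h1.1 h1.2)
      -- the part of level `l` of `e`
      have he2 : levelPart f l (z s) = levelPart f l e * (1 - el k) := by
        have hkf : f k = 1 := hkF
        refine MonoidAlgebra.ext (Finsupp.ext fun g => ?_)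
        have h2 : (levelPart f l (z s)).coeff g =
            if Multiplicative.toAdd (f g) = l then (levelPart f l (z s)).coeff g else 0 := by
          rw [levelPart_coeff]
          split_ifs <;> rfl
        rw [h2, he, mul_sub, mul_sub, mul_one, mul_one, MonoidAlgebra.coeff_sub,
          MonoidAlgebra.coeff_sub, Finsupp.sub_apply, Finsupp.sub_apply, mulel_coeff, mulel_coeff,
          levelPart_coeff, levelPart_coeff]
        have h3 : f (g * k⁻¹) = f g := by
          rw [map_mul, map_inv, hkf, inv_one, mul_one]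
        rw [h3]
        split_ifs <;> simp
      have h4 : z - levelPart f l e • fox x r ∈ Submodule.span (QG G) {fox x r} := by
        apply ih
        · exact (cyc x).sub_mem hz ((cyc x).smul_mem _ hρ)
        · intro g hg
          rw [Pi.sub_apply, Pi.smul_apply, hρs, smul_eq_mul, ← he2, MonoidAlgebra.coeff_sub,
            Finsupp.sub_apply, levelPart_coeff] at hg
          by_cases hgl : Multiplicative.toAdd (f g) = l
          · rw [if_pos hgl, sub_self] at hg
            exact absurd rfl hg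
          · rw [if_neg hgl, sub_zero] at hg
            have h5 := hlev g hg
            refine ⟨h5.1, ?_⟩
            have h6 := h5.2
            rw [hl] at hgl
            push_cast at *
            omega
      have h5 : z = (z - levelPart f l e • fox x r) + levelPart f l e • fox x r := by abel
      rw [h5]
      exact Submodule.add_mem _ h4 (Submodule.smul_mem _ _ (Submodule.mem_span_singleton_self _))
  intro z hz
  set B : ℕ := (z s).coeff.support.sup (fun g => (Multiplicative.toAdd (f g)).natAbs) with hB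
  have hbd : ∀ g, (z s).coeff g ≠ 0 → (Multiplicative.toAdd (f g)).natAbs ≤ B := by
    intro g hg
    exact Finset.le_sup (f := fun g => (Multiplicative.toAdd (f g)).natAbs)
      (Finsupp.mem_support_iff.2 hg)
  apply key (-(B : ℤ) - 1) (2 * B + 1) z hz
  intro g hg
  have := hbd g hg
  push_cast
  omega

end Sub

end Pool.Agent.SurfExact
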