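import Pool.Agent.SurfExact.PFive

/-!
# The generator of the relation module has an invertible matrix of linear parts
-/

set_option autoImplicit false

namespace Pool.Agent.SurfExact

open Function Pool.Agent.SurfGrowth
open scoped commutatorElement

section Inv

variable {H G : Type} [Group H] [Group G] (j : H →* G)

/-- `pushR` as a rational linear map -/
noncomputable def pushL : QG H →ₗ[ℚ] QG G where
  toFun := pushR j
  map_add' := map_add _
  map_smul' := fun c y => pushR_smul j c y

/-- functions invariant under left multiplication by the image of `j` -/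
def RInv {M : Type} (θ : G → M) : Prop := ∀ h γ, θ (j h * γ) = θ γ

variable {j}

theorem RInv.shift {M : Type} {θ : G → M} (hθ : RInv j θ) (δ : G) :
    RInv j (fun γ => θ (γ * δ)) := by
  intro h γ
  show θ (j h * γ * δ) = θ (γ * δ)
  rw [mul_assoc, hθ]

/-- pairing with an invariant function only sees the augmentation of the image of `H` -/
theorem RInv.pairL_push_mul {θ : G → ℚ} (hθ : RInv j θ) (a : QG H) (y : QG G) :
    pairL θ (pushR j a * y) = augL a * pairL θ y := by
  have h : (pairL θ).comp ((LinearMap.mulRight ℚ y).comp (pushL j)) =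
      (augL (G := H)).smulRight (pairL θ y) := by
    apply linext
    intro h
    show pairL θ (pushR j (el h) * y) = _
    rw [pushR_el, pairL_elmul, LinearMap.smulRight_apply, augL_el, one_smul]
    congr 2
    funext γ
    exact hθ h γ
  exact LinearMap.congr_fun h a

/-- If an element of the group ring has constant sums over the right cosets of the image of `j`
and augmentation zero, then it pairs to zero with all invariant functions. -/
theorem inv_zero (c : QG G)
    (hconst : ∀ θ : G → ℚ, RInv j θ → ∀ δ, pairL (fun γ => θ (γ * δ)) c = pairL θ c)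
    (haug : augL c = 0) {M : Type} [AddCommGroup M] [Module ℚ M] (θ : G → M) (hθ : RInv j θ) :
    pairL θ c = 0 := by
  classical
  let R := QuotientGroup.rightRel j.range
  let q : G → Quotient R := Quotient.mk R
  have hq : ∀ a b, q a = q b ↔ b * a⁻¹ ∈ j.range := by
    intro a b
    show Quotient.mk R a = Quotient.mk R b ↔ _
    rw [Quotient.eq]
    exact QuotientGroup.rightRel_apply
  let cb : Quotient R →₀ ℚ := Finsupp.mapDomain q c.coeff
  -- the indicator functions of the cosets
  let ind : G → G → ℚ := fun γ₀ γ => if q γ = q γ₀ then 1 else 0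
  have hind : ∀ γ₀, RInv j (ind γ₀) := by
    intro γ₀ h γ
    have : q (j h * γ) = q γ := by
      rw [hq]
      refine ⟨h⁻¹, ?_⟩
      rw [map_inv]
      group
    simp only [ind, this]
  have hcb : ∀ γ₀, cb (q γ₀) = pairL (ind γ₀) c := by
    intro γ₀
    rw [pairL_apply]
    simp only [cb]
    rw [Finsupp.mapDomain, Finsupp.sum, Finsupp.finsetSum_apply, Finsupp.sum]
    refine Finset.sum_congr rfl fun γ _ => ?_
    rw [Finsupp.single_apply]
    simp only [ind]
    split_ifs <;> simp
  have hshift : ∀ γ₀, pairL (ind γ₀) c = pairL (ind 1) c := by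
    intro γ₀
    rw [← hconst (ind 1) (hind 1) γ₀⁻¹]
    congr 2
    funext γ
    have : (q γ = q γ₀) ↔ (q (γ * γ₀⁻¹) = q 1) := by
      rw [hq, hq]
      constructor
      · rintro ⟨h, hh⟩
        exact ⟨h, by rw [hh]; group⟩
      · rintro ⟨h, hh⟩
        exact ⟨h, by rw [hh]; group⟩
    simp only [ind, this]
  set κ : ℚ := pairL (ind 1) c with hκ
  have hcb' : ∀ p, cb p = κ := by
    intro p
    obtain ⟨γ₀, rfl⟩ := Quotient.exists_rep p
    rw [← hshift γ₀]
    exact hcb γ₀
  have hsum : cb.sum (fun _ r => r) = 0 := by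
    have h1 : cb.sum (fun _ r => r) = c.coeff.sum (fun _ r => r) := by
      simp only [cb]
      rw [Finsupp.sum_mapDomain_index (by simp) (by simp)]
    rw [h1, ← haug]
    unfold augL
    rw [pairL_apply]
    refine Finsupp.sum_congr fun _ _ => ?_
    simp
  have hκ0 : κ = 0 := by
    by_contra hne
    have h1 : cb.sum (fun _ r => r) = cb.support.card * κ := by
      rw [Finsupp.sum, Finset.sum_congr rfl (fun p _ => hcb' p), Finset.sum_const, nsmul_eq_mul]
    rw [hsum] at h1
    have h2 : (cb.support.card : ℚ) ≠ 0 := by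
      have : q 1 ∈ cb.support := by
        rw [Finsupp.mem_support_iff, hcb']
        exact hne
      have h3 : 0 < cb.support.card := Finset.card_pos.mpr ⟨_, this⟩
      exact_mod_cast h3.ne'
    rcases mul_eq_zero.mp h1.symm with h | h
    · exact h2 h
    · exact hne h
  have hcb0 : cb = 0 := by
    ext p
    rw [hcb', hκ0]
    rfl
  let Θ : Quotient R → M := Quotient.lift θ (by
    intro a b hab
    have h1 : b * a⁻¹ ∈ j.range := QuotientGroup.rightRel_apply.1 hab
    obtain ⟨h, hh⟩ := h1
    have : b = j h * a := by rw [hh]; group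
    rw [this, hθ])
  have h1 : cb.sum (fun p r => r • Θ p) = 0 := by
    rw [hcb0]
    exact Finsupp.sum_zero_index
  simp only [cb] at h1
  rw [Finsupp.sum_mapDomain_index (by simp) (by intros; rw [add_smul])] at h1
  rw [pairL_apply]
  exact h1

end Inv

section Rel

variable {g : ℕ}

theorem fox_list_prod_zero {G : Type*} [Group G] {ι : Type*} [Fintype ι] [DecidableEq ι]
    (x : ι → G) (y : ι) (l : List (FreeGroup ι)) (h : ∀ w ∈ l, fox x w y = 0) :
    fox x l.prod y = 0 := by
  induction l with
  | nil => rw [List.prod_nil, (fox_crossed x).one]; rfl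
  | cons w l ih =>
    rw [List.prod_cons, fox_crossed x w l.prod, Pi.add_apply, Pi.smul_apply,
      h w List.mem_cons_self, ih (fun v hv => h v (List.mem_cons_of_mem _ hv))]
    simp

theorem fox_comm {G : Type*} [Group G] {ι : Type*} [Fintype ι] [DecidableEq ι]
    (x : ι → G) (a b y : ι) :
    fox x ⁅FreeGroup.of a, FreeGroup.of b⁆ y =
      (1 - el (x a * x b * (x a)⁻¹)) * (Pi.single a 1 : ι → QG G) y +
        (el (x a) - el (x a * x b * (x a)⁻¹ * (x b)⁻¹)) * (Pi.single b 1 : ι → QG G) y := by
  rw [commutatorElement_def, fox_crossed x, fox_crossed x, fox_crossed x, (fox_crossed x).inv,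
    (fox_crossed x).inv, fox_of, fox_of]
  simp only [map_mul, map_inv, FreeGroup.lift_apply_of, Pi.add_apply, Pi.smul_apply, Pi.neg_apply,
    smul_eq_mul, el_mul]
  noncomm_ring

/-- The relations satisfied by an element `c` killing the Fox row of the surface relator in a
module of invariants. -/
theorem fox_rel_eq (i : Fin g) (b : Bool) :
    fox (SurfaceGroup.gen (g := g)) (surfaceRel g) (i, b) =
      el (FreeGroup.lift SurfaceGroup.gen ((List.ofFn (fun k : Fin g =>
        ⁅(FreeGroup.of (k, false) : FreeGroup (Fin g × Bool)), FreeGroup.of (k, true)⁆)).take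
          i.1).prod) *
        fox SurfaceGroup.gen
          ⁅(FreeGroup.of (i, false) : FreeGroup (Fin g × Bool)), FreeGroup.of (i, true)⁆ (i, b) := by
  set L : List (FreeGroup (Fin g × Bool)) := List.ofFn (fun k : Fin g =>
    ⁅(FreeGroup.of (k, false) : FreeGroup (Fin g × Bool)), FreeGroup.of (k, true)⁆) with hL
  have hlen : i.1 < L.length := by rw [hL, List.length_ofFn]; exact i.2
  have hval : ∀ (k : ℕ) (hk : k < L.length), L[k] =
      ⁅(FreeGroup.of ((⟨k, by simpa [hL] using hk⟩ : Fin g), false) : FreeGroup (Fin g × Bool)),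
        FreeGroup.of (⟨k, by simpa [hL] using hk⟩, true)⁆ := by
    intro k hk
    simp only [hL, List.getElem_ofFn]
  have h1 : surfaceRel g = (L.take i.1).prod * (L[i.1] * (L.drop (i.1 + 1)).prod) := by
    rw [← List.prod_cons, ← List.drop_eq_getElem_cons hlen, List.prod_take_mul_prod_drop]
    rfl
  have h2 : ∀ k : Fin g, k ≠ i → fox (SurfaceGroup.gen (g := g))
      ⁅(FreeGroup.of (k, false) : FreeGroup (Fin g × Bool)), FreeGroup.of (k, true)⁆ (i, b) = 0 := by
    intro k hk
    rw [fox_comm, Pi.single_eq_of_ne (by simp [Ne.symm hk]), Pi.single_eq_of_ne (by simp [Ne.symm hk])]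
    simp
  have h3 : fox (SurfaceGroup.gen (g := g)) (L.take i.1).prod (i, b) = 0 := by
    apply fox_list_prod_zero
    intro w hw
    obtain ⟨k, hk, rfl⟩ := List.mem_take_iff_getElem.mp hw
    rw [hval]
    apply h2
    intro h
    rw [← h] at hk
    simp at hk
  have h4 : fox (SurfaceGroup.gen (g := g)) (L.drop (i.1 + 1)).prod (i, b) = 0 := by
    apply fox_list_prod_zero
    intro w hw
    obtain ⟨k, hk, rfl⟩ := List.mem_drop_iff_getElem.mp hw
    rw [hval]
    apply h2
    intro h
    have := congrArg Fin.val h
    simp at this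
    omega
  refine (congrFun (congrArg (fox (SurfaceGroup.gen (g := g))) h1) (i, b)).trans ?_
  rw [fox_crossed, Pi.add_apply, Pi.smul_apply, fox_crossed, Pi.add_apply, Pi.smul_apply, h3,
    h4, smul_zero, add_zero, zero_add, hval]
  rfl

/-- invariance of the pairings of `c` under right translation -/
def Stab {H : Type} [Group H] (j : H →* SurfaceGroup g) (c : QG (SurfaceGroup g)) :
    Subgroup (SurfaceGroup g) where
  carrier := {δ | ∀ θ : SurfaceGroup g → ℚ, RInv j θ → pairL (fun γ => θ (γ * δ)) c = pairL θ c}
  one_mem' := by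
    intro θ _
    simp
  mul_mem' := by
    intro a b ha hb θ hθ
    have h1 := ha (fun γ => θ (γ * b)) (hθ.shift b)
    have h2 := hb θ hθ
    rw [← h2, ← h1]
    congr 2
    funext γ
    rw [mul_assoc]
  inv_mem' := by
    intro a ha θ hθ
    have h1 := ha (fun γ => θ (γ * a⁻¹)) (hθ.shift a⁻¹)
    rw [← h1]
    congr 2
    funext γ
    rw [mul_assoc, mul_inv_cancel, mul_one]

theorem stab_top {H : Type} [Group H] (j : H →* SurfaceGroup g) (c : QG (SurfaceGroup g))
    (hc : ∀ θ : SurfaceGroup g → ℚ, RInv j θ → ∀ y,
      pairL θ (c * fox SurfaceGroup.gen (surfaceRel g) y) = 0) : Stab j c = ⊤ := by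
  have hgen : ∀ n : ℕ, ∀ i : Fin g, i.1 < n → ∀ b, SurfaceGroup.gen (i, b) ∈ Stab j c := by
    intro n
    induction n with
    | zero => intro i hi; omega
    | succ n ih =>
      intro i hi
      rcases Nat.lt_succ_iff_lt_or_eq.mp hi with hlt | heq
      · exact ih i hlt
      · -- the prefix lies in the stabiliser
        set p : SurfaceGroup g := FreeGroup.lift SurfaceGroup.gen ((List.ofFn (fun k : Fin g =>
          ⁅(FreeGroup.of (k, false) : FreeGroup (Fin g × Bool)), FreeGroup.of (k, true)⁆)).take
            i.1).prod with hp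
        have hpS : p ∈ Stab j c := by
          rw [hp, map_list_prod]
          apply Subgroup.list_prod_mem
          intro w hw
          rw [List.mem_map] at hw
          obtain ⟨v, hv, rfl⟩ := hw
          obtain ⟨k, hk, rfl⟩ := List.mem_take_iff_getElem.mp hv
          rw [List.getElem_ofFn, map_commutatorElement, FreeGroup.lift_apply_of,
            FreeGroup.lift_apply_of]
          have hk' : k < n := by
            rw [← heq]
            simp at hk
            omega
          rw [commutatorElement_def]
          exact (Stab j c).mul_mem ((Stab j c).mul_mem ((Stab j c).mul_mem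
            (ih _ hk' false) (ih _ hk' true)) ((Stab j c).inv_mem (ih _ hk' false)))
            ((Stab j c).inv_mem (ih _ hk' true))
        set a : SurfaceGroup g := SurfaceGroup.gen (i, false) with ha
        set b : SurfaceGroup g := SurfaceGroup.gen (i, true) with hb
        have e1 : ∀ θ : SurfaceGroup g → ℚ, RInv j θ →
            pairL (fun γ => θ (γ * (p * (a * b * a⁻¹)))) c = pairL (fun γ => θ (γ * p)) c := by
          intro θ hθ
          have h1 := hc θ hθ (i, false)
          rw [fox_rel_eq, fox_comm, Pi.single_eq_same, Pi.single_eq_of_ne (by simp), mul_zero,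
            add_zero, mul_one, mul_sub, mul_one, mul_sub, ← mul_assoc, map_sub, ← hp, ← ha, ← hb,
            pairL_mulel, mul_assoc c, ← el_mul, pairL_mulel] at h1
          linarith
        have e2 : ∀ θ : SurfaceGroup g → ℚ, RInv j θ →
            pairL (fun γ => θ (γ * (p * a))) c =
              pairL (fun γ => θ (γ * (p * (a * b * a⁻¹ * b⁻¹)))) c := by
          intro θ hθ
          have h1 := hc θ hθ (i, true)
          rw [fox_rel_eq, fox_comm, Pi.single_eq_same, Pi.single_eq_of_ne (by simp), mul_zero,
            zero_add, mul_one, mul_sub, mul_sub, map_sub, ← hp, ← ha, ← hb, ← el_mul, ← el_mul,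
            pairL_mulel, pairL_mulel] at h1
          linarith
        -- `B = a b a⁻¹` stabilises
        have hB : a * b * a⁻¹ ∈ Stab j c := by
          have : p * (a * b * a⁻¹) ∈ Stab j c := by
            intro θ hθ
            rw [e1 θ hθ]
            exact hpS θ hθ
          have h2 := (Stab j c).mul_mem ((Stab j c).inv_mem hpS) this
          rwa [inv_mul_cancel_left] at h2
        -- `a * b ∈ Stab`
        have hab : a * b ∈ Stab j c := by
          intro θ hθ
          -- `c a = c a b a⁻¹ b⁻¹ = c b⁻¹` in invariants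
          have h1 := e2 (fun γ => θ (γ * b)) (hθ.shift b)
          have h2 := (Stab j c).mul_mem hpS hB θ hθ
          have h3 : (fun γ => θ (γ * (p * (a * b * a⁻¹)))) =
              fun γ => θ (γ * (p * (a * b * a⁻¹ * b⁻¹)) * b) := by
            funext γ
            congr 1
            group
          rw [h3] at h2
          rw [← h1] at h2
          -- remove the prefix
          have h4 : pairL (fun γ => θ (γ * (p * a) * b)) c =
              pairL (fun γ => θ (γ * (a * b))) c := by
            have h5 := hpS (fun γ => θ (γ * (a * b))) (hθ.shift _)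
            rw [← h5]
            congr 2
            funext γ
            congr 1
            group
          rw [h4] at h2
          exact h2
        have ha' : a ∈ Stab j c := by
          have h1 := (Stab j c).mul_mem ((Stab j c).inv_mem hB) hab
          have h2 : (a * b * a⁻¹)⁻¹ * (a * b) = a := by group
          rwa [h2] at h1
        have hb' : b ∈ Stab j c := by
          have h1 := (Stab j c).mul_mem ((Stab j c).inv_mem ha') hab
          rwa [inv_mul_cancel_left] at h1
        intro b0
        cases b0
        · exact ha'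
        · exact hb'
  rw [eq_top_iff]
  intro γ _
  have h1 : γ ∈ Subgroup.closure (Set.range (PresentedGroup.of
      (rels := ({surfaceRel g} : Set (FreeGroup (Fin g × Bool)))))) := by
    rw [PresentedGroup.closure_range_of]
    trivial
  have h2 : Subgroup.closure (Set.range (PresentedGroup.of
      (rels := ({surfaceRel g} : Set (FreeGroup (Fin g × Bool)))))) ≤ Stab j c := by
    rw [Subgroup.closure_le]
    rintro _ ⟨⟨i, b⟩, rfl⟩
    exact hgen g i i.2 b
  exact h2 h1

end Rel

section Retract

variable {H G : Type} [Group H] [Group G]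

/-- equivariant coset coordinates -/
theorem exists_coset_coord (j : H →* G) (hj : Injective j) :
    ∃ κ : G → H, (∀ h γ, κ (j h * γ) = h * κ γ) ∧ κ 1 = 1 := by
  classical
  let R := QuotientGroup.rightRel j.range
  let rep : G → G := fun γ => (Quotient.mk R γ).out
  have hrep : ∀ γ, γ * (rep γ)⁻¹ ∈ j.range := by
    intro γ
    have h1 : Quotient.mk R (rep γ) = Quotient.mk R γ := Quotient.out_eq _
    rw [Quotient.eq] at h1
    exact QuotientGroup.rightRel_apply.1 h1
  choose κ' hκ' using hrep
  have hrep' : ∀ h γ, rep (j h * γ) = rep γ := by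
    intro h γ
    show (Quotient.mk R (j h * γ)).out = (Quotient.mk R γ).out
    congr 1
    rw [Quotient.eq]
    refine QuotientGroup.rightRel_apply.2 ⟨h⁻¹, ?_⟩
    rw [map_inv]
    group
  have h1 : ∀ h γ, κ' (j h * γ) = h * κ' γ := by
    intro h γ
    apply hj
    rw [hκ', map_mul, hκ', hrep', mul_assoc]
  refine ⟨fun γ => κ' γ * (κ' 1)⁻¹, ?_, ?_⟩
  · intro h γ
    show κ' (j h * γ) * (κ' 1)⁻¹ = h * (κ' γ * (κ' 1)⁻¹)
    rw [h1, mul_assoc]
  · show κ' 1 * (κ' 1)⁻¹ = 1
    rw [mul_inv_cancel]

theorem pairL_comp {M N : Type*} [AddCommGroup M] [Module ℚ M] [AddCommGroup N] [Module ℚ N]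
    (L : M →ₗ[ℚ] N) (ψ : G → M) (y : QG G) : pairL (fun γ => L (ψ γ)) y = L (pairL ψ y) := by
  have h : pairL (fun γ => L (ψ γ)) = L.comp (pairL ψ) := by
    apply linext
    intro γ
    rw [pairL_el, LinearMap.comp_apply, pairL_el]
  rw [h]
  rfl

theorem pairL_sub_fun {M : Type*} [AddCommGroup M] [Module ℚ M] (ψ ψ' : G → M) (y : QG G) :
    pairL (fun γ => ψ γ - ψ' γ) y = pairL ψ y - pairL ψ' y := by
  have h : pairL (fun γ => ψ γ - ψ' γ) = pairL ψ - pairL ψ' := by
    apply linext
    intro γ
    rw [LinearMap.sub_apply, pairL_el, pairL_el, pairL_el]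
  rw [h]
  rfl

end Retract

section Main

variable {g : ℕ} {H : Type} [Group H] {ι : Type} [Fintype ι] [DecidableEq ι]

/-- left multiplication as a rational linear map on a module -/
noncomputable def lsm {M : Type*} [AddCommGroup M] [Module (QG H) M] [Module ℚ M]
    [IsScalarTower ℚ (QG H) M] [SMulCommClass ℚ (QG H) M] (a : QG H) : M →ₗ[ℚ] M where
  toFun := fun m => a • m
  map_add' := smul_add a
  map_smul' := fun c m => smul_comm a c m

/-- **The generator of the relation module has nonzero linear parts.** -/
theorem omega_unit (j : H →* SurfaceGroup g) (hj : Injective j) (hι : Fintype.card ι = 2 * g)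
    (x : ι → H) (hx : Subgroup.closure (Set.range x) = ⊤)
    (hind : LinearIndependent ℚ (fun i => Multiplicative.toAdd (SurfaceGroup.ab (j (x i)))))
    (χ : H →* Multiplicative (ι → ℤ))
    (hχ : ∀ t, χ (x t) = Multiplicative.ofAdd (Pi.single t 1))
    {ρ : ι → QG H} (hρ : cyc x = Submodule.span (QG H) {ρ})
    (hcancel : ∀ a : QG H, a • ρ = 0 → a = 0) :
    IsUnit (Matrix.of (fun i k => pairL (fun h => ((Multiplicative.toAdd (χ h) k : ℤ) : ℚ)) (ρ i)) :
      Matrix ι ι ℚ) := by
  have hρc : ρ ∈ cyc x := by
    rw [hρ]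
    exact Submodule.mem_span_singleton_self ρ
  obtain ⟨w, c, hw, hc, -, h2⟩ := p5_core j hι x hx hind χ hχ hρc
  apply h2
  intro hc0
  have haug := aug_cyc j x hind hρc
  -- `c` pairs to zero with all invariant functions
  have hkill : ∀ θ : SurfaceGroup g → ℚ, RInv j θ → ∀ y,
      pairL θ (c * fox SurfaceGroup.gen (surfaceRel g) y) = 0 := by
    intro θ hθ y
    rw [← hc y, map_sum]
    apply Finset.sum_eq_zero
    intro i _
    rw [hθ.pairL_push_mul, haug, zero_mul]
  have hstab := stab_top j c hkill
  have hzero : ∀ θ : SurfaceGroup g → ℚ, RInv j θ → pairL θ c = 0 := by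
    intro θ hθ
    apply inv_zero c _ hc0 θ hθ
    intro θ hθ δ
    have : δ ∈ Stab j c := by rw [hstab]; trivial
    exact this θ hθ
  -- the retraction
  obtain ⟨κ, hκ, hκ1⟩ := exists_coset_coord j hj
  have hW : ∀ h : H, ∃ v : FreeGroup ι, FreeGroup.lift x v = h := by
    intro h
    have h1 : h ∈ (FreeGroup.lift x).range := by
      rw [FreeGroup.range_lift_eq_closure, hx]
      trivial
    exact h1
  choose W hW using hW
  let p : SurfaceGroup g → (Fin g × Bool) → (ι → QG H) := fun γ y =>
    el (κ γ) • fox x (W ((κ γ)⁻¹ * κ (γ * SurfaceGroup.gen y)))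
  have hp : ∀ h γ y, p (j h * γ) y = el h • p γ y := by
    intro h γ y
    simp only [p]
    rw [mul_assoc (j h), hκ, hκ, smul_smul, ← el_mul]
    congr 3
    group
  have hbp : ∀ γ y, bdry x (p γ y) = el (κ (γ * SurfaceGroup.gen y)) - el (κ γ) := by
    intro γ y
    simp only [p]
    rw [map_smul, bdry_fox, hW, smul_eq_mul, mul_sub, mul_one, ← el_mul, mul_inv_cancel_left]
  let ψ : ((Fin g × Bool) → QG (SurfaceGroup g)) →ₗ[ℚ] (ι → QG H) :=
    ∑ y, (pairL (fun γ => p γ y)).comp (LinearMap.proj y)
  have hψ : ∀ v, ψ v = ∑ y, pairL (fun γ => p γ y) (v y) := by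
    intro v
    simp only [ψ, LinearMap.sum_apply, LinearMap.comp_apply, LinearMap.proj_apply]
  have hψ1 : ∀ (a : QG H) (v : (Fin g × Bool) → QG (SurfaceGroup g)),
      ψ (pushR j a • v) = a • ψ v := by
    intro a v
    have h1 : ∀ y, (pairL (fun γ => p γ y)).comp ((LinearMap.mulRight ℚ (v y)).comp (pushL j)) =
        (LinearMap.toSpanSingleton (QG H) (ι → QG H)
          (pairL (fun γ => p γ y) (v y))).restrictScalars ℚ := by
      intro y
      apply linext
      intro h
      show pairL (fun γ => p γ y) (pushR j (el h) * v y) = el h • pairL (fun γ => p γ y) (v y)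
      rw [pushR_el, pairL_elmul]
      have h2 : (fun γ => p (j h * γ) y) = fun γ => lsm (el h) (p γ y) := by
        funext γ
        exact hp h γ y
      rw [h2, pairL_comp]
      rfl
    rw [hψ, hψ, Finset.smul_sum]
    refine Finset.sum_congr rfl fun y _ => ?_
    exact LinearMap.congr_fun (h1 y) a
  have hψ2 : ∀ v, bdry x (ψ v) = pairL (fun γ => el (κ γ)) (bdry SurfaceGroup.gen v) := by
    intro v
    rw [hψ, map_sum, bdry_apply, map_sum]
    refine Finset.sum_congr rfl fun y _ => ?_
    have h1 : bdry x (pairL (fun γ => p γ y) (v y)) =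
        pairL (fun γ => (bdry x).restrictScalars ℚ (p γ y)) (v y) := by
      rw [pairL_comp]
      rfl
    rw [h1]
    have h2 : (fun γ => (bdry x).restrictScalars ℚ (p γ y)) =
        fun γ => el (κ (γ * SurfaceGroup.gen y)) - el (κ γ) := by
      funext γ
      exact hbp γ y
    rw [h2, pairL_sub_fun, mul_sub, mul_one, map_sub, pairL_mulel]
  -- the coefficients
  have hb : ∀ i, ∃ b : QG H, b • ρ = ψ (fox SurfaceGroup.gen (w i)) - Pi.single i 1 := by
    intro i
    rw [← Submodule.mem_span_singleton, ← hρ]
    unfold cyc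
    rw [LinearMap.mem_ker, map_sub, hψ2, bdry_fox, hw, bdry_single, one_mul, map_sub, pairL_el,
      ← el_one, pairL_el, hκ1]
    have : κ (j (x i)) = x i := by
      have := hκ (x i) 1
      rwa [mul_one, hκ1, mul_one] at this
    rw [this, el_one, sub_self]
  choose b hb using hb
  have hu : ∀ γ : SurfaceGroup g, ∃ u : QG H,
      u • ρ = ψ (el γ • fox SurfaceGroup.gen (surfaceRel g)) := by
    intro γ
    rw [← Submodule.mem_span_singleton, ← hρ]
    unfold cyc
    rw [LinearMap.mem_ker, hψ2, map_smul]
    have h1 : bdry (SurfaceGroup.gen (g := g)) (fox SurfaceGroup.gen (surfaceRel g)) = 0 := by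
      have h3 : fox SurfaceGroup.gen (surfaceRel g) ∈ cyc (SurfaceGroup.gen (g := g)) := by
        rw [cyc_gen]
        exact Submodule.mem_span_singleton_self _
      exact h3
    rw [h1, smul_zero, map_zero]
  choose u hu using hu
  have huh : ∀ h γ, u (j h * γ) = el h * u γ := by
    intro h γ
    apply eq_of_sub_eq_zero
    apply hcancel
    rw [sub_smul, mul_smul, hu, hu, el_mul, mul_smul, ← pushR_el, hψ1, sub_self]
  have hright : ψ (c • fox SurfaceGroup.gen (surfaceRel g)) = pairL u c • ρ := by
    have h1 : ψ.comp ((LinearMap.toSpanSingleton (QG (SurfaceGroup g))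
        ((Fin g × Bool) → QG (SurfaceGroup g))
          (fox SurfaceGroup.gen (surfaceRel g))).restrictScalars ℚ) =
        ((LinearMap.toSpanSingleton (QG H) (ι → QG H) ρ).restrictScalars ℚ).comp (pairL u) := by
      apply linext
      intro γ
      show ψ (el γ • fox SurfaceGroup.gen (surfaceRel g)) = pairL u (el γ) • ρ
      rw [pairL_el, hu]
    exact LinearMap.congr_fun h1 c
  have hleft : ψ (c • fox SurfaceGroup.gen (surfaceRel g)) = (1 + ∑ i, ρ i * b i) • ρ := by
    have h1 : c • fox SurfaceGroup.gen (surfaceRel g) =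
        ∑ i, pushR j (ρ i) • fox (SurfaceGroup.gen (g := g)) (w i) := by
      funext y
      rw [Finset.sum_apply, Pi.smul_apply, smul_eq_mul, ← hc y]
      rfl
    rw [h1, map_sum]
    have h3 : ∀ i, ψ (pushR j (ρ i) • fox (SurfaceGroup.gen (g := g)) (w i)) =
        ρ i • (Pi.single i 1 : ι → QG H) + (ρ i * b i) • ρ := by
      intro i
      rw [hψ1, mul_smul, hb, smul_sub]
      abel
    rw [Finset.sum_congr rfl (fun i _ => h3 i), Finset.sum_add_distrib, add_smul, one_smul,
      ← Finset.sum_smul]
    congr 1
    funext k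
    rw [Finset.sum_apply, Finset.sum_eq_single k]
    · simp
    · intro i _ hi
      simp [Pi.single_eq_of_ne hi.symm]
    · simp
  have heq : pairL u c = 1 + ∑ i, ρ i * b i := by
    apply eq_of_sub_eq_zero
    apply hcancel
    rw [sub_smul, ← hright, ← hleft, sub_self]
  have h0 : augL (pairL u c) = 0 := by
    rw [← pairL_comp]
    apply hzero
    intro h γ
    show augL (u (j h * γ)) = augL (u γ)
    rw [huh, augL_el_mul]
  have h1 : augL (1 + ∑ i, ρ i * b i) = 1 := by
    rw [map_add, map_sum, ← el_one, augL_el]
    rw [Finset.sum_eq_zero]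
    · rw [add_zero]
    · intro i _
      rw [augL_mul, haug, zero_mul]
  rw [heq, h1] at h0
  exact one_ne_zero h0

end Main

end Pool.Agent.SurfExact
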