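import Pool.Agent.SurfExact.DefsA
import Pool.Agent.SurfExact.OmegaNZ

/-!
# The linear parts of cycles: `omega_dichotomy` and the generator of the relation module
-/

set_option autoImplicit false

namespace Pool.Agent.SurfExact

open Function Pool.Agent.SurfGrowth

theorem omegaRow_apply {G : Type*} [Group G] {ι : Type*} [Fintype ι] [DecidableEq ι]
    (χ : G →* Multiplicative (ι → ℤ)) (y : QG G) (i : ι) :
    omegaRow χ y i = pairL (fun h => ((Multiplicative.toAdd (χ h) i : ℤ) : ℚ)) y := by
  have h : (LinearMap.proj (R := ℚ) (φ := fun _ : ι => ℚ) i).comp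
      (pairL (fun g => fun i => ((Multiplicative.toAdd (χ g) i : ℤ) : ℚ))) =
      pairL (fun h => ((Multiplicative.toAdd (χ h) i : ℤ) : ℚ)) := by
    apply linext
    intro g
    rw [LinearMap.comp_apply, pairL_el, pairL_el]
    rfl
  exact LinearMap.congr_fun h y

theorem omegaRow_matrix {G : Type*} [Group G] {ι : Type*} [Fintype ι] [DecidableEq ι]
    (χ : G →* Multiplicative (ι → ℤ)) (z : ι → QG G) :
    (Matrix.of (fun i k => pairL (fun h => ((Multiplicative.toAdd (χ h) k : ℤ) : ℚ)) (z i)) :
      Matrix ι ι ℚ) = Matrix.of (fun s => omegaRow χ (z s)) := by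
  ext i k
  rw [Matrix.of_apply, Matrix.of_apply, omegaRow_apply]

theorem omega_dichotomy {g : ℕ} {H : Type} [Group H] (j : H →* SurfaceGroup g) {ι : Type}
    [Fintype ι] [DecidableEq ι] (hι : Fintype.card ι = 2 * g) (x : ι → H)
    (hx : Subgroup.closure (Set.range x) = ⊤)
    (hind : LinearIndependent ℚ (fun i => Multiplicative.toAdd (SurfaceGroup.ab (j (x i)))))
    (χ : H →* Multiplicative (ι → ℤ)) (hχ : ∀ t, χ (x t) = Multiplicative.ofAdd (Pi.single t 1))
    (z : ι → QG H) (hz : z ∈ cyc x) :
    (∀ s, omegaRow χ (z s) = 0) ∨ LinearIndependent ℚ (fun s => omegaRow χ (z s)) := by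
  have h := p5 j hι x hx hind χ hχ hz
  rw [omegaRow_matrix] at h
  rcases h with h | h
  · left
    intro s
    funext k
    have := congrFun (congrFun h s) k
    rwa [Matrix.of_apply] at this
  · right
    exact Matrix.linearIndependent_rows_iff_isUnit.mpr h

/-- The linear parts of the generator of the relation module are independent. -/
theorem omega_generator {g : ℕ} {H : Type} [Group H] (j : H →* SurfaceGroup g) (hj : Injective j)
    {ι : Type} [Fintype ι] [DecidableEq ι] (hι : Fintype.card ι = 2 * g) (x : ι → H)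
    (hx : Subgroup.closure (Set.range x) = ⊤)
    (hind : LinearIndependent ℚ (fun i => Multiplicative.toAdd (SurfaceGroup.ab (j (x i)))))
    (χ : H →* Multiplicative (ι → ℤ)) (hχ : ∀ t, χ (x t) = Multiplicative.ofAdd (Pi.single t 1))
    {ρ : ι → QG H} (hρ : cyc x = Submodule.span (QG H) {ρ})
    (hcancel : ∀ a : QG H, a • ρ = 0 → a = 0) :
    LinearIndependent ℚ (fun s => omegaRow χ (ρ s)) := by
  have h := omega_unit j hj hι x hx hind χ hχ hρ hcancel
  rw [omegaRow_matrix] at h
  exact Matrix.linearIndependent_rows_iff_isUnit.mpr h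

end Pool.Agent.SurfExact
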