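import Pool.Agent.SurfExact.DefsA
import Pool.Agent.SurfExact.MainB
import Pool.Agent.SurfExact.HypSurface
import Pool.Agent.SurfExact.Domain
import Pool.Agent.SurfExact.ChiK
import Pool.Agent.SurfExact.Omega

/-!
# MP_5bf54f_al: the letters whose vertex groups intersect (package A16)
-/

set_option autoImplicit false
set_option linter.unusedSectionVars false

namespace Pool.Agent.SurfExact

open Function Pool.Agent.SurfGrowth Finset

/-- Subgroups of surface groups generated by `2g` independent elements have no zero divisors in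
their group rings. -/
theorem uniqueProds_sub {g : ℕ} (hg : 2 ≤ g) {H : Type} [Group H] (j : H →* SurfaceGroup g)
    (hj : Injective j) {ι : Type} [Fintype ι] [DecidableEq ι] (hι : Fintype.card ι = 2 * g)
    (x : ι → H) (hx : Subgroup.closure (Set.range x) = ⊤)
    (hind : LinearIndependent ℚ (fun i => Multiplicative.toAdd (SurfaceGroup.ab (j (x i))))) :
    UniqueProds H := by
  have hne : Nonempty ι := by
    rw [← Fintype.card_pos_iff, hι]
    omega
  obtain ⟨f, hf⟩ := hyp_sub (by omega) j hj hι x hx hind (Classical.arbitrary ι)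
  exact uniqueProds_of_ker_free f hf.free

theorem omegaRow_unit {G : Type*} [Group G] {ι : Type*} [Fintype ι] [DecidableEq ι]
    (χ : G →* Multiplicative (ι → ℤ)) (c : ℚ) (γ k : G) :
    omegaRow χ (c • (el γ * (1 - el k))) = fun i => - c * ((Multiplicative.toAdd (χ k) i : ℤ) : ℚ) := by
  unfold omegaRow
  rw [map_smul, mul_sub, mul_one, map_sub, ← el_mul, pairL_el, pairL_el]
  funext i
  simp only [Pi.smul_apply, Pi.sub_apply, smul_eq_mul, map_mul, toAdd_mul, Pi.add_apply]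
  push_cast
  ring

theorem span_eq_unit {G : Type*} [Group G] {ι : Type*} (hG : UniqueProds G) (ρ ρ' : ι → QG G)
    (s : ι) (hs : ρ s ≠ 0)
    (h : Submodule.span (QG G) {ρ} = Submodule.span (QG G) {ρ'}) :
    ∃ (c : ℚ) (γ : G), c ≠ 0 ∧ ρ = (c • el γ) • ρ' := by
  have hdom := noZeroDivisors_of_uniqueProds hG
  have h1 : ρ ∈ Submodule.span (QG G) {ρ'} := by
    rw [← h]; exact Submodule.mem_span_singleton_self ρ
  have h2 : ρ' ∈ Submodule.span (QG G) {ρ} := by
    rw [h]; exact Submodule.mem_span_singleton_self ρ'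
  obtain ⟨a, ha⟩ := Submodule.mem_span_singleton.1 h1
  obtain ⟨b, hb⟩ := Submodule.mem_span_singleton.1 h2
  have h3 : (a * b) • ρ = ρ := by rw [mul_smul, hb, ha]
  have h4 : (a * b) * ρ s = ρ s := congrFun h3 s
  have h5 : (a * b - 1) * ρ s = 0 := by rw [sub_mul, h4, one_mul, sub_self]
  have h6 : a * b = 1 := by
    rcases mul_eq_zero.1 h5 with h | h
    · exact sub_eq_zero.1 h
    · exact absurd h hs
  obtain ⟨c, γ, hc, hac, -⟩ := unit_trivial hG h6
  exact ⟨c, γ, hc, by rw [← hac, ha]⟩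

theorem one_sub_el_ne {G : Type*} [Group G] {k : G} (hk : k ≠ 1) : (1 - el k : QG G) ≠ 0 := by
  intro h
  apply el_sub_one_ne hk
  rw [← neg_sub, h, neg_zero]

theorem caseC {g : ℕ} (hg : 2 ≤ g) {H : Type} [Group H] (j : H →* SurfaceGroup g)
    (hj : Injective j) {ι : Type} [Fintype ι] [DecidableEq ι] (hι : Fintype.card ι = 2 * g)
    (x : ι → H) (hx : Subgroup.closure (Set.range x) = ⊤)
    (hind : LinearIndependent ℚ (fun i => Multiplicative.toAdd (SurfaceGroup.ab (j (x i)))))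
    (χ : H →* Multiplicative (ι → ℤ)) (hχ : ∀ t, χ (x t) = Multiplicative.ofAdd (Pi.single t 1))
    (J : Finset ι) (hJ : J.Nonempty) (hJC : ∀ s ∈ J, Pg x s ⊓ Pc x s ≠ ⊥) :
    ∃ (ρ : ι → QG H) (c : ι → ℚ) (γ k : ι → H), cyc x = Submodule.span (QG H) {ρ} ∧
      (∀ s ∈ J, c s ≠ 0 ∧ ρ s = c s • (el (γ s) * (1 - el (k s)))) ∧
      LinearIndependent ℚ (fun s => omegaRow χ (ρ s)) := by
  classical
  have hU := uniqueProds_sub hg j hj hι x hx hind
  -- the data of every letter of `J`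
  have hdata : ∀ s ∈ J, ∃ (ρ : ι → QG H) (k : H), cyc x = Submodule.span (QG H) {ρ} ∧
      ρ s = 1 - el k ∧ χ k ≠ 1 := by
    intro s hs
    obtain ⟨f, hf⟩ := hyp_sub (by omega) j hj hι x hx hind s
    obtain ⟨k, u, v, hk, -, hv, hu, hcyc, hs1⟩ := B_case_two hf (hJC s hs)
    exact ⟨_, k, hcyc, hs1, chi_k_ne hf k u v hk hv hu hcyc χ hχ⟩
  obtain ⟨s₀, hs₀⟩ := hJ
  obtain ⟨ρ, k₀, hcyc, hρ₀, hχ₀⟩ := hdata s₀ hs₀
  have hk₀ : k₀ ≠ 1 := by
    rintro rfl
    exact hχ₀ (map_one χ)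
  have hform : ∀ s, ∃ (c : ℚ) (γ k : H), s ∈ J → c ≠ 0 ∧ ρ s = c • (el γ * (1 - el k)) := by
    intro s
    by_cases hs : s ∈ J
    · obtain ⟨ρ', k, hcyc', hρ', hχk⟩ := hdata s hs
      obtain ⟨c, γ, hc, hcγ⟩ := span_eq_unit hU ρ ρ' s₀ (by rw [hρ₀]; exact one_sub_el_ne hk₀)
        (by rw [← hcyc, ← hcyc'])
      refine ⟨c, γ, k, fun _ => ⟨hc, ?_⟩⟩
      rw [hcγ, Pi.smul_apply, hρ', smul_eq_mul, smul_mul_assoc]
    · exact ⟨1, 1, 1, fun h => absurd h hs⟩
  choose c γ k hck using hform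
  refine ⟨ρ, c, γ, k, hcyc, hck, ?_⟩
  have hρmem : ρ ∈ cyc x := by
    rw [hcyc]
    exact Submodule.mem_span_singleton_self ρ
  rcases omega_dichotomy j hι x hx hind χ hχ ρ hρmem with h | h
  · exfalso
    apply hχ₀
    have h1 := h s₀
    have h2 : ρ s₀ = (1 : ℚ) • (el (1 : H) * (1 - el k₀)) := by
      rw [hρ₀, el_one, one_mul, one_smul]
    rw [h2, omegaRow_unit] at h1
    apply Multiplicative.toAdd.injective
    funext i
    have h3 := congrFun h1 i
    simp only [Pi.zero_apply, neg_mul, one_mul, neg_eq_zero] at h3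
    rw [toAdd_one, Pi.zero_apply]
    exact_mod_cast h3
  · exact h

end Pool.Agent.SurfExact
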