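import Pool.Agent.SurfExact.BasicB
import Pool.Agent.SurfGrowth.Key2

/-!
# MP_5bf54f_al, exact growth rate of surface groups: further definitions

Linear parts of elements of the group ring, levels, and families of standard type (the relation
module is generated by one simple closed path of the Cayley graph running once in each direction
through the edges of every letter).
-/

set_option autoImplicit false

namespace Pool.Agent.SurfExact

open Function Pool.Agent.SurfGrowth

section

variable {G : Type*} [Group G] {ι : Type*} [Fintype ι] [DecidableEq ι]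

/-- The linear part of an element of the group ring. -/
noncomputable def omegaRow (χ : G →* Multiplicative (ι → ℤ)) (y : QG G) : ι → ℚ :=
  pairL (fun g => fun i => ((Multiplicative.toAdd (χ g) i : ℤ) : ℚ)) y

open Classical in
/-- The edges with both ends in `A`. -/
noncomputable def edgeFam (x : ι → G) (A : Finset G) : ι → Finset G :=
  fun t => A.filter (fun g => g * x t ∈ A)

/-- The formal inverse of a signed letter. -/
def linv {ι : Type*} (l : ι × Bool) : ι × Bool := (l.1, !l.2)

/-- The distance from `1` in the Cayley graph (`0` for elements that are not reached). -/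
noncomputable def lev (x : ι → G) (w : G) : ℕ := sInf {n | w ∈ ball x n}

/-- A family of standard type: there is a simple closed path of length `n = 2 * card ι` in the
Cayley graph with vertices `p i` and labels `r i` that contains every signed letter exactly once,
the cycles are the multiples of this path, and the link of a vertex is connected. -/
structure Std (x : ι → G) (n : ℕ) where
  /-- labels -/
  r : ZMod n ≃ ι × Bool
  /-- vertices -/
  p : ZMod n → G
  p_succ : ∀ i, p (i + 1) = p i * letter x (r i)
  p_inj : Injective p
  gen : Subgroup.closure (Set.range x) = ⊤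
  hn : n = 2 * Fintype.card ι
  hd : 3 ≤ Fintype.card ι
  ε : G →* Multiplicative ℚ
  hε : ∀ t, Multiplicative.toAdd (ε (x t)) = 1
  dom : NoZeroDivisors (QG G)
  cyc_eq : cyc x = Submodule.span (QG G)
    {fun t => el (p (r.symm (t, true))) - el (p (r.symm (t, false) + 1))}
  link : ∀ φ : ZMod n → ℚ, (∀ i, φ (r.symm (linv (r i)) + 1) = φ i) → ∀ i j, φ i = φ j

namespace Std

variable {x : ι → G} {n : ℕ} (S : Std x n)

/-- The end of the edge with germ `i` at the vertex `w`. -/
def nb (w : G) (i : ZMod n) : G := w * letter x (S.r i)

/-- The index of the reverse edge at its origin `nb w i`. -/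
def rv (i : ZMod n) : ZMod n := S.r.symm (linv (S.r i))

/-- The next corner (of the link of a vertex), across the germ `i`. -/
def tau (i : ZMod n) : ZMod n := S.rv i + 1

/-- The face that has its corner `i` at the vertex `w`. -/
def fc (w : G) (i : ZMod n) : G := w * (S.p i)⁻¹

/-- The number of corners at `w` that belong to faces of `X`. -/
noncomputable def corn (X : Finset G) (w : G) : ℕ := {i : ZMod n | S.fc w i ∈ X}.ncard

/-- For a path with vertices `Q k` and germs `A k`: the relative level of the vertex after `Q k` on
the face along which the path arrives at `Q k`. -/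
noncomputable def etaP (Q : ℕ → G) (A : ℕ → ZMod n) (k : ℕ) : ℤ :=
  (lev x (S.nb (Q k) (A (k - 1) + 1)) : ℤ) - lev x (Q k)

/-- The relative level of the vertex before `Q k` on the face along which the path leaves
`Q k`. -/
noncomputable def etaM (Q : ℕ → G) (A : ℕ → ZMod n) (k : ℕ) : ℤ :=
  (lev x (S.nb (Q k) (S.rv (A k - 1))) : ℤ) - lev x (Q k)

end Std

/-- One side of a geodesic bigon: a path of length `m` with vertices `q k` and germs `a k` along
which the level changes by `σ` in every step. -/
structure Side {x : ι → G} {n : ℕ} (S : Std x n) (σ : ℤ) (m : ℕ) (q : ℕ → G) (a : ℕ → ZMod n) :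
    Prop where
  step : ∀ k < m, q (k + 1) = S.nb (q k) (a k)
  lev_step : ∀ k ≤ m, (lev x (q k) : ℤ) = lev x (q 0) + σ * k

/-- The set of oriented edges (origin, germ) of a closed path consisting of two sides. -/
def OnD {G : Type*} {n : ℕ} (m : ℕ) (q : ℕ → G) (a : ℕ → ZMod n) (q' : ℕ → G) (a' : ℕ → ZMod n)
    (w : G) (i : ZMod n) : Prop :=
  (∃ k < m, w = q k ∧ i = a k) ∨ (∃ k < m, w = q' k ∧ i = a' k)

/-- A simple geodesic bigon (down along the first side from `q 0` to `q m = q' 0`, up along the
second side from `q' 0` to `q' m = q 0`) bounding the finite set of faces `X` on its left. -/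
structure Bigon {x : ι → G} {n : ℕ} (S : Std x n) (m : ℕ) (q : ℕ → G) (a : ℕ → ZMod n)
    (q' : ℕ → G) (a' : ℕ → ZMod n) (X : Finset G) : Prop where
  hm : 1 ≤ m
  side : Side S (-1) m q a
  side' : Side S 1 m q' a'
  bot : q' 0 = q m
  top : q' m = q 0
  disj : ∀ i ≤ m, ∀ j, 0 < j → j < m → q i ≠ q' j
  onD : ∀ w i, OnD m q a q' a' w i → S.fc w i ∈ X ∧ S.fc w (S.tau i) ∉ X
  off : ∀ w i, ¬ OnD m q a q' a' w i → ¬ OnD m q a q' a' (S.nb w i) (S.rv i) →
    (S.fc w i ∈ X ↔ S.fc w (S.tau i) ∈ X)

end

end Pool.Agent.SurfExact
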