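import Mathlib
import Pool.Agent.SurfGrowth.FreeInd
import Pool.Agent.SurfGrowth.Surface

/-!
# MP_5bf54f_al, exact growth rate of surface groups: definitions for Theorem B

Cycles of Cayley graphs as vectors over the group ring, coset sums, crossed homomorphisms.
-/

set_option autoImplicit false

namespace Pool.Agent.SurfExact

open Function

/-- The rational group ring. -/
abbrev QG (G : Type*) := MonoidAlgebra ℚ G

/-- Group elements in the group ring. -/
noncomputable def el {G : Type*} [Group G] (g : G) : QG G := MonoidAlgebra.of ℚ G g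

@[simp] theorem el_one {G : Type*} [Group G] : el (1 : G) = 1 := map_one _

theorem el_mul {G : Type*} [Group G] (a b : G) : el (a * b) = el a * el b := map_mul _ _ _

theorem el_inv_mul_el {G : Type*} [Group G] (a : G) : el a⁻¹ * el a = 1 := by
  rw [← el_mul, inv_mul_cancel, el_one]

theorem el_mul_el_inv {G : Type*} [Group G] (a : G) : el a * el a⁻¹ = 1 := by
  rw [← el_mul, mul_inv_cancel, el_one]

section Defs

variable {G : Type*} [Group G] {ι : Type*} [Fintype ι] [DecidableEq ι]

/-- The boundary map of the Cayley graph with edges `(g, t) : g → g * x t`. -/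
noncomputable def bdry (x : ι → G) : (ι → QG G) →ₗ[QG G] QG G :=
  ∑ t, (LinearMap.toSpanSingleton (QG G) (QG G) (el (x t) - 1)) ∘ₗ LinearMap.proj t

/-- Cycles of the Cayley graph (the relation module). -/
noncomputable def cyc (x : ι → G) : Submodule (QG G) (ι → QG G) := LinearMap.ker (bdry x)

/-- Vectors whose `t`-component is supported in `Y t`. -/
def suppIn (Y : ι → Finset G) : Submodule ℚ (ι → QG G) where
  carrier := {z | ∀ t g, (z t).coeff g ≠ 0 → g ∈ Y t}
  zero_mem' := by simp
  add_mem' := by
    intro a b ha hb t g h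
    by_contra hg
    apply h
    have h1 : (a t).coeff g = 0 := by
      by_contra h1
      exact hg (ha t g h1)
    have h2 : (b t).coeff g = 0 := by
      by_contra h2
      exact hg (hb t g h2)
    simp [h1, h2]
  smul_mem' := by
    intro c a ha t g h
    apply ha t g
    intro h0
    apply h
    simp [h0]

/-- Cycles with support in a finite set of edges. -/
noncomputable def cycIn (x : ι → G) (Y : ι → Finset G) : Submodule ℚ (ι → QG G) :=
  (cyc x).restrictScalars ℚ ⊓ suppIn Y

/-- All sums over left cosets of `A` vanish. -/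
def ZS (A : Subgroup G) (y : QG G) : Prop :=
  Finsupp.mapDomain (fun g : G => (g : G ⧸ A)) y.coeff = 0

/-- `d` is a crossed homomorphism along `φ` with values in a module over the group ring. -/
def Crossed {X : Type*} {M : Type*} [AddCommGroup M] [Module (QG G) M] (φ : FreeGroup X →* G)
    (d : FreeGroup X → M) : Prop :=
  ∀ a b, d (a * b) = d a + el (φ a) • d b

/-- The subgroup generated by all letters except `s`. -/
def Pg (x : ι → G) (s : ι) : Subgroup G := Subgroup.closure {g | ∃ t, t ≠ s ∧ g = x t}

/-- Its conjugate by `x s`. -/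
def Pc (x : ι → G) (s : ι) : Subgroup G :=
  Subgroup.closure {g | ∃ t, t ≠ s ∧ g = x s * x t * (x s)⁻¹}

/-- The subgroup generated by the conjugates by `x s ^ (-i)`, `i ≤ n`, of the letters `≠ s`. -/
def Qn (x : ι → G) (s : ι) (n : ℕ) : Subgroup G :=
  Subgroup.closure {g | ∃ t i, t ≠ s ∧ i ≤ n ∧ g = (x s ^ i)⁻¹ * x t * x s ^ i}

/-- `H` is free of rank `m`. -/
def FreeRk (H : Subgroup G) (m : ℕ) : Prop :=
  ∃ c : Fin m → G, Injective (FreeGroup.lift c) ∧ (FreeGroup.lift c).range = H

/-- Non-cyclic support: two of the differences `a⁻¹ * b`, `a⁻¹ * c` of elements of the support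
do not commute. (For a support in a left coset of a free subgroup: the support is not in a left
coset of a cyclic subgroup.) -/
def NonCyc (D : QG G) : Prop :=
  ∃ a b c : G, D.coeff a ≠ 0 ∧ D.coeff b ≠ 0 ∧ D.coeff c ≠ 0 ∧
    (a⁻¹ * b) * (a⁻¹ * c) ≠ (a⁻¹ * c) * (a⁻¹ * b)

/-- The hypotheses of Theorem B on a generating family and one of its letters. -/
structure Hyp (x : ι → G) (s : ι) (f : G →* Multiplicative ℤ) : Prop where
  gen : Subgroup.closure (Set.range x) = ⊤
  fs : f (x s) = Multiplicative.ofAdd 1
  ft : ∀ t, t ≠ s → f (x t) = 1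
  free : IsFreeGroup f.ker
  basisP : Injective (FreeGroup.lift (fun t : {t : ι // t ≠ s} => x t))
  ab : ∃ χ : G →* Multiplicative (ι → ℤ), ∀ t, χ (x t) = Multiplicative.ofAdd (Pi.single t 1)
  der : ∃ (K : Type) (_ : Field K) (_ : Algebra ℚ K) (q : K), Transcendental ℚ q ∧
    ∃ W : Submodule K (ι → K), Fintype.card ι ≤ Module.finrank K W + 1 ∧
      ∀ v ∈ W, ∃ δ : G → K,
        (∀ a b, δ (a * b) = δ a + q ^ (Multiplicative.toAdd (f a)) * δ b) ∧
        ∀ t, δ (x t) = v t

/-- The part of level `l` (for the character `f`) of an element of the group ring. -/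
noncomputable def levelPart (f : G →* Multiplicative ℤ) (l : ℤ) (y : QG G) : QG G :=
  MonoidAlgebra.ofCoeff (y.coeff.filter (fun g => Multiplicative.toAdd (f g) = l))

/-- The affine permutations `m ↦ v t + φ(t) m` used to construct crossed homomorphisms. -/
noncomputable def affPerm {X : Type*} {M : Type*} [AddCommGroup M] [Module (QG G) M]
    (φ : FreeGroup X →* G) (v : X → M) : FreeGroup X →* Equiv.Perm M :=
  FreeGroup.lift (fun t =>
    { toFun := fun m => v t + el (φ (FreeGroup.of t)) • m
      invFun := fun m => el (φ (FreeGroup.of t))⁻¹ • (m - v t)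
      left_inv := by
        intro m
        simp only [add_sub_cancel_left, smul_smul, el_inv_mul_el, one_smul]
      right_inv := by
        intro m
        simp only [smul_smul, el_mul_el_inv, one_smul, add_sub_cancel] })

/-- The crossed homomorphism with given values on the letters. -/
noncomputable def cross {X : Type*} {M : Type*} [AddCommGroup M] [Module (QG G) M]
    (φ : FreeGroup X →* G) (v : X → M) (w : FreeGroup X) : M := affPerm φ v w 0

/-- The Fox derivatives (path of the word `w` in the Cayley graph, starting at `1`). -/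
noncomputable def fox (x : ι → G) (w : FreeGroup ι) : ι → QG G :=
  cross (FreeGroup.lift x) (fun t => Pi.single t 1) w

end Defs

end Pool.Agent.SurfExact
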