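import Pool.Agent.SurfExact.BasicB

/-!
# Twisted derivations of surface groups
-/

set_option autoImplicit false

namespace Pool.Agent.SurfExact

open Function Pool.Agent.SurfGrowth

section H11der

variable {Y : Type} {K : Type} [Field K] (ε : FreeGroup Y →* Kˣ)

/-- affine permutations -/
def h11Aff (c : Y → K) : FreeGroup Y →* Equiv.Perm K :=
  FreeGroup.lift (fun y =>
    { toFun := fun m => c y + (ε (FreeGroup.of y) : K) * m
      invFun := fun m => ((ε (FreeGroup.of y))⁻¹ : Kˣ) * (m - c y)
      left_inv := by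
        intro m
        simp
      right_inv := by
        intro m
        simp })

theorem h11Aff_of (c : Y → K) (y : Y) (m : K) :
    h11Aff ε c (FreeGroup.of y) m = c y + (ε (FreeGroup.of y) : K) * m := by
  unfold h11Aff
  rw [FreeGroup.lift_apply_of]
  rfl

theorem h11Aff_of_inv (c : Y → K) (y : Y) (m : K) :
    h11Aff ε c (FreeGroup.of y)⁻¹ m = ((ε (FreeGroup.of y))⁻¹ : Kˣ) * (m - c y) := by
  unfold h11Aff
  rw [map_inv, FreeGroup.lift_apply_of]
  rfl

/-- the derivation with values `c` on the letters -/
def h11Der (c : Y → K) (w : FreeGroup Y) : K := h11Aff ε c w 0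

theorem h11Aff_apply (c : Y → K) (w : FreeGroup Y) :
    ∀ m, h11Aff ε c w m = h11Der ε c w + (ε w : K) * m := by
  unfold h11Der
  induction w using FreeGroup.induction_on with
  | C1 =>
    intro m
    simp
  | of y =>
    intro m
    rw [h11Aff_of, h11Aff_of, mul_zero, add_zero]
  | inv_of y h =>
    intro m
    rw [h11Aff_of_inv, h11Aff_of_inv, map_inv]
    ring
  | mul a b ha hb =>
    intro m
    rw [map_mul, Equiv.Perm.mul_apply, Equiv.Perm.mul_apply, hb m,
      ha (h11Aff ε c b 0 + (ε b : K) * m), ha (h11Aff ε c b 0), map_mul, Units.val_mul]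
    ring

theorem h11Der_of (c : Y → K) (y : Y) : h11Der ε c (FreeGroup.of y) = c y := by
  unfold h11Der; rw [h11Aff_of, mul_zero, add_zero]

theorem h11Der_inv (c : Y → K) (y : Y) :
    h11Der ε c (FreeGroup.of y)⁻¹ = ((ε (FreeGroup.of y))⁻¹ : Kˣ) * (0 - c y) := by
  unfold h11Der; rw [h11Aff_of_inv]

theorem h11Der_one (c : Y → K) : h11Der ε c 1 = 0 := by
  unfold h11Der; rw [map_one]; rfl

theorem h11Der_mul (c : Y → K) (a b : FreeGroup Y) :
    h11Der ε c (a * b) = h11Der ε c a + (ε a : K) * h11Der ε c b := by
  show h11Aff ε c (a * b) 0 = _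
  rw [map_mul, Equiv.Perm.mul_apply, h11Aff_apply]
  rfl

/-- the derivation as a linear function of the values on the letters -/
def h11DerL (w : FreeGroup Y) : (Y → K) →ₗ[K] K where
  toFun c := h11Der ε c w
  map_add' c c' := by
    induction w using FreeGroup.induction_on with
    | C1 => simp [h11Der_one]
    | of y => simp [h11Der_of]
    | inv_of y h => rw [h11Der_inv, h11Der_inv, h11Der_inv, Pi.add_apply]; ring
    | mul a b ha hb => rw [h11Der_mul, h11Der_mul, h11Der_mul, ha, hb]; ring
  map_smul' n c := by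
    induction w using FreeGroup.induction_on with
    | C1 => simp [h11Der_one]
    | of y => simp [h11Der_of]
    | inv_of y h =>
      rw [h11Der_inv, h11Der_inv, Pi.smul_apply, smul_eq_mul, smul_eq_mul, RingHom.id_apply]; ring
    | mul a b ha hb =>
      rw [h11Der_mul, h11Der_mul, ha, hb, smul_eq_mul, smul_eq_mul, smul_eq_mul,
        RingHom.id_apply]; ring

end H11der

/-- the space of twisted derivations -/
def h11E {G K : Type} [Group G] [Field K] (q : K) (f : G →* Multiplicative ℤ) :
    Submodule K (G → K) where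
  carrier := {δ | ∀ a b, δ (a * b) = δ a + q ^ (Multiplicative.toAdd (f a)) * δ b}
  add_mem' := by
    intro δ δ' h h' a b
    show δ (a * b) + δ' (a * b) = (δ a + δ' a) + _ * (δ b + δ' b)
    rw [h a b, h' a b]; ring
  zero_mem' := by
    intro a b
    simp
  smul_mem' := by
    intro c δ h a b
    show c * δ (a * b) = c * δ a + _ * (c * δ b)
    rw [h a b]; ring

theorem h11E_zero {G K : Type} [Group G] [Field K] (q : K) (f : G →* Multiplicative ℤ)
    {ι : Type} (x : ι → G) (hx : Subgroup.closure (Set.range x) = ⊤) (δ : G → K)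
    (h : δ ∈ h11E q f) (h0 : ∀ t, δ (x t) = 0) : δ = 0 := by
  have hd : ∀ a b, δ (a * b) = δ a + q ^ (Multiplicative.toAdd (f a)) * δ b := h
  have h1 : δ 1 = 0 := by
    have := hd 1 1
    rw [mul_one, map_one, toAdd_one, zpow_zero, one_mul] at this
    simpa using this
  funext a
  have ha : a ∈ Subgroup.closure (Set.range x) := by rw [hx]; trivial
  show δ a = 0
  induction ha using Subgroup.closure_induction with
  | mem a ha => obtain ⟨t, rfl⟩ := ha; exact h0 t
  | one => exact h1
  | mul a b _ _ ha hb => rw [hd, ha, hb]; ring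
  | inv a _ ha =>
    have := hd a⁻¹ a
    rw [inv_mul_cancel, h1, ha, mul_zero, add_zero] at this
    exact this.symm

/-- B0b Der.lean : twisted derivations of surface groups. -/
theorem der_surface {g : ℕ} {K : Type} [Field K] (q : K) (hq : q ≠ 0) {ι : Type} [Fintype ι]
    (x : ι → SurfaceGroup g) (hx : Subgroup.closure (Set.range x) = ⊤)
    (f : SurfaceGroup g →* Multiplicative ℤ) (hι : Fintype.card ι = 2 * g) :
    ∃ W : Submodule K (ι → K), Fintype.card ι ≤ Module.finrank K W + 1 ∧
      ∀ v ∈ W, ∃ δ : SurfaceGroup g → K,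
        (∀ a b, δ (a * b) = δ a + q ^ (Multiplicative.toAdd (f a)) * δ b) ∧ ∀ t, δ (x t) = v t := by
  classical
  let E := h11E q f
  let ev : {κ : Type} → (κ → SurfaceGroup g) → E →ₗ[K] (κ → K) := fun y =>
    (LinearMap.funLeft K K y).comp E.subtype
  have ev_apply : ∀ {κ : Type} (y : κ → SurfaceGroup g) (δ : E) (t : κ),
      ev y δ t = δ.1 (y t) := fun y δ t => rfl
  have inj : ∀ {κ : Type} (y : κ → SurfaceGroup g), Subgroup.closure (Set.range y) = ⊤ →
      Injective (ev y) := by
    intro κ y hy
    rw [injective_iff_map_eq_zero]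
    intro δ hδ
    exact Subtype.ext (h11E_zero q f y hy δ.1 δ.2 (fun t => congrFun hδ t))
  have fd : FiniteDimensional K E := FiniteDimensional.of_injective (ev x) (inj x hx)
  -- derivations with given values on the standard generators
  let mk := PresentedGroup.mk ({surfaceRel g} : Set (FreeGroup (Fin g × Bool)))
  let ε : FreeGroup (Fin g × Bool) →* Kˣ :=
    (zpowersHom Kˣ (Units.mk0 q hq)).comp (f.comp mk)
  have hε : ∀ w, (ε w : K) = q ^ (Multiplicative.toAdd (f (mk w))) := by
    intro w
    show (((zpowersHom Kˣ (Units.mk0 q hq)) (f (mk w)) : Kˣ) : K) = _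
    rw [zpowersHom_apply, Units.val_zpow_eq_zpow_val]
    rfl
  let L := h11DerL ε (surfaceRel g)
  have hC : LinearMap.ker L ≤ LinearMap.range (ev (SurfaceGroup.gen (g := g))) := by
    intro c hc
    have hc' : h11Der ε c (surfaceRel g) = 0 := hc
    have hr1 : mk (surfaceRel g) = 1 := by
      apply (QuotientGroup.eq_one_iff _).mpr
      exact Subgroup.subset_normalClosure rfl
    have hrel : h11Aff ε c (surfaceRel g) = 1 := by
      ext m
      rw [h11Aff_apply, hc', hε, hr1, map_one, toAdd_one, zpow_zero, one_mul, zero_add]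
      rfl
    let A : SurfaceGroup g →* Equiv.Perm K :=
      PresentedGroup.toGroup (f := fun y => h11Aff ε c (FreeGroup.of y)) (by
        intro r hr
        rw [Set.mem_singleton_iff] at hr
        subst hr
        have : FreeGroup.lift (fun y => h11Aff ε c (FreeGroup.of y)) = h11Aff ε c := by
          ext y
          simp
        rw [this, hrel])
    have hA : ∀ w, A (mk w) = h11Aff ε c w := by
      intro w
      have hof : ∀ y, A (PresentedGroup.of y) = h11Aff ε c (FreeGroup.of y) :=
        fun y => PresentedGroup.toGroup.of _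
      have : A.comp mk = h11Aff ε c := FreeGroup.ext_hom _ _ (fun y => hof y)
      exact DFunLike.congr_fun this w
    have hA' : ∀ a m, A a m = A a 0 + q ^ (Multiplicative.toAdd (f a)) * m := by
      intro a m
      obtain ⟨w, rfl⟩ := PresentedGroup.mk_surjective _ a
      have e1 := hA w
      show A (mk w) m = A (mk w) 0 + q ^ (Multiplicative.toAdd (f (mk w))) * m
      rw [e1, h11Aff_apply, hε]
      rfl
    refine ⟨⟨fun a => A a 0, ?_⟩, ?_⟩
    · intro a b
      show A (a * b) 0 = A a 0 + _ * A b 0
      rw [map_mul, Equiv.Perm.mul_apply, hA']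
    · funext y
      rw [ev_apply]
      show A (mk (FreeGroup.of y)) 0 = c y
      rw [hA, h11Aff_of, mul_zero, add_zero]
  have h1 : Module.finrank K (LinearMap.ker L) ≤ Module.finrank K E :=
    (Submodule.finrank_mono hC).trans (LinearMap.finrank_range_le _)
  have h2 : Module.finrank K (LinearMap.range L) + Module.finrank K (LinearMap.ker L) = 2 * g := by
    rw [LinearMap.finrank_range_add_finrank_ker, Module.finrank_fintype_fun_eq_card,
      Fintype.card_prod, Fintype.card_fin, Fintype.card_bool, mul_comm]
  have h3 : Module.finrank K (LinearMap.range L) ≤ 1 := by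
    have := Submodule.finrank_le (LinearMap.range L)
    rwa [Module.finrank_self] at this
  refine ⟨LinearMap.range (ev x), ?_, ?_⟩
  · rw [LinearMap.finrank_range_of_inj (inj x hx), hι]
    omega
  · rintro v ⟨δ, rfl⟩
    exact ⟨δ.1, δ.2, fun t => rfl⟩

end Pool.Agent.SurfExact
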