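import Pool.Agent.SurfExact.DefsA
import Pool.Agent.SurfExact.Levels
import Pool.Agent.SurfExact.Forest

/-!
# MP_5bf54f_al, package A4: the inequality for the letters with cyclic support
-/

set_option autoImplicit false
set_option linter.unusedSectionVars false

namespace Pool.Agent.SurfExact

open Function Finset

section JI

variable {G : Type*} [Group G]

/-- an element of infinite order -/
def InfOrd (k : G) : Prop := ∀ n : ℤ, k ^ n = 1 → n = 0

theorem ji_coeff (y : QG G) (k u : G) :
    (y * (1 - el k)).coeff u = y.coeff u - y.coeff (u * k⁻¹) := by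
  rw [mul_sub, mul_one, MonoidAlgebra.coeff_sub, Finsupp.sub_apply, mulel_coeff]

/-- A coset of the cyclic group meeting the support of `y` meets the support of `y (1 - k)`. -/
theorem ji_coset (y : QG G) {k : G} (hk : InfOrd k) (v : G) (hv : y.coeff v ≠ 0) :
    ∃ u, (y * (1 - el k)).coeff u ≠ 0 ∧ v⁻¹ * u ∈ Subgroup.zpowers k := by
  by_contra hcon
  push Not at hcon
  have h1 : ∀ n : ℕ, y.coeff (v * k ^ n) = y.coeff v := by
    intro n
    induction n with
    | zero => simp
    | succ n ih =>
      have h2 : (y * (1 - el k)).coeff (v * k ^ (n + 1)) = 0 := by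
        by_contra h3
        apply hcon _ h3
        rw [inv_mul_cancel_left]
        exact Subgroup.npow_mem_zpowers k (n + 1)
      rw [ji_coeff, pow_succ, ← mul_assoc, mul_inv_cancel_right] at h2
      rw [pow_succ, ← mul_assoc, ← ih]
      linarith
  have h2 : Set.InjOn (fun n : ℕ => v * k ^ n) Set.univ := by
    intro m _ n _ hmn
    have h3 : k ^ m = k ^ n := mul_left_cancel hmn
    have h4 : k ^ ((m : ℤ) - n) = 1 := by
      rw [zpow_sub, zpow_natCast, zpow_natCast, h3, mul_inv_cancel]
    have h5 := hk _ h4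
    omega
  have h3 : (Set.range (fun n : ℕ => v * k ^ n)) ⊆ (y.coeff.support : Set G) := by
    rintro _ ⟨n, rfl⟩
    rw [Finset.mem_coe, Finsupp.mem_support_iff, h1]
    exact hv
  have h4 : (Set.range (fun n : ℕ => v * k ^ n)).Finite := (Finset.finite_toSet _).subset h3
  exact Set.infinite_range_of_injective (fun m n h => h2 trivial trivial h) h4

theorem ji_zs (y : QG G) (k : G) : ZS (Subgroup.zpowers k) (y * (1 - el k)) := by
  apply ZS_of
  intro ψ hψ
  rw [mul_sub, mul_one, map_sub, pairL_mulel]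
  have : (fun g => ψ (g * k)) = ψ := by
    funext g
    exact hψ g k (Subgroup.mem_zpowers k)
  rw [this, sub_self]

/-- counting classes -/
theorem ji_ncard {α β : Type*} (f₁ : G → α) (f₂ : G → β) (X : Set G) (hX : X.Finite)
    (h : ∀ a b, f₁ a = f₁ b → f₂ a = f₂ b) : (f₂ '' X).ncard ≤ (f₁ '' X).ncard := by
  classical
  rcases X.eq_empty_or_nonempty with rfl | ⟨a₀, _⟩
  · simp
  have h1 : ∀ c : α, ∃ d : β, ∀ a, f₁ a = c → f₂ a = d := by
    intro c
    by_cases hc : ∃ a, f₁ a = c
    · obtain ⟨a, rfl⟩ := hc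
      exact ⟨f₂ a, fun b hb => h b a hb⟩
    · exact ⟨f₂ a₀, fun a ha => absurd ⟨a, ha⟩ hc⟩
  choose F hF using h1
  have h2 : f₂ '' X ⊆ F '' (f₁ '' X) := by
    rintro _ ⟨a, ha, rfl⟩
    exact ⟨f₁ a, ⟨a, ha, rfl⟩, (hF _ a rfl).symm⟩
  exact (Set.ncard_le_ncard h2 ((hX.image _).image _)).trans (Set.ncard_image_le (hX.image _))

variable {ι : Type*} [Fintype ι] [DecidableEq ι]

theorem cycIn_fd (x : ι → G) (Y : ι → Finset G) : FiniteDimensional ℚ (cycIn x Y) := by
  let F : (ι → QG G) →ₗ[ℚ] ((t : ι) → (Y t → ℚ)) :=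
    LinearMap.pi (fun t => (resL (Y t)).comp (LinearMap.proj t))
  refine FiniteDimensional.of_injective (F.domRestrict (cycIn x Y)) ?_
  rw [← LinearMap.ker_eq_bot, LinearMap.ker_eq_bot']
  intro z hz
  apply Subtype.ext
  funext t
  refine MonoidAlgebra.ext (Finsupp.ext fun g => ?_)
  by_contra hne
  have h1 : g ∈ Y t := z.2.2 t g hne
  have h2 := congrFun (congrFun hz t) ⟨g, h1⟩
  exact hne h2

theorem J_ineq (x : ι → G) (hdom : NoZeroDivisors (QG G)) (ρ : ι → QG G)
    (hcyc : cyc x = Submodule.span (QG G) {ρ}) (J : Finset ι) (hJ : J.Nonempty) (γ k : ι → G)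
    (c : ι → ℚ) (hc : ∀ s ∈ J, c s ≠ 0) (hρ : ∀ s ∈ J, ρ s = c s • (el (γ s) * (1 - el (k s))))
    (hfree : Injective (FreeGroup.lift (fun s : J => γ s * k s * (γ s)⁻¹))) (Y : ι → Finset G) :
    (2 * (J.card : ℤ) - 1) * Module.finrank ℚ (cycIn x Y) ≤ ∑ s ∈ J, ((Y s).card : ℤ) := by
  classical
  -- the letters have infinite order
  have hinf : ∀ s ∈ J, InfOrd (k s) := by
    intro s hs n hn
    by_contra hn0
    have h1 : FreeGroup.lift (fun s : J => γ s * k s * (γ s)⁻¹) (FreeGroup.of ⟨s, hs⟩ ^ n) = 1 := by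
      rw [map_zpow, FreeGroup.lift_apply_of, conj_zpow, hn]
      group
    rw [← map_one (FreeGroup.lift (fun s : J => γ s * k s * (γ s)⁻¹))] at h1
    have h2 := hfree h1
    rw [IsMulTorsionFree.zpow_eq_one_iff_left hn0] at h2
    exact FreeGroup.of_ne_one _ h2
  have hfd : FiniteDimensional ℚ (cycIn x Y) := cycIn_fd x Y
  -- the coefficients
  let m : QG G →ₗ[ℚ] (ι → QG G) :=
    { toFun := fun a => a • ρ
      map_add' := fun a b => add_smul a b ρ
      map_smul' := fun q a => by
        rw [smul_assoc]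
        rfl }
  let C : Submodule ℚ (QG G) := (cycIn x Y).comap m
  have hms : ∀ s ∈ J, ∀ a : QG G, (m a) s = c s • ((a * el (γ s)) * (1 - el (k s))) := by
    intro s hs a
    show a * ρ s = _
    rw [hρ s hs, mul_smul_comm, mul_assoc]
  have hinj : ∀ a : QG G, m a = 0 → a = 0 := by
    intro a ha
    obtain ⟨s, hs⟩ := hJ
    refine MonoidAlgebra.ext (Finsupp.ext fun g => ?_)
    by_contra hne
    have h1 : (a * el (γ s)).coeff (g * γ s) ≠ 0 := by
      rw [mulel_coeff, mul_inv_cancel_right]
      exact hne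
    obtain ⟨u, hu, -⟩ := ji_coset _ (hinf s hs) _ h1
    have h2 := hms s hs a
    rw [ha] at h2
    have h3 : ((a * el (γ s)) * (1 - el (k s))) = 0 := by
      rcases smul_eq_zero.mp h2.symm with h4 | h4
      · exact absurd h4 (hc s hs)
      · exact h4
    rw [h3] at hu
    exact hu rfl
  -- `C` and the cycles have the same dimension
  have hCZ : Module.finrank ℚ (cycIn x Y) ≤ Module.finrank ℚ C ∧ FiniteDimensional ℚ C := by
    let F : C →ₗ[ℚ] (cycIn x Y) :=
      { toFun := fun a => ⟨m a.1, a.2⟩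
        map_add' := fun a b => Subtype.ext (map_add m a.1 b.1)
        map_smul' := fun q a => Subtype.ext (map_smul m q a.1) }
    have hF : Injective F := by
      rw [← LinearMap.ker_eq_bot, LinearMap.ker_eq_bot']
      intro a ha
      exact Subtype.ext (hinj a.1 (congrArg Subtype.val ha))
    have hFs : Surjective F := by
      intro z
      have h1 : z.1 ∈ cyc x := z.2.1
      rw [hcyc, Submodule.mem_span_singleton] at h1
      obtain ⟨a, ha⟩ := h1
      exact ⟨⟨a, by show m a ∈ cycIn x Y; rw [show m a = z.1 from ha]; exact z.2⟩, Subtype.ext ha⟩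
    have hCfd : FiniteDimensional ℚ C := FiniteDimensional.of_injective F hF
    exact ⟨LinearMap.finrank_le_finrank_of_surjective hFs, hCfd⟩
  obtain ⟨hdim, hCfd⟩ := hCZ
  -- the support of `C`
  obtain ⟨B, hB⟩ : ∃ B : Finset (QG G), Submodule.span ℚ (B : Set (QG G)) = C := by
    have h1 : C.FG := (Submodule.fg_iff_finiteDimensional C).mpr hCfd
    exact h1
  let X : Finset G := B.biUnion (fun a => a.coeff.support)
  have hX : ∀ a ∈ C, ∀ g, a.coeff g ≠ 0 → g ∈ X := by
    intro a ha
    rw [← hB] at ha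
    have h1 : Submodule.span ℚ (B : Set (QG G)) ≤ inSub (X : Set G) := by
      rw [Submodule.span_le]
      intro b hb g hg
      simp only [X, Finset.coe_biUnion, Set.mem_iUnion]
      exact ⟨b, hb, Finsupp.mem_support_iff.mpr hg⟩
    exact fun g hg => h1 ha g hg
  -- every element of `X` is in the support of an element of `C`
  have hX' : ∀ g ∈ X, ∃ a ∈ C, a.coeff g ≠ 0 := by
    intro g hg
    simp only [X, Finset.mem_biUnion, Finsupp.mem_support_iff] at hg
    obtain ⟨a, ha, h⟩ := hg
    exact ⟨a, by rw [← hB]; exact Submodule.subset_span ha, h⟩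
  have hdimX : Module.finrank ℚ C ≤ X.card := by
    refine (finrank_le_card X C ?_).2
    intro y hy h0
    refine MonoidAlgebra.ext (Finsupp.ext fun g => ?_)
    by_contra h
    exact h (h0 g (hX y hy g h))
  by_cases hC0 : Module.finrank ℚ C = 0
  · have h1 : Module.finrank ℚ (cycIn x Y) = 0 := by omega
    rw [h1]
    push_cast
    rw [mul_zero]
    exact Finset.sum_nonneg (fun s _ => by positivity)
  have hXne : X.Nonempty := by
    rw [← Finset.card_pos]
    omega
  -- the inequality for one letter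
  have hone : ∀ s ∈ J, Module.finrank ℚ C +
      ((fun g : G => (g : G ⧸ Subgroup.zpowers (γ s * k s * (γ s)⁻¹))) '' (X : Set G)).ncard ≤
        (Y s).card := by
    intro s hs
    have h1 := finrank_zsIn_le (Subgroup.zpowers (k s)) (Subgroup.zpowers (k s)) (Y s)
    have h2 : Module.finrank ℚ C ≤ Module.finrank ℚ
        (zsIn (Subgroup.zpowers (k s)) (Subgroup.zpowers (k s)) (Y s)) := by
      have hmem : ∀ a ∈ C, (m a) s ∈
          zsIn (Subgroup.zpowers (k s)) (Subgroup.zpowers (k s)) (Y s) := by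
        intro a ha
        have h4 : ZS (Subgroup.zpowers (k s)) ((m a) s) := by
          rw [hms s hs]
          exact (ji_zs _ _).smul _
        exact ⟨fun g hg => ha.2 s g hg, h4, h4⟩
      let F : C →ₗ[ℚ] (zsIn (Subgroup.zpowers (k s)) (Subgroup.zpowers (k s)) (Y s)) :=
        { toFun := fun a => ⟨(m a.1) s, hmem a.1 a.2⟩
          map_add' := fun a b => Subtype.ext (by
            show (m (a.1 + b.1)) s = (m a.1) s + (m b.1) s
            rw [map_add]
            rfl)
          map_smul' := fun q a => Subtype.ext (by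
            show (m (q • a.1)) s = q • (m a.1) s
            rw [map_smul]
            rfl) }
      have hF : Injective F := by
        rw [← LinearMap.ker_eq_bot, LinearMap.ker_eq_bot']
        intro a ha
        apply Subtype.ext
        refine MonoidAlgebra.ext (Finsupp.ext fun g => ?_)
        by_contra hne
        have h5 : (a.1 * el (γ s)).coeff (g * γ s) ≠ 0 := by
          rw [mulel_coeff, mul_inv_cancel_right]
          exact hne
        obtain ⟨u, hu, -⟩ := ji_coset _ (hinf s hs) _ h5
        have h6 : (m a.1) s = 0 := congrArg Subtype.val ha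
        rw [hms s hs] at h6
        rcases smul_eq_zero.mp h6 with h7 | h7
        · exact hc s hs h7
        · rw [h7] at hu
          exact hu rfl
      have hfd' : FiniteDimensional ℚ
          (zsIn (Subgroup.zpowers (k s)) (Subgroup.zpowers (k s)) (Y s)) :=
        finiteDimensional_of_supp (Y s) _ (fun y hy => hy.1)
      exact LinearMap.finrank_le_finrank_of_injective hF
    have h3 : ((fun g : G => (g : G ⧸ Subgroup.zpowers (γ s * k s * (γ s)⁻¹))) ''
        (X : Set G)).ncard ≤
        ((fun g : G => (g : G ⧸ Subgroup.zpowers (k s))) '' (Y s : Set G)).ncard := by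
      have h4 : ((fun g : G => (g : G ⧸ Subgroup.zpowers (γ s * k s * (γ s)⁻¹))) ''
          (X : Set G)).ncard ≤
          ((fun g : G => ((g * γ s : G) : G ⧸ Subgroup.zpowers (k s))) '' (X : Set G)).ncard := by
        apply ji_ncard _ _ _ (Finset.finite_toSet X)
        intro a b hab
        rw [QuotientGroup.eq] at hab ⊢
        obtain ⟨n, hn⟩ := Subgroup.mem_zpowers_iff.mp hab
        refine Subgroup.mem_zpowers_iff.mpr ⟨n, ?_⟩
        rw [conj_zpow, hn]
        group
      refine h4.trans (Set.ncard_le_ncard ?_ ((Finset.finite_toSet (Y s)).image _))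
      rintro _ ⟨g, hg, rfl⟩
      obtain ⟨a, ha, hag⟩ := hX' g hg
      have h5 : (a * el (γ s)).coeff (g * γ s) ≠ 0 := by
        rw [mulel_coeff, mul_inv_cancel_right]
        exact hag
      obtain ⟨u, hu, huc⟩ := ji_coset _ (hinf s hs) _ h5
      refine ⟨u, ?_, ?_⟩
      · apply ha.2 s u
        rw [hms s hs, MonoidAlgebra.coeff_smul, Finsupp.smul_apply]
        exact smul_ne_zero (hc s hs) hu
      · show (u : G ⧸ Subgroup.zpowers (k s)) = ((g * γ s : G) : G ⧸ Subgroup.zpowers (k s))
        rw [eq_comm, QuotientGroup.eq]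
        exact huc
    omega
  have hforest := coset_forest (fun s : J => γ s * k s * (γ s)⁻¹) hfree (X : Set G)
    (Finset.finite_toSet X) (by exact_mod_cast hXne)
  rw [Set.ncard_coe_finset, Fintype.card_coe] at hforest
  have hsum : ∑ s : J, (((fun g : G => (g : G ⧸ Subgroup.zpowers (γ s * k s * (γ s)⁻¹))) ''
      (X : Set G)).ncard : ℤ) = ∑ s ∈ J, (((fun g : G =>
        (g : G ⧸ Subgroup.zpowers (γ s * k s * (γ s)⁻¹))) '' (X : Set G)).ncard : ℤ) :=
    Finset.sum_coe_sort J (fun s => (((fun g : G =>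
        (g : G ⧸ Subgroup.zpowers (γ s * k s * (γ s)⁻¹))) '' (X : Set G)).ncard : ℤ))
  rw [hsum] at hforest
  have htotal : ∑ s ∈ J, ((Module.finrank ℚ C : ℤ) + (((fun g : G =>
      (g : G ⧸ Subgroup.zpowers (γ s * k s * (γ s)⁻¹))) '' (X : Set G)).ncard : ℤ)) ≤
        ∑ s ∈ J, ((Y s).card : ℤ) := by
    apply Finset.sum_le_sum
    intro s hs
    have := hone s hs
    exact_mod_cast this
  rw [Finset.sum_add_distrib, Finset.sum_const, nsmul_eq_mul] at htotal
  have hJ1 : (1 : ℤ) ≤ J.card := by exact_mod_cast hJ.card_pos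
  have hd1 : (Module.finrank ℚ (cycIn x Y) : ℤ) ≤ Module.finrank ℚ C := by exact_mod_cast hdim
  have hd2 : (Module.finrank ℚ C : ℤ) ≤ X.card := by exact_mod_cast hdimX
  have hd0 : (0 : ℤ) ≤ Module.finrank ℚ (cycIn x Y) := by positivity
  nlinarith

end JI

end Pool.Agent.SurfExact
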