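import Pool.Agent.SurfExact.BasicB
import Pool.Agent.SurfGrowth.Euclid

/-!
# MP_5bf54f_al, Theorem B, package B0a: the Euclidean algorithm of SurfGrowth/Euclid.lean for an
abstract predicate on integral characters.
-/

set_option autoImplicit false

namespace Pool.Agent.SurfExact

open Pool.Agent.SurfGrowth Pool.Agent.SurfGrowth.SurfaceGroup

namespace KE

/-- closure of a predicate on characters under the moves -/
structure EHyp {n : ℕ} (P : (Fin (n + 1) × Bool → ℤ) → Prop) : Prop where
  T : ∀ (i : Fin (n + 1)) (s : Bool) (ε : ℤ) {m m' : Fin (n + 1) × Bool → ℤ},
    m (i, s) = m' (i, s) + ε * m' (i, !s) → (∀ y, y ≠ (i, s) → m y = m' y) → P m' → P m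
  S : ∀ (j : Fin n) {m m' : Fin (n + 1) × Bool → ℤ},
    m (0, false) = m' (0, false) + m' (j.succ, false) →
    m (j.succ, true) = m' (j.succ, true) - m' (0, true) →
    (∀ y, y ≠ (0, false) → y ≠ (j.succ, true) → m y = m' y) → P m' → P m
  base : ∀ {m : Fin (n + 1) × Bool → ℤ}, m (0, false) ≠ 0 → (∀ y, y ≠ (0, false) → m y = 0) → P m

section

variable {n : ℕ} {P : (Fin (n + 1) × Bool → ℤ) → Prop} {m : Fin (n + 1) × Bool → ℤ}
  {i : Fin (n + 1)} {x y : ℤ} (H : EHyp P)

include H

theorem redA (ε : ℤ) (h : P (setH m i (x - ε * y) y)) : P (setH m i x y) := by
  refine H.T i false ε ?_ ?_ h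
  · simp [setH]
  · rintro ⟨k, s⟩ hk
    unfold setH
    by_cases hki : k = i
    · subst hki
      cases s
      · exact absurd rfl hk
      · simp
    · simp [hki]

theorem redB (ε : ℤ) (h : P (setH m i x (y - ε * x))) : P (setH m i x y) := by
  refine H.T i true ε ?_ ?_ h
  · simp [setH]
  · rintro ⟨k, s⟩ hk
    unfold setH
    by_cases hki : k = i
    · subst hki
      cases s
      · simp
      · exact absurd rfl hk
    · simp [hki]

theorem rot (h : P (setH m i (-y) x)) : P (setH m i x y) := by
  apply redA H 1
  apply redB H (-1)
  apply redA H 1
  convert h using 2 <;> ring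

theorem neg (h : P (setH m i (-x) (-y))) : P (setH m i x y) := by
  apply rot H
  apply rot H
  exact h

theorem rot3 (h : P (setH m i y (-x))) : P (setH m i x y) := by
  apply neg H
  apply rot H
  rw [neg_neg]
  exact h

/-- a handle with one vanishing coordinate can be normalised -/
theorem norm_handle (hxy : x = 0 ∨ y = 0) :
    ∃ X : ℤ, X.natAbs = x.natAbs + y.natAbs ∧
      ∀ (M : Fin (n + 1) × Bool → ℤ), P (setH M i X 0) → P (setH M i x y) := by
  rcases hxy with h | h
  · refine ⟨-y, by simp [h], ?_⟩
    intro M hM
    apply rot H
    rw [h]
    exact hM
  · refine ⟨x, by simp [h], ?_⟩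
    intro M hM
    rw [h]
    exact hM

end

section

variable {n : ℕ} {P : (Fin (n + 1) × Bool → ℤ) → Prop} {m : Fin (n + 1) × Bool → ℤ} {j : Fin n}
  {x y x' y' : ℤ} (H : EHyp P)

include H

theorem slide (h : P (setH (setH m 0 (x - x') y) j.succ x' (y' + y))) :
    P (setH (setH m 0 x y) j.succ x' y') := by
  have hne : (0 : Fin (n + 1)) ≠ j.succ := (Fin.succ_ne_zero j).symm
  refine H.S j ?_ ?_ ?_ h
  · simp [setH, hne]
  · simp [setH, hne]
  · rintro ⟨k, s⟩ h1 h2
    unfold setH
    by_cases hk : k = j.succ
    · subst hk
      cases s
      · simp
      · exact absurd rfl h2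
    · by_cases hk0 : k = 0
      · subst hk0
        cases s
        · exact absurd rfl h1
        · simp [hne]
      · simp [hk, hk0]

omit H in
theorem at0 {x2 y2 : ℤ} (hred : ∀ M : Fin (n + 1) × Bool → ℤ, P (setH M 0 x2 y2) →
      P (setH M 0 x y))
    (h : P (setH (setH m 0 x2 y2) j.succ x' y')) : P (setH (setH m 0 x y) j.succ x' y') := by
  have hne : (0 : Fin (n + 1)) ≠ j.succ := (Fin.succ_ne_zero j).symm
  rw [setH_comm m hne] at h ⊢
  exact hred _ h

theorem s1 (h : P (setH (setH m 0 (x - x') 0) j.succ x' 0)) :
    P (setH (setH m 0 x 0) j.succ x' 0) := by
  apply slide H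
  rw [add_zero]
  exact h

theorem s1' (h : P (setH (setH m 0 (x + x') 0) j.succ x' 0)) :
    P (setH (setH m 0 x 0) j.succ x' 0) := by
  apply neg H
  rw [neg_zero]
  apply s1 H
  rw [sub_neg_eq_add]
  apply neg H
  rw [neg_zero, neg_neg]
  exact h

theorem s2 (h : P (setH (setH m 0 x 0) j.succ (x' + x) 0)) :
    P (setH (setH m 0 x 0) j.succ x' 0) := by
  apply rot H
  refine at0 (x2 := -0) (y2 := x) (fun M hM => rot H hM) ?_
  rw [neg_zero]
  apply slide H
  rw [sub_zero]
  refine at0 (x2 := x) (y2 := -0) (fun M hM => rot3 H hM) ?_
  apply rot3 H
  rw [neg_zero]
  exact h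

theorem s2' (h : P (setH (setH m 0 x 0) j.succ (x' - x) 0)) :
    P (setH (setH m 0 x 0) j.succ x' 0) := by
  refine at0 (x2 := -x) (y2 := -0) (fun M hM => neg H hM) ?_
  rw [neg_zero]
  apply s2 H
  rw [← sub_eq_add_neg]
  refine at0 (x2 := - -x) (y2 := -0) (fun M hM => neg H hM) ?_
  rw [neg_neg, neg_zero]
  exact h

theorem good_all_aux (N : ℕ) : ∀ m : Fin (n + 1) × Bool → ℤ, wt m = N → m ≠ 0 → P m := by
  induction N using Nat.strong_induction_on with
  | _ N ih =>
    intro m hN hm
    -- Case A
    by_cases hA : ∃ i, m (i, false) ≠ 0 ∧ m (i, true) ≠ 0
    · obtain ⟨i, h1, h2⟩ := hA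
      have wt_lt : ∀ m' : Fin (n + 1) × Bool → ℤ, (∀ z, (m' z).natAbs ≤ (m z).natAbs) →
          (∃ z, (m' z).natAbs < (m z).natAbs) → wt m' < wt m := by
        rintro m' hle ⟨⟨k, s⟩, hlt⟩
        unfold wt
        refine Fin.cases ?_ (fun k' => ?_) k hlt
        · intro hlt0
          have a1 := hle (0, false)
          have a2 := hle (0, true)
          have a3 : ∑ k : Fin n, ((m' (k.succ, false)).natAbs + (m' (k.succ, true)).natAbs) ≤
            ∑ k : Fin n, ((m (k.succ, false)).natAbs + (m (k.succ, true)).natAbs) :=
            Finset.sum_le_sum (fun k _ => Nat.add_le_add (hle _) (hle _))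
          cases s <;> omega
        · intro hlt0
          have a1 := hle (0, false)
          have a2 := hle (0, true)
          have a3 : ∑ k : Fin n, ((m' (k.succ, false)).natAbs + (m' (k.succ, true)).natAbs) <
            ∑ k : Fin n, ((m (k.succ, false)).natAbs + (m (k.succ, true)).natAbs) := by
            apply Finset.sum_lt_sum (fun k _ => Nat.add_le_add (hle _) (hle _))
            refine ⟨k', Finset.mem_univ _, ?_⟩
            have b1 := hle (k'.succ, false)
            have b2 := hle (k'.succ, true)
            cases s <;> omega
          omega
      rw [← setH_self m i]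
      rcases le_total (m (i, true)).natAbs (m (i, false)).natAbs with hle | hle
      · obtain ⟨ε, _, hε⟩ := exists_sign _ _ h2 hle
        apply redA H ε
        apply ih _ _ _ rfl
        · intro h0
          have := congrFun h0 (i, true)
          simp only [setH, if_true, Pi.zero_apply] at this
          exact h2 this
        · rw [← hN]
          apply wt_lt
          · rintro ⟨k, s⟩
            unfold setH
            by_cases hk : k = i
            · subst hk
              cases s
              · simpa using hε.le
              · simp
            · simp [hk]
          · exact ⟨(i, false), by simpa [setH] using hε⟩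
      · obtain ⟨ε, _, hε⟩ := exists_sign _ _ h1 hle
        apply redB H ε
        apply ih _ _ _ rfl
        · intro h0
          have := congrFun h0 (i, false)
          simp only [setH, if_true, Pi.zero_apply, Bool.false_eq_true, if_false] at this
          exact h1 this
        · rw [← hN]
          apply wt_lt
          · rintro ⟨k, s⟩
            unfold setH
            by_cases hk : k = i
            · subst hk
              cases s
              · simp
              · simpa using hε.le
            · simp [hk]
          · exact ⟨(i, true), by simpa [setH] using hε⟩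
    · push Not at hA
      have hz : ∀ i, m (i, false) = 0 ∨ m (i, true) = 0 := by
        intro i
        by_cases h : m (i, false) = 0
        · exact Or.inl h
        · exact Or.inr (hA i h)
      obtain ⟨X, hX, hXr⟩ := norm_handle H (i := (0 : Fin (n + 1))) (hz 0)
      by_cases hB : ∃ j : Fin n, m (j.succ, false) ≠ 0 ∨ m (j.succ, true) ≠ 0
      · obtain ⟨j, hj⟩ := hB
        have hne : (0 : Fin (n + 1)) ≠ j.succ := (Fin.succ_ne_zero j).symm
        obtain ⟨X', hX', hXr'⟩ := norm_handle H (i := j.succ) (hz j.succ)
        have hX'0 : X' ≠ 0 := by
          intro h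
          rw [h] at hX'
          simp only [Int.natAbs_zero] at hX'
          rcases hj with h1 | h1
          · have := Int.natAbs_ne_zero.mpr h1
            omega
          · have := Int.natAbs_ne_zero.mpr h1
            omega
        have hself : m = setH (setH m 0 (m (0, false)) (m (0, true))) j.succ
            (m (j.succ, false)) (m (j.succ, true)) := by
          rw [setH_self m 0, setH_self]
        rw [hself]
        apply hXr'
        refine at0 (j := j) hXr ?_
        have hwt := wt_split m j
        have main : ∀ a b : ℤ, a.natAbs + 2 * b.natAbs < X.natAbs + 2 * X'.natAbs →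
            (a ≠ 0 ∨ b ≠ 0) → P (setH (setH m 0 a 0) j.succ b 0) := by
          intro a b hab hab0
          apply ih _ _ _ rfl
          · intro h0
            rcases hab0 with h1 | h1
            · have := congrFun h0 (0, false)
              simp only [setH, hne, if_false, if_true, Pi.zero_apply, Bool.false_eq_true] at this
              exact h1 this
            · have := congrFun h0 (j.succ, false)
              simp only [setH, if_false, if_true, Pi.zero_apply, Bool.false_eq_true] at this
              exact h1 this
          · rw [wt_S4, ← hN, hwt]
            simp only [Int.natAbs_zero]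
            omega
        by_cases hX0 : X = 0
        · subst hX0
          apply s1' H
          apply s2' H
          rw [zero_add, sub_self]
          apply main
          · have := Int.natAbs_ne_zero.mpr hX'0
            simp only [Int.natAbs_zero]
            omega
          · exact Or.inl hX'0
        · have hXn := Int.natAbs_ne_zero.mpr hX0
          have hXn' := Int.natAbs_ne_zero.mpr hX'0
          rcases le_total X'.natAbs X.natAbs with hle | hle
          · obtain ⟨ε, hε1, hε⟩ := exists_sign _ _ hX'0 hle
            have hgood : P (setH (setH m 0 (X - ε * X') 0) j.succ X' 0) := by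
              apply main
              · omega
              · exact Or.inr hX'0
            rcases hε1 with rfl | rfl
            · apply s1 H
              rwa [one_mul] at hgood
            · apply s1' H
              have : X - -1 * X' = X + X' := by ring
              rwa [this] at hgood
          · obtain ⟨ε, hε1, hε⟩ := exists_sign _ _ hX0 hle
            have hgood : P (setH (setH m 0 X 0) j.succ (X' - ε * X) 0) := by
              apply main
              · omega
              · exact Or.inl hX0
            rcases hε1 with rfl | rfl
            · apply s2' H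
              rwa [one_mul] at hgood
            · apply s2 H
              have : X' - -1 * X = X' + X := by ring
              rwa [this] at hgood
      · push Not at hB
        rw [← setH_self m 0]
        apply hXr
        apply H.base
        · simp only [setH, if_true, Bool.false_eq_true, if_false]
          intro h
          rw [h, Int.natAbs_zero] at hX
          apply hm
          funext z
          rcases z with ⟨k, s⟩
          refine Fin.cases ?_ (fun k' => ?_) k
          · cases s
            · have : (m (0, false)).natAbs = 0 := by omega
              simpa using this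
            · have : (m (0, true)).natAbs = 0 := by omega
              simpa using this
          · cases s
            · exact (hB k').1
            · exact (hB k').2
        · rintro ⟨k, s⟩ hk
          refine Fin.cases ?_ (fun k' => ?_) k hk
          · intro hk
            cases s
            · exact absurd rfl hk
            · simp [setH]
          · intro _
            simp only [setH, Fin.succ_ne_zero, if_false]
            cases s
            · exact (hB k').1
            · exact (hB k').2

theorem good_all (m : Fin (n + 1) × Bool → ℤ) (hm : m ≠ 0) : P m :=
  good_all_aux H _ m rfl hm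


end

end KE

end Pool.Agent.SurfExact
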