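import Pool.Agent.SurfExact.CaseC
import Pool.Agent.SurfExact.Euler
import Pool.Agent.SurfExact.JIneq
import Pool.Agent.SurfGrowth.Indep

/-!
# MP_5bf54f_al: the main inequality when not all letters are cyclic (package A17)
-/

set_option autoImplicit false
set_option linter.unusedSectionVars false

namespace Pool.Agent.SurfExact

open Function Pool.Agent.SurfGrowth Finset

/-- The character dual to the letters. -/
theorem exists_chi {g : ℕ} (hg : 2 ≤ g) {H : Type} [Group H] (j : H →* SurfaceGroup g)
    (hj : Injective j) {ι : Type} [Fintype ι] [DecidableEq ι] (hι : Fintype.card ι = 2 * g)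
    (x : ι → H) (hx : Subgroup.closure (Set.range x) = ⊤)
    (hind : LinearIndependent ℚ (fun i => Multiplicative.toAdd (SurfaceGroup.ab (j (x i))))) :
    ∃ χ : H →* Multiplicative (ι → ℤ), ∀ t, χ (x t) = Multiplicative.ofAdd (Pi.single t 1) := by
  have hne : Nonempty ι := by
    rw [← Fintype.card_pos_iff, hι]
    omega
  obtain ⟨f, hf⟩ := hyp_sub (by omega) j hj hι x hx hind (Classical.arbitrary ι)
  exact hf.ab

/-- The classes in homology in terms of `χ`. -/
theorem ab_eq_sum {g : ℕ} {H : Type} [Group H] (j : H →* SurfaceGroup g)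
    {ι : Type} [Fintype ι] [DecidableEq ι] (x : ι → H) (hx : Subgroup.closure (Set.range x) = ⊤)
    (χ : H →* Multiplicative (ι → ℤ)) (hχ : ∀ t, χ (x t) = Multiplicative.ofAdd (Pi.single t 1))
    (y : H) : Multiplicative.toAdd (SurfaceGroup.ab (j y)) =
      ∑ i, ((Multiplicative.toAdd (χ y) i : ℤ) : ℚ) •
        Multiplicative.toAdd (SurfaceGroup.ab (j (x i))) := by
  have hy : y ∈ Subgroup.closure (Set.range x) := by rw [hx]; trivial
  induction hy using Subgroup.closure_induction with
  | mem z hz =>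
    obtain ⟨t, rfl⟩ := hz
    rw [hχ, Finset.sum_eq_single t]
    · simp
    · intro b _ hb
      simp [Pi.single_eq_of_ne hb]
    · simp
  | one => simp
  | mul a b _ _ ha hb =>
    rw [map_mul, map_mul, toAdd_mul, ha, hb, ← Finset.sum_add_distrib]
    refine Finset.sum_congr rfl fun i _ => ?_
    rw [map_mul, toAdd_mul, Pi.add_apply, ← add_smul]
    push_cast
    rfl
  | inv a _ ha =>
    rw [map_inv, map_inv, toAdd_inv, ha, ← Finset.sum_neg_distrib]
    refine Finset.sum_congr rfl fun i _ => ?_
    rw [map_inv, toAdd_inv, Pi.neg_apply, ← neg_smul]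
    push_cast
    rfl

/-- Elements with independent `χ`-rows, fewer than `2g` of them, are a free family. -/
theorem free_of_rows {g : ℕ} (hg : 2 ≤ g) {H : Type} [Group H] (j : H →* SurfaceGroup g)
    {ι : Type} [Fintype ι] [DecidableEq ι] (x : ι → H)
    (hx : Subgroup.closure (Set.range x) = ⊤)
    (hind : LinearIndependent ℚ (fun i => Multiplicative.toAdd (SurfaceGroup.ab (j (x i)))))
    (χ : H →* Multiplicative (ι → ℤ)) (hχ : ∀ t, χ (x t) = Multiplicative.ofAdd (Pi.single t 1))
    {κ : Type} [Fintype κ] (y : κ → H) (hκ : Fintype.card κ < 2 * g)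
    (hy : LinearIndependent ℚ (fun s => fun i => ((Multiplicative.toAdd (χ (y s)) i : ℤ) : ℚ))) :
    Injective (FreeGroup.lift y) := by
  obtain ⟨n, rfl⟩ : ∃ n, g = n + 1 := ⟨g - 1, by omega⟩
  have h1 : LinearIndependent ℚ (fun s => Multiplicative.toAdd (SurfaceGroup.ab (j (y s)))) := by
    have h2 : (fun s => Multiplicative.toAdd (SurfaceGroup.ab (j (y s)))) =
        (fun s => (Fintype.linearCombination ℚ
          (fun i => Multiplicative.toAdd (SurfaceGroup.ab (j (x i)))))
          (fun i => ((Multiplicative.toAdd (χ (y s)) i : ℤ) : ℚ))) := by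
      funext s
      rw [ab_eq_sum j x hx χ hχ, Fintype.linearCombination_apply]
    rw [h2]
    refine hy.map' _ ?_
    rw [LinearMap.ker_eq_bot]
    intro a b hab
    rw [Fintype.linearCombination_apply, Fintype.linearCombination_apply] at hab
    have h3 := Fintype.linearIndependent_iff.1 hind (fun i => a i - b i) (by
      simp only [sub_smul, Finset.sum_sub_distrib]
      rw [hab, sub_self])
    funext i
    exact sub_eq_zero.1 (h3 i)
  have h4 := SurfaceGroup.indep_free (fun s => j (y s)) h1 hκ
  have h5 : FreeGroup.lift (fun s => j (y s)) = j.comp (FreeGroup.lift y) := by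
    apply FreeGroup.ext_hom
    intro s
    simp
  rw [h5, MonoidHom.coe_comp] at h4
  exact Function.Injective.of_comp h4

theorem update_gen {H : Type} [Group H] {ι : Type} [DecidableEq ι] (x : ι → H)
    (hx : Subgroup.closure (Set.range x) = ⊤) (s : ι) :
    Subgroup.closure (Set.range (update x s (x s)⁻¹)) = ⊤ := by
  rw [eq_top_iff, ← hx, Subgroup.closure_le]
  rintro _ ⟨t, rfl⟩
  by_cases ht : t = s
  · subst ht
    have h1 : (x t)⁻¹ ∈ Subgroup.closure (Set.range (update x t (x t)⁻¹)) :=
      Subgroup.subset_closure ⟨t, by rw [update_self]⟩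
    have h2 := Subgroup.inv_mem _ h1
    rwa [inv_inv] at h2
  · exact Subgroup.subset_closure ⟨t, by rw [update_of_ne ht]⟩

theorem update_ind {g : ℕ} {H : Type} [Group H] (j : H →* SurfaceGroup g)
    {ι : Type} [Fintype ι] [DecidableEq ι] (x : ι → H)
    (hind : LinearIndependent ℚ (fun i => Multiplicative.toAdd (SurfaceGroup.ab (j (x i)))))
    (s : ι) : LinearIndependent ℚ
      (fun i => Multiplicative.toAdd (SurfaceGroup.ab (j (update x s (x s)⁻¹ i)))) := by
  have h1 := hind.units_smul (fun i => if i = s then (-1 : ℚˣ) else 1)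
  have h2 : ((fun i => if i = s then (-1 : ℚˣ) else 1) • (fun i =>
      Multiplicative.toAdd (SurfaceGroup.ab (j (x i)))) : ι → _) =
      (fun i => Multiplicative.toAdd (SurfaceGroup.ab (j (update x s (x s)⁻¹ i)))) := by
    funext i
    rw [Pi.smul_apply']
    by_cases hi : i = s
    · subst hi
      rw [if_pos rfl, update_self, map_inv, map_inv, toAdd_inv, Units.smul_def]
      simp
    · rw [if_neg hi, update_of_ne hi, one_smul]
  rwa [h2] at h1

theorem main_ineq {g : ℕ} (hg : 2 ≤ g) {H : Type} [Group H] (j : H →* SurfaceGroup g)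
    (hj : Injective j) {ι : Type} [Fintype ι] [DecidableEq ι] (hι : Fintype.card ι = 2 * g)
    (x : ι → H) (hx : Subgroup.closure (Set.range x) = ⊤)
    (hind : LinearIndependent ℚ (fun i => Multiplicative.toAdd (SurfaceGroup.ab (j (x i)))))
    (hns : ∃ s, Pg x s ⊓ Pc x s = ⊥) (A : Finset H) (hA : A.Nonempty) :
    (2 * (Fintype.card ι : ℤ) - 1) * ((edges x A).card + 1 - A.card) ≤ (edges x A).card := by
  classical
  set Y := edgeFam x A with hY
  have hY' : ∀ t, ∀ y ∈ Y t, y ∈ A ∧ y * x t ∈ A := by
    intro t y hy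
    rw [hY, edgeFam, mem_filter] at hy
    exact hy
  have hE := euler x Y A hA hY'
  rw [sum_card_edgeFam x A] at hE
  set D := Module.finrank ℚ (cycIn x Y) with hD
  -- it is enough to bound the dimension
  suffices hmain : (2 * (Fintype.card ι : ℤ) - 1) * D ≤ (edges x A).card by
    have h1 : ((edges x A).card + 1 - A.card : ℤ) ≤ D := by
      have : ((edges x A).card + 1 : ℤ) ≤ D + A.card := by exact_mod_cast hE
      linarith
    have h2 : (0 : ℤ) ≤ 2 * (Fintype.card ι : ℤ) - 1 := by
      rw [hι]
      push_cast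
      have : (2 : ℤ) ≤ g := by exact_mod_cast hg
      linarith
    exact (mul_le_mul_of_nonneg_left h1 h2).trans hmain
  by_cases hbot : cycIn x Y = ⊥
  · have : D = 0 := by rw [hD, hbot, finrank_bot]
    rw [this]
    simp
  -- the letters of the first case
  have hone : ∀ t, Pg x t ⊓ Pc x t = ⊥ → 2 * (D : ℤ) + 1 ≤ ((Y t).card : ℤ) := by
    intro t ht
    obtain ⟨f, hf⟩ := hyp_sub (by omega) j hj hι x hx hind t
    obtain ⟨f', hf'⟩ := hyp_sub (by omega) j hj hι _ (update_gen x hx t) (update_ind j x hind t) t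
    exact_mod_cast B_case_one hf hf' ht Y hbot
  set J : Finset ι := univ.filter (fun s => Pg x s ⊓ Pc x s ≠ ⊥) with hJdef
  have hJC : ∀ s ∈ J, Pg x s ⊓ Pc x s ≠ ⊥ := by
    intro s hs
    rw [hJdef, mem_filter] at hs
    exact hs.2
  have hsum : ((edges x A).card : ℤ) = ∑ t ∈ J, ((Y t).card : ℤ) + ∑ t ∈ Jᶜ, ((Y t).card : ℤ) := by
    rw [Finset.sum_add_sum_compl, ← sum_card_edgeFam x A]
    push_cast
    rfl
  have hcompl : 2 * (D : ℤ) * (Jᶜ).card ≤ ∑ t ∈ Jᶜ, ((Y t).card : ℤ) := by
    rw [mul_comm, ← nsmul_eq_mul, ← Finset.sum_const]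
    apply Finset.sum_le_sum
    intro t ht
    have ht' : Pg x t ⊓ Pc x t = ⊥ := by
      by_contra hcon
      rw [mem_compl] at ht
      apply ht
      rw [hJdef, mem_filter]
      exact ⟨mem_univ _, hcon⟩
    have := hone t ht'
    linarith
  have hcard : ((Jᶜ).card : ℤ) = Fintype.card ι - J.card := by
    rw [card_compl]
    have : J.card ≤ Fintype.card ι := card_le_univ J
    push_cast [this]
    ring
  by_cases hJ : J.Nonempty
  · obtain ⟨χ, hχ⟩ := exists_chi hg j hj hι x hx hind
    obtain ⟨ρ, c, γ, k, hcyc, hck, hrow⟩ := caseC hg j hj hι x hx hind χ hχ J hJ hJC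
    have hU := uniqueProds_sub hg j hj hι x hx hind
    have hJlt : J.card < 2 * g := by
      obtain ⟨s, hs⟩ := hns
      rw [← hι]
      refine (card_lt_univ_of_notMem (x := s) ?_)
      intro hsJ
      exact hJC s hsJ hs
    have hfree : Injective (FreeGroup.lift (fun s : J => γ s * k s * (γ s)⁻¹)) := by
      apply free_of_rows hg j x hx hind χ hχ (fun s : J => γ s * k s * (γ s)⁻¹)
        (by rw [Fintype.card_coe]; exact hJlt)
      have h1 : LinearIndependent ℚ (fun s : J => omegaRow χ (ρ s)) :=
        hrow.comp (fun s : J => (s : ι)) Subtype.val_injective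
      have h2 : (fun s : J => omegaRow χ (ρ s)) = fun s : J => (- c s) •
          (fun i => ((Multiplicative.toAdd (χ (γ s * k s * (γ s)⁻¹)) i : ℤ) : ℚ)) := by
        funext s
        rw [(hck s s.2).2, omegaRow_unit]
        have h0 : χ (γ s * k s * (γ s)⁻¹) = χ (k s) := by
          rw [map_mul, map_mul, map_inv, mul_comm (χ (γ s)), mul_inv_cancel_right]
        rw [h0]
        funext i
        rw [Pi.smul_apply, smul_eq_mul]
      rw [h2] at h1
      have h3 := h1.units_smul (fun s : J => (Units.mk0 (- c s) (neg_ne_zero.2 (hck s s.2).1))⁻¹)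
      have h4 : ((fun s : J => (Units.mk0 (- c s) (neg_ne_zero.2 (hck s s.2).1))⁻¹) •
          (fun s : J => (- c s) •
          (fun i => ((Multiplicative.toAdd (χ (γ s * k s * (γ s)⁻¹)) i : ℤ) : ℚ))) :
            J → (ι → ℚ)) = fun s : J =>
          (fun i => ((Multiplicative.toAdd (χ (γ s * k s * (γ s)⁻¹)) i : ℤ) : ℚ)) := by
        funext s
        rw [Pi.smul_apply', Units.smul_def, smul_smul, Units.val_inv_eq_inv_val, Units.val_mk0,
          inv_mul_cancel₀ (neg_ne_zero.2 (hck s s.2).1), one_smul]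
      rwa [h4] at h3
    have h4 := J_ineq x (noZeroDivisors_of_uniqueProds hU) ρ hcyc J hJ γ k c
      (fun s hs => (hck s hs).1) (fun s hs => (hck s hs).2) hfree Y
    rw [← hD] at h4
    rw [hsum]
    rw [hcard] at hcompl
    nlinarith [h4, hcompl]
  · rw [not_nonempty_iff_eq_empty] at hJ
    rw [hJ] at hsum hcompl
    rw [hsum]
    rw [hJ] at hcard
    simp only [card_empty, Nat.cast_zero, sub_zero] at hcard
    rw [hcard] at hcompl
    simp only [sum_empty, zero_add]
    have : (0 : ℤ) ≤ D := by positivity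
    nlinarith [hcompl]

end Pool.Agent.SurfExact
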