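import Pool.Agent.SurfExact.BasicB

/-!
# MP_5bf54f_al, package B1: Nielsen's theorem (an element of a basis in the kernel)
-/

set_option autoImplicit false
set_option linter.unusedSectionVars false

namespace Pool.Agent.SurfExact

open Function

namespace NielK

/-! ### common prefixes -/

section Lists

variable {α : Type*} [DecidableEq α]

/-- length of the longest common prefix -/
def cpl : List α → List α → ℕ
  | [], _ => 0
  | _ :: _, [] => 0
  | a :: l, b :: m => if a = b then cpl l m + 1 else 0

theorem le_cpl_iff {l m : List α} {k : ℕ} :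
    k ≤ cpl l m ↔ k ≤ l.length ∧ k ≤ m.length ∧ l.take k = m.take k := by
  induction l generalizing m k with
  | nil =>
    simp only [cpl, List.length_nil, Nat.le_zero, List.take_nil]
    constructor
    · rintro rfl; simp
    · exact fun h => h.1
  | cons a l ih =>
    cases m with
    | nil =>
      simp only [cpl, List.length_nil, Nat.le_zero, List.take_nil]
      constructor
      · rintro rfl; simp
      · exact fun h => h.2.1
    | cons b m =>
      cases k with
      | zero => simp
      | succ k =>
        simp only [cpl, List.length_cons, List.take_succ_cons, List.cons.injEq,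
          Nat.add_le_add_iff_right]
        by_cases h : a = b
        · simp [h, ih]
        · simp [h]

theorem cpl_trans {l m r : List α} {k : ℕ} (h1 : k ≤ cpl l m) (h2 : k ≤ cpl m r) :
    k ≤ cpl l r := by
  rw [le_cpl_iff] at *
  exact ⟨h1.1, h2.2.1, h1.2.2.trans h2.2.2⟩

theorem cpl_comm (l m : List α) : cpl l m = cpl m l := by
  apply le_antisymm
  · rw [le_cpl_iff]
    obtain ⟨h1, h2, h3⟩ := le_cpl_iff.1 (le_refl (cpl l m))
    exact ⟨h2, h1, h3.symm⟩
  · rw [le_cpl_iff]
    obtain ⟨h1, h2, h3⟩ := le_cpl_iff.1 (le_refl (cpl m l))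
    exact ⟨h2, h1, h3.symm⟩

theorem cpl_eq_of_lt {l m r : List α} (h : cpl l m < cpl m r) : cpl l r = cpl l m := by
  apply le_antisymm
  · by_contra hc
    rw [not_le] at hc
    have h1 : cpl l m + 1 ≤ cpl l r := hc
    have h2 : cpl l m + 1 ≤ cpl r m := by rw [cpl_comm r m]; exact h
    have := cpl_trans h1 h2
    omega
  · exact cpl_trans le_rfl h.le

end Lists

/-! ### words -/

section Words

variable {κ : Type*} [DecidableEq κ]

open FreeGroup

theorem isReduced_invRev {L : List (κ × Bool)} (h : IsReduced L) : IsReduced (invRev L) := by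
  rw [isReduced_iff_reduce_eq] at *
  rw [reduce_invRev, h]

theorem norm_mk_of_reduced {L : List (κ × Bool)} (h : IsReduced L) : (mk L).norm = L.length := by
  unfold FreeGroup.norm
  rw [toWord_mk, h.reduce_eq]

theorem norm_inv_mk_mul (L M : List (κ × Bool)) (hL : IsReduced L) (hM : IsReduced M) :
    ((mk L)⁻¹ * mk M).norm + 2 * cpl L M = L.length + M.length := by
  induction L generalizing M with
  | nil =>
    have : ((mk ([] : List (κ × Bool)))⁻¹ * mk M) = mk M := by
      rw [← one_eq_mk, inv_one, one_mul]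
    rw [this, norm_mk_of_reduced hM]
    simp [cpl]
  | cons a l ih =>
    cases M with
    | nil =>
      have : ((mk (a :: l))⁻¹ * mk ([] : List (κ × Bool))) = (mk (a :: l))⁻¹ := by
        rw [← one_eq_mk, mul_one]
      rw [this, norm_inv_eq, norm_mk_of_reduced hL]
      simp [cpl]
    | cons b m =>
      by_cases h : a = b
      · subst h
        have e : ((mk (a :: l))⁻¹ * mk (a :: m)) = (mk l)⁻¹ * mk m := by
          have e1 : (mk (a :: l) : FreeGroup κ) = mk [a] * mk l := by rw [mul_mk]; rfl
          have e2 : (mk (a :: m) : FreeGroup κ) = mk [a] * mk m := by rw [mul_mk]; rfl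
          rw [e1, e2]; group
        have hl : IsReduced l := List.IsChain.tail hL
        have hm : IsReduced m := List.IsChain.tail hM
        have := ih m hl hm
        rw [e]
        simp only [cpl, if_true, List.length_cons]
        omega
      · have hr : IsReduced (invRev (a :: l) ++ (b :: m)) := by
          unfold FreeGroup.IsReduced
          rw [List.isChain_append]
          refine ⟨isReduced_invRev hL, hM, ?_⟩
          intro x hx y hy
          have hx' : x = (a.1, !a.2) := by
            rw [invRev_cons] at hx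
            simp [invRev] at hx
            exact hx.symm
          have hy' : y = b := by
            simp at hy
            exact hy.symm
          subst hx'
          subst hy'
          intro hab
          simp only at hab ⊢
          have : a.2 ≠ y.2 := fun h' => h (Prod.ext hab h')
          revert this
          cases a.2 <;> cases y.2 <;> simp
        rw [inv_mk, mul_mk, norm_mk_of_reduced hr, List.length_append, invRev_length]
        simp [cpl, h]

/-- length of the common prefix of two elements -/
def cc (x y : FreeGroup κ) : ℕ := cpl x.toWord y.toWord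

theorem cc_comm (x y : FreeGroup κ) : cc x y = cc y x := cpl_comm _ _

theorem norm_inv_mul (x y : FreeGroup κ) : (x⁻¹ * y).norm + 2 * cc x y = x.norm + y.norm := by
  have := norm_inv_mk_mul x.toWord y.toWord isReduced_toWord isReduced_toWord
  rw [mk_toWord, mk_toWord] at this
  exact this

theorem norm_mul (x y : FreeGroup κ) : (x * y).norm + 2 * cc x⁻¹ y = x.norm + y.norm := by
  have := norm_inv_mul x⁻¹ y
  rw [inv_inv, norm_inv_eq] at this
  exact this

theorem cc_le_left (x y : FreeGroup κ) : cc x y ≤ x.norm := (le_cpl_iff.1 le_rfl).1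

theorem cc_inv_self {u : FreeGroup κ} (hu : u ≠ 1) : 2 * cc u⁻¹ u < u.norm := by
  by_contra hc
  rw [not_lt] at hc
  set L := u.toWord with hL
  have hn : 0 < L.length := by
    rw [List.length_pos_iff]
    intro h
    exact hu (toWord_eq_nil_iff.1 h)
  have hc' : L.length ≤ 2 * cpl (invRev L) L := by
    have : cc u⁻¹ u = cpl (invRev L) L := by
      unfold cc
      rw [toWord_inv]
    rw [← this]
    exact hc
  have hk : (L.length + 1) / 2 ≤ cpl (invRev L) L := by omega
  obtain ⟨h1, h2, h3⟩ := le_cpl_iff.1 hk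
  set k := (L.length + 1) / 2 with hkdef
  have hkpos : 0 < k := by omega
  have hred : IsReduced L := isReduced_toWord
  -- compare the letters number k-1
  have e1 : (L.take k)[k - 1]'(by rw [List.length_take]; omega) = L[k - 1]'(by omega) := by
    simp
  have e2 : ((invRev L).take k)[k - 1]'(by rw [List.length_take, invRev_length]; omega) =
      ((L[L.length - 1 - (k - 1)]'(by omega)).1, !(L[L.length - 1 - (k - 1)]'(by omega)).2) := by
    simp [invRev]
  have e3 : L[k - 1]'(by omega) =
      ((L[L.length - 1 - (k - 1)]'(by omega)).1, !(L[L.length - 1 - (k - 1)]'(by omega)).2) := by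
    rw [← e1, ← e2]
    simp only [h3]
  rcases Nat.even_or_odd' L.length with ⟨t, ht | ht⟩
  · -- even: adjacent letters
    have hk1 : k = t := by omega
    have hidx : L.length - 1 - (k - 1) = (k - 1) + 1 := by omega
    have hch := (List.isChain_iff_getElem.1 hred) (k - 1) (by omega)
    simp only [hidx] at e3
    rw [e3] at hch
    simp at hch
  · have hidx : L.length - 1 - (k - 1) = k - 1 := by omega
    simp only [hidx] at e3
    have := congrArg Prod.snd e3
    simp at this

/-- if a word has as many letters as the norm of its element then it is reduced -/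
theorem toWord_mk_of_norm {L : List (κ × Bool)} (h : (mk L).norm = L.length) :
    (mk L).toWord = L := by
  rw [toWord_mk]
  have h1 : (reduce L).Sublist L := Red.sublist reduce.red
  apply h1.eq_of_length
  unfold FreeGroup.norm at h
  rw [toWord_mk] at h
  exact h

end Words


/-! ### signed letters -/

section Signed

variable {X G : Type*} [Group G]

/-- the value of a signed letter -/
def sg (U : X → G) (v : X × Bool) : G := cond v.2 (U v.1) (U v.1)⁻¹

/-- the inverse signed letter -/
def ng (v : X × Bool) : X × Bool := (v.1, !v.2)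

theorem ng_ng (v : X × Bool) : ng (ng v) = v := by simp [ng]

theorem sg_ng (U : X → G) (v : X × Bool) : sg U (ng v) = (sg U v)⁻¹ := by
  rcases v with ⟨x, _ | _⟩ <;> simp [sg, ng]

theorem ng_fst (v : X × Bool) : (ng v).1 = v.1 := rfl

theorem eq_or_ng {v w : X × Bool} (h : v.1 = w.1) : w = v ∨ w = ng v := by
  rcases v with ⟨x, b⟩
  rcases w with ⟨y, b'⟩
  simp only at h
  subst h
  cases b <;> cases b' <;> simp [ng]

theorem lift_apply_eq (U : X → G) (L : List (X × Bool)) :
    FreeGroup.lift U (FreeGroup.mk L) = (L.map (sg U)).prod := by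
  rw [FreeGroup.lift_mk]
  rfl

end Signed

/-! ### injectivity -/

section Inj

variable {X κ : Type*} [DecidableEq κ]

theorem inj_aux (U : X → FreeGroup κ) (h0 : ∀ v, 0 < (sg U v).norm)
    (h1 : ∀ v w, w ≠ ng v → 2 * cc (sg U v)⁻¹ (sg U w) ≤ (sg U v).norm)
    (h2 : ∀ a v w, v ≠ ng a → w ≠ ng v →
      cc (sg U a)⁻¹ (sg U v) + cc (sg U v)⁻¹ (sg U w) < (sg U v).norm)
    (L : List (X × Bool)) : ∀ v, FreeGroup.IsReduced (v :: L) →
      0 < (((v :: L).map (sg U)).prod).norm ∧
        ∀ w, v ≠ ng w → cc (sg U w)⁻¹ (((v :: L).map (sg U)).prod) =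
          cc (sg U w)⁻¹ (sg U v) := by
  induction L with
  | nil =>
    intro v _
    simp only [List.map_cons, List.map_nil, List.prod_cons, List.prod_nil, mul_one]
    exact ⟨h0 v, fun w _ => trivial⟩
  | cons v' L ih =>
    intro v hv
    have hred : FreeGroup.IsReduced (v' :: L) := List.IsChain.tail hv
    have hvv : v' ≠ ng v := by
      rw [FreeGroup.isReduced_cons_cons] at hv
      intro h
      have := hv.1 (by rw [h]; rfl)
      rw [h] at this
      simp [ng] at this
    obtain ⟨ih1, ih2⟩ := ih v' hred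
    set p' := ((v' :: L).map (sg U)).prod with hp'
    have hp : ((v :: v' :: L).map (sg U)).prod = sg U v * p' := by
      rw [hp', List.map_cons (l := v' :: L), List.prod_cons]
    rw [hp]
    have e1 := ih2 v hvv
    have e2 := norm_mul (sg U v) p'
    have e3 := norm_inv_mul (sg U v) (sg U v * p')
    rw [inv_mul_cancel_left] at e3
    rw [e1] at e2
    have e4 := h1 v v' hvv
    have e5 := cc_le_left (sg U v) (sg U v * p')
    refine ⟨?_, ?_⟩
    · omega
    · intro w hw
      have e6 := h2 w v v' hw hvv
      have e7 : cc (sg U w)⁻¹ (sg U v) < cc (sg U v) (sg U v * p') := by omega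
      exact cpl_eq_of_lt e7

theorem injective_of (U : X → FreeGroup κ) (h0 : ∀ v, 0 < (sg U v).norm)
    (h1 : ∀ v w, w ≠ ng v → 2 * cc (sg U v)⁻¹ (sg U w) ≤ (sg U v).norm)
    (h2 : ∀ a v w, v ≠ ng a → w ≠ ng v →
      cc (sg U a)⁻¹ (sg U v) + cc (sg U v)⁻¹ (sg U w) < (sg U v).norm) :
    Injective (FreeGroup.lift U) := by
  classical
  rw [injective_iff_map_eq_one]
  intro g hg
  by_contra hne
  have hw : g.toWord ≠ [] := fun h => hne (FreeGroup.toWord_eq_nil_iff.1 h)
  obtain ⟨v, L, hL⟩ := List.exists_cons_of_ne_nil hw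
  have hred : FreeGroup.IsReduced (v :: L) := by
    rw [← hL]; exact FreeGroup.isReduced_toWord
  have := (inj_aux U h0 h1 h2 L v hred).1
  rw [← lift_apply_eq, ← hL, FreeGroup.mk_toWord, hg] at this
  simp at this

end Inj

/-! ### elementary moves -/

section Moves

variable {X : Type*} [DecidableEq X]

/-- the endomorphism `x ↦ y ^ i x y ^ j` -/
def mv (x y : X) (i j : ℤ) : FreeGroup X →* FreeGroup X :=
  FreeGroup.lift (fun z => if z = x then FreeGroup.of y ^ i * FreeGroup.of x * FreeGroup.of y ^ j
    else FreeGroup.of z)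

theorem mv_of_self (x y : X) (i j : ℤ) :
    mv x y i j (FreeGroup.of x) = FreeGroup.of y ^ i * FreeGroup.of x * FreeGroup.of y ^ j := by
  simp [mv]

theorem mv_of_ne {x z : X} (h : z ≠ x) (y : X) (i j : ℤ) :
    mv x y i j (FreeGroup.of z) = FreeGroup.of z := by
  simp [mv, h]

theorem mv_comp {x y : X} (h : y ≠ x) (i j i' j' : ℤ) (hi : i + i' = 0) (hj : j' + j = 0) :
    (mv x y i j).comp (mv x y i' j') = MonoidHom.id _ := by
  apply FreeGroup.ext_hom
  intro z
  rw [MonoidHom.comp_apply, MonoidHom.id_apply]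
  by_cases hz : z = x
  · subst hz
    rw [mv_of_self, map_mul, map_mul, map_zpow, map_zpow, mv_of_ne h, mv_of_self]
    have e : FreeGroup.of y ^ i' * (FreeGroup.of y ^ i * FreeGroup.of z * FreeGroup.of y ^ j) *
        FreeGroup.of y ^ j' = (FreeGroup.of y ^ i' * FreeGroup.of y ^ i) * FreeGroup.of z *
        (FreeGroup.of y ^ j * FreeGroup.of y ^ j') := by group
    rw [e, ← zpow_add, ← zpow_add, show i' + i = 0 by omega, show j + j' = 0 by omega]
    simp
  · rw [mv_of_ne hz, mv_of_ne hz]

/-- the automorphism `x ↦ y ^ i x y ^ j` -/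
def mvE (x y : X) (h : y ≠ x) (i j : ℤ) : FreeGroup X ≃* FreeGroup X :=
  MonoidHom.toMulEquiv (mv x y i j) (mv x y (-i) (-j))
    (mv_comp h _ _ _ _ (by omega) (by omega)) (mv_comp h _ _ _ _ (by omega) (by omega))

theorem mvE_apply (x y : X) (h : y ≠ x) (i j : ℤ) (w : FreeGroup X) :
    mvE x y h i j w = mv x y i j w := rfl

variable {G : Type*} [Group G]

/-- the tuples obtained from `φ` by automorphisms of the source -/
def Reach (φ : FreeGroup X →* G) (U : X → G) : Prop :=
  ∃ θ : FreeGroup X ≃* FreeGroup X, ∀ x, U x = φ (θ (FreeGroup.of x))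

theorem Reach.move {φ : FreeGroup X →* G} {U : X → G} (h : Reach φ U) (a v : X × Bool)
    (hav : v.1 ≠ a.1) : ∃ U', Reach φ U' ∧ sg U' a = sg U a * sg U v ∧ ∀ z, z ≠ a.1 → U' z = U z := by
  obtain ⟨θ, hθ⟩ := h
  rcases a with ⟨x, b⟩
  rcases v with ⟨y, b'⟩
  simp only at hav
  cases b
  · -- inverse letter: x ↦ v⁻¹ x
    refine ⟨fun z => φ (θ (mvE x y hav (cond b' (-1) 1) 0 (FreeGroup.of z))),
      ⟨(mvE x y hav (cond b' (-1) 1) 0).trans θ, fun z => rfl⟩, ?_, ?_⟩
    · simp only [sg, cond_false, mvE_apply, mv_of_self]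
      cases b' <;> simp [hθ]
    · intro z hz
      simp only [mvE_apply, mv_of_ne hz, hθ]
  · refine ⟨fun z => φ (θ (mvE x y hav 0 (cond b' 1 (-1)) (FreeGroup.of z))),
      ⟨(mvE x y hav 0 (cond b' 1 (-1))).trans θ, fun z => rfl⟩, ?_, ?_⟩
    · simp only [sg, cond_true, mvE_apply, mv_of_self]
      cases b' <;> simp [hθ]
    · intro z hz
      simp only [mvE_apply, mv_of_ne hz, hθ]

end Moves


/-! ### values of words -/

section Val

variable {κ : Type*} [Fintype κ] [DecidableEq κ]

/-- digit of a letter -/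
noncomputable def dg (a : κ × Bool) : ℕ := (Fintype.equivFin (κ × Bool) a : ℕ)

theorem dg_lt (a : κ × Bool) : dg a < Fintype.card (κ × Bool) + 2 := by
  have := (Fintype.equivFin (κ × Bool) a).2
  unfold dg
  omega

theorem dg_inj : Injective (dg (κ := κ)) := by
  intro a b h
  unfold dg at h
  exact (Fintype.equivFin (κ × Bool)).injective (Fin.ext h)

/-- value of a word, the first letter is the most significant one -/
noncomputable def val (l : List (κ × Bool)) : ℕ :=
  Nat.ofDigits (Fintype.card (κ × Bool) + 2) ((l.map dg).reverse)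

theorem val_append (p r : List (κ × Bool)) :
    val (p ++ r) = val r + (Fintype.card (κ × Bool) + 2) ^ r.length * val p := by
  unfold val
  rw [List.map_append, List.reverse_append, Nat.ofDigits_append]
  simp

theorem val_inj {p q : List (κ × Bool)} (h : p.length = q.length) (hv : val p = val q) :
    p = q := by
  unfold val at hv
  have := Nat.ofDigits_inj_of_len_eq (b := Fintype.card (κ × Bool) + 2) (by omega)
    (L1 := (p.map dg).reverse) (L2 := (q.map dg).reverse) (by simpa using h)
    (by
      intro l hl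
      simp only [List.mem_reverse, List.mem_map] at hl
      obtain ⟨a, -, rfl⟩ := hl
      exact dg_lt a)
    (by
      intro l hl
      simp only [List.mem_reverse, List.mem_map] at hl
      obtain ⟨a, -, rfl⟩ := hl
      exact dg_lt a) hv
  exact List.map_injective_iff.2 dg_inj (List.reverse_injective this)

theorem val_lt {p q : List (κ × Bool)} (h : val q < val p) (r : List (κ × Bool)) :
    val (q ++ r) < val (p ++ r) := by
  rw [val_append, val_append]
  have : 0 < (Fintype.card (κ × Bool) + 2) ^ r.length := by positivity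
  have := Nat.mul_lt_mul_of_pos_left h this
  omega

/-- value of the first half -/
noncomputable def hv (u : FreeGroup κ) : ℕ := val (u.toWord.take (u.norm / 2))

variable {X : Type*} [Fintype X]

/-- total length -/
def NN (U : X → FreeGroup κ) : ℕ := ∑ x, (U x).norm

/-- total value -/
noncomputable def PP (U : X → FreeGroup κ) : ℕ := ∑ x, (hv (U x) + hv (U x)⁻¹)

omit [Fintype κ] [Fintype X] in
theorem norm_sg (U : X → FreeGroup κ) (v : X × Bool) : (sg U v).norm = (U v.1).norm := by
  rcases v with ⟨x, _ | _⟩ <;> simp [sg]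

omit [Fintype X] in
theorem hv_sg (U : X → FreeGroup κ) (v : X × Bool) :
    hv (sg U v) + hv (sg U v)⁻¹ = hv (U v.1) + hv (U v.1)⁻¹ := by
  rcases v with ⟨x, _ | _⟩
  · simp only [sg, cond_false, inv_inv]
    omega
  · simp [sg]

omit [Fintype κ] in
theorem NN_lt {U U' : X → FreeGroup κ} {a : X × Bool} (h : ∀ z, z ≠ a.1 → U' z = U z)
    (h1 : (sg U' a).norm < (sg U a).norm) : NN U' < NN U := by
  classical
  unfold NN
  apply Finset.sum_lt_sum
  · intro z _
    by_cases hz : z = a.1
    · rw [norm_sg, norm_sg] at h1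
      rw [hz]; exact h1.le
    · rw [h z hz]
  · refine ⟨a.1, Finset.mem_univ _, ?_⟩
    rw [norm_sg, norm_sg] at h1
    exact h1

omit [Fintype κ] in
theorem NN_eq {U U' : X → FreeGroup κ} {a : X × Bool} (h : ∀ z, z ≠ a.1 → U' z = U z)
    (h1 : (sg U' a).norm = (sg U a).norm) : NN U' = NN U := by
  classical
  unfold NN
  apply Finset.sum_congr rfl
  intro z _
  by_cases hz : z = a.1
  · rw [norm_sg, norm_sg] at h1
    rw [hz]; exact h1
  · rw [h z hz]

theorem PP_lt {U U' : X → FreeGroup κ} {a : X × Bool} (h : ∀ z, z ≠ a.1 → U' z = U z)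
    (h1 : hv (sg U' a) + hv (sg U' a)⁻¹ < hv (sg U a) + hv (sg U a)⁻¹) : PP U' < PP U := by
  classical
  unfold PP
  apply Finset.sum_lt_sum
  · intro z _
    by_cases hz : z = a.1
    · rw [hv_sg, hv_sg] at h1
      rw [hz]; exact h1.le
    · rw [h z hz]
  · refine ⟨a.1, Finset.mem_univ _, ?_⟩
    rw [hv_sg, hv_sg] at h1
    exact h1

end Val

/-! ### the minimal tuple -/

section Minimal

variable {κ : Type*} [Fintype κ] [DecidableEq κ] {X : Type*} [Fintype X] [DecidableEq X]

/-- minimal tuples -/
structure IsMin (φ : FreeGroup X →* FreeGroup κ) (U : X → FreeGroup κ) : Prop where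
  reach : Reach φ U
  minN : ∀ U', Reach φ U' → NN U ≤ NN U'
  minP : ∀ U', Reach φ U' → NN U' = NN U → PP U ≤ PP U'

theorem exists_isMin (φ : FreeGroup X →* FreeGroup κ) : ∃ U, IsMin φ U := by
  have hne : ∃ U, Reach φ U := ⟨fun x => φ (FreeGroup.of x), MulEquiv.refl _, fun x => rfl⟩
  obtain ⟨U₀, h0, h0'⟩ := WellFounded.has_min (measure (NN (κ := κ) (X := X))).wf
    {U | Reach φ U} hne
  obtain ⟨U, h1, h1'⟩ := WellFounded.has_min (measure (PP (κ := κ) (X := X))).wf
    {U | Reach φ U ∧ NN U = NN U₀} ⟨U₀, h0, rfl⟩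
  refine ⟨U, h1.1, ?_, ?_⟩
  · intro U' hU'
    rw [h1.2]
    exact not_lt.1 (h0' U' hU')
  · intro U' hU' hN
    exact not_lt.1 (h1' U' ⟨hU', hN.trans h1.2⟩)

variable {φ : FreeGroup X →* FreeGroup κ} {U : X → FreeGroup κ}

theorem IsMin.N1_right (h : IsMin φ U) {v w : X × Bool} (hvw : w.1 ≠ v.1) :
    2 * cc (sg U v)⁻¹ (sg U w) ≤ (sg U w).norm := by
  by_contra hc
  obtain ⟨U', hr, hs, hz⟩ := h.reach.move v w hvw
  have h1 := norm_mul (sg U v) (sg U w)
  rw [← hs] at h1
  have := NN_lt hz (by omega)
  have := h.minN U' hr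
  omega

theorem IsMin.N1_left (h : IsMin φ U) {v w : X × Bool} (hvw : w.1 ≠ v.1) :
    2 * cc (sg U v)⁻¹ (sg U w) ≤ (sg U v).norm := by
  have := h.N1_right (v := ng w) (w := ng v) (by rw [ng_fst, ng_fst]; exact hvw.symm)
  rw [sg_ng, sg_ng, inv_inv, FreeGroup.norm_inv_eq, cc_comm] at this
  exact this

theorem IsMin.N1 (h : IsMin φ U) (h0 : ∀ v, sg U v ≠ 1) (v w : X × Bool) (hvw : w ≠ ng v) :
    2 * cc (sg U v)⁻¹ (sg U w) ≤ (sg U v).norm := by
  by_cases hx : w.1 = v.1
  · rcases eq_or_ng hx.symm with h' | h'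
    · rw [h']; exact (cc_inv_self (h0 v)).le
    · exact absurd h' hvw
  · exact h.N1_left hx

/-- the value comparison -/
theorem IsMin.claim (h : IsMin φ U) {a v : X × Bool} (hav : v.1 ≠ a.1) {k : ℕ}
    (hk : (sg U v).norm = 2 * k) (hc : cc (sg U a)⁻¹ (sg U v) = k) :
    val ((sg U v).toWord.take k) ≤ val ((sg U v)⁻¹.toWord.take k) := by
  by_contra hcon
  rw [not_le] at hcon
  obtain ⟨U', hr, hs, hz⟩ := h.reach.move a v hav
  have hN1 := h.N1_left hav
  set A := sg U a with hA
  set V := sg U v with hV
  have hnorm := norm_mul A V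
  have hn : (A * V).norm = A.norm := by omega
  have hNN : NN U' = NN U := NN_eq hz (by rw [hs, ← hA]; exact hn)
  have hmin := h.minP U' hr hNN
  have hAlen : A.toWord.length = A.norm := rfl
  have hVlen : V.toWord.length = V.norm := rfl
  have hAilen : A⁻¹.toWord.length = A.norm := by rw [← FreeGroup.norm_inv_eq (x := A)]; rfl
  -- first halves of A V and A
  have h1 : hv (A * V) = hv A := by
    have e := norm_inv_mul A (A * V)
    rw [inv_mul_cancel_left] at e
    have e2 : A.norm / 2 ≤ cc A (A * V) := by omega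
    have e3 := (le_cpl_iff.1 e2).2.2
    unfold hv
    rw [hn, e3]
  -- first halves of the inverses
  have h2 : hv (A * V)⁻¹ < hv A⁻¹ := by
    have hp : A⁻¹.toWord.take k = V.toWord.take k := by
      have e : k ≤ cc A⁻¹ V := hc.ge
      exact (le_cpl_iff.1 e).2.2
    set p := V.toWord.take k with hpdef
    set q := V⁻¹.toWord.take k with hqdef
    set s := A⁻¹.toWord.drop k with hsdef
    set t := V.toWord.drop k with htdef
    have hA1 : A⁻¹.toWord = p ++ s := by rw [← hp, hsdef, List.take_append_drop]
    have hV1 : V.toWord = p ++ t := by rw [hpdef, htdef, List.take_append_drop]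
    have htlen : t.length = k := by
      rw [htdef, List.length_drop, hVlen]; omega
    have hq : q = FreeGroup.invRev t := by
      rw [hqdef, FreeGroup.toWord_inv, hV1, FreeGroup.invRev_append,
        List.take_left' (by rw [FreeGroup.invRev_length, htlen])]
    have hqlen : q.length = k := by rw [hq, FreeGroup.invRev_length, htlen]
    have hplen : p.length = k := by
      rw [hpdef, List.length_take, hVlen]; omega
    have hslen : s.length = A.norm - k := by
      rw [hsdef, List.length_drop, hAilen]
    have hprod : (A * V)⁻¹ = FreeGroup.mk (q ++ s) := by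
      have e1 : A⁻¹ = FreeGroup.mk p * FreeGroup.mk s := by
        rw [FreeGroup.mul_mk, ← hA1, FreeGroup.mk_toWord]
      have e2 : V = FreeGroup.mk p * FreeGroup.mk t := by
        rw [FreeGroup.mul_mk, ← hV1, FreeGroup.mk_toWord]
      have e3 : (FreeGroup.mk q : FreeGroup κ) = (FreeGroup.mk t)⁻¹ := by
        rw [FreeGroup.inv_mk, hq]
      rw [mul_inv_rev, e1, ← FreeGroup.mul_mk, e3, e2]
      group
    have hnorm' : (FreeGroup.mk (q ++ s) : FreeGroup κ).norm = (q ++ s).length := by
      rw [← hprod, FreeGroup.norm_inv_eq, hn, List.length_append, hqlen, hslen]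
      omega
    have hword := toWord_mk_of_norm hnorm'
    unfold hv
    rw [hprod, hword, hnorm', FreeGroup.norm_inv_eq, hA1, List.length_append, hqlen, hslen]
    have e4 : (k + (A.norm - k)) / 2 = k + ((k + (A.norm - k)) / 2 - k) := by omega
    have e5 : A.norm / 2 = k + ((k + (A.norm - k)) / 2 - k) := by omega
    rw [e4, e5]
    have e6 : ∀ r : ℕ, (q ++ s).take (k + r) = q ++ s.take r := by
      intro r
      rw [List.take_append, hqlen, List.take_of_length_le (by omega), Nat.add_sub_cancel_left]
    have e7 : ∀ r : ℕ, (p ++ s).take (k + r) = p ++ s.take r := by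
      intro r
      rw [List.take_append, hplen, List.take_of_length_le (by omega), Nat.add_sub_cancel_left]
    rw [e6, e7]
    exact val_lt hcon _
  have := PP_lt hz (by rw [hs, ← hA]; omega)
  omega

theorem IsMin.N2 (h : IsMin φ U) (h0 : ∀ v, sg U v ≠ 1) (a v w : X × Bool) (hav : v ≠ ng a)
    (hvw : w ≠ ng v) :
    cc (sg U a)⁻¹ (sg U v) + cc (sg U v)⁻¹ (sg U w) < (sg U v).norm := by
  by_contra hc
  have e1 := h.N1 h0 v w hvw
  have e2 : 2 * cc (sg U a)⁻¹ (sg U v) ≤ (sg U v).norm := by
    by_cases hx : v.1 = a.1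
    · rcases eq_or_ng hx.symm with h' | h'
      · rw [h']; exact (cc_inv_self (h0 a)).le
      · exact absurd h' hav
    · exact h.N1_right hx
  have hk1 : (sg U v).norm = 2 * cc (sg U v)⁻¹ (sg U w) := by omega
  have hk2 : cc (sg U a)⁻¹ (sg U v) = cc (sg U v)⁻¹ (sg U w) := by omega
  have hself := cc_inv_self (h0 v)
  have hx1 : v.1 ≠ a.1 := by
    intro hx
    rcases eq_or_ng hx.symm with h' | h'
    · rw [h'] at hk1 hk2
      have := cc_inv_self (h0 a)
      omega
    · exact hav h'
  have hx2 : w.1 ≠ v.1 := by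
    intro hx
    rcases eq_or_ng hx.symm with h' | h'
    · rw [h'] at hk1
      omega
    · exact hvw h'
  have c1 := h.claim hx1 hk1 hk2
  have c2 := h.claim (a := ng w) (v := ng v) (by rw [ng_fst, ng_fst]; exact hx2.symm)
    (k := cc (sg U v)⁻¹ (sg U w)) (by rw [sg_ng, FreeGroup.norm_inv_eq]; exact hk1)
    (by rw [sg_ng, sg_ng, inv_inv, cc_comm])
  rw [sg_ng, inv_inv] at c2
  have hval := le_antisymm c1 c2
  set k := cc (sg U v)⁻¹ (sg U w) with hkdef
  have l1 : ((sg U v).toWord).length = (sg U v).norm := rfl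
  have l2 : ((sg U v)⁻¹.toWord).length = (sg U v).norm := by
    rw [← FreeGroup.norm_inv_eq (x := sg U v)]; rfl
  have heq := val_inj (by rw [List.length_take, List.length_take, l1, l2]) hval
  have : k ≤ cc (sg U v)⁻¹ (sg U v) := by
    unfold cc
    rw [le_cpl_iff]
    refine ⟨by omega, by omega, heq.symm⟩
  omega

theorem nielsen_fin (φ : FreeGroup X →* FreeGroup κ) (hφ : ¬ Injective φ) :
    ∃ (θ : FreeGroup X ≃* FreeGroup X) (x₀ : X), φ (θ (FreeGroup.of x₀)) = 1 := by
  by_contra hcon
  push Not at hcon
  obtain ⟨U, hU⟩ := exists_isMin φ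
  obtain ⟨θ, hθ⟩ := hU.reach
  have h0 : ∀ v, sg U v ≠ 1 := by
    intro v hv
    have : U v.1 = 1 := by
      rcases v with ⟨x, _ | _⟩ <;> simpa [sg] using hv
    exact hcon θ v.1 ((hθ v.1).symm.trans this)
  have hinj := injective_of U (fun v => Nat.pos_of_ne_zero fun h =>
    h0 v (FreeGroup.norm_eq_zero.1 h)) (hU.N1 h0) (hU.N2 h0)
  apply hφ
  have he : FreeGroup.lift U = φ.comp θ.toMonoidHom := by
    apply FreeGroup.ext_hom
    intro x
    rw [FreeGroup.lift_apply_of, hθ]
    rfl
  intro x y hxy
  have : FreeGroup.lift U (θ.symm x) = FreeGroup.lift U (θ.symm y) := by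
    rw [he]
    simpa using hxy
  exact θ.symm.injective (hinj this)

end Minimal

end NielK

/-- **Nielsen**: a homomorphism between free groups, with source of finite rank, which is not
injective kills an element of some basis. -/
theorem nielsen_kill {X κ : Type*} [Finite X] (φ : FreeGroup X →* FreeGroup κ)
    (hφ : ¬ Injective φ) :
    ∃ (θ : FreeGroup X ≃* FreeGroup X) (x₀ : X), φ (θ (FreeGroup.of x₀)) = 1 := by
  classical
  have := Fintype.ofFinite X
  -- the finite set of letters which occur
  let S : Finset κ := Finset.univ.biUnion fun x => ((φ (FreeGroup.of x)).toWord.map Prod.fst).toFinset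
  let ι : FreeGroup {k // k ∈ S} →* FreeGroup κ := FreeGroup.map Subtype.val
  have hι : Injective ι := FreeGroup.map_injective Subtype.val_injective
  have hr : ∀ x, ∃ g, ι g = φ (FreeGroup.of x) := by
    intro x
    have hmem : ∀ a ∈ (φ (FreeGroup.of x)).toWord, a.1 ∈ S := by
      intro a ha
      simp only [S, Finset.mem_biUnion, Finset.mem_univ, true_and, List.mem_toFinset,
        List.mem_map]
      exact ⟨x, a, ha, rfl⟩
    refine ⟨FreeGroup.mk ((φ (FreeGroup.of x)).toWord.attach.map
      fun a => (⟨a.1.1, hmem a.1 a.2⟩, a.1.2)), ?_⟩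
    simp only [ι, FreeGroup.map.mk, List.map_map]
    have : List.map ((fun x : {k // k ∈ S} × Bool => (x.1.1, x.2)) ∘
        fun a : {a // a ∈ (φ (FreeGroup.of x)).toWord} => ((⟨a.1.1, hmem a.1 a.2⟩, a.1.2) :
          {k // k ∈ S} × Bool)) (φ (FreeGroup.of x)).toWord.attach =
        (φ (FreeGroup.of x)).toWord := by
      conv_rhs => rw [← List.attach_map_subtype_val (φ (FreeGroup.of x)).toWord]
      apply List.map_congr_left
      intro a _
      rfl
    rw [this, FreeGroup.mk_toWord]
  choose f hf using hr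
  have hcomp : ι.comp (FreeGroup.lift f) = φ := by
    apply FreeGroup.ext_hom
    intro x
    rw [MonoidHom.comp_apply, FreeGroup.lift_apply_of, hf]
  have hni : ¬ Injective (FreeGroup.lift f) := by
    intro h
    apply hφ
    rw [← hcomp]
    exact hι.comp h
  obtain ⟨θ, x₀, h⟩ := NielK.nielsen_fin (FreeGroup.lift f) hni
  refine ⟨θ, x₀, ?_⟩
  rw [← hcomp, MonoidHom.comp_apply, h, map_one]

end Pool.Agent.SurfExact
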