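import Pool.Agent.SurfExact.PR

/-!
# The linear parts of cycles (P5)
-/

set_option autoImplicit false

namespace Pool.Agent.SurfExact

open Function Pool.Agent.SurfGrowth

section Aug

variable {G : Type*} [Group G]

/-- augmentation of the group ring -/
noncomputable def augL : QG G →ₗ[ℚ] ℚ := pairL (fun _ => (1 : ℚ))

theorem augL_el (g : G) : augL (el g) = 1 := by
  unfold augL
  rw [pairL_el]

theorem augL_el_mul (g : G) (y : QG G) : augL (el g * y) = augL y := by
  unfold augL
  rw [pairL_elmul]

theorem augL_mul (y z : QG G) : augL (y * z) = augL y * augL z := by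
  have h : augL.comp (LinearMap.mulRight ℚ z) = (augL (G := G)).smulRight (augL z) := by
    apply linext
    intro g
    rw [LinearMap.comp_apply, LinearMap.mulRight_apply, augL_el_mul, LinearMap.smulRight_apply,
      augL_el, one_smul]
  have h1 := LinearMap.congr_fun h y
  rw [LinearMap.comp_apply, LinearMap.mulRight_apply, LinearMap.smulRight_apply, smul_eq_mul] at h1
  exact h1

theorem pairL_el_mul_add {ψ : G → ℚ} (hψ : ∀ a b, ψ (a * b) = ψ a + ψ b) (g : G) (y : QG G) :
    pairL ψ (el g * y) = ψ g * augL y + pairL ψ y := by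
  have h : (pairL ψ).comp (LinearMap.mulLeft ℚ (el g)) = (ψ g) • augL + pairL ψ := by
    apply linext
    intro a
    rw [LinearMap.comp_apply, LinearMap.mulLeft_apply, ← el_mul, pairL_el, hψ,
      LinearMap.add_apply, LinearMap.smul_apply, augL_el, pairL_el, smul_eq_mul, mul_one]
  have h1 := LinearMap.congr_fun h y
  rw [LinearMap.comp_apply, LinearMap.mulLeft_apply, LinearMap.add_apply, LinearMap.smul_apply,
    smul_eq_mul] at h1
  exact h1

theorem pairL_mul_add {ψ : G → ℚ} (hψ : ∀ a b, ψ (a * b) = ψ a + ψ b) (y z : QG G) :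
    pairL ψ (y * z) = pairL ψ y * augL z + augL y * pairL ψ z := by
  have h : (pairL ψ).comp (LinearMap.mulRight ℚ z) =
      (pairL ψ).smulRight (augL z) + (augL (G := G)).smulRight (pairL ψ z) := by
    apply linext
    intro a
    rw [LinearMap.comp_apply, LinearMap.mulRight_apply, pairL_el_mul_add hψ,
      LinearMap.add_apply, LinearMap.smulRight_apply, LinearMap.smulRight_apply, augL_el,
      pairL_el, smul_eq_mul, one_smul]
  have h1 := LinearMap.congr_fun h y
  rw [LinearMap.comp_apply, LinearMap.mulRight_apply, LinearMap.add_apply,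
    LinearMap.smulRight_apply, LinearMap.smulRight_apply, smul_eq_mul, smul_eq_mul] at h1
  exact h1

/-- pushing forward along a homomorphism -/
noncomputable def pushR {H : Type*} [Group H] (j : H →* G) : QG H →+* QG G :=
  MonoidAlgebra.mapDomainRingHom ℚ j

theorem pushR_el {H : Type*} [Group H] (j : H →* G) (h : H) : pushR j (el h) = el (j h) := by
  unfold pushR
  rw [el_eq_single, el_eq_single]
  simp

theorem pushR_smul {H : Type*} [Group H] (j : H →* G) (c : ℚ) (y : QG H) :
    pushR j (c • y) = c • pushR j y := by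
  have h1 : c • y = (algebraMap ℚ (QG H) c) * y := by rw [Algebra.smul_def]
  have h2 : c • pushR j y = (algebraMap ℚ (QG G) c) * pushR j y := by rw [Algebra.smul_def]
  rw [h1, h2, map_mul]
  congr 1
  rw [MonoidAlgebra.coe_algebraMap, MonoidAlgebra.coe_algebraMap]
  unfold pushR
  simp

theorem pairL_pushR {H : Type*} [Group H] (j : H →* G) (ψ : G → ℚ) (y : QG H) :
    pairL ψ (pushR j y) = pairL (fun h => ψ (j h)) y := by
  let P : QG H →ₗ[ℚ] QG G :=
    { toFun := pushR j
      map_add' := map_add _
      map_smul' := fun c y => pushR_smul j c y }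
  have h : (pairL ψ).comp P = pairL (fun h => ψ (j h)) := by
    apply linext
    intro a
    rw [LinearMap.comp_apply, pairL_el]
    show pairL ψ (pushR j (el a)) = _
    rw [pushR_el, pairL_el]
  exact LinearMap.congr_fun h y

theorem augL_pushR {H : Type*} [Group H] (j : H →* G) (y : QG H) : augL (pushR j y) = augL y :=
  pairL_pushR j _ y

end Aug

section FoxLin

variable {g : ℕ}

theorem augL_fox_crossed {G : Type*} [Group G] {ι : Type*} [Fintype ι] [DecidableEq ι] (x : ι → G)
    (y : ι) (a b : FreeGroup ι) :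
    augL (fox x (a * b) y) = augL (fox x a y) + augL (fox x b y) := by
  rw [fox_crossed x a b, Pi.add_apply, map_add, Pi.smul_apply, smul_eq_mul, augL_el_mul]

theorem pairL_fox_mul {G : Type*} [Group G] {ι : Type*} [Fintype ι] [DecidableEq ι] (x : ι → G)
    {ψ : G → ℚ} (hψ : ∀ a b, ψ (a * b) = ψ a + ψ b) (y : ι) (a b : FreeGroup ι) :
    pairL ψ (fox x (a * b) y) = pairL ψ (fox x a y) +
      (ψ (FreeGroup.lift x a) * augL (fox x b y) + pairL ψ (fox x b y)) := by
  rw [fox_crossed x a b, Pi.add_apply, map_add, Pi.smul_apply, smul_eq_mul,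
    pairL_el_mul_add hψ]

open scoped commutatorElement

theorem add_one {G : Type*} [Group G] {ψ : G → ℚ} (hψ : ∀ a b, ψ (a * b) = ψ a + ψ b) :
    ψ 1 = 0 := by
  have := hψ 1 1
  rw [mul_one] at this
  linarith

theorem add_inv {G : Type*} [Group G] {ψ : G → ℚ} (hψ : ∀ a b, ψ (a * b) = ψ a + ψ b) (a : G) :
    ψ a⁻¹ = - ψ a := by
  have := hψ a a⁻¹
  rw [mul_inv_cancel, add_one hψ] at this
  linarith

/-- exponent sums of a word -/
theorem augL_fox_hom {G : Type*} [Group G] {ι : Type*} [Fintype ι] [DecidableEq ι] (x : ι → G)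
    (y : ι) (e : FreeGroup ι → ℚ) (he : ∀ a b, e (a * b) = e a + e b)
    (h : ∀ t, e (FreeGroup.of t) = if t = y then 1 else 0) (w : FreeGroup ι) :
    augL (fox x w y) = e w := by
  induction w using FreeGroup.induction_on with
  | C1 => rw [(fox_crossed x).one, add_one he]; simp
  | of t =>
    rw [fox_of, h]
    by_cases ht : t = y
    · subst ht
      rw [Pi.single_eq_same, if_pos rfl, ← el_one, augL_el]
    · rw [Pi.single_eq_of_ne (Ne.symm ht), if_neg ht, map_zero]
  | inv_of t ht =>
    rw [add_inv he, ← ht, (fox_crossed x).inv]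
    rw [Pi.neg_apply, map_neg, Pi.smul_apply, smul_eq_mul, augL_el_mul]
  | mul a b ha hb => rw [augL_fox_crossed, he, ha, hb]

/-- exponent sum of a word is the coordinate of the abelianization -/
theorem augL_fox_gen (w : FreeGroup (Fin g × Bool)) (y : Fin g × Bool) :
    augL (fox (SurfaceGroup.gen (g := g)) w y) =
      (Multiplicative.toAdd (SurfaceGroup.ab (FreeGroup.lift SurfaceGroup.gen w))) y := by
  refine augL_fox_hom (SurfaceGroup.gen (g := g)) y (fun w : FreeGroup (Fin g × Bool) =>
    (Multiplicative.toAdd (SurfaceGroup.ab (FreeGroup.lift (SurfaceGroup.gen (g := g)) w))) y)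
    ?_ ?_ w
  · intro a b
    simp only [map_mul, toAdd_mul, Finsupp.add_apply]
  · intro t
    simp only [FreeGroup.lift_apply_of, SurfaceGroup.ab_gen, Finsupp.single_apply]

theorem augL_fox_comm {G : Type*} [Group G] {ι : Type*} [Fintype ι] [DecidableEq ι] (x : ι → G)
    (y : ι) (a b : FreeGroup ι) : augL (fox x ⁅a, b⁆ y) = 0 := by
  have hinv : ∀ a, augL (fox x a⁻¹ y) = - augL (fox x a y) := by
    intro a
    have h := augL_fox_crossed x y a a⁻¹
    rw [mul_inv_cancel, (fox_crossed x).one, Pi.zero_apply, map_zero] at h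
    linarith
  rw [commutatorElement_def, augL_fox_crossed, augL_fox_crossed, augL_fox_crossed, hinv, hinv]
  ring

theorem pairL_fox_inv {G : Type*} [Group G] {ι : Type*} [Fintype ι] [DecidableEq ι] (x : ι → G)
    {ψ : G → ℚ} (hψ : ∀ a b, ψ (a * b) = ψ a + ψ b) (y : ι) (a : FreeGroup ι) :
    pairL ψ (fox x a⁻¹ y) = ψ (FreeGroup.lift x a) * augL (fox x a y) - pairL ψ (fox x a y) := by
  rw [(fox_crossed x).inv, Pi.neg_apply, map_neg, Pi.smul_apply, smul_eq_mul,
    pairL_el_mul_add hψ, add_inv hψ]
  ring

theorem pairL_fox_comm {G : Type*} [Group G] {ι : Type*} [Fintype ι] [DecidableEq ι] (x : ι → G)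
    {ψ : G → ℚ} (hψ : ∀ a b, ψ (a * b) = ψ a + ψ b) (y : ι) (a b : FreeGroup ι) :
    pairL ψ (fox x ⁅a, b⁆ y) = ψ (FreeGroup.lift x a) * augL (fox x b y) -
      ψ (FreeGroup.lift x b) * augL (fox x a y) := by
  have hinv : ∀ a, augL (fox x a⁻¹ y) = - augL (fox x a y) := by
    intro a
    have h := augL_fox_crossed x y a a⁻¹
    rw [mul_inv_cancel, (fox_crossed x).one, Pi.zero_apply, map_zero] at h
    linarith
  rw [commutatorElement_def, pairL_fox_mul x hψ, pairL_fox_mul x hψ, pairL_fox_mul x hψ,
    pairL_fox_inv x hψ, pairL_fox_inv x hψ, hinv, hinv]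
  simp only [map_mul, map_inv, hψ, add_inv hψ]
  ring

/-- the linear parts of the Fox row of a product of commutators -/
theorem pairL_fox_prod {G : Type*} [Group G] {ι : Type*} [Fintype ι] [DecidableEq ι] (x : ι → G)
    {ψ : G → ℚ} (hψ : ∀ a b, ψ (a * b) = ψ a + ψ b) (y : ι) (l : List (FreeGroup ι × FreeGroup ι)) :
    augL (fox x (l.map (fun p => ⁅p.1, p.2⁆)).prod y) = 0 ∧
    pairL ψ (fox x (l.map (fun p => ⁅p.1, p.2⁆)).prod y) =
      (l.map (fun p => ψ (FreeGroup.lift x p.1) * augL (fox x p.2 y) -
        ψ (FreeGroup.lift x p.2) * augL (fox x p.1 y))).sum := by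
  induction l with
  | nil =>
    simp only [List.map_nil, List.prod_nil, List.sum_nil]
    rw [(fox_crossed x).one]
    simp
  | cons p l ih =>
    simp only [List.map_cons, List.prod_cons, List.sum_cons]
    rw [augL_fox_crossed, pairL_fox_mul x hψ, pairL_fox_comm x hψ, augL_fox_comm, ih.1, ih.2]
    constructor
    · ring
    · ring

theorem augL_fox_rel (y : Fin g × Bool) :
    augL (fox (SurfaceGroup.gen (g := g)) (surfaceRel g) y) = 0 := by
  rw [augL_fox_gen]
  have : FreeGroup.lift (SurfaceGroup.gen (g := g)) (surfaceRel g) = 1 :=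
    lift_rel ({surfaceRel g} : Set (FreeGroup (Fin g × Bool))) rfl
  rw [this, map_one]
  rfl

/-- the linear parts of the Fox row of the surface relator -/
theorem pairL_fox_rel {ψ : SurfaceGroup g → ℚ} (hψ : ∀ a b, ψ (a * b) = ψ a + ψ b)
    (i : Fin g) (b : Bool) :
    pairL ψ (fox (SurfaceGroup.gen (g := g)) (surfaceRel g) (i, b)) =
      if b then ψ (SurfaceGroup.gen (i, false)) else - ψ (SurfaceGroup.gen (i, true)) := by
  have h1 : surfaceRel g = ((List.ofFn (fun i : Fin g =>
      ((FreeGroup.of (i, false), FreeGroup.of (i, true)) :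
        FreeGroup (Fin g × Bool) × FreeGroup (Fin g × Bool)))).map (fun p => ⁅p.1, p.2⁆)).prod := by
    rw [List.map_ofFn]
    rfl
  have h2 := (pairL_fox_prod (SurfaceGroup.gen (g := g)) hψ (i, b)
    (List.ofFn (fun i : Fin g => ((FreeGroup.of (i, false), FreeGroup.of (i, true)) :
        FreeGroup (Fin g × Bool) × FreeGroup (Fin g × Bool))))).2
  rw [← h1] at h2
  rw [h2, List.map_ofFn, List.sum_ofFn]
  simp only [Function.comp_apply, FreeGroup.lift_apply_of, fox_of]
  rw [Finset.sum_eq_single i]
  · cases b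
    · rw [Pi.single_eq_same, Pi.single_eq_of_ne (by simp), ← el_one, augL_el, map_zero]
      simp
    · rw [Pi.single_eq_same, Pi.single_eq_of_ne (by simp), ← el_one, augL_el, map_zero]
      simp
  · intro k _ hk
    rw [Pi.single_eq_of_ne (by simp [Ne.symm hk]), Pi.single_eq_of_ne (by simp [Ne.symm hk])]
    simp
  · simp

end FoxLin

section PFive

variable {g : ℕ}

/-- the standard symplectic matrix -/
def sympl (g : ℕ) : Matrix (Fin g × Bool) (Fin g × Bool) ℚ :=
  Matrix.of (fun y y' => if y.1 = y'.1 then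
    (if y.2 = true ∧ y'.2 = false then 1 else if y.2 = false ∧ y'.2 = true then -1 else 0) else 0)

theorem sympl_sq : sympl g * sympl g = -1 := by
  ext ⟨i, b⟩ ⟨k, c⟩
  rw [Matrix.mul_apply, Fintype.sum_prod_type]
  simp only [Fintype.sum_bool, sympl, Matrix.of_apply]
  rw [Finset.sum_eq_single i]
  · cases b <;> cases c <;> by_cases h : i = k <;> simp [h]
  · intro m _ hm
    simp [Ne.symm hm]
  · simp

/-- coordinate of the rational abelianization -/
noncomputable def coordQ (y : Fin g × Bool) (γ : SurfaceGroup g) : ℚ :=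
  (Multiplicative.toAdd (SurfaceGroup.ab γ)) y

theorem coordQ_mul (y : Fin g × Bool) (a b : SurfaceGroup g) :
    coordQ y (a * b) = coordQ y a + coordQ y b := by
  unfold coordQ
  rw [map_mul, toAdd_mul, Finsupp.add_apply]

theorem coordQ_gen (y t : Fin g × Bool) : coordQ y (SurfaceGroup.gen t) = if t = y then 1 else 0 := by
  unfold coordQ
  rw [SurfaceGroup.ab_gen, Finsupp.single_apply]

theorem pairL_coord_rel (y y' : Fin g × Bool) :
    pairL (coordQ y') (fox (SurfaceGroup.gen (g := g)) (surfaceRel g) y) = sympl g y y' := by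
  obtain ⟨i, b⟩ := y
  obtain ⟨k, c⟩ := y'
  rw [pairL_fox_rel (coordQ_mul _), coordQ_gen, coordQ_gen]
  unfold sympl
  rw [Matrix.of_apply]
  cases b <;> cases c <;> by_cases h : i = k <;> simp [h]

variable {H : Type} [Group H] {ι : Type} [Fintype ι] [DecidableEq ι]

/-- the augmentations of the components of a cycle vanish -/
theorem aug_cyc (j : H →* SurfaceGroup g) (x : ι → H)
    (hind : LinearIndependent ℚ (fun i => Multiplicative.toAdd (SurfaceGroup.ab (j (x i)))))
    {z : ι → QG H} (hz : z ∈ cyc x) (i : ι) : augL (z i) = 0 := by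
  rw [mem_cyc] at hz
  have h1 : ∑ t, augL (z t) • (Multiplicative.toAdd (SurfaceGroup.ab (j (x t)))) = 0 := by
    ext y
    rw [Finsupp.finsetSum_apply]
    have h2 : pairL (fun h => coordQ y (j h)) (∑ t, z t * (el (x t) - 1)) = 0 := by
      rw [hz, map_zero]
    rw [map_sum] at h2
    rw [Finsupp.coe_zero, Pi.zero_apply, ← h2]
    refine Finset.sum_congr rfl fun t _ => ?_
    have hψ : ∀ a b : H, coordQ y (j (a * b)) = coordQ y (j a) + coordQ y (j b) := by
      intro a b
      rw [map_mul, coordQ_mul]
    rw [pairL_mul_add hψ, map_sub, map_sub, ← el_one, augL_el, augL_el, pairL_el, pairL_el,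
      sub_self, mul_zero, zero_add, add_one (ψ := fun h => coordQ y (j h)) hψ, sub_zero]
    rfl
  exact Fintype.linearIndependent_iff.mp hind _ h1 i

/-- Core of **P5**: the image of a cycle of `H` in the relation module of the surface group. -/
theorem p5_core (j : H →* SurfaceGroup g) (hι : Fintype.card ι = 2 * g) (x : ι → H)
    (hx : Subgroup.closure (Set.range x) = ⊤)
    (hind : LinearIndependent ℚ (fun i => Multiplicative.toAdd (SurfaceGroup.ab (j (x i)))))
    (χ : H →* Multiplicative (ι → ℤ))
    (hχ : ∀ t, χ (x t) = Multiplicative.ofAdd (Pi.single t 1))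
    {z : ι → QG H} (hz : z ∈ cyc x) :
    ∃ (w : ι → FreeGroup (Fin g × Bool)) (c : QG (SurfaceGroup g)),
      (∀ i, FreeGroup.lift (SurfaceGroup.gen (g := g)) (w i) = j (x i)) ∧
      (∀ y, ∑ i, pushR j (z i) * fox SurfaceGroup.gen (w i) y =
        c * fox SurfaceGroup.gen (surfaceRel g) y) ∧
      (augL c = 0 →
        (Matrix.of (fun i k => pairL (fun h => ((Multiplicative.toAdd (χ h) k : ℤ) : ℚ)) (z i)) :
          Matrix ι ι ℚ) = 0) ∧
      (augL c ≠ 0 →
        IsUnit (Matrix.of (fun i k => pairL (fun h => ((Multiplicative.toAdd (χ h) k : ℤ) : ℚ))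
          (z i)) : Matrix ι ι ℚ)) := by
  set Ω : Matrix ι ι ℚ :=
    Matrix.of (fun i k => pairL (fun h => ((Multiplicative.toAdd (χ h) k : ℤ) : ℚ)) (z i)) with hΩ
  -- words for the letters
  have hw : ∀ i, ∃ w : FreeGroup (Fin g × Bool),
      FreeGroup.lift (SurfaceGroup.gen (g := g)) w = j (x i) := by
    intro i
    obtain ⟨w, hw⟩ := PresentedGroup.mk_surjective ({surfaceRel g} : Set (FreeGroup (Fin g × Bool)))
      (j (x i))
    refine ⟨w, ?_⟩
    rw [← hw]
    exact lift_of_eq_mk _ w
  choose w hw using hw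
  let A : Matrix ι (Fin g × Bool) ℚ := Matrix.of (fun i y => coordQ y (j (x i)))
  let E : Matrix ι (Fin g × Bool) ℚ :=
    Matrix.of (fun i y => pairL (fun h => coordQ y (j h)) (z i))
  -- the pushed forward cycle
  let z' : (Fin g × Bool) → QG (SurfaceGroup g) :=
    fun y => ∑ i, pushR j (z i) * fox SurfaceGroup.gen (w i) y
  have hz' : z' ∈ cyc (SurfaceGroup.gen (g := g)) := by
    rw [mem_cyc]
    have h1 : ∀ i, ∑ y, fox (SurfaceGroup.gen (g := g)) (w i) y * (el (SurfaceGroup.gen y) - 1) =
        el (j (x i)) - 1 := by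
      intro i
      rw [← bdry_apply, bdry_fox, hw]
    have h2 : ∑ y, z' y * (el (SurfaceGroup.gen y) - 1) =
        ∑ i, pushR j (z i) * (el (j (x i)) - 1) := by
      simp only [z', Finset.sum_mul]
      rw [Finset.sum_comm]
      refine Finset.sum_congr rfl fun i _ => ?_
      rw [← h1 i, Finset.mul_sum]
      refine Finset.sum_congr rfl fun y _ => ?_
      rw [mul_assoc]
    rw [h2]
    rw [mem_cyc] at hz
    have h3 : pushR j (∑ t, z t * (el (x t) - 1)) = 0 := by rw [hz, map_zero]
    rw [map_sum] at h3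
    rw [← h3]
    refine Finset.sum_congr rfl fun i _ => ?_
    rw [map_mul, map_sub, map_one, pushR_el]
  rw [cyc_gen, Submodule.mem_span_singleton] at hz'
  obtain ⟨c, hc⟩ := hz'
  have hAE : A.transpose * E = (augL c) • sympl g := by
    ext y y'
    rw [Matrix.mul_apply, Matrix.smul_apply, smul_eq_mul]
    have h1 : pairL (coordQ y') (z' y) = pairL (coordQ y') (c * fox SurfaceGroup.gen (surfaceRel g) y) := by
      rw [← hc]
      rfl
    rw [pairL_mul_add (coordQ_mul y'), augL_fox_rel, mul_zero, zero_add, pairL_coord_rel] at h1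
    rw [← h1]
    simp only [z', map_sum]
    refine Finset.sum_congr rfl fun i _ => ?_
    rw [pairL_mul_add (coordQ_mul y'), augL_pushR, aug_cyc j x hind hz, zero_mul, add_zero,
      pairL_pushR, augL_fox_gen, hw, mul_comm]
    rfl
  have hEA : E = Ω * A := by
    ext i y
    rw [Matrix.mul_apply]
    have hψ : (fun h : H => coordQ y (j h)) =
        fun h => ∑ k, ((Multiplicative.toAdd (χ h) k : ℤ) : ℚ) * A k y := by
      funext h
      have hh : h ∈ Subgroup.closure (Set.range x) := by rw [hx]; trivial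
      induction hh using Subgroup.closure_induction with
      | mem u hu =>
        obtain ⟨t, rfl⟩ := hu
        rw [hχ]
        rw [Finset.sum_eq_single t]
        · simp [A]
        · intro k _ hk
          simp [Pi.single_eq_of_ne hk]
        · simp
      | one =>
        rw [map_one, add_one (coordQ_mul y), map_one]
        simp
      | mul a b _ _ ha hb =>
        rw [map_mul, coordQ_mul, ha, hb, map_mul, ← Finset.sum_add_distrib]
        refine Finset.sum_congr rfl fun k _ => ?_
        rw [toAdd_mul, Pi.add_apply]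
        push_cast
        ring
      | inv a _ ha =>
        rw [map_inv, add_inv (coordQ_mul y), ha, map_inv, ← Finset.sum_neg_distrib]
        refine Finset.sum_congr rfl fun k _ => ?_
        rw [toAdd_inv, Pi.neg_apply]
        push_cast
        ring
    show pairL (fun h => coordQ y (j h)) (z i) = _
    rw [hψ]
    have h2 : pairL (fun h => ∑ k, ((Multiplicative.toAdd (χ h) k : ℤ) : ℚ) * A k y) =
        ∑ k, (A k y) • pairL (fun h : H => ((Multiplicative.toAdd (χ h) k : ℤ) : ℚ)) := by
      apply linext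
      intro h
      rw [pairL_el, LinearMap.sum_apply]
      refine Finset.sum_congr rfl fun k _ => ?_
      rw [LinearMap.smul_apply, pairL_el, smul_eq_mul, mul_comm]
    rw [h2, LinearMap.sum_apply]
    refine Finset.sum_congr rfl fun k _ => ?_
    rw [LinearMap.smul_apply, smul_eq_mul, mul_comm]
    rfl
  -- `A` is invertible
  have hcard : Fintype.card ι = Fintype.card (Fin g × Bool) := by
    rw [hι]
    simp [mul_comm]
  let e : ι ≃ (Fin g × Bool) := Fintype.equivOfCardEq hcard
  let A' : Matrix ι ι ℚ := A.submatrix id e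
  have hA' : IsUnit A' := by
    rw [← Matrix.linearIndependent_rows_iff_isUnit]
    rw [Fintype.linearIndependent_iff] at hind ⊢
    intro v hv
    apply hind v
    ext y
    have h1 := congrFun hv (e.symm y)
    simp only [Finset.sum_apply, Pi.smul_apply] at h1
    rw [Finsupp.finsetSum_apply, Finsupp.coe_zero, Pi.zero_apply]
    have h2 : ∀ i, (v i • A'.row i) (e.symm y) =
        (v i • Multiplicative.toAdd (SurfaceGroup.ab (j (x i)))) y := by
      intro i
      show v i • A i (e (e.symm y)) = _
      rw [Equiv.apply_symm_apply]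
      rfl
    rw [← Finset.sum_congr rfl (fun i _ => h2 i)]
    exact h1
  have hmain : A'.transpose * Ω * A' = (augL c) • (sympl g).submatrix e e := by
    rw [hEA] at hAE
    have h1 : A'.transpose * Ω * A' = (A.transpose * (Ω * A)).submatrix e e := by
      ext i k
      simp only [Matrix.submatrix_apply, A', Matrix.mul_assoc]
      rfl
    rw [h1, hAE]
    rfl
  refine ⟨w, c, hw, fun y => ?_, ?_, ?_⟩
  · show z' y = _
    rw [← hc]
    rfl
  · intro hc0
    rw [hc0, zero_smul] at hmain
    have hAt : IsUnit A'.transpose := by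
      rwa [Matrix.isUnit_transpose]
    have h1 : A'.transpose * Ω = 0 := by
      have := congrArg (· * A'⁻¹) hmain
      simp only [zero_mul] at this
      rw [Matrix.mul_assoc, Matrix.mul_nonsing_inv A' ((Matrix.isUnit_iff_isUnit_det _).mp hA'),
        Matrix.mul_one] at this
      exact this
    have := congrArg (A'.transpose⁻¹ * ·) h1
    simp only [mul_zero] at this
    rw [← Matrix.mul_assoc,
      Matrix.nonsing_inv_mul A'.transpose ((Matrix.isUnit_iff_isUnit_det _).mp hAt),
      Matrix.one_mul] at this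
    exact this
  · intro hc0
    rw [Matrix.isUnit_iff_isUnit_det]
    have h1 : IsUnit (A'.transpose * Ω * A').det := by
      rw [← Matrix.isUnit_iff_isUnit_det, hmain]
      have h2 : (augL c • (sympl g).submatrix e e) *
          ((-(augL c)⁻¹) • (sympl g).submatrix e e) = 1 := by
        rw [Matrix.smul_mul, Matrix.mul_smul, smul_smul, Matrix.submatrix_mul_equiv, sympl_sq]
        rw [mul_neg, mul_inv_cancel₀ hc0]
        ext i k
        by_cases hik : i = k <;> simp [Matrix.one_apply, hik]
      exact IsUnit.of_mul_eq_one _ h2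
    rw [Matrix.det_mul, Matrix.det_mul] at h1
    exact isUnit_of_mul_isUnit_right (isUnit_of_mul_isUnit_left h1)

/-- **P5**: the matrix of linear parts of a cycle is zero or invertible. -/
theorem p5 (j : H →* SurfaceGroup g) (hι : Fintype.card ι = 2 * g) (x : ι → H)
    (hx : Subgroup.closure (Set.range x) = ⊤)
    (hind : LinearIndependent ℚ (fun i => Multiplicative.toAdd (SurfaceGroup.ab (j (x i)))))
    (χ : H →* Multiplicative (ι → ℤ))
    (hχ : ∀ t, χ (x t) = Multiplicative.ofAdd (Pi.single t 1))
    {z : ι → QG H} (hz : z ∈ cyc x) :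
    (Matrix.of (fun i k => pairL (fun h => ((Multiplicative.toAdd (χ h) k : ℤ) : ℚ)) (z i)) :
      Matrix ι ι ℚ) = 0 ∨
    IsUnit (Matrix.of (fun i k => pairL (fun h => ((Multiplicative.toAdd (χ h) k : ℤ) : ℚ)) (z i)) :
      Matrix ι ι ℚ) := by
  obtain ⟨w, c, -, -, h1, h2⟩ := p5_core j hι x hx hind χ hχ hz
  by_cases hc : augL c = 0
  · exact Or.inl (h1 hc)
  · exact Or.inr (h2 hc)

end PFive

end Pool.Agent.SurfExact
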