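import Pool.Agent.SurfExact.BasicB

/-!
# The relation module of a presented group is generated by the Fox rows of the relators
-/

set_option autoImplicit false

namespace Pool.Agent.SurfExact

open Function Pool.Agent.SurfGrowth

section PR

variable {X : Type} [Fintype X] [DecidableEq X] (rels : Set (FreeGroup X))

/-- the submodule generated by the Fox rows of the relators -/
noncomputable def foxSpan : Submodule (QG (PresentedGroup rels)) (X → QG (PresentedGroup rels)) :=
  Submodule.span _ (fox (PresentedGroup.of (rels := rels)) '' rels)

theorem lift_of_eq_mk (w : FreeGroup X) :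
    FreeGroup.lift (PresentedGroup.of (rels := rels)) w = PresentedGroup.mk rels w := by
  have : FreeGroup.lift (PresentedGroup.of (rels := rels)) = PresentedGroup.mk rels := by
    apply FreeGroup.ext_hom
    intro t
    rw [FreeGroup.lift_apply_of]
    rfl
  rw [this]

theorem lift_rel {r : FreeGroup X} (hr : r ∈ rels) :
    FreeGroup.lift (PresentedGroup.of (rels := rels)) r = 1 := by
  rw [lift_of_eq_mk]
  exact PresentedGroup.one_of_mem hr

/-- the quotient of the free module by the Fox rows -/
abbrev FoxQ := (X → QG (PresentedGroup rels)) ⧸ foxSpan rels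

/-- the classes of the unit vectors -/
noncomputable def foxE (t : X) : FoxQ rels := (foxSpan rels).mkQ (Pi.single t 1)

theorem cross_foxE (w : FreeGroup X) :
    cross (FreeGroup.lift (PresentedGroup.of (rels := rels))) (foxE rels) w =
      (foxSpan rels).mkQ (fox (PresentedGroup.of (rels := rels)) w) := by
  have h2 : Crossed (FreeGroup.lift (PresentedGroup.of (rels := rels)))
      (fun w => (foxSpan rels).mkQ (fox (PresentedGroup.of (rels := rels)) w)) := by
    intro a b
    show (foxSpan rels).mkQ (fox (PresentedGroup.of (rels := rels)) (a * b)) = _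
    rw [fox_crossed, map_add, map_smul]
  have h3 := (cross_crossed (FreeGroup.lift (PresentedGroup.of (rels := rels))) (foxE rels)).ext h2
    (fun t => by
      show _ = (foxSpan rels).mkQ (fox (PresentedGroup.of (rels := rels)) (FreeGroup.of t))
      rw [cross_of, fox_of]
      rfl)
  exact congrFun h3 w

/-- the affine action of the presented group -/
noncomputable def foxAct : PresentedGroup rels →* Equiv.Perm (FoxQ rels) :=
  PresentedGroup.toGroup (f := fun t => affPerm (FreeGroup.lift (PresentedGroup.of (rels := rels)))
    (foxE rels) (FreeGroup.of t)) (by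
    intro r hr
    have h1 : FreeGroup.lift (fun t => affPerm (FreeGroup.lift (PresentedGroup.of (rels := rels)))
        (foxE rels) (FreeGroup.of t)) = affPerm (FreeGroup.lift (PresentedGroup.of (rels := rels)))
        (foxE rels) := by
      apply FreeGroup.ext_hom
      intro t
      rw [FreeGroup.lift_apply_of]
    rw [h1]
    ext m
    rw [affPerm_apply, cross_foxE, lift_rel rels hr, el_one, one_smul, Equiv.Perm.one_apply]
    have h2 : (foxSpan rels).mkQ (fox (PresentedGroup.of (rels := rels)) r) = 0 := by
      rw [Submodule.mkQ_apply, Submodule.Quotient.mk_eq_zero]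
      exact Submodule.subset_span ⟨r, hr, rfl⟩
    rw [h2, zero_add])

theorem foxAct_mk (w : FreeGroup X) (m : FoxQ rels) :
    foxAct rels (PresentedGroup.mk rels w) m =
      (foxSpan rels).mkQ (fox (PresentedGroup.of (rels := rels)) w) +
        el (PresentedGroup.mk rels w) • m := by
  have h1 : (foxAct rels).comp (PresentedGroup.mk rels) =
      affPerm (FreeGroup.lift (PresentedGroup.of (rels := rels))) (foxE rels) := by
    apply FreeGroup.ext_hom
    intro t
    show foxAct rels (PresentedGroup.of t) = _
    unfold foxAct
    rw [PresentedGroup.toGroup.of]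
  have h2 := DFunLike.congr_fun h1 w
  rw [MonoidHom.comp_apply] at h2
  rw [h2, affPerm_apply, cross_foxE, lift_of_eq_mk]

/-- the universal derivation -/
noncomputable def foxD (γ : PresentedGroup rels) : FoxQ rels := foxAct rels γ 0

theorem foxAct_apply (γ : PresentedGroup rels) (m : FoxQ rels) :
    foxAct rels γ m = foxD rels γ + el γ • m := by
  obtain ⟨w, rfl⟩ := PresentedGroup.mk_surjective rels γ
  unfold foxD
  rw [foxAct_mk, foxAct_mk, smul_zero, add_zero]

theorem foxD_mul (a b : PresentedGroup rels) :
    foxD rels (a * b) = foxD rels a + el a • foxD rels b := by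
  unfold foxD
  rw [map_mul, Equiv.Perm.mul_apply, foxAct_apply]
  rfl

theorem foxD_of (t : X) : foxD rels (PresentedGroup.of t) = foxE rels t := by
  unfold foxD foxAct
  rw [PresentedGroup.toGroup.of, affPerm_of, smul_zero, add_zero]

theorem pairL_foxD_mul (t : X) (y : QG (PresentedGroup rels)) :
    pairL (foxD rels) (y * (el (PresentedGroup.of t) - 1)) = y • foxE rels t := by
  have h : ∀ y : QG (PresentedGroup rels), pairL (foxD rels) (y * (el (PresentedGroup.of t) - 1)) =
      (LinearMap.toSpanSingleton (QG (PresentedGroup rels)) (FoxQ rels)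
        (foxE rels t)).restrictScalars ℚ y := by
    intro y
    have h1 : (pairL (foxD rels)).comp (LinearMap.mulRight ℚ (el (PresentedGroup.of t) - 1)) =
        (LinearMap.toSpanSingleton (QG (PresentedGroup rels)) (FoxQ rels)
          (foxE rels t)).restrictScalars ℚ := by
      apply linext
      intro γ
      rw [LinearMap.comp_apply, LinearMap.mulRight_apply, mul_sub, mul_one, ← el_mul, map_sub,
        pairL_el, pairL_el, foxD_mul, foxD_of]
      show _ = el γ • foxE rels t
      abel
    exact LinearMap.congr_fun h1 y
  rw [h y]
  rfl

/-- **Lemma PR**: the relation module is generated by the Fox rows of the relators. -/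
theorem cyc_presented : cyc (PresentedGroup.of (rels := rels)) = foxSpan rels := by
  apply le_antisymm
  · intro z hz
    rw [mem_cyc] at hz
    have h1 : pairL (foxD rels) (∑ t, z t * (el (PresentedGroup.of (rels := rels) t) - 1)) = 0 := by
      rw [hz, map_zero]
    rw [map_sum] at h1
    have h2 : ∑ t, z t • foxE rels t = (foxSpan rels).mkQ z := by
      have h3 : z = ∑ t, z t • (Pi.single t (1 : QG (PresentedGroup rels)) :
          X → QG (PresentedGroup rels)) := by
        funext t'
        rw [Finset.sum_apply, Finset.sum_eq_single t']
        · simp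
        · intro t _ ht
          simp [Pi.single_eq_of_ne ht.symm]
        · simp
      conv_rhs => rw [h3]
      rw [map_sum]
      refine Finset.sum_congr rfl fun t _ => ?_
      rw [map_smul]
      rfl
    have h4 : (foxSpan rels).mkQ z = 0 := by
      rw [← h2, ← h1]
      exact Finset.sum_congr rfl fun t _ => (pairL_foxD_mul rels t (z t)).symm
    rwa [Submodule.mkQ_apply, Submodule.Quotient.mk_eq_zero] at h4
  · unfold foxSpan
    rw [Submodule.span_le]
    rintro _ ⟨r, hr, rfl⟩
    show _ ∈ cyc _
    unfold cyc
    rw [LinearMap.mem_ker, bdry_fox, lift_rel rels hr, el_one, sub_self]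

end PR

theorem cyc_gen (g : ℕ) : cyc (SurfaceGroup.gen : Fin g × Bool → SurfaceGroup g) =
    Submodule.span (QG (SurfaceGroup g)) {fox SurfaceGroup.gen (surfaceRel g)} := by
  have h := cyc_presented ({surfaceRel g} : Set (FreeGroup (Fin g × Bool)))
  unfold foxSpan at h
  rw [Set.image_singleton] at h
  exact h

end Pool.Agent.SurfExact
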